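import Pool.Agent.Lib.TF.Blue

open Set Pool.Agent.Lib.MP_e39d36_ag Pool.Agent.Lib.MP_e39d36_ag.Var Pool.Agent.Lib.DU
  Pool.Agent.Lib.MV
open scoped Classical

noncomputable section

namespace Pool.Agent.Lib.TF

open Fano

namespace ACTB

variable {T : Fano} {K : Type} [Field K] [Algebra ℂ K]

theorem tq_fix {x z y w : T.Ray} {a : T.Λ} (h1 : a x + a z + a w = 0)
    (h2 : ∀ σ, T.Opp x σ → a x + a σ = 0) (h3 : ∀ σ, T.Opp z σ → a z + a σ = 0) :
    T.Tq ℤ x z y w a = a := funext fun ρ => by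
  rw [Tq_apply, h1, Finset.sum_eq_zero fun σ h => by rw [h2 σ (by simpa using h), zero_mul],
    Finset.sum_eq_zero fun σ h => by rw [h3 σ (by simpa using h), zero_mul]]
  ring

theorem crd (q : T.Pq) : (q.xs ⬝ᵥ T.v q.y = 1 ∧ q.zs ⬝ᵥ T.v q.y = 1) ∧
    (q.xs ⬝ᵥ T.v q.w = -1 ∧ q.zs ⬝ᵥ T.v q.w = -1) ∧
    (∀ σ, T.Opp q.x σ → q.xs ⬝ᵥ T.v σ = -1 ∧ q.zs ⬝ᵥ T.v σ = 0) ∧
    ∀ σ, T.Opp q.z σ → q.xs ⬝ᵥ T.v σ = 0 ∧ q.zs ⬝ᵥ T.v σ = -1 := by
  refine ⟨?_, ?_, fun σ h => ?_, fun σ h => ?_⟩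
  · simp [q.tri.dot, q.xx, q.xz, q.zx, q.zz]
  · simp [q.opp.dot, q.tri.dot, q.xx, q.xz, q.zx, q.zz]
  · simp [h.dot, q.xx, q.zx]
  · simp [h.dot, q.xz, q.zz]

theorem sg {r s : T.Ray} (u : T.M) (h : u ⬝ᵥ T.v s ≠ u ⬝ᵥ T.v r) :
    (Pi.single r 1 : T.Λ) s = 0 := Pi.single_eq_of_ne (fun e => h (by rw [e])) _

theorem tq_opp (q : T.Pq) {σ : T.Ray} (h : T.Opp q.x σ) :
    T.Tq ℤ q.x q.z q.y q.w (Pi.single σ 1) = T.ka q.x q.z q.y - Pi.single σ 1 := funext fun ρ => by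
  obtain ⟨-, ⟨c1, c2⟩, c3, c4⟩ := crd q
  obtain ⟨c5, c6⟩ := c3 σ h
  have e : Finset.univ.filter (T.Opp q.x) = {σ} := Finset.ext fun s => by
    simpa using ⟨fun h' => h'.uniq h, fun e => e ▸ h⟩
  rw [Tq_apply, e, Finset.sum_singleton, sg (s := q.x) q.xs (by rw [q.xx, c5]; omega),
    sg (s := q.z) q.zs (by rw [q.zz, c6]; omega), sg (s := q.w) q.zs (by rw [c2, c6]; omega),
    Finset.sum_eq_zero fun s hs => by
      rw [sg (s := s) q.xs (by rw [(c4 s (by simpa using hs)).1, c5]; omega), add_zero, zero_mul]]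
  simp only [Pi.sub_apply, Pi.single_apply]
  split_ifs <;> simp <;> ring

theorem tq_z (q : T.Pq) :
    T.Tq ℤ q.x q.z q.y q.w (Pi.single q.z 1) = Pi.single q.z 1 + 3 • T.ka q.x q.z q.y -
      Pi.single q.w 2 - ∑ σ with T.Opp q.z σ, Pi.single σ 2 -
        ∑ _σ with T.Opp q.x _σ, T.ka q.x q.z q.y := funext fun ρ => by
  obtain ⟨-, ⟨c1, c2⟩, c3, c4⟩ := crd q
  rw [Tq_apply, sg (s := q.x) q.xs (by rw [q.xx, q.xz]; omega),
    sg (s := q.w) q.zs (by rw [c2, q.zz]; omega), Pi.single_eq_same,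
    Finset.sum_eq_zero fun s hs => by
      rw [sg (s := s) q.zs (by rw [(c3 s (by simpa using hs)).2, q.zz]; omega), add_zero, zero_mul],
    Finset.sum_congr rfl fun s hs => by
      rw [sg (s := s) q.zs (by rw [(c4 s (by simpa using hs)).2, q.zz]; omega), add_zero, one_mul]]
  simp only [Pi.sub_apply, Pi.add_apply, Pi.smul_apply, Finset.sum_apply, Pi.single_apply,
    Finset.sum_sub_distrib, dq, Int.cast_id]
  simp only [Finset.sum_const, nsmul_eq_mul]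
  push_cast
  ring

variable (M : T.Mod K)

theorem std_single (r : T.Ray) : M.std (Pi.single r 1) = Finsupp.single (M.D r) 1 := by
  change ∑ ρ, Finsupp.single (M.D ρ) ((Pi.single r 1 : T.Λ) ρ) = _
  rw [Finset.sum_eq_single r (fun ρ _ h => by rw [Pi.single_eq_of_ne h, Finsupp.single_zero])
    (by simp), Pi.single_eq_same]

/-- The divisors on which the formula holds. -/
def H (e : M.X.PD ≃ M.X.PD) (L : T.Λ →ₗ[ℤ] T.Λ) : AddSubgroup T.Λ where
  carrier := {a | End.LE (End.push e (M.std a)) (M.std (L a))}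
  zero_mem' := End.LE.of_eq (by simp)
  add_mem' := fun h h' => by simpa only [mem_ofPred_eq, map_add] using End.LE.add h h'
  neg_mem' := fun h => by simpa only [mem_ofPred_eq, map_neg] using End.LE.neg h

theorem half (h2 : St_SIG2) (q : T.Pq) {φ : RingAut K} {e : M.X.PD ≃ M.X.PD} (h : M.Sig q φ e) :
    Pi.single q.z 1 ∈ H M e (T.Tq ℤ q.x q.z q.y q.w) ∧
      ∀ σ, T.Opp q.x σ → Pi.single σ 1 ∈ H M e (T.Tq ℤ q.x q.z q.y q.w) := by
  obtain ⟨a1, a2⟩ := h2 T K M q φ e h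
  have a3 : ∀ σ, T.Opp q.x σ → Pi.single σ 1 ∈ H M e (T.Tq ℤ q.x q.z q.y q.w) := fun σ hσ => by
    change End.LE _ _
    rw [tq_opp q hσ]
    exact a2 σ hσ
  refine ⟨(AddSubgroup.add_mem_cancel_right _
    (sum_mem fun σ (hσ : σ ∈ Finset.univ.filter (T.Opp q.x)) => a3 σ (by simpa using hσ))).1 ?_, a3⟩
  refine a1.trans (End.LE.of_eq (congrArg _ ?_))
  rw [map_add, map_sum, tq_z, Finset.sum_congr rfl fun σ hσ => tq_opp q (by simpa using hσ),
    Finset.sum_sub_distrib]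
  abel

end ACTB

open ACTB in
theorem st_ACT (hC : St_C1) (hB : St_BAS) (i0 : St_IOT0) (i3 : St_IOT3) (hE : St_EQS)
    (s0 : St_SIG0) (s1 : St_SIG1) (s2 : St_SIG2) : St_ACT := by
  rintro T K _ _ M (⟨z, z', h⟩ | ⟨x, z, y, w, h, h'⟩)
  · obtain ⟨φ, e, hI⟩ := i0 T K M z z' h
    refine ⟨φ, e, hI.ps, fun a => ?_⟩
    have := i3 T K M z z' h φ e hI a
    generalize (_ * _ : K) = s at this
    by_cases hs : s = 0
    · exact End.LE.of_eq (this.trans (by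
        rw [hs, show M.X.div 0 = 0 from Finsupp.ext fun E => by simp [ord_val], add_zero]; rfl))
    · exact ⟨s, hs, this⟩
  obtain ⟨xs, xx, xz⟩ := (hC T).dual x z y h 1 0
  obtain ⟨zs, zx, zz⟩ := (hC T).dual x z y h 0 1
  let q : T.Pq := ⟨x, z, y, w, xs, zs, h, h', xx, xz, zx, zz⟩
  obtain ⟨φ, e, hS⟩ := s0 T K M q
  obtain ⟨f1, f2, -⟩ := s1 T K M q φ e hS
  obtain ⟨a1, a2⟩ := half M s2 q hS
  obtain ⟨a3, a4⟩ := half M s2 q.swap (hS.swap (hE T K M q))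
  obtain ⟨⟨c1, c2⟩, ⟨c3, c4⟩, c5, c6⟩ := crd q
  dsimp only [q, Pq.swap] at f1 f2 a1 a2 a3 a4 c1 c2 c3 c4 c5 c6
  rw [← Tq_comm] at a3 a4
  have fx : ∀ r, e (M.D r) = M.D r → T.Tq ℤ x z y w (Pi.single r 1) = Pi.single r 1 →
      Pi.single r 1 ∈ H M e (T.Tq ℤ x z y w) := fun r h1 h2 => End.LE.of_eq (by
    rw [h2, std_single]
    exact (Finsupp.equivMapDomain_single e _ 1).trans (by rw [h1]))
  have a5 : ∀ r, r ≠ w → Pi.single r 1 ∈ H M e (T.Tq ℤ x z y w) := fun r hr => by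
    by_cases hv : T.InV x z r
    · rcases (hC T).inv x z y h r hv with rfl | rfl | rfl | h1 | h1 | h1
      · exact a3
      · exact a1
      · have e1 := sg (r := r) (s := x) zs (by omega)
        have e2 := sg (r := r) (s := z) xs (by omega)
        exact fx r f1 (tq_fix (by rw [e1, e2, sg xs (by omega)]; rfl)
          (fun σ h => by rw [e1, sg xs (by have := c5 σ h; omega)]; rfl)
          fun σ h => by rw [e2, sg xs (by have := c6 σ h; omega)]; rfl)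
      · exact a2 r h1
      · exact absurd (h1.uniq h') hr
      · exact a4 r h1
    · have e0 : ∀ s (i j : ℤ), T.v s = i • T.v x + j • T.v z → (Pi.single r 1 : T.Λ) s = 0 :=
        fun s i j hs => Pi.single_eq_of_ne (fun e : s = r => hv (e ▸ ⟨i, j, hs⟩)) _
      have e1 := e0 x 1 0 (by simp)
      have e2 := e0 z 0 1 (by simp)
      refine fx r (f2 r hv) (tq_fix ?_ (fun σ h => ?_) fun σ h => ?_)
      · rw [e1, e2, e0 w (-1) (-1) (by
          rw [eq_neg_of_add_eq_zero_right h', ← show _ = T.v y from h]; simp [add_comm])]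
        rfl
      · rw [e1, e0 σ (-1) 0 (by rw [eq_neg_of_add_eq_zero_right h]; simp)]
        rfl
      · rw [e2, e0 σ 0 (-1) (by rw [eq_neg_of_add_eq_zero_right h]; simp)]
        rfl
  have a6 : T.mv zs ∈ H M e (T.Tq ℤ x z y w) := by
    change End.LE _ _
    rw [tq_fix (by simp only [mv]; omega) (fun σ h => by have := c5 σ h; simp only [mv]; omega)
      (fun σ h => by have := c6 σ h; simp only [mv]; omega), ← (hB T K M).div, hS.ps.push_div]
    exact End.LE.trans (D' := 0) ⟨_, (map_ne_zero φ).2 (M.χ_ne zs), (zero_add _).symm⟩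
      (End.LE.symm ⟨_, M.χ_ne zs, (zero_add _).symm⟩)
  have ex : ∀ a : T.Λ, a = a w • Pi.single w 1 + ∑ r ∈ Finset.univ.erase w, a r • Pi.single r 1 :=
    fun a => by
      rw [Finset.add_sum_erase _ (fun r => a r • (Pi.single r 1 : T.Λ)) (Finset.mem_univ w)]
      exact pi_eq_sum_univ' a
  have a7 : ∀ a : T.Λ, ∑ r ∈ Finset.univ.erase w, a r • Pi.single r 1 ∈ H M e (T.Tq ℤ x z y w) :=
    fun a => sum_mem fun r hr => zsmul_mem (a5 r (Finset.ne_of_mem_erase hr)) _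
  rw [ex (T.mv zs), AddSubgroup.add_mem_cancel_right _ (a7 _), show T.mv zs w = -1 from c4,
    neg_smul, one_smul, neg_mem_iff] at a6
  refine ⟨φ, e, hS.ps, fun a => ?_⟩
  change a ∈ H M e (T.Tq ℤ x z y w)
  rw [ex a]
  exact add_mem (zsmul_mem a6 _) (a7 a)

end Pool.Agent.Lib.TF
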