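import Pool.Agent.Lib.TF.LBlue

open scoped Classical

noncomputable section

namespace Pool.Agent.Lib.TF

open Fano

namespace BALB

variable {T : Fano}

/-- The ray is moved along a line. -/
def Mv (x : T.Ray) : Prop := ∃ y w w', T.Tri x w y ∧ T.Opp w w'

/-- The partner of a moved ray. -/
def sg (x : T.Ray) : T.Ray := if h : Mv x then h.choose else x

lemma sg_of_not {x : T.Ray} (h : ¬Mv x) : sg x = x := dif_neg h

lemma sg_eq (hR : T.RegN) {x w y w' : T.Ray} (h : T.Tri x w y) (h' : T.Opp w w') : sg x = y := by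
  have hx : Mv x := ⟨y, w, w', h, h'⟩
  rw [sg, dif_pos hx]
  obtain ⟨t, t', h1, -⟩ := hx.choose_spec
  obtain rfl := hR _ _ _ _ _ h1 h
  exact h1.uniq h

lemma sg_inv (hR : T.RegN) : Function.Involutive (sg : T.Ray → T.Ray) := fun x => by
  by_cases hx : Mv x
  · obtain ⟨y, w, w', h, h'⟩ := hx
    rw [sg_eq hR h h', sg_eq hR (h.opp h') h'.symm]
  · rw [sg_of_not hx, sg_of_not hx]

lemma not_mv (h0 : T.C0) (hR : T.RegN) {x w y w' : T.Ray} (h : T.Tri x w y) (h' : T.Opp w w') :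
    ¬Mv w' := by
  rintro ⟨s, t, t', h1, h2⟩
  obtain rfl := hR _ _ _ _ _ h1 (h.opp h').symm
  obtain rfl := hR _ _ _ _ _ h (((h.opp h').symm.opp h2))
  obtain ⟨m, -, hm⟩ := h0.ray x
  have e1 := mem_F.1 (hm (Finset.mem_singleton_self x))
  have e2 := h.dot m
  have e3 := h2.dot m
  omega

lemma exists_pos (h0 : T.C0) : ∃ g : T.Λ, (∀ ρ, 1 ≤ g ρ) ∧ ∑ ρ, g ρ • T.v ρ = 0 := by
  obtain ⟨m, -, c, hc, -, e⟩ := h0.cov (-∑ ρ, T.v ρ)
  refine ⟨fun ρ => 1 + c ρ, fun ρ => le_add_of_nonneg_right (hc ρ), ?_⟩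
  simp only [add_smul, one_smul, Finset.sum_add_distrib]
  rw [← e, add_neg_cancel]

lemma exists_corr (h0 : T.C0) (hR : T.RegN) (x : T.Ray) : ∃ e : T.Λ, (∀ ρ, 0 ≤ e ρ) ∧
    (∀ ρ, Mv ρ → e ρ = 0) ∧ ∑ ρ, e ρ • T.v ρ = T.v x - T.v (sg x) := by
  by_cases hx : Mv x
  · obtain ⟨y, w, w', h, h'⟩ := hx
    refine ⟨fun ρ => if ρ = w' then 1 else 0, fun ρ => by positivity, fun ρ hρ =>
      if_neg fun e : ρ = w' => not_mv h0 hR h h' (e ▸ hρ), ?_⟩
    rw [sg_eq hR h h', ← h.opp h']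
    simp
  · exact ⟨0, fun _ => le_rfl, fun _ _ => rfl, by simp [sg_of_not hx]⟩

lemma exists_bal (h0 : T.C0) (hR : T.RegN) : ∃ g : T.Λ, (∀ ρ, 1 ≤ g ρ) ∧
    ∑ ρ, g ρ • T.v ρ = 0 ∧ ∀ x w y w', T.Tri x w y → T.Opp w w' → g x = g y := by
  obtain ⟨g, hg, e⟩ := exists_pos h0
  choose c c0 c1 c2 using exists_corr h0 hR
  refine ⟨fun ρ => g ρ + g (sg ρ) + ∑ x, g x * c x ρ, fun ρ => ?_, ?_, fun x w y w' h h' => ?_⟩
  · have h1 := hg ρ
    have h2 := hg (sg ρ)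
    have h3 : 0 ≤ ∑ x, g x * c x ρ :=
      Finset.sum_nonneg fun x _ => mul_nonneg (by have := hg x; omega) (c0 x ρ)
    show 1 ≤ g ρ + g (sg ρ) + ∑ x, g x * c x ρ
    omega
  · have h1 : ∑ ρ, g (sg ρ) • T.v ρ = ∑ ρ, g ρ • T.v (sg ρ) :=
      Fintype.sum_bijective sg (sg_inv hR).bijective _ _ fun ρ => by rw [sg_inv hR ρ]
    have h2 : ∑ ρ, (∑ x, g x * c x ρ) • T.v ρ = ∑ x, g x • (T.v x - T.v (sg x)) := by
      simp only [Finset.sum_smul, mul_smul]
      rw [Finset.sum_comm]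
      exact Finset.sum_congr rfl fun x _ => by rw [← Finset.smul_sum, c2]
    simp only [add_smul, Finset.sum_add_distrib]
    rw [h1, h2]
    simp only [smul_sub, Finset.sum_sub_distrib, e]
    abel
  · have h1 : ∑ t, g t * c t x = 0 :=
      Finset.sum_eq_zero fun t _ => by rw [c1 t x ⟨y, w, w', h, h'⟩, mul_zero]
    have h2 : ∑ t, g t * c t y = 0 :=
      Finset.sum_eq_zero fun t _ => by rw [c1 t y ⟨x, w', w, h.opp h', h'.symm⟩, mul_zero]
    show g x + g (sg x) + ∑ t, g t * c t x = g y + g (sg y) + ∑ t, g t * c t y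
    rw [h1, h2, sg_eq hR h h', sg_eq hR (h.opp h') h'.symm, add_comm (g x)]

lemma ne_of_opp (hR : T.RegN) {x w y w' x' : T.Ray} (h : T.Tri x w y) (h' : T.Opp w w')
    (hx : T.Opp x x') : w = x := by
  obtain rfl := hR _ _ _ _ _ (h.opp h') (h.symm.opp hx)
  exact h'.symm.uniq hx.symm

lemma opp_ne {z z' : T.Ray} (h : T.Opp z z') : z ≠ z' := by
  rintro rfl
  refine T.ne z (funext fun i => ?_)
  have := congrFun h i
  simp only [Pi.add_apply, Pi.zero_apply] at this ⊢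
  omega

end BALB

open BALB in
theorem st_BAL (hC : St_C0) : St_BAL := by
  intro T hR z z' hz
  obtain ⟨g, hg, e, hb⟩ := exists_bal (hC T) hR
  have key : ∀ x w y w', T.Tri x w y → T.Opp w w' → w ≠ z → w ≠ z' → ¬(x = z ∨ x = z') := by
    rintro x w y w' h h' h1 h2 (rfl | rfl)
    · exact h1 (ne_of_opp hR h h' hz)
    · exact h2 (ne_of_opp hR h h' hz.symm)
  refine ⟨fun ρ => if ρ = z ∨ ρ = z' then 0 else g ρ, g z' - g z, if_pos (Or.inl rfl),
    if_pos (Or.inr rfl), fun ρ h1 h2 => ?_, ?_, fun x w y w' h h' h1 h2 => ?_⟩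
  · rw [if_neg (not_or.2 ⟨h1, h2⟩)]
    exact hg ρ
  · have h1 : ∀ ρ, (if ρ = z ∨ ρ = z' then 0 else g ρ) • T.v ρ = g ρ • T.v ρ -
        (if ρ = z then g z • T.v z else 0) - if ρ = z' then g z' • T.v z' else 0 := fun ρ => by
      have := opp_ne hz
      by_cases h1 : ρ = z
      · subst h1
        simp [this]
      · by_cases h2 : ρ = z'
        · subst h2
          simp [h1]
        · simp [h1, h2]
    simp only [h1, Finset.sum_sub_distrib, e, Finset.sum_ite_eq', Finset.mem_univ, if_true]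
    rw [eq_neg_of_add_eq_zero_right hz, sub_smul, smul_neg]
    abel
  · rw [if_neg (key x w y w' h h' h1 h2), if_neg (key y w' x w (h.opp h') h'.symm
      (fun e => h2 (h'.symm.uniq (e ▸ hz))) fun e => h1 (h'.symm.uniq (e ▸ hz.symm)))]
    exact hb x w y w' h h'

end Pool.Agent.Lib.TF
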