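import Pool.Agent.Lib.TF.Blue

open Set Pool.Agent.Lib.MP_e39d36_ag Pool.Agent.Lib.MP_e39d36_ag.Var Pool.Agent.Lib.DU
  Pool.Agent.Lib.MV
open scoped Classical NNReal

set_option linter.unusedSectionVars false
set_option linter.unusedVariables false

noncomputable section

namespace Pool.Agent.Lib.TF

open Fano

namespace BASB

variable {T : Fano} {K : Type} [Field K] [Algebra ℂ K] (M : T.Mod K)

lemma inj : Function.Injective M.D := fun ρ σ h => T.inj (funext fun i => by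
  have h1 := (M.isD ρ).1 (Pi.single i 1)
  rw [h, (M.isD σ).1] at h1
  simpa using h1.symm)

lemma nt (ρ : T.Ray) : ¬M.NT (M.D ρ) := fun h => T.ne ρ (funext fun i => by
  have h1 := (M.isD ρ).1 (Pi.single i 1)
  rw [h] at h1
  simpa using h1.symm)

lemma geD (ρ : T.Ray) (k : ℤ) (G : T.R) (h : Lo (T.v ρ) k G) : M.ψ G ∈ ordGe (M.D ρ) k := by
  have h1 := ((M.isD ρ).2 (k - 1) G (h.le (by omega))).2 (by
    rw [Lo.inn_eq_zero (h.le (by omega))]
    exact dvd_zero _)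
  rwa [sub_add_cancel] at h1

lemma geN (E : M.X.PD) (h : M.NT E) (G : T.R) : M.ψ G ∈ ordGe E 0 := by
  rw [eq_sum G, map_sum]
  refine sum_mem fun u _ => ?_
  rw [map_smul]
  exact Submodule.smul_mem _ _ (Or.inr (h u).ge)

lemma leD (h0 : T.C0) (τ : Finset T.Ray) (hτ : T.Face τ) (ρ : T.Ray) :
    M.B τ ≤ M.X.O (M.D ρ).1 ↔ ρ ∈ τ := by
  refine ⟨fun h => ?_, fun h s hs => ?_⟩
  · by_contra h1
    obtain ⟨m, hm, hτ⟩ := hτ
    obtain ⟨u, h2, h3⟩ : ∃ u : T.M, (∀ σ ∈ τ, 0 ≤ u ⬝ᵥ T.v σ) ∧ u ⬝ᵥ T.v ρ < 0 := by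
      by_cases h2 : ρ ∈ T.F m
      · obtain ⟨u, hu⟩ := h0.dual m hm (-Pi.single ρ 1)
        refine ⟨u, fun σ hσ => ?_, by simp [hu ρ h2]⟩
        rw [hu σ (hτ hσ), Pi.neg_apply, Pi.single_eq_of_ne (ne_of_mem_of_not_mem hσ h1), neg_zero]
      · have a1 := hm.1 ρ
        rw [mem_F] at h2
        have a2 : 0 ≤ ∑ σ, |T.v ρ ⬝ᵥ T.v σ| := Finset.sum_nonneg fun _ _ => abs_nonneg _
        have a3 : 0 < T.v ρ ⬝ᵥ T.v ρ := lt_of_le_of_ne
          (Finset.sum_nonneg fun _ _ => mul_self_nonneg _)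
          fun e => T.ne ρ (dotProduct_self_eq_zero.1 e.symm)
        refine ⟨-((∑ σ, |T.v ρ ⬝ᵥ T.v σ|) • m) - T.v ρ, fun σ hσ => ?_, ?_⟩
        · have a4 := Finset.single_le_sum (f := fun σ => |T.v ρ ⬝ᵥ T.v σ|)
            (fun _ _ => abs_nonneg _) (Finset.mem_univ σ)
          have a5 := le_abs_self (T.v ρ ⬝ᵥ T.v σ)
          rw [sub_dotProduct, neg_dotProduct, smul_dotProduct, mem_F.1 (hτ hσ), smul_eq_mul]
          omega
        · have a4 := mul_nonneg a2 (show 0 ≤ m ⬝ᵥ T.v ρ by omega)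
          rw [sub_dotProduct, neg_dotProduct, smul_dotProduct, smul_eq_mul]
          omega
    have h4 : M.χ u ∈ M.B τ := ⟨mn u, fun σ hσ => sup_mn.2 (by simpa using h2 σ hσ), rfl⟩
    have h5 := ord_nonneg (h h4)
    rw [(M.isD ρ).1] at h5
    omega
  · obtain ⟨G, h1, rfl⟩ := M.mem_B.1 hs
    exact ge_zero_iff.1 (geD M ρ 0 G (by simpa using h1 ρ h))

lemma stdD (a : T.Λ) (ρ : T.Ray) : M.std a (M.D ρ) = a ρ := by
  show (∑ σ, Finsupp.single (M.D σ) (a σ)) (M.D ρ) = a ρ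
  rw [Finsupp.finsetSum_apply, Finset.sum_eq_single ρ (fun σ _ h =>
    Finsupp.single_eq_of_ne' ((inj M).ne h)) (by simp), Finsupp.single_eq_same]

lemma stdN (a : T.Λ) (E : M.X.PD) (h : M.NT E) : M.std a E = 0 := by
  show (∑ σ, Finsupp.single (M.D σ) (a σ)) E = 0
  rw [Finsupp.finsetSum_apply]
  exact Finset.sum_eq_zero fun σ _ => Finsupp.single_eq_of_ne' fun e => nt M σ (e ▸ h)

lemma sec (h0 : T.C0) (τ : Finset T.Ray) (hτ : T.Face τ) (a : T.Λ) (s : K)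
    (h1 : ∀ E, M.NT E → s ∈ ordGe E 0) (h2 : ∀ ρ ∈ τ, s ∈ ordGe (M.D ρ) (-a ρ)) :
    ∃ G ∈ T.S a τ, M.ψ G = s := by
  obtain ⟨m, hm, hm'⟩ := id hτ
  obtain ⟨u, hu⟩ := h0.dual m hm a
  have h3 : s * M.χ u ∈ M.B τ := mem_of_forall_loc fun S a1 a2 => by
    obtain ⟨z, rfl⟩ := M.pts.pt τ hτ S a1 a2
    refine hartogs fun E hE => ord_nonneg (ge_zero_iff.1 ?_)
    rcases M.tor E with h | ⟨ρ, rfl⟩
    · exact ge_mono (ge_mul (h1 E h) (geN M E h (mn u))) (by omega)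
    · have a3 := (leD M h0 τ hτ ρ).1 (a2.1.trans hE)
      have a4 := ge_mul (h2 ρ a3) (ge_ord (M.χ u) (M.D ρ))
      rwa [(M.isD ρ).1, hu ρ (hm' a3), neg_add_cancel] at a4
  obtain ⟨G, h4, h5⟩ := M.mem_B.1 h3
  refine ⟨G * mn (-u), fun ρ hρ => ?_, ?_⟩
  · have a1 : Lo (T.v ρ) (-a ρ) (mn (-u)) := sup_mn.2 (by rw [neg_dotProduct, hu ρ (hm' hρ)])
    simpa using Lo.mul (h4 ρ hρ) a1
  · rw [map_mul, h5]
    show s * M.χ u * M.χ (-u) = s
    rw [M.χ_neg, mul_inv_cancel_right₀ (M.χ_ne u)]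

lemma val (h0 : T.C0) (ρ : T.Ray) (w : T.M) (k a : ℤ) (G : T.R) (h1 : ¬∃ j : ℤ, w = j • T.v ρ)
    (h2 : Hom w k G) (h3 : Lo (T.v ρ) a G) (h4 : At (T.v ρ) a G) :
    M.ψ G ≠ 0 ∧ M.X.ord (M.ψ G) (M.D ρ).1 = a := by
  refine ord_of_not_ge (geD M ρ a G h3) fun h => ?_
  obtain ⟨b, hb⟩ := Hom.of_dvd (inn_ne_zero.2 h4) (Sup.part h2) (((M.isD ρ).2 a G h3).1 h)
  obtain ⟨u, u', a1, a2, a3, a4, a5⟩ := h0.two ρ w h1
  have a6 := hb u (by rw [coeff_part, if_pos a3]; exact M.gen.ne a1)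
  have a7 := hb u' (by rw [coeff_part, if_pos a4]; exact M.gen.ne a2)
  exact a5 (a6.trans a7.symm)

lemma ne (h0 : T.C0) (w : T.M) (k : ℤ) (G : T.R) (h1 : w ≠ 0) (h2 : Hom w k G) (h3 : G ≠ 0) :
    M.ψ G ≠ 0 := fun h => by
  obtain ⟨b, hb⟩ := Hom.of_dvd h3 h2 ((M.ker G).1 h)
  obtain ⟨m, hm, c, a1, a2, a3⟩ := h0.cov w
  have a4 := hb 0 (M.gen.ne fun ρ => by simp)
  have a5 := hb m (M.gen.ne hm.1)
  have a6 : m ⬝ᵥ w = -∑ ρ, c ρ := by
    rw [a3, dotProduct_sum, ← Finset.sum_neg_distrib]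
    refine Finset.sum_congr rfl fun ρ _ => ?_
    by_cases e : ρ ∈ T.F m
    · rw [dotProduct_smul, mem_F.1 e]
      simp
    · simp [a2 ρ e]
  have a7 : ∑ ρ, c ρ = 0 := by
    beta_reduce at a4 a5
    rw [zero_dotProduct] at a4
    omega
  rw [Finset.sum_eq_zero_iff_of_nonneg fun ρ _ => a1 ρ] at a7
  exact h1 (a3.trans (Finset.sum_eq_zero fun ρ hρ => by rw [a7 ρ hρ, zero_smul]))

lemma cls (a : T.Λ) : M.cl (rc a) = M.nc (M.std a) := by
  show _ = M.nc (∑ σ, Finsupp.single (M.D σ) (a σ))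
  rw [Mod.cl, Fintype.linearCombination_apply, map_sum]
  refine Finset.sum_congr rfl fun ρ _ => ?_
  rw [rc, Int.cast_smul_eq_zsmul, ← map_zsmul, Finsupp.smul_single, smul_eq_mul, mul_one]

end BASB

open BASB in
theorem st_BAS (hC0 : St_C0) : St_BAS := fun T K _ _ M =>
  { inj := inj M
    nt := nt M
    geD := geD M
    geN := geN M
    leD := leD M (hC0 T)
    leN := fun E h τ s hs => by
      obtain ⟨G, -, rfl⟩ := M.mem_B.1 hs
      exact ge_zero_iff.1 (geN M E h G)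
    stdD := stdD M
    stdN := stdN M
    div := fun u => Finsupp.ext fun E => by
      rcases M.tor E with h | ⟨ρ, rfl⟩
      · rw [stdN M _ E h, div_apply, h u]
      · rw [stdD, div_apply, (M.isD ρ).1]
        rfl
    mem := fun a s => by
      rw [Mod.Sec, Submodule.mem_iInf]
      refine ⟨fun h => ⟨fun E hE => ?_, fun ρ => ?_⟩, fun h E => ?_⟩
      · simpa [stdN M a E hE] using h E
      · simpa [stdD] using h (M.D ρ)
      · rcases M.tor E with h1 | ⟨ρ, rfl⟩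
        · simpa [stdN M a E h1] using h.1 E h1
        · simpa [stdD] using h.2 ρ
    mem' := fun a s h => by
      rw [Mod.Sec, Submodule.mem_iInf, Finsupp.le_def]
      refine forall_congr' fun E => ?_
      rw [ge_iff h, Finsupp.add_apply, div_apply, Finsupp.zero_apply]
      omega
    locEq := fun m hm z hz a u hu => LocEq.mk' (M.χ_ne u) fun E hE => by
      rcases M.tor E with h | ⟨ρ, rfl⟩
      · rw [stdN M _ E h, h u]
      · rw [stdD, (M.isD ρ).1,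
          hu ρ ((leD M (hC0 T) _ ⟨m, hm, subset_rfl⟩ ρ).1 (hz.trans hE))]
    sec := sec M (hC0 T)
    val := val M (hC0 T)
    ne := ne M (hC0 T)
    cls := cls M }

end Pool.Agent.Lib.TF
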