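import Pool.Agent.Lib.TF.Blue

open Set Pool.Agent.Lib.MP_e39d36_ag Pool.Agent.Lib.MP_e39d36_ag.Var Pool.Agent.Lib.DU
  Pool.Agent.Lib.MV
open scoped Classical NNReal

noncomputable section

namespace Pool.Agent.Lib.TF

open Fano

namespace XBASE

variable {T : Fano} {K : Type} [Field K] [Algebra ℂ K] {M : T.Mod K}

lemma at_fr {f : T.R} (hf : T.Gen f) {m : T.M} (hm : T.V m) {r : T.Ray} (hr : r ∈ T.F m)
    (w : T.M) : At w (m ⬝ᵥ w) (T.fr f r) :=
  ⟨m, by rw [coeff_part, if_pos (mem_F.1 hr)]; exact hf.ne hm.1, rfl⟩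

/-- One exponent can be lowered. -/
lemma step (h0 : T.C0) (h1 : T.C1) (hB : M.Bas) {a c : T.Λ}
    (ho : ∀ z z', T.Opp z z' → 1 ≤ a z + a z') {G : T.R} (hs : M.ψ G ∈ M.Sec a)
    (ht : ∀ x z y, T.Tri x z y → M.ψ G ∈ ordGe (M.D y) (-a x - a z)) (hc : ∀ ρ, a ρ ≤ c ρ)
    (hG : G ∈ T.S c Finset.univ) {r : T.Ray} (hr : a r < c r) :
    ∃ G' ∈ T.S (c - Pi.single r 1) Finset.univ, M.ψ G' = M.ψ G := by
  have lo : ∀ ρ, Lo (T.v ρ) (-c ρ) G := fun ρ => hG ρ (Finset.mem_univ ρ)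
  obtain ⟨Q, hQ⟩ := ((M.isD r).2 _ G (lo r)).1 (ge_mono (((hB.mem a _).1 hs).2 r) (by omega))
  obtain ⟨m, hm, hm'⟩ := h0.ray r
  have f0 : T.fr M.f r ≠ 0 := ne_zero_iff.2
    ((at_fr M.gen hm (hm' (Finset.mem_singleton_self r)) 0).imp fun _ h => h.1)
  have q1 : Hom (T.v r) (1 - c r) Q := Hom.cancel (a := -1) sup_part f0 (by
    rw [← hQ, show -1 + (1 - c r) = -c r by ring]; exact sup_part)
  have lg : ∀ ρ, Lo (T.v ρ) (-c ρ) (T.fr M.f r * Q) := fun ρ => hQ ▸ Sup.part (lo ρ)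
  refine ⟨G - M.f * Q, fun σ _ => ?_, by rw [map_sub, map_mul, M.ψ_f, zero_mul, sub_zero]⟩
  by_cases e : σ = r
  · subst e
    have e1 : G - M.f * Q = (G - inn (T.v σ) (-c σ) G) - (M.f - T.fr M.f σ) * Q := by
      rw [hQ]; ring
    rw [e1, Pi.sub_apply, Pi.single_eq_same]
    exact Sup.sub ((lo σ).sub_inn.le (by omega))
      ((Lo.mul (M.gen.lo σ).sub_inn q1.lo).le (by omega))
  rw [Pi.sub_apply, Pi.single_eq_of_ne e, sub_zero]
  suffices h : Lo (T.v σ) (1 - c σ) Q from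
    Sup.sub (lo σ) ((Lo.mul (M.gen.lo σ) h).le (by omega))
  by_cases hn : T.Nb r σ
  · obtain ⟨m, hm, hm'⟩ := hn
    have a1 := at_fr M.gen hm (hm' (Finset.mem_insert_self r _)) (T.v σ)
    rw [mem_F.1 (hm' (Finset.mem_insert_of_mem (Finset.mem_singleton_self σ)))] at a1
    exact Lo.cancel (Sup.part (M.gen.lo σ)) a1 ((lg σ).le (by omega))
  rcases (h1.nf r σ).1 hn with h | ⟨t, h⟩
  · have a1 := ho r σ h
    have a2 := hc σ
    exact Sup.mono q1 fun u hu => by rw [h.dot]; omega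
  · have a0 : σ ≠ t := fun e => T.ne r (by
      have e1 : T.v r + T.v σ = T.v t := h
      rw [← e] at e1
      exact add_eq_right.1 e1)
    obtain ⟨m, hm, hm'⟩ := h1.swap r σ t h {t} (h0.ray t) (Finset.mem_singleton_self t)
      (by rwa [Finset.mem_singleton])
    have b1 := hm' (Finset.mem_insert_self r _)
    have b2 := mem_F.1 (hm' (Finset.mem_insert_of_mem (Finset.mem_singleton_self t)))
    have a1 := at_fr M.gen hm b1 (T.v σ)
    rw [show m ⬝ᵥ T.v σ = 0 by have := h.dot m; have := mem_F.1 b1; omega] at a1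
    have a2 : Lo (T.v σ) 0 (T.fr M.f r) :=
      Sup.mono (Sup.and (sup_part (G := M.f)) (Sup.part (M.gen.lo t))) fun u hu => by
        have := h.dot u
        omega
    have a3 : Lo (T.v σ) (-c σ) Q := Lo.cancel a2 a1 ((lg σ).le (by omega))
    refine (a3.succ fun a4 => ?_).le (by omega)
    obtain ⟨u, u1, u2⟩ := At.mul a2 a3 a1 a4
    rw [← hQ] at u1
    have u3 : u ⬝ᵥ T.v r = -c r := sup_part u u1
    rw [coeff_part, if_pos u3] at u1
    have lt : Lo (T.v t) (-c r - c σ) G := Sup.mono (Sup.and (lo r) (lo σ)) fun u hu => by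
      have := h.dot u
      omega
    have v1 := hB.val t (T.v r) (-c r) (-c r - c σ) (inn (T.v t) (-c r - c σ) G)
      (fun ⟨j, hj⟩ => by
        obtain ⟨w, w1, w2⟩ := h1.dual r σ t h 1 (-1)
        have w3 : w ⬝ᵥ T.v t = 0 := by have := h.dot w; omega
        rw [hj, dotProduct_smul, w3, smul_zero] at w1
        omega)
      (Sup.mono (Sup.and (sup_part (G := G)) (Sup.part (Sup.and (lo r) (lo σ)))) fun u hu => by
        have := h.dot u
        omega)
      (Hom.lo sup_part) ⟨u, by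
        rwa [coeff_part, if_pos (by have := h.dot u; omega)], by have := h.dot u; omega⟩
    have v2 := sub_mem (ge_mono (ht r σ t h) (b := -c r - c σ + 1) (by have := hc σ; omega))
      (hB.geD t _ _ lt.sub_inn)
    rw [map_sub, sub_sub_cancel, ge_iff v1.1, v1.2] at v2
    omega

end XBASE

theorem st_BASE (h0 : St_C0) (h1 : St_C1) (hB : St_BAS) : St_BASE := by
  intro T K _ _ M a ho s hs ht
  have B := hB T K M
  have key : ∀ (N : ℕ) (c : T.Λ), (∀ ρ, a ρ ≤ c ρ) → ∑ ρ, (c ρ - a ρ) = N →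
      (∃ G ∈ T.S c Finset.univ, M.ψ G = s) → ∃ G ∈ T.S a Finset.univ, M.ψ G = s := by
    intro N
    induction N with
    | zero =>
      intro c hc hN h
      have e : c = a := funext fun ρ => sub_eq_zero.1
        ((Finset.sum_eq_zero_iff_of_nonneg fun ρ _ => sub_nonneg.2 (hc ρ)).1 hN ρ
          (Finset.mem_univ ρ))
      exact e ▸ h
    | succ N ih =>
      rintro c hc hN ⟨G, hG, rfl⟩
      obtain ⟨r, hr⟩ : ∃ r, a r < c r := by
        by_contra h
        rw [Finset.sum_eq_zero fun ρ _ => sub_eq_zero.2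
          (le_antisymm (not_lt.1 fun h' => h ⟨ρ, h'⟩) (hc ρ))] at hN
        omega
      refine ih (c - Pi.single r 1) (fun ρ => ?_) ?_
        (XBASE.step (h0 T) (h1 T) B ho hs ht hc hG hr)
      · by_cases e : ρ = r
        · rw [e, Pi.sub_apply, Pi.single_eq_same]; omega
        · rw [Pi.sub_apply, Pi.single_eq_of_ne e, sub_zero]; exact hc ρ
      · simp only [Pi.sub_apply, sub_right_comm (c _), Finset.sum_sub_distrib (f := fun ρ => c ρ - a ρ),
          hN, Finset.sum_pi_single', Finset.mem_univ, if_true]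
        push_cast
        ring
  obtain ⟨m, hm, -⟩ := (h0 T).cov 0
  obtain ⟨G, -, hG⟩ := B.sec ∅ ⟨m, hm, Finset.empty_subset _⟩ a s ((B.mem a s).1 hs).1
    fun _ h => absurd h (Finset.notMem_empty _)
  choose l hl using fun ρ => exists_lo' G (T.v ρ)
  exact key _ (fun ρ => max (a ρ) (-l ρ)) (fun ρ => le_max_left _ _)
    (Int.toNat_of_nonneg (Finset.sum_nonneg fun ρ _ => sub_nonneg.2 (le_max_left _ _))).symm
    ⟨G, fun ρ _ => (hl ρ).le (neg_le.1 (le_max_right _ _)), hG⟩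

end Pool.Agent.Lib.TF
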