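import Pool.Agent.Lib.TF.LBlue

open Set
open scoped Classical

set_option linter.unusedSectionVars false
set_option linter.unusedVariables false

noncomputable section

namespace Pool.Agent.Lib.TF

open Fano

namespace C0B

variable {T : Fano}

lemma dot_sum (u : T.M) (c : T.Λ) : u ⬝ᵥ ∑ ρ, c ρ • T.v ρ = ∑ ρ, c ρ * u ⬝ᵥ T.v ρ := by
  simp only [dotProduct_sum, dotProduct_smul, smul_eq_mul]

lemma sum_single (r : T.Ray) (j : ℤ) : ∑ ρ, (Pi.single r j : T.Λ) ρ • T.v ρ = j • T.v r := by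
  rw [Finset.sum_eq_single r (fun ρ _ h => by simp [h]) (by simp), Pi.single_eq_same]

lemma coord {m : T.M} (h : T.V m) (w : T.M) :
    ∃ c : T.Λ, (∀ ρ ∉ T.F m, c ρ = 0) ∧ w = ∑ ρ, c ρ • T.v ρ := by
  have hw : w ∈ Submodule.span ℤ (T.v '' {ρ | m ⬝ᵥ T.v ρ = -1}) := h.2.2 ▸ Submodule.mem_top
  induction hw using Submodule.span_induction with
  | mem x hx =>
    obtain ⟨r, hr, rfl⟩ := hx
    refine ⟨Pi.single r 1, fun ρ hρ => Pi.single_eq_of_ne ?_ _, by rw [sum_single, one_smul]⟩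
    rintro rfl
    exact hρ (mem_F.2 hr)
  | zero => exact ⟨0, fun _ _ => rfl, by simp⟩
  | add x y _ _ hx hy =>
    obtain ⟨c, h1, rfl⟩ := hx
    obtain ⟨d, h2, rfl⟩ := hy
    exact ⟨c + d, fun ρ hρ => by simp [h1 ρ hρ, h2 ρ hρ],
      by simp only [Pi.add_apply, add_smul, Finset.sum_add_distrib]⟩
  | smul a x _ hx =>
    obtain ⟨c, h1, rfl⟩ := hx
    exact ⟨a • c, fun ρ hρ => by simp [h1 ρ hρ],
      by simp only [Pi.smul_apply, smul_eq_mul, mul_smul, Finset.smul_sum]⟩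

lemma indep {m : T.M} (h : T.V m) (c : T.Λ) (hc : ∀ ρ ∉ T.F m, c ρ = 0)
    (h0 : ∑ ρ, c ρ • T.v ρ = 0) : c = 0 := by
  funext ρ
  by_cases hρ : ρ ∈ T.F m
  · refine linearIndepOn_iff'.1 h.2.1 (T.F m) c (fun σ hσ => mem_F.1 hσ) ?_ ρ hρ
    rw [← h0]
    exact Finset.sum_subset (Finset.subset_univ _) fun σ _ hσ => by rw [hc σ hσ, zero_smul]
  · exact hc ρ hρ

/-- The basis given by a vertex. -/
def bas {m : T.M} (h : T.V m) : Module.Basis {ρ | m ⬝ᵥ T.v ρ = -1} ℤ T.M :=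
  Module.Basis.mk h.2.1 (by rw [← h.2.2, image_eq_range])

lemma dual {m : T.M} (h : T.V m) (c : T.Λ) : ∃ u : T.M, ∀ ρ ∈ T.F m, u ⬝ᵥ T.v ρ = c ρ := by
  obtain ⟨φ, hφ⟩ : ∃ φ : T.M →ₗ[ℤ] ℤ, ∀ ρ ∈ T.F m, φ (T.v ρ) = c ρ :=
    ⟨(bas h).constr ℤ fun ρ => c ρ, fun ρ hρ =>
      (congrArg _ (Module.Basis.mk_apply h.2.1 _ ⟨ρ, mem_F.1 hρ⟩).symm).trans
        ((bas h).constr_basis ℤ (fun ρ => c ρ) ⟨ρ, mem_F.1 hρ⟩)⟩
  refine ⟨fun i => φ (Pi.single i 1), fun ρ hρ => ?_⟩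
  rw [← hφ ρ hρ]
  conv_rhs => rw [pi_eq_sum_univ' (T.v ρ), map_sum]
  exact Finset.sum_congr rfl fun i _ => by rw [map_smul, smul_eq_mul, mul_comm]

lemma ext {m : T.M} (h : T.V m) (u : T.M) (hu : ∀ ρ ∈ T.F m, u ⬝ᵥ T.v ρ = 0) : u = 0 := by
  funext i
  obtain ⟨c, h1, h2⟩ := coord h (Pi.single i 1)
  have := dot_sum u c
  rw [← h2, dotProduct_single, mul_one] at this
  rw [this]
  refine Finset.sum_eq_zero fun ρ _ => ?_
  by_cases hρ : ρ ∈ T.F m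
  · rw [hu ρ hρ, mul_zero]
  · rw [h1 ρ hρ, zero_mul]

lemma card {m : T.M} (h : T.V m) : (T.F m).card = T.n := by
  have := Module.finrank_eq_card_basis (bas h)
  rw [Module.finrank_fin_fun, Fintype.card_subtype] at this
  exact this.symm

lemma cov (w : T.M) : ∃ m, T.V m ∧ ∃ c : T.Λ, (∀ ρ, 0 ≤ c ρ) ∧ (∀ ρ ∉ T.F m, c ρ = 0) ∧
    w = ∑ ρ, c ρ • T.v ρ := by
  obtain ⟨m, h, hw⟩ := T.cov w
  refine ⟨m, h, ?_⟩
  induction hw using AddSubmonoid.closure_induction with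
  | mem x hx =>
    obtain ⟨r, hr, rfl⟩ := hx
    refine ⟨Pi.single r 1, fun ρ => by rw [Pi.single_apply]; split_ifs <;> omega,
      fun ρ hρ => Pi.single_eq_of_ne ?_ _, by rw [sum_single, one_smul]⟩
    rintro rfl
    exact hρ (mem_F.2 hr)
  | zero => exact ⟨0, fun _ => le_rfl, fun _ _ => rfl, by simp⟩
  | add x y _ _ hx hy =>
    obtain ⟨c, h0, h1, rfl⟩ := hx
    obtain ⟨d, h3, h2, rfl⟩ := hy
    exact ⟨c + d, fun ρ => add_nonneg (h0 ρ) (h3 ρ), fun ρ hρ => by simp [h1 ρ hρ, h2 ρ hρ],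
      by simp only [Pi.add_apply, add_smul, Finset.sum_add_distrib]⟩

lemma gA {m : T.M} {c : T.Λ} (hc : ∀ ρ ∉ T.F m, c ρ = 0) :
    m ⬝ᵥ ∑ ρ, c ρ • T.v ρ = -∑ ρ, c ρ := by
  rw [dot_sum, ← Finset.sum_neg_distrib]
  refine Finset.sum_congr rfl fun ρ _ => ?_
  by_cases hρ : ρ ∈ T.F m
  · rw [mem_F.1 hρ, mul_neg_one]
  · rw [hc ρ hρ, zero_mul, neg_zero]

lemma gB {u : T.M} (hu : T.P u) {c : T.Λ} (hc : ∀ ρ, 0 ≤ c ρ) :
    -∑ ρ, c ρ ≤ u ⬝ᵥ ∑ ρ, c ρ • T.v ρ := by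
  rw [dot_sum, ← Finset.sum_neg_distrib]
  exact Finset.sum_le_sum fun ρ _ => by nlinarith [hu ρ, hc ρ]

lemma bd (w : T.M) : ∃ b : ℤ, ∀ u, T.P u → b ≤ u ⬝ᵥ w := by
  obtain ⟨m, -, c, h1, -, rfl⟩ := cov w
  exact ⟨_, fun u hu => gB hu h1⟩

lemma fin : {u | T.P u}.Finite := by
  choose b hb using bd (T := T)
  refine (Set.finite_Icc (fun i => b (Pi.single i 1)) fun i => -b (Pi.single i (-1))).subset
    fun u hu => ⟨fun i => ?_, fun i => ?_⟩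
  · simpa using hb (Pi.single i 1) u hu
  · have := hb (Pi.single i (-1)) u hu
    rw [dotProduct_single] at this
    show u i ≤ -b (Pi.single i (-1))
    omega

lemma ray (ρ : T.Ray) : T.Face {ρ} := by
  obtain ⟨m, h, c, h1, h2, h3⟩ := cov (T.v ρ)
  refine ⟨m, h, Finset.singleton_subset_iff.2 (mem_F.2 ?_)⟩
  have h4 := gA h2
  rw [← h3] at h4
  have h5 := h.1 ρ
  have h6 : 0 ≤ ∑ σ, c σ := Finset.sum_nonneg fun σ _ => h1 σ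
  by_contra h7
  have h8 := (Finset.sum_eq_zero_iff_of_nonneg fun σ _ => h1 σ).1
    (show ∑ σ, c σ = 0 by omega)
  refine T.ne ρ (h3.trans (Finset.sum_eq_zero fun σ hσ => ?_))
  rw [h8 σ hσ, zero_smul]

lemma star {τ : Finset T.Ray} (hτ : T.Face τ) (w : T.M) : ∃ m, T.V m ∧ τ ⊆ T.F m ∧ ∃ c : T.Λ,
    (∀ ρ ∉ T.F m, c ρ = 0) ∧ (∀ ρ ∉ τ, 0 ≤ c ρ) ∧ w = ∑ ρ, c ρ • T.v ρ := by
  obtain ⟨m0, h0, hτ⟩ := hτ
  obtain ⟨b, hb⟩ := bd w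
  obtain ⟨N, hN⟩ : ∃ N, N = m0 ⬝ᵥ w - b + 1 := ⟨_, rfl⟩
  have hN0 : 0 ≤ N := by have := hb m0 h0.1; omega
  obtain ⟨e, he⟩ : ∃ e : T.Λ, e = fun ρ => if ρ ∈ τ then N else 0 := ⟨_, rfl⟩
  have e0 : ∀ ρ ∉ τ, e ρ = 0 := fun ρ h => by simp [he, h]
  have e1 : ∀ ρ, 0 ≤ e ρ := fun ρ => by rw [he]; dsimp only; split_ifs <;> omega
  obtain ⟨m, h, c, h1, h2, h3⟩ := cov (w + ∑ ρ, e ρ • T.v ρ)
  have hm : τ ⊆ T.F m := fun r hr => by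
    by_contra hr'
    have k1 := gA h2
    have k2 := gB h0.1 h1
    rw [← h3, dotProduct_add] at k1 k2
    rw [gA fun ρ hρ => e0 ρ fun h => hρ (hτ h)] at k2
    have k3 := Finset.single_le_sum (f := fun ρ => e ρ * m ⬝ᵥ T.v ρ + e ρ)
      (fun ρ _ => by nlinarith [h.1 ρ, e1 ρ]) (Finset.mem_univ r)
    rw [Finset.sum_add_distrib, ← dot_sum] at k3
    have k4 : e r = N := by simp [he, hr]
    have k5 : 0 ≤ m ⬝ᵥ T.v r := by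
      have := h.1 r
      have := mem_F.not.1 hr'
      omega
    have k6 := hb m h.1
    have k7 := mul_nonneg (e1 r) k5
    omega
  refine ⟨m, h, hm, c - e, fun ρ hρ => ?_, fun ρ hρ => ?_, ?_⟩
  · rw [Pi.sub_apply, h2 ρ hρ, e0 ρ fun h => hρ (hm h), sub_zero]
  · rw [Pi.sub_apply, e0 ρ hρ, sub_zero]
    exact h1 ρ
  · simp only [Pi.sub_apply, sub_smul, Finset.sum_sub_distrib]
    rw [← h3, add_sub_cancel_right]

lemma key {τ : Finset T.Ray} (hτ : T.Face τ) {r : T.Ray} (hr : r ∉ τ) :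
    ∃ m, T.V m ∧ τ ⊆ T.F m ∧ r ∉ T.F m := by
  obtain ⟨m, h, h1, c, h2, h3, h4⟩ := star hτ (-T.v r)
  refine ⟨m, h, h1, fun h5 => ?_⟩
  have h6 := congrFun (indep h (c + Pi.single r 1) (fun ρ hρ => by
    rw [Pi.add_apply, h2 ρ hρ, Pi.single_eq_of_ne (by rintro rfl; exact hρ h5), add_zero]) (by
    simp only [Pi.add_apply, add_smul, Finset.sum_add_distrib]
    rw [← h4, sum_single, one_smul, neg_add_cancel])) r
  have := h3 r hr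
  rw [Pi.add_apply, Pi.single_eq_same, Pi.zero_apply] at h6
  omega

lemma edge {m : T.M} (h : T.V m) {ρ : T.Ray} (hρ : ρ ∈ T.F m) (u : T.M) (h1 : u ⬝ᵥ T.v ρ = 0)
    (h2 : ∀ σ ∈ T.F m, σ ≠ ρ → u ⬝ᵥ T.v σ = -1) : T.P u := by
  obtain ⟨m', h', h3, h4⟩ := key ⟨m, h, Finset.erase_subset ρ _⟩ (Finset.notMem_erase ρ _)
  have h5 : 0 ≤ m' ⬝ᵥ T.v ρ := by
    have := h'.1 ρ
    have := mem_F.not.1 h4
    omega
  have h6 := ext h ((m' ⬝ᵥ T.v ρ + 1) • (u - m) - (m' - m)) fun σ hσ => by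
    simp only [sub_dotProduct, smul_dotProduct, smul_eq_mul, mem_F.1 hσ]
    by_cases e : σ = ρ
    · rw [e, h1]; ring
    · rw [h2 σ hσ e, mem_F.1 (h3 (Finset.mem_erase.2 ⟨e, hσ⟩))]; ring
  intro s
  have h7 := congrArg (· ⬝ᵥ T.v s) h6
  simp only [sub_dotProduct, smul_dotProduct, smul_eq_mul, zero_dotProduct] at h7
  by_contra! h8
  nlinarith [h.1 s, h'.1 s]

lemma pos {τ : Finset T.Ray} (hτ : T.Face τ) : ∃ (a : ℤ) (u : T.M),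
    (∀ ρ ∈ τ, a + u ⬝ᵥ T.v ρ = 0) ∧ ∀ ρ ∉ τ, 0 < a + u ⬝ᵥ T.v ρ := by
  have h : ∀ r, ∃ m, T.V m ∧ τ ⊆ T.F m ∧ (r ∉ τ → r ∉ T.F m) := fun r => by
    by_cases hr : r ∈ τ
    · exact hτ.imp fun m h => ⟨h.1, h.2, fun h => (h hr).elim⟩
    · exact (key hτ hr).imp fun m h => ⟨h.1, h.2.1, fun _ => h.2.2⟩
  choose m h1 h2 h3 using h
  refine ⟨∑ r : T.Ray, 1, ∑ r, m r, fun ρ hρ => ?_, fun ρ hρ => ?_⟩ <;>
    rw [sum_dotProduct, ← Finset.sum_add_distrib]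
  · exact Finset.sum_eq_zero fun r _ => by rw [mem_F.1 (h2 r hρ), add_neg_cancel]
  · refine Finset.sum_pos' (fun r _ => ?_) ⟨ρ, Finset.mem_univ _, ?_⟩
    · have := (h1 r).1 ρ
      omega
    · have := (h1 ρ).1 ρ
      have := mem_F.not.1 (h3 ρ hρ)
      omega

lemma two (ρ : T.Ray) (w : T.M) (hw : ¬∃ j : ℤ, w = j • T.v ρ) : ∃ u u' : T.M, T.P u ∧ T.P u' ∧
    u ⬝ᵥ T.v ρ = -1 ∧ u' ⬝ᵥ T.v ρ = -1 ∧ u ⬝ᵥ w ≠ u' ⬝ᵥ w := by
  obtain ⟨m, h, h1⟩ := ray ρ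
  have h1 := Finset.singleton_subset_iff.1 h1
  obtain ⟨c, h2, rfl⟩ := coord h w
  obtain ⟨s, h3, h4⟩ : ∃ s, s ≠ ρ ∧ c s ≠ 0 := by
    by_contra! h3
    exact hw ⟨c ρ, Finset.sum_eq_single ρ (fun s _ hs => by rw [h3 s hs, zero_smul]) (by simp)⟩
  have h5 : s ∈ T.F m := by_contra fun h => h4 (h2 s h)
  obtain ⟨d, hd⟩ := dual h (Pi.single s 1)
  have h6 : ∀ σ ∈ T.F m, σ ≠ s → (m + d) ⬝ᵥ T.v σ = -1 := fun σ hσ e => by
    rw [add_dotProduct, mem_F.1 hσ, hd σ hσ, Pi.single_eq_of_ne e, add_zero]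
  refine ⟨m, m + d, h.1, edge h h5 _ ?_ h6, mem_F.1 h1, h6 ρ h1 h3.symm, fun e => h4 ?_⟩
  · rw [add_dotProduct, mem_F.1 h5, hd s h5, Pi.single_eq_same, neg_add_cancel]
  · rw [add_dotProduct, left_eq_add, dot_sum, Finset.sum_eq_single s (fun σ _ e => ?_) (by simp),
      hd s h5, Pi.single_eq_same, mul_one] at e
    · exact e
    · by_cases hσ : σ ∈ T.F m
      · rw [hd σ hσ, Pi.single_eq_of_ne e, mul_zero]
      · rw [h2 σ hσ, zero_mul]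

end C0B

theorem st_C0 : St_C0 := fun T =>
  ⟨fun _ => C0B.coord, fun _ => C0B.indep, fun _ => C0B.dual, fun _ => C0B.ext, fun _ => C0B.card,
    C0B.cov, C0B.fin, C0B.ray, fun _ => C0B.star, fun _ h _ => C0B.edge h, fun _ => C0B.pos,
    C0B.two⟩

end Pool.Agent.Lib.TF
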