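import Pool.Agent.Lib.TF.LBlue

open Set
open scoped Classical

set_option linter.unusedSectionVars false
set_option linter.unusedVariables false

noncomputable section

namespace Pool.Agent.Lib.TF

open Fano

namespace C1B

variable {T : Fano} {x z y w a b c ρ σ : T.Ray} {m : T.M}

lemma inV_l : T.InV x z x := ⟨1, 0, by simp⟩

lemma inV_r : T.InV x z z := ⟨0, 1, by simp⟩

lemma inV_opp (h : T.Opp a b) (ha : T.InV x z a) : T.InV x z b := by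
  obtain ⟨i, j, e⟩ := ha
  refine ⟨-i, -j, ?_⟩
  rw [eq_neg_of_add_eq_zero_right h, e]
  module

lemma inV_sum (h : T.Tri a b c) (ha : T.InV x z a) (hb : T.InV x z b) : T.InV x z c := by
  obtain ⟨i, j, e⟩ := ha
  obtain ⟨i', j', e'⟩ := hb
  refine ⟨i + i', j + j', ?_⟩
  rw [← h, e, e']
  module

lemma inV_dif (h : T.Tri a b c) (ha : T.InV x z a) (hc : T.InV x z c) : T.InV x z b := by
  obtain ⟨i, j, e⟩ := ha
  obtain ⟨i', j', e'⟩ := hc
  refine ⟨i' - i, j' - j, ?_⟩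
  rw [eq_sub_of_add_eq' h, e, e']
  module

lemma tri_ne (h : T.Tri x z y) : z ≠ y := by
  rintro rfl
  exact T.ne x (add_eq_right.1 h)

lemma dualv (h0 : T.C0) (hm : T.V m) (hρ : ρ ∈ T.F m) :
    ∃ u : T.M, u ⬝ᵥ T.v ρ = 1 ∧ (∀ σ ∈ T.F m, σ ≠ ρ → u ⬝ᵥ T.v σ = 0) ∧ T.P (m + u) := by
  obtain ⟨u, hu⟩ := h0.dual m hm (Pi.single ρ 1)
  have h1 : u ⬝ᵥ T.v ρ = 1 := by rw [hu ρ hρ, Pi.single_eq_same]
  have h2 : ∀ σ ∈ T.F m, σ ≠ ρ → u ⬝ᵥ T.v σ = 0 := fun σ hσ hne => by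
    rw [hu σ hσ, Pi.single_eq_of_ne hne]
  refine ⟨u, h1, h2, h0.edge m hm ρ hρ _ ?_ fun σ hσ hne => ?_⟩
  · rw [add_dotProduct, h1, mem_F.1 hρ]; rfl
  · rw [add_dotProduct, h2 σ hσ hne, mem_F.1 hσ]; rfl

lemma nb_vert (h : T.Nb a b) : ∃ m, T.V m ∧ a ∈ T.F m ∧ b ∈ T.F m := by
  obtain ⟨m, hm, hs⟩ := h
  exact ⟨m, hm, hs (by simp), hs (by simp)⟩

lemma tri_nb (h0 : T.C0) (h1 : T.C1a) (h : T.Tri x z y) : T.Nb x y :=
  h1.swap x z y h {y} (h0.ray y) (by simp) (by simpa using tri_ne h)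

lemma vert3 (h1 : T.C1a) (h : T.Tri x z y) (hn : T.Nb y ρ) (hz : z ≠ ρ) :
    ∃ m, T.V m ∧ x ∈ T.F m ∧ y ∈ T.F m ∧ ρ ∈ T.F m := by
  obtain ⟨m, hm, hs⟩ := h1.swap x z y h {y, ρ} hn (by simp) (by simp [tri_ne h, hz])
  exact ⟨m, hm, hs (by simp), hs (by simp), hs (by simp)⟩

lemma nb_inv (h0 : T.C0) (h1 : T.C1a) (h : T.Tri x z y) (hn : T.Nb y ρ) (hv : T.InV x z ρ) :
    ρ = x ∨ ρ = z ∨ ρ = y := by
  by_contra hc
  simp only [not_or] at hc
  obtain ⟨m, hm, hx, hy, hρ⟩ := vert3 h1 h hn (Ne.symm hc.2.1)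
  obtain ⟨u, u1, u0, -⟩ := dualv h0 hm hρ
  obtain ⟨i, j, e⟩ := hv
  have e1 := u0 x hx (Ne.symm hc.1)
  have e2 := u0 y hy (Ne.symm hc.2.2)
  rw [h.dot, e1, zero_add] at e2
  rw [e, dotProduct_add, dotProduct_smul, dotProduct_smul, e1, e2] at u1
  simp at u1

lemma inv (h0 : T.C0) (h1 : T.C1a) (h : T.Tri x z y) (hv : T.InV x z ρ) :
    ρ = x ∨ ρ = z ∨ ρ = y ∨ T.Opp x ρ ∨ T.Opp y ρ ∨ T.Opp z ρ := by
  by_cases hn : T.Nb y ρ
  · rcases nb_inv h0 h1 h hn hv with e | e | e <;> simp [e]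
  rcases (h1.nf y ρ).1 hn with ho | ⟨t, ht⟩
  · simp [ho]
  have hy : T.InV x z y := inV_sum h inV_l inV_r
  rcases nb_inv h0 h1 h (tri_nb h0 h1 ht) (inV_sum ht hy hv) with e | e | e
  · subst e
    refine Or.inr (Or.inr (Or.inr (Or.inr (Or.inr ?_))))
    unfold Tri Opp at *
    rw [← h, add_assoc] at ht
    exact add_eq_left.1 ht
  · subst e
    refine Or.inr (Or.inr (Or.inr (Or.inl ?_)))
    unfold Tri Opp at *
    rw [← h, add_comm (T.v x), add_assoc] at ht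
    exact add_eq_left.1 ht
  · subst e
    exact absurd rfl (tri_ne ht.symm)

lemma half (h1 : T.C1a) (h : T.Tri x z y) (hv : ¬T.InV x z ρ) (hn : T.Nb y ρ) {i j : ℤ}
    (e : T.v σ = T.v ρ + i • T.v x + j • T.v z) : i ≤ 0 := by
  obtain ⟨m, hm, hx, hy, hρ⟩ := vert3 h1 h hn fun e => hv (e ▸ inV_r)
  rw [mem_F] at hx hy hρ
  have h2 := hm.1 σ
  rw [h.dot, hx] at hy
  have hz : m ⬝ᵥ T.v z = 0 := by omega
  rw [e, dotProduct_add, dotProduct_add, dotProduct_smul, dotProduct_smul, hx, hρ, hz] at h2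
  simp only [smul_eq_mul] at h2
  omega

lemma inV_comm (h : T.InV x z ρ) : T.InV z x ρ := by
  obtain ⟨i, j, e⟩ := h
  exact ⟨j, i, e.trans (add_comm _ _)⟩

lemma notV (hv : ¬T.InV x z ρ) {i j : ℤ} (e : T.v σ = T.v ρ + i • T.v x + j • T.v z) :
    ¬T.InV x z σ := by
  rintro ⟨i', j', e'⟩
  refine hv ⟨i' - i, j' - j, ?_⟩
  have : T.v ρ = T.v σ - i • T.v x - j • T.v z := by rw [e]; module
  rw [this, e']
  module

lemma cong_nb (h1 : T.C1a) (h : T.Tri x z y) (hv : ¬T.InV x z ρ) (hn : T.Nb y ρ) (hn' : T.Nb y σ)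
    {i j : ℤ} (e : T.v σ = T.v ρ + i • T.v x + j • T.v z) : σ = ρ := by
  have hv' := notV hv e
  have e' : T.v ρ = T.v σ + (-i) • T.v x + (-j) • T.v z := by rw [e]; module
  have a1 := half h1 h hv hn e
  have a2 := half h1 h hv' hn' e'
  have a3 := half h1 h.symm (fun c => hv (inV_comm c)) hn (e.trans (add_right_comm _ _ _))
  have a4 := half h1 h.symm (fun c => hv' (inV_comm c)) hn' (e'.trans (add_right_comm _ _ _))
  obtain rfl : i = 0 := by omega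
  obtain rfl : j = 0 := by omega
  exact T.inj (by simpa using e)

lemma cong (h0 : T.C0) (h1 : T.C1a) (h : T.Tri x z y) (hv : ¬T.InV x z ρ)
    (hn : T.Nb y ρ ↔ T.Nb y σ) {i j : ℤ} (e : T.v σ = T.v ρ + i • T.v x + j • T.v z) : σ = ρ := by
  by_cases hρ : T.Nb y ρ
  · exact cong_nb h1 h hv hρ (hn.1 hρ) e
  have hy : T.InV x z y := inV_sum h inV_l inV_r
  rcases (h1.nf y ρ).1 hρ with ho | ⟨t, ht⟩
  · exact absurd (inV_opp ho hy) hv
  rcases (h1.nf y σ).1 (fun c => hρ (hn.2 c)) with ho | ⟨t', ht'⟩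
  · exact absurd (inV_opp ho hy) (notV hv e)
  have e' : T.v t' = T.v t + i • T.v x + j • T.v z := by rw [← ht, ← ht', e]; module
  obtain rfl := cong_nb h1 h (fun c => hv (inV_dif ht hy c)) (tri_nb h0 h1 ht) (tri_nb h0 h1 ht') e'
  exact ht'.symm.uniq' ht.symm

/-- The rays on which the class vanishes. -/
def N2 (x z y ρ : T.Ray) : Prop := ρ = x ∨ ρ = z ∨ T.Opp x ρ ∨ T.Opp y ρ ∨ T.Opp z ρ

lemma ka_eq : T.ka x z y ρ = if N2 x z y ρ then 0 else if T.Nb y ρ then 2 else 1 := by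
  by_cases h : N2 x z y ρ
  · rw [if_pos h]; exact if_pos h
  · rw [if_neg h]; exact if_neg h

lemma N2.inV (h : T.Tri x z y) (hn : N2 x z y ρ) : T.InV x z ρ := by
  rcases hn with e | e | e | e | e
  · exact e ▸ inV_l
  · exact e ▸ inV_r
  · exact inV_opp e inV_l
  · exact inV_opp e (inV_sum h inV_l inV_r)
  · exact inV_opp e inV_r

lemma N2.val (h : T.Tri x z y) (hn : N2 x z y ρ) {u : T.M} (u1 : u ⬝ᵥ T.v x = 1)
    (u3 : u ⬝ᵥ T.v z = 3) :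
    (ρ = x ∧ u ⬝ᵥ T.v ρ = 1) ∨ (ρ = z ∧ u ⬝ᵥ T.v ρ = 3) ∨ u ⬝ᵥ T.v ρ < 0 := by
  rcases hn with e | e | e | e | e
  · exact Or.inl ⟨e, e ▸ u1⟩
  · exact Or.inr (Or.inl ⟨e, e ▸ u3⟩)
  · rw [e.dot u, u1]; simp
  · rw [e.dot u, h.dot u, u1, u3]; simp
  · rw [e.dot u, u3]; simp

lemma mixed (h0 : T.C0) (h1 : T.C1a) (h : T.Tri x z y) (h' : T.Tri a b c) (ha : N2 x z y a)
    (hb : ¬N2 x z y b) (hn : ¬T.Nb y b) : N2 x z y c := by
  rcases (h1.nf y b).1 hn with ho | ⟨t, ht⟩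
  · exact absurd (Or.inr (Or.inr (Or.inr (Or.inl ho)))) hb
  obtain ⟨u, u1, u3⟩ := h1.dual x z y h 1 3
  have hay : a ≠ y := by
    rintro rfl
    have := ha.val h u1 u3
    have := h.dot u
    omega
  exact Or.inr (Or.inr (Or.inr (Or.inl (h1.pent b a c y t h'.symm ht.symm hay).1.symm)))

lemma both (h0 : T.C0) (h1 : T.C1a) (h : T.Tri x z y) (h' : T.Tri a b c) (ha : N2 x z y a)
    (hb : N2 x z y b) (n1 : ¬(a = x ∧ b = z)) (n2 : ¬(a = z ∧ b = x)) : N2 x z y c := by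
  rcases inv h0 h1 h (inV_sum h' (ha.inV h) (hb.inV h)) with e | e | e | e
  · exact Or.inl e
  · exact Or.inr (Or.inl e)
  · subst e
    obtain ⟨u, u1, u3⟩ := h1.dual x z c h 1 3
    have e1 := h.dot u
    have e2 := h'.dot u
    exfalso
    rcases ha.val h u1 u3 with ⟨a1, a2⟩ | ⟨a1, a2⟩ | a2 <;>
      rcases hb.val h u1 u3 with ⟨b1, b2⟩ | ⟨b1, b2⟩ | b2 <;>
      first
        | omega
        | exact n1 ⟨a1, b1⟩
        | exact n2 ⟨a1, b1⟩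
  · exact Or.inr (Or.inr e)

lemma gam (h0 : T.C0) (h1 : T.C1a) (h : T.Tri x z y) (h' : T.Tri a b c) (n1 : ¬(a = x ∧ b = z))
    (n2 : ¬(a = z ∧ b = x)) :
    T.ka x z y c ≤ T.ka x z y a + T.ka x z y b ∧ T.om x z c ≤ T.om x z a + T.om x z b := by
  constructor
  · have m1 := mixed h0 h1 h h'
    have m2 := mixed h0 h1 h h'.symm
    have m3 := fun ha hb => both h0 h1 h h' ha hb n1 n2
    rw [ka_eq, ka_eq, ka_eq]
    by_cases ha : N2 x z y a <;> by_cases hb : N2 x z y b <;> by_cases hc : N2 x z y c <;>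
      by_cases na : T.Nb y a <;> by_cases nb : T.Nb y b <;> by_cases nc : T.Nb y c <;>
      simp only [ha, hb, hc, na, nb, nc, if_true, if_false] <;>
      first
        | omega
        | exact absurd (m3 ha hb) hc
        | exact absurd (m1 ha hb nb) hc
        | exact absurd (m2 hb ha na) hc
  · obtain ⟨u, u1, u3⟩ := h1.dual a b c h' 1 3
    have hab : a ≠ b := by
      rintro rfl
      omega
    unfold om
    by_cases ha : a = x ∨ a = z <;> by_cases hb : b = x ∨ b = z <;> by_cases hc : c = x ∨ c = z <;>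
      simp only [ha, hb, hc, if_true, if_false] <;>
      first
        | omega
        | (exfalso
           rcases ha with ha | ha <;> rcases hb with hb | hb
           exacts [hab (ha.trans hb.symm), n1 ⟨ha, hb⟩, n2 ⟨ha, hb⟩, hab (ha.trans hb.symm)])

lemma tri_xw (h : T.Tri x z y) (hw : T.Opp y w) (hs : T.Opp z σ) : T.Tri x w σ := by
  unfold Tri Opp at *
  rw [eq_neg_of_add_eq_zero_right hw, eq_neg_of_add_eq_zero_right hs, ← h]
  module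

lemma nb_xw (h1 : T.C1a) (h : T.Tri x z y) (hw : T.Opp y w) (hs : ¬∃ σ, T.Opp z σ) : T.Nb x w := by
  by_contra hn
  rcases (h1.nf x w).1 hn with ho | ⟨t, ht⟩
  · exact tri_ne h.symm (ho.symm.uniq hw.symm)
  · refine hs ⟨t, ?_⟩
    unfold Tri Opp at *
    rw [← ht, ← hw, ← h]
    module

lemma cls_le (h0 : T.C0) (h1 : T.C1a) (h : T.Tri x z y) (hw : T.Opp y w) {i j : ℤ} (hi : 0 ≤ i)
    (hij : i ≤ j) (h1' : 1 ≤ i + j) (h3 : i + j ≤ 3) (hz : (∃ σ, T.Opp z σ) → j ≤ 2) :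
    ∃ u, T.P u ∧ u ⬝ᵥ T.v x = i - 1 ∧ u ⬝ᵥ T.v z = j - 1 := by
  obtain ⟨m, hm, hx, hy⟩ := nb_vert (tri_nb h0 h1 h)
  have hc : (i = 0 ∧ j = 1) ∨ (i = 0 ∧ j = 2) ∨ (i = 0 ∧ j = 3) ∨ (i = 1 ∧ j = 1) ∨
      (i = 1 ∧ j = 2) := by omega
  rcases hc with ⟨rfl, rfl⟩ | ⟨rfl, rfl⟩ | ⟨rfl, rfl⟩ | ⟨rfl, rfl⟩ | ⟨rfl, rfl⟩
  · have := h.dot m
    rw [mem_F] at hx hy
    exact ⟨m, hm.1, by omega, by omega⟩
  · obtain ⟨u, u1, u0, hP⟩ := dualv h0 hm hy
    have e1 := u0 x hx (tri_ne h.symm)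
    have e2 := h.dot m
    have e3 := h.dot u
    rw [mem_F] at hx hy
    refine ⟨m + u, hP, ?_, ?_⟩ <;> rw [add_dotProduct] <;> omega
  · obtain ⟨m, hm, hx, hy⟩ := nb_vert (nb_xw h1 h hw fun c => by have := hz c; omega)
    have e2 := h.dot m
    have e3 := hw.dot m
    rw [mem_F] at hx hy
    exact ⟨m, hm.1, by omega, by omega⟩
  · exact ⟨0, fun ρ => by simp, by simp, by simp⟩
  · by_cases hs : ∃ σ, T.Opp z σ
    · obtain ⟨σ, hs⟩ := hs
      obtain ⟨m, hm, hx, hy⟩ := nb_vert (tri_nb h0 h1 (tri_xw h hw hs).symm)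
      have e2 := h.dot m
      have e3 := hw.dot m
      have e4 := hs.dot m
      rw [mem_F] at hx hy
      exact ⟨m, hm.1, by omega, by omega⟩
    · obtain ⟨m, hm, hx, hy⟩ := nb_vert (nb_xw h1 h hw hs)
      obtain ⟨u, u1, u0, hP⟩ := dualv h0 hm hx
      have e2 := h.dot m
      have e3 := hw.dot m
      have e4 := h.dot u
      have e5 := hw.dot u
      have hne : w ≠ x := by
        rintro rfl
        obtain ⟨u', a1, a3⟩ := h1.dual w z y h 1 3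
        have := h.dot u'
        have := hw.dot u'
        omega
      have e1 := u0 w hy hne
      rw [mem_F] at hx hy
      refine ⟨m + u, hP, ?_, ?_⟩ <;> rw [add_dotProduct] <;> omega

lemma plane (h0 : T.C0) (h1 : T.C1a) (S : T.Pent) (hv : T.InV S.v1 S.v3 ρ) {t : T.Ray}
    (ht : T.Tri ρ σ t) : T.InV S.v1 S.v3 σ ∧ T.InV S.v1 S.v3 t := by
  have i1 : T.InV S.v1 S.v3 S.v1 := inV_l
  have i3 : T.InV S.v1 S.v3 S.v3 := inV_r
  have i2 := inV_sum S.tri i1 i3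
  have t1 := S.tri.opp S.o3
  have t3 := S.tri.symm.opp S.o1
  have key : ∃ z y, T.Tri ρ z y ∧ T.InV S.v1 S.v3 z := by
    rcases inv h0 h1 S.tri hv with e | e | e | e | e | e
    · exact ⟨_, _, e ▸ S.tri, i3⟩
    · exact ⟨_, _, e ▸ S.tri.symm, i1⟩
    · exact ⟨_, _, e ▸ t1, inV_opp S.o3 i3⟩
    · exact ⟨_, _, S.o1.uniq e ▸ t3.symm, i2⟩
    · exact ⟨_, _, (t1.symm.opp e).symm, i1⟩
    · exact ⟨_, _, S.o3.uniq e ▸ t1.symm, i2⟩
  obtain ⟨z, y, hz, iz⟩ := key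
  have hσ : T.InV S.v1 S.v3 σ := by
    by_cases e : z = σ
    · exact e ▸ iz
    · exact inV_opp (h1.pent ρ z y σ t hz ht e).1 (inV_sum hz hv iz)
  exact ⟨hσ, inV_sum ht hv hσ⟩

end C1B

/-- Primitive pairs. -/
theorem st_C1 (h0 : St_C0) (h1 : St_C1A) : St_C1 := fun T =>
  { toC1a := h1 T
    cong := fun _ _ _ h _ _ hv hn _ _ e => C1B.cong (h0 T) (h1 T) h hv hn e
    inv := fun _ _ _ h _ hv => C1B.inv (h0 T) (h1 T) h hv
    gam := fun _ _ _ _ _ _ h h' n1 n2 => C1B.gam (h0 T) (h1 T) h h' n1 n2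
    cls := fun x z y w h hw i j hi hj a b hx hz => by
      rcases le_total i j with c | c
      · exact C1B.cls_le (h0 T) (h1 T) h hw hi c a b hz
      · obtain ⟨u, hu, e1, e2⟩ :=
          C1B.cls_le (h0 T) (h1 T) h.symm hw hj c (by omega) (by omega) hx
        exact ⟨u, hu, e2, e1⟩
    plane := fun S _ hv _ _ ht => C1B.plane (h0 T) (h1 T) S hv ht }

end Pool.Agent.Lib.TF
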