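import Pool.Agent.Lib.TF.LBlue

open Set

set_option linter.unusedSectionVars false
set_option linter.unusedVariables false

noncomputable section

namespace Pool.Agent.Lib.TF

open Fano

namespace C1AB

variable {T : Fano} {x z y : T.Ray}

lemma dot_sum (u : T.M) (c : T.Λ) : u ⬝ᵥ ∑ ρ, c ρ • T.v ρ = ∑ ρ, c ρ * u ⬝ᵥ T.v ρ := by
  simp only [dotProduct_sum, dotProduct_smul, smul_eq_mul]

lemma gauge {m : T.M} {c : T.Λ} (h : ∀ ρ ∉ T.F m, c ρ = 0) :
    m ⬝ᵥ ∑ ρ, c ρ • T.v ρ = -∑ ρ, c ρ := by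
  rw [dot_sum, ← Finset.sum_neg_distrib]
  refine Finset.sum_congr rfl fun ρ _ => ?_
  by_cases e : ρ ∈ T.F m
  · rw [mem_F.1 e, mul_neg_one]
  · rw [h ρ e, zero_mul, neg_zero]

lemma tri_ne (h : T.Tri x z y) : z ≠ y := fun e => T.ne x (by
  have h1 : T.v x + T.v z = T.v y := h
  rwa [e, add_eq_right] at h1)

variable (h0 : T.C0)
include h0

lemma delta {m : T.M} (hm : T.V m) (ρ : T.Ray) :
    ∃ u : T.M, ∀ σ ∈ T.F m, u ⬝ᵥ T.v σ = if σ = ρ then 1 else 0 :=
  h0.dual m hm fun σ => if σ = ρ then 1 else 0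

lemma face_of_P {u : T.M} (hu : T.P u) {B : Finset T.Ray} (hB : ∀ ρ ∈ B, u ⬝ᵥ T.v ρ = -1) :
    T.Face B := by
  obtain ⟨m, hm, c, h1, h2, h3⟩ := h0.cov (∑ ρ ∈ B, T.v ρ)
  have h4 := gauge h2
  have h5 : -∑ ρ, c ρ ≤ u ⬝ᵥ ∑ ρ, c ρ • T.v ρ := by
    rw [dot_sum, ← Finset.sum_neg_distrib]
    exact Finset.sum_le_sum fun ρ _ => by nlinarith [h1 ρ, hu ρ]
  rw [← h3, dotProduct_sum] at h4 h5
  rw [Finset.sum_congr rfl hB, ← h4] at h5
  exact ⟨m, hm, fun ρ hρ => mem_F.2 ((Finset.sum_eq_sum_iff_of_le fun σ _ => hm.1 σ).1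
    (le_antisymm (Finset.sum_le_sum fun σ _ => hm.1 σ) h5) ρ hρ).symm⟩

lemma nf (x z : T.Ray) : ¬T.Nb x z ↔ T.Opp x z ∨ ∃ y, T.Tri x z y := by
  constructor
  · intro h
    obtain ⟨m, hm, c, h1, h2, h3⟩ := h0.cov (T.v x + T.v z)
    have h4 := gauge h2
    rw [← h3, dotProduct_add] at h4
    have h5 : ¬(m ⬝ᵥ T.v x = -1 ∧ m ⬝ᵥ T.v z = -1) := fun e => h ⟨m, hm, by
      simpa [Finset.insert_subset_iff] using e⟩
    have h6 := hm.1 x
    have h7 := hm.1 z
    by_cases e : ∀ ρ, c ρ = 0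
    · exact Or.inl (h3.trans (by simp [e]))
    · obtain ⟨y, hy⟩ := not_forall.1 e
      have h8 := Finset.add_sum_erase Finset.univ c (Finset.mem_univ y)
      have h9 := Finset.sum_nonneg fun ρ (_ : ρ ∈ Finset.univ.erase y) => h1 ρ
      have h10 := h1 y
      have h11 := (Finset.sum_eq_zero_iff_of_nonneg fun ρ (_ : ρ ∈ Finset.univ.erase y) =>
        h1 ρ).1 (by omega)
      refine Or.inr ⟨y, h3.trans ?_⟩
      rw [Finset.sum_eq_single y (fun ρ _ hρ => by rw [h11 ρ (by simp [hρ]), zero_smul]) (by simp),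
        show c y = 1 by omega, one_smul]
  · rintro h ⟨m, hm, h1⟩
    have h2 := mem_F.1 (h1 (Finset.mem_insert_self _ _))
    have h3 := mem_F.1 (h1 (Finset.mem_insert_of_mem (Finset.mem_singleton_self z)))
    rcases h with h | ⟨y, h⟩
    · have := h.dot m
      omega
    · have := h.dot m
      have := hm.1 y
      omega

lemma swap (h : T.Tri x z y) {τ : Finset T.Ray} (hτ : T.Face τ) (hy : y ∈ τ) (hz : z ∉ τ) :
    T.Face (insert x τ) := by
  obtain ⟨m, hm, h1⟩ := hτ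
  have h2 := mem_F.1 (h1 hy)
  have h3 := h.dot m
  have h4 := hm.1 x
  have h5 := hm.1 z
  by_cases e : m ⬝ᵥ T.v x = -1
  · exact ⟨m, hm, Finset.insert_subset (mem_F.2 e) h1⟩
  have h6 : z ∈ T.F m := mem_F.2 (by omega)
  obtain ⟨u, hu⟩ := h0.dual m hm fun σ => if σ = z then 0 else -1
  have h7 : u ⬝ᵥ T.v z = 0 := by simpa using hu z h6
  have h8 : ∀ σ ∈ T.F m, σ ≠ z → u ⬝ᵥ T.v σ = -1 := fun σ hσ e => by simpa [e] using hu σ hσ
  refine face_of_P h0 (h0.edge m hm z h6 u h7 h8) fun ρ hρ => ?_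
  rcases Finset.mem_insert.1 hρ with rfl | hρ
  · have := h.dot u
    have := h8 y (h1 hy) (tri_ne h).symm
    omega
  · exact h8 ρ (h1 hρ) fun e => hz (e ▸ hρ)

lemma mid (a b c : T.Ray) (h : T.v a + T.v b = (2 : ℤ) • T.v c) : a = c := by
  obtain ⟨m, hm, h1⟩ := h0.ray c
  have hc := h1 (Finset.mem_singleton_self c)
  have k : ∀ u : T.M, u ⬝ᵥ T.v a + u ⬝ᵥ T.v b = 2 * u ⬝ᵥ T.v c := fun u => by
    rw [← dotProduct_add, h, dotProduct_smul, smul_eq_mul]
  have h2 := k m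
  have h3 := hm.1 a
  have h4 := hm.1 b
  have h5 := mem_F.1 hc
  obtain ⟨u, hu⟩ := delta h0 hm c
  have h6 := k u
  by_contra e
  rw [hu a (mem_F.2 (by omega)), hu b (mem_F.2 (by omega)), hu c hc, if_neg e, if_pos rfl] at h6
  split_ifs at h6 <;> omega

lemma pent {z' y' : T.Ray} (h : T.Tri x z y) (h' : T.Tri x z' y') (hz : z ≠ z') :
    T.Opp y z' ∧ T.Opp z y' := by
  have e : T.v y + T.v z' = T.v z + T.v y' := by
    rw [← (h : T.v x + T.v z = T.v y), ← (h' : T.v x + T.v z' = T.v y')]; abel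
  have h1 : ¬T.Nb y z' := fun h2 => (nf h0 x z').2 (Or.inr ⟨y', h'⟩)
    ((swap h0 h h2 (by simp) (by simp [tri_ne h, hz])).mono (by
      simp [Finset.insert_subset_iff]))
  rcases (nf h0 y z').1 h1 with h2 | ⟨t, h2⟩
  · exact ⟨h2, e.symm.trans h2⟩
  have h3 : T.Tri z y' t := e.symm.trans h2
  have h4 : z ≠ y' := fun e' => tri_ne h (mid h0 y z' z (by rw [e, ← e', two_smul])).symm
  have h5 := swap h0 h2 (h0.ray t) (by simp) (by simp [tri_ne h2])
  have h6 := swap h0 h3.symm h5 (by simp) (by simp [tri_ne h, tri_ne h3.symm])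
  obtain ⟨m, hm, h7⟩ := swap h0 h h6 (by simp) (by simp [tri_ne h, tri_ne h3.symm, h4])
  obtain ⟨u, hu⟩ := delta h0 hm y
  have h8 := h2.dot u
  have h9 := h'.dot u
  rw [hu t (h7 (by simp)), hu y (h7 (by simp)), if_neg (tri_ne h2.symm).symm, if_pos rfl] at h8
  rw [hu x (h7 (by simp)), hu y' (h7 (by simp)), if_neg (tri_ne h.symm)] at h9
  split_ifs at h9 <;> omega

lemma supp {B : Finset T.Ray} (hB : T.Face B) (w : T.M)
    (h : ∀ u : T.M, (∀ ρ ∈ B, u ⬝ᵥ T.v ρ = 0) → u ⬝ᵥ w = 0) :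
    ∃ c : T.Λ, w = ∑ ρ ∈ B, c ρ • T.v ρ := by
  obtain ⟨m, hm, h1⟩ := hB
  obtain ⟨c, h2, h3⟩ := h0.coord m hm w
  refine ⟨c, h3.trans (Finset.sum_subset (Finset.subset_univ B) fun s _ hs => ?_).symm⟩
  by_cases e : s ∈ T.F m
  · obtain ⟨u, hu⟩ := delta h0 hm s
    have h4 := h u fun ρ hρ => (hu ρ (h1 hρ)).trans (if_neg fun e' : ρ = s => hs (e' ▸ hρ))
    rw [h3, dot_sum, Finset.sum_eq_single s (fun ρ _ hρ => by
      by_cases e' : ρ ∈ T.F m
      · rw [hu ρ e', if_neg hρ, mul_zero]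
      · rw [h2 ρ e', zero_mul]) (by simp), hu s e, if_pos rfl, mul_one] at h4
    rw [h4, zero_smul]
  · rw [h2 s e, zero_smul]

lemma nb (h : T.Tri x z y) : T.Face {x, y} := swap h0 h (h0.ray y) (by simp) (by simp [tri_ne h])

lemma out (x z : T.Ray) : ∃ ρ, ¬T.InV x z ρ := by
  by_contra! h
  obtain ⟨m, hm, -⟩ := h0.ray x
  obtain ⟨a, ha, b, hb, c, hc, h1, h2, h3⟩ := Finset.two_lt_card.1
    (show 2 < (T.F m).card by have := T.dim; rw [h0.card m hm]; omega)
  choose i j hij using h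
  choose u hu using delta h0 hm
  have k : ∀ s, ∀ t ∈ T.F m, i t * u s ⬝ᵥ T.v x + j t * u s ⬝ᵥ T.v z = if t = s then 1 else 0 :=
    fun s t ht => by
      rw [← hu s t ht, hij t, dotProduct_add, dotProduct_smul, dotProduct_smul, smul_eq_mul,
        smul_eq_mul]
  have k1 := k a a ha
  have k2 := k a b hb
  have k3 := k a c hc
  have k4 := k b a ha
  have k5 := k b b hb
  have k6 := k b c hc
  have k7 := k c a ha
  have k8 := k c b hb
  have k9 := k c c hc
  simp only [if_true, h1, h2, h3, h1.symm, h2.symm, h3.symm, if_false] at k1 k2 k3 k4 k5 k6 k7 k8 k9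
  have d : ∀ p q : T.Ray → ℤ, (i a * p a + j a * q a) *
      ((i b * p b + j b * q b) * (i c * p c + j c * q c) -
        (i c * p b + j c * q b) * (i b * p c + j b * q c)) - (i b * p a + j b * q a) *
      ((i a * p b + j a * q b) * (i c * p c + j c * q c) -
        (i c * p b + j c * q b) * (i a * p c + j a * q c)) + (i c * p a + j c * q a) *
      ((i a * p b + j a * q b) * (i b * p c + j b * q c) -
        (i b * p b + j b * q b) * (i a * p c + j a * q c)) = 0 := fun p q => by ring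
  have := d (fun s => u s ⬝ᵥ T.v x) fun s => u s ⬝ᵥ T.v z
  simp only [k1, k2, k3, k4, k5, k6, k7, k8, k9] at this
  omega

end C1AB

theorem st_C1A (h : St_C0) : St_C1A := fun T =>
  have h0 := h T
  { nf := C1AB.nf h0
    swap := fun x z y h1 τ => C1AB.swap h0 h1
    pent := fun x z y z' y' => C1AB.pent h0
    mid := C1AB.mid h0
    prim := fun a b j e => by
      obtain ⟨m, hm, h1⟩ := h0.ray a
      have h2 := mem_F.1 (h1 (Finset.mem_singleton_self a))
      rw [e, dotProduct_smul, smul_eq_mul] at h2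
      rcases Int.eq_one_or_neg_one_of_mul_eq_neg_one h2 with rfl | rfl
      · exact Or.inl (T.inj (by rw [e, one_smul]))
      · exact Or.inr (by rw [Opp, e, neg_one_smul, add_neg_cancel])
    dual := fun x z y h1 i j => by
      obtain ⟨m, hm, h2⟩ := C1AB.nb h0 h1
      obtain ⟨u, hu⟩ := h0.dual m hm fun ρ => if ρ = x then i else i + j
      have h3 := hu x (h2 (by simp))
      have h4 := hu y (h2 (by simp))
      have h5 := h1.dot u
      rw [if_pos rfl] at h3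
      rw [if_neg (C1AB.tri_ne h1.symm).symm] at h4
      exact ⟨u, h3, by omega⟩
    sat := fun x z y h1 w hw => by
      obtain ⟨c, hc⟩ := C1AB.supp h0 (C1AB.nb h0 h1) w fun u hu => by
        have h2 := hu x (by simp)
        have h3 := hu y (by simp)
        have h4 := h1.dot u
        exact hw u h2 (by omega)
      refine ⟨c x + c y, c y, ?_⟩
      rw [hc, Finset.sum_pair (C1AB.tri_ne h1.symm), ← (h1 : T.v x + T.v z = T.v y), smul_add,
        add_smul, add_assoc]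
    sat1 := fun z w hw => by
      obtain ⟨c, hc⟩ := C1AB.supp h0 (h0.ray z) w fun u hu => hw u (hu z (by simp))
      exact ⟨c z, by rw [hc, Finset.sum_singleton]⟩
    out := C1AB.out h0 }

end Pool.Agent.Lib.TF
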