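import Pool.Agent.Lib.TF.Blue

open Set Pool.Agent.Lib.MP_e39d36_ag Pool.Agent.Lib.MP_e39d36_ag.Var Pool.Agent.Lib.DU
  Pool.Agent.Lib.MV
open scoped Classical

set_option linter.unusedSectionVars false
set_option linter.unusedVariables false

noncomputable section

namespace Pool.Agent.Lib.TF

open Fano

namespace CIB

variable {T : Fano} {K : Type} [Field K] [Algebra ℂ K] {x z y : T.Ray}

lemma ne_z (h : T.Tri x z y) : z ≠ y := fun e => T.ne x (by
  have h1 : T.v x + T.v z = T.v y := h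
  rw [e] at h1
  simpa using h1)

lemma face3 (c : T.C1) (h : T.Tri x z y) {ρ : T.Ray} (hn : T.Nb y ρ) (hz : ρ ≠ z) :
    T.Face {x, y, ρ} :=
  c.swap x z y h _ hn (by simp) (by simp [ne_z h, hz.symm])

lemma nb_x (c0 : T.C0) (c : T.C1) (h : T.Tri x z y) : T.Nb x y :=
  c.swap x z y h _ (c0.ray y) (by simp) (by simp [ne_z h])

lemma sec_mul {M : T.Mod K} (hB : M.Bas) {a b : T.Λ} {s s' : K} (h : s ∈ M.Sec a)
    (h' : s' ∈ M.Sec b) : s * s' ∈ M.Sec (a + b) := by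
  rw [hB.mem] at h h' ⊢
  exact ⟨fun E hE => by simpa using ge_mul (h.1 E hE) (h'.1 E hE), fun ρ => by
    simpa only [Pi.add_apply, neg_add] using ge_mul (h.2 ρ) (h'.2 ρ)⟩

lemma sec_pow {M : T.Mod K} (hB : M.Bas) {a : T.Λ} {s : K} (h : s ∈ M.Sec a) (m : ℕ) :
    s ^ m ∈ M.Sec (fun ρ => m * a ρ) := by
  rw [hB.mem] at h ⊢
  exact ⟨fun E hE => by simpa using ge_pow (h.1 E hE) m, fun ρ => by
    simpa only [mul_neg] using ge_pow (h.2 ρ) m⟩

lemma at_pow {n : ℕ} {w : Fin n → ℤ} {a : ℤ} {G : La n} (h : Lo w a G) (h' : At w a G) (m : ℕ) :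
    At w (m * a) (G ^ m) := by
  induction m with
  | zero => exact ⟨0, by rw [pow_zero, ← mn_zero, coeff_mn]; simp, by simp⟩
  | succ m ih =>
    rw [pow_succ]; push_cast; rw [add_mul, one_mul]
    exact At.mul (h.pow m) h ih h'

/-- The first inequality when the defect is not positive. -/
lemma one0 (c0 : T.C0) (c : T.C1) (hL : St_LT) (M : T.Mod K) (h : T.Tri x z y) {u t : T.Ray}
    (ht : T.Tri y u t) (hx : t ≠ x) (hz : t ≠ z) (a : T.Λ) (k : ℕ) (hk : a t = a y + a u + k)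
    {s : K} (hs : s ∈ M.Sec a) (hn : s ∉ ordGe (M.D t) (1 - a t)) :
    2 * (k : ℤ) ≤ a x + a z - a y := by
  obtain ⟨H, h1, -, h3, h4⟩ := hL T K M y u t ht a k hk s hs
  have hH : H ≠ 0 := fun e => hn (by simpa [e] using h4)
  obtain ⟨m, hm⟩ := ne_zero_iff.1 hH
  have nu : ¬T.Nb y u := (c.nf y u).2 (Or.inr ⟨t, ht⟩)
  have key : ∀ {x z : T.Ray}, T.Tri x z y → t ≠ z → (k : ℤ) - a x ≤ m ⬝ᵥ T.v x := fun {x z} h hz =>
    h3 x ((face3 c h (nb_x c0 c ht) hz).mono (by intro r; simp; tauto)) (ne_z h.symm)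
      (fun e => nu (e ▸ (nb_x c0 c h).symm)) m hm
  have e1 := key h hz
  have e2 := key h.symm hx
  have e3 : m ⬝ᵥ T.v y = -a y := h1 m hm
  have e4 := h.dot m
  omega

lemma one (c0 : T.C0) (c : T.C1) (hL : St_LT) (hG : St_GEN) (M : T.Mod K) (hB : M.Bas)
    (h : T.Tri x z y) {u t : T.Ray} (ht : T.Tri y u t) (hx : t ≠ x) (hz : t ≠ z) (a : T.Λ)
    {s : K} (hs : s ∈ M.Sec a) (hn : s ∉ ordGe (M.D t) (1 - a t)) :
    0 ≤ a x + a z - a y + 2 * (a y + a u - a t) := by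
  rcases le_total (a y + a u - a t) 0 with hc | hc
  · have := one0 c0 c hL M h ht hx hz a (a t - a y - a u).toNat (by omega) hs hn
    omega
  obtain ⟨m, hm⟩ := Int.eq_ofNat_of_zero_le hc
  obtain ⟨g1, -, -, -, -, -, -, g2, g3, -⟩ := hG T K M y u t ht
  have nu : ¬T.Nb y u := (c.nf y u).2 (Or.inr ⟨t, ht⟩)
  have o1 : ∀ {x z : T.Ray}, T.Tri x z y → T.om y u x = 1 := fun {x z} h =>
    if_neg (not_or.2 ⟨ne_z h.symm, fun e : x = u => nu (e ▸ (nb_x c0 c h).symm)⟩)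
  have o2 : T.om y u t = 1 := if_neg (not_or.2 ⟨(ne_z ht.symm).symm, (ne_z ht).symm⟩)
  have o3 : T.om y u y = 0 := if_pos (Or.inl rfl)
  have o4 : T.om y u u = 0 := if_pos (Or.inr rfl)
  have s0 : s ≠ 0 := fun e => hn (e ▸ zero_mem _)
  have := one0 c0 c hL M h ht hx hz (a + fun ρ => m * T.om y u ρ) 0
    (by simp only [Pi.add_apply, o2, o3, o4]; omega) (sec_mul hB hs (sec_pow hB g1 m)) (by
      rw [ge_iff s0] at hn
      rw [ge_iff (mul_ne_zero s0 (pow_ne_zero _ g2)), ord_mul s0 (pow_ne_zero _ g2), ord_pow, g3]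
      simp only [Pi.add_apply, o2]
      omega)
  simp only [Pi.add_apply, o1 h, o1 h.symm, o3] at this
  omega

end CIB

open CIB in
theorem st_CI (h0 : St_C0) (h1 : St_C1) (hB : St_BAS) (hL : St_LT) (hG : St_GEN) : St_CI := by
  intro T K _ _ M x z y h a s hs
  have c0 := h0 T
  have c := h1 T
  have B := hB T K M
  refine ⟨fun u t ht hx hz hn => one c0 c hL hG M B h ht hx hz a hs hn, ?_⟩
  intro k ε hε ax az0 azk ay hd ρ hn hx hz hρ
  obtain ⟨-, -, -, -, g1, g2, -⟩ := hG T K M x z y h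
  by_cases hy : ρ = y
  · have e1 := (ordGe (M.D y) (1 - k)).smul_mem ε⁻¹ (sub_mem (hy ▸ hρ) hd)
    rw [sub_sub_cancel, inv_smul_smul₀ hε, ge_iff (pow_ne_zero _ g1), ord_pow, g2] at e1
    omega
  obtain ⟨j, hj⟩ := Int.eq_ofNat_of_zero_le az0
  obtain ⟨k', rfl⟩ := Nat.exists_eq_add_of_le (show j ≤ k by omega)
  have hs' : s ∈ M.Sec (Function.update a ρ (((j + k' : ℕ) : ℤ) - 1)) := by
    rw [B.mem] at hs ⊢
    refine ⟨hs.1, fun σ => ?_⟩
    by_cases e : σ = ρ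
    · rw [e, Function.update_self, neg_sub]; exact hρ
    · rw [Function.update_of_ne e]; exact hs.2 σ
  obtain ⟨H, p1, p2, p3, p4⟩ := hL T K M x z y h _ k' (by
    rw [Function.update_of_ne (Ne.symm hy), Function.update_of_ne hx.symm,
      Function.update_of_ne hz.symm]
    push_cast at ay
    omega) s hs'
  have p3' := p3 ρ hn hx hz
  rw [Function.update_of_ne hx.symm, ax] at p1
  rw [Function.update_of_ne hz.symm, hj] at p2
  rw [Function.update_self] at p3'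
  rw [Function.update_of_ne (Ne.symm hy), ay] at p4
  set α := T.cl M.f x z 1 0 with hα
  have a1 : Hom (T.v x) 0 α := Sup.mono sup_part fun u hu => by have := hu.1; omega
  have a2 : Hom (T.v y) (-1) α := Sup.mono sup_part fun u hu => by
    have := hu.1; have := hu.2; have := h.dot u; omega
  have p5 : Hom (T.v y) (-j) H := fun u hu => by
    have e1 : u ⬝ᵥ T.v x = -0 := p1 u hu
    have e2 : u ⬝ᵥ T.v z = -j := p2 u hu
    have := h.dot u
    omega
  have q1 : Hom (T.v x) 0 (H * α ^ k' - ε • α ^ (j + k')) :=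
    Sup.sub (by simpa using Hom.mul p1 (a1.pow k')) (Sup.smul (by simpa using a1.pow (j + k')) ε)
  have q2 : Hom (T.v y) (-((j + k' : ℕ) : ℤ)) (H * α ^ k' - ε • α ^ (j + k')) :=
    Sup.sub (Sup.mono (Hom.mul p5 (a2.pow k')) fun u hu => by push_cast; omega)
      (Sup.smul (Sup.mono (a2.pow (j + k')) fun u hu => by omega) ε)
  have q3 : H * α ^ k' - ε • α ^ (j + k') = 0 := by
    by_contra hne
    obtain ⟨u, hu⟩ := ne_zero_iff.1 hne
    have hv : ¬∃ i : ℤ, T.v x = i • T.v y := by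
      rintro ⟨i, hi⟩
      rcases c.prim x y i hi with e | e
      · exact ne_z h.symm e
      · exact (c.nf y x).2 (Or.inl e) (nb_x c0 c h).symm
    obtain ⟨r1, r2⟩ := B.val y _ 0 _ _ hv q1 q2.lo ⟨u, hu, q2 u hu⟩
    have r3 := sub_mem hd p4
    rw [sub_sub_sub_cancel_left] at r3
    have r4 : M.ψ (H * α ^ k' - ε • α ^ (j + k')) =
        M.ψ H * M.al x z ^ k' - ε • M.al x z ^ (j + k') := by
      rw [map_sub, map_mul, map_smul, map_pow, map_pow]
    rw [← r4, ge_iff r1, r2] at r3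
    omega
  have a0 : α ≠ 0 := fun e => g1 (by rw [Mod.al, ← hα, e, map_zero])
  have q4 : H = ε • α ^ j := mul_right_cancel₀ (pow_ne_zero k' a0) (by
    rw [smul_mul_assoc, ← pow_add]; exact sub_eq_zero.1 q3)
  obtain ⟨m, hm, hF⟩ := face3 c h.symm hn hx
  have m1 : m ⬝ᵥ T.v z = -1 := mem_F.1 (hF (by simp))
  have m2 : m ⬝ᵥ T.v y = -1 := mem_F.1 (hF (by simp))
  have m3 : m ⬝ᵥ T.v ρ = -1 := mem_F.1 (hF (by simp))
  have m4 := h.dot m
  have a3 : At (T.v ρ) (-1) α := ⟨m, by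
    rw [hα, Fano.cl, coeff_part, if_pos ⟨by omega, by omega⟩]
    exact M.gen.ne hm.1, m3⟩
  obtain ⟨u, u1, u2⟩ := at_pow (Sup.part (M.gen.lo ρ)) a3 j
  have u3 : (k' : ℤ) - (((j + k' : ℕ) : ℤ) - 1) ≤ u ⬝ᵥ T.v ρ :=
    p3' u (by rw [q4]; simpa using ⟨hε, u1⟩)
  push_cast at u3
  omega

end Pool.Agent.Lib.TF
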