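import Pool.Agent.Lib.TF.Blue

/-! The sequence of a pair, monomial systems and the simplex. -/

open Set Pool.Agent.Lib.MP_e39d36_ag Pool.Agent.Lib.MP_e39d36_ag.Var Pool.Agent.Lib.DU
  Pool.Agent.Lib.MV
open scoped Classical NNReal

noncomputable section

namespace Pool.Agent.Lib.TF

namespace COCB

theorem mem_rk {V : Type} {p : Finset V → Prop} {s : Finset V} {x : ℂ} :
    x ∈ rk ℂ p s ↔ (¬p s → x = 0) := by
  unfold rk
  split_ifs with h <;> simp [h]

end COCB

open COCB in
theorem st_COC : St_COC := by
  refine fun V _ W q => ⟨fun A _ W' N hW hN H' H c hc h0 => ?_, fun I P H c hc h0 => ?_,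
    fun ⟨t, ht⟩ hq c hc h0 => ?_⟩
  · have h1 : ∀ s, s ⊆ W' → c s = 0 := fun s hs => by simpa [hs] using hc s
    obtain ⟨b, hb, e⟩ := H c (fun s => by
      by_cases hs : s ⊆ W'
      · rw [h1 s hs]; exact zero_mem _
      · simpa [hs] using hc s) h0
    obtain ⟨b', hb', e'⟩ := H' b hb fun s hs hq => by rw [← e s (hs.trans hW) hq, h1 s hs]
    refine ⟨fun s => if s ⊆ W' then 0 else b s - cb b' s, fun s => ?_, fun s hs hq => ?_⟩
    · by_cases hs : s ⊆ W'
      · simp [hs]
      · simpa [hs] using sub_mem (hb s) (cb_mem hN hb' s)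
    · rw [cb_congr' (c' := fun s => b s - cb b' s) hs hq fun u _ hu => ?_, cb_sub, cb_cb, sub_zero,
        e s hs hq]
      by_cases h : u ⊆ W'
      · rw [if_pos h, e' u h hu, sub_self]
      · rw [if_neg h]
  · have ev : ∀ (b : Finset V → I →₀ ℂ) s β, cb b s β = cb (fun s => b s β) s := fun b s β =>
      map_cb (Finsupp.applyAddHom β) b s
    choose b hb e using fun β => H β (fun s => c s β) (fun s => mem_rk.2 (hc s β))
      fun s hs hq => by rw [← ev, h0 s hs hq]; rfl
    let F : Finset I := W.powerset.biUnion fun s => (c s).support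
    refine ⟨fun s => Finsupp.onFinset F (fun β => if β ∈ F then b β s else 0)
      fun β h => by_contra fun h' => h (if_neg h'), fun s β hβ => ?_,
      fun s hs hq => Finsupp.ext fun β => ?_⟩
    · rw [Finsupp.onFinset_apply, mem_rk.1 (hb β s) hβ, ite_self]
    · rw [ev]
      simp only [Finsupp.onFinset_apply]
      by_cases h : β ∈ F
      · simp only [if_pos h]
        exact e β s hs hq
      · simp only [if_neg h, cb, smul_zero, Finset.sum_const_zero]
        exact by_contra fun h' => h (Finset.mem_biUnion.2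
          ⟨s, Finset.mem_powerset.2 hs, Finsupp.mem_support_iff.2 h'⟩)
  · obtain ⟨b, -, e⟩ := Ex.contract (M := fun _ => (⊤ : AddSubgroup ℂ)) (q := q) ht
      (fun _ _ => le_rfl) c (fun _ => trivial) h0
    refine ⟨fun s => if s = ∅ then 0 else b s, fun s => mem_rk.2 fun h => if_pos (not_not.1 h),
      fun s hs hs' => (e s hs hs').trans (cb_congr fun u hu => (if_neg fun h => ?_).symm)⟩
    have := Finset.card_erase_of_mem hu
    rw [h, Finset.card_empty] at this
    omega

end Pool.Agent.Lib.TF
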