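import Pool.Agent.Lib.TF.Blue

open Set Pool.Agent.Lib.MP_e39d36_ag Pool.Agent.Lib.MP_e39d36_ag.Var Pool.Agent.Lib.DU
  Pool.Agent.Lib.MV
open scoped Classical

set_option linter.unusedSectionVars false
set_option linter.unusedVariables false

noncomputable section

namespace Pool.Agent.Lib.TF

open Fano

namespace CONB

lemma map_hom {R S : Type} [CommRing R] [CommRing S] (f : R →+* S) (c : Cub R) :
    (c.map f).a2 = f c.a2 ∧ (c.map f).a1 = f c.a1 ∧ (c.map f).a0 = f c.a0 ∧ ∀ ξ ζ,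
      (c.map f).ev (f ξ) (f ζ) = f (c.ev ξ ζ) ∧ f ξ * (c.map f).X0 + f ζ * (c.map f).Z0 -
        (c.map f).q0 = f (ξ * c.X0 + ζ * c.Z0 - c.q0) := by
  simp only [Cub.map, Cub.a2, Cub.a1, Cub.a0, Cub.X0, Cub.Z0, Cub.q0, Cub.ev, map_add, map_sub,
    map_mul, map_pow, map_ofNat, and_self, implies_true]

lemma red {K F : Type} [Field K] [Algebra ℂ K] [Field F] [Algebra ℂ F] {X : Var K} (γ : CMap X F)
    (c : Cub K) (h : c.In (X.O γ.c)) (hp : c.p ∈ X.O γ.c) :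
    (¬Un (X.O γ.c) c.a2 → (c.map γ.τ).a2 = 0) ∧ (¬Un (X.O γ.c) c.a1 → (c.map γ.τ).a1 = 0) ∧
      (¬Un (X.O γ.c) c.a0 → (c.map γ.τ).a0 = 0) ∧ ∀ ξ ∈ X.O γ.c, ∀ ζ ∈ X.O γ.c,
        (c.ev ξ ζ = 0 → (c.map γ.τ).ev (γ.τ ξ) (γ.τ ζ) = 0) ∧ (ξ * c.X0 + ζ * c.Z0 = c.q0 →
          γ.τ ξ * (c.map γ.τ).X0 + γ.τ ζ * (c.map γ.τ).Z0 = (c.map γ.τ).q0) := by
  obtain ⟨h1, h2, h3, h4, h5, h6, h7, h8, h9⟩ := h
  let c0 : Cub (X.O γ.c) := ⟨⟨_, h1⟩, ⟨_, h2⟩, ⟨_, h3⟩, ⟨_, h4⟩, ⟨_, h5⟩, ⟨_, h6⟩, ⟨_, h7⟩, ⟨_, h8⟩,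
    ⟨_, h9⟩, ⟨_, hp⟩⟩
  obtain ⟨a2, a1, a0, a⟩ := map_hom (X.O γ.c).subtype c0
  obtain ⟨b2, b1, b0, b⟩ := map_hom γ.hom c0
  have k : ∀ (s : K) (t : X.O γ.c), s = t → ¬Un (X.O γ.c) s → γ.hom t = 0 := fun s t e hs =>
    γ.zero t t.2 (e ▸ hs)
  refine ⟨fun e => b2.trans (k _ _ a2 e), fun e => b1.trans (k _ _ a1 e),
    fun e => b0.trans (k _ _ a0 e), fun ξ hξ ζ hζ => ⟨fun e => ?_, fun e => ?_⟩⟩
  · exact (b ⟨ξ, hξ⟩ ⟨ζ, hζ⟩).1.trans (k _ _ (a ⟨ξ, hξ⟩ ⟨ζ, hζ⟩).1 fun h => h.1 e)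
  · exact sub_eq_zero.1 ((b ⟨ξ, hξ⟩ ⟨ζ, hζ⟩).2.trans
      (k _ _ (a ⟨ξ, hξ⟩ ⟨ζ, hζ⟩).2 fun h => h.1 (sub_eq_zero.2 e)))

/-- The nine classes. -/
def I9 : Finset (ℤ × ℤ) := {(1, 0), (0, 1), (2, 0), (1, 1), (0, 2), (3, 0), (2, 1), (1, 2), (0, 3)}

/-- The classes that occur. -/
def II (b b' : Prop) : Finset (ℤ × ℤ) := I9.filter fun p => (b → p.1 ≤ 2) ∧ (b' → p.2 ≤ 2)

lemma mem_II {b b' : Prop} {p : ℤ × ℤ} (h : p ∈ II b b') :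
    p ∈ I9 ∧ (b → p.1 ≤ 2) ∧ (b' → p.2 ≤ 2) := Finset.mem_filter.1 h

lemma card_I (b b' : Prop) :
    (II b b').card + (if b then 1 else 0) + (if b' then 1 else 0) = 9 := by
  unfold II
  by_cases h : b <;> by_cases h' : b' <;>
    simp only [h, h', if_true, if_false, true_imp_iff, false_imp_iff, and_true, true_and,
      Finset.filter_true] <;> decide

lemma co_mem {T : Fano} {K F σ : Type} [Field K] [Algebra ℂ K] [CommRing F] [SetLike σ F]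
    (M : T.Mod K) (q : T.Pq) (τ : K → F) {L : σ} (h : ((M.cub q).map τ).In L) :
    ∀ p ∈ I9, τ (M.co q p.1 p.2) ∈ L := by
  obtain ⟨h1, h2, h3, h4, h5, h6, h7, h8, h9⟩ := h
  simp only [I9, Finset.mem_insert, Finset.mem_singleton, forall_eq_or_imp, forall_eq]
  exact ⟨h1, h2, h3, h4, h5, h6, h7, h8, h9⟩

end CONB

theorem st_CON (h1 : St_C1) (hN : St_NOL) (hTN : St_TDN) (hTT : St_TDT) (hE : St_EQS) : St_CON := by
  intro T K _ _ M q E hM hy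
  have e := hE T K M q
  obtain ⟨hin, hp⟩ := e.reg E hM
  by_contra! hn
  let γ := CMap.res E.1
  obtain ⟨r2, r1, r0, r⟩ := CONB.red γ (M.cub q) hin (hp hy)
  have z0 : γ.τ 0 = 0 := γ.hom.map_zero
  obtain ⟨n1, n2⟩ := hN _ ((M.cub q).map γ.τ) (∃ σ, T.Opp q.x σ) (∃ σ, T.Opp q.z σ)
    (fun h => (congrArg γ.τ (e.c30 h)).trans z0) (fun h => (congrArg γ.τ (e.c03 h)).trans z0)
    (r2 hn.1) (r1 hn.2.1) (r0 hn.2.2)
  have hc := CONB.card_I (∃ σ, T.Opp q.x σ) (∃ σ, T.Opp q.z σ)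
  let S : ℤ × ℤ → T.M → Prop := fun p u => u ⬝ᵥ T.v q.x = p.1 - 1 ∧ u ⬝ᵥ T.v q.z = p.2 - 1
  have hS : ∀ i j, i ≠ j → ∀ u, S i u → ¬S j u := fun i j h u a b =>
    h (Prod.ext (by have := a.1; have := b.1; omega) (by have := a.2; have := b.2; omega))
  have hI : ∀ p ∈ CONB.II (∃ σ, T.Opp q.x σ) (∃ σ, T.Opp q.z σ), ∃ u, T.P u ∧ S p u :=
      fun p hp => by
    obtain ⟨a, b⟩ := CONB.mem_II hp
    have c : ∀ p ∈ CONB.I9, 0 ≤ p.1 ∧ 0 ≤ p.2 ∧ 1 ≤ p.1 + p.2 ∧ p.1 + p.2 ≤ 3 := by decide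
    obtain ⟨c1, c2, c3, c4⟩ := c p a
    exact (h1 T).cls _ _ _ _ q.tri q.opp _ _ c1 c2 c3 c4 b.1 b.2
  rcases M.tor E with h | ⟨ρ, rfl⟩
  · have hu : ∀ u, Un (M.X.O E.1) (M.χ u) := fun u => un_iff_ord.2 ⟨M.χ_ne u, h u⟩
    obtain ⟨k1, k2⟩ := r _ (hu q.xs).2.1 _ (hu q.zs).2.1
    obtain ⟨s, h2, h3⟩ := n2 _ _ (CMap.τ_ne (γ := γ) (hu _)) (CMap.τ_ne (γ := γ) (hu _)) (k1 e.ev)
      (k2 e.line)
    have h4 := hTN T K M E h _ γ rfl _ _ S hS hI s fun p hp => by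
      have a := (CONB.mem_II hp).1
      have b : M.ψ (part (S p) M.f) =
          M.co q p.1 p.2 * M.χ (-((1 - p.1) • q.xs + (1 - p.2) • q.zs)) := by
        rw [Mod.co, Mod0.χ, ← map_mul, mul_assoc, mn_mul_neg, mul_one]; rfl
      rw [b, γ.mul (M.co q p.1 p.2) (CONB.co_mem M q id hin p a) _ (hu _).2.1]
      refine mul_mem (Subfield.closure_mono (union_subset_union_right _ ?_)
        (CONB.co_mem M q γ.τ h2 p a)) (Subfield.subset_closure (Or.inr ⟨_, rfl⟩))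
      rintro _ (rfl | rfl) <;> exact ⟨_, rfl⟩
    omega
  · obtain ⟨s, h2, h3⟩ := n1
    let L : Submodule ℤ T.M :=
      { carrier := {u | q.Pp u}
        add_mem' := fun a b => ⟨by rw [add_dotProduct, a.1, b.1, add_zero],
          by rw [add_dotProduct, a.2, b.2, add_zero]⟩
        zero_mem' := ⟨zero_dotProduct _, zero_dotProduct _⟩
        smul_mem' := fun c _ a => ⟨by rw [smul_dotProduct, a.1, smul_zero],
          by rw [smul_dotProduct, a.2, smul_zero]⟩ }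
    have h4 := hTT T K M _ γ L (fun G a b => un_iff_ord.2 (e.un ρ ((e.mt ρ).1 hM) G a b)) _ _ S
      (fun p => (1 - p.1) • q.xs + (1 - p.2) • q.zs) hS hI (fun p u a => by
        constructor <;> simp only [add_dotProduct, smul_dotProduct, a.1, a.2, q.xx, q.xz, q.zx,
          q.zz, smul_eq_mul] <;> ring) s
      fun p hp => CONB.co_mem M q γ.τ h2 p (CONB.mem_II hp).1
    omega

end Pool.Agent.Lib.TF
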