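import Pool.Agent.Lib.TF.Blue

/-! Movable classes in the interior of the chamber. -/

open Set Pool.Agent.Lib.MP_e39d36_ag Pool.Agent.Lib.MP_e39d36_ag.Var Pool.Agent.Lib.DU
  Pool.Agent.Lib.MV
open scoped Classical NNReal

noncomputable section

namespace Pool.Agent.Lib.TF

open Fano

namespace CONEB

variable {T : Fano} {K : Type} [Field K] [Algebra ℂ K]

lemma div_pow {X : Var K} (s : K) (m : ℕ) : X.div (s ^ m) = m • X.div s :=
  Finsupp.ext fun E => by simp [ord_pow]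

lemma div_prod {X : Var K} {J : Type} (A : Finset J) {g : J → K} (h : ∀ j, g j ≠ 0) :
    X.div (∏ j ∈ A, g j) = ∑ j ∈ A, X.div (g j) := by
  induction A using Finset.induction_on with
  | empty => simpa using End.div_one
  | insert a A ha ih =>
    rw [Finset.prod_insert ha, Finset.sum_insert ha,
      End.div_mul (h a) (Finset.prod_ne_zero_iff.2 fun j _ => h j), ih]

lemma avoid {X : Var K} {D : Dv X} (h : Mov D) {S : Set X.PD} (hS : S.Finite) :
    ∃ f, f ≠ 0 ∧ 0 ≤ D + X.div f ∧ ∀ E ∈ S, (D + X.div f) E = 0 := by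
  rcases S.eq_empty_or_nonempty with rfl | hne
  · obtain ⟨f, h1, h2⟩ := h.exists_eff
    exact ⟨f, h1, h2, fun _ h => h.elim⟩
  · exact h.exists_finite hS hne

variable (T) in
/-- Triples. -/
abbrev Tr : Type := {t : T.Ray × T.Ray × T.Ray // T.Tri t.1 t.2.1 t.2.2}

variable (T) in
/-- The generators. -/
abbrev J : Type := T.Ray ⊕ Tr T ⊕ Tr T

/-- Their degrees. -/
def deg : J T → T.Λ := Sum.elim (fun ρ => Pi.single ρ 1)
  (Sum.elim (fun t => T.om t.1.1 t.1.2.1) fun t => T.ka t.1.1 t.1.2.1 t.1.2.2)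

/-- Their equations. -/
def pol (f : T.R) : J T → T.R := Sum.elim (fun _ => 1)
  (Sum.elim (fun t => T.gw f t.1.1 t.1.2.1) fun t => T.gp f t.1.1 t.1.2.1)

lemma ink_pol {k : Subfield ℂ} {f : T.R} (h : Ink k f) : ∀ j, Ink k (pol f j)
  | .inl _ => ink_mn 0
  | .inr (.inl _) => (h.part.add h.part).add h.part
  | .inr (.inr _) => ((h.part.pow 2).neg.add (h.part.mul (h.part.sub h.part))).sub
      (h.part.mul h.part)

lemma sum_single {c : T.Λ} (h : 0 ≤ c) : ∑ ρ, (c ρ).toNat • (Pi.single ρ 1 : T.Λ) = c := by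
  ext σ
  simpa [Finset.sum_apply, Pi.single_apply] using h σ

variable (M : T.Mod K)

/-- The divisors of the generators. -/
def Z (j : J T) : Dv M.X := M.std (deg j) + M.X.div (M.ψ (pol M.f j))

/-- The primes in these divisors. -/
def EE : Set M.X.PD := {E | ∃ j, Z M j E ≠ 0}

lemma fin_EE : (EE M).Finite :=
  (finite_iUnion fun j => (Z M j).support.finite_toSet).subset fun _ ⟨j, h⟩ =>
    mem_iUnion.2 ⟨j, Finsupp.mem_support_iff.2 h⟩

lemma gen (hB : M.Bas) (hG : St_GEN) : ∀ j, M.ψ (pol M.f j) ≠ 0 ∧ 0 ≤ Z M j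
  | .inl ρ => by
    refine ⟨by simp [pol], fun E => ?_⟩
    change 0 ≤ (M.std (Pi.single ρ 1) + M.X.div (M.ψ 1)) E
    rw [map_one, End.div_one, add_zero]
    rcases M.tor E with h | ⟨σ, rfl⟩
    · exact (hB.stdN _ E h).ge
    · rw [hB.stdD, Pi.single_apply]; split_ifs <;> simp
  | .inr (.inl t) => by
    obtain ⟨h1, -, -, -, -, -, -, h2, -⟩ := hG T K M _ _ _ t.2
    exact ⟨h2, (hB.mem' _ _ h2).1 h1⟩
  | .inr (.inr t) => by
    obtain ⟨-, h1, -, -, -, -, -, -, -, h2, -⟩ := hG T K M _ _ _ t.2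
    exact ⟨h2, (hB.mem' _ _ h2).1 h1⟩

lemma comb (hB : M.Bas) (hG : St_GEN) (c : J T → ℕ) :
    M.std (∑ j, c j • deg j) + M.X.div (∏ j, M.ψ (pol M.f j) ^ c j) = ∑ j, c j • Z M j := by
  rw [div_prod _ fun j => pow_ne_zero _ (gen M hB hG j).1, map_sum, ← Finset.sum_add_distrib]
  exact Finset.sum_congr rfl fun j _ => by rw [map_nsmul, div_pow, Z, smul_add]

lemma term {a : T.Λ} {t : K} (h : M.Term a t) : ∃ (c : J T → ℕ) (u : T.M),
    ∑ j, c j • deg j = T.mv u + a ∧ t = M.χ u * ∏ j, M.ψ (pol M.f j) ^ c j := by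
  rcases h with ⟨u, h, rfl⟩ | ⟨x, z, y, ht, i, j, u, h, rfl⟩
  · refine ⟨Sum.elim (fun ρ => ((T.mv u + a) ρ).toNat) 0, u, ?_, ?_⟩
    · rw [Fintype.sum_sum_type]
      simpa [deg] using sum_single h
    · simp [Fintype.prod_sum_type, pol]
  · refine ⟨Sum.elim (fun ρ => ((T.mv u + a - (i • T.om x z + j • T.ka x z y)) ρ).toNat)
      (Sum.elim (Pi.single ⟨(x, z, y), ht⟩ i) (Pi.single ⟨(x, z, y), ht⟩ j)), u, ?_, ?_⟩
    · rw [Fintype.sum_sum_type, Fintype.sum_sum_type]
      simp only [deg, Sum.elim_inl, Sum.elim_inr, sum_single (sub_nonneg.2 h), Pi.single_apply,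
        ite_smul, zero_smul, Finset.sum_ite_eq', Finset.mem_univ, if_true, sub_add_cancel]
    · rw [Fintype.prod_sum_type, Fintype.prod_sum_type]
      simp only [pol, Sum.elim_inl, Sum.elim_inr, map_one, one_pow, Finset.prod_const_one, one_mul,
        Pi.single_apply, pow_ite, pow_zero, Finset.prod_ite_eq', Finset.mem_univ, if_true,
        mul_assoc]

/-- Divisors with a multiple in a toric linear system that avoids the generators. -/
def QQ : AddSubmonoid (Dv M.X) where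
  carrier := {W | ∃ (N : ℕ) (a : T.Λ) (s : K), 0 < N ∧ s ≠ 0 ∧ 0 ≤ M.std a + M.X.div s ∧
    (∀ E ∈ EE M, (M.std a + M.X.div s) E = 0) ∧ M.nc (M.std a) = N • M.nc W}
  zero_mem' := ⟨1, 0, 1, one_pos, one_ne_zero, by simp [End.div_one], by simp [End.div_one],
    by simp⟩
  add_mem' := by
    rintro W W' ⟨N, a, s, h1, h2, h3, h4, h5⟩ ⟨N', a', s', k1, k2, k3, k4, k5⟩
    have e : M.std (N' • a + N • a') + M.X.div (s ^ N' * s' ^ N) =
        N' • (M.std a + M.X.div s) + N • (M.std a' + M.X.div s') := by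
      rw [End.div_mul (pow_ne_zero _ h2) (pow_ne_zero _ k2), div_pow, div_pow, map_add, map_nsmul,
        map_nsmul, smul_add, smul_add]
      abel
    refine ⟨N * N', N' • a + N • a', s ^ N' * s' ^ N, mul_pos h1 k1,
      mul_ne_zero (pow_ne_zero _ h2) (pow_ne_zero _ k2), ?_, fun E hE => ?_, ?_⟩
    · rw [e]; exact add_nonneg (nsmul_nonneg h3 _) (nsmul_nonneg k3 _)
    · rw [e, Finsupp.add_apply, Finsupp.smul_apply, Finsupp.smul_apply, h4 E hE, k4 E hE]; simp
    · rw [map_add, map_add, map_nsmul, map_nsmul, map_nsmul, map_nsmul, h5, k5, map_add, smul_add,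
        smul_smul, smul_smul, mul_comm N']

lemma mem_QQ (hB : M.Bas) (hL : St_LIN) {W : Dv M.X} (h0 : 0 ≤ W) (h : ∀ E ∈ EE M, W E = 0) :
    W ∈ QQ M := by
  obtain ⟨k, hk, H⟩ := hL T K M
  rw [← Finsupp.sum_single W]
  refine sum_mem fun E hE => ?_
  have hE' : E ∉ EE M := fun h' => Finsupp.mem_support_iff.1 hE (h E h')
  have nt : M.NT E := (M.tor E).resolve_right fun ⟨ρ, e⟩ => hE' ⟨.inl ρ, by
    change (M.std (Pi.single ρ 1) + M.X.div (M.ψ 1)) E ≠ 0
    rw [map_one, End.div_one, add_zero, e, hB.stdD]; simp⟩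
  rw [show Finsupp.single E (W E) = (W E).toNat • Finsupp.single E (1 : ℤ) by
    simp [Int.toNat_of_nonneg (h0 E)]]
  obtain ⟨N, a, s, h1, h2, h3, h4, h5⟩ := H E nt
  refine nsmul_mem (show Finsupp.single E 1 ∈ QQ M from
    ⟨N, a, s, h1, h2, h3, fun E' ⟨j, hj⟩ => by_contra fun h' => hE' ⟨j, ?_⟩, h4⟩) _
  obtain ⟨n', e⟩ := h5 E' h'
  rw [Z, Finsupp.add_apply, div_apply, hB.stdN _ _ n', e _ (ink_pol hk j)] at hj
  rwa [Z, Finsupp.add_apply, div_apply, hB.stdN _ _ nt]

end CONEB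

open CONEB in
theorem st_CONE (hGo : St_GORD) (hBa : St_BAS) (hL : St_LIN) (hC : St_CV) (hG : St_GEN)
    (hS : St_SPAN) : St_CONE := by
  intro T K _ _ M
  have hB := hBa T K M
  have := (fin_EE M).to_subtype
  obtain ⟨S, hf, hm⟩ := hGo T (Option (EE M)) (J T) deg fun o j => ∀ E, o = some E → Z M j E.1 = 0
  have g0 : ∀ c : J T → ℕ, ∏ j, M.ψ (pol M.f j) ^ c j ≠ 0 := fun c =>
    Finset.prod_ne_zero_iff.2 fun j _ => pow_ne_zero _ (gen M hB hG j).1
  have mvn : ∀ u, T.mv (-u) = -T.mv u := fun u => funext fun ρ => neg_dotProduct _ _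
  refine ⟨S, hf, fun a ha E => ?_, fun D x hD hx hp hq => ?_⟩
  · obtain ⟨c, u, h1, h2⟩ := (hm a).1 (AddSubmonoid.subset_closure ha)
      (if h : E ∈ EE M then some ⟨E, h⟩ else none)
    have e : M.std a + M.X.div ((∏ j, M.ψ (pol M.f j) ^ c j) * M.χ (-u)) = ∑ j, c j • Z M j := by
      rw [End.div_mul (g0 c) (M.χ_ne _), hB.div, h2, map_add, mvn, map_neg, ← comb M hB hG]
      abel
    have e' := fun F => DFunLike.congr_fun e F
    simp only [Finsupp.add_apply, div_apply] at e'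
    refine ⟨_, mul_ne_zero (g0 c) (M.χ_ne _), fun F => (e' F).ge.trans' ?_, (e' E).trans ?_⟩
    · exact (Finset.sum_nonneg fun j _ => nsmul_nonneg (gen M hB hG j).2 _ : 0 ≤ ∑ j, c j • Z M j) F
    · rw [Finsupp.finsetSum_apply]
      refine Finset.sum_eq_zero fun j _ => ?_
      by_cases hc : c j = 0
      · simp [hc]
      by_cases h : E ∈ EE M
      · rw [Finsupp.smul_apply, h1 j hc ⟨E, h⟩ (dif_pos h), smul_zero]
      · rw [Finsupp.smul_apply, by_contra fun h' => h ⟨j, h'⟩, smul_zero]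
  obtain ⟨f, f0, f1, f2⟩ := avoid hD (fin_EE M)
  obtain ⟨N, a, s, h1, h2, h3, h4, h5⟩ := mem_QQ M hB hL f1 f2
  rw [End.LE.nc_eq _ _ (⟨f, f0, rfl⟩ : End.LE (D + M.X.div f) D)] at h5
  have N0 : (0 : ℝ) < N := by exact_mod_cast h1
  have e : M.cl (rc a) = M.cl ((N : ℝ) • x) := by
    rw [hB.cls, h5, map_smul, hx, Nat.cast_smul_eq_nsmul]
  have ep : ∀ z z', T.Opp z z' → (a z : ℝ) + a z' = N * (x z + x z') := fun z z' h => by
    obtain ⟨φ, hφ⟩ := (hC T K M).1 z z' h
    have := congrArg φ e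
    rw [hφ, hφ] at this
    simpa [rc, mul_add] using this
  have hp' : ∀ z z', T.Opp z z' → 1 ≤ a z + a z' := fun z z' h => by
    have := (mul_pos N0 (hp z z' h)).trans_eq (ep z z' h).symm
    exact_mod_cast this
  have hq' : ∀ s z y w, T.Tri s z y → T.Opp y w → 1 ≤ a s + a z + a w := fun s z y w h h' => by
    obtain ⟨φ, hφ⟩ := (hC T K M).2 s z y h
    have h6 := congrArg φ e
    rw [hφ, hφ] at h6
    simp only [rc, Pi.smul_apply, smul_eq_mul] at h6
    have : (0 : ℝ) < a s + a z + a w := by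
      nlinarith [mul_pos N0 (hq s z y w h h'), ep y w h']
    exact_mod_cast this
  obtain ⟨s1, s2⟩ := hS T K M a hp' hq'
  have sm := s2 ((hB.mem' a s h2).2 h3)
  have ha : a ∈ AddSubmonoid.closure S := (hm a).2 fun o => by
    obtain ⟨t, t1, t2⟩ : ∃ t, M.Term a t ∧ ∀ E, o = some E → (M.std a + M.X.div t) E.1 = 0 := by
      by_contra hn
      push Not at hn
      rcases o with _ | E
      · refine h2 ((Submodule.span_le (p := ⊥)).2 (fun t ht => ?_) sm)
        obtain ⟨_, h, -⟩ := hn t ht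
        exact absurd h (by simp)
      · have := (Submodule.span_le (p := ordGe E.1 (1 - M.std a E.1))).2 (fun t ht => by
          obtain ⟨_, ⟨rfl⟩, h⟩ := hn t ht
          have h7 := (hB.mem' a t (s1 t ht).1).1 (s1 t ht).2 E.1
          simp only [Finsupp.add_apply, div_apply, Finsupp.zero_apply] at h h7
          exact Or.inr (by omega)) sm
        have h7 := h4 E.1 E.2
        rw [ge_iff h2] at this
        simp only [Finsupp.add_apply, div_apply] at h7
        omega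
    obtain ⟨c, u, c1, rfl⟩ := term M t1
    refine ⟨c, -u, fun j hj E hE => ?_, by rw [c1, mvn]; abel⟩
    have h7 := t2 E hE
    rw [End.div_mul (M.χ_ne _) (g0 c), hB.div, ← add_assoc, ← map_add, add_comm a, ← c1,
      comb M hB hG, Finsupp.finsetSum_apply, Finset.sum_eq_zero_iff_of_nonneg fun j _ =>
        nsmul_nonneg (gen M hB hG j).2 _ E.1] at h7
    simpa [hj] using h7 j (Finset.mem_univ _)
  have hc : M.nc (M.std a) ∈ Submodule.span ℝ≥0 ((fun a => M.nc (M.std a)) '' S) := by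
    refine AddSubmonoid.closure_induction (fun b hb => Submodule.subset_span ⟨b, hb, rfl⟩)
      (by simp) (fun b b' _ _ h h' => ?_) ha
    rw [map_add, map_add]
    exact add_mem h h'
  have := Submodule.smul_mem _ ((N : ℝ≥0)⁻¹) hc
  rwa [h5, ← Nat.cast_smul_eq_nsmul ℝ≥0, smul_smul, inv_mul_cancel₀ (by exact_mod_cast h1.ne'),
    one_smul] at this

end Pool.Agent.Lib.TF
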