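import Pool.Agent.Lib.TF.Blue

open Set Pool.Agent.Lib.MP_e39d36_ag Pool.Agent.Lib.MP_e39d36_ag.Var Pool.Agent.Lib.DU
  Pool.Agent.Lib.MV
open scoped Classical NNReal

noncomputable section

namespace Pool.Agent.Lib.TF

open Fano

namespace COPRB

variable {n : ℕ} {F : Type} [Field F] [Algebra ℂ F] (φ : La n →ₐ[ℂ] F) (L : Subfield F)

lemma mn_mem (h : ∀ j, φ (mn (Pi.single j 1)) ∈ L) (w : Fin n → ℤ) : φ (mn w) ∈ L := by
  let H : AddSubgroup (Fin n → ℤ) :=
    { carrier := {w | φ (mn w) ∈ L}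
      zero_mem' := by simp
      add_mem' := fun {a b} ha hb => by
        show φ (mn (a + b)) ∈ L
        rw [mn_add, map_mul]
        exact mul_mem ha hb
      neg_mem' := fun {a} ha => by
        show φ (mn (-a)) ∈ L
        rw [eq_inv_of_mul_eq_one_right (a := φ (mn a)) (b := φ (mn (-a)))
          (by rw [← map_mul, mn_mul_neg, map_one])]
        exact inv_mem ha }
  have e : w = ∑ j, w j • Pi.single j 1 := by
    ext i
    simp [Pi.single_apply, Finset.sum_apply]
  rw [e]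
  exact H.sum_mem fun j _ => H.zsmul_mem (h j) _

lemma coeff_mem (h : ∀ w, φ (mn w) ∈ L) {G : La n} (h0 : φ G = 0) (u : Fin n → ℤ)
    (h1 : ∀ w, w ≠ u → algebraMap ℂ F (G.coeff w) ∈ L) : algebraMap ℂ F (G.coeff u) ∈ L := by
  have h2 : φ (G - G.coeff u • mn u) ∈ L := by
    rw [eq_sum (G - G.coeff u • mn u), map_sum]
    refine sum_mem fun w _ => ?_
    rw [map_smul, Algebra.smul_def]
    refine mul_mem ?_ (h w)
    by_cases e : w = u
    · simp [e, coeff_mn]
    · simpa [coeff_mn, Ne.symm e] using h1 w e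
  rw [map_sub, h0, zero_sub, map_smul, Algebra.smul_def, neg_mem_iff] at h2
  rw [← mul_div_cancel_right₀ (algebraMap ℂ F (G.coeff u)) ((isUnit_mn u).map φ).ne_zero]
  exact div_mem h2 (h u)

end COPRB

open COPRB in
theorem st_COPR (hUFD : St_UFD) (hMON : St_MON) (hTD0 : St_TD0) : St_COPR := by
  rintro T f hf S S' ⟨u, hu, su⟩ ⟨u', hu', su'⟩ hS d d1 d2
  by_contra hd
  have := hUFD ℂ T.n
  have d0 : d ≠ 0 := ne_zero_of_dvd_ne_zero (part_ne_zero.2 ⟨u, hf.ne hu, su⟩) d1
  obtain ⟨h, hi, hh⟩ := WfDvdMonoid.exists_irreducible_factor hd d0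
  have hp : (Ideal.span {h}).IsPrime := (Ideal.span_singleton_prime hi.ne_zero).2 hi.prime
  let F := FractionRing (T.R ⧸ Ideal.span {h})
  let φ : T.R →ₐ[ℂ] F := (IsScalarTower.toAlgHom ℂ (T.R ⧸ Ideal.span {h}) F).comp
    (Ideal.Quotient.mkₐ ℂ (Ideal.span {h}))
  have hφ : ∀ G, φ G = 0 ↔ h ∣ G := fun G => by
    rw [← Ideal.mem_span_singleton, ← Ideal.Quotient.eq_zero_iff_mem]
    exact map_eq_zero_iff _ (IsFractionRing.injective (T.R ⧸ Ideal.span {h}) F)
  obtain ⟨i, hy⟩ := (hMON T.n).2.2 F φ h hi.not_isUnit hi.ne_zero fun G => (hφ G).1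
  have ne : u ≠ u' := fun e => hS u su (e ▸ su')
  let A : Finset {u // T.P u} := {⟨u, hu⟩, ⟨u', hu'⟩}
  let g : Finset F := Finset.univ.image fun j => φ (mn (Pi.single j 1))
  let L := Subfield.closure ((fun j : {u // T.P u} => algebraMap ℂ F (f.coeff j)) '' {j | j ∉ A} ∪ g)
  have hg : ∀ j, φ (mn (Pi.single j 1)) ∈ L := fun j =>
    Subfield.subset_closure (Or.inr (Finset.mem_coe.2 (Finset.mem_image_of_mem _ (Finset.mem_univ j))))
  have key : ∀ (U : T.M → Prop) (v : T.M), U v → d ∣ part U f →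
      (∀ w, U w → w ≠ v → w ≠ u ∧ w ≠ u') → algebraMap ℂ F (f.coeff v) ∈ L := fun U v hv k1 k2 => by
    have := coeff_mem φ L (mn_mem φ L hg) ((hφ _).2 (hh.trans k1)) v fun w hw => by
      rw [coeff_part]
      split_ifs with e
      · by_cases e0 : f.coeff w = 0
        · rw [e0, map_zero]
          exact zero_mem _
        · refine Subfield.subset_closure (Or.inl ⟨⟨w, hf.sup w e0⟩, ?_, rfl⟩)
          simpa [A] using k2 w e hw
      · rw [map_zero]
        exact zero_mem _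
    rwa [coeff_part, if_pos hv] at this
  have h1 := hTD0 F _ _ hf.ind A g _ _ hy (fun j hj => ?_) fun j => hg j.1
  · have h2 : g.card ≤ T.n := Finset.card_image_le.trans (by simp)
    have h3 : A.card = 2 := Finset.card_pair fun e => ne (congrArg Subtype.val e)
    have h4 := T.dim
    rw [h3, Fintype.card_subtype_compl, Fintype.card_fin, Fintype.card_subtype_eq] at h1
    omega
  · rcases Finset.mem_insert.1 hj with rfl | hj
    · exact key S u su d1 fun w k e => ⟨e, fun e' => hS w k (e' ▸ su')⟩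
    · rw [Finset.mem_singleton.1 hj]
      exact key S' u' su' d2 fun w k e => ⟨fun e' => hS w (e' ▸ su) k, e⟩

end Pool.Agent.Lib.TF
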