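import Pool.Agent.Lib.TF.Blue

open Set Pool.Agent.Lib.MP_e39d36_ag Pool.Agent.Lib.MP_e39d36_ag.Var Pool.Agent.Lib.DU
  Pool.Agent.Lib.MV Pool.Agent.Lib.MP_cc3443_ag
open scoped Classical

set_option linter.unusedSectionVars false
set_option linter.unusedVariables false

noncomputable section

namespace Pool.Agent.Lib.TF

open Fano

namespace CURVB

variable {K F : Type} [Field K] [Algebra ℂ K] [Field F] [Algebra ℂ F]

/-- A point from a homomorphism on an affine ring. -/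
lemma exists_cmap (X : Var K) {B : Subring K} (lam : B →+* F)
    (hc : ∀ a : ℂ, ∃ h, lam ⟨algebraMap ℂ K a, h⟩ = algebraMap ℂ F a)
    (hp : ∀ S, IsLoc S → LocOf B S → ∃ z, X.O z = S) :
    ∃ γ : CMap X F, B ≤ X.O γ.c ∧ ∀ b : B, γ.τ b = lam b := by
  have := RingHom.ker_isPrime lam
  obtain ⟨S, h1, h2, h3⟩ := exists_locP (RingHom.ker lam)
  obtain ⟨z, rfl⟩ := hp S h1 h2
  have h4 : ∀ y : K, ∃ r : F, y ∈ X.O z → ∀ (b : B) (h : b * y ∈ B), lam b * r = lam ⟨_, h⟩ := by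
    intro y
    by_cases hy : y ∈ X.O z
    · obtain ⟨b0, h5, h6, h7⟩ := h2.2 y hy
      have h8 : lam ⟨b0, h5⟩ ≠ 0 := (h3 ⟨b0, h5⟩).1 h6
      refine ⟨lam ⟨_, h7⟩ / lam ⟨b0, h5⟩, fun _ b h => ?_⟩
      rw [← mul_div_assoc, div_eq_iff h8, ← map_mul, ← map_mul]
      exact congrArg lam (Subtype.ext (by simp only [MulMemClass.mk_mul_mk, Subring.coe_mul]; ring))
    · exact ⟨0, fun h => absurd h hy⟩
  choose τ hτ using h4
  have h5 : ∀ b : B, τ b = lam b := fun b => by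
    have := hτ b (h2.1 b.2) 1 (by simp)
    simpa using this
  have h6 : ∀ y ∈ X.O z, ∃ (b c : B), Un (X.O z) b ∧ lam b ≠ 0 ∧ b * y = c ∧ lam b * τ y = lam c :=
    fun y hy => by
      obtain ⟨b, h7, h8, h9⟩ := h2.2 y hy
      exact ⟨⟨b, h7⟩, ⟨_, h9⟩, h8, (h3 ⟨b, h7⟩).1 h8, rfl, hτ y hy ⟨b, h7⟩ h9⟩
  refine ⟨⟨z, τ, fun x hx y hy => ?_, fun x hx y hy => ?_, fun a => ?_, fun y hy hu => ?_⟩, h2.1, h5⟩
  · obtain ⟨b, c, -, a1, a2, a3⟩ := h6 x hx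
    obtain ⟨b', c', -, a4, a5, a6⟩ := h6 y hy
    have e : ((b * b' : B) : K) * (x + y) = (b' * c + b * c' : B) := by
      push_cast; rw [← a2, ← a5]; ring
    have a7 := hτ _ (add_mem hx hy) (b * b') (e ▸ SetLike.coe_mem _)
    rw [show (⟨_, _⟩ : B) = b' * c + b * c' from Subtype.ext e, map_add, map_mul, map_mul, map_mul,
      ← a3, ← a6] at a7
    exact mul_left_cancel₀ (mul_ne_zero a1 a4) (a7.trans (by ring))
  · obtain ⟨b, c, -, a1, a2, a3⟩ := h6 x hx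
    obtain ⟨b', c', -, a4, a5, a6⟩ := h6 y hy
    have e : ((b * b' : B) : K) * (x * y) = (c * c' : B) := by
      push_cast; rw [← a2, ← a5]; ring
    have a7 := hτ _ (mul_mem hx hy) (b * b') (e ▸ SetLike.coe_mem _)
    rw [show (⟨_, _⟩ : B) = c * c' from Subtype.ext e, map_mul, map_mul, ← a3, ← a6] at a7
    exact mul_left_cancel₀ (mul_ne_zero a1 a4) (a7.trans (by ring))
  · obtain ⟨h, e⟩ := hc a
    exact (h5 ⟨_, h⟩).trans e
  · obtain ⟨b, c, a0, a1, a2, a3⟩ := h6 y hy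
    have a4 : lam c = 0 := of_not_not fun h =>
      hu (Un.of_mul' (a2 ▸ (h3 c).2 h) a0.2.1 hy)
    exact (mul_eq_zero.1 (a3.trans a4)).resolve_left a1

variable {n : ℕ} (ev : La n →ₐ[ℂ] ℂ) (w : Fin n → ℤ) {t : F} (ht : t ≠ 0)

/-- The monomial curve in the torus. -/
def L : La n →ₐ[ℂ] F := AddMonoidAlgebra.lift ℂ F (Fin n → ℤ)
  { toFun := fun u => algebraMap ℂ F (ev (mn u.toAdd)) * t ^ (u.toAdd ⬝ᵥ w)
    map_one' := by simp
    map_mul' := fun u u' => by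
      rw [toAdd_mul, mn_add, map_mul, map_mul, add_dotProduct, zpow_add₀ ht]; ring }

lemma L_mn (u : Fin n → ℤ) : L ev w ht (mn u) = algebraMap ℂ F (ev (mn u)) * t ^ (u ⬝ᵥ w) := by
  simp [L, mn]

lemma L_hom {j : ℤ} {G : La n} (h : Hom w j G) : L ev w ht G = algebraMap ℂ F (ev G) * t ^ j := by
  rw [eq_sum G]
  simp only [map_sum, map_smul, L_mn, Finset.sum_mul]
  refine Finset.sum_congr rfl fun u hu => ?_
  rw [h u (Finsupp.mem_support_iff.1 hu), smul_eq_mul, map_mul, Algebra.smul_def, mul_assoc]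

lemma L_zero {G : La n} (h : ∀ j, ev (inn w j G) = 0) : L ev w ht G = 0 := by
  have e : G = ∑ j ∈ G.coeff.support.image (· ⬝ᵥ w), inn w j G := La.ext fun u => by
    by_cases hu : G.coeff u = 0
    · simp [Finsupp.finsetSum_apply, coeff_part, hu]
    · simp only [AddMonoidAlgebra.coeff_sum, Finsupp.finsetSum_apply, coeff_part]
      refine ((Finset.sum_eq_single_of_mem (u ⬝ᵥ w) (Finset.mem_image_of_mem (· ⬝ᵥ w)
        (Finsupp.mem_support_iff.2 hu)) fun j _ h => ?_).trans ?_).symm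
      · exact if_neg h.symm
      · exact if_pos rfl
  rw [e, map_sum]
  exact Finset.sum_eq_zero fun j _ => by rw [L_hom ev w ht sup_part, h, map_zero, zero_mul]

lemma L_mem (P : Place F) {G : La n} (h : Sup (fun u => t ^ (u ⬝ᵥ w) ∈ P.O) G) :
    L ev w ht G ∈ P.O := by
  rw [eq_sum G, map_sum]
  refine sum_mem fun u hu => ?_
  rw [map_smul, L_mn]
  exact P.smul_mem _ (mul_mem (P.const _) (h u (Finsupp.mem_support_iff.1 hu)))

variable {T : Fano} {τ : Finset T.Ray}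

/-- The sum of the rays. -/
def sm (τ : Finset T.Ray) : T.M := ∑ ρ ∈ τ, T.v ρ

lemma dot_sm (u : T.M) : u ⬝ᵥ sm τ = ∑ ρ ∈ τ, u ⬝ᵥ T.v ρ := dotProduct_sum _ _ _

lemma dot_iff {u : T.M} {c : ℤ} (h : ∀ ρ ∈ τ, c ≤ u ⬝ᵥ T.v ρ) :
    (τ.card * c ≤ u ⬝ᵥ sm τ) ∧ (u ⬝ᵥ sm τ = τ.card * c ↔ ∀ ρ ∈ τ, u ⬝ᵥ T.v ρ = c) := by
  have e : (τ.card : ℤ) * c = ∑ ρ ∈ τ, c := by simp
  rw [dot_sm, e, eq_comm, Finset.sum_eq_sum_iff_of_le h]
  exact ⟨Finset.sum_le_sum h, forall₂_congr fun _ _ => eq_comm⟩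

lemma lo_sm {G : T.R} (h : G ∈ T.S 0 τ) : Lo (sm τ) 0 G := fun u hu => by
  simpa using (dot_iff (c := 0) fun ρ hρ => by simpa using h ρ hρ u hu).1

lemma B_anti (M : T.Mod0 K) {σ : Finset T.Ray} (h : τ ⊆ σ) : M.B σ ≤ M.B τ :=
  fun _ ⟨G, h1, h2⟩ => ⟨G, fun ρ hρ => h1 ρ (h hρ), h2⟩

/-- The point given by the monomial curve. -/
lemma point (M : T.Mod K) (hτ : T.Face τ) (w : T.M) (ev : T.R →ₐ[ℂ] ℂ) {t : F} (ht : t ≠ 0)
    (h : ∀ j, ev (part (fun u => (∀ ρ ∈ τ, u ⬝ᵥ T.v ρ = -1) ∧ u ⬝ᵥ w = j) M.f) = 0) :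
    ∃ γ : CMap M.X F, M.B τ ≤ M.X.O γ.c ∧
      ∀ G ∈ T.S 0 τ, γ.τ (M.ψ G) = L ev w ht (inn (sm τ) 0 G) := by
  have h1 : ∀ G ∈ T.S 0 τ, M.ψ G = 0 → L ev w ht (inn (sm τ) 0 G) = 0 := fun G hG h0 => by
    obtain ⟨Q, rfl⟩ := (M.ker G).1 h0
    obtain ⟨m, hm, hm'⟩ := hτ
    have a1 : Lo (sm τ) (τ.card * -1) M.f := fun u hu =>
      (dot_iff fun ρ _ => M.gen.sup u hu ρ).1
    have a2 : At (sm τ) (τ.card * -1) M.f := ⟨m, M.gen.ne hm.1,
      (dot_iff fun ρ _ => hm.1 ρ).2.2 fun ρ hρ => mem_F.1 (hm' hρ)⟩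
    have e : (0 : ℤ) = τ.card * -1 + τ.card := by ring
    have a3 : Lo (sm τ) τ.card Q := a1.cancel a2 (e ▸ lo_sm hG)
    rw [e, inn_mul a1 a3, map_mul, L_zero ev w ht fun j => ?_, zero_mul]
    rw [inn, part_part, ← h j]
    refine congrArg ev (part_congr fun u hu => ?_)
    rw [(dot_iff fun ρ _ => M.gen.sup u hu ρ).2, and_comm]
  have h2 : ∀ s : K, ∃ r : F, ∀ G ∈ T.S 0 τ, M.ψ G = s → r = L ev w ht (inn (sm τ) 0 G) := by
    intro s
    by_cases hs : s ∈ M.B τ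
    · obtain ⟨G, hG, rfl⟩ := hs
      refine ⟨L ev w ht (inn (sm τ) 0 G), fun H hH e => sub_eq_zero.1 ?_⟩
      rw [← map_sub, ← part_sub]
      exact h1 _ (sub_mem (show G ∈ T.S 0 τ from hG) hH) (by rw [map_sub, e]; exact sub_self _)
    · exact ⟨0, fun G hG e => absurd ⟨G, hG, e⟩ hs⟩
  choose lam hl using h2
  have h3 : ∀ G ∈ T.S 0 τ, lam (M.ψ G) = L ev w ht (inn (sm τ) 0 G) := fun G hG => hl _ G hG rfl
  have h4 : ∀ c : ℂ, lam (algebraMap ℂ K c) = algebraMap ℂ F c := fun c => by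
    rw [← M.ψ.commutes, h3 _ ((T.S0 τ).algebraMap_mem c), inn,
      part_of_sup (sup_algebraMap (by simp) c), AlgHom.commutes]
  obtain ⟨γ, h5, h6⟩ := exists_cmap M.X (B := M.B τ)
    { toFun := fun b => lam b
      map_one' := by simpa using h4 1
      map_zero' := by simpa using h4 0
      map_mul' := by
        rintro ⟨_, G, hG, rfl⟩ ⟨_, H, hH, rfl⟩
        change lam (M.ψ G * M.ψ H) = lam (M.ψ G) * lam (M.ψ H)
        rw [← map_mul, h3 _ hG, h3 _ hH, h3 _ ((T.S0 τ).mul_mem hG hH), ← map_mul,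
          ← inn_mul (lo_sm hG) (lo_sm hH), add_zero]
      map_add' := by
        rintro ⟨_, G, hG, rfl⟩ ⟨_, H, hH, rfl⟩
        change lam (M.ψ G + M.ψ H) = lam (M.ψ G) + lam (M.ψ H)
        rw [← map_add, h3 _ hG, h3 _ hH, h3 _ (add_mem hG hH), ← map_add, ← part_add] }
    (fun a => ⟨Subalgebra.algebraMap_mem _ a, h4 a⟩) (M.pts.pt τ hτ)
  exact ⟨γ, h5, fun G hG => (h6 ⟨_, G, hG, rfl⟩).trans (h3 G hG)⟩

lemma le_ctr (M : T.Mod K) (hτ : T.Face τ) (γ : CMap M.X F) (P : Place F)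
    (h : M.B τ ≤ γ.T P) : M.B τ ≤ M.X.O (γ.ctr P) := by
  obtain ⟨z, hz⟩ := M.pts.pt τ hτ _ ((dom_loc h).isLoc CMap.isLoc_T) locOf_loc
  rw [CMap.ctr_eq (x := z) (hz ▸ dom_loc h), hz]
  exact locOf_loc.1

end CURVB

open CURVB in
theorem st_CURV (hC : St_C0) (hB : St_BAS) : St_CURV := by
  intro T K _ _ M τ w w' hw h1 h2 hww ev hev
  set t : RatFunc ℂ := RatFunc.X with htd
  have ht : t ≠ 0 := RatFunc.X_ne_zero
  obtain ⟨γ, g1, g2⟩ := point M (h1.mono (Finset.subset_insert _ _)) (T.v w) ev ht hev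
  obtain ⟨φ, hφ, -⟩ := M.Γ.exists_fun γ
  have key : ∀ (P : Place (RatFunc ℂ)) (ρ : T.Ray), T.Face (insert ρ τ) →
      (∀ u : T.M, (∀ σ ∈ τ, u ⬝ᵥ T.v σ = 0) → 0 ≤ u ⬝ᵥ T.v ρ → t ^ (u ⬝ᵥ T.v w) ∈ P.O) →
        M.B (insert ρ τ) ≤ M.X.O (γ.ctr P) := fun P ρ a1 a2 => by
    refine le_ctr M a1 γ P ?_
    rintro _ ⟨G, hG, rfl⟩
    have a3 : G ∈ T.S 0 τ := fun σ hσ => hG σ (Finset.mem_insert_of_mem hσ)
    refine CMap.mem_T.2 ⟨g1 ⟨G, a3, rfl⟩, ?_⟩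
    change γ.τ (M.ψ G) ∈ _
    rw [g2 G a3]
    refine L_mem ev _ ht P fun u hu => ?_
    have a4 : G.coeff u ≠ 0 := fun h => hu (by rw [coeff_part, h, ite_self])
    refine a2 u ((dot_iff (c := 0) fun σ hσ => by simpa using a3 σ hσ u a4).2.1 ?_) ?_
    · simpa using sup_part u hu
    · simpa using hG ρ (Finset.mem_insert_self _ _) u a4
  have k1 : ∀ P : Place (RatFunc ℂ), t ∈ P.O → M.B (insert w τ) ≤ M.X.O (γ.ctr P) :=
    fun P hP => key P w h1 fun u _ hu => by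
      obtain ⟨k, hk⟩ := Int.eq_ofNat_of_zero_le hu
      rw [hk, zpow_natCast]
      exact pow_mem hP k
  have k2 : ∀ P : Place (RatFunc ℂ), t ∉ P.O → M.B (insert w' τ) ≤ M.X.O (γ.ctr P) :=
    fun P hP => key P w' h2 fun u hu0 hu => by
      obtain ⟨k, hk⟩ := Int.eq_ofNat_of_zero_le hu
      have := hww u hu0
      rw [show u ⬝ᵥ T.v w = -(k : ℤ) by omega, zpow_neg, zpow_natCast, ← inv_pow]
      exact pow_mem ((P.O.mem_or_inv_mem t).resolve_left hP) k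
  set N : ℤ := ∑ᶠ P : Place (RatFunc ℂ), if t ∈ P.O then P.ord t else 0 with hN
  have hN0 : 0 < N := by
    obtain ⟨P, hP⟩ : ∃ P : Place (RatFunc ℂ), t⁻¹ ∉ P.O := by
      by_contra h
      push Not at h
      obtain ⟨c, hc⟩ := MP_cc3443_ag.exists_const h
      exact transc_inv RatFunc.transcendental_X (hc ▸ isAlgebraic_algebraMap c)
    refine finsum_pos (fun Q => ?_) ⟨P, ?_⟩ ((Place.finite_ord t).subset fun Q hQ h => hQ ?_)
    · split_ifs with h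
      · exact (Q.mem_iff_ord ht).1 h
      · rfl
    · rw [if_pos ((P.O.mem_or_inv_mem t).resolve_right hP)]
      rw [P.mem_iff_ord (inv_ne_zero ht), P.ord_inv] at hP
      omega
    · simp only [h, ite_self]
  refine ⟨(N : ℝ)⁻¹ • φ, fun a u hu hu' => ?_⟩
  obtain ⟨m1, v1, s1⟩ := h1
  obtain ⟨m2, v2, s2⟩ := h2
  obtain ⟨u1, d1⟩ := (hC T).dual m1 v1 a
  obtain ⟨u2, d2⟩ := (hC T).dual m2 v2 a
  have e1 : ∀ ρ ∈ τ, (u1 - u2) ⬝ᵥ T.v ρ = 0 := fun ρ hρ => by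
    rw [sub_dotProduct, d1 ρ (s1 (Finset.mem_insert_of_mem hρ)),
      d2 ρ (s2 (Finset.mem_insert_of_mem hρ)), sub_self]
  have e2 : (u1 - u2) ⬝ᵥ T.v w = a w - u ⬝ᵥ T.v w := by
    have := hww (u - u2) fun ρ hρ => by
      rw [sub_dotProduct, hu ρ hρ, d2 ρ (s2 (Finset.mem_insert_of_mem hρ)), sub_self]
    rw [sub_dotProduct, sub_dotProduct, hu', d2 w' (s2 (Finset.mem_insert_self _ _))] at this
    rw [sub_dotProduct, d1 w (s1 (Finset.mem_insert_self _ _))]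
    omega
  have e3 : γ.τ (M.χ u1 / M.χ u2) =
      algebraMap ℂ _ (ev (mn (u1 - u2))) * t ^ (a w - u ⬝ᵥ T.v w) := by
    rw [← M.χ_sub, Mod0.χ, g2 _ fun ρ hρ => sup_mn.2 (by simp [e1 ρ hρ]), inn,
      part_of_sup (sup_mn.2 (by rw [dot_sm]; exact Finset.sum_eq_zero e1)), L_mn, e2]
  have e4 : γ.deg (M.std a) = (a w - u ⬝ᵥ T.v w) * N := by
    rw [CMap.deg_eq (M.sm.fac _) (f := fun P => if t ∈ P.O then M.χ u1 else M.χ u2) (g := M.χ u2)
      (fun P => by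
        split_ifs with h
        · exact (hB T K M).locEq m1 v1 _ ((B_anti _ s1).trans (k1 P h)) a u1 d1
        · exact (hB T K M).locEq m2 v2 _ ((B_anti _ s2).trans (k2 P h)) a u2 d2)
      ((hB T K M).locEq m2 v2 _ ((B_anti _ ((Finset.subset_insert _ _).trans s2)).trans g1) a u2 d2),
      hN, mul_finsum]
    refine finsum_congr fun P => ?_
    split_ifs with h
    · have c0 : ev (mn (u1 - u2)) ≠ 0 := ((isUnit_mn _).map ev).ne_zero
      rw [e3, P.ord_mul (by simpa using c0) (zpow_ne_zero _ ht), P.ord_zpow,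
        P.ord_eq_of_val (m := 0) (by simpa using P.val_const c0), zero_add]
    · rw [div_self (M.χ_ne u2), γ.τ_one, P.ord_one, mul_zero]
  have e5 : φ (M.nc (M.std a)) = γ.deg (M.std a) := hφ ⟨_, M.sm.fac _⟩
  have e6 : (N : ℝ) ≠ 0 := by exact_mod_cast hN0.ne'
  rw [LinearMap.smul_apply, e5, e4, smul_eq_mul]
  push_cast
  field_simp

end Pool.Agent.Lib.TF
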