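import Pool.Agent.Lib.TF.Blue

open Set Pool.Agent.Lib.MP_e39d36_ag Pool.Agent.Lib.MP_e39d36_ag.Var Pool.Agent.Lib.DU
  Pool.Agent.Lib.MV
open scoped Classical NNReal

noncomputable section

namespace Pool.Agent.Lib.TF

open Fano

namespace CVB

variable {T : Fano}

lemma exists_out (h : T.C0) {m : T.M} (hm : T.V m) (a b c : T.Ray) :
    ∃ s ∈ T.F m, s ≠ a ∧ s ≠ b ∧ s ≠ c := by
  have h1 : ({a, b, c} : Finset T.Ray).card < (T.F m).card := by
    have := Finset.card_le_three (a := a) (b := b) (c := c)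
    have := T.dim
    rw [h.card m hm]
    omega
  obtain ⟨s, h2, h3⟩ := Finset.exists_mem_notMem_of_card_lt_card h1
  exact ⟨s, h2, by simpa [not_or] using h3⟩

lemma exists_dual (h : T.C0) {m : T.M} (hm : T.V m) {s : T.Ray} (hs : s ∈ T.F m) :
    ∃ d : T.M, d ⬝ᵥ T.v s = 1 ∧ (∀ ρ ∈ T.F m, ρ ≠ s → d ⬝ᵥ T.v ρ = 0) ∧ T.P (m + d) := by
  obtain ⟨d, hd⟩ := h.dual m hm (Pi.single s 1)
  have h1 : d ⬝ᵥ T.v s = 1 := by rw [hd s hs, Pi.single_eq_same]
  have h2 : ∀ ρ ∈ T.F m, ρ ≠ s → d ⬝ᵥ T.v ρ = 0 := fun ρ hρ e => by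
    rw [hd ρ hρ, Pi.single_eq_of_ne e]
  refine ⟨d, h1, h2, h.edge m hm s hs _ ?_ fun σ hσ e => ?_⟩
  · rw [add_dotProduct, mem_F.1 hs, h1]; rfl
  · rw [add_dotProduct, mem_F.1 hσ, h2 σ hσ e]; rfl

lemma vert_of {ρ : T.Ray} (h : T.Face {ρ}) : ∃ m, T.V m ∧ ρ ∈ T.F m :=
  h.imp fun _ h => ⟨h.1, h.2 (Finset.mem_singleton_self _)⟩

/-- A dual vector at the second vertex that is not constant on the first facet. -/
lemma noncst (h : T.C0) {z z' : T.Ray} (ho : T.Opp z z') {m m' : T.M} (hm : T.V m)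
    (hm' : T.V m') (hz' : z' ∈ T.F m') : ∃ (d : T.M) (a b : T.Ray),
      d ⬝ᵥ T.v z = 0 ∧ T.P (m' + d) ∧ a ∈ T.F m ∧ b ∈ T.F m ∧ a ≠ z ∧ b ≠ z ∧
        d ⬝ᵥ T.v a ≠ d ⬝ᵥ T.v b := by
  by_contra hc
  push Not at hc
  obtain ⟨s, s1, s2, -⟩ := exists_out h hm' z' z' z'
  obtain ⟨t, t1, t2, t3, -⟩ := exists_out h hm' z' s s
  obtain ⟨a, a1, a2, -⟩ := exists_out h hm z z z
  obtain ⟨d, d1, d2, d3⟩ := exists_dual h hm' s1
  obtain ⟨e, e1, e2, e3⟩ := exists_dual h hm' t1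
  have d4 : d ⬝ᵥ T.v z = 0 := by rw [ho.symm.dot, d2 z' hz' s2.symm, neg_zero]
  have e4 : e ⬝ᵥ T.v z = 0 := by rw [ho.symm.dot, e2 z' hz' t2.symm, neg_zero]
  have h1 : (e ⬝ᵥ T.v a) • d - (d ⬝ᵥ T.v a) • e = 0 := h.ext m hm _ fun ρ hρ => by
    rw [sub_dotProduct, smul_dotProduct, smul_dotProduct, smul_eq_mul, smul_eq_mul]
    by_cases c : ρ = z
    · rw [c, d4, e4]; simp
    · rw [hc d ρ a d4 d3 hρ a1 c a2, hc e ρ a e4 e3 hρ a1 c a2]; ring
  have h2 := congrArg (· ⬝ᵥ T.v s) h1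
  simp only [sub_dotProduct, smul_dotProduct, smul_eq_mul, d1, e2 s s1 t3.symm, zero_dotProduct,
    mul_one, mul_zero, sub_zero] at h2
  have h3 : e = 0 := h.ext m hm _ fun ρ hρ => by
    by_cases c : ρ = z
    · rw [c, e4]
    · rw [hc e ρ a e4 e3 hρ a1 c a2, h2]
  rw [h3, zero_dotProduct] at e1
  exact zero_ne_one e1

lemma ev_line (h : T.C0) (hP : St_PTZ) {f : T.R} (hf : T.Gen f) {z z' : T.Ray} (ho : T.Opp z z') :
    ∃ ev : T.R →ₐ[ℂ] ℂ, ∀ j : ℤ,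
      ev (part (fun u => (∀ ρ ∈ (∅ : Finset T.Ray), u ⬝ᵥ T.v ρ = -1) ∧ u ⬝ᵥ T.v z = j) f) = 0 := by
  obtain ⟨m, hm, hz⟩ := vert_of (h.ray z)
  obtain ⟨m', hm', hz'⟩ := vert_of (h.ray z')
  obtain ⟨d, a, b, d1, d2, a1, b1, a2, b2, d3⟩ := noncst h ho hm hm' hz'
  obtain ⟨s, s1, s2, s3, s4⟩ := exists_out h hm z a b
  obtain ⟨e, e1, e2, e3⟩ := exists_dual h hm s1
  obtain ⟨g, g1, g2, g3⟩ := exists_dual h hm hz
  have m1 := mem_F.1 hz
  have m2 : m' ⬝ᵥ T.v z = 1 := by rw [ho.symm.dot, mem_F.1 hz', neg_neg]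
  have e4 := e2 z hz s2.symm
  obtain ⟨ev, hev⟩ := hP T f hf (Fin 3) (fun j u => u ⬝ᵥ T.v z = (j : ℕ) - 1) ![m, 0, m']
    ![m + e, m + g, m' + d] (fun i j hij w h1 h2 => hij (Fin.ext (by omega)))
    (fun j => by
      fin_cases j
      · exact ⟨hm.1, by simpa using m1, e3, by simp [add_dotProduct, m1, e4]⟩
      · exact ⟨fun ρ => by simp, by simp, g3, by simp [add_dotProduct, m1, g1]⟩
      · exact ⟨hm'.1, by simpa using m2, d2, by simp [add_dotProduct, m2, d1]⟩)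
    (Fintype.linearIndependent_iff.2 fun c hc => by
      rw [Fin.sum_univ_three] at hc
      replace hc : c 0 • (m + e - m) + c 1 • (m + g - 0) + c 2 • (m' + d - m') = 0 := hc
      rw [add_sub_cancel_left, add_sub_cancel_left, sub_zero] at hc
      have h1 := congrArg (· ⬝ᵥ T.v a) hc
      have h2 := congrArg (· ⬝ᵥ T.v b) hc
      have h3 := congrArg (· ⬝ᵥ T.v s) hc
      simp only [add_dotProduct, smul_dotProduct, zero_dotProduct, smul_eq_mul, e1,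
        e2 a a1 s3.symm, e2 b b1 s4.symm, g2 a a1 a2, g2 b b1 b2,
        g2 s s1 s2, mem_F.1 a1, mem_F.1 b1, mem_F.1 s1] at h1 h2 h3
      have h4 : c 2 * (d ⬝ᵥ T.v a - d ⬝ᵥ T.v b) = 0 := by linarith
      have h5 : c 2 = 0 := (mul_eq_zero.1 h4).resolve_right (sub_ne_zero.2 d3)
      rw [h5] at h1 h3
      intro i
      fin_cases i
      · show c 0 = 0
        omega
      · show c 1 = 0
        omega
      · exact h5)
  refine ⟨ev, fun j => ?_⟩
  by_cases c : -1 ≤ j ∧ j ≤ 1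
  · rw [← hev ⟨(j + 1).toNat, by omega⟩]
    refine congrArg ev (part_congr fun u _ => ?_)
    simp only [Finset.notMem_empty, false_imp_iff, implies_true, true_and]
    omega
  · rw [part_eq_zero, map_zero]
    intro u hu h1
    have h2 := hf.sup u hu z
    have h3 := hf.sup u hu z'
    rw [ho.dot] at h3
    omega

lemma ev_tri (h : T.C0) (hP : St_PTZ) {f : T.R} (hf : T.Gen f) {x z y : T.Ray} (ht : T.Tri x z y)
    (hx : T.Face (insert x {y})) (hz : T.Face (insert z {y})) : ∃ ev : T.R →ₐ[ℂ] ℂ, ∀ j : ℤ,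
      ev (part (fun u => (∀ ρ ∈ ({y} : Finset T.Ray), u ⬝ᵥ T.v ρ = -1) ∧ u ⬝ᵥ T.v x = j) f) = 0 := by
  obtain ⟨m, hm, hm1⟩ := hx
  obtain ⟨m', hm', hm2⟩ := hz
  have x1 : x ∈ T.F m := hm1 (by simp)
  have y1 : y ∈ T.F m := hm1 (by simp)
  have z2 : z ∈ T.F m' := hm2 (by simp)
  have y2 : y ∈ T.F m' := hm2 (by simp)
  obtain ⟨t, t1, t2, t3, -⟩ := exists_out h hm' z y y
  obtain ⟨d, d1, d2, d3⟩ := exists_dual h hm' t1
  have d4 := d2 z z2 t2.symm
  have d5 := d2 y y2 t3.symm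
  have d6 : d ⬝ᵥ T.v x = 0 := by have := ht.dot d; omega
  obtain ⟨a, a1, a2⟩ : ∃ a ∈ T.F m, d ⬝ᵥ T.v a ≠ 0 := by
    by_contra hc
    push Not at hc
    rw [h.ext m hm d hc, zero_dotProduct] at d1
    exact zero_ne_one d1
  obtain ⟨s, s1, s2, s3, s4⟩ := exists_out h hm x y a
  obtain ⟨e, e1, e2, e3⟩ := exists_dual h hm s1
  have m1 := mem_F.1 x1
  have m2 := mem_F.1 y1
  have m3 := mem_F.1 y2
  have m4 : m' ⬝ᵥ T.v x = 0 := by have := ht.dot m'; have := mem_F.1 z2; omega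
  obtain ⟨ev, hev⟩ := hP T f hf (Fin 2)
    (fun j u => u ⬝ᵥ T.v y = -1 ∧ u ⬝ᵥ T.v x = (j : ℕ) - 1) ![m, m'] ![m + e, m' + d]
    (fun i j hij w h1 h2 => hij (Fin.ext (by omega)))
    (fun j => by
      fin_cases j
      · exact ⟨hm.1, by simp [m1, m2], e3,
          by simp [add_dotProduct, m1, m2, e2 x x1 s2.symm, e2 y y1 s3.symm]⟩
      · exact ⟨hm'.1, by simp [m3, m4], d3, by simp [add_dotProduct, m3, m4, d5, d6]⟩)
    (Fintype.linearIndependent_iff.2 fun c hc => by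
      rw [Fin.sum_univ_two] at hc
      replace hc : c 0 • (m + e - m) + c 1 • (m' + d - m') = 0 := hc
      rw [add_sub_cancel_left, add_sub_cancel_left] at hc
      have h1 := congrArg (· ⬝ᵥ T.v a) hc
      have h3 := congrArg (· ⬝ᵥ T.v s) hc
      simp only [add_dotProduct, smul_dotProduct, zero_dotProduct, smul_eq_mul, e1,
        e2 a a1 s4.symm, mul_zero, zero_add] at h1 h3
      have h2 : c 1 = 0 := (mul_eq_zero.1 h1).resolve_right a2
      rw [h2] at h3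
      intro i
      fin_cases i
      · show c 0 = 0
        omega
      · exact h2)
  refine ⟨ev, fun j => ?_⟩
  by_cases c : -1 ≤ j ∧ j ≤ 0
  · rw [← hev ⟨(j + 1).toNat, by omega⟩]
    refine congrArg ev (part_congr fun u _ => ?_)
    simp only [Finset.mem_singleton, forall_eq]
    omega
  · rw [part_eq_zero, map_zero]
    intro u hu h1
    have h2 := hf.sup u hu x
    have h3 := hf.sup u hu z
    have h4 := ht.dot u
    have h5 := h1.1 y (Finset.mem_singleton_self y)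
    omega

lemma real {K : Type} [Field K] [Algebra ℂ K] {M : T.Mod K} (hB : M.Bas) (φ : M.Γ.N1 →ₗ[ℝ] ℝ)
    (l : (T.Ray → ℝ) →ₗ[ℝ] ℝ) (h : ∀ a : T.Λ, φ (M.nc (M.std a)) = l (rc a)) (a : T.Ray → ℝ) :
    φ (M.cl a) = l a := by
  refine LinearMap.congr_fun (f := φ ∘ₗ M.cl) (LinearMap.pi_ext' fun ρ => LinearMap.ext_ring ?_) a
  have h1 : rc (Pi.single ρ 1 : T.Λ) = Pi.single ρ 1 := funext fun σ => by
    by_cases c : σ = ρ <;> simp [rc, c]
  have h2 := h (Pi.single ρ 1)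
  rw [← hB.cls, h1] at h2
  exact h2

/-- The functional of a relation. -/
def rel (x z y : T.Ray) (t : ℝ) : (T.Ray → ℝ) →ₗ[ℝ] ℝ where
  toFun a := a x + a z - t * a y
  map_add' a b := by simp only [Pi.add_apply]; ring
  map_smul' c a := by simp only [Pi.smul_apply, smul_eq_mul, RingHom.id_apply]; ring

end CVB

open CVB in
theorem st_CV (h0 : St_C0) (h1 : St_C1) (hP : St_PTZ) (hB : St_BAS) (hC : St_CURV) : St_CV := by
  intro T K _ _ M
  have h := h0 T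
  refine ⟨fun z z' ho => ?_, fun x z y ht => ?_⟩
  · obtain ⟨ev, hev⟩ := ev_line h hP M.gen ho
    obtain ⟨φ, hφ⟩ := hC T K M ∅ z z' (Finset.notMem_empty z) (h.ray z) (h.ray z')
      (fun u _ => by rw [ho.dot]; ring) ev hev
    refine ⟨φ, fun a => (real (hB T K M) φ (rel z z' z 0) (fun a => ?_) a).trans (by simp [rel])⟩
    obtain ⟨m', hm', hz'⟩ := vert_of (h.ray z')
    obtain ⟨u, hu⟩ := h.dual m' hm' a
    rw [hφ a u (fun ρ hρ => (Finset.notMem_empty ρ hρ).elim) (hu z' hz'), ho.symm.dot, hu z' hz']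
    simp [rc, rel]
  · have ne : ∀ {x z : T.Ray}, T.Tri x z y → x ∉ ({y} : Finset T.Ray) := fun {x z} ht e => by
      rw [Finset.mem_singleton.1 e] at ht
      exact T.ne z (add_eq_left.1 ht)
    have hx := (h1 T).swap x z y ht {y} (h.ray y) (Finset.mem_singleton_self y) (ne ht.symm)
    have hz := (h1 T).swap z x y ht.symm {y} (h.ray y) (Finset.mem_singleton_self y) (ne ht)
    obtain ⟨ev, hev⟩ := ev_tri h hP M.gen ht hx hz
    obtain ⟨φ, hφ⟩ := hC T K M {y} x z (ne ht) hx hz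
      (fun u hu => by rw [← ht.dot]; exact hu y (Finset.mem_singleton_self y)) ev hev
    refine ⟨φ, fun a => (real (hB T K M) φ (rel x z y 1) (fun a => ?_) a).trans (by simp [rel])⟩
    obtain ⟨m', hm', hm2⟩ := hz
    obtain ⟨u, hu⟩ := h.dual m' hm' a
    have u1 := hu z (hm2 (by simp))
    have u2 := hu y (hm2 (by simp))
    have u3 : u ⬝ᵥ T.v x = a y - a z := by have := ht.dot u; omega
    rw [hφ a u (fun ρ hρ => by rw [Finset.mem_singleton.1 hρ, u2]) u1, u3]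
    simp [rc, rel]
    ring

end Pool.Agent.Lib.TF
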