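import Pool.Agent.Lib.TF.LBlue

open Set
open scoped NNReal

noncomputable section

namespace Pool.Agent.Lib.TF

open Fano

namespace DE6B

variable {T : Fano}

/-- A plane with six rays. -/
structure Hex (T : Fano) extends T.Pent where
  v6 : T.Ray
  o2 : T.Opp v2 v6

namespace Hex

variable (H : Hex T)

/-- The rotation of a hexagon. -/
def rot : Hex T :=
  ⟨⟨H.v2, H.v3, H.v4, H.v6, H.v1, H.tri.symm.opp H.o1, H.o2, H.o1.symm⟩, H.v5, H.o3⟩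

/-- The fibre degree. -/
def D (a : T.Ray → ℝ) : ℝ := a H.v1 + a H.v2 + a H.v3 + a H.v4 + a H.v5 + a H.v6

/-- The quadratic form. -/
def Q (a : T.Ray → ℝ) : ℝ := (a H.v1 + a H.v4) ^ 2 + (a H.v2 + a H.v6) ^ 2 +
  (a H.v3 + a H.v5) ^ 2 - 2 * (a H.v2 + a H.v4 + a H.v5) * (a H.v1 + a H.v3 + a H.v6)

/-- The generator of a line. -/
def p : T.Gn := .p H.v1 H.v4 H.o1

/-- The generator of a triangle. -/
def q : T.Gn := .q H.v2 H.v5 H.v1 H.v4 (H.tri.opp H.o3) H.o1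

/-- Hexagons in the same plane. -/
def Sim (H' : Hex T) : Prop := (∀ a, H'.D a = H.D a) ∧ (∀ a, H'.Q a = H.Q a) ∧
  ∀ ρ, T.InV H'.v1 H'.v3 ρ ↔ T.InV H.v1 H.v3 ρ

/-- The generators in the plane. -/
def G (g : T.Gn) : Prop := ∃ H', H.Sim H' ∧ (g = H'.p ∨ g = H'.q)

/-- What is known about effective classes. -/
def Z (a : T.Ray → ℝ) : Prop := ∀ H : Hex T, 0 ≤ H.D a ∧ (H.D a = 0 →
  a H.v1 + a H.v4 = 0 ∧ a H.v3 + a H.v5 = 0 ∧ a H.v2 + a H.v4 + a H.v5 = 0)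

lemma e2 : T.v H.v2 = T.v H.v1 + T.v H.v3 := Eq.symm H.tri

lemma e4 : T.v H.v4 = -T.v H.v1 := eq_neg_of_add_eq_zero_right H.o1

lemma e5 : T.v H.v5 = -T.v H.v3 := eq_neg_of_add_eq_zero_right H.o3

lemma e6 : T.v H.v6 = -T.v H.v2 := eq_neg_of_add_eq_zero_right H.o2

lemma sim_refl : H.Sim H := ⟨fun _ => rfl, fun _ => rfl, fun _ => Iff.rfl⟩

variable {H}

lemma Sim.rot {H' : Hex T} (h : H.Sim H') : H.Sim H'.rot := by
  refine ⟨fun a => (h.1 a).symm ▸ ?_, fun a => (h.2.1 a).symm ▸ ?_, fun ρ => Iff.trans ?_ (h.2.2 ρ)⟩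
  · simp only [D, Hex.rot]; ring
  · simp only [Q, Hex.rot]; ring
  · change T.InV H'.v2 H'.v4 ρ ↔ _
    unfold InV
    rw [e2, e4]
    exact ⟨fun ⟨i, j, e⟩ => ⟨i - j, i, by rw [e]; module⟩,
      fun ⟨i, j, e⟩ => ⟨j, j - i, by rw [e]; module⟩⟩

lemma Q_ge (a : T.Ray → ℝ) : -(H.D a) ^ 2 ≤ H.Q a := by
  unfold D Q
  nlinarith [sq_nonneg (a H.v1 + a H.v4), sq_nonneg (a H.v2 + a H.v6), sq_nonneg (a H.v3 + a H.v5),
    sq_nonneg (a H.v2 + a H.v4 + a H.v5), sq_nonneg (a H.v1 + a H.v3 + a H.v6)]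

lemma step (h6 : St_PL6) {r : T.Ray} (hr : ¬T.InV H.v1 H.v3 r) {g : T.Gn} (hg : H.G g)
    (a : T.Ray → ℝ) : H.D (T.act ℝ g a) = H.D a ∧
      2 * H.D a * T.act ℝ g a r - H.Q (T.act ℝ g a) = 2 * H.D a * a r - H.Q a ∧
      (Z a → H.D a = 0 → T.act ℝ g a r = a r) := by
  obtain ⟨K, ⟨s1, s2, s3⟩, hg⟩ := hg
  have P := h6 T K.toPent K.v6 K.o2 ℝ a
  have hr' := mt (s3 r).1 hr
  rw [← s1, ← s1, ← s2, ← s2]
  rcases hg with rfl | rfl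
  · simp only [p, act, D, Q, P.p1, P.p2, P.p3, P.p4, P.p5, P.p6, P.po r hr']
    refine ⟨by ring, by ring, fun hz h0 => ?_⟩
    have := (hz K).2 h0
    linarith [this.1]
  · simp only [q, act, D, Q, P.q1, P.q2, P.q3, P.q4, P.q5, P.q6, P.qo r hr']
    refine ⟨by ring, by ring, fun hz h0 => ?_⟩
    obtain ⟨z1, z2, z3⟩ := (hz K).2 h0
    linarith

lemma word (h6 : St_PL6) {r : T.Ray} (hr : ¬T.InV H.v1 H.v3 r) (l : List T.Gn)
    (hl : ∀ g ∈ l, H.G g) (a : T.Ray → ℝ) : H.D (T.wd ℝ l a) = H.D a ∧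
      2 * H.D a * T.wd ℝ l a r - H.Q (T.wd ℝ l a) = 2 * H.D a * a r - H.Q a ∧
      ((∀ l, Z (T.wd ℝ l a)) → H.D a = 0 → T.wd ℝ l a r = a r) := by
  induction l with
  | nil => exact ⟨rfl, rfl, fun _ _ => rfl⟩
  | cons g l ih =>
    obtain ⟨i1, i2, i3⟩ := ih fun g hg => hl g (List.mem_cons_of_mem _ hg)
    obtain ⟨j1, j2, j3⟩ := step h6 hr (hl g List.mem_cons_self) (T.wd ℝ l a)
    rw [wd_cons]
    rw [i1] at j1 j2 j3
    exact ⟨j1, j2.trans i2, fun hz h0 => (j3 (hz l) h0).trans (i3 hz h0)⟩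

lemma fin (h6 : St_PL6) {r : T.Ray} (hr : ¬T.InV H.v1 H.v3 r) {a : T.Ray → ℝ}
    (ha : ∀ l, (∀ g ∈ l, H.G g) → a r ≤ T.wd ℝ l a r) {K : Hex T} (hK : H.Sim K) :
    0 ≤ a K.v1 + a K.v4 ∧ 0 ≤ a K.v2 + a K.v4 + a K.v5 := by
  have gp : ∀ K, H.Sim K → H.G K.p := fun K h => ⟨K, h, .inl rfl⟩
  have r0 := mt (hK.2.2 r).1 hr
  have r1 := mt (hK.rot.2.2 r).1 hr
  have r2 := mt (hK.rot.rot.2.2 r).1 hr
  have h1 := ha [K.p] (by simpa using gp K hK)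
  have h2 := ha [K.rot.rot.p, K.p, K.rot.p, K.q] (by
    simpa using ⟨gp _ hK.rot.rot, gp _ hK, gp _ hK.rot, K, hK, .inr rfl⟩)
  simp only [wd_cons, wd_nil, p, q, act] at h1 h2
  have P0 := h6 T K.toPent K.v6 K.o2 ℝ a
  rw [P0.po r r0] at h1
  refine ⟨by linarith, ?_⟩
  have P1 := h6 T K.rot.toPent K.rot.v6 K.rot.o2 ℝ (T.Tq ℝ K.v2 K.v5 K.v1 K.v4 a)
  have P2 := h6 T K.toPent K.v6 K.o2 ℝ
    (T.Tp ℝ K.rot.v1 K.rot.v4 (T.Tq ℝ K.v2 K.v5 K.v1 K.v4 a))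
  rw [(h6 T K.rot.rot.toPent K.rot.rot.v6 K.rot.rot.o2 ℝ _).po r r2, P2.po r r0, P1.po r r1,
    P0.qo r r0] at h2
  have a1 := P1.p1
  have a2 := P1.p2
  have a3 := P1.p3
  have a4 := P1.p4
  have a5 := P1.p5
  have a6 := P1.p6
  have b3 := P2.p3
  have b5 := P2.p5
  simp only [rot] at h2 a1 a2 a3 a4 a5 a6 b3 b5
  linarith [P0.q1, P0.q2, P0.q3, P0.q4, P0.q5, P0.q6]

lemma six (C : T.C1) {ρ : T.Ray} (h : T.InV H.v1 H.v3 ρ) :
    (∃ K, H.Sim K ∧ K.v1 = ρ) ∧ ∃ K, H.Sim K ∧ K.v2 = ρ := by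
  have s0 := H.sim_refl
  have s1 := s0.rot
  have s2 := s1.rot
  have s3 := s2.rot
  have s4 := s3.rot
  have s5 := s4.rot
  rcases C.inv _ _ _ H.tri ρ h with rfl | rfl | rfl | h | h | h
  · exact ⟨⟨_, s0, rfl⟩, _, s5, rfl⟩
  · exact ⟨⟨_, s2, rfl⟩, _, s1, rfl⟩
  · exact ⟨⟨_, s1, rfl⟩, _, s0, rfl⟩
  · exact ⟨⟨_, s3, H.o1.uniq h⟩, _, s2, H.o1.uniq h⟩
  · exact ⟨⟨_, s4, H.o2.uniq h⟩, _, s3, H.o2.uniq h⟩
  · exact ⟨⟨_, s5, H.o3.uniq h⟩, _, s4, H.o3.uniq h⟩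

lemma tri_sum (C : T.C1) (K : Hex T) {s y w : T.Ray} (h : T.Tri K.v2 s y) (h' : T.Opp y w)
    (a : T.Ray → ℝ) : a K.v2 + a s + a w = a K.v2 + a K.v4 + a K.v5 := by
  have t1 : T.Tri K.v2 K.v5 K.v1 := K.tri.opp K.o3
  have t2 : T.Tri K.v2 K.v4 K.v3 := K.tri.symm.opp K.o1
  by_cases e : K.v5 = s
  · subst e
    obtain rfl := t1.uniq h
    rw [← K.o1.uniq h']
    ring
  · obtain rfl := K.o1.uniq (C.pent _ _ _ _ _ t1 h e).1
    obtain rfl := t2.uniq h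
    rw [← K.o3.uniq h']

variable (H)

/-- The weights of the fibre degree. -/
def d : T.Λ := Pi.single H.v1 1 + Pi.single H.v4 1 + (Pi.single H.v2 1 + Pi.single H.v6 1) +
  (Pi.single H.v3 1 + Pi.single H.v5 1)

lemma d_dot (a : T.Ray → ℝ) : rc H.d ⬝ᵥ a = H.D a := by
  have : ∀ x : T.Ray, rc (Pi.single x 1 : T.Λ) = Pi.single x 1 := fun x => funext fun ρ => by
    by_cases h : ρ = x <;> simp [rc, h]
  have ad : ∀ x y : T.Λ, rc (x + y) = rc x + rc y := fun x y => funext fun ρ => by simp [rc]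
  simp only [d, ad, this, add_dotProduct, single_dotProduct, D]
  ring

lemma pair {x z : T.Ray} (h : T.Opp x z) (ρ : T.Ray) :
    0 ≤ (Pi.single x 1 + Pi.single z 1 : T.Λ) ρ ∧ (Pi.single x 1 + Pi.single z 1 : T.Λ) ρ ≤ 1 := by
  have : x ≠ z := by
    rintro rfl
    refine T.ne x (funext fun i => ?_)
    have := congrFun h i
    simp only [Pi.add_apply, Pi.zero_apply] at this ⊢
    omega
  simp only [Pi.add_apply, Pi.single_apply]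
  split_ifs with h1 h2 <;> first | omega | exact absurd (h1.symm.trans h2) this

lemma d_ok : (∀ ρ, 0 ≤ H.d ρ) ∧ (∀ ρ, ¬T.InV H.v1 H.v3 ρ → H.d ρ = 0) ∧
    ∀ ρ, 5 * H.d ρ < 3 * ∑ σ, H.d σ := by
  have b : ∀ ρ, 0 ≤ H.d ρ ∧ H.d ρ ≤ 3 := fun ρ => by
    have h1 := pair H.o1 ρ
    have h2 := pair H.o2 ρ
    have h3 := pair H.o3 ρ
    rw [d, Pi.add_apply, Pi.add_apply]
    omega
  refine ⟨fun ρ => (b ρ).1, fun ρ h => ?_, fun ρ => ?_⟩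
  · have n : ∀ (x : T.Ray) (i j : ℤ), T.v x = i • T.v H.v1 + j • T.v H.v3 → ρ ≠ x :=
      fun x i j e e' => h ⟨i, j, e' ▸ e⟩
    have n1 := n H.v1 1 0 (by module)
    have n2 := n H.v2 1 1 (by rw [e2]; module)
    have n3 := n H.v3 0 1 (by module)
    have n4 := n H.v4 (-1) 0 (by rw [e4]; module)
    have n5 := n H.v5 0 (-1) (by rw [e5]; module)
    have n6 := n H.v6 (-1) (-1) (by rw [e6, e2]; module)
    simp [d, n1, n2, n3, n4, n5, n6]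
  · have : ∑ σ, H.d σ = 6 := by simp [d, Finset.sum_add_distrib]
    have := (b ρ).2
    omega

end Hex

lemma wd_E {E : Set T.Λ} (hE : T.EffS E) (l : List T.Gn) {a : T.Λ} (ha : a ∈ E) :
    T.wd ℤ l a ∈ E := by
  induction l with
  | nil => exact ha
  | cons g l ih => exact hE.act g _ ih

lemma wd_span {E : Set T.Λ} (hE : T.EffS E) (l : List T.Gn) {x : T.Ray → ℝ}
    (hx : x ∈ Submodule.span ℝ≥0 (rc '' E)) : T.wd ℝ l x ∈ Submodule.span ℝ≥0 (rc '' E) := by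
  induction hx using Submodule.span_induction with
  | mem x hx =>
    obtain ⟨a, ha, rfl⟩ := hx
    exact Submodule.subset_span ⟨_, wd_E hE l ha, (wd_rc l a).symm⟩
  | zero => rw [map_zero]; exact zero_mem _
  | add x y _ _ h h' => rw [map_add]; exact add_mem h h'
  | smul c x _ h => rw [NNReal.smul_def, map_smul]; exact Submodule.smul_mem _ c h

end DE6B

open DE6B DE6B.Hex in
theorem st_DE6 (h1 : St_C1) (hm : St_MIN) (h6 : St_PL6) (ho : St_OUT) (hz : St_ZE6) : St_DE6 := by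
  intro T E hE S v6 o2 x hx
  let H : Hex T := ⟨S, v6, o2⟩
  have C := h1 T
  have hZ : ∀ a ∈ E, ∀ l, Z (T.wd ℝ l (rc a)) := fun a ha l K => by
    obtain ⟨z1, z2⟩ := hz T E hE K.toPent K.v6 K.o2 _ (wd_E hE l ha)
    rw [wd_rc]
    simp only [D, rc]
    exact ⟨by exact_mod_cast z1, fun h => by exact_mod_cast z2 (by exact_mod_cast h)⟩
  obtain ⟨l0, h0⟩ := hm T E (List T.Gn) (fun l => dotProductBilin ℝ ℝ (rc H.d) ∘ₗ T.wd ℝ l)
    (fun a ha l => ⟨H.d ⬝ᵥ T.wd ℤ l a, by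
      simp [wd_rc, rc, dotProduct]⟩)
    (fun a ha => ⟨0, fun l => by simpa [d_dot] using (hZ a ha l H).1⟩) x hx
  simp only [LinearMap.comp_apply, dotProductBilin_apply_apply, d_dot] at h0
  obtain ⟨r, hr⟩ := C.out H.v1 H.v3
  have : Nonempty {l : List T.Gn // ∀ g ∈ l, H.G g} := ⟨⟨[], by simp⟩⟩
  obtain ⟨⟨l1, g1⟩, h1⟩ := hm T E {l : List T.Gn // ∀ g ∈ l, H.G g}
    (fun l => LinearMap.proj r ∘ₗ T.wd ℝ l.1)
    (fun a ha l => ⟨T.wd ℤ l.1 a r, by simp [wd_rc, rc]⟩)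
    (fun a ha => by
      rcases (show 0 ≤ H.D (rc a) from (hZ a ha [] H).1).eq_or_lt with h | h
      · exact ⟨rc a r, fun l => ((word h6 hr l.1 l.2 _).2.2 (hZ a ha) h.symm).ge⟩
      · refine ⟨(2 * H.D (rc a) * rc a r - H.Q (rc a) - H.D (rc a) ^ 2) / (2 * H.D (rc a)),
          fun l => ?_⟩
        obtain ⟨w1, w2, -⟩ := word h6 hr l.1 l.2 (rc a)
        have w3 := Q_ge (H := H) (T.wd ℝ l.1 (rc a))
        rw [w1] at w3
        rw [div_le_iff₀' (mul_pos two_pos h)]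
        change _ ≤ _ * T.wd ℝ l.1 (rc a) r
        linarith) _ (wd_span hE l0 hx)
  refine ⟨l1 ++ l0, ?_⟩
  rw [wd_append]
  obtain ⟨d1, d2, d3⟩ := H.d_ok
  obtain ⟨o1, o3⟩ := ho T S H.d d1 d2 d3 (T.wd ℝ l1 (T.wd ℝ l0 x)) fun l => by
    rw [d_dot, d_dot, (word h6 hr l1 g1 _).1, ← wd_append, ← wd_append]
    exact h0 _
  have hf := fun K hK => fin (a := T.wd ℝ l1 (T.wd ℝ l0 x)) h6 hr (fun l hl => by
    rw [← wd_append T ℝ l]
    exact h1 ⟨l ++ l1, fun g hg => (List.mem_append.1 hg).elim (hl g) (g1 g)⟩) (K := K) hK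
  refine ⟨fun z z' h => ?_, fun z s y w h h' => ?_⟩
  · by_cases hv : T.InV S.v1 S.v3 z
    · obtain ⟨K, hK, rfl⟩ := (six (H := H) C hv).1
      rw [← K.o1.uniq h]
      exact (hf K hK).1
    · exact o1 z z' h hv
  · by_cases hv : T.InV S.v1 S.v3 z
    · obtain ⟨K, hK, rfl⟩ := (six (H := H) C hv).2
      rw [tri_sum C K h h']
      exact (hf K hK).2
    · exact o3 z s y w h h' hv

end Pool.Agent.Lib.TF
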