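import Pool.Agent.Lib.TF.LBlue

/-! Descent in the presence of a pentagon. -/

open Set
open scoped NNReal

noncomputable section

namespace Pool.Agent.Lib.TF

open Fano

namespace DE7B

variable {T : Fano}

/-- the mirror image of a pentagon -/
def sw (S : T.Pent) : T.Pent := ⟨S.v3, S.v2, S.v1, S.v5, S.v4, S.tri.symm, S.o3, S.o1⟩

/-- three generators in the plane -/
def gen (S : T.Pent) : Option Bool → T.Gn
  | some true => .p S.v1 S.v4 S.o1
  | some false => .p S.v3 S.v5 S.o3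
  | none => .q S.v2 S.v5 S.v1 S.v4 (S.tri.opp S.o3) S.o1

def G1 (S : T.Pent) (a : T.Ray → ℝ) : ℝ := a S.v1 + a S.v4

def G3 (S : T.Pent) (a : T.Ray → ℝ) : ℝ := a S.v3 + a S.v5

def G2 (S : T.Pent) (a : T.Ray → ℝ) : ℝ := a S.v2 + a S.v4 + a S.v5

/-- the fibre degree -/
def DD (S : T.Pent) : (T.Ray → ℝ) →ₗ[ℝ] ℝ where
  toFun a := G1 S a + G3 S a + G2 S a
  map_add' a b := by simp only [G1, G3, G2, Pi.add_apply]; ring
  map_smul' c a := by simp only [G1, G3, G2, Pi.smul_apply, smul_eq_mul, RingHom.id_apply]; ring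

lemma DD_apply (S : T.Pent) (a : T.Ray → ℝ) : DD S a = G1 S a + G3 S a + G2 S a := rfl

/-- the quadratic form that controls the height -/
def QQ (S : T.Pent) (a : T.Ray → ℝ) : ℝ :=
  3 * G2 S a ^ 2 - 2 * DD S a * G2 S a + G1 S a ^ 2 + G3 S a ^ 2

/-- the action of the three generators -/
structure Stp (S : T.Pent) (r : T.Ray) (a : T.Ray → ℝ) : Prop where
  a1 : G1 S (T.act ℝ (gen S (some true)) a) = -G1 S a
  a3 : G3 S (T.act ℝ (gen S (some true)) a) = G2 S a + G1 S a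
  al : G2 S (T.act ℝ (gen S (some true)) a) = G3 S a + G1 S a
  ar : T.act ℝ (gen S (some true)) a r = a r + G1 S a
  b1 : G1 S (T.act ℝ (gen S (some false)) a) = G2 S a + G3 S a
  b3 : G3 S (T.act ℝ (gen S (some false)) a) = -G3 S a
  bl : G2 S (T.act ℝ (gen S (some false)) a) = G3 S a + G1 S a
  br : T.act ℝ (gen S (some false)) a r = a r + G3 S a
  c1 : G1 S (T.act ℝ (gen S none) a) = G1 S a + 2 * G2 S a + 2 * G3 S a
  c3 : G3 S (T.act ℝ (gen S none) a) = -G3 S a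
  cl : G2 S (T.act ℝ (gen S none) a) = -G2 S a
  cr : T.act ℝ (gen S none) a r = a r + 2 * (2 * G2 S a + G3 S a)

lemma stp {S : T.Pent} {r : T.Ray} {a : T.Ray → ℝ} (h : T.PL7 ℝ S a) (h' : T.PL7 ℝ (sw S) a)
    (hr : ¬T.InV S.v1 S.v3 r) : Stp S r a := by
  have hr' : ¬T.InV (sw S).v1 (sw S).v3 r := fun ⟨i, j, e⟩ => hr ⟨j, i, e.trans (add_comm _ _)⟩
  have p1 := h'.p1
  have p2 := h'.p2
  have p3 := h'.p3
  have p4 := h'.p4
  have p5 := h'.p5
  have po := h'.po r hr'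
  simp only [sw] at p1 p2 p3 p4 p5 po
  constructor <;> simp only [G1, G3, G2, gen, act, h.p1, h.p2, h.p3, h.p4, h.p5, h.po r hr, h.q1,
    h.q2, h.q3, h.q4, h.q5, h.qo r hr, p1, p2, p3, p4, p5, po] <;> ring

variable {S : T.Pent} {r : T.Ray}

lemma one (h : ∀ a, Stp S r a) (i : Option Bool) (a : T.Ray → ℝ) :
    DD S (T.act ℝ (gen S i) a) = DD S a ∧
    2 * DD S a * (T.act ℝ (gen S i) a r - a r) = QQ S (T.act ℝ (gen S i) a) - QQ S a ∧
    (G1 S a = 0 → G3 S a = 0 → G2 S a = 0 → G1 S (T.act ℝ (gen S i) a) = 0 ∧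
      G3 S (T.act ℝ (gen S i) a) = 0 ∧ G2 S (T.act ℝ (gen S i) a) = 0 ∧
      T.act ℝ (gen S i) a r = a r) := by
  have k := h a
  rcases i with _ | _ | _ <;>
    simp only [QQ, DD_apply, k.a1, k.a3, k.al, k.ar, k.b1, k.b3, k.bl, k.br, k.c1, k.c3, k.cl,
      k.cr] <;>
    exact ⟨by ring, by ring, fun e1 e2 e3 => by simp [e1, e2, e3]⟩

lemma word (h : ∀ a, Stp S r a) (l : List (Option Bool)) (a : T.Ray → ℝ) :
    DD S (T.wd ℝ (l.map (gen S)) a) = DD S a ∧
    2 * DD S a * (T.wd ℝ (l.map (gen S)) a r - a r) =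
      QQ S (T.wd ℝ (l.map (gen S)) a) - QQ S a ∧
    (G1 S a = 0 → G3 S a = 0 → G2 S a = 0 → G1 S (T.wd ℝ (l.map (gen S)) a) = 0 ∧
      G3 S (T.wd ℝ (l.map (gen S)) a) = 0 ∧ G2 S (T.wd ℝ (l.map (gen S)) a) = 0 ∧
      T.wd ℝ (l.map (gen S)) a r = a r) := by
  induction l with
  | nil => exact ⟨rfl, by simp, fun e1 e2 e3 => ⟨e1, e2, e3, rfl⟩⟩
  | cons i l ih =>
    obtain ⟨i1, i2, i3⟩ := ih
    obtain ⟨k1, k2, k3⟩ := one h i (T.wd ℝ (l.map (gen S)) a)
    rw [List.map_cons, wd_cons]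
    refine ⟨k1.trans i1, ?_, fun e1 e2 e3 => ?_⟩
    · rw [i1] at k2; linarith
    · obtain ⟨f1, f2, f3, f4⟩ := i3 e1 e2 e3
      obtain ⟨j1, j2, j3, j4⟩ := k3 f1 f2 f3
      exact ⟨j1, j2, j3, j4.trans f4⟩

lemma wd_mem {E : Set T.Λ} (hE : T.EffS E) (l : List T.Gn) {a : T.Λ} (ha : a ∈ E) :
    T.wd ℤ l a ∈ E := by
  induction l with
  | nil => exact ha
  | cons g l ih => exact hE.act g _ ih

lemma stay {E : Set T.Λ} (hE : T.EffS E) (l : List T.Gn) {x : T.Ray → ℝ}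
    (hx : x ∈ Submodule.span ℝ≥0 (rc '' E)) : T.wd ℝ l x ∈ Submodule.span ℝ≥0 (rc '' E) := by
  induction hx using Submodule.span_induction with
  | mem x hx =>
    obtain ⟨a, ha, rfl⟩ := hx
    rw [wd_rc]
    exact Submodule.subset_span ⟨_, wd_mem hE l ha, rfl⟩
  | zero => rw [map_zero]; exact zero_mem _
  | add x y _ _ h1 h2 => rw [map_add]; exact add_mem h1 h2
  | smul c x _ h => rw [LinearMap.map_smul_of_tower]; exact Submodule.smul_mem _ c h

lemma DD_rc (S : T.Pent) (a : T.Λ) :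
    DD S (rc a) = (a S.v1 + a S.v2 + a S.v3 + 2 * a S.v4 + 2 * a S.v5 : ℤ) := by
  simp only [DD_apply, G1, G3, G2, rc]; push_cast; ring

/-- the weights of the fibre degree -/
def dw (S : T.Pent) : T.Λ := Pi.single S.v1 1 + Pi.single S.v2 1 + Pi.single S.v3 1 +
  Pi.single S.v4 2 + Pi.single S.v5 2

lemma dw_dot (S : T.Pent) (y : T.Ray → ℝ) : rc (dw S) ⬝ᵥ y = DD S y := by
  have e : ∀ (ρ : T.Ray) (c : ℤ), rc (Pi.single ρ c : T.Λ) = Pi.single ρ (c : ℝ) := fun ρ c => by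
    funext σ; simp only [rc, Pi.single_apply]; split_ifs <;> simp
  have e' : ∀ a b : T.Λ, rc (a + b) = rc a + rc b := fun a b => by funext σ; simp [rc]
  simp only [dw, e', e, add_dotProduct, single_dotProduct, DD_apply, G1, G3, G2]
  push_cast; ring

lemma five (h : T.C1) (h2 : ∀ σ, ¬T.Opp S.v2 σ) {ρ : T.Ray} (hρ : T.InV S.v1 S.v3 ρ) :
    ρ = S.v1 ∨ ρ = S.v2 ∨ ρ = S.v3 ∨ ρ = S.v4 ∨ ρ = S.v5 := by
  rcases h.inv _ _ _ S.tri ρ hρ with e | e | e | e | e | e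
  · exact Or.inl e
  · exact Or.inr (Or.inr (Or.inl e))
  · exact Or.inr (Or.inl e)
  · exact Or.inr (Or.inr (Or.inr (Or.inl (e.uniq S.o1))))
  · exact absurd e (h2 _)
  · exact Or.inr (Or.inr (Or.inr (Or.inr (e.uniq S.o3))))

lemma inV (S : T.Pent) : T.InV S.v1 S.v3 S.v1 ∧ T.InV S.v1 S.v3 S.v2 ∧ T.InV S.v1 S.v3 S.v3 ∧
    T.InV S.v1 S.v3 S.v4 ∧ T.InV S.v1 S.v3 S.v5 :=
  ⟨⟨1, 0, by simp⟩, ⟨1, 1, by simpa using (Eq.symm S.tri)⟩, ⟨0, 1, by simp⟩,
    ⟨-1, 0, by simpa using eq_neg_of_add_eq_zero_right S.o1⟩,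
    ⟨0, -1, by simpa using eq_neg_of_add_eq_zero_right S.o3⟩⟩

end DE7B

open DE7B

theorem st_DE7 (hC1 : St_C1) (hMIN : St_MIN) (hPL : St_PL7) (hOUT : St_OUT) (hZE : St_ZE7) :
    St_DE7 := by
  intro T E hE S h2 x hx
  have c1 := hC1 T
  obtain ⟨r, hr⟩ := c1.out S.v1 S.v3
  have st : ∀ a, Stp S r a := fun a => stp (hPL T S h2 ℝ a) (hPL T (sw S) h2 ℝ a) hr
  obtain ⟨l0, h0⟩ := hMIN T E (List T.Gn) (fun l => DD S ∘ₗ T.wd ℝ l)
    (fun a _ l => ⟨_, by rw [LinearMap.comp_apply, wd_rc, DD_rc]⟩)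
    (fun a ha => ⟨0, fun l => by
      rw [LinearMap.comp_apply, wd_rc, DD_rc]
      exact_mod_cast (hZE T E hE S h2 _ (wd_mem hE l ha)).1⟩) x hx
  simp only [LinearMap.comp_apply] at h0
  obtain ⟨l1, h1⟩ := hMIN T E (List (Option Bool))
    (fun l => LinearMap.proj r ∘ₗ T.wd ℝ (l.map (gen S)))
    (fun a _ l => ⟨_, by rw [LinearMap.comp_apply, wd_rc]; rfl⟩)
    (fun a ha => by
      obtain ⟨z1, z2⟩ := hZE T E hE S h2 a ha
      rcases z1.eq_or_lt with z | z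
      · obtain ⟨z3, z4⟩ := z2 z.symm
        refine ⟨a r, fun l => ((word st l (rc a)).2.2 ?_ ?_ ?_).2.2.2.ge⟩
        · simp only [G1, rc]; exact_mod_cast z3
        · simp only [G3, rc]; exact_mod_cast z4
        · simp only [G2, rc]; exact_mod_cast (show a S.v2 + a S.v4 + a S.v5 = 0 by omega)
      · have d0 : 0 < DD S (rc a) := by rw [DD_rc]; exact_mod_cast z
        refine ⟨rc a r + (-(DD S (rc a) ^ 2) - QQ S (rc a)) / (2 * DD S (rc a)), fun l => ?_⟩
        obtain ⟨w1, w2, -⟩ := word st l (rc a)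
        change _ ≤ T.wd ℝ (l.map (gen S)) (rc a) r
        rw [← le_sub_iff_add_le', div_le_iff₀' (by positivity), w2, sub_le_sub_iff_right, QQ, w1]
        nlinarith [sq_nonneg (G2 S (T.wd ℝ (l.map (gen S)) (rc a)) - DD S (rc a)),
          sq_nonneg (G2 S (T.wd ℝ (l.map (gen S)) (rc a))),
          sq_nonneg (G1 S (T.wd ℝ (l.map (gen S)) (rc a))),
          sq_nonneg (G3 S (T.wd ℝ (l.map (gen S)) (rc a)))]) _ (stay hE l0 hx)
  simp only [LinearMap.comp_apply, LinearMap.proj_apply] at h1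
  refine ⟨l1.map (gen S) ++ l0, ?_⟩
  have hD : ∀ l, DD S (T.wd ℝ (l1.map (gen S) ++ l0) x) ≤
      DD S (T.wd ℝ l (T.wd ℝ (l1.map (gen S) ++ l0) x)) := fun l => by
    rw [← T.wd_append ℝ l, T.wd_append ℝ (l1.map (gen S)), (word st l1 _).1]
    exact h0 _
  have hW : ∀ l : List (Option Bool), T.wd ℝ (l1.map (gen S) ++ l0) x r ≤
      T.wd ℝ (l.map (gen S)) (T.wd ℝ (l1.map (gen S) ++ l0) x) r := fun l => by
    rw [wd_append, ← T.wd_append ℝ (l.map (gen S)), ← List.map_append]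
    exact h1 _
  generalize T.wd ℝ (l1.map (gen S) ++ l0) x = y at hD hW
  have g1 : 0 ≤ y S.v1 + y S.v4 := by
    have := hW [some true]
    simp only [List.map_cons, List.map_nil, wd_cons, wd_nil, (st y).ar, G1] at this
    linarith
  have g3 : 0 ≤ y S.v3 + y S.v5 := by
    have := hW [some false]
    simp only [List.map_cons, List.map_nil, wd_cons, wd_nil, (st y).br, G3] at this
    linarith
  have gl : 0 ≤ y S.v2 + y S.v4 + y S.v5 := by
    have := hW [some true, some false, none]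
    simp only [List.map_cons, List.map_nil, wd_cons, wd_nil, (st _).ar, (st _).br, (st _).b1,
      (st y).cr, (st y).c3, (st y).cl] at this
    change 0 ≤ G2 S y
    linarith
  obtain ⟨u, u1, u3⟩ := c1.dual _ _ _ S.tri 1 0
  obtain ⟨u', w1, w3⟩ := c1.dual _ _ _ S.tri 0 1
  have u2 := S.tri.dot u
  have w2 := S.tri.dot u'
  have u4 := S.o1.dot u
  have w4 := S.o1.dot u'
  have u5 := S.o3.dot u
  have w5 := S.o3.dot u'
  have n13 : S.v1 ≠ S.v3 := fun e => by rw [e] at u1; omega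
  have n45 : S.v4 ≠ S.v5 := fun e => by rw [e] at u4; omega
  obtain ⟨i1, i2, i3, i4, i5⟩ := inV S
  obtain ⟨o1, o2⟩ := hOUT T S (dw S)
    (fun ρ => by simp only [dw, Pi.add_apply, Pi.single_apply]; split_ifs <;> omega)
    (fun ρ hρ => by
      have k : ∀ σ, T.InV S.v1 S.v3 σ → ρ ≠ σ := fun σ h e => hρ (e ▸ h)
      simp only [dw, Pi.add_apply, Pi.single_eq_of_ne (k _ i1), Pi.single_eq_of_ne (k _ i2),
        Pi.single_eq_of_ne (k _ i3), Pi.single_eq_of_ne (k _ i4), Pi.single_eq_of_ne (k _ i5),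
        add_zero])
    (fun ρ => by
      have e : ∑ σ, dw S σ = 7 := by simp [dw, Finset.sum_add_distrib]
      have k1 : ¬(ρ = S.v1 ∧ ρ = S.v3) := fun h => n13 (h.1.symm.trans h.2)
      have k2 : ¬(ρ = S.v4 ∧ ρ = S.v5) := fun h => n45 (h.1.symm.trans h.2)
      rw [e]
      simp only [dw, Pi.add_apply, Pi.single_apply]
      split_ifs <;> first | omega | tauto)
    y (fun l => by rw [dw_dot, dw_dot]; exact hD l)
  refine ⟨fun z z' h => ?_, fun a z b w h h' => ?_⟩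
  · by_cases hz : T.InV S.v1 S.v3 z
    · rcases five c1 h2 hz with rfl | rfl | rfl | rfl | rfl
      · rw [h.uniq S.o1]; exact g1
      · exact absurd h (h2 _)
      · rw [h.uniq S.o3]; exact g3
      · rw [h.uniq S.o1.symm]; linarith
      · rw [h.uniq S.o3.symm]; linarith
    · exact o1 z z' h hz
  · by_cases ha : T.InV S.v1 S.v3 a
    · obtain ⟨hz, hb⟩ := c1.plane S a ha z b h
      have e1 := h.dot u
      have e2 := h.dot u'
      rcases five c1 h2 hb with rfl | rfl | rfl | rfl | rfl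
      · rw [h'.uniq S.o1]
        rcases five c1 h2 ha with rfl | rfl | rfl | rfl | rfl <;>
          rcases five c1 h2 hz with rfl | rfl | rfl | rfl | rfl <;> first | omega | linarith
      · exact absurd h' (h2 _)
      · rw [h'.uniq S.o3]
        rcases five c1 h2 ha with rfl | rfl | rfl | rfl | rfl <;>
          rcases five c1 h2 hz with rfl | rfl | rfl | rfl | rfl <;> first | omega | linarith
      · rcases five c1 h2 ha with rfl | rfl | rfl | rfl | rfl <;>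
          rcases five c1 h2 hz with rfl | rfl | rfl | rfl | rfl <;> omega
      · rcases five c1 h2 ha with rfl | rfl | rfl | rfl | rfl <;>
          rcases five c1 h2 hz with rfl | rfl | rfl | rfl | rfl <;> omega
    · exact o2 a z b w h h' ha

end Pool.Agent.Lib.TF
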