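import Pool.Agent.Lib.TF.LBlue

open Set
open scoped NNReal Classical

noncomputable section

namespace Pool.Agent.Lib.TF

open Fano

namespace DESCB

variable {T : Fano}

/-- The height as a linear map. -/
def htL (z z' : T.Ray) (h : T.Λ) (j : ℤ) : (T.Ray → ℝ) →ₗ[ℝ] ℝ where
  toFun a := T.Ht z z' h j a
  map_add' a b := by
    simp only [Ht, map_add, dotProduct_add, Pi.add_apply]
    ring
  map_smul' c a := by
    simp only [Ht, map_smul, dotProduct_add, dotProduct_smul, Pi.add_apply, Pi.smul_apply,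
      smul_eq_mul, RingHom.id_apply]
    ring

lemma ht_rc (z z' : T.Ray) (hz : T.Opp z z') (h : T.Λ) (j : ℤ) (b : T.Λ) :
    T.Ht z z' h j (rc b) =
      ((h ⬝ᵥ (b + T.Tp ℤ z z' b) - j * (b + T.Tp ℤ z z' b) z : ℤ) : ℝ) := by
  have e : T.Tp ℝ z z' (rc b) = rc (T.Tp ℤ z z' b) := act_rc (Gn.p z z' hz) b
  rw [Ht, e]
  simp only [dotProduct, rc, Pi.add_apply]
  push_cast
  rfl

lemma wd_mem {E : Set T.Λ} (hE : T.EffS E) (l : List T.Gn) (a : T.Λ) (ha : a ∈ E) :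
    T.wd ℤ l a ∈ E := by
  induction l with
  | nil => exact ha
  | cons g l ih => exact hE.act g _ ih

end DESCB

open DESCB

theorem st_DESC (hC1 : St_C1) (hMIN : St_MIN) (h7 : St_DE7) (h6 : St_DE6) (hBAL : St_BAL)
    (hP : St_HTP) (hQ : St_HTQ) : St_DESC := by
  intro T E hE
  by_cases hR : T.RegN
  swap
  · simp only [RegN, not_forall] at hR
    obtain ⟨x, z, y, z', y', h1, h2, hne⟩ := hR
    obtain ⟨o1, o2⟩ := (hC1 T).pent x z y z' y' h1 h2 hne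
    let S : T.Pent := ⟨y, x, y', z', z, h1.opp o2, o1, o2.symm⟩
    by_cases hx : ∃ σ, T.Opp x σ
    · obtain ⟨σ, hσ⟩ := hx
      exact h6 T E hE S σ hσ
    · exact h7 T E hE S fun σ hσ => hx ⟨σ, hσ⟩
  by_cases hL : ∃ z z', T.Opp z z'
  swap
  · intro x _
    exact ⟨[], fun z z' h => (hL ⟨z, z', h⟩).elim, fun _ _ y w _ h => (hL ⟨y, w, h⟩).elim⟩
  obtain ⟨z, z', hz⟩ := hL
  obtain ⟨h, j, hB⟩ := hBAL T hR z z' hz
  obtain ⟨p1, p2, p3⟩ := hP T hR z z' h j hz hB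
  have hpos : ∀ ρ, 0 ≤ h ρ := fun ρ => by
    by_cases e1 : ρ = z
    · rw [e1, hB.z0]
    by_cases e2 : ρ = z'
    · rw [e2, hB.z1]
    exact le_trans zero_le_one (hB.pos ρ e1 e2)
  intro x hx
  have key : ∀ a ∈ E, ∀ l : List T.Gn, (htL z z' h j ∘ₗ T.wd ℝ l) (rc a) =
      ((h ⬝ᵥ (T.wd ℤ l a + T.Tp ℤ z z' (T.wd ℤ l a)) -
        j * (T.wd ℤ l a + T.Tp ℤ z z' (T.wd ℤ l a)) z : ℤ) : ℝ) := fun a _ l => by
    rw [LinearMap.comp_apply, wd_rc]
    exact ht_rc z z' hz h j _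
  obtain ⟨l0, hl0⟩ := hMIN T E (List T.Gn) (fun l => htL z z' h j ∘ₗ T.wd ℝ l)
    (fun a ha l => ⟨_, key a ha l⟩)
    (fun a ha => ⟨0, fun l => by
      rw [key a ha l]
      exact_mod_cast hE.norm _ (wd_mem hE l a ha) z z' hz h j hpos hB.z0 hB.z1 hB.sum⟩) x hx
  have hmin : ∀ l, T.Ht z z' h j (T.wd ℝ l0 x) ≤ T.Ht z z' h j (T.wd ℝ l x) := hl0
  have fin : ∀ l1 : List T.Gn, (∀ l, T.Ht z z' h j (T.wd ℝ l1 x) ≤ T.Ht z z' h j (T.wd ℝ l x)) →
      0 ≤ T.wd ℝ l1 x z + T.wd ℝ l1 x z' → T.Ch (T.wd ℝ l1 x) := by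
    intro l1 hm h0
    refine ⟨fun w w' hw => ?_, fun a s y w ht ho => ?_⟩
    · by_cases e1 : w = z
      · subst e1
        rw [hw.uniq hz]
        exact h0
      by_cases e2 : w = z'
      · subst e2
        rw [hw.uniq hz.symm, add_comm]
        exact h0
      obtain ⟨δ, hδ, e⟩ := p3 w w' hw e1 e2
      have := hm (Gn.p w w' hw :: l1)
      rw [wd_cons] at this
      change _ ≤ T.Ht z z' h j (T.Tp ℝ w w' _) at this
      rw [e] at this
      exact nonneg_of_mul_nonneg_right (by linarith) hδ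
    · obtain ⟨δ, hδ, e⟩ := hQ T hR z z' h j hz hB a s y w ht ho
      have := hm (Gn.q a s y w ht ho :: l1)
      rw [wd_cons] at this
      change _ ≤ T.Ht z z' h j (T.Tq ℝ a s y w _) at this
      rw [e] at this
      exact nonneg_of_mul_nonneg_right (by linarith) hδ
  by_cases h0 : 0 ≤ T.wd ℝ l0 x z + T.wd ℝ l0 x z'
  · exact ⟨l0, fin l0 hmin h0⟩
  · refine ⟨Gn.p z z' hz :: l0, fin _ (fun l => ?_) ?_⟩
    · rw [wd_cons]
      change T.Ht z z' h j (T.Tp ℝ z z' _) ≤ _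
      rw [p2]
      exact hmin l
    · rw [wd_cons]
      change 0 ≤ T.Tp ℝ z z' _ z + T.Tp ℝ z z' _ z'
      rw [p1]
      linarith [not_le.mp h0]

end Pool.Agent.Lib.TF
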