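import Pool.Agent.Lib.TF.Blue

open Set Pool.Agent.Lib.MP_e39d36_ag Pool.Agent.Lib.MP_e39d36_ag.Var Pool.Agent.Lib.DU
  Pool.Agent.Lib.MV
open scoped Classical NNReal

noncomputable section

namespace Pool.Agent.Lib.TF

open Fano

namespace EFFB

variable {T : Fano} {K : Type} [Field K] [Algebra ℂ K] (M : T.Mod K)

theorem std_single (ρ : T.Ray) : M.std (Pi.single ρ 1) = Finsupp.single (M.D ρ) 1 := by
  change ∑ σ, Finsupp.single (M.D σ) ((Pi.single ρ 1 : T.Λ) σ) = _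
  rw [Finset.sum_eq_single ρ]
  · simp
  · intro σ _ h
    simp [Pi.single_eq_of_ne h]
  · simp

/-- The classes of the cone over the effective toric classes. -/
def C : Submodule ℝ≥0 M.Γ.N1 :=
  (Submodule.span ℝ≥0 (rc '' M.Eff)).map (M.cl.restrictScalars ℝ≥0)

theorem std_mem (B : M.Bas) {a : T.Λ} (ha : a ∈ M.Eff) : M.nc (M.std a) ∈ C M :=
  ⟨rc a, Submodule.subset_span ⟨a, ha, rfl⟩, B.cls a⟩

theorem prime_mem (B : M.Bas)
    (hL : ∀ E, M.NT E → ∃ (N : ℕ) (a : T.Λ) (s : K), 0 < N ∧ s ≠ 0 ∧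
      0 ≤ M.std a + M.X.div s ∧ M.nc (M.std a) = N • M.nc (Finsupp.single E 1))
    (E : M.X.PD) : M.nc (Finsupp.single E 1) ∈ C M := by
  rcases M.tor E with hE | ⟨ρ, rfl⟩
  · obtain ⟨N, a, s, hN, hs, h0, h⟩ := hL E hE
    have h1 := (C M).smul_mem (N : ℝ≥0)⁻¹ (std_mem M B ⟨s, hs, (B.mem' a s hs).2 h0⟩)
    rw [h, ← Nat.cast_smul_eq_nsmul ℝ≥0, smul_smul, inv_mul_cancel₀ (by exact_mod_cast hN.ne'),
      one_smul] at h1
    exact h1
  · rw [← std_single]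
    refine std_mem M B ⟨1, one_ne_zero, (B.mem' _ 1 one_ne_zero).2 ?_⟩
    rw [End.div_one, add_zero, std_single]
    exact Finsupp.single_nonneg.2 zero_le_one

theorem eff_mem (h : ∀ E, M.nc (Finsupp.single E 1) ∈ C M) (D : Dv M.X) (hD : 0 ≤ D) :
    M.nc D ∈ C M := by
  rw [← Finsupp.sum_single D, Finsupp.sum, map_sum]
  refine sum_mem fun E _ => ?_
  obtain ⟨m, hm⟩ := Int.eq_ofNat_of_zero_le (hD E)
  have : Finsupp.single E (D E) = m • Finsupp.single E (1 : ℤ) := by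
    rw [Finsupp.smul_single, hm]
    simp
  rw [this, map_nsmul]
  exact nsmul_mem (h E) m

end EFFB

open EFFB in
theorem st_EFF (hB : St_BAS) (hL : St_LIN) (hN : St_NORM) (hA : St_ACT) : St_EFF := by
  intro T K _ _ M
  have B := hB T K M
  refine ⟨⟨fun g a ha => ?_, hN T K M⟩, fun y hy => ?_⟩
  · obtain ⟨s, hs, ha⟩ := ha
    obtain ⟨φ, e, hp, hle⟩ := hA T K M g
    obtain ⟨f, hf, hle⟩ := hle a
    have hφ : φ s ≠ 0 := (map_ne_zero φ).2 hs
    refine ⟨f * φ s, mul_ne_zero hf hφ, (B.mem' _ _ (mul_ne_zero hf hφ)).2 ?_⟩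
    rw [End.div_mul hf hφ, ← add_assoc, ← hle, ← hp.push_div, ← map_add]
    exact fun E => (B.mem' a s hs).1 ha (e.symm E)
  · obtain ⟨k, -, hL⟩ := hL T K M
    have h1 := prime_mem M B fun E hE => by
      obtain ⟨N, a, s, h1, h2, h3, h4, -⟩ := hL E hE
      exact ⟨N, a, s, h1, h2, h3, h4⟩
    have h2 : M.Γ.cone {D | 0 ≤ D.1} ≤ C M := by
      refine Submodule.span_le.2 ?_
      rintro _ ⟨D, hD, rfl⟩
      exact eff_mem M h1 D.1 hD
    obtain ⟨x, hx, rfl⟩ := h2 hy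
    exact ⟨x, hx, rfl⟩

end Pool.Agent.Lib.TF
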