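import Pool.Agent.Lib.TF.Blue

open Set Pool.Agent.Lib.MP_e39d36_ag Pool.Agent.Lib.MP_e39d36_ag.Var Pool.Agent.Lib.DU
  Pool.Agent.Lib.MV
open scoped Classical

set_option linter.unusedSectionVars false
set_option linter.unusedVariables false

noncomputable section

namespace Pool.Agent.Lib.TF

open Fano

namespace EQSB

section alg

variable {F : Type} [Field F] (c : Cub F) {ξ ζ a10 a01 a20 a11 a02 a30 a21 a12 a03 : F}

lemma alg (hξ : ξ ≠ 0) (hζ : ζ ≠ 0) (h10 : c.c10 = a10 * ζ) (h01 : c.c01 = a01 * ξ)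
    (h20 : c.c20 = a20 * (ξ⁻¹ * ζ)) (h11 : c.c11 = a11) (h02 : c.c02 = a02 * (ξ * ζ⁻¹))
    (h30 : c.c30 = a30 * (ξ⁻¹ ^ 2 * ζ)) (h21 : c.c21 = a21 * ξ⁻¹) (h12 : c.c12 = a12 * ζ⁻¹)
    (h03 : c.c03 = a03 * (ξ * ζ⁻¹ ^ 2))
    (hs : a10 + a01 + a20 + a11 + a02 + a30 + a21 + a12 + a03 = 0)
    (hp : c.p = -a10 ^ 2 + (a20 + a30) * (a01 - a10) - a10 * (a11 + a21 + a12))
    (hn : a10 + a01 ≠ 0) :
    c.ev ξ ζ = 0 ∧ ξ * c.X0 + ζ * c.Z0 = c.q0 ∧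
      c.a2 * (ξ / ζ) ^ 2 + c.a1 * (ξ / ζ) + c.a0 = 0 := by
  have e1 : c.ev ξ ζ = ξ * ζ * (a10 + a01 + a20 + a11 + a02 + a30 + a21 + a12 + a03) := by
    simp only [Cub.ev, h10, h01, h20, h11, h02, h30, h21, h12, h03]
    field_simp
  have e2 : c.ev ξ ζ = 0 := by rw [e1, hs, mul_zero]
  have e3 : ξ * c.X0 + ζ * c.Z0 - c.q0 =
      -(ξ * ζ * a10 ^ 2) * (a10 + a01 + a20 + a11 + a02 + a30 + a21 + a12 + a03) := by
    simp only [Cub.X0, Cub.Z0, Cub.q0, hp, h10, h01, h20, h11, h02, h30, h21, h12, h03]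
    field_simp
    ring
  have e4 : ξ * c.X0 + ζ * c.Z0 = c.q0 := by rw [← sub_eq_zero, e3, hs, mul_zero]
  refine ⟨e2, e4, ?_⟩
  have e5 : c.c10 * (ξ / ζ) + c.c01 ≠ 0 := by
    have : c.c10 * (ξ / ζ) + c.c01 = ξ * (a10 + a01) := by
      rw [h10, h01]; field_simp
    rw [this]
    exact mul_ne_zero hξ hn
  refine (mul_eq_zero.1 ?_).resolve_left e5
  have e6 : ξ / ζ * c.X0 + c.Z0 = c.q0 / ζ := by rw [← e4]; field_simp
  have e7 : (c.q0 / ζ) ^ 2 * (c.c10 * (ξ / ζ) + c.c01) +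
      c.q0 * (c.q0 / ζ) * (c.c20 * (ξ / ζ) ^ 2 + c.c11 * (ξ / ζ) + c.c02) +
      c.q0 ^ 2 * (c.c30 * (ξ / ζ) ^ 3 + c.c21 * (ξ / ζ) ^ 2 + c.c12 * (ξ / ζ) + c.c03) =
      c.q0 ^ 2 / ζ ^ 3 * c.ev ξ ζ := by
    simp only [Cub.ev]
    field_simp
    ring
  rw [Cub.key, e6, e7, e2, mul_zero]

end alg

variable {T : Fano} {f : T.R}

lemma bds (hf : T.Gen f) (q : T.Pq) {u : T.M} (hu : f.coeff u ≠ 0) :
    -1 ≤ u ⬝ᵥ T.v q.x ∧ -1 ≤ u ⬝ᵥ T.v q.z ∧ -1 ≤ u ⬝ᵥ T.v q.x + u ⬝ᵥ T.v q.z ∧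
      u ⬝ᵥ T.v q.x + u ⬝ᵥ T.v q.z ≤ 1 := by
  have h := hf.sup u hu
  have h1 := h q.y
  have h2 := h q.w
  rw [q.opp.dot] at h2
  rw [q.tri.dot] at h1 h2
  exact ⟨h _, h _, h1, by omega⟩

lemma cases9 (hf : T.Gen f) (q : T.Pq) (u : T.M) : f.coeff u = 0 ∨
    (u ⬝ᵥ T.v q.x = 0 ∧ u ⬝ᵥ T.v q.z = -1) ∨ (u ⬝ᵥ T.v q.x = -1 ∧ u ⬝ᵥ T.v q.z = 0) ∨
    (u ⬝ᵥ T.v q.x = 1 ∧ u ⬝ᵥ T.v q.z = -1) ∨ (u ⬝ᵥ T.v q.x = 0 ∧ u ⬝ᵥ T.v q.z = 0) ∨
    (u ⬝ᵥ T.v q.x = -1 ∧ u ⬝ᵥ T.v q.z = 1) ∨ (u ⬝ᵥ T.v q.x = 2 ∧ u ⬝ᵥ T.v q.z = -1) ∨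
    (u ⬝ᵥ T.v q.x = 1 ∧ u ⬝ᵥ T.v q.z = 0) ∨ (u ⬝ᵥ T.v q.x = 0 ∧ u ⬝ᵥ T.v q.z = 1) ∨
    (u ⬝ᵥ T.v q.x = -1 ∧ u ⬝ᵥ T.v q.z = 2) := by
  by_cases hu : f.coeff u = 0
  · exact Or.inl hu
  · have := bds hf q hu
    right
    omega

lemma nine (hf : T.Gen f) (q : T.Pq) : f = T.cl f q.x q.z 1 0 + T.cl f q.x q.z 0 1 +
    T.cl f q.x q.z 2 0 + T.cl f q.x q.z 1 1 + T.cl f q.x q.z 0 2 + T.cl f q.x q.z 3 0 +
    T.cl f q.x q.z 2 1 + T.cl f q.x q.z 1 2 + T.cl f q.x q.z 0 3 := La.ext fun u => by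
  rcases cases9 hf q u with h | h | h | h | h | h | h | h | h | h <;>
    simp [Fano.cl, coeff_part, h]

lemma pA_eq (hf : T.Gen f) (q : T.Pq) :
    T.pA f q.x q.z = T.cl f q.x q.z 2 0 + T.cl f q.x q.z 3 0 := La.ext fun u => by
  rcases cases9 hf q u with h | h | h | h | h | h | h | h | h | h <;>
    simp [Fano.cl, Fano.pA, coeff_part, h]

lemma pC_eq (hf : T.Gen f) (q : T.Pq) :
    T.pC f q.x q.z = T.cl f q.x q.z 1 1 + T.cl f q.x q.z 2 1 + T.cl f q.x q.z 1 2 :=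
  La.ext fun u => by
    rcases cases9 hf q u with h | h | h | h | h | h | h | h | h | h <;>
      simp [Fano.cl, Fano.pC, coeff_part, h]

lemma sup_co (f : T.R) (q : T.Pq) (i j : ℤ) :
    Sup q.Pp (T.cl f q.x q.z i j * mn ((1 - i) • q.xs + (1 - j) • q.zs)) :=
  Sup.mul (S' := fun u => u = (1 - i) • q.xs + (1 - j) • q.zs) sup_part (sup_mn.2 rfl)
    fun u u' h1 h2 => by
      subst h2
      constructor <;>
        simp only [add_dotProduct, smul_dotProduct, q.xx, q.xz, q.zx, q.zz, h1.1, h1.2,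
          smul_eq_mul] <;> ring

lemma sup_mul (q : T.Pq) {G H : T.R} (h : Sup q.Pp G) (h' : Sup q.Pp H) : Sup q.Pp (G * H) :=
  Sup.mul h h' fun u u' h1 h2 =>
    ⟨by rw [add_dotProduct, h1.1, h2.1, add_zero], by rw [add_dotProduct, h1.2, h2.2, add_zero]⟩

lemma cl_swap (f : T.R) (x z : T.Ray) (i j : ℤ) : T.cl f z x i j = T.cl f x z j i :=
  part_congr fun _ _ => and_comm

lemma not_unit (h0 : T.C0) (h1 : T.C1) (hf : T.Gen f) (q : T.Pq) :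
    ¬IsUnit (T.cl f q.x q.z 1 0) := fun hu => by
  have e1 : q.x ≠ q.y := fun e => T.ne q.z (by
    have := q.tri
    rw [Tri, ← e] at this
    exact add_eq_left.1 this)
  obtain ⟨m, hm, hs⟩ := h1.swap _ _ _ q.tri.symm {q.y} (h0.ray _) (by simp) (by simpa using e1)
  have hz : m ⬝ᵥ T.v q.z = -1 := mem_F.1 (hs (by simp))
  have hy : m ⬝ᵥ T.v q.y = -1 := mem_F.1 (hs (by simp))
  obtain ⟨s, h2, h3⟩ := Finset.exists_mem_notMem_of_card_lt_card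
    (s := insert q.z {q.y}) (t := T.F m) (by
      have := T.dim
      have := Finset.card_le_two (a := q.z) (b := q.y)
      rw [h0.card m hm]
      omega)
  simp only [Finset.mem_insert, Finset.mem_singleton, not_or] at h3
  obtain ⟨u, h4⟩ := h0.dual m hm fun ρ => if ρ = s then 0 else -1
  have h5 : u ⬝ᵥ T.v s = 0 := by rw [h4 s h2, if_pos rfl]
  have h6 : ∀ σ ∈ T.F m, σ ≠ s → u ⬝ᵥ T.v σ = -1 := fun σ hσ e => by rw [h4 σ hσ, if_neg e]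
  have h7 := h0.edge m hm s h2 u h5 h6
  have h8 := h6 _ (mem_F.2 hz) (Ne.symm h3.1)
  have h9 := h6 _ (mem_F.2 hy) (Ne.symm h3.2)
  rw [q.tri.dot] at h9 hy
  obtain ⟨a, ha⟩ := Hom.of_dvd (w := T.v s) (k := 0) (H := 1) one_ne_zero (sup_one (by simp))
    hu.dvd
  have k1 := ha u (by
    rw [Fano.cl, coeff_part, if_pos ⟨by omega, by omega⟩]; exact hf.ne h7)
  have k2 := ha m (by
    rw [Fano.cl, coeff_part, if_pos ⟨by omega, by omega⟩]; exact hf.ne hm.1)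
  have k3 := mem_F.1 h2
  beta_reduce at k1 k2
  omega

lemma q0_ne (hU : St_UFD) (hC : St_COPR) (h0 : T.C0) (h1 : T.C1) (hf : T.Gen f) (q : T.Pq)
    {m10 m01 m20 : T.M} {A B : T.R} :
    T.cl f q.x q.z 2 0 * mn m20 * (T.cl f q.x q.z 0 1 * mn m01) ^ 2 -
      A * (T.cl f q.x q.z 0 1 * mn m01) * (T.cl f q.x q.z 1 0 * mn m10) +
      B * (T.cl f q.x q.z 1 0 * mn m10) ^ 2 ≠ 0 := fun h => by
  have := hU ℂ T.n
  have c10 := h1.cls _ _ _ _ q.tri q.opp 1 0 (by omega) (by omega) (by omega) (by omega)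
    (fun _ => by omega) fun _ => by omega
  have c01 := h1.cls _ _ _ _ q.tri q.opp 0 1 (by omega) (by omega) (by omega) (by omega)
    (fun _ => by omega) fun _ => by omega
  have c20 := h1.cls _ _ _ _ q.tri q.opp 2 0 (by omega) (by omega) (by omega) (by omega)
    (fun _ => by omega) fun _ => by omega
  have r1 : IsRelPrime (T.cl f q.x q.z 1 0) (T.cl f q.x q.z 0 1) :=
    hC T f hf _ _ c10 c01 fun u h2 h3 => by omega
  have r2 : IsRelPrime (T.cl f q.x q.z 1 0) (T.cl f q.x q.z 2 0) :=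
    hC T f hf _ _ c10 c20 fun u h2 h3 => by omega
  refine not_unit h0 h1 hf q ((r2.mul_right (r1.mul_right r1)).isUnit_of_dvd ?_)
  refine ((isUnit_mn m20).mul ((isUnit_mn m01).pow 2)).dvd_mul_right.1
    ⟨mn m10 * (A * (T.cl f q.x q.z 0 1 * mn m01) - B * (T.cl f q.x q.z 1 0 * mn m10)), ?_⟩
  linear_combination h

variable {K : Type} [Field K] [Algebra ℂ K] (M : T.Mod K) (q : T.Pq)

lemma co_eq (i j : ℤ) : M.co q i j =
    M.ψ (T.cl M.f q.x q.z i j) * (M.χ q.xs ^ (1 - i) * M.χ q.zs ^ (1 - j)) := by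
  rw [Mod.co, map_mul, ← M.χ_zsmul, ← M.χ_zsmul, ← M.χ_add]
  rfl

lemma c30 (x z : T.Ray) (h : ∃ σ, T.Opp x σ) (j : ℤ) : T.cl M.f x z 3 j = 0 := by
  obtain ⟨σ, h⟩ := h
  refine part_eq_zero fun u hu h1 => ?_
  have := M.gen.sup u hu σ
  rw [h.dot] at this
  omega

lemma hom {ρ : T.Ray} (h : T.InV q.x q.z ρ) {G : T.R} (hG : Sup q.Pp G) : Hom (T.v ρ) 0 G := by
  obtain ⟨i, j, h⟩ := h
  exact hG.mono fun u hu => by
    rw [h, dotProduct_add, dotProduct_smul, dotProduct_smul, hu.1, hu.2]; simp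

lemma un (hB : M.Bas) (ρ : T.Ray) (h : T.InV q.x q.z ρ) (G : T.R) (h0 : G ≠ 0)
    (hG : Sup q.Pp G) : M.ψ G ≠ 0 ∧ M.X.ord (M.ψ G) (M.D ρ).1 = 0 := by
  have h1 := hom q h hG
  obtain ⟨u, hu⟩ := ne_zero_iff.1 h0
  by_cases h2 : ∃ j : ℤ, T.v q.x = j • T.v ρ
  · refine hB.val ρ (T.v q.z) 0 0 G ?_ (hG.mono fun u hu => hu.2) h1.lo ⟨u, hu, h1 u hu⟩
    rintro ⟨j', h3⟩
    obtain ⟨j, h2⟩ := h2
    have e1 := q.xx
    have e2 := q.xz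
    have e3 := q.zz
    rw [h2, dotProduct_smul, smul_eq_mul] at e1
    rw [h3, dotProduct_smul, smul_eq_mul] at e2 e3
    rcases mul_eq_zero.1 e2 with h4 | h4
    · rw [h4, zero_mul] at e3; omega
    · rw [h4, mul_zero] at e1; omega
  · exact hB.val ρ (T.v q.x) 0 0 G h2 (hG.mono fun u hu => hu.1) h1.lo ⟨u, hu, h1 u hu⟩

lemma mt (h1 : T.C1) (ρ : T.Ray) : M.MT q (M.D ρ) ↔ T.InV q.x q.z ρ := by
  refine ⟨fun h => h1.sat _ _ _ q.tri _ fun u e1 e2 => ?_, fun h u hu => ?_⟩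
  · rw [← (M.isD ρ).1]; exact h u ⟨e1, e2⟩
  · rw [(M.isD ρ).1]
    exact sup_mn.1 (hom q h (sup_mn.2 hu))

end EQSB

open EQSB in
theorem st_EQS (h0 : St_C0) (h1 : St_C1) (hU : St_UFD) (hC : St_COPR) (hB : St_BAS)
    (hG : St_GEN) : St_EQS := fun T K _ _ M q => by
  have hB := hB T K M
  have h1 := h1 T
  obtain ⟨-, g1, -, -, -, -, g2, -⟩ := hG T K M _ _ _ q.tri
  have hn : M.ψ (T.cl M.f q.x q.z 1 0) + M.ψ (T.cl M.f q.x q.z 0 1) ≠ 0 := by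
    rw [← map_add]
    refine hB.ne (T.v q.y) (-1) _ (T.ne _) (Sup.add (sup_part.mono fun u hu => ?_)
      (sup_part.mono fun u hu => ?_)) ?_
    · rw [q.tri.dot]; omega
    · rw [q.tri.dot]; omega
    · obtain ⟨u, e1, e2, e3⟩ := h1.cls _ _ _ _ q.tri q.opp 1 0 (by omega) (by omega) (by omega)
        (by omega) (fun _ => by omega) fun _ => by omega
      refine ne_zero_iff.2 ⟨u, ?_⟩
      simpa [Fano.cl, coeff_part, e2, e3] using M.gen.ne e1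
  have hs := M.ψ_f
  rw [nine M.gen q] at hs
  simp only [map_add] at hs
  obtain ⟨a1, a2, a3⟩ := alg (M.cub q) (M.χ_ne q.xs) (M.χ_ne q.zs)
    ((co_eq M q 1 0).trans (by simp)) ((co_eq M q 0 1).trans (by simp))
    ((co_eq M q 2 0).trans (by norm_num)) ((co_eq M q 1 1).trans (by simp))
    ((co_eq M q 0 2).trans (by norm_num)) ((co_eq M q 3 0).trans (by norm_num [zpow_ofNat]))
    ((co_eq M q 2 1).trans (by norm_num)) ((co_eq M q 1 2).trans (by norm_num))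
    ((co_eq M q 0 3).trans (by norm_num [zpow_ofNat])) hs
    (by
      show M.ψ (T.gp M.f q.x q.z) = _
      simp only [Fano.gp, pA_eq M.gen q, pC_eq M.gen q, map_add, map_sub, map_mul, map_neg,
        map_pow]) hn
  have hco : ∀ i j, M.co q.swap i j = M.co q j i := fun i j => by
    rw [Mod.co, Mod.co, ← cl_swap M.f q.x q.z, add_comm ((1 - j) • q.xs)]
    rfl
  let C : ℤ → ℤ → T.R := fun i j =>
    T.cl M.f q.x q.z i j * mn ((1 - i) • q.xs + (1 - j) • q.zs)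
  have hc : ∀ i j, Sup q.Pp (C i j) := sup_co M.f q
  refine ⟨a1, a2, a3, ⟨C 2 0 * C 0 1 ^ 2 - C 1 1 * C 0 1 * C 1 0 + C 0 2 * C 1 0 ^ 2,
    q0_ne hU hC (h0 T) h1 M.gen q, ?_, ?_⟩, hc, fun h => ?_,
    fun h => ?_, ?_, un M q hB, mt M q h1, fun E hE => ?_⟩
  · rw [sq, sq]
    exact Sup.add (Sup.sub (sup_mul q (hc 2 0) (sup_mul q (hc 0 1) (hc 0 1)))
      (sup_mul q (sup_mul q (hc 1 1) (hc 0 1)) (hc 1 0)))
      (sup_mul q (hc 0 2) (sup_mul q (hc 1 0) (hc 1 0)))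
  · rw [map_add, map_sub, map_mul M.ψ (C 2 0), map_mul M.ψ _ (C 1 0), map_mul M.ψ (C 1 1),
      map_mul M.ψ (C 0 2), map_pow, map_pow]
    rfl
  · show M.ψ _ = 0
    rw [c30 M _ _ h, zero_mul, map_zero]
  · show M.ψ _ = 0
    rw [← cl_swap, c30 M _ _ h, zero_mul, map_zero]
  · simp only [Mod.cub, Cub.swap, hco]
    exact congrArg _ g2
  · rcases M.tor E with h | ⟨ρ, rfl⟩
    · have : ∀ G, M.ψ G ∈ M.X.O E.1 := fun G => ge_zero_iff.1 (hB.geN E h G)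
      exact ⟨⟨this _, this _, this _, this _, this _, this _, this _, this _, this _⟩,
        fun _ => this _⟩
    · have hρ := (mt M q h1 ρ).1 hE
      have : ∀ i j, M.co q i j ∈ M.X.O (M.D ρ).1 := fun i j =>
        ge_zero_iff.1 (hB.geD ρ 0 _ (hom q hρ (sup_co M.f q i j)).lo)
      refine ⟨⟨this _ _, this _ _, this _ _, this _ _, this _ _, this _ _, this _ _, this _ _,
        this _ _⟩, fun hy => ge_zero_iff.1 ?_⟩
      have k1 := ((hB.mem _ _).1 g1).2 ρ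
      have k2 : T.ka q.x q.z q.y ρ = 0 := if_pos (by
        have := h1.inv _ _ _ q.tri ρ hρ
        have : ρ ≠ q.y := fun e => hy (e ▸ rfl)
        tauto)
      rw [k2, neg_zero] at k1
      exact k1

end Pool.Agent.Lib.TF
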