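import Pool.Agent.Lib.TF.Blue

open Set Pool.Agent.Lib.MP_e39d36_ag Pool.Agent.Lib.MP_e39d36_ag.Var Pool.Agent.Lib.DU
  Pool.Agent.Lib.MV Filter Submodule
open scoped Classical NNReal Topology

set_option linter.style.haveILetI false

noncomputable section

namespace Pool.Agent.Lib.TF

open Fano

namespace XFIN

/-- The cone over a monoid lies in the closure of its rays. -/
lemma cl_ray {V : Type} [AddCommGroup V] [Module ℝ V] [TopologicalSpace V]
    [IsTopologicalAddGroup V] [ContinuousSMul ℝ V] (A : AddSubmonoid V) {x : V}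
    (hx : x ∈ span ℝ≥0 (A : Set V)) : x ∈ closure {v | ∃ t : ℝ, 0 < t ∧ ∃ a ∈ A, v = t • a} := by
  induction hx using span_induction with
  | mem x hx => exact subset_closure ⟨1, one_pos, x, hx, (one_smul _ _).symm⟩
  | zero => exact subset_closure ⟨1, one_pos, 0, A.zero_mem, (smul_zero _).symm⟩
  | add x y _ _ hx hy =>
    rw [← closure_closure]
    refine map_mem_closure₂ continuous_add hx hy ?_
    rintro _ ⟨s, hs, a, ha, rfl⟩ _ ⟨t, ht, b, hb, rfl⟩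
    refine mem_closure_of_tendsto (((tendsto_nat_floor_mul_div_atTop hs.le).smul_const a).add
      ((tendsto_nat_floor_mul_div_atTop ht.le).smul_const b))
      ((eventually_gt_atTop 0).mono fun n hn => ⟨n⁻¹, inv_pos.2 hn, _,
        A.add_mem (A.nsmul_mem ha ⌊s * n⌋₊) (A.nsmul_mem hb ⌊t * n⌋₊), ?_⟩)
    simp only [← Nat.cast_smul_eq_nsmul ℝ, smul_add, smul_smul, div_eq_inv_mul]
  | smul c x _ hx =>
    rcases eq_or_lt_of_le c.2 with hc | hc
    · rw [NNReal.smul_def, show (c : ℝ) = 0 from hc.symm, zero_smul]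
      exact subset_closure ⟨1, one_pos, 0, A.zero_mem, (smul_zero _).symm⟩
    · refine map_mem_closure (continuous_const_smul (c : ℝ)) hx ?_
      rintro _ ⟨t, ht, a, ha, rfl⟩
      exact ⟨c * t, mul_pos hc ht, a, ha, smul_smul _ _ _⟩

variable {K : Type} [Field K] [Algebra ℂ K]

lemma mov_add {X : Var K} {D D' : X.PD →₀ ℤ} (h : Mov D) (h' : Mov D') : Mov (D + D') := fun E => by
  obtain ⟨f, a1, a2, a3⟩ := h E
  obtain ⟨g, b1, b2, b3⟩ := h' E
  refine ⟨f * g, mul_ne_zero a1 b1, fun F => ?_, ?_⟩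
  · have := a2 F
    have := b2 F
    rw [ord_mul a1 b1, Finsupp.add_apply]
    omega
  · rw [ord_mul a1 b1, Finsupp.add_apply]
    omega

/-- From a polyhedral cone whose translates cover to a fundamental domain. -/
lemma tail {X : Var K} {Γ : Curves X} [FiniteDimensional ℝ Γ.N1] (Q : Prj X) {S : Set Γ.N1}
    (h1 : S.Finite) (hΛ : S ⊆ Γ.Λ) (hE : S ⊆ Γ.movE)
    (h4 : ∀ x ∈ Γ.movE, ∃ γ ∈ Γ.rho.range, ∃ y ∈ span ℝ≥0 S, γ y = x) : End.Cone Γ := by
  have h5 : ∀ γ ∈ Γ.rho.range, ∀ x ∈ Γ.movE, γ x ∈ Γ.movE := by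
    rintro _ ⟨b, rfl⟩
    exact (Γ.map_mem Γ (Γ.rho b).toLinearMap (Γ.isPull_rho b).exists_map).2.2
  obtain ⟨P, h6, h7, h8, h9⟩ := (Γ.setup Q).fund Γ.movE inf_le_left h5 h1 hΛ hE
    ((Γ.interior_cone Q).mono (interior_mono subset_closure))
    (fun x hx => h4 x (Γ.interior_movC Q hx)) fun x hx => by
      obtain ⟨γ, a1, y, a2, rfl⟩ := h4 x hx
      refine ⟨γ '' S, h1.image _, ?_, ?_,
        CG.map_mem_span γ.toLinearMap (fun v hv => subset_span (mem_image_of_mem _ hv)) a2⟩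
      · rintro _ ⟨v, hv, rfl⟩
        exact (Γ.setup Q).ΓΛ γ a1 v (hΛ hv)
      · rintro _ ⟨v, hv, rfl⟩
        exact (h5 γ a1 v (hE hv)).1
  obtain ⟨S', -, a1, rfl⟩ := SurjOn.exists_subset_injOn_image_eq (s := univ) (f := Γ.cls) (t := P)
    fun x hx => image_univ.ge (h7 hx)
  exact ⟨S', h6.of_finite_image a1, Curves.covers_iff.2 h8,
    fun φ T h => h9 T (Γ.mem_range_rho.2 ⟨φ, h⟩)⟩

variable {T : Fano} {M : T.Mod K}

/-- The anticanonical class is movable. -/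
lemma mov_one (h0 : T.C0) (hB : M.Bas) : Mov (M.std 1) := fun E => by
  have a : ∀ m F, M.std 1 F + M.X.ord (M.χ m) F.1 = M.std (1 + T.mv m) F := fun m F => by
    rw [map_add, ← hB.div]; rfl
  have b : ∀ m, T.V m → ∀ F, 0 ≤ M.std 1 F + M.X.ord (M.χ m) F.1 := fun m hm F => by
    rw [a]
    rcases M.tor F with h | ⟨ρ, rfl⟩
    · rw [hB.stdN _ _ h]
    · have := hm.1 ρ
      rw [hB.stdD]
      show 0 ≤ 1 + m ⬝ᵥ T.v ρ
      omega
  rcases M.tor E with h | ⟨ρ, rfl⟩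
  · obtain ⟨m, hm, -⟩ := h0.cov 0
    exact ⟨_, M.χ_ne m, b m hm, by rw [a, hB.stdN _ _ h]⟩
  · obtain ⟨m, hm, h⟩ := h0.ray ρ
    refine ⟨_, M.χ_ne m, b m hm, ?_⟩
    have := mem_F.1 (h (Finset.mem_singleton_self ρ))
    rw [a, hB.stdD]
    show 1 + m ⬝ᵥ T.v ρ = 0
    omega

end XFIN

open XFIN

theorem st_FIN (h0 : St_C0) (hB : St_BAS) (hD : St_DESC) (hP : St_PULL) (hF : St_EFF)
    (hC : St_CONE) : St_FIN := by
  intro T K _ _ M
  obtain ⟨p1, p2⟩ := hP T K M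
  obtain ⟨S, s1, s2, s3⟩ := hC T K M
  haveI : FiniteDimensional ℝ M.Γ.N1 := Module.Finite.of_surjective M.cl p1
  have hm : ∀ D, Mov D → M.nc D ∈ M.Γ.cone {D | Mov D.1} := fun D h =>
    subset_span ⟨⟨D, M.sm.fac D⟩, h, rfl⟩
  have hE : (fun a => M.nc (M.std a)) '' S ⊆ M.Γ.movE := by
    rintro _ ⟨a, ha, rfl⟩
    exact ⟨subset_closure (hm _ (s2 a ha)), M.Γ.cone_mov_le (hm _ (s2 a ha))⟩
  refine tail M.Q (s1.image _) (by rintro _ ⟨a, -, rfl⟩; exact ⟨⟨_, M.sm.fac _⟩, rfl⟩) hE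
    fun x hx => ?_
  obtain ⟨x, a1, rfl⟩ := (hF T K M).2 x hx.2
  obtain ⟨l, c1, c2⟩ := hD T _ (hF T K M).1 x a1
  obtain ⟨φ, L, a2, a3⟩ := p2 l
  refine ⟨L⁻¹, M.Γ.mem_range_rho.2 ⟨_, a2.inv⟩, L (M.cl x), ?_, L.symm_apply_apply _⟩
  have a4 := (M.Γ.map_mem M.Γ L.toLinearMap a2.exists_map).2.1 _ hx.1
  have a5 := CG.Setup.isClosed_span (S := M.Γ.setup M.Q) (s1.image _) fun v hv => (hE hv).1
  let U : Set (T.Ray → ℝ) := {x | (∀ z z', T.Opp z z' → 0 < x z + x z') ∧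
    ∀ s z y w, T.Tri s z y → T.Opp y w → 0 < x s + x z + x w}
  have hU : IsOpen (M.cl '' U) := M.cl.isOpenMap_of_finiteDimensional p1 _ (by
    simp only [U, ofPred_and, ofPred_forall]
    refine IsOpen.inter ?_ ?_ <;>
      repeat' first
        | exact isOpen_lt continuous_const (by fun_prop)
        | refine isOpen_iInter_of_finite fun _ => ?_)
  let A : AddSubmonoid M.Γ.N1 :=
    { carrier := M.Γ.cls '' {D | Mov D.1}
      zero_mem' := ⟨⟨0, M.sm.fac 0⟩, fun E => ⟨1, one_ne_zero, by simp [ord_val], by simp [ord_val]⟩,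
        M.Γ.cls_zero⟩
      add_mem' := by
        rintro _ _ ⟨D, h, rfl⟩ ⟨D', h', rfl⟩
        exact ⟨_, mov_add h h', M.Γ.cls_add D D'⟩ }
  have h7 : Tendsto (fun t : ℝ => L (M.cl x) + t • M.nc (M.std 1)) (𝓝[>] 0) (𝓝 (L (M.cl x))) := by
    have : Continuous fun t : ℝ => L (M.cl x) + t • M.nc (M.std 1) := by fun_prop
    have h := this.tendsto 0
    simp only [zero_smul, add_zero] at h
    exact h.mono_left nhdsWithin_le_nhds
  refine a5.mem_of_tendsto h7 (eventually_of_mem self_mem_nhdsWithin fun t (ht : 0 < t) => ?_)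
  have b1 : L (M.cl x) + t • M.nc (M.std 1) ∈ M.Γ.movC :=
    add_mem a4 (CG.smul_mem' ht.le (subset_closure (hm _ (mov_one (h0 T) (hB T K M)))))
  have b2 : L (M.cl x) + t • M.nc (M.std 1) ∈ M.cl '' U := by
    refine ⟨T.wd ℝ l x + t • rc 1, ⟨fun z z' h => ?_, fun s z y w h h' => ?_⟩, by
      rw [map_add, map_smul, (hB T K M).cls, a3]⟩
    · have := c1 z z' h
      simp only [rc, Pi.add_apply, Pi.smul_apply, Pi.one_apply, Int.cast_one, smul_eq_mul]
      linarith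
    · have := c2 s z y w h h'
      simp only [rc, Pi.add_apply, Pi.smul_apply, Pi.one_apply, Int.cast_one, smul_eq_mul]
      linarith
  refine a5.closure_subset_iff.2 ?_ (hU.inter_closure ⟨b2,
    closure_minimal (fun v hv => cl_ray A hv) isClosed_closure b1⟩)
  rintro _ ⟨⟨u, ⟨u1, u2⟩, u3⟩, r, hr, _, ⟨D, hD, rfl⟩, rfl⟩
  have hr' := inv_pos.2 hr
  refine CG.smul_mem' hr.le (s3 D.1 (r⁻¹ • u) hD ?_ (fun z z' h => ?_) fun s z y w h h' => ?_)
  · rw [map_smul, u3, inv_smul_smul₀ hr.ne']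
    rfl
  · simpa only [Pi.smul_apply, smul_eq_mul, ← mul_add] using mul_pos hr' (u1 z z' h)
  · simpa only [Pi.smul_apply, smul_eq_mul, ← mul_add] using mul_pos hr' (u2 s z y w h h')

end Pool.Agent.Lib.TF
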