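import Pool.Agent.Lib.TF.Blue

open Set Pool.Agent.Lib.MP_e39d36_ag Pool.Agent.Lib.MP_e39d36_ag.Var Pool.Agent.Lib.DU
  Pool.Agent.Lib.MV
open scoped Classical

set_option linter.unusedSectionVars false
set_option linter.unusedVariables false

noncomputable section

namespace Pool.Agent.Lib.TF

open Fano

namespace FRMB

variable {T : Fano} {K : Type} [Field K] [Algebra ℂ K]

lemma pr_ld (M : T.Mod0 K) (G : T.R) (w : T.M) :
    Mod0.pr (fun i => M.ψ (ld (Pi.single i 1) G)) w = M.ψ (ld w G) := by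
  rw [ld_dir w G, map_sum, Mod0.pr]
  refine Finset.sum_congr rfl fun i _ => ?_
  rw [map_smul, Algebra.smul_def, map_intCast]

lemma pr_add (g g' : Fin T.n → K) (w : T.M) :
    Mod0.pr (g + g') w = Mod0.pr g w + Mod0.pr g' w := by
  simp only [Mod0.pr, Pi.add_apply, mul_add, Finset.sum_add_distrib]

lemma pr_smul (k : K) (g : Fin T.n → K) (w : T.M) :
    Mod0.pr (k • g) w = k * Mod0.pr g w := by
  simp only [Mod0.pr, Pi.smul_apply, smul_eq_mul, Finset.mul_sum]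
  exact Finset.sum_congr rfl fun i _ => by ring

lemma lo_ld {n : ℕ} {w : Fin n → ℤ} {G : La n} (h : Lo w 0 G) : Lo w 1 (ld w G) := fun u hu => by
  rw [coeff_ld] at hu
  have h1 := h u (right_ne_zero_of_mul hu)
  have h2 : u ⬝ᵥ w ≠ 0 := fun e => left_ne_zero_of_mul hu (by rw [e, Int.cast_zero])
  beta_reduce at h1 ⊢
  omega

lemma lo_ld_add {n : ℕ} {w : Fin n → ℤ} {G : La n} (h : Lo w (-1) G) :
    Lo w 0 (ld w G + G) := fun u hu => by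
  have e : (ld w G + G).coeff u = ((u ⬝ᵥ w + 1 : ℤ) : ℂ) * G.coeff u := by
    simp [add_mul]
  rw [e] at hu
  have h1 := h u (right_ne_zero_of_mul hu)
  have h2 : u ⬝ᵥ w + 1 ≠ 0 := fun e => left_ne_zero_of_mul hu (by rw [e, Int.cast_zero])
  beta_reduce at h1 ⊢
  omega

lemma β_eq (M : T.Mod0 K) (g : Fin T.n → K) :
    M.β g = ∑ i, g i • dlog (M.χ (Pi.single i 1)) := Fintype.linearCombination_apply _ _ _

lemma S_zero {τ : Finset T.Ray} {G : T.R} : G ∈ T.S 0 τ ↔ ∀ ρ ∈ τ, Lo (T.v ρ) 0 G := by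
  simp only [mem_S, Pi.zero_apply, neg_zero]

lemma S_neg {τ : Finset T.Ray} {G : T.R} : G ∈ T.S (-1) τ ↔ ∀ ρ ∈ τ, Lo (T.v ρ) 1 G := by
  simp only [mem_S, Pi.neg_apply, Pi.one_apply, neg_neg]

variable (M : T.Mod K)

lemma one (hB : M.Bas)
    (hD : ∀ G, KaehlerDifferential.D ℂ K (M.ψ G) = M.β fun i => M.ψ (ld (Pi.single i 1) G))
    (τ : Finset T.Ray) (ω : Ω[K⁄ℂ]) (hω : ω ∈ frm (M.B τ)) :
    ∃ g : Fin T.n → K, (∀ i, g i ∈ M.B τ) ∧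
      (∀ ρ ∈ τ, Mod0.pr g (T.v ρ) ∈ ordGe (M.D ρ) 1) ∧ M.β g = ω := by
  refine LOG.frm_ind (p := fun ω => ∃ g : Fin T.n → K, (∀ i, g i ∈ M.B τ) ∧
      (∀ ρ ∈ τ, Mod0.pr g (T.v ρ) ∈ ordGe (M.D ρ) 1) ∧ M.β g = ω) (fun w hw => ?_)
    ⟨0, fun i => zero_mem _, fun ρ _ => by simp [Mod0.pr], map_zero _⟩ ?_ ?_ hω
  · obtain ⟨G, hG, rfl⟩ := M.mem_B.1 hw
    refine ⟨fun i => M.ψ (ld (Pi.single i 1) G), fun i => M.mem_B.2
      ⟨_, fun ρ hρ => Sup.ld (hG ρ hρ) _, rfl⟩, fun ρ hρ => ?_, (hD G).symm⟩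
    rw [pr_ld]
    exact hB.geD ρ 1 _ (lo_ld (S_zero.1 hG ρ hρ))
  · rintro a b ⟨g, h1, h2, rfl⟩ ⟨g', h3, h4, rfl⟩
    refine ⟨g + g', fun i => add_mem (h1 i) (h3 i), fun ρ hρ => ?_, map_add _ _ _⟩
    rw [pr_add]
    exact add_mem (h2 ρ hρ) (h4 ρ hρ)
  · rintro r hr a ⟨g, h1, h2, rfl⟩
    refine ⟨r • g, fun i => mul_mem hr (h1 i), fun ρ hρ => ?_, map_smul _ _ _⟩
    obtain ⟨G, hG, rfl⟩ := M.mem_B.1 hr
    rw [pr_smul]
    simpa using ge_mul (hB.geD ρ 0 _ (S_zero.1 hG ρ hρ)) (h2 ρ hρ)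

lemma two (E : M.X.PD) (g : Fin T.n → K) (hg : ∀ i, g i ∈ M.X.O E.1) :
    (M.NT E → M.β g ∈ frm (M.X.O E.1)) ∧
    ∀ ρ (c : ℂ), E = M.D ρ → Mod0.pr g (T.v ρ) - algebraMap ℂ K c ∈ ordGe E 1 →
      ∀ π, M.X.ord π E.1 = 1 → M.β g - c • dlog π ∈ frm (M.X.O E.1) := by
  refine ⟨fun h => ?_, fun ρ c hE hc π hπ => ?_⟩
  · rw [β_eq]
    exact sum_mem fun i _ => LOG.smul_mem (hg i)
      (Log.dlog_un (un_iff_ord.2 ⟨M.χ_ne _, h _⟩))
  · have h0 := Log.ne_of_ord hπ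
    have h1 : ∀ i, dlog (M.χ (Pi.single i 1)) - ((T.v ρ i : ℤ) : ℂ) • dlog π ∈ frm (M.X.O E.1) :=
      fun i => by
        have := Log.dlog_loc hπ (M.χ_ne (Pi.single i 1))
        rwa [show M.X.ord (M.χ (Pi.single i 1)) E.1 = T.v ρ i by
          rw [hE, (M.isD ρ).1, single_one_dotProduct]] at this
    have h2 : (Mod0.pr g (T.v ρ) - algebraMap ℂ K c) * π⁻¹ ∈ M.X.O E.1 := by
      have := ge_mul hc (ge_ord π⁻¹ E)
      rw [ord_inv, hπ] at this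
      exact ge_zero_iff.1 (by simpa using this)
    have h3 : π ∈ M.X.O E.1 := ge_zero_iff.1 (ge_mono (ge_ord π E) (by omega))
    have e : M.β g - c • dlog π =
        ∑ i, g i • (dlog (M.χ (Pi.single i 1)) - ((T.v ρ i : ℤ) : ℂ) • dlog π) +
          ((Mod0.pr g (T.v ρ) - algebraMap ℂ K c) * π⁻¹) • KaehlerDifferential.D ℂ K π := by
      rw [mul_smul, ← dlog, β_eq, sub_smul, algebraMap_smul, Mod0.pr, Finset.sum_smul,
        ← add_sub_assoc, ← Finset.sum_add_distrib]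
      congr 1
      refine Finset.sum_congr rfl fun i _ => ?_
      rw [smul_sub, ← algebraMap_smul K ((T.v ρ i : ℤ) : ℂ), map_intCast, smul_smul,
        mul_comm (g i), sub_add_cancel]
    rw [e]
    exact add_mem (sum_mem fun i _ => LOG.smul_mem (hg i) (h1 i))
      (LOG.smul_mem h2 (LOG.D_mem h3))

lemma three (hJ : St_JAC) (τ : Finset T.Ray) (hτ : T.Face τ) (k : K) :
    (∀ i, k * M.θ i ∈ M.B τ) ↔ ∃ G ∈ T.S (-1) τ, M.ψ G = k := by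
  constructor
  · intro h
    obtain ⟨m, hm, hs⟩ := hτ
    obtain ⟨G₀, G, -, h1, h2⟩ := hJ T M.f M.gen m hm
    have h3 : ∀ ρ : T.Ray, ∃ H ∈ T.S 0 τ, M.ψ H = k * M.ψ (ld (T.v ρ) M.f) := fun ρ => by
      refine M.mem_B.1 ?_
      rw [← pr_ld, Mod0.pr, Finset.mul_sum]
      refine sum_mem fun i _ => ?_
      rw [mul_left_comm]
      exact mul_mem (intCast_mem _ _) (h i)
    choose H h4 h5 using h3
    refine ⟨∑ ρ ∈ T.F m, G ρ * H ρ, sum_mem fun ρ _ => ?_, ?_⟩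
    · simpa using S_mul (a := -1) (τ := τ) (fun σ hσ => h1 ρ σ (hs hσ)) (h4 ρ)
    · have h6 := congrArg M.ψ h2
      rw [map_add, map_mul, M.ψ_f, mul_zero, zero_add, map_one, map_sum] at h6
      rw [map_sum, ← mul_one k, ← h6, Finset.mul_sum]
      refine Finset.sum_congr rfl fun ρ _ => ?_
      rw [map_mul, map_mul, h5, mul_left_comm]
  · rintro ⟨G, hG, rfl⟩ i
    refine M.mem_B.2 ⟨G * ld (Pi.single i 1) M.f, S_zero.2 fun ρ hρ => ?_, map_mul _ _ _⟩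
    simpa using Lo.mul (S_neg.1 hG ρ hρ) (Sup.ld (M.gen.lo ρ) (Pi.single i 1))

end FRMB

open FRMB in
theorem st_FRM (hJ : St_JAC) (hB : St_BAS) (hR : St_REL) : St_FRM := fun T K _ _ M => by
  obtain ⟨-, -, hD, -, hk⟩ := hR T K M
  refine ⟨fun τ _ => one M (hB T K M) hD τ, two M, three M hJ, fun τ hτ g hg hω ρ hρ => ?_⟩
  obtain ⟨g', h1, h2, h3⟩ := one M (hB T K M) hD τ _ hω
  obtain ⟨k, h4⟩ := (hk (g - g')).1 (by rw [map_sub, h3, sub_self])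
  obtain ⟨G, hG, rfl⟩ := (three M hJ τ hτ k).1 fun i => by
    have := congrFun h4 i
    rw [Pi.smul_apply, smul_eq_mul] at this
    exact this ▸ sub_mem (hg i) (h1 i)
  have e : Mod0.pr g (T.v ρ) = Mod0.pr g' (T.v ρ) + M.ψ (G * (ld (T.v ρ) M.f + M.f)) := by
    rw [eq_add_of_sub_eq' h4, pr_add, pr_smul, map_mul, map_add, M.ψ_f, add_zero, ← pr_ld]
    rfl
  rw [e]
  refine add_mem (h2 ρ hρ) ((hB T K M).geD ρ 1 _ ?_)
  simpa using Lo.mul (S_neg.1 hG ρ hρ) (lo_ld_add (M.gen.lo ρ))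

end Pool.Agent.Lib.TF
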