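import Pool.Agent.Lib.TF.Blue

open Set WithZero Pool.Agent.Lib.MP_e39d36_ag Pool.Agent.Lib.MP_e39d36_ag.Var Pool.Agent.Lib.DU
  Pool.Agent.Lib.MV
open scoped Classical NNReal

noncomputable section

namespace Pool.Agent.Lib.TF

open Fano

namespace GALB

lemma cg_cg {n : ℕ} (g : ℂ ≃+* ℂ) (G : La n) : cg g.symm (cg g G) = G :=
  La.ext fun u => by simp

variable {T : Fano} {K : Type} [Field K] [Algebra ℂ K] (M : T.Mod K)

lemma ex_hom (g : ℂ ≃+* ℂ) (hg : cg g M.f = M.f) :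
    ∃ φ : K →+* K, ∀ G, φ (M.ψ G) = M.ψ (cg g G) := by
  have hg' : cg g.symm M.f = M.f := by rw [← hg, cg_cg, hg]
  have k1 : ∀ G, M.ψ G = 0 → M.ψ (cg g G) = 0 := fun G h =>
    (M.ker _).2 (hg ▸ map_dvd (cg g) ((M.ker _).1 h))
  have k2 : ∀ G, M.ψ (cg g G) = 0 → M.ψ G = 0 := fun G h => (M.ker _).2 (by
    have := map_dvd (cg g.symm) ((M.ker _).1 h)
    rwa [hg', cg_cg] at this)
  let R : Subring K := M.ψ.toRingHom.range
  have : IsFractionRing R K := isFrac fun z => by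
    obtain ⟨G, H, h0, rfl⟩ := M.pts.frac z
    exact ⟨M.ψ H, ⟨H, rfl⟩, h0, G, by rw [mul_div_cancel₀ _ h0]; rfl⟩
  let θ : R →+* K := M.ψ.toRingHom.rangeRestrict.liftOfSurjective
    M.ψ.toRingHom.rangeRestrict_surjective ⟨M.ψ.toRingHom.comp (cg g), fun G h =>
      k1 G (congrArg Subtype.val h)⟩
  have hθ : ∀ G, θ (M.ψ.toRingHom.rangeRestrict G) = M.ψ (cg g G) := fun G =>
    RingHom.liftOfRightInverse_comp_apply _ _ _ _ G
  have hi : Function.Injective θ := (injective_iff_map_eq_zero θ).2 fun a ha => by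
    obtain ⟨G, rfl⟩ := M.ψ.toRingHom.rangeRestrict_surjective a
    exact Subtype.ext (k2 G (hθ G ▸ ha))
  exact ⟨IsFractionRing.lift hi, fun G => (IsFractionRing.lift_algebraMap hi
    (M.ψ.toRingHom.rangeRestrict G)).trans (hθ G)⟩

lemma comp_eq {φ φ' : K →+* K} {g : ℂ ≃+* ℂ} (h : ∀ G, φ (M.ψ G) = M.ψ (cg g G))
    (h' : ∀ G, φ' (M.ψ G) = M.ψ (cg g.symm G)) (s : K) : φ' (φ s) = s := by
  obtain ⟨G, H, -, rfl⟩ := M.pts.frac s
  rw [map_div₀, map_div₀, h, h, h', h', cg_cg, cg_cg]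

lemma key {φ : RingAut K} {g : ℂ ≃+* ℂ} (h : ∀ G, φ (M.ψ G) = M.ψ (cg g G))
    (h' : ∀ G, φ.symm (M.ψ G) = M.ψ (cg g.symm G)) (E : M.X.PD) :
    ∃ F : M.X.PD, ∀ s, val F s = val E (φ s) := by
  let V : Subring K := (M.X.O E.1).comap φ.toRingHom
  let w : Valuation K ℤᵐ⁰ := (val E).comap φ.toRingHom
  have hw : IsV w V := ⟨(isV E).1.comp φ.surjective, fun z => (isV E).2 (φ z)⟩
  obtain ⟨m, hm, hl⟩ := M.chart E.1
  have b1 : ∀ s ∈ M.B (T.F m), φ s ∈ M.B (T.F m) := by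
    rintro _ ⟨G, hG, rfl⟩
    exact ⟨cg g G, fun ρ hρ => Sup.cg (hG ρ hρ) g, (h G).symm⟩
  have b2 : ∀ s ∈ M.B (T.F m), φ.symm s ∈ M.B (T.F m) := by
    rintro _ ⟨G, hG, rfl⟩
    exact ⟨cg g.symm G, fun ρ hρ => Sup.cg (hG ρ hρ) g.symm, (h' G).symm⟩
  obtain ⟨z, hz⟩ := M.pts.pt (T.F m) ⟨m, hm, subset_rfl⟩ V (isLoc_of_val hw.val)
    ⟨fun s hs => hl.1 (b1 s hs), fun s hs => by
      obtain ⟨b, c1, c2, c3⟩ := hl.2 (φ s) hs
      refine ⟨φ.symm b, b2 b c1, un_comap.2 (by simpa using c2), ?_⟩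
      simpa using b2 _ c3⟩
  let F : M.X.PD := ⟨z, (M.X.pd_iff z).2 ⟨w, hz ▸ hw⟩⟩
  exact ⟨F, fun s => by rw [(isV F).unique (hz ▸ hw)]; rfl⟩

end GALB

open GALB in
theorem st_GAL : St_GAL := by
  intro T K _ _ M g hg
  obtain ⟨φ₁, h1⟩ := ex_hom M g hg
  obtain ⟨φ₂, h2⟩ := ex_hom M g.symm (by rw [← hg, cg_cg, hg])
  let φ : RingAut K := RingEquiv.ofRingHom φ₁ φ₂
    (RingHom.ext (comp_eq M (g := g.symm) h2 h1)) (RingHom.ext (comp_eq M h1 h2))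
  choose a ha using key M (φ := φ) h1 h2
  choose b hb using key M (φ := φ.symm) (g := g.symm) h2 h1
  refine ⟨φ, ⟨b, a, fun E => pd_eq fun z hz => ?_, fun E => pd_eq fun z hz => ?_⟩, h1,
    fun s E => ?_⟩
  · rw [(isV _).2] at hz ⊢
    rwa [ha, hb, φ.symm_apply_apply] at hz
  · rw [(isV _).2] at hz ⊢
    rwa [hb, ha, φ.apply_symm_apply] at hz
  · rw [ord_val, ord_val, od, od]
    change -log (val (b E) (φ s)) = _
    rw [hb, φ.symm_apply_apply]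

end Pool.Agent.Lib.TF
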