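import Pool.Agent.Lib.TF.Blue

open Set Pool.Agent.Lib.MP_e39d36_ag Pool.Agent.Lib.MP_e39d36_ag.Var Pool.Agent.Lib.DU
  Pool.Agent.Lib.MV
open scoped Classical NNReal

set_option linter.style.haveILetI false

noncomputable section

namespace Pool.Agent.Lib.TF

open Fano

namespace GALNB

lemma exists_map {R S A B : Type} [CommRing R] [CommRing S] [CommRing A] [CommRing B]
    [Algebra R A] [Algebra S B] (g : R →+* S) (θ : A →+* B)
    (h : ∀ r, θ (algebraMap R A r) = algebraMap S B (g r)) : ∃ m : Ω[A⁄R] →+ Ω[B⁄S],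
    (∀ a, m (KaehlerDifferential.D R A a) = KaehlerDifferential.D S B (θ a)) ∧
    ∀ (a : A) w, m (a • w) = θ a • m w := by
  letI : Algebra R S := g.toAlgebra
  letI : Algebra A B := θ.toAlgebra
  letI : Algebra R B := (θ.comp (algebraMap R A)).toAlgebra
  haveI : IsScalarTower R A B := IsScalarTower.of_algebraMap_eq fun _ => rfl
  haveI : IsScalarTower R S B := IsScalarTower.of_algebraMap_eq fun a => h a
  haveI : SMulCommClass S A B := ⟨fun s a b => by
    simp only [Algebra.smul_def]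
    ring⟩
  refine ⟨(KaehlerDifferential.map R S A B).toAddMonoidHom,
    fun a => KaehlerDifferential.map_D R S A B a, fun a m => ?_⟩
  rw [LinearMap.toAddMonoidHom_coe, map_smul, ← algebraMap_smul B]
  rfl

variable {K : Type} [Field K] [Algebra ℂ K] {X : Var K}

lemma push {Δ : X.PD → ℂ} {g : ℂ ≃+* ℂ} {φ : RingAut K} {e : X.PD ≃ X.PD}
    (h0 : ∀ c, φ (algebraMap ℂ K c) = algebraMap ℂ K (g c))
    (hp : ∀ s E, X.ord (φ s) (e E).1 = X.ord s E.1) (h : Res Δ) :
    Res fun E => g (Δ (e.symm E)) := by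
  obtain ⟨η, h⟩ := h
  obtain ⟨m, h1, h2⟩ := exists_map g.toRingHom φ.toRingHom h0
  refine ⟨m η, e.surjective.forall.2 fun E => φ.surjective.forall.2 fun π hπ => ?_⟩
  rw [hp] at hπ
  have h3 : ∀ a ∈ X.O E.1, φ a ∈ X.O (e E).1 := fun a ha => by
    by_cases h0 : a = 0
    · simp [h0]
    · rw [(isV _).mem_iff ((map_ne_zero φ).2 h0), ← ord_val, hp]
      exact ord_nonneg ha
  have h4 : ∀ ω ∈ frm (X.O E.1), m ω ∈ frm (X.O (e E).1) := fun ω hω => by
    induction hω using Submodule.span_induction with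
    | mem x hx =>
      obtain ⟨a, ha, rfl⟩ := hx
      exact h1 a ▸ LOG.D_mem (h3 a ha)
    | zero => simp
    | add x y _ _ hx hy => rw [map_add]; exact add_mem hx hy
    | smul a x _ hx => exact (h2 a x).symm ▸ LOG.smul_mem (h3 a a.2) hx
  have h5 := h4 _ (h E π hπ)
  rw [map_sub, ← algebraMap_smul K, h2, dlog, h2, h1] at h5
  have h6 : φ.toRingHom (algebraMap ℂ K (Δ E)) = algebraMap ℂ K (g (Δ E)) := h0 _
  rw [h6, algebraMap_smul] at h5
  simpa [dlog] using h5

lemma num (hs : Sm X) (Γ : Curves X) {J : Type} [Fintype J] {c : J → ℂ} {V : J → Dv X}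
    {W : Dv X} (h : Res fun E => (W E : ℂ) - cmb c V E) (x : {c // Γ.cv c}) :
    (Γ.int W x.1 : ℂ) = ∑ j, c j * Γ.int (V j) x.1 := by
  have h1 : ∀ L : ℂ →ₗ[ℝ] ℝ, L (Γ.int W x.1) = L (∑ j, c j * Γ.int (V j) x.1) := fun L => by
    have h2 := Res.n2 (J := Option J) (c := fun j => j.elim 1 fun μ => -c μ)
      (W := fun j => j.elim W V) hs Γ (h.congr fun E => by
        simp [cmb, Fintype.sum_option, sub_eq_add_neg]) L
    have h3 := congrArg (Γ.evc x) h2
    have h4 : ∀ (z : ℂ) (D : Dv X), Γ.evc x (L z • End.nc Γ hs.fac D) = L (z * Γ.int D x.1) :=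
      fun z D => by
        rw [map_smul, mul_comm z, ← Complex.ofReal_intCast, ← Complex.real_smul, map_smul,
          smul_eq_mul, smul_eq_mul, mul_comm]
        rfl
    rw [map_sum, map_zero, Fintype.sum_option] at h3
    simp only [h4] at h3
    simp only [Option.elim, one_mul, neg_mul, map_neg, Finset.sum_neg_distrib] at h3
    rw [map_sum]
    exact add_neg_eq_zero.1 h3
  exact Complex.ext (h1 Complex.reLm) (h1 Complex.imLm)

end GALNB

theorem st_GALN (hL : St_LEF) : St_GALN := by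
  intro T K _ _ M g φ e h1 h2 E
  have h0 : ∀ c, φ (algebraMap ℂ K c) = algebraMap ℂ K (g c) := fun c => by
    have h3 : cg g (algebraMap ℂ T.R c) = algebraMap ℂ T.R (g c) := La.ext fun u => by
      rw [coeff_cg, Algebra.algebraMap_eq_smul_one, Algebra.algebraMap_eq_smul_one, ← mn_zero]
      by_cases h : 0 = u <;> simp [-mn_zero, coeff_mn, h]
    rw [← M.ψ.commutes, h1, h3, M.ψ.commutes]
  have hD : ∀ ρ, e (M.D ρ) = M.D ρ := fun ρ => by
    have h3 : ∀ u, M.X.ord (M.χ u) (e (M.D ρ)).1 = u ⬝ᵥ T.v ρ := fun u => by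
      rw [← (M.isD ρ).1 u, ← h2 (M.χ u) (M.D ρ), Mod0.χ, h1, cg_mn]
    rcases M.tor (e (M.D ρ)) with h | ⟨σ, h⟩
    · refine absurd (funext fun i => ?_) (T.ne ρ)
      simpa using (h3 (Pi.single i 1)).symm.trans (h _)
    · have h4 : T.v σ = T.v ρ := funext fun i => by
        have h5 := h3 (Pi.single i 1)
        rw [h, (M.isD σ).1] at h5
        simpa using h5
      rw [h, T.inj h4]
  obtain ⟨c, hc⟩ := hL T K M (Finsupp.single E 1)
  have h5 : ∀ A B : M.X.PD, (Finsupp.single A (1 : ℤ)) (e.symm B) = Finsupp.single (e A) 1 B :=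
    fun A B => by simp only [Finsupp.single_apply, e.eq_symm_apply]
  have hc' : Res fun B => ((Finsupp.single (e E) (1 : ℤ) B : ℤ) : ℂ) -
      cmb (fun ρ => g (c ρ)) (fun ρ => Finsupp.single (M.D ρ) 1) B :=
    (GALNB.push h0 h2 hc).congr fun B => by
      simp only [cmb, h5, hD, map_sub, map_sum, map_mul, map_intCast]
  ext x
  have h6 := congrArg g (GALNB.num M.sm M.Γ hc x)
  simp only [map_sum, map_mul, map_intCast] at h6
  have h7 := (GALNB.num M.sm M.Γ hc' x).trans h6.symm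
  exact congrArg (Int.cast : ℤ → ℝ) (Int.cast_injective h7)

end Pool.Agent.Lib.TF
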