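import Pool.Agent.Lib.TF.Blue

open Set Pool.Agent.Lib.MP_e39d36_ag Pool.Agent.Lib.MP_e39d36_ag.Var Pool.Agent.Lib.DU
  Pool.Agent.Lib.MV
open scoped Classical

noncomputable section

namespace Pool.Agent.Lib.TF

open Fano

namespace GENB

variable {T : Fano} {f : T.R} {x z y : T.Ray}

lemma cl_swap (f : T.R) (x z : T.Ray) (i j : ℤ) : T.cl f z x i j = T.cl f x z j i :=
  part_congr fun _ _ => and_comm

lemma pC_swap (f : T.R) (x z : T.Ray) : T.pC f z x = T.pC f x z := part_congr fun _ _ => and_comm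

lemma split (hf : T.Gen f) (h : T.Tri x z y) :
    f = T.cl f x z 1 0 + T.cl f x z 0 1 + T.pA f x z + T.pA f z x + T.pC f x z := by
  refine La.ext fun u => ?_
  have e : (T.cl f x z 1 0 + T.cl f x z 0 1 + T.pA f x z + T.pA f z x + T.pC f x z).coeff u =
      (T.cl f x z 1 0).coeff u + (T.cl f x z 0 1).coeff u + (T.pA f x z).coeff u +
        (T.pA f z x).coeff u + (T.pC f x z).coeff u := by simp
  rw [e]
  simp only [cl, pA, pC, coeff_part]
  by_cases h0 : f.coeff u = 0
  · simp [h0]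
  have h1 := hf.sup u h0 x
  have h2 := hf.sup u h0 z
  have h3 := hf.sup u h0 y
  rw [h.dot] at h3
  split_ifs <;> first | omega | simp

lemma lo_part (hf : T.Gen f) {S : T.M → Prop} {w : T.M} {k : ℤ}
    (h : ∀ u, T.P u → S u → k ≤ u ⬝ᵥ w) : Lo w k (part S f) :=
  Sup.mono (Sup.and (Sup.part hf.sup) sup_part) fun u hu => h u hu.1 hu.2

lemma lo_gp {w : T.M} {k a b c d : ℤ} (h1 : Lo w a (T.cl f x z 1 0)) (h2 : Lo w b (T.cl f x z 0 1))
    (h3 : Lo w c (T.pA f x z)) (h4 : Lo w d (T.pC f x z)) (e1 : k ≤ c + b) (e2 : k ≤ c + a)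
    (e3 : k ≤ a + d) : Lo w k (T.pA f x z * (T.cl f x z 0 1 - T.cl f x z 1 0) -
      T.cl f x z 1 0 * T.pC f x z) := by
  rw [mul_sub]
  exact Sup.sub (Sup.sub ((h3.mul h2).le e1) ((h3.mul h1).le e2)) ((h1.mul h4).le e3)

lemma lo_gp' {w : T.M} {k a b c d : ℤ} (h1 : Lo w a (T.cl f x z 1 0))
    (h2 : Lo w b (T.cl f x z 0 1)) (h3 : Lo w c (T.pA f x z)) (h4 : Lo w d (T.pC f x z))
    (e0 : k ≤ a + a) (e1 : k ≤ c + b) (e2 : k ≤ c + a) (e3 : k ≤ a + d) :
    Lo w k (T.gp f x z) := by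
  rw [gp, add_sub_assoc, sq]
  exact Sup.add (Sup.neg ((h1.mul h1).le e0)) (lo_gp h1 h2 h3 h4 e1 e2 e3)

lemma gp_x (hf : T.Gen f) (x z : T.Ray) : Lo (T.v x) 0 (T.gp f x z) :=
  lo_gp' (a := 0) (b := -1) (c := 1) (d := 0) (lo_part hf fun u _ h => by omega)
    (lo_part hf fun u _ h => by omega) (lo_part hf fun u _ h => h.1)
    (lo_part hf fun u _ h => h.1) (by omega) (by omega) (by omega) (by omega)

lemma gp_oz (hf : T.Gen f) (x : T.Ray) {ρ : T.Ray} (h : T.Opp z ρ) : Lo (T.v ρ) 0 (T.gp f x z) :=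
  lo_gp' (a := 1) (b := 0) (c := 1) (d := -1) (lo_part hf fun u _ h' => by rw [h.dot]; omega)
    (lo_part hf fun u _ h' => by rw [h.dot]; omega) (lo_part hf fun u _ h' => by rw [h.dot]; omega)
    (lo_part hf fun u h' _ => h' ρ) (by omega) (by omega) (by omega) (by omega)

lemma gp_oy (hf : T.Gen f) (ht : T.Tri x z y) {ρ : T.Ray} (h : T.Opp y ρ) :
    Lo (T.v ρ) 0 (T.gp f x z) :=
  lo_gp' (a := 1) (b := 1) (c := -1) (d := -1)
    (lo_part hf fun u _ h' => by rw [h.dot, ht.dot]; omega)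
    (lo_part hf fun u _ h' => by rw [h.dot, ht.dot]; omega) (lo_part hf fun u h' _ => h' ρ)
    (lo_part hf fun u h' _ => h' ρ) (by omega) (by omega) (by omega) (by omega)

lemma gp_all (hf : T.Gen f) (x z ρ : T.Ray) : Lo (T.v ρ) (-2) (T.gp f x z) :=
  lo_gp' (a := -1) (b := -1) (c := -1) (d := -1) (lo_part hf fun u h' _ => h' ρ)
    (lo_part hf fun u h' _ => h' ρ) (lo_part hf fun u h' _ => h' ρ)
    (lo_part hf fun u h' _ => h' ρ) (by omega) (by omega) (by omega) (by omega)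

lemma gp_tri (hf : T.Gen f) (ht : T.Tri x z y) {ρ t : T.Ray} (h : T.Tri y ρ t) :
    Lo (T.v ρ) (-1) (T.gp f x z) :=
  lo_gp' (a := 0) (b := 0) (c := -1) (d := -1)
    (lo_part hf fun u hu h' => by have := hu t; rw [h.dot, ht.dot] at this; omega)
    (lo_part hf fun u hu h' => by have := hu t; rw [h.dot, ht.dot] at this; omega)
    (lo_part hf fun u h' _ => h' ρ)
    (lo_part hf fun u h' _ => h' ρ) (by omega) (by omega) (by omega) (by omega)

end GENB

open GENB in
theorem st_GEN (h0 : St_C0) (h1 : St_C1) (hB : St_BAS) : St_GEN := by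
  intro T K _ _ M x z y ht
  have B := hB T K M
  have hf := M.gen
  have s : M.al x z + M.al z x + M.ψ (T.pA M.f x z) + M.ψ (T.pA M.f z x) +
      M.ψ (T.pC M.f x z) = 0 := by
    have := M.ψ_f
    rw [split hf ht] at this
    rw [Mod.al, Mod.al, cl_swap M.f x z 1 0]
    simpa only [map_add] using this
  have ep : ∀ x z, M.p x z = -M.al x z ^ 2 + M.ψ (T.pA M.f x z) * (M.al z x - M.al x z) -
      M.al x z * M.ψ (T.pC M.f x z) := fun x z => by
    simp only [Mod.p, Mod.al, gp, map_add, map_sub, map_mul, map_neg, map_pow, cl_swap M.f x z 1 0]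
  have ew : M.w x z = M.al x z + M.ψ (T.pA M.f x z + T.pC M.f x z) := by
    simp only [Mod.w, Mod.al, gw, map_add, add_assoc]
  have ps : M.p z x = M.p x z := by
    rw [ep, ep, pC_swap M.f x z]
    linear_combination (M.al x z - M.al z x) * s
  have g3 : M.w x z - M.al x z ∈ ordGe (M.D y) 0 := by
    rw [ew, add_sub_cancel_left]
    exact B.geD _ _ _ (Sup.add (lo_part hf fun u _ h => by rw [ht.dot]; omega)
      (lo_part hf fun u _ h => by rw [ht.dot]; omega))
  have ly : Lo (T.v y) (-1) (T.cl M.f x z 1 0) := lo_part hf fun u h _ => h y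
  have g4 : M.p x z + M.al x z ^ 2 ∈ ordGe (M.D y) (-1) := by
    have := B.geD y (-1) _ (lo_gp (x := x) (z := z) (b := -1) (c := 0) (d := 0) ly
      (lo_part hf fun u h _ => h y) (lo_part hf fun u _ h => by rw [ht.dot]; omega)
      (lo_part hf fun u _ h => by rw [ht.dot]; omega) (by omega) (by omega) (by omega))
    rw [Mod.p, gp, add_sub_assoc, map_add, map_neg, map_pow, neg_add_cancel_comm]
    exact this
  have xy : x ≠ y := fun e => by
    obtain ⟨u, e1, e2⟩ := (h1 T).dual x z y ht 0 1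
    have := ht.dot u
    rw [← e] at this
    omega
  have g5 : M.al x z ≠ 0 ∧ M.X.ord (M.al x z) (M.D y).1 = -1 := by
    refine B.val y (T.v x) 0 (-1) _ ?_ (Sup.mono sup_part fun u h => by omega) ly ?_
    · rintro ⟨j, hj⟩
      obtain ⟨u, e1, e2⟩ := (h1 T).dual x z y ht 1 (-1)
      rw [hj, dotProduct_smul, ht.dot, e2, smul_eq_mul] at e1
      obtain ⟨u', e3, e4⟩ := (h1 T).dual x z y ht 1 (-1)
      have := ht.dot u'
      rw [hj, dotProduct_smul, smul_eq_mul] at e3
      rw [hj, dotProduct_smul, smul_eq_mul, e3, e4] at this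
      rw [this] at e3
      omega
    · obtain ⟨m, hm, h⟩ := (h1 T).swap z x y ht.symm {y} ((h0 T).ray y) (by simp) (by simpa using xy)
      have a1 : m ⬝ᵥ T.v z = -1 := mem_F.1 (h (by simp))
      have a2 : m ⬝ᵥ T.v y = -1 := mem_F.1 (h (by simp))
      have a3 := ht.dot m
      refine ⟨m, ?_, a2⟩
      rw [cl, coeff_part, if_pos (by omega)]
      exact hf.ne hm.1
  have g8 := ord_of_sub (s := M.w x z) g5.1 (by rw [g5.2]; exact g3)
  have o2 : M.X.ord (-M.al x z ^ 2) (M.D y).1 = -2 := by rw [ord_neg, ord_pow, g5.2]; rfl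
  have g10 := ord_of_sub (s := M.p x z) (neg_ne_zero.2 (pow_ne_zero 2 g5.1))
    (by rw [o2, sub_neg_eq_add]; exact g4)
  refine ⟨(B.mem _ _).2 ⟨fun E hE => B.geN E hE _, fun ρ => ?_⟩,
    (B.mem _ _).2 ⟨fun E hE => B.geN E hE _, fun ρ => ?_⟩, g3, g4, g5.1, g5.2, ps, g8.1,
    g8.2.trans g5.2, g10.1, g10.2.trans o2, ?_, ?_⟩
  · unfold om
    split_ifs with h
    · rw [neg_zero]
      rcases h with rfl | rfl
      · exact B.geD _ _ _ (Sup.add (Sup.add (lo_part hf fun u _ h => by omega)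
          (lo_part hf fun u _ h => by omega)) (lo_part hf fun u _ h => h.1))
      · have e : M.w x ρ = -M.ψ (T.cl M.f ρ x 1 0 + T.pA M.f ρ x) := by
          rw [ew, map_add, map_add]
          linear_combination s
        rw [e]
        exact neg_mem (B.geD _ _ _ (Sup.add (lo_part hf fun u _ h => by omega)
          (lo_part hf fun u _ h => by omega)))
    · exact B.geD _ _ _ (Sup.add (Sup.add (lo_part hf fun u h _ => h ρ)
        (lo_part hf fun u h _ => h ρ)) (lo_part hf fun u h _ => h ρ))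
  · unfold ka
    split_ifs with h h'
    · rw [neg_zero]
      rcases h with rfl | rfl | h | h | h
      · exact B.geD _ _ _ (gp_x hf _ _)
      · exact ps ▸ B.geD _ _ _ (gp_x hf _ _)
      · exact ps ▸ B.geD _ _ _ (gp_oz hf _ h)
      · exact B.geD _ _ _ (gp_oy hf ht h)
      · exact B.geD _ _ _ (gp_oz hf _ h)
    · exact B.geD _ _ _ (gp_all hf _ _ _)
    · rcases ((h1 T).nf y ρ).1 h' with h2 | ⟨t, h2⟩
      · exact absurd (Or.inr (Or.inr (Or.inr (Or.inl h2)))) h
      · exact B.geD _ _ _ (gp_tri hf ht h2)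
  · rw [cl, cl, ← part_or fun u h h' => by omega]
    refine part_congr fun u hu => ?_
    have a1 := hf.sup u hu x
    have a2 := hf.sup u hu z
    rw [ht.dot]
    omega
  · rw [ep]
    linear_combination (-M.al x z ^ 2) * s

end Pool.Agent.Lib.TF
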