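import Pool.Agent.Lib.TF.LBlue

open Set
open scoped Classical

noncomputable section

namespace Pool.Agent.Lib.TF

open Fano

namespace HTQB

variable {T : Fano}

lemma sumA {ρ z t : T.Ray} (h : T.Tri ρ z t) (f : T.Ray → ℝ) :
    ∑ y with T.Tri ρ z y, f y = f t := by
  rw [show (Finset.univ.filter fun y => T.Tri ρ z y) = {t} from ?_, Finset.sum_singleton]
  ext y
  simp only [Finset.mem_filter, Finset.mem_univ, true_and, Finset.mem_singleton]
  exact ⟨fun h' => h'.uniq h, fun h' => h' ▸ h⟩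

lemma sumB {ρ z u : T.Ray} (h : T.Tri u z ρ) (f : T.Ray → ℝ) :
    ∑ x with T.Tri x z ρ, f x = f u := by
  rw [show (Finset.univ.filter fun x => T.Tri x z ρ) = {u} from ?_, Finset.sum_singleton]
  ext y
  simp only [Finset.mem_filter, Finset.mem_univ, true_and, Finset.mem_singleton]
  exact ⟨fun h' => h'.uniq' h, fun h' => h' ▸ h⟩

lemma sum0 {p : T.Ray → Prop} [DecidablePred p] (h : ∀ y, ¬p y) (f : T.Ray → ℝ) :
    ∑ y with p y, f y = 0 :=
  Finset.sum_eq_zero fun y hy => absurd (Finset.mem_filter.1 hy).2 (h y)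

lemma nsmul0 {a : T.Ray} {k : ℤ} (hk : k ≠ 0) (h : k • T.v a = 0) : False :=
  T.ne a ((smul_eq_zero.1 h).resolve_left hk)

/-- No ray is a multiple of another one by two or minus two. -/
lemma not_two (C : T.C1a) {a b : T.Ray} {k : ℤ} (h1 : k ≠ 1) (h2 : k ≠ -1)
    (h : T.v a = k • T.v b) : False := by
  rcases C.prim a b k h with rfl | h'
  · exact nsmul0 (a := a) (sub_ne_zero.2 h1) (by rw [sub_smul, one_smul, ← h, sub_self])
  · refine nsmul0 (a := b) (k := k + 1) (by omega) ?_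
    rw [add_smul, one_smul, ← h, add_comm]
    exact h'

lemma not_both (C : T.C1a) {ρ z t u : T.Ray} (h : T.Tri ρ z t) (h' : T.Tri u z ρ) : False := by
  have e : T.v u + T.v t = (2 : ℤ) • T.v ρ := by
    have h1 : T.v ρ + T.v z = T.v t := h
    have h2 : T.v u + T.v z = T.v ρ := h'
    rw [← h1, two_smul, add_comm (T.v ρ) (T.v z), ← add_assoc, h2]
  have := C.mid u t ρ e
  subst this
  exact T.ne z (by simpa [Tri] using h')

lemma tp_self (C : T.C1a) (z z' : T.Ray) (a : T.Ray → ℝ) : T.Tp ℝ z z' a z = -a z' := by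
  rw [Tp_apply, sum0, sum0, if_pos (Or.inl rfl)]
  · ring
  · intro x hx
    exact T.ne x (by simpa [Tri] using hx)
  · intro y hy
    exact not_two C (k := 2) (by norm_num) (by norm_num) (by rw [two_smul]; exact Eq.symm hy)

lemma tp_comm {z z' : T.Ray} (hz : T.Opp z z') (a : T.Ray → ℝ) (ρ : T.Ray) :
    T.Tp ℝ z z' a ρ = T.Tp ℝ z' z a ρ := by
  rw [Tp_apply, Tp_apply]
  have e1 : (Finset.univ.filter fun y => T.Tri ρ z y) =
      Finset.univ.filter fun x => T.Tri x z' ρ :=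
    Finset.filter_congr fun y _ => ⟨fun h => h.opp hz, fun h => h.opp hz.symm⟩
  have e2 : (Finset.univ.filter fun x => T.Tri x z ρ) =
      Finset.univ.filter fun y => T.Tri ρ z' y :=
    Finset.filter_congr fun y _ => ⟨fun h => h.opp hz, fun h => h.opp hz.symm⟩
  rw [e1, e2, if_congr or_comm rfl rfl, add_comm (a z) (a z')]
  have e3 : ∀ s : Finset T.Ray, ∑ y ∈ s, (a ρ + a z - a y) = ∑ y ∈ s, (a z - a y + a ρ) :=
    fun s => Finset.sum_congr rfl fun _ _ => by ring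
  have e4 : ∀ s : Finset T.Ray, ∑ y ∈ s, (a z' - a y + a ρ) = ∑ y ∈ s, (a ρ + a z' - a y) :=
    fun s => Finset.sum_congr rfl fun _ _ => by ring
  rw [e3, e4]
  ring

/-- The three possible values of `b + T b` off the line. -/
lemma mu_cases (C : T.C1a) {z z' ρ : T.Ray} (h1 : ρ ≠ z) (h2 : ρ ≠ z') (b : T.Ray → ℝ) :
    (∃ t, T.Tri ρ z t ∧ (b + T.Tp ℝ z z' b) ρ = b ρ + b t + b z') ∨
    (∃ u, T.Tri u z ρ ∧ (b + T.Tp ℝ z z' b) ρ = b ρ + b u + b z) ∨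
    ((∀ t, ¬T.Tri ρ z t) ∧ (∀ u, ¬T.Tri u z ρ) ∧
      (b + T.Tp ℝ z z' b) ρ = 2 * b ρ + b z + b z') := by
  rw [Pi.add_apply, Tp_apply, if_neg (not_or.2 ⟨h1, h2⟩)]
  by_cases hA : ∃ t, T.Tri ρ z t
  · obtain ⟨t, ht⟩ := hA
    refine Or.inl ⟨t, ht, ?_⟩
    rw [sumA ht, sum0 fun u hu => not_both C ht hu]
    ring
  · push Not at hA
    by_cases hB : ∃ u, T.Tri u z ρ
    · obtain ⟨u, hu⟩ := hB
      refine Or.inr (Or.inl ⟨u, hu, ?_⟩)
      rw [sum0 hA, sumB hu]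
      ring
    · push Not at hB
      refine Or.inr (Or.inr ⟨hA, hB, ?_⟩)
      rw [sum0 hA, sum0 hB]
      ring

lemma ht_eq (C : T.C1a) (z z' : T.Ray) (h : T.Λ) (j : ℤ) (b : T.Ray → ℝ) :
    T.Ht z z' h j b = ∑ ρ, (h ρ : ℝ) * (b + T.Tp ℝ z z' b) ρ - j * (b z - b z') := by
  rw [Ht, Pi.add_apply _ _ z, tp_self C, ← sub_eq_add_neg]
  rfl

lemma ht_comm (C : T.C1a) {z z' : T.Ray} (hz : T.Opp z z') (h : T.Λ) (j : ℤ) (b : T.Ray → ℝ) :
    T.Ht z z' h j b = T.Ht z' z h (-j) b := by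
  rw [ht_eq C, ht_eq C, show T.Tp ℝ z z' b = T.Tp ℝ z' z b from funext (tp_comm hz b)]
  push_cast
  ring

lemma ht_add (z z' : T.Ray) (h : T.Λ) (j : ℤ) (a b : T.Ray → ℝ) (c : ℝ) :
    T.Ht z z' h j (a + c • b) = T.Ht z z' h j a + T.Ht z z' h j b * c := by
  simp only [Ht, map_add, map_smul, dotProduct_add, dotProduct_smul, Pi.add_apply, Pi.smul_apply,
    smul_eq_mul]
  ring

lemma no_opp (C : T.C1a) (R : T.RegN) {x s y w : T.Ray} (ht : T.Tri x s y) (hw : T.Opp y w)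
    (σ : T.Ray) : ¬T.Opp x σ := by
  intro hσ
  have h1 : T.v x + T.v s = T.v y := ht
  have h2 : T.v y + T.v w = 0 := hw
  have h3 : T.v x + T.v σ = 0 := hσ
  have h4 : T.Tri s w σ := by
    show T.v s + T.v w = T.v σ
    linear_combination h1 + h2 - h3
  have e : x = w := R s x y w σ ht.symm h4
  subst e
  refine not_two C (a := s) (b := x) (k := -2) (by norm_num) (by norm_num) ?_
  rw [neg_smul, two_smul]
  linear_combination h1 + h2

/-- The vector by which a triangle moves a class. -/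
def bq (x s y w : T.Ray) : T.Ray → ℝ := fun ρ => 3 * T.ka x s y ρ - if ρ = w then 2 else 0

lemma tq_eq (C : T.C1a) (R : T.RegN) {x s y w : T.Ray} (ht : T.Tri x s y) (hw : T.Opp y w)
    (a : T.Ray → ℝ) : T.Tq ℝ x s y w a = a + (a x + a s + a w) • bq x s y w := by
  have n1 := no_opp C R ht hw
  have n2 := no_opp C R ht.symm hw
  ext ρ
  have e : T.dq x s = 3 := by
    simp [dq, n1, n2]
  rw [Tq_apply, sum0 n1, sum0 n2, e]
  simp [bq]

lemma bq_ge0 {x s y w ρ : T.Ray} (h : ρ ≠ w) : 0 ≤ bq x s y w ρ := by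
  simp only [bq, ka, if_neg h]
  split_ifs <;> norm_num

lemma bq_ge {x s y w ρ : T.Ray} : -2 ≤ bq x s y w ρ := by
  simp only [bq, ka]
  split_ifs <;> norm_num

lemma bq_w {x s y w : T.Ray} (hw : T.Opp y w) : bq x s y w w = -2 := by
  simp [bq, ka, hw]

lemma bq_nb (C : T.C1a) (R : T.RegN) {x s y w ρ : T.Ray} (ht : T.Tri x s y) (hw : T.Opp y w)
    (h1 : ρ ≠ x) (h2 : ρ ≠ s) (h3 : T.Nb y ρ) : bq x s y w ρ = 6 := by
  have h4 : ¬T.Opp y ρ := fun h => (C.nf y ρ).2 (Or.inl h) h3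
  have h5 : ρ ≠ w := fun h => h4 (h ▸ hw)
  simp only [bq, ka, h1, h2, h3, h4, h5, no_opp C R ht hw ρ, no_opp C R ht.symm hw ρ, or_self,
    if_true, if_false]
  norm_num

lemma bq_far (C : T.C1a) (R : T.RegN) {x s y w ρ : T.Ray} (ht : T.Tri x s y) (hw : T.Opp y w)
    (h1 : ρ ≠ x) (h2 : ρ ≠ s) (h5 : ρ ≠ w) : 3 ≤ bq x s y w ρ := by
  have h4 : ¬T.Opp y ρ := fun h => h5 (h.uniq hw)
  simp only [bq, ka, h1, h2, h4, h5, no_opp C R ht hw ρ, no_opp C R ht.symm hw ρ, or_self,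
    if_false]
  split_ifs <;> norm_num

lemma vert_nb (C0 : T.C0) (C : T.C1a) {x s y : T.Ray} (ht : T.Tri x s y) :
    ∃ m : T.M, T.P m ∧ m ⬝ᵥ T.v x = -1 ∧ m ⬝ᵥ T.v y = -1 ∧ m ⬝ᵥ T.v s = 0 := by
  have hs : s ≠ y := by
    rintro rfl
    exact T.ne x (by simpa [Tri] using ht)
  obtain ⟨m, hm, hF⟩ := C.swap x s y ht {y} (C0.ray y) (by simp) (by simpa using hs)
  have h1 : m ⬝ᵥ T.v x = -1 := mem_F.1 (hF (by simp))
  have h2 : m ⬝ᵥ T.v y = -1 := mem_F.1 (hF (by simp))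
  have h3 := ht.dot m
  exact ⟨m, hm.1, h1, h2, by omega⟩

lemma sum_pos' {h : T.Λ} {g : T.Ray → ℝ} {z z' ρ₀ : T.Ray} (z0 : h z = 0) (z1 : h z' = 0)
    (pos : ∀ ρ, ρ ≠ z → ρ ≠ z' → 1 ≤ h ρ) (hg : ∀ ρ, ρ ≠ z → ρ ≠ z' → 0 ≤ g ρ)
    (h1 : ρ₀ ≠ z) (h2 : ρ₀ ≠ z') (h3 : 0 < g ρ₀) : 0 < ∑ ρ, (h ρ : ℝ) * g ρ := by
  have hp : ∀ ρ, ρ ≠ z → ρ ≠ z' → (0 : ℝ) < h ρ := fun ρ a b => by
    have := pos ρ a b
    exact_mod_cast (by omega : 0 < h ρ)
  refine Finset.sum_pos' (fun ρ _ => ?_) ⟨ρ₀, Finset.mem_univ _, mul_pos (hp _ h1 h2) h3⟩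
  by_cases a : ρ = z
  · simp [a, z0]
  by_cases b : ρ = z'
  · simp [b, z1]
  exact mul_nonneg (hp ρ a b).le (hg ρ a b)

/-- The line of the height lies in the plane of the triangle. -/
lemma caseA (C0 : T.C0) (C : T.C1a) (R : T.RegN) {x s y w : T.Ray} (ht : T.Tri x s y)
    (hw : T.Opp y w) {h : T.Λ} {j : ℤ} (z0 : h y = 0) (z1 : h w = 0)
    (pos : ∀ ρ, ρ ≠ y → ρ ≠ w → 1 ≤ h ρ) (hs : ∑ ρ, h ρ • T.v ρ = j • T.v y) :
    0 < T.Ht y w h j (bq x s y w) := by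
  have hxy : y ≠ x := by
    rintro rfl
    exact T.ne s (by simpa [Tri] using ht)
  have hsy : y ≠ s := by
    rintro rfl
    exact T.ne x (by simpa [Tri] using ht)
  have by6 : bq x s y w y = 6 := bq_nb C R ht hw hxy hsy (by simpa [Nb] using C0.ray y)
  have bw := bq_w (x := x) (s := s) hw
  obtain ⟨m₁, p₁, a₁, b₁, c₁⟩ := vert_nb C0 C ht
  obtain ⟨m₂, p₂, a₂, b₂, c₂⟩ := vert_nb C0 C ht.symm
  have key : ∀ m : T.M, m ⬝ᵥ T.v y = -1 → ∑ ρ, (h ρ : ℝ) * (m ⬝ᵥ T.v ρ : ℤ) = -j := by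
    intro m hm
    have := congrArg (fun v => m ⬝ᵥ v) hs
    simp only [dotProduct_sum, dotProduct_smul, smul_eq_mul, hm] at this
    have e : ((∑ ρ, h ρ * (m ⬝ᵥ T.v ρ) : ℤ) : ℝ) = ((j * -1 : ℤ) : ℝ) := by rw [this]
    push_cast at e
    rw [e]
    ring
  set b := bq x s y w with hb
  have e : T.Ht y w h j b = ∑ ρ, (h ρ : ℝ) * ((b + T.Tp ℝ y w b) ρ +
      4 * (m₁ ⬝ᵥ T.v ρ : ℤ) + 4 * (m₂ ⬝ᵥ T.v ρ : ℤ)) := by
    rw [ht_eq C, by6, bw]
    simp only [mul_add, Finset.sum_add_distrib, mul_left_comm _ (4 : ℝ), ← Finset.mul_sum]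
    rw [key m₁ b₁, key m₂ b₂]
    ring
  -- the two summands of the triangle
  have side : ∀ x s : T.Ray, T.Tri x s y → x ≠ w → b x = 0 → (b + T.Tp ℝ y w b) x = 4 := by
    intro x s ht hxw hbx
    have hxy : x ≠ y := by
      rintro rfl
      exact T.ne s (by simpa [Tri] using ht)
    rcases mu_cases C hxy hxw b with ⟨t, h1, -⟩ | ⟨u, h1, -⟩ | ⟨-, -, h1⟩
    · have := R x s y y t ht h1
      subst this
      exact absurd (by simpa [Tri] using ht) (T.ne x)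
    · refine absurd ?_ (no_opp C R ht.symm hw u)
      have h2 : T.v x + T.v s = T.v y := ht
      have h3 : T.v u + T.v y = T.v x := h1
      show T.v s + T.v u = 0
      linear_combination h2 + h3
    · rw [h1, hbx, by6, bw]
      norm_num
  have far : ∀ ρ, ρ ≠ y → ρ ≠ w → ρ ≠ x → ρ ≠ s → 0 < (b + T.Tp ℝ y w b) ρ +
      4 * (m₁ ⬝ᵥ T.v ρ : ℤ) + 4 * (m₂ ⬝ᵥ T.v ρ : ℤ) := by
    intro ρ h1 h2 h3 h4
    have q₁ : (-1 : ℝ) ≤ (m₁ ⬝ᵥ T.v ρ : ℤ) := by exact_mod_cast p₁ ρ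
    have q₂ : (-1 : ℝ) ≤ (m₂ ⬝ᵥ T.v ρ : ℤ) := by exact_mod_cast p₂ ρ
    rcases mu_cases C h1 h2 b with ⟨t, h5, h6⟩ | ⟨u, h5, h6⟩ | ⟨h5, -, h6⟩
    · have r₁ : (0 : ℝ) ≤ (m₁ ⬝ᵥ T.v ρ : ℤ) := by
        have := h5.dot m₁
        have := p₁ t
        exact_mod_cast (by omega : 0 ≤ m₁ ⬝ᵥ T.v ρ)
      have r₂ : (0 : ℝ) ≤ (m₂ ⬝ᵥ T.v ρ : ℤ) := by
        have := h5.dot m₂
        have := p₂ t
        exact_mod_cast (by omega : 0 ≤ m₂ ⬝ᵥ T.v ρ)
      have htw : t ≠ w := by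
        rintro rfl
        have h7 : T.v ρ + T.v y = T.v t := h5
        have h8 : T.v y + T.v t = 0 := hw
        refine not_two C (a := ρ) (b := y) (k := -2) (by norm_num) (by norm_num) ?_
        rw [neg_smul, two_smul]
        linear_combination h7 + h8
      have := bq_far C R ht hw h3 h4 h2
      have := bq_ge0 (x := x) (s := s) (y := y) htw
      rw [h6, bw]
      linarith
    · have hn : T.Nb y ρ := by
        by_contra hn
        rcases (C.nf y ρ).1 hn with h7 | ⟨t, h7⟩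
        · exact h2 (h7.uniq hw)
        · exact not_both C h7.symm h5
      have := bq_nb C R ht hw h3 h4 hn
      have := bq_ge (x := x) (s := s) (y := y) (w := w) (ρ := u)
      rw [h6, by6]
      linarith
    · have hn : T.Nb y ρ := by
        by_contra hn
        rcases (C.nf y ρ).1 hn with h7 | ⟨t, h7⟩
        · exact h2 (h7.uniq hw)
        · exact h5 t h7.symm
      have := bq_nb C R ht hw h3 h4 hn
      rw [h6, by6, bw]
      linarith
  obtain ⟨ρ₀, h₀⟩ := C.out x s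
  have v1 : T.v y = T.v x + T.v s := Eq.symm ht
  have v2 : T.v y + T.v w = 0 := hw
  have o1 : ρ₀ ≠ y := by
    rintro rfl
    exact h₀ ⟨1, 1, by simpa using v1⟩
  have o2 : ρ₀ ≠ w := by
    rintro rfl
    exact h₀ ⟨-1, -1, by simp only [neg_smul, one_smul]; linear_combination v2 - v1⟩
  have o3 : ρ₀ ≠ x := by
    rintro rfl
    exact h₀ ⟨1, 0, by simp⟩
  have o4 : ρ₀ ≠ s := by
    rintro rfl
    exact h₀ ⟨0, 1, by simp⟩
  rw [e]
  refine sum_pos' z0 z1 pos (fun ρ h1 h2 => ?_) o1 o2 (far ρ₀ o1 o2 o3 o4)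
  by_cases h3 : ρ = x
  · subst h3
    rw [side ρ s ht h2 (by simp [hb, bq, ka, h2]), a₁, c₂]
    norm_num
  by_cases h4 : ρ = s
  · subst h4
    rw [side ρ x ht.symm h2 (by simp [hb, bq, ka, h2]), a₂, c₁]
    norm_num
  exact (far ρ h1 h2 h3 h4).le

lemma vert6 (C : T.C1a) (R : T.RegN) {x s y w z z' : T.Ray} (ht : T.Tri x s y)
    (hw : T.Opp y w) (hz : T.Opp z z') (h1 : z ≠ w) (h2 : z' ≠ w) : bq x s y w z = 6 := by
  refine bq_nb C R ht hw ?_ ?_ ?_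
  · rintro rfl
    exact no_opp C R ht hw z' hz
  · rintro rfl
    exact no_opp C R ht.symm hw z' hz
  · by_contra hn
    rcases (C.nf y z).1 hn with h | ⟨t, h⟩
    · exact h1 (h.uniq hw)
    · exact h2 (R t z' y w z (h.opp hz) (h.symm.opp hw))

end HTQB

open HTQB in
theorem st_HTQ (hC0 : St_C0) (hC : St_C1A) : St_HTQ := by
  intro T R z z' h j hz B x s y w ht hw
  have C0 := hC0 T
  have C := hC T
  refine ⟨T.Ht z z' h j (bq x s y w), ?_, fun a => by rw [tq_eq C R ht hw, ht_add]⟩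
  by_cases h1 : z' = w
  · subst h1
    have e : z = y := hz.symm.uniq hw.symm
    subst e
    exact caseA C0 C R ht hw B.z0 B.z1 B.pos B.sum
  by_cases h2 : z = w
  · subst h2
    have e : z' = y := hz.uniq hw.symm
    subst e
    rw [ht_comm C hz]
    refine caseA C0 C R ht hw B.z1 B.z0 (fun ρ a b => B.pos ρ b a) ?_
    have h3 : T.v z + T.v z' = 0 := hz
    rw [B.sum, eq_neg_of_add_eq_zero_left h3, smul_neg, neg_smul]
  have b1 := vert6 C R ht hw hz h2 h1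
  have b2 := vert6 C R ht hw hz.symm h1 h2
  have key : ∀ ρ, ρ ≠ z → ρ ≠ z' → 0 < (bq x s y w + T.Tp ℝ z z' (bq x s y w)) ρ := by
    intro ρ a b
    have := bq_ge (x := x) (s := s) (y := y) (w := w) (ρ := ρ)
    rcases mu_cases C a b (bq x s y w) with ⟨t, -, h6⟩ | ⟨t, -, h6⟩ | ⟨-, -, h6⟩
    · have := bq_ge (x := x) (s := s) (y := y) (w := w) (ρ := t)
      linarith
    · have := bq_ge (x := x) (s := s) (y := y) (w := w) (ρ := t)
      linarith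
    · linarith
  rw [ht_eq C, b1, b2, sub_self, mul_zero, sub_zero]
  exact sum_pos' B.z0 B.z1 B.pos (fun ρ a b => (key ρ a b).le) (Ne.symm h2) (Ne.symm h1)
    (key w (Ne.symm h2) (Ne.symm h1))

end Pool.Agent.Lib.TF
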