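import Pool.Agent.Lib.TF.Blue

open Set Pool.Agent.Lib.MP_e39d36_ag Pool.Agent.Lib.MP_e39d36_ag.Var Pool.Agent.Lib.DU
  Pool.Agent.Lib.MV
open scoped Classical

set_option linter.unusedSectionVars false
set_option linter.unusedVariables false

noncomputable section

namespace Pool.Agent.Lib.TF

namespace IOT0B

variable {T : Fano} {K : Type} [Field K] [Algebra ℂ K]

lemma hom_mul0 {n : ℕ} {w : Fin n → ℤ} {G H : La n} (h : Hom w 0 G) (h' : Hom w 0 H) :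
    Hom w 0 (G * H) := by
  have := Hom.mul h h'
  rwa [add_zero] at this

/-- Quotients of elements of degree zero. -/
def base (M : T.Mod K) (w : T.M) (hne : ∀ H : T.R, Hom w 0 H → H ≠ 0 → M.ψ H ≠ 0) :
    Subfield K where
  carrier := {s | ∃ G H, Hom w 0 G ∧ Hom w 0 H ∧ H ≠ 0 ∧ s = M.ψ G / M.ψ H}
  mul_mem' := by
    rintro _ _ ⟨G, H, h1, h2, h3, rfl⟩ ⟨G', H', h4, h5, h6, rfl⟩
    exact ⟨G * G', H * H', hom_mul0 h1 h4, hom_mul0 h2 h5, mul_ne_zero h3 h6, by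
      rw [map_mul, map_mul, div_mul_div_comm]⟩
  one_mem' := ⟨1, 1, sup_one (by simp), sup_one (by simp), one_ne_zero, by simp⟩
  add_mem' := by
    rintro _ _ ⟨G, H, h1, h2, h3, rfl⟩ ⟨G', H', h4, h5, h6, rfl⟩
    exact ⟨G * H' + H * G', H * H', Sup.add (hom_mul0 h1 h5) (hom_mul0 h2 h4), hom_mul0 h2 h5,
      mul_ne_zero h3 h6, by
        rw [map_add, map_mul, map_mul, map_mul, div_add_div _ _ (hne H h2 h3) (hne H' h5 h6)]⟩
  zero_mem' := ⟨0, 1, Sup.zero, sup_one (by simp), one_ne_zero, by simp⟩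
  neg_mem' := by
    rintro _ ⟨G, H, h1, h2, h3, rfl⟩
    exact ⟨-G, H, Sup.neg h1, h2, h3, by rw [map_neg, neg_div]⟩
  inv_mem' := by
    rintro _ ⟨G, H, h1, h2, h3, rfl⟩
    by_cases h : G = 0
    · exact ⟨0, 1, Sup.zero, sup_one (by simp), one_ne_zero, by simp [h]⟩
    · exact ⟨H, G, h2, h1, h, by rw [inv_div]⟩

lemma mem_base (M : T.Mod K) (w : T.M) (hne : ∀ H : T.R, Hom w 0 H → H ≠ 0 → M.ψ H ≠ 0)
    {G : T.R} (h : Hom w 0 G) : M.ψ G ∈ base M w hne :=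
  ⟨G, 1, h, sup_one (by simp), one_ne_zero, by simp⟩

lemma three {n : ℕ} {w : Fin n → ℤ} {f : La n} (h : Lo w (-1) f) (h' : Lo (-w) (-1) f) :
    f = inn w 1 f + inn w 0 f + inn w (-1) f := La.ext fun u => by
  by_cases h0 : f.coeff u = 0
  · simp [coeff_part, h0]
  · have h1 := h u h0
    have h2 := h' u h0
    beta_reduce at h1 h2
    rw [dotProduct_neg] at h2
    have h3 : u ⬝ᵥ w = 1 ∨ u ⬝ᵥ w = 0 ∨ u ⬝ᵥ w = -1 := by omega
    rcases h3 with h3 | h3 | h3 <;> simp [coeff_part, h3]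

lemma not_dvd {n : ℕ} {w zs : Fin n → ℤ} {f G H : La n} (h : Lo w (-1) f) (h' : Lo (-w) (-1) f)
    (a : At w (-1) f) (a' : At (-w) (-1) f) (hz : zs ⬝ᵥ w = 1) (hG : Hom w 0 G) (hH : Hom w 0 H)
    (h0 : H ≠ 0) : ¬f ∣ mn zs * H - G := by
  rintro ⟨Q, hQ⟩
  have e1 : Hom w (1 + 0) (mn zs * H) := Hom.mul (sup_mn.2 hz) hH
  have l1 : Lo w (-1 + 1) (f * Q) :=
    hQ ▸ Sup.sub (Sup.mono e1 fun u hu => by omega) (Sup.mono hG fun u hu => by omega)
  have l2 : Lo (-w) (-1 + 0) (f * Q) :=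
    hQ ▸ Sup.sub (Sup.mono e1 fun u hu => by rw [dotProduct_neg]; omega)
      (Sup.mono hG fun u hu => by rw [dotProduct_neg]; omega)
  have q1 := Lo.cancel h a l1
  have q2 := Lo.cancel h' a' l2
  have q0 : Q = 0 := by
    by_contra hq
    obtain ⟨u, hu⟩ := ne_zero_iff.1 hq
    have h1 := q1 u hu
    have h2 := q2 u hu
    beta_reduce at h1 h2
    rw [dotProduct_neg] at h2
    omega
  rw [q0, mul_zero, sub_eq_zero] at hQ
  obtain ⟨u, hu⟩ := ne_zero_iff.1 (mul_ne_zero (mn_ne zs) h0)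
  have h1 := e1 u hu
  have h2 := hG u (hQ ▸ hu)
  beta_reduce at h1 h2
  omega

end IOT0B

open IOT0B in
theorem st_IOT0 (h0 : St_C0) (hQ : St_QUA) (hB : St_BAS) (hP : St_PS) : St_IOT0 := by
  intro T K _ _ M z z' ho
  obtain ⟨m, hm, hmz⟩ := (h0 T).ray z
  obtain ⟨zs, hzs, hmz'⟩ := (h0 T).ray z'
  have e1 : m ⬝ᵥ T.v z = -1 := Fano.mem_F.1 (hmz (Finset.mem_singleton_self z))
  have e2 : zs ⬝ᵥ T.v z' = -1 := Fano.mem_F.1 (hmz' (Finset.mem_singleton_self z'))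
  have e3 : zs ⬝ᵥ T.v z = 1 := by rw [ho.dot] at e2; omega
  have hne : ∀ H : T.R, Hom (T.v z) 0 H → H ≠ 0 → M.ψ H ≠ 0 := fun H h1 h2 =>
    (hB T K M).ne _ 0 H (T.ne z) h1 h2
  have l1 : Lo (T.v z) (-1) M.f := M.gen.lo z
  have l2 : Lo (-T.v z) (-1) M.f := Sup.mono (M.gen.lo z') fun u hu => by
    rw [ho.dot] at hu; rw [dotProduct_neg]; exact hu
  have a1 : At (T.v z) (-1) M.f := ⟨m, M.gen.ne hm.1, e1⟩
  have a2 : At (-T.v z) (-1) M.f := ⟨zs, M.gen.ne hzs.1, by rw [dotProduct_neg, e3]⟩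
  have a3 : At (T.v z) 1 M.f := ⟨zs, M.gen.ne hzs.1, e3⟩
  have hA : Hom (T.v z) 0 (inn (T.v z) 1 M.f * mn (-zs)) := by
    have : Hom (T.v z) (1 + -1) (inn (T.v z) 1 M.f * mn (-zs)) :=
      Hom.mul sup_part (sup_mn.2 (by rw [neg_dotProduct, e3]))
    simpa using this
  have hC : Hom (T.v z) 0 (inn (T.v z) (-1) M.f * mn zs) := by
    have : Hom (T.v z) (-1 + 1) (inn (T.v z) (-1) M.f * mn zs) := Hom.mul sup_part (sup_mn.2 e3)
    simpa using this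
  have hψ : ∀ G, M.ψ G ∈ Subfield.closure (insert (M.χ zs) (base M (T.v z) hne : Set K)) := by
    intro G
    rw [eq_sum G, map_sum]
    refine sum_mem fun u _ => ?_
    have e : G.coeff u • mn u =
        (G.coeff u • mn (u - (u ⬝ᵥ T.v z) • zs)) * mn ((u ⬝ᵥ T.v z) • zs) := by
      rw [smul_mul_assoc, ← mn_add, sub_add_cancel]
    rw [e, map_mul]
    refine mul_mem (Subfield.subset_closure (mem_insert_of_mem _ (mem_base M _ hne ?_))) ?_
    · refine Sup.smul (sup_mn.2 ?_) _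
      rw [sub_dotProduct, smul_dotProduct, e3, smul_eq_mul, mul_one, sub_self]
    · have := M.χ_zsmul (u ⬝ᵥ T.v z) zs
      unfold Fano.Mod0.χ at this ⊢
      rw [this]
      exact zpow_mem (Subfield.subset_closure (mem_insert _ _)) _
  have hz : M.χ (-zs) * M.χ zs = 1 := by rw [← M.χ_add, neg_add_cancel, M.χ_zero]
  have hAz : M.ψ (inn (T.v z) 1 M.f * mn (-zs)) * M.χ zs = M.ψ (inn (T.v z) 1 M.f) := by
    rw [map_mul, mul_assoc]
    exact (congrArg _ hz).trans (mul_one _)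
  obtain ⟨φ, p1, p2, p3, -, p5, -⟩ := (hQ K).1 (base M (T.v z) hne) (M.χ zs)
    (M.ψ (inn (T.v z) 1 M.f * mn (-zs))) (M.ψ (inn (T.v z) 0 M.f))
    (M.ψ (inn (T.v z) (-1) M.f * mn zs))
    (by
      rintro ⟨G, H, h1, h2, h3, h4⟩
      refine not_dvd l1 l2 a1 a2 e3 h1 h2 h3 ((M.ker _).1 ?_)
      rw [map_sub, map_mul, sub_eq_zero]
      exact (eq_div_iff (hne H h2 h3)).1 h4)
    (by
      refine eq_top_iff.2 fun s _ => ?_
      obtain ⟨G, H, -, rfl⟩ := M.pts.frac s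
      exact div_mem (hψ G) (hψ H))
    (mem_base M _ hne hA) (mem_base M _ hne sup_part) (mem_base M _ hne hC)
    (hne _ hA (mul_ne_zero (inn_ne_zero.2 a3) (mn_ne _)))
    (by
      have e : M.ψ (inn (T.v z) 1 M.f) + M.ψ (inn (T.v z) 0 M.f) + M.ψ (inn (T.v z) (-1) M.f)
          = 0 := by rw [← map_add, ← map_add, ← three l1 l2, M.ψ_f]
      have e' : M.ψ (inn (T.v z) (-1) M.f * mn zs) = M.ψ (inn (T.v z) (-1) M.f) * M.χ zs :=
        map_mul _ _ _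
      rw [e']
      linear_combination M.χ zs * hAz + M.χ zs * e)
  obtain ⟨e, he⟩ := hP T K M φ fun a => p1 _ (by
    rw [← M.ψ.commutes]
    exact mem_base M _ hne (sup_algebraMap (by simp) a))
  refine ⟨φ, e, he, fun u hu => p1 _ (mem_base M _ hne (sup_mn.2 hu)), ?_, p2, p3⟩
  rw [← hAz, map_mul, p1 _ (mem_base M _ hne hA)]
  have e' : M.ψ (inn (T.v z) (-1) M.f * mn zs) = M.ψ (inn (T.v z) (-1) M.f) * M.χ zs :=
    map_mul _ _ _
  refine mul_right_cancel₀ (M.χ_ne zs) ?_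
  rw [← e', ← p5]
  ring

end Pool.Agent.Lib.TF
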