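import Pool.Agent.Lib.TF.Blue

open Set Pool.Agent.Lib.MP_e39d36_ag Pool.Agent.Lib.MP_e39d36_ag.Var Pool.Agent.Lib.DU
  Pool.Agent.Lib.MV
open scoped Classical

noncomputable section

namespace Pool.Agent.Lib.TF

open Fano

namespace IOT1B

variable {T : Fano}

lemma tri_ne {x z y : T.Ray} (h : T.Tri x z y) : x ≠ y := by
  rintro rfl
  exact T.ne z (by simpa [Tri] using h)

/-- A summand and the sum lie in a common cone. -/
lemma face (h0 : T.C0) (h1 : T.C1) {x z y : T.Ray} (h : T.Tri x z y) :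
    ∃ m, T.V m ∧ m ⬝ᵥ T.v x = -1 ∧ m ⬝ᵥ T.v y = -1 := by
  obtain ⟨m, hm, hs⟩ := h1.swap x z y h {y} (h0.ray y) (Finset.mem_singleton_self y)
    (fun e => tri_ne h.symm (Finset.mem_singleton.1 e))
  exact ⟨m, hm, mem_F.1 (hs (by simp)), mem_F.1 (hs (by simp))⟩

lemma lat (h0 : T.C0) (h1 : T.C1) {z z' ρ s : T.Ray} (ho : T.Opp z z') (hρ : ρ ≠ z') {j : ℤ}
    (hj : 1 ≤ j) (h : T.v s = T.v ρ + j • T.v z) : T.Tri ρ z s := by
  have hd : ∀ m : T.M, m ⬝ᵥ T.v s = m ⬝ᵥ T.v ρ + j * (m ⬝ᵥ T.v z) := fun m => by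
    rw [h, dotProduct_add, dotProduct_smul, smul_eq_mul]
  have hn : ¬T.Nb ρ z := by
    rintro ⟨m, hm, hs⟩
    have e1 := mem_F.1 (hs (by simp : ρ ∈ ({ρ, z} : Finset T.Ray)))
    have e2 := mem_F.1 (hs (by simp : z ∈ ({ρ, z} : Finset T.Ray)))
    have e3 := hm.1 s
    rw [hd, e1, e2] at e3
    omega
  obtain h2 | ⟨y, hy⟩ := (h1.nf ρ z).1 hn
  · exact absurd (h2.symm.uniq ho) hρ
  obtain ⟨m, hm, e1, e2⟩ := face h0 h1 hy.symm
  have e3 := hm.1 s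
  have e4 := hy.dot m
  rw [hd, e1] at e3
  obtain rfl : j = 1 := by omega
  rw [one_smul] at h
  exact h.symm

variable {K : Type} [Field K] [Algebra ℂ K] {M : T.Mod K}

lemma img (h0 : T.C0) (h1 : T.C1) {z z' : T.Ray} (ho : T.Opp z z') {φ : RingAut K}
    {e : M.X.PD ≃ M.X.PD} (h : M.Iot z φ e) {ρ : T.Ray} (hz : ρ ≠ z) (hz' : ρ ≠ z') :
    ∃ s, e (M.D ρ) = M.D s ∧ (s = ρ ∨ T.Tri ρ z s ∨ T.Tri s z ρ) := by
  have hu : ∀ u, u ⬝ᵥ T.v z = 0 → M.X.ord (M.χ u) (e (M.D ρ)).1 = u ⬝ᵥ T.v ρ := fun u hu => by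
    rw [← (M.isD ρ).1 u, ← h.ps.2 (M.χ u) (M.D ρ), h.fix u hu]
  obtain hN | ⟨s, hs⟩ := M.tor (e (M.D ρ))
  · obtain ⟨j, hj⟩ := h1.sat1 z (T.v ρ) fun u hu' => by rw [← hu u hu', hN u]
    obtain h2 | h2 := h1.prim ρ z j hj
    · exact absurd h2 hz
    · exact absurd (h2.uniq ho) hz'
  refine ⟨s, hs, ?_⟩
  obtain ⟨j, hj⟩ := h1.sat1 z (T.v s - T.v ρ) fun u hu' => by
    rw [dotProduct_sub, ← hu u hu', hs, (M.isD s).1 u, sub_self]
  rw [sub_eq_iff_eq_add'] at hj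
  obtain h2 | rfl | h2 := lt_trichotomy j 0
  · refine Or.inr (Or.inr ((lat h0 h1 ho.symm hz (j := -j) (by omega) ?_).opp ho.symm))
    rw [hj, eq_neg_of_add_eq_zero_right ho, smul_neg, neg_smul, neg_neg]
  · exact Or.inl (T.inj (by simpa using hj))
  · exact Or.inr (Or.inl (lat h0 h1 ho hz' h2 hj))

end IOT1B

open IOT1B in
theorem st_IOT1 (hC0 : St_C0) (hC1 : St_C1) (hB : St_BAS) : St_IOT1 := by
  intro T K _ _ M z z' ho φ e h
  have h0 := hC0 T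
  have h1 := hC1 T
  have B := hB T K M
  refine ⟨fun ρ hz hz' h2 h3 => ?_, fun x y ht => ?_⟩
  · obtain ⟨s, hs, rfl | h4 | h4⟩ := img h0 h1 ho h hz hz'
    · exact hs
    · exact absurd h4 (h2 s)
    · exact absurd h4 (h3 s)
  have hn : ¬T.Nb x z := (h1.nf x z).2 (Or.inr ⟨y, ht⟩)
  have hz : x ≠ z := by
    rintro rfl
    exact hn (by simpa [Nb] using h0.ray x)
  have hz' : ¬T.Opp x z := fun h2 => T.ne y (Eq.trans (Eq.symm ht) h2)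
  obtain ⟨s, hs, rfl | h4 | h4⟩ := img h0 h1 ho h hz fun e1 => hz' (e1 ▸ ho.symm)
  · exfalso
    obtain ⟨m, hm, e1, e2⟩ := face h0 h1 (ht.opp ho).symm
    have e3 : m ⬝ᵥ T.v z = 1 := by rw [ho.dot] at e1; omega
    obtain ⟨a1, a2⟩ := B.val s (T.v z) 1 (-1) (inn (T.v z) 1 M.f)
      (fun ⟨j, hj⟩ => (h1.prim z s j hj).elim (fun e4 => hz e4.symm) hz') sup_part
      (Sup.part (M.gen.lo s)) ⟨m, by rw [coeff_part, if_pos e3]; exact M.gen.ne hm.1, e2⟩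
    have a3 : Lo (T.v s) 0 (inn (T.v z) (-1) M.f) := fun u hu => by
      have b1 : u ⬝ᵥ T.v z = -1 := sup_part u hu
      have b2 : -1 ≤ u ⬝ᵥ T.v y := Sup.part (M.gen.lo y) u hu
      have b3 := ht.dot u
      omega
    have a4 := B.geD s 0 _ a3
    rw [← h.sw, ge_iff ((map_ne_zero φ).2 a1), ← hs, h.ps.2, a2] at a4
    omega
  · rw [hs, h4.uniq ht]
  · obtain ⟨m, hm, e1, e2⟩ := face h0 h1 h4.symm
    refine absurd ⟨m, hm, fun a ha => mem_F.2 ?_⟩ hn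
    obtain rfl | rfl : a = x ∨ a = z := by simpa using ha
    exacts [e2, e1]

end Pool.Agent.Lib.TF
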