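import Pool.Agent.Lib.TF.Blue

open Set Pool.Agent.Lib.MP_e39d36_ag Pool.Agent.Lib.MP_e39d36_ag.Var Pool.Agent.Lib.DU
  Pool.Agent.Lib.MV
open scoped Classical

noncomputable section

namespace Pool.Agent.Lib.TF

open Fano

namespace IOT2B

variable {T : Fano} {z z' ρ : T.Ray}

lemma ne_of_opp (h : T.Opp z z') : z ≠ z' := by
  rintro rfl
  refine T.ne z (funext fun i => ?_)
  have := congrFun h i
  simp only [Pi.add_apply, Pi.zero_apply] at this ⊢
  omega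

lemma not_tri_right (x : T.Ray) : ¬T.Tri x z z := fun h =>
  T.ne x (add_right_cancel (Eq.trans h (zero_add _).symm))

lemma not_tri_opp (h : T.Opp ρ z) (y : T.Ray) : ¬T.Tri ρ z y := fun h' =>
  T.ne y (Eq.trans (Eq.symm h') h)

lemma not_tri_self (C : T.C1a) (y : T.Ray) : ¬T.Tri z z y := fun h => by
  rcases C.prim y z 2 (by rw [two_smul]; exact Eq.symm h) with e | e
  · exact not_tri_right z (e ▸ h)
  · refine T.ne z (funext fun i => ?_)
    have h1 := congrFun h i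
    have h2 := congrFun e i
    simp only [Pi.add_apply, Pi.zero_apply] at h1 h2 ⊢
    omega

/-- The image of a basis vector. -/
lemma Tp_single (C : T.C1a) (h : T.Opp z z') (ρ : T.Ray) :
    T.Tp ℤ z z' (Pi.single z 1) ρ = if ρ = z then 0 else if ρ = z' then -1 else
      if ∃ y, T.Tri ρ z y then 0 else 1 := by
  have hz : (Pi.single z 1 : T.Λ) z' = 0 := Pi.single_eq_of_ne (ne_of_opp h).symm _
  have h2 : ∑ x with T.Tri x z ρ, ((Pi.single z 1 : T.Λ) z' - (Pi.single z 1 : T.Λ) x +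
      (Pi.single z 1 : T.Λ) ρ) = 0 := Finset.sum_eq_zero fun x hx => by
    have hx' := (Finset.mem_filter.1 hx).2
    rw [hz, Pi.single_eq_of_ne (M := fun _ => ℤ) (fun e : x = z => not_tri_self C ρ (e ▸ hx')),
      Pi.single_eq_of_ne (M := fun _ => ℤ) (fun e : ρ = z => not_tri_right x (e ▸ hx'))]
    rfl
  rw [Tp_apply, h2, hz, Pi.single_eq_same]
  by_cases e : ρ = z
  · subst e
    rw [Finset.filter_false_of_mem fun y _ => not_tri_self C y]
    simp
  rw [if_neg e, Pi.single_eq_of_ne e]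
  by_cases e' : ρ = z'
  · subst e'
    rw [Finset.filter_false_of_mem fun y _ => not_tri_opp h.symm y]
    simp
  rw [if_neg e', if_neg (not_or.2 ⟨e, e'⟩)]
  split_ifs with h1
  · obtain ⟨y, hy⟩ := h1
    have : Finset.univ.filter (fun y => T.Tri ρ z y) = {y} := Finset.ext fun y' => by
      simpa using ⟨fun h' => h'.uniq hy, fun h' => h' ▸ hy⟩
    rw [this, Finset.sum_singleton,
      Pi.single_eq_of_ne (M := fun _ => ℤ) (fun e : y = z => not_tri_right ρ (e ▸ hy))]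
    rfl
  · rw [Finset.filter_false_of_mem fun y _ hy => h1 ⟨y, hy⟩]
    simp

lemma exists_neg (C : T.C0) (ρ : T.Ray) : ∃ u, T.P u ∧ u ⬝ᵥ T.v ρ = -1 := by
  obtain ⟨m, hm, h⟩ := C.ray ρ
  exact ⟨m, hm.1, mem_F.1 (h (Finset.mem_singleton_self ρ))⟩

lemma at_inn {f : T.R} (hf : T.Gen f) {w w' u : T.M} {k a : ℤ} (hu : T.P u) (h : u ⬝ᵥ w = k)
    (h' : u ⬝ᵥ w' = a) : At w' a (inn w k f) :=
  ⟨u, by rw [coeff_part, if_pos h]; exact hf.ne hu, h'⟩

lemma split3 {f : T.R} (hf : T.Gen f) (h : T.Opp z z') :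
    f = inn (T.v z) 1 f + inn (T.v z) 0 f + inn (T.v z) (-1) f := La.ext fun u => by
  simp only [AddMonoidAlgebra.coeff_add, Finsupp.add_apply, coeff_part]
  by_cases h0 : f.coeff u = 0
  · simp [h0]
  have h1 := hf.sup u h0 z
  have h2 := hf.sup u h0 z'
  rw [h.dot] at h2
  obtain e | e | e : u ⬝ᵥ T.v z = 1 ∨ u ⬝ᵥ T.v z = 0 ∨ u ⬝ᵥ T.v z = -1 := by omega
  all_goals simp [e]

variable {K : Type} [Field K] [Algebra ℂ K] {M : T.Mod K}

/-- Primes over the torus of the base. -/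
def Ov (M : T.Mod K) (z : T.Ray) (E : M.X.PD) : Prop :=
  ∀ u, u ⬝ᵥ T.v z = 0 → M.X.ord (M.χ u) E.1 = 0

lemma Ov.cases (C : T.C1a) (h : T.Opp z z') {E : M.X.PD} (hE : Ov M z E) :
    M.NT E ∨ E = M.D z ∨ E = M.D z' := by
  rcases M.tor E with h1 | ⟨ρ, rfl⟩
  · exact Or.inl h1
  obtain ⟨j, hj⟩ := C.sat1 z (T.v ρ) fun u hu => ((M.isD ρ).1 u).symm.trans (hE u hu)
  rcases C.prim ρ z j hj with e | e
  · exact Or.inr (Or.inl (e ▸ rfl))
  · exact Or.inr (Or.inr (e.uniq h ▸ rfl))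

lemma ov_iff {φ : RingAut K} {e : M.X.PD ≃ M.X.PD} (h : M.Iot z φ e) (E : M.X.PD) :
    Ov M z (e E) ↔ Ov M z E :=
  forall₂_congr fun u hu => by rw [← h.ps.2 (M.χ u) E, h.fix u hu]

lemma fix_hom {φ : RingAut K} {e : M.X.PD ≃ M.X.PD} (h : M.Iot z φ e) {G : T.R}
    (hG : Hom (T.v z) 0 G) : φ (M.ψ G) = M.ψ G := by
  rw [eq_sum G, map_sum, map_sum]
  refine Finset.sum_congr rfl fun u hu => ?_
  rw [map_smul, Algebra.smul_def, map_mul, h.ps.1]
  exact congrArg _ (h.fix u (hG u (Finsupp.mem_support_iff.1 hu)))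

/-- Another part of the equation does not vanish on a toric prime. -/
lemma un_part (C : T.C0) (hC : St_COPR) (hI : St_IRR) (B : M.Bas) {S : T.M → Prop}
    (h1 : ∃ u, T.P u ∧ S u) (h2 : ∀ u, u ⬝ᵥ T.v ρ = -1 → ¬S u) {w : T.M}
    (h3 : Hom (T.v ρ) 0 (part S M.f * mn w)) :
    Un (M.X.O (M.D ρ).1) (M.ψ (part S M.f * mn w)) := by
  by_contra hn
  have h4 := (ge_one_iff (ge_zero_iff.1 (B.geD ρ 0 _ h3.lo))).2 hn
  have h5 := ((M.isD ρ).2 0 _ h3.lo).1 (by simpa using h4)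
  rw [inn, part_of_sup h3, (isUnit_mn w).dvd_mul_right] at h5
  exact (hI T _ M.gen ρ).not_isUnit
    (hC T _ M.gen _ S (exists_neg C ρ) h1 h2 dvd_rfl h5)

lemma content (C : T.C0) (hN : St_TDN) (B : M.Bas) (h : T.Opp z z') {E : M.X.PD} (hE : M.NT E) :
    ∃ j ∈ ({1, 0, -1} : Finset ℤ), Un (M.X.O E.1) (M.ψ (inn (T.v z) j M.f)) := by
  by_contra hn
  push Not at hn
  have := hN T K M E hE _ (CMap.res E.1) rfl ℤ {1, 0, -1} (fun j u => u ⬝ᵥ T.v z = j)
    (fun i j hij u h1 h2 => hij (h1.symm.trans h2)) (fun j hj => ?_) ∅ fun j hj => ?_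
  · simp at this
  · simp only [Finset.mem_insert, Finset.mem_singleton] at hj
    rcases hj with rfl | rfl | rfl
    · obtain ⟨u, h1, h2⟩ := exists_neg C z'
      exact ⟨u, h1, by rw [h.dot] at h2; omega⟩
    · exact ⟨0, fun ρ => by simp, by simp⟩
    · exact exists_neg C z
  · rw [(CMap.res E.1).zero _ (ge_zero_iff.1 (B.geN E hE _)) (hn j hj)]
    exact zero_mem _

end IOT2B

open IOT2B in
theorem st_IOT2 (h0 : St_C0) (h1 : St_C1A) (hC : St_COPR) (hQ : St_QUA) (hI : St_IRR)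
    (hB : St_BAS) (hN : St_TDN) : St_IOT2 := by
  intro T K _ _ M z z' ho φ e hφ
  have C := h0 T
  have C' := h1 T
  have B := hB T K M
  obtain ⟨m, hm, hz⟩ := C.ray z
  obtain ⟨d, hd⟩ := C.dual m hm fun _ => 1
  replace hd : d ⬝ᵥ T.v z = 1 := hd z (hz (Finset.mem_singleton_self z))
  obtain ⟨u, hu, hu1⟩ := exists_neg C z
  obtain ⟨u', hu', hu1'⟩ := exists_neg C z'
  have hu2 : u' ⬝ᵥ T.v z = 1 := by rw [ho.dot] at hu1'; omega
  have hc0 : M.ψ (inn (T.v z) (-1) M.f) ≠ 0 :=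
    B.ne _ _ _ (T.ne z) sup_part (inn_ne_zero.2 ⟨u, M.gen.ne hu, hu1⟩)
  have ha0 : M.ψ (inn (T.v z) 1 M.f) ≠ 0 :=
    B.ne _ _ _ (T.ne z) sup_part (inn_ne_zero.2 ⟨u', M.gen.ne hu', hu2⟩)
  refine ⟨hc0, Finsupp.ext fun E => ?_⟩
  rw [Finsupp.add_apply, div_apply, Finsupp.single_apply]
  have hDz : Ov M z (M.D z) := fun w hw => ((M.isD z).1 w).trans hw
  by_cases hE : Ov M z E
  swap
  · obtain h2 | ⟨ρ, rfl⟩ := M.tor E
    · exact absurd (fun w _ => h2 w) hE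
    have e1 : ρ ≠ z := fun e => hE (e ▸ hDz)
    have e2 : ρ ≠ z' := fun e => hE fun w hw => by rw [(M.isD ρ).1, e, ho.dot, hw, neg_zero]
    have e3 : ¬T.Opp ρ z := fun h => e2 (h.symm.uniq ho)
    have e4 : ¬∃ j : ℤ, T.v z = j • T.v ρ := fun ⟨j, hj⟩ =>
      (C'.prim z ρ j hj).elim (fun h => e1 h.symm) e3
    rw [if_neg fun h : e (M.D z) = M.D ρ => hE (h ▸ (ov_iff hφ _).2 hDz), B.stdD,
      Tp_single C' ho, if_neg e1, if_neg e2]
    split_ifs with h2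
    · obtain ⟨y, hy⟩ := h2
      obtain ⟨n, hn, hn'⟩ := C'.swap z ρ y hy.symm {y} (C.ray y) (Finset.mem_singleton_self y)
        fun h => not_tri_right z (Finset.mem_singleton.1 h ▸ hy.symm)
      have n1 := mem_F.1 (hn' (Finset.mem_insert_self _ _))
      have n2 := mem_F.1 (hn' (Finset.mem_insert_of_mem (Finset.mem_singleton_self y)))
      rw [(B.val ρ _ (-1) 0 _ e4 sup_part (fun w hw => ?_)
        (at_inn M.gen hn.1 n1 (by have := hy.dot n; omega))).2]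
      · rfl
      · have w1 : w ⬝ᵥ T.v z = -1 := sup_part w hw
        have w2 := (Sup.part (M.gen.lo y) : Lo _ _ (inn (T.v z) (-1) M.f)) w hw
        have := hy.dot w
        beta_reduce at w2 ⊢
        omega
    · obtain ⟨n, hn, hn'⟩ : T.Nb ρ z := not_not.1 fun h => ((C'.nf ρ z).1 h).elim e3 h2
      rw [(B.val ρ _ (-1) (-1) _ e4 sup_part (Sup.part (M.gen.lo ρ)) (at_inn M.gen hn.1
        (mem_F.1 (hn' (by simp))) (mem_F.1 (hn' (by simp))))).2]
      rfl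
  have ht := M.χ_ne d
  have hA : Hom (T.v z) 0 (inn (T.v z) 1 M.f * mn (-d)) :=
    Hom.mul (a := 1) (b := -1) sup_part (sup_mn.2 (by rw [neg_dotProduct, hd]))
  have hC' : Hom (T.v z) 0 (inn (T.v z) (-1) M.f * mn d) :=
    Hom.mul (a := -1) (b := 1) sup_part (sup_mn.2 hd)
  have opp : ∀ G, Hom (T.v z) 0 G → Hom (T.v z') 0 G := fun G hG =>
    Sup.mono hG fun w hw => by rw [ho.dot, hw, neg_zero]
  have mem : ∀ G, Hom (T.v z) 0 G → M.ψ G ∈ M.X.O E.1 := fun G hG => ge_zero_iff.1 (by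
    rcases hE.cases C' ho with h | rfl | rfl
    exacts [B.geN E h G, B.geD z 0 G hG.lo, B.geD z' 0 G (opp G hG).lo])
  have ea : M.ψ (inn (T.v z) 1 M.f * mn (-d)) * M.χ d = M.ψ (inn (T.v z) 1 M.f) := by
    rw [map_mul, mul_assoc, ← Mod0.χ, ← M.χ_add, neg_add_cancel, M.χ_zero, mul_one]
  have ec : M.ψ (inn (T.v z) (-1) M.f * mn d) = M.ψ (inn (T.v z) (-1) M.f) * M.χ d := map_mul _ _ _
  have eφ : M.ψ (inn (T.v z) 1 M.f * mn (-d)) * φ (M.χ d) = M.ψ (inn (T.v z) (-1) M.f) := by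
    rw [← hφ.sw, ← ea, map_mul φ, fix_hom hφ hA]
  have es : M.ψ (inn (T.v z) 1 M.f) + M.ψ (inn (T.v z) 0 M.f) + M.ψ (inn (T.v z) (-1) M.f) = 0 := by
    rw [← map_add, ← map_add, ← split3 M.gen ho, M.ψ_f]
  have key := ((hQ K).2 M.X E (M.χ d) (φ (M.χ d)) _ (M.ψ (inn (T.v z) 0 M.f)) _ ht
    ((map_ne_zero φ).2 ht) (left_ne_zero_of_mul (ea ▸ ha0))
    (by rw [mul_add, ea, eφ]; linear_combination es)
    (by rw [mul_comm (M.χ d), ← mul_assoc, eφ, ec]) (mem _ hA) (mem _ sup_part) (mem _ hC') ?_).2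
  · have top : ∀ F, Ov M z F → max 0 (M.X.ord (M.χ d) F.1) = if F = M.D z then 1 else 0 := by
      intro F hF
      rcases hF.cases C' ho with h | rfl | rfl
      · rw [h d, if_neg fun e : F = M.D z => B.nt z (e ▸ h)]; rfl
      · rw [(M.isD z).1, hd, if_pos rfl]; rfl
      · rw [(M.isD z').1, ho.dot, hd, if_neg fun e => ne_of_opp ho (B.inj e).symm]; rfl
    have e1 : M.X.ord (φ (M.χ d)) E.1 = M.X.ord (M.χ d) (e.symm E).1 := by
      rw [← hφ.ps.2 (M.χ d), e.apply_symm_apply]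
    rw [e1, top E hE, top _ ((ov_iff hφ _).1 (by rwa [e.apply_symm_apply])), ec,
      ord_mul hc0 ht] at key
    simp only [Equiv.symm_apply_eq, eq_comm (a := E) (b := e _)] at key
    rcases hE.cases C' ho with h | rfl | rfl
    · rw [h d, if_neg fun e : E = M.D z => B.nt z (e ▸ h)] at key
      rw [B.stdN _ _ h]
      omega
    · rw [(M.isD z).1, hd, if_pos rfl] at key
      rw [B.stdD, Tp_single C' ho, if_pos rfl]
      omega
    · rw [(M.isD z').1, ho.dot, hd, if_neg fun e => ne_of_opp ho (B.inj e).symm] at key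
      rw [B.stdD, Tp_single C' ho, if_neg (ne_of_opp ho).symm, if_pos rfl]
      omega
  · rcases hE.cases C' ho with h | rfl | rfl
    · have hu : Un (M.X.O E.1) (M.χ d) := un_iff_ord.2 ⟨ht, h d⟩
      obtain ⟨j, hj, h2⟩ := content C hN B ho h
      simp only [Finset.mem_insert, Finset.mem_singleton] at hj
      rcases hj with rfl | rfl | rfl
      · exact Or.inl ((ea ▸ h2 :).of_mul (mem _ hA) hu.2.1)
      · exact Or.inr (Or.inl h2)
      · exact Or.inr (Or.inr (ec ▸ h2.mul hu))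
    · exact Or.inl (un_part C hC hI B ⟨u', hu', hu2⟩ (fun w h1 h2 => by omega) hA)
    · exact Or.inr (Or.inr (un_part C hC hI B ⟨u, hu, hu1⟩
        (fun w h1 h2 => by rw [ho.dot] at h1; omega) (opp _ hC')))

end Pool.Agent.Lib.TF
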