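import Pool.Agent.Lib.TF.Blue

open Set Pool.Agent.Lib.MP_e39d36_ag Pool.Agent.Lib.MP_e39d36_ag.Var Pool.Agent.Lib.DU
  Pool.Agent.Lib.MV
open scoped Classical

set_option linter.unusedSectionVars false
set_option linter.unusedVariables false

noncomputable section

namespace Pool.Agent.Lib.TF

open Fano

namespace IOT3B

variable {T : Fano} {z z' x y ρ : T.Ray}

lemma opp_ne (ho : T.Opp z z') : z ≠ z' := by
  rintro rfl
  refine T.ne z (funext fun i => ?_)
  have := congrFun ho i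
  simp only [Pi.add_apply, Pi.zero_apply] at this ⊢
  omega

lemma tri_iff (ho : T.Opp z z') : T.Tri x z' y ↔ T.Tri y z x :=
  ⟨fun h => h.opp ho.symm, fun h => h.opp ho⟩

lemma Tp_symm (ho : T.Opp z z') (a : T.Λ) : T.Tp ℤ z' z a = T.Tp ℤ z z' a := by
  funext ρ
  rw [Tp_apply, Tp_apply]
  simp only [tri_iff ho, or_comm (a := ρ = z')]
  have e1 : ∑ y with T.Tri y z ρ, (a ρ + a z' - a y) = ∑ y with T.Tri y z ρ, (a z' - a y + a ρ) :=
    Finset.sum_congr rfl fun _ _ => by ring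
  have e2 : ∑ y with T.Tri ρ z y, (a z - a y + a ρ) = ∑ y with T.Tri ρ z y, (a ρ + a z - a y) :=
    Finset.sum_congr rfl fun _ _ => by ring
  rw [e1, e2]
  ring

/-- Two steps in the same direction are impossible. -/
lemma no_chain (h1 : T.C1) (h : T.Tri x z ρ) (h' : T.Tri ρ z y) : False := by
  have e : x = ρ := h1.mid x y ρ (funext fun i => by
    have e1 := congrFun h i
    have e2 := congrFun h' i
    simp only [Pi.add_apply, Pi.smul_apply, smul_eq_mul] at e1 e2 ⊢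
    omega)
  subst e
  exact T.ne z (by simpa [Tri] using h)

lemma tri_ne (h1 : T.C1) (ho : T.Opp z z') (h : T.Tri x z y) : x ≠ z ∧ x ≠ z' := by
  constructor
  · rintro rfl
    rcases h1.prim y x 2 (by rw [← h, two_smul]) with e | e
    · subst e
      exact T.ne y (by simpa [Tri] using h)
    · refine T.ne x (funext fun i => ?_)
      have e1 := congrFun h i
      have e2 := congrFun e i
      simp only [Pi.add_apply, Pi.zero_apply] at e1 e2 ⊢
      omega
  · rintro rfl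
    exact T.ne y (Eq.trans (Eq.symm h) ho.symm)

variable {a : T.Λ}

lemma Tp_fst (h1 : T.C1) (h0 : a z = 0) (h0' : a z' = 0) (h : T.Tri ρ z y) :
    T.Tp ℤ z z' a ρ = a y := by
  have e1 : (Finset.univ.filter fun y => T.Tri ρ z y) = {y} := by
    ext y'
    simp only [Finset.mem_filter, Finset.mem_univ, true_and, Finset.mem_singleton]
    exact ⟨fun h' => h'.uniq h, fun e => e ▸ h⟩
  have e2 : (Finset.univ.filter fun x => T.Tri x z ρ) = ∅ :=
    Finset.filter_eq_empty_iff.2 fun x _ h' => no_chain h1 h' h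
  rw [Tp_apply, e1, e2, h0, h0']
  simp

lemma Tp_snd (h1 : T.C1) (h0 : a z = 0) (h0' : a z' = 0) (h : T.Tri x z ρ) :
    T.Tp ℤ z z' a ρ = a x := by
  have e1 : (Finset.univ.filter fun x => T.Tri x z ρ) = {x} := by
    ext x'
    simp only [Finset.mem_filter, Finset.mem_univ, true_and, Finset.mem_singleton]
    exact ⟨fun h' => h'.uniq' h, fun e => e ▸ h⟩
  have e2 : (Finset.univ.filter fun y => T.Tri ρ z y) = ∅ :=
    Finset.filter_eq_empty_iff.2 fun y _ h' => no_chain h1 h h'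
  rw [Tp_apply, e1, e2, h0, h0']
  simp

lemma Tp_non (h0 : a z = 0) (h0' : a z' = 0) (h : ∀ y, ¬T.Tri ρ z y) (h' : ∀ x, ¬T.Tri x z ρ) :
    T.Tp ℤ z z' a ρ = a ρ := by
  rw [Tp_apply, Finset.filter_eq_empty_iff.2 fun y _ => h y,
    Finset.filter_eq_empty_iff.2 fun x _ => h' x, h0, h0']
  simp

lemma Tp_tri (h1 : T.C1) (ho : T.Opp z z') (h : T.Tri x z y) :
    T.Tp ℤ z z' (Pi.single x 1) = Pi.single y 1 := by
  obtain ⟨n1, n2⟩ := tri_ne h1 ho h
  have h0 : (Pi.single x 1 : T.Λ) z = 0 := Pi.single_eq_of_ne n1.symm _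
  have h0' : (Pi.single x 1 : T.Λ) z' = 0 := Pi.single_eq_of_ne n2.symm _
  funext ρ
  by_cases c1 : ∃ y', T.Tri ρ z y'
  · obtain ⟨y', c1⟩ := c1
    rw [Tp_fst h1 h0 h0' c1, Pi.single_eq_of_ne, Pi.single_eq_of_ne]
    · rintro rfl; exact no_chain h1 h c1
    · rintro rfl; exact no_chain h1 c1 h
  by_cases c2 : ∃ x', T.Tri x' z ρ
  · obtain ⟨x', c2⟩ := c2
    rw [Tp_snd h1 h0 h0' c2]
    by_cases e : x' = x
    · subst e
      rw [c2.uniq h, Pi.single_eq_same, Pi.single_eq_same]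
    · rw [Pi.single_eq_of_ne e, Pi.single_eq_of_ne]
      rintro rfl; exact e (c2.uniq' h)
  · rw [Tp_non h0 h0' (fun y h => c1 ⟨y, h⟩) (fun x h => c2 ⟨x, h⟩), Pi.single_eq_of_ne,
      Pi.single_eq_of_ne]
    · rintro rfl; exact c2 ⟨x, h⟩
    · rintro rfl; exact c1 ⟨y, h⟩

lemma Tp_fix (h1 : T.C1) (n1 : x ≠ z) (n2 : x ≠ z') (h : ∀ y, ¬T.Tri x z y)
    (h' : ∀ y, ¬T.Tri y z x) : T.Tp ℤ z z' (Pi.single x 1) = Pi.single x 1 := by
  have h0 : (Pi.single x 1 : T.Λ) z = 0 := Pi.single_eq_of_ne n1.symm _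
  have h0' : (Pi.single x 1 : T.Λ) z' = 0 := Pi.single_eq_of_ne n2.symm _
  funext ρ
  by_cases c1 : ∃ y', T.Tri ρ z y'
  · obtain ⟨y', c1⟩ := c1
    rw [Tp_fst h1 h0 h0' c1, Pi.single_eq_of_ne, Pi.single_eq_of_ne]
    · rintro rfl; exact h _ c1
    · rintro rfl; exact h' _ c1
  by_cases c2 : ∃ x', T.Tri x' z ρ
  · obtain ⟨x', c2⟩ := c2
    rw [Tp_snd h1 h0 h0' c2, Pi.single_eq_of_ne, Pi.single_eq_of_ne]
    · rintro rfl; exact h' _ c2
    · rintro rfl; exact h _ c2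
  · rw [Tp_non h0 h0' (fun y h => c1 ⟨y, h⟩) (fun x h => c2 ⟨x, h⟩)]

variable {K : Type} [Field K] [Algebra ℂ K] (M : T.Mod K)

lemma std_single (ρ : T.Ray) : M.std (Pi.single ρ 1) = Finsupp.single (M.D ρ) 1 := by
  change ∑ σ, Finsupp.single (M.D σ) ((Pi.single ρ 1 : T.Λ) σ) = _
  rw [Finset.sum_eq_single ρ (fun σ _ h => by rw [Pi.single_eq_of_ne h, Finsupp.single_zero])
    (fun h => absurd (Finset.mem_univ _) h), Pi.single_eq_same]

lemma push_single (e : M.X.PD ≃ M.X.PD) (E : M.X.PD) :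
    End.push e (Finsupp.single E 1) = Finsupp.single (e E) 1 := Finsupp.ext fun E' => by
  rw [End.push_apply, Finsupp.single_apply, Finsupp.single_apply]
  simp only [Equiv.eq_symm_apply]

lemma dv_zpow (s : K) (m : ℤ) : M.X.div (s ^ m) = m • M.X.div s :=
  Finsupp.ext fun E => ord_zpow s m E

end IOT3B

open IOT3B in
theorem st_IOT3 (hC1 : St_C1) (hI1 : St_IOT1) (hI2 : St_IOT2) : St_IOT3 := by
  intro T K _ _ M z z' ho φ e h a
  have h1 := hC1 T
  obtain ⟨c0, c1⟩ := hI2 T K M z z' ho φ e h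
  obtain ⟨a0, a1⟩ := hI2 T K M z' z ho.symm φ e (h.symm ho)
  have e2 : inn (T.v z') (-1) M.f = inn (T.v z) 1 M.f :=
    part_congr fun u _ => by rw [ho.dot]; omega
  rw [e2] at a0 a1
  rw [Tp_symm ho] at a1
  obtain ⟨i1, i2⟩ := hI1 T K M z z' ho φ e h
  have i3 := (hI1 T K M z' z ho.symm φ e (h.symm ho)).2
  have n := opp_ne ho
  rw [End.div_mul (zpow_ne_zero _ c0) (zpow_ne_zero _ a0), dv_zpow, dv_zpow]
  have key : ∀ ρ, End.push e (M.std (Pi.single ρ 1)) = M.std (T.Tp ℤ z z' (Pi.single ρ 1)) +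
      ((Pi.single ρ 1 : T.Λ) z • M.X.div (M.ψ (inn (T.v z) (-1) M.f)) +
        (Pi.single ρ 1 : T.Λ) z' • M.X.div (M.ψ (inn (T.v z) 1 M.f))) := fun ρ => by
    rw [std_single, push_single]
    by_cases r1 : ρ = z
    · subst r1
      rw [c1, Pi.single_eq_same, Pi.single_eq_of_ne n.symm, one_smul, zero_smul, add_zero]
    by_cases r2 : ρ = z'
    · subst r2
      rw [a1, Pi.single_eq_same, Pi.single_eq_of_ne n, one_smul, zero_smul, zero_add]
    rw [Pi.single_eq_of_ne (Ne.symm r1), Pi.single_eq_of_ne (Ne.symm r2), zero_smul, zero_smul,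
      add_zero, add_zero]
    by_cases t1 : ∃ y, T.Tri ρ z y
    · obtain ⟨y, t1⟩ := t1
      rw [i2 _ _ t1, Tp_tri h1 ho t1, std_single]
    by_cases t2 : ∃ x, T.Tri x z ρ
    · obtain ⟨x, t2⟩ := t2
      rw [i3 _ _ (t2.opp ho), ← Tp_symm ho, Tp_tri h1 ho.symm (t2.opp ho), std_single]
    · rw [i1 ρ r1 r2 (fun y h => t1 ⟨y, h⟩) (fun x h => t2 ⟨x, h⟩),
        Tp_fix h1 r1 r2 (fun y h => t1 ⟨y, h⟩) (fun x h => t2 ⟨x, h⟩), std_single]
  induction a using Pi.single_induction with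
  | zero => simp
  | add a b ha hb =>
    simp only [map_add, Pi.add_apply, add_smul, ha, hb]
    abel
  | single ρ m =>
    have e1 : (Pi.single ρ m : T.Λ) = m • Pi.single ρ 1 := by
      rw [← Pi.single_smul, smul_eq_mul, mul_one]
    rw [e1, map_zsmul, map_zsmul, key, map_zsmul, map_zsmul]
    simp only [Pi.smul_apply, smul_eq_mul, smul_add, mul_smul]

end Pool.Agent.Lib.TF
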