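import Pool.Agent.Lib.TF.Blue

open Set Pool.Agent.Lib.MP_e39d36_ag Pool.Agent.Lib.MP_e39d36_ag.Var Pool.Agent.Lib.DU
  Pool.Agent.Lib.MV
open scoped Classical NNReal

noncomputable section

namespace Pool.Agent.Lib.TF

open Fano

namespace IRRB

theorem part_ld {n : ℕ} (S : (Fin n → ℤ) → Prop) (w : Fin n → ℤ) (G : La n) :
    part S (ld w G) = ld w (part S G) := La.ext fun u => by
  by_cases h : S u <;> simp [coeff_part, h]

theorem lo_sum {n : ℕ} {g h : La n} {w : Fin n → ℤ} {k : ℤ} (h1 : Lo w k (g * h))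
    (h2 : At w k (g * h)) : ∃ a b, a + b = k ∧ Lo w a g ∧ Lo w b h := by
  have h0 : g * h ≠ 0 := ne_zero_iff.2 (h2.imp fun _ h => h.1)
  obtain ⟨a, a1, a2⟩ := exists_lo (left_ne_zero_of_mul h0) w
  obtain ⟨b, b1, b2⟩ := exists_lo (right_ne_zero_of_mul h0) w
  obtain ⟨u, e1, e2⟩ := At.mul a1 b1 a2 b2
  obtain ⟨u', e3, e4⟩ := h2
  have e5 := h1 u e1
  have e6 := Lo.mul a1 b1 u' e3
  beta_reduce at e5 e6
  exact ⟨a, b, by omega, a1, b1⟩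

variable {T : Fano} {f : T.R} {ρ : T.Ray}

theorem coeff_ne (hf : T.Gen f) {u : T.M} (hu : T.P u) (h : u ⬝ᵥ T.v ρ = -1) :
    (T.fr f ρ).coeff u ≠ 0 := by
  rw [coeff_part, if_pos h]
  exact hf.ne hu

theorem not_unit (hMON : St_MON) (h0 : T.C0) (hf : T.Gen f) : ¬IsUnit (T.fr f ρ) := by
  intro h
  obtain ⟨u, c, -, e⟩ := ((hMON T.n).1 _).1 h
  have h1 : ∀ u', T.P u' → u' ⬝ᵥ T.v ρ = -1 → u = u' := fun u' a b => by
    have h2 := coeff_ne hf a b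
    rw [e] at h2
    by_contra h3
    exact h2 (by simp [coeff_mn, h3])
  have h2 : ∀ w : T.M, ∃ j : ℤ, w = j • T.v ρ := fun w => by
    by_contra h3
    obtain ⟨u₁, u₂, a1, a2, b1, b2, h4⟩ := h0.two ρ w h3
    exact h4 (by rw [← h1 u₁ a1 b1, ← h1 u₂ a2 b2])
  have hn := T.dim
  obtain ⟨i, hi⟩ := h2 (Pi.single ⟨0, by omega⟩ 1)
  obtain ⟨j, hj⟩ := h2 (Pi.single ⟨1, by omega⟩ 1)
  have e1 := congrFun hi ⟨0, by omega⟩
  have e2 := congrFun hi ⟨1, by omega⟩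
  have e3 := congrFun hj ⟨1, by omega⟩
  simp at e1 e2 e3
  rcases e2 with e2 | e2
  · simp [e2] at e1
  · simp [e2] at e3

theorem split (hJAC : St_JAC) (hf : T.Gen f) {g h : T.R} (e : T.fr f ρ = g * h) {m : T.M}
    (hm : T.V m) (hρ : ρ ∈ T.F m) :
    ∃ x : T.R, (Hom (T.v ρ) 0 x ∧ x ∈ T.S 0 (T.F m)) ∧ h ∣ x ∧ g ∣ 1 - x := by
  obtain ⟨G₀, G, g0, g1, hJ⟩ := hJAC T f hf m hm
  have c0 : (g * h).coeff m ≠ 0 := e ▸ coeff_ne hf hm.1 (mem_F.1 hρ)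
  have h0 : g * h ≠ 0 := ne_zero_iff.2 ⟨m, c0⟩
  have hH : Hom (T.v ρ) (-1) (g * h) := e ▸ sup_part
  obtain ⟨a, ha⟩ := Hom.of_mul h0 hH
  have hb : Hom (T.v ρ) (-1 - a) h :=
    ha.cancel (left_ne_zero_of_mul h0) (by rwa [add_sub_cancel])
  have h1 := congrArg (inn (T.v ρ) (1 + -1)) hJ
  rw [inn, inn, part_add, part_sum, part_of_sup (G := 1) (sup_one (by simp))] at h1
  have h2 : part (fun u => u ⬝ᵥ T.v ρ = 1 + -1) (G₀ * f) = inn (T.v ρ) 1 G₀ * (g * h) :=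
    e ▸ inn_mul (by simpa using g0 ρ hρ) (hf.lo ρ)
  have h3 : ∀ s, part (fun u => u ⬝ᵥ T.v ρ = 1 + -1) (G s * ld (T.v s) f) =
      inn (T.v ρ) 1 (G s) * (g * ld (T.v s) h + ld (T.v s) g * h) := fun s => by
    rw [← ld_mul, ← e, ← part_ld]
    exact inn_mul (by simpa using g1 s ρ hρ) (Sup.ld (hf.lo ρ) _)
  simp only [h2, h3] at h1
  refine ⟨h * ∑ s ∈ T.F m, inn (T.v ρ) 1 (G s) * ld (T.v s) g, ⟨?_, fun t ht => ?_⟩,
    dvd_mul_right _ _, inn (T.v ρ) 1 G₀ * h + ∑ s ∈ T.F m, inn (T.v ρ) 1 (G s) * ld (T.v s) h, ?_⟩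
  · have h4 := Hom.mul hb (Sup.sum (s := T.F m) fun s _ =>
      Hom.mul (G := inn (T.v ρ) 1 (G s)) sup_part (Sup.ld ha (T.v s)))
    rwa [show -1 - a + (1 + a) = 0 by ring] at h4
  · obtain ⟨a', b', e1, a1, b1⟩ := lo_sum (w := T.v t) (k := -1) (e ▸ Sup.part (hf.lo t))
      ⟨m, c0, mem_F.1 ht⟩
    have h4 := Lo.mul b1 (Sup.sum (s := T.F m) fun s _ =>
      Lo.mul (G := inn (T.v ρ) 1 (G s)) (Sup.part (g1 s t ht)) (Sup.ld a1 (T.v s)))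
    exact h4.le (by simp; omega)
  · rw [← h1, mul_add, Finset.mul_sum, Finset.mul_sum, add_sub_assoc, ← Finset.sum_sub_distrib]
    congr 1
    · ring
    · exact Finset.sum_congr rfl fun s _ => by ring

end IRRB

theorem st_IRR (hC0 : St_C0) (hUFD : St_UFD) (hMON : St_MON) (hJAC : St_JAC) (hCONN : St_CONN) :
    St_IRR := by
  intro T f hf ρ
  have := hUFD ℂ T.n
  refine UniqueFactorizationMonoid.irreducible_iff_prime.1
    ⟨IRRB.not_unit hMON (hC0 T) hf, fun g h e => ?_⟩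
  have h1 : ∀ m, ∃ x : T.R, T.V m → ρ ∈ T.F m →
      (Hom (T.v ρ) 0 x ∧ x ∈ T.S 0 (T.F m)) ∧ h ∣ x ∧ g ∣ 1 - x := fun m => by
    by_cases hm : T.V m ∧ ρ ∈ T.F m
    · exact (IRRB.split hJAC hf e hm.1 hm.2).imp fun _ h _ _ => h
    · exact ⟨0, fun a b => absurd ⟨a, b⟩ hm⟩
  choose x hx using h1
  obtain ⟨m, hm, hρ⟩ := (hC0 T).ray ρ
  have hρ' := Finset.singleton_subset_iff.1 hρ
  obtain ⟨-, ⟨y, hy⟩, ⟨z, hz⟩⟩ := hx m hm hρ'
  have hc : IsCoprime g h := ⟨z, y, by rw [mul_comm z, mul_comm y, ← hy, ← hz, sub_add_cancel]⟩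
  obtain ⟨c, h2⟩ := hCONN T f hf ρ x (fun m a b => (hx m a b).1) fun m m' a a' b b' => by
    rw [e]
    refine hc.mul_dvd ?_ (dvd_sub (hx m a b).2.1 (hx m' a' b').2.1)
    have h3 := dvd_sub (hx m' a' b').2.2 (hx m a b).2.2
    rwa [sub_sub_sub_cancel_left] at h3
  have h3 := h2 m hm hρ'
  rw [e] at h3
  by_cases h4 : c = 0
  · rw [h4, map_zero, sub_zero] at h3
    have h5 := dvd_add ((dvd_mul_right g h).trans h3) (hx m hm hρ').2.2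
    rw [add_sub_cancel] at h5
    exact Or.inl (isUnit_of_dvd_one h5)
  · have h5 := dvd_sub (hx m hm hρ').2.1 ((dvd_mul_left h g).trans h3)
    rw [sub_sub_cancel] at h5
    exact Or.inr (isUnit_of_dvd_unit h5 ((Ne.isUnit h4).map _))

end Pool.Agent.Lib.TF
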