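import Pool.Agent.Lib.TF.Blue

/-! The logarithmic Jacobian criterion. -/

open Set
open scoped Classical

set_option linter.unusedSectionVars false
set_option linter.unusedVariables false

noncomputable section

namespace Pool.Agent.Lib.TF

open Fano

namespace JACB

variable {T : Fano}

/-- The combinations of the equation and its logarithmic derivatives. -/
def idl (f : T.R) (m : T.M) : Ideal (T.S0 (T.F m)) where
  carrier := {x | ∃ (G₀ : T.R) (G : T.Ray → T.R), G₀ ∈ T.S (-1) (T.F m) ∧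
    (∀ ρ, G ρ ∈ T.S (-1) (T.F m)) ∧ G₀ * f + ∑ ρ ∈ T.F m, G ρ * ld (T.v ρ) f = x.1}
  zero_mem' := ⟨0, 0, zero_mem _, fun _ => zero_mem _, by simp⟩
  add_mem' := by
    rintro x y ⟨a, b, h1, h2, h3⟩ ⟨a', b', h1', h2', h3'⟩
    refine ⟨a + a', b + b', add_mem h1 h1', fun ρ => add_mem (h2 ρ) (h2' ρ), ?_⟩
    simp only [Pi.add_apply, add_mul, Finset.sum_add_distrib, Subalgebra.coe_add, ← h3, ← h3']
    ring
  smul_mem' := by
    rintro c x ⟨a, b, h1, h2, h3⟩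
    have k : ∀ G ∈ T.S (-1) (T.F m), c.1 * G ∈ T.S (-1) (T.F m) := fun G hG => by
      simpa using S_mul (a := 0) c.2 hG
    refine ⟨c.1 * a, fun ρ => c.1 * b ρ, k _ h1, fun ρ => k _ (h2 ρ), ?_⟩
    simp only [smul_eq_mul, Subalgebra.coe_mul, ← h3, mul_add, Finset.mul_sum, mul_assoc]

theorem mn_mem {m u : T.M} (h : ∀ ρ ∈ T.F m, 0 ≤ u ⬝ᵥ T.v ρ) : mn u ∈ T.S0 (T.F m) :=
  fun ρ hρ => sup_mn.2 (by simpa using h ρ hρ)

theorem neg_mem_S (m : T.M) : mn (-m) ∈ T.S (-1) (T.F m) := fun ρ hρ => sup_mn.2 (by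
  rw [mem_F] at hρ
  simp [hρ])

theorem sub_ok {m u : T.M} (hu : T.P u) : ∀ ρ ∈ T.F m, 0 ≤ (u - m) ⬝ᵥ T.v ρ := fun ρ hρ => by
  rw [mem_F] at hρ
  have := hu ρ
  rw [sub_dotProduct]
  omega

theorem expand [Fintype {u // T.P u}] {G : T.R} (h : Sup T.P G) (m : T.M) :
    mn (-m) * G = ∑ u : {u // T.P u}, G.coeff u • mn (u.1 - m) := by
  have e : G = ∑ u : {u // T.P u}, G.coeff u • mn u.1 := by
    rw [← Finset.sum_subtype (Finset.univ.image (Subtype.val : {u // T.P u} → T.M)) (by simp)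
      fun u => G.coeff u • mn u]
    refine (eq_sum G).trans (Finset.sum_subset (fun u hu => ?_) fun u _ hu => ?_)
    · simpa using h u (Finsupp.mem_support_iff.1 hu)
    · rw [Finsupp.notMem_support_iff.1 hu, zero_smul]
  conv_lhs => rw [e]
  rw [Finset.mul_sum]
  refine Finset.sum_congr rfl fun u _ => ?_
  rw [mul_smul_comm, ← mn_add, neg_add_eq_sub]

theorem solve {J F : Type} [Fintype J] [Field F] (L : Subfield F) (t : J → F) (j : J)
    (h : ∑ u, t u = 0) (k : ∀ u, u ≠ j → t u ∈ L) : t j ∈ L := by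
  rw [← Finset.add_sum_erase _ _ (Finset.mem_univ j)] at h
  rw [eq_neg_of_add_eq_zero_left h]
  exact neg_mem (sum_mem fun u hu => k u (Finset.ne_of_mem_erase hu))

/-- The values of the monomials. -/
def ev {m : T.M} {F : Type} [Field F] [Algebra ℂ F] (φ : T.S0 (T.F m) →ₐ[ℂ] F) (u : T.M) : F :=
  if h : mn u ∈ T.S0 (T.F m) then φ ⟨mn u, h⟩ else 0

section ev

variable {m : T.M} {F : Type} [Field F] [Algebra ℂ F] (φ : T.S0 (T.F m) →ₐ[ℂ] F)

theorem ev_zero : ev φ 0 = 1 := by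
  rw [ev, dif_pos (mn_mem (by simp))]
  exact map_one φ

theorem ev_add {u u' : T.M} (h : ∀ ρ ∈ T.F m, 0 ≤ u ⬝ᵥ T.v ρ) (h' : ∀ ρ ∈ T.F m, 0 ≤ u' ⬝ᵥ T.v ρ) :
    ev φ (u + u') = ev φ u * ev φ u' := by
  rw [ev, ev, ev, dif_pos (mn_mem h), dif_pos (mn_mem h'), dif_pos (mn_mem fun ρ hρ => by
    rw [add_dotProduct]; exact add_nonneg (h ρ hρ) (h' ρ hρ)), ← map_mul]
  exact congrArg φ (Subtype.ext (mn_add u u'))

theorem ev_mem (L : Subfield F) (D : Set T.M) (h1 : ∀ u ∈ D, ∀ ρ ∈ T.F m, 0 ≤ u ⬝ᵥ T.v ρ)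
    (h2 : ∀ u ∈ D, ev φ u ∈ L) {u : T.M} (hu : u ∈ AddSubmonoid.closure D) :
    (∀ ρ ∈ T.F m, 0 ≤ u ⬝ᵥ T.v ρ) ∧ ev φ u ∈ L := by
  induction hu using AddSubmonoid.closure_induction with
  | mem u hu => exact ⟨h1 u hu, h2 u hu⟩
  | zero => exact ⟨by simp, ev_zero φ ▸ one_mem L⟩
  | add u u' _ _ a b =>
    exact ⟨fun ρ hρ => by rw [add_dotProduct]; exact add_nonneg (a.1 ρ hρ) (b.1 ρ hρ),
      ev_add φ a.1 b.1 ▸ mul_mem a.2 b.2⟩

theorem ev_sum [Fintype {u // T.P u}] {G : T.R} (h : Sup T.P G) (x : T.S0 (T.F m))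
    (hx : mn (-m) * G = x.1) :
    φ x = ∑ u : {u // T.P u}, algebraMap ℂ F (G.coeff u) * ev φ (u.1 - m) := by
  have e : x = ∑ u : {u // T.P u}, G.coeff u • (⟨mn (u.1 - m), mn_mem (sub_ok u.2)⟩ :
      T.S0 (T.F m)) := Subtype.ext (by rw [← hx, expand h]; simp)
  rw [e, map_sum]
  refine Finset.sum_congr rfl fun u _ => ?_
  rw [map_smul, Algebra.smul_def, ev, dif_pos (mn_mem (sub_ok u.2))]

end ev

theorem mul_mem0 {m : T.M} {G : T.R} (h : Sup T.P G) : mn (-m) * G ∈ T.S0 (T.F m) :=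
  fun ρ hρ => Sup.mul (S := fun u => u = -m) (sup_mn.2 rfl) h fun u u' h1 h2 => by
    have := sub_ok (m := m) h2 ρ hρ
    rw [h1, neg_add_eq_sub]
    simpa using this

end JACB

theorem st_JAC (hC : St_C0) (hT : St_TD0) : St_JAC := by
  intro T f hf m hm
  have C := hC T
  by_contra hne
  have hI : JACB.idl f m ≠ ⊤ := fun h => hne ((Ideal.eq_top_iff_one _).1 h)
  obtain ⟨𝔪, h𝔪, hle⟩ := Ideal.exists_le_maximal _ hI
  let _ : Field (T.S0 (T.F m) ⧸ 𝔪) := Ideal.Quotient.field 𝔪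
  generalize hφ : Ideal.Quotient.mkₐ ℂ 𝔪 = φ
  have hk : ∀ x ∈ JACB.idl f m, φ x = 0 := fun x hx => by
    rw [← hφ]
    exact Ideal.Quotient.eq_zero_iff_mem.2 (hle hx)
  clear hφ
  have : Fintype {u // T.P u} := C.fin.fintype
  have R0 : ∑ u : {u // T.P u}, algebraMap ℂ _ (f.coeff u) * JACB.ev φ (u.1 - m) = 0 := by
    rw [← JACB.ev_sum φ hf.sup ⟨_, JACB.mul_mem0 hf.sup⟩ rfl]
    exact hk _ ⟨mn (-m), 0, JACB.neg_mem_S m, fun _ => zero_mem _, by simp⟩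
  have R1 : ∀ ρ ∈ T.F m, ∑ u : {u // T.P u},
      ((u.1 ⬝ᵥ T.v ρ + 1 : ℤ) : T.S0 (T.F m) ⧸ 𝔪) *
        (algebraMap ℂ _ (f.coeff u) * JACB.ev φ (u.1 - m)) = 0 := by
    intro ρ hρ
    have h1 := JACB.ev_sum φ (hf.sup.ld (T.v ρ)) ⟨_, JACB.mul_mem0 (hf.sup.ld (T.v ρ))⟩ rfl
    rw [hk _ ⟨0, Pi.single ρ (mn (-m)), zero_mem _, fun σ => by
      rw [Pi.single_apply]
      split_ifs
      exacts [JACB.neg_mem_S m, zero_mem _], by
        simp [Pi.single_apply, ite_mul, Finset.sum_ite_eq', hρ, -mem_F]⟩] at h1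
    simp only [coeff_ld, map_mul, map_intCast, mul_assoc] at h1
    simp only [Int.cast_add, Int.cast_one, add_mul, one_mul, Finset.sum_add_distrib, ← h1, R0,
      add_zero]
  choose d hd using fun ρ : T.Ray => C.dual m hm (Pi.single ρ 1)
  have hP : ∀ ρ : {ρ // ρ ∈ T.F m}, T.P (m + d ρ) := fun ρ =>
    C.edge m hm ρ ρ.2 _ (by rw [add_dotProduct, hd _ _ ρ.2, mem_F.1 ρ.2]; simp) fun σ hσ h => by
      rw [add_dotProduct, hd _ _ hσ, mem_F.1 hσ, Pi.single_eq_of_ne h, add_zero]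
  let j : {ρ // ρ ∈ T.F m} → {u // T.P u} := fun ρ => ⟨m + d ρ, hP ρ⟩
  let j0 : {u // T.P u} := ⟨m, hm.1⟩
  have hj : ∀ ρ σ : {ρ // ρ ∈ T.F m}, (j ρ).1 ⬝ᵥ T.v σ + 1 = if σ = ρ then 1 else 0 := by
    intro ρ σ
    change (m + d ρ) ⬝ᵥ T.v σ + 1 = _
    rw [add_dotProduct, hd _ _ σ.2, mem_F.1 σ.2]
    split_ifs with h
    · rw [h, Pi.single_eq_same]
      rfl
    · rw [Pi.single_eq_of_ne fun h1 => h (Subtype.ext h1)]
      rfl
  have hj0 : ∀ σ : {ρ // ρ ∈ T.F m}, j0.1 ⬝ᵥ T.v σ + 1 = 0 := fun σ => by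
    change m ⬝ᵥ T.v σ + 1 = _
    rw [mem_F.1 σ.2]
    rfl
  have hinj : Function.Injective j := fun ρ σ h => by
    have h1 := hj ρ ρ
    rw [h, hj, if_pos rfl] at h1
    by_contra h2
    simp [h2] at h1
  have hn0 : ∀ ρ, j ρ ≠ j0 := fun ρ h => by
    have h1 := hj ρ ρ
    rw [h, hj0] at h1
    simp at h1
  let A : Finset {ρ // ρ ∈ T.F m} := Finset.univ.filter fun ρ => JACB.ev φ (d ρ) ≠ 0
  let L := Subfield.closure ((fun u : {u // T.P u} => algebraMap ℂ (T.S0 (T.F m) ⧸ 𝔪) (f.coeff u))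
    '' {u | u ∉ insert j0 (A.image j)} ∪ ↑(A.image fun ρ : {ρ // ρ ∈ T.F m} => JACB.ev φ (d ρ)))
  have hdL : ∀ ρ : {ρ // ρ ∈ T.F m}, JACB.ev φ (d ρ) ∈ L := fun ρ => by
    by_cases h : JACB.ev φ (d ρ) = 0
    · rw [h]
      exact zero_mem _
    · exact Subfield.subset_closure (Or.inr (Finset.mem_coe.2
        (Finset.mem_image_of_mem _ (Finset.mem_filter.2 ⟨Finset.mem_univ _, h⟩))))
  have heL : ∀ u : {u // T.P u}, JACB.ev φ (u.1 - m) ∈ L := fun u => by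
    refine (JACB.ev_mem φ L (range fun ρ : {ρ // ρ ∈ T.F m} => d ρ) ?_ ?_ ?_).2
    · rintro _ ⟨ρ, rfl⟩ σ hσ
      rw [hd _ _ hσ, Pi.single_apply]
      split_ifs <;> simp
    · rintro _ ⟨ρ, rfl⟩
      exact hdL ρ
    · have e : u.1 - m = ∑ ρ : {ρ // ρ ∈ T.F m}, ((u.1 - m) ⬝ᵥ T.v ρ).toNat • d ρ := by
        refine sub_eq_zero.1 (C.ext m hm _ fun σ hσ => ?_)
        rw [sub_dotProduct _ _ (T.v σ), sum_dotProduct, Finset.sum_eq_single ⟨σ, hσ⟩, sub_eq_zero]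
        · rw [smul_dotProduct, hd _ _ hσ, Pi.single_eq_same, nsmul_one,
            Int.toNat_of_nonneg (JACB.sub_ok u.2 σ hσ)]
        · intro ρ _ h
          rw [smul_dotProduct, hd _ _ hσ, Pi.single_eq_of_ne fun h1 => h (Subtype.ext h1.symm),
            smul_zero]
        · simp
      rw [e]
      exact sum_mem fun ρ _ => nsmul_mem (AddSubmonoid.subset_closure (mem_range_self ρ)) _
  have hout : ∀ u : {u // T.P u}, u ∉ insert j0 (A.image j) →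
      algebraMap ℂ (T.S0 (T.F m) ⧸ 𝔪) (f.coeff u) ∈ L := fun u hu =>
    Subfield.subset_closure (Or.inl ⟨u, hu, rfl⟩)
  have hA : ∀ ρ ∈ A, algebraMap ℂ (T.S0 (T.F m) ⧸ 𝔪) (f.coeff (j ρ)) ∈ L := by
    intro ρ hρ
    have h1 := JACB.solve L _ (j ρ) (R1 ρ ρ.2) fun u hu => by
      by_cases h : u ∈ insert j0 (A.image j)
      · have : u.1 ⬝ᵥ T.v ρ + 1 = 0 := by
          rcases Finset.mem_insert.1 h with rfl | h
          · exact hj0 ρ
          · obtain ⟨σ, -, rfl⟩ := Finset.mem_image.1 h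
            rw [hj, if_neg fun h2 : ρ = σ => hu (h2 ▸ rfl)]
        rw [this, Int.cast_zero, zero_mul]
        exact zero_mem _
      · exact mul_mem (intCast_mem _ _) (mul_mem (hout u h) (heL u))
    have h2 : (j ρ).1 - m = d ρ := add_sub_cancel_left _ _
    rw [hj, if_pos rfl, Int.cast_one, one_mul, h2] at h1
    have h3 := mul_mem h1 (inv_mem (hdL ρ))
    rwa [mul_inv_cancel_right₀ (Finset.mem_filter.1 hρ).2] at h3
  have h0 : algebraMap ℂ (T.S0 (T.F m) ⧸ 𝔪) (f.coeff j0) ∈ L := by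
    have h1 := JACB.solve L _ j0 R0 fun u hu => mul_mem (by
      by_cases h : u ∈ insert j0 (A.image j)
      · obtain ⟨σ, h2, rfl⟩ := Finset.mem_image.1 ((Finset.mem_insert.1 h).resolve_left hu)
        exact hA σ h2
      · exact hout u h) (heL u)
    rwa [show j0.1 - m = 0 from sub_self _, JACB.ev_zero, mul_one] at h1
  have key := hT (T.S0 (T.F m) ⧸ 𝔪) _ _ hf.ind (insert j0 (A.image j))
    (A.image fun ρ : {ρ // ρ ∈ T.F m} => JACB.ev φ (d ρ)) Empty (fun i => i.elim) (algebraicIndependent_empty_type_iff.2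
      (algebraMap ℂ _).injective) (fun u hu => by
        rcases Finset.mem_insert.1 hu with rfl | h
        · exact h0
        · obtain ⟨σ, h2, rfl⟩ := Finset.mem_image.1 h
          exact hA σ h2) fun i => i.elim
  rw [Finset.card_insert_of_notMem (by simpa using fun ρ _ _ => hn0 _),
    Finset.card_image_of_injective _ hinj] at key
  have := Finset.card_image_le (s := A) (f := fun ρ : {ρ // ρ ∈ T.F m} => JACB.ev φ (d ρ))
  omega

end Pool.Agent.Lib.TF
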