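import Pool.Agent.Lib.TF.Blue
import Pool.Agent.Lib.MV.B_ETA

open Set Pool.Agent.Lib.MP_e39d36_ag Pool.Agent.Lib.MP_e39d36_ag.Var Pool.Agent.Lib.DU
  Pool.Agent.Lib.MV
open scoped Classical

set_option linter.unusedSectionVars false
set_option linter.unusedVariables false

noncomputable section

namespace Pool.Agent.Lib.TF

open Fano

namespace LEFB

lemma cb_pair {V A : Type} [LinearOrder V] [AddCommGroup A] {m m' : V} (h : m < m')
    (c : Finset V → A) : cb c {m, m'} = c {m'} - c {m} := by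
  have h1 : sg m {m, m'} = 1 := by
    rw [sg, Finset.filter_eq_empty_iff.2, Finset.card_empty, pow_zero]
    intro x hx
    rcases Finset.mem_insert.1 hx with rfl | hx
    · exact lt_irrefl _
    · rw [Finset.mem_singleton.1 hx]
      exact h.not_gt
  have h2 : sg m' {m, m'} = -1 := by
    rw [sg, Finset.filter_insert, if_pos h, Finset.filter_singleton, if_neg (lt_irrefl _)]
    simp
  have h3 : ({m, m'} : Finset V).erase m = {m'} :=
    Finset.erase_insert (by simpa using h.ne)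
  have h4 : ({m, m'} : Finset V).erase m' = {m} := by
    rw [Finset.pair_comm]
    exact Finset.erase_insert (by simpa using h.ne')
  rw [cb, Finset.sum_pair h.ne, h1, h2, h3, h4, one_smul, neg_one_smul, sub_eq_add_neg]

lemma pair_of_card {V : Type} [LinearOrder V] {s : Finset V} (h : s.card = 2) :
    ∃ m m', m < m' ∧ s = {m, m'} := by
  obtain ⟨x, y, hxy, rfl⟩ := Finset.card_eq_two.1 h
  rcases lt_or_gt_of_ne hxy with h1 | h1
  · exact ⟨x, y, h1, rfl⟩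
  · exact ⟨y, x, h1, Finset.pair_comm _ _⟩

lemma glue {V A : Type} [LinearOrder V] [AddCommGroup A] {W : Finset V}
    {N : Finset V → AddSubgroup A} (h : Ex W N 2) (η : V → A)
    (hη : ∀ s m m', m ∈ s → m' ∈ s → η m - η m' ∈ N s) :
    ∃ b : V → A, (∀ m, b m ∈ N {m}) ∧ ∀ m ∈ W, ∀ m' ∈ W, η m - b m = η m' - b m' := by
  obtain ⟨b, hb, hb'⟩ := h (fun s => if s.card = 2 then cb (fun t => ∑ m ∈ t, η m) s else 0)
    (fun s => by
      split_ifs with h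
      · obtain ⟨m, m', h1, rfl⟩ := pair_of_card h
        rw [cb_pair h1, Finset.sum_singleton, Finset.sum_singleton]
        exact hη _ _ _ (by simp) (by simp)
      · exact zero_mem _)
    (fun s _ h => by
      rw [cb_congr (c' := cb fun t => ∑ m ∈ t, η m) fun t ht =>
        if_pos (by rw [Finset.card_erase_of_mem ht, h]), cb_cb])
  have k : ∀ m ∈ W, ∀ m' ∈ W, m < m' → η m - b {m} = η m' - b {m'} := fun m hm m' hm' h => by
    have := hb' {m, m'} (Finset.insert_subset hm (Finset.singleton_subset_iff.2 hm'))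
      (Finset.card_pair h.ne)
    simp only [Finset.card_pair h.ne, if_true, cb_pair h, Finset.sum_singleton] at this
    rw [sub_eq_sub_iff_sub_eq_sub, ← neg_sub, this, neg_sub]
  refine ⟨fun m => b {m}, fun m => hb _, fun m hm m' hm' => ?_⟩
  rcases lt_trichotomy m m' with h | rfl | h
  · exact k m hm m' hm' h
  · rfl
  · exact (k m' hm' m hm h).symm

variable {T : Fano} {K : Type} [Field K] [Algebra ℂ K]

lemma B_anti (M : T.Mod0 K) {τ τ' : Finset T.Ray} (h : τ ⊆ τ') : M.B τ' ≤ M.B τ := by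
  intro s hs
  obtain ⟨G, hG, rfl⟩ := M.mem_B.1 hs
  exact M.mem_B.2 ⟨G, fun ρ hρ => hG ρ (h hρ), rfl⟩

lemma fc_sub {s : Finset T.Vx} {m : T.Vx} (h : m ∈ s) : T.fc s ⊆ T.F m.1 := fun ρ hρ =>
  (Finset.mem_filter.1 hρ).2 m h

lemma fc_one (m : T.Vx) : T.fc {m} = T.F m.1 := by
  ext ρ
  simp [fc]

lemma pr_mem {S : Subring K} {g : Fin T.n → K} (h : ∀ i, g i ∈ S) (w : T.M) :
    Mod0.pr g w ∈ S := sum_mem fun i _ => mul_mem (intCast_mem S _) (h i)

lemma pr_sub (g g' : Fin T.n → K) (w : T.M) :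
    Mod0.pr (g - g') w = Mod0.pr g w - Mod0.pr g' w := by
  simp only [Mod0.pr, Pi.sub_apply, mul_sub, Finset.sum_sub_distrib]

end LEFB

open LEFB in
theorem st_LEF (C0 : St_C0) (CONN : St_CONN) (BAS : St_BAS) (FRM : St_FRM) (NY : St_NY) :
    St_LEF := by
  intro T K _ _ M W
  have hC := C0 T
  have hB := BAS T K M
  obtain ⟨F1, F2, -, F4⟩ := FRM T K M
  have H := fun (τ : Finset T.Ray) (hτ : T.Face τ) =>
    st_eta K M.X (M.B τ) (M.pts.pt τ hτ) (M.pts.loc τ hτ) ((T.S0 τ).map M.ψ).algebraMap_mem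
  choose η hη using fun m : T.Vx => (H (T.F m.1) ⟨m.1, m.2, subset_rfl⟩).1 W (M.sm.fac W)
  have hd : ∀ (m m' : T.Vx) (τ : Finset T.Ray), τ ⊆ T.F m.1 → τ ⊆ T.F m'.1 →
      η m - η m' ∈ frm (M.B τ) := fun m m' τ h1 h2 =>
    (H τ ⟨m.1, m.2, h1⟩).2 _ fun z hz => by
      obtain ⟨f, hf⟩ := M.sm.fac W z
      have := sub_mem (hη m z ((B_anti M.toMod0 h1).trans hz) f hf)
        (hη m' z ((B_anti M.toMod0 h2).trans hz) f hf)
      rwa [sub_sub_sub_cancel_right] at this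
  obtain ⟨b, hb, hb'⟩ := glue (NY T K M) η fun s m m' h h' => by
    rw [Mod0.Om, if_neg (Finset.ne_empty_of_mem h)]
    obtain ⟨g, k2, -, k3⟩ := F1 _ ⟨m.1, m.2, fc_sub h⟩ _ (hd m m' _ (fc_sub h) (fc_sub h'))
    exact ⟨g, fun i _ => k2 i, k3⟩
  have hg : ∀ m : T.Vx, ∃ g : Fin T.n → K, (∀ i, g i ∈ M.B (T.F m.1)) ∧ M.β g = b m := by
    intro m
    have := hb m
    rw [Mod0.Om, if_neg (Finset.singleton_ne_empty _), fc_one] at this
    obtain ⟨g, k1, k2⟩ := this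
    exact ⟨g, fun i => k1 i trivial, k2⟩
  choose g hg1 hg2 using hg
  have he : ∀ m m' : T.Vx, η m - M.β (g m) = η m' - M.β (g m') := fun m m' => by
    rw [hg2, hg2]
    exact hb' m (hC.mem_W.2 (Finset.empty_subset _)) m' (hC.mem_W.2 (Finset.empty_subset _))
  have hc : ∀ ρ : T.Ray, ∃ c : ℂ, ∀ m : T.Vx, ρ ∈ T.F m.1 →
      Mod0.pr (g m) (T.v ρ) - algebraMap ℂ K c ∈ ordGe (M.D ρ) 1 := by
    intro ρ
    have k0 : ∀ m : T.M, ∃ G : T.R, ∀ h : T.V m,
        G ∈ T.S 0 (T.F m) ∧ M.ψ G = Mod0.pr (g ⟨m, h⟩) (T.v ρ) := fun m => by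
      by_cases h : T.V m
      · obtain ⟨G, k1, k2⟩ := M.mem_B.1 (pr_mem (hg1 ⟨m, h⟩) (T.v ρ))
        exact ⟨G, fun _ => ⟨k1, k2⟩⟩
      · exact ⟨0, fun h' => absurd h' h⟩
    choose G hG using k0
    have k1 : ∀ m (h : T.V m), ρ ∈ T.F m → Lo (T.v ρ) 0 (G m) := fun m h hρ => by
      simpa using (hG m h).1 ρ hρ
    obtain ⟨c, hc⟩ := CONN T M.f M.gen ρ (fun m => inn (T.v ρ) 0 (G m))
      (fun m h hρ => ⟨sup_part, fun σ hσ => Sup.part ((hG m h).1 σ hσ)⟩)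
      (fun m m' h h' hρ hρ' => by
        have s1 : {ρ} ⊆ T.F m := Finset.singleton_subset_iff.2 hρ
        have s2 : {ρ} ⊆ T.F m' := Finset.singleton_subset_iff.2 hρ'
        have k2 := F4 {ρ} ⟨m, h, s1⟩ (g ⟨m, h⟩ - g ⟨m', h'⟩)
          (fun i => sub_mem (B_anti M.toMod0 s1 (hg1 ⟨m, h⟩ i))
            (B_anti M.toMod0 s2 (hg1 ⟨m', h'⟩ i)))
          (by
            rw [map_sub, ← sub_eq_sub_iff_sub_eq_sub.1 (he ⟨m, h⟩ ⟨m', h'⟩)]
            exact hd ⟨m, h⟩ ⟨m', h'⟩ _ s1 s2) ρ (Finset.mem_singleton_self ρ)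
        rw [pr_sub, ← (hG m h).2, ← (hG m' h').2, ← map_sub] at k2
        have k3 := ((M.isD ρ).2 0 _ (Sup.sub (k1 m h hρ) (k1 m' h' hρ'))).1
          (by rwa [zero_add])
        rwa [inn, part_sub] at k3)
    refine ⟨c, fun m hρ => ?_⟩
    have k4 := ((M.isD ρ).2 0 (G m.1 - algebraMap ℂ T.R c)
      (Sup.sub (k1 m.1 m.2 hρ) (sup_algebraMap (by simp) c))).2 (by
        rw [inn, part_sub, part_of_sup (sup_algebraMap (by simp) c)]
        exact hc m.1 m.2 hρ)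
    rwa [zero_add, map_sub, (hG m.1 m.2).2, AlgHom.commutes] at k4
  choose c hc using hc
  obtain ⟨m₀, h₀, -⟩ := hC.cov 0
  refine ⟨c, η ⟨m₀, h₀⟩ - M.β (g ⟨m₀, h₀⟩), fun E π hπ => ?_⟩
  obtain ⟨m, hm, hE⟩ := M.chart E.1
  obtain ⟨f, hf⟩ := M.sm.fac W E.1
  have k1 := hη ⟨m, hm⟩ _ hE.1 f hf
  have k2 := Log.dlog_loc hπ hf.1
  have k3 := F2 E (g ⟨m, hm⟩) fun i => hE.1 (hg1 ⟨m, hm⟩ i)
  have k4 : M.β (g ⟨m, hm⟩) - cmb c (fun ρ => Finsupp.single (M.D ρ) 1) E • dlog π ∈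
      frm (M.X.O E.1) := by
    rcases M.tor E with h | ⟨ρ, rfl⟩
    · have e : cmb c (fun ρ => Finsupp.single (M.D ρ) 1) E = 0 :=
        Finset.sum_eq_zero fun ρ _ => by
          rw [Finsupp.single_eq_of_ne (fun e : E = M.D ρ => hB.nt ρ (e ▸ h)), Int.cast_zero, mul_zero]
      rw [e, zero_smul, sub_zero]
      exact k3.1 h
    · have e : cmb c (fun σ => Finsupp.single (M.D σ) 1) (M.D ρ) = c ρ := by
        rw [cmb, Finset.sum_eq_single ρ, Finsupp.single_eq_same, Int.cast_one, mul_one]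
        · intro σ _ hσ
          rw [Finsupp.single_eq_of_ne (hB.inj.ne hσ.symm), Int.cast_zero, mul_zero]
        · simp
      rw [e]
      exact k3.2 ρ (c ρ) rfl (hc ρ ⟨m, hm⟩ ((hB.leD _ ⟨m, hm, subset_rfl⟩ ρ).1 hE.1)) π hπ
  have k5 := sub_mem (add_mem k1 k2) k4
  rw [he _ ⟨m, hm⟩, sub_smul, hf.eq le_rfl]
  refine (congrArg (· ∈ frm (M.X.O E.1)) ?_).mp k5
  abel

end Pool.Agent.Lib.TF
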