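import Pool.Agent.Lib.TF.Blue

open Set Pool.Agent.Lib.MP_e39d36_ag Pool.Agent.Lib.MP_e39d36_ag.Var Pool.Agent.Lib.DU
  Pool.Agent.Lib.MV
open scoped Classical NNReal

noncomputable section

namespace Pool.Agent.Lib.TF

open Fano

namespace LINB0

variable {T : Fano} {K : Type} [Field K] [Algebra ℂ K] {M : T.Mod K}

/-- The ideal of a prime divisor that meets the torus. -/
def pI (B : M.Bas) {E : M.X.PD} (hE : M.NT E) : Ideal T.R where
  carrier := {G | M.ψ G ∈ ordGe E 1}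
  zero_mem' := by
    show M.ψ 0 ∈ ordGe E 1
    rw [map_zero]; exact zero_mem _
  add_mem' := fun {a b} (ha : M.ψ a ∈ ordGe E 1) (hb : M.ψ b ∈ ordGe E 1) => by
    show M.ψ (a + b) ∈ ordGe E 1
    rw [map_add]; exact add_mem ha hb
  smul_mem' := fun c a (ha : M.ψ a ∈ ordGe E 1) => by
    show M.ψ (c * a) ∈ ordGe E 1
    rw [map_mul]
    simpa using ge_mul (B.geN E hE c) ha

lemma mem_pI (B : M.Bas) {E : M.X.PD} (hE : M.NT E) {G : T.R} :
    G ∈ pI B hE ↔ M.ψ G ∈ ordGe E 1 := Iff.rfl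

lemma pI_prime (B : M.Bas) {E : M.X.PD} (hE : M.NT E) : (pI B hE).IsPrime := by
  refine ⟨(Ideal.ne_top_iff_one _).2 fun h => ?_, fun {a b} h => ?_⟩
  · rw [mem_pI, map_one, ge_iff one_ne_zero] at h
    simp [ord_val] at h
  · rw [mem_pI, mem_pI]
    by_cases ha : M.ψ a = 0
    · exact Or.inl (Or.inl ha)
    by_cases hb : M.ψ b = 0
    · exact Or.inr (Or.inl hb)
    rw [mem_pI, map_mul, ge_iff (mul_ne_zero ha hb), ord_mul ha hb] at h
    have h1 := (ge_iff ha).1 (B.geN E hE a)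
    have h2 := (ge_iff hb).1 (B.geN E hE b)
    rw [ge_iff ha, ge_iff hb]
    omega

lemma exists_mem (B : M.Bas) {E : M.X.PD} (hE : M.NT E) : ∃ x ∈ pI B hE, M.ψ x ≠ 0 := by
  obtain ⟨π, h0, hπ⟩ := MP_e39d36_ag.exists_unif (isV E).1
  rw [← ord_val] at hπ
  obtain ⟨G, H, hH, e⟩ := M.pts.frac π
  have e' : M.ψ G = π * M.ψ H := by rw [e, div_mul_cancel₀ _ hH]
  refine ⟨G, ?_, e' ▸ mul_ne_zero h0 hH⟩
  rw [mem_pI, e']
  simpa using ge_mul (hπ ▸ ge_ord π E) (B.geN E hE H)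

end LINB0

open LINB0 in
theorem st_LIN (hA : St_LINA) (hO : St_ORB) (hB : St_BAS) (hG : St_GAL) (hN : St_GALN)
    (hL : St_LINB) : St_LIN := by
  intro T K _ _ M
  have B := hB T K M
  obtain ⟨k, kf, kalg, hk⟩ := hA T M.f M.gen
  refine ⟨k, kf, fun E hE => ?_⟩
  obtain ⟨x, hx, hx0⟩ := exists_mem B hE
  obtain ⟨S, hxS, hS, hy⟩ := hO T.n k kalg x
  have hy0 : M.ψ (∏ x' ∈ S, x') ≠ 0 := by
    rw [map_prod]
    refine Finset.prod_ne_zero_iff.2 fun x' hx' => ?_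
    obtain ⟨g, hg, rfl⟩ := hS x' hx'
    obtain ⟨φ, e, h1, -⟩ := hG T K M g (kf.cg hg)
    rw [← h1]
    exact (map_ne_zero φ).2 hx0
  obtain ⟨h, hp, kh, hf, hpr⟩ := hk (pI B hE) (pI_prime B hE)
    ((mem_pI B hE).2 (Or.inl M.ψ_f))
    ⟨_, Ideal.mem_of_dvd _ (Finset.dvd_prod_of_mem (fun x' => x') hxS) hx, hy,
      fun hd => hy0 ((M.ker _).2 hd)⟩
  have hs : M.ψ h ≠ 0 := fun e => hf ((M.ker _).1 e)
  set a : T.Λ := fun ρ => -M.X.ord (M.ψ h) (M.D ρ).1 with ha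
  set W := M.std a + M.X.div (M.ψ h) with hW
  have WD : ∀ ρ, W (M.D ρ) = 0 := fun ρ => by
    rw [hW, Finsupp.add_apply, B.stdD, div_apply, ha]
    exact neg_add_cancel _
  have WN : ∀ E', M.NT E' → W E' = M.X.ord (M.ψ h) E'.1 := fun E' h' => by
    rw [hW, Finsupp.add_apply, B.stdN a E' h', div_apply, zero_add]
  have W0 : ∀ E', 0 ≤ W E' := fun E' => by
    rcases M.tor E' with h' | ⟨ρ, rfl⟩
    · rw [WN E' h']
      exact (ge_iff hs).1 (B.geN E' h' h)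
    · rw [WD]
  have WE : 1 ≤ W E := by
    rw [WN E hE]
    exact (ge_iff hs).1 hp
  have key : ∀ E', W E' ≠ 0 → M.NT E' ∧
      M.nc (Finsupp.single E' 1) = M.nc (Finsupp.single E 1) ∧
      ∀ G, Ink k G → M.X.ord (M.ψ G) E'.1 = M.X.ord (M.ψ G) E.1 := fun E' h0 => by
    have h' : M.NT E' := (M.tor E').resolve_right fun ⟨ρ, e⟩ => h0 (e ▸ WD ρ)
    have h1 : M.ψ h ∈ ordGe E' 1 := by
      rw [ge_iff hs, ← WN E' h']
      have := W0 E'
      omega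
    obtain ⟨g, φ, e, g1, g2, g3, rfl⟩ := hL T K M k kf kalg h kh hs hpr E E' hE h' hp h1
    refine ⟨h', hN T K M g φ e g2 g3 E, fun G hG => ?_⟩
    rw [← g3 (M.ψ G) E, g2, hG.cg g1]
  have hsum : 1 ≤ ∑ E' ∈ W.support, W E' :=
    WE.trans (Finset.single_le_sum (f := fun E' => W E') (fun E' _ => W0 E')
      (Finsupp.mem_support_iff.2 (by omega)))
  refine ⟨(∑ E' ∈ W.support, W E').toNat, a, M.ψ h, by omega, hs, fun E' => W0 E', ?_,
    fun E' h0 => ⟨(key E' h0).1, (key E' h0).2.2⟩⟩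
  rw [← End.LE.nc_eq M.Γ M.sm.fac (D := W) ⟨_, hs, rfl⟩, ← natCast_zsmul,
    Int.toNat_of_nonneg (by omega), Finset.sum_smul]
  conv_lhs => rw [← Finsupp.sum_single W, Finsupp.sum, map_sum]
  refine Finset.sum_congr rfl fun E' hE' => ?_
  rw [← (key E' (Finsupp.mem_support_iff.1 hE')).2.1, ← map_zsmul, Finsupp.smul_single_one]

end Pool.Agent.Lib.TF
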