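import Pool.Agent.Lib.TF.Blue

open Set Polynomial
open scoped Classical

set_option linter.unusedSectionVars false
set_option linter.unusedVariables false

noncomputable section

namespace Pool.Agent.Lib.TF

open Fano

namespace LINAB

variable {n : ℕ}

/-- A linear map applied to all coefficients. -/
def pj {k : Subfield ℂ} (l : ℂ →ₗ[k] k) (G : La n) : La n :=
  AddMonoidAlgebra.map ((k.subtype : k →+ ℂ).comp l.toAddMonoidHom) G

lemma coeff_pj {k : Subfield ℂ} (l : ℂ →ₗ[k] k) (G : La n) (u : Fin n → ℤ) :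
    (pj l G).coeff u = (l (G.coeff u) : ℂ) := by
  simp [pj]

lemma ink_pj {k : Subfield ℂ} (l : ℂ →ₗ[k] k) (G : La n) : Ink k (pj l G) := fun u => by
  rw [coeff_pj]; exact (l _).2

lemma pj_add {k : Subfield ℂ} (l : ℂ →ₗ[k] k) (G H : La n) : pj l (G + H) = pj l G + pj l H :=
  La.ext fun u => by simp [coeff_pj]

lemma pj_sum {k : Subfield ℂ} (l : ℂ →ₗ[k] k) {ι : Type} (s : Finset ι) (G : ι → La n) :
    pj l (∑ i ∈ s, G i) = ∑ i ∈ s, pj l (G i) := by
  induction s using Finset.induction_on with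
  | empty => exact La.ext fun u => by simp [coeff_pj]
  | insert i s hi ih => rw [Finset.sum_insert hi, Finset.sum_insert hi, pj_add, ih]

lemma pj_mul {k : Subfield ℂ} (l : ℂ →ₗ[k] k) {y : La n} (hy : Ink k y) (G : La n) :
    pj l (y * G) = y * pj l G := by
  rw [eq_sum y, Finset.sum_mul, Finset.sum_mul, pj_sum]
  refine Finset.sum_congr rfl fun v _ => La.ext fun u => ?_
  rw [smul_mul_assoc, smul_mul_assoc, mul_comm (mn v), mul_comm (mn v), coeff_pj]
  simp only [AddMonoidAlgebra.coeff_smul, Finsupp.smul_apply, coeff_mul_mn, coeff_pj, smul_eq_mul]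
  have e : y.coeff v * G.coeff (u - v) = (⟨_, hy v⟩ : k) • G.coeff (u - v) := rfl
  rw [e, map_smul]
  rfl

lemma Dvm_pj {k : Subfield ℂ} (l : ℂ →ₗ[k] k) {f h y : La n} (hf : Ink k f) (hh : Ink k h)
    (hy : Ink k y) {z : La n} (hz : Dvm f h (y * z)) :
    ∃ w Q, Ink k w ∧ Ink k Q ∧ y * pj l z = h * w + f * Q := by
  obtain ⟨w, Q, e⟩ := hz
  refine ⟨pj l w, pj l Q, ink_pj l w, ink_pj l Q, ?_⟩
  rw [← pj_mul l hy, e, pj_add, pj_mul l hh, pj_mul l hf]

lemma exists_pj_one (k : Subfield ℂ) : ∃ l : ℂ →ₗ[k] k, pj l (1 : La n) = 1 := by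
  obtain ⟨l, hl⟩ := (Algebra.linearMap k ℂ).exists_leftInverse_of_injective
    (LinearMap.ker_eq_bot.2 (algebraMap k ℂ).injective)
  have h1 : l 1 = 1 := by simpa using LinearMap.congr_fun hl 1
  refine ⟨l, La.ext fun u => ?_⟩
  rw [coeff_pj, ← mn_zero, coeff_mn]
  split_ifs <;> simp [h1]

lemma Dvm_of_pj {k : Subfield ℂ} {f h z : La n} (hz : ∀ l : ℂ →ₗ[k] k, Dvm f h (pj l z)) :
    Dvm f h z := by
  let b := Module.Basis.ofVectorSpace k ℂ
  let S := z.coeff.support.biUnion fun u => (b.repr (z.coeff u)).support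
  have e : z = ∑ i ∈ S, (b i : ℂ) • pj (b.coord i) z := by
    refine La.ext fun u => ?_
    simp only [AddMonoidAlgebra.coeff_sum, Finsupp.finsetSum_apply, AddMonoidAlgebra.coeff_smul,
      Finsupp.smul_apply, coeff_pj, smul_eq_mul, Module.Basis.coord_apply]
    have hs : (b.repr (z.coeff u)).support ⊆ S := by
      by_cases h0 : z.coeff u = 0
      · simp [h0]
      · exact Finset.subset_biUnion_of_mem (fun u => (b.repr (z.coeff u)).support)
          (Finsupp.mem_support_iff.2 h0)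
    conv_lhs => rw [← b.linearCombination_repr (z.coeff u), Finsupp.linearCombination_apply,
      Finsupp.sum_of_support_subset _ hs (fun i a => a • b i) (fun _ _ => zero_smul _ _)]
    exact Finset.sum_congr rfl fun i _ => mul_comm _ _
  choose w Q hw using hz
  refine ⟨∑ i ∈ S, (b i : ℂ) • w (b.coord i), ∑ i ∈ S, (b i : ℂ) • Q (b.coord i), ?_⟩
  rw [Finset.mul_sum, Finset.mul_sum, ← Finset.sum_add_distrib]
  conv_lhs => rw [e]
  refine Finset.sum_congr rfl fun i _ => ?_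
  rw [hw, smul_add, mul_smul_comm, mul_smul_comm]

/-- Laurent polynomials over the small field. -/
abbrev Lk (k : Subfield ℂ) (n : ℕ) : Type := AddMonoidAlgebra k (Fin n → ℤ)

/-- The inclusion. -/
def jj (k : Subfield ℂ) (n : ℕ) : Lk k n →+* La n := AddMonoidAlgebra.mapRingHom _ k.subtype

lemma coeff_jj {k : Subfield ℂ} (g : Lk k n) (u : Fin n → ℤ) :
    (jj k n g).coeff u = (g.coeff u : ℂ) := AddMonoidAlgebra.coeff_mapRingHom _ _ _

lemma jj_surj {k : Subfield ℂ} {G : La n} (h : Ink k G) : ∃ g, jj k n g = G := by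
  refine ⟨.ofCoeff (Finsupp.onFinset G.coeff.support (fun u => ⟨G.coeff u, h u⟩) fun u hu =>
    Finsupp.mem_support_iff.2 fun h0 => hu (Subtype.ext h0)), La.ext fun u => ?_⟩
  rw [coeff_jj]
  rfl

/-- Substitution of the transcendental number. -/
def Th (k : Subfield ℂ) (n : ℕ) (t : ℂ) : (Lk k n)[X] →+* La n :=
  eval₂RingHom (jj k n) (algebraMap ℂ (La n) t)

variable {k : Subfield ℂ} {t : ℂ}

@[simp] lemma Th_C (g : Lk k n) : Th k n t (C g) = jj k n g := by simp [Th]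

@[simp] lemma Th_X : Th k n t X = algebraMap ℂ (La n) t := by simp [Th]

lemma Th_inj (ht : Transcendental k t) : Function.Injective (Th k n t) := by
  refine (injective_iff_map_eq_zero _).2 fun p hp => ?_
  have key : ∀ u, (∑ i ∈ p.support, monomial i ((p.coeff i).coeff u) : k[X]) = 0 := by
    intro u
    refine (transcendental_iff.1 ht) _ ?_
    have h1 := congrArg (fun G : La n => G.coeff u) hp
    simp only [Th, coe_eval₂RingHom, eval₂_eq_sum, Polynomial.sum, ← map_pow,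
      AddMonoidAlgebra.coeff_sum, Finsupp.finsetSum_apply, mul_comm (jj k n _),
      ← Algebra.smul_def, AddMonoidAlgebra.coeff_smul, Finsupp.smul_apply, coeff_jj,
      smul_eq_mul] at h1
    rw [map_sum]
    refine Eq.trans (Finset.sum_congr rfl fun i _ => ?_) h1
    rw [aeval_monomial, mul_comm]
    rfl
  ext i u
  have h2 := congrArg (fun q : k[X] => q.coeff i) (key u)
  simp only [finsetSum_coeff, coeff_monomial, Finset.sum_ite_eq', coeff_zero] at h2
  split_ifs at h2 with h3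
  · simp [h2]
  · simp [notMem_support_iff.1 h3]

lemma Th_mod (g : Lk k n) (p : (Lk k n)[X]) :
    Th k n t (X + C g) ∣ Th k n t p - jj k n (p.eval (-g)) := by
  have h := map_dvd (Th k n t) (X_sub_C_dvd_sub_C_eval (a := -g) (p := p))
  rwa [map_neg, sub_neg_eq_add, map_sub, Th_C] at h

/-- Fractions with a unit as denominator. -/
def Rep (k : Subfield ℂ) (t : ℂ) (y : La n) : Prop :=
  ∃ s p : (Lk k n)[X], IsUnit (Th k n t s) ∧ Th k n t s * y = Th k n t p

lemma Rep.add {y z : La n} (h : Rep k t y) (h' : Rep k t z) : Rep k t (y + z) := by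
  obtain ⟨s, p, h1, h2⟩ := h
  obtain ⟨s', p', h3, h4⟩ := h'
  refine ⟨s * s', p * s' + s * p', by rw [map_mul]; exact h1.mul h3, ?_⟩
  simp only [map_mul, map_add, ← h2, ← h4]
  ring

lemma rep_const {c : ℂ} (hc : c ∈ Subring.closure (insert t (k : Set ℂ))) :
    ∃ p, Th k n t p = algebraMap ℂ (La n) c := by
  have h : Subring.closure (insert t (k : Set ℂ)) ≤
      (Th k n t).range.comap (algebraMap ℂ (La n)) := by
    refine Subring.closure_le.2 ?_
    rintro c (rfl | hc)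
    · exact ⟨X, Th_X⟩
    · refine ⟨C (.single 0 ⟨c, hc⟩), ?_⟩
      rw [Th_C, jj, AddMonoidAlgebra.mapRingHom_single]
      rfl
  exact h hc

lemma rep_of_ink {y : La n} (hy : Ink (Subfield.closure (insert t (k : Set ℂ))) y) :
    Rep k t y := by
  rw [eq_sum y]
  refine Finset.sum_induction _ _ (fun _ _ => Rep.add) ⟨1, 0, by simp, by simp⟩ fun u _ => ?_
  obtain ⟨a, ha, b, hb, e⟩ := Subfield.mem_closure_iff.1 (hy u)
  obtain ⟨p, hp⟩ := rep_const (n := n) ha
  obtain ⟨s, hs⟩ := rep_const (n := n) hb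
  by_cases h0 : b = 0
  · refine ⟨1, 0, by simp, ?_⟩
    rw [← e, h0]
    simp
  refine ⟨s, p * C (.single u 1), hs ▸ (IsUnit.mk0 b h0).map _, ?_⟩
  rw [map_mul, hs, hp, Th_C, jj, AddMonoidAlgebra.mapRingHom_single, map_one, ← e,
    ← Algebra.smul_def, ← Algebra.smul_def, smul_smul, mul_div_cancel₀ _ h0]
  rfl

lemma main (hU : St_UFD) (ht : Transcendental k t) (g : Lk k n) {f : La n}
    (hf : f = Th k n t (X + C g)) {κ : Subfield ℂ}
    (hκ : κ = Subfield.closure (insert t (k : Set ℂ))) (hfκ : Ink κ f) (𝔭 : Ideal (La n))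
    (hp : 𝔭.IsPrime) (hfp : f ∈ 𝔭) (hy : ∃ y ∈ 𝔭, Ink κ y ∧ ¬f ∣ y) :
    ∃ h ∈ 𝔭, Ink κ h ∧ ¬f ∣ h ∧
      ∀ y, Ink κ y → ¬Dvm f h y → ∀ z, Dvm f h (y * z) → Dvm f h z := by
  have := hU k n
  have hle : k ≤ κ := fun c hc => hκ ▸ Subfield.subset_closure (mem_insert_of_mem _ hc)
  have rep : ∀ y : La n, Ink κ y → Rep k t y := fun y hy => rep_of_ink (hκ ▸ hy)
  have md : ∀ p, f ∣ Th k n t p - jj k n (p.eval (-g)) := fun p => hf ▸ Th_mod g p
  have mp : ∀ p, Th k n t p ∈ 𝔭 ↔ jj k n (p.eval (-g)) ∈ 𝔭 := fun p => by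
    obtain ⟨Q, e⟩ := md p
    rw [sub_eq_iff_eq_add.1 e]
    exact 𝔭.add_mem_iff_right (𝔭.mul_mem_right _ hfp)
  have un : ∀ s, IsUnit (Th k n t s) → jj k n (s.eval (-g)) ∉ 𝔭 := fun s hs h =>
    hp.ne_top (𝔭.eq_top_of_isUnit_mem ((mp s).2 h) hs)
  obtain ⟨y, hy1, hy2, hy3⟩ := hy
  obtain ⟨h, hh1, hh2⟩ : ∃ h ∈ 𝔭.comap (jj k n), Prime h := by
    refine (hp.comap _).exists_mem_prime_of_ne_bot fun h0 => hy3 ?_
    obtain ⟨s, p, h1, h2⟩ := rep y hy2
    have h3 : p.eval (-g) ∈ 𝔭.comap (jj k n) := (mp p).1 (h2 ▸ 𝔭.mul_mem_left _ hy1)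
    rw [h0, Ideal.mem_bot] at h3
    have h4 := md p
    rw [h3, map_zero, sub_zero, ← h2] at h4
    exact (h1.dvd_mul_left).1 h4
  have hk : Ink κ (jj k n h) := fun u => by rw [coeff_jj]; exact hle (Subtype.prop _)
  have nd : ∀ s, IsUnit (Th k n t s) → ¬h ∣ s.eval (-g) := fun s hs ⟨c, e⟩ =>
    un s hs (by rw [e, map_mul]; exact 𝔭.mul_mem_right _ hh1)
  obtain ⟨l, hl⟩ := exists_pj_one (n := n) κ
  have back : ∀ (y : La n) (s p : (Lk k n)[X]), IsUnit (Th k n t s) →
      Th k n t s * y = Th k n t p → h ∣ p.eval (-g) → Dvm f (jj k n h) y := by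
    rintro y s p ⟨v, hv⟩ h2 ⟨c, e⟩
    obtain ⟨Q, e'⟩ := md p
    refine ⟨↑v⁻¹ * jj k n c, ↑v⁻¹ * Q, ?_⟩
    rw [e, map_mul, ← h2, ← hv] at e'
    calc y = ↑v⁻¹ * (↑v * y) := by rw [Units.inv_mul_cancel_left]
      _ = _ := by rw [sub_eq_iff_eq_add.1 e']; ring
  refine ⟨jj k n h, hh1, hk, ?_, fun y hy hn z hz => Dvm_of_pj (k := κ) fun l' => ?_⟩
  · rintro ⟨Q, e⟩
    have e1 : jj k n h = f * pj l Q := by
      rw [← pj_mul l hfκ, ← e, ← mul_one (jj k n h), pj_mul l hk, hl]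
    obtain ⟨s, p, h1, h2⟩ := rep _ (ink_pj l Q)
    have e2 : s * C h = (X + C g) * p := Th_inj ht (by
      rw [map_mul, map_mul, Th_C, ← hf, ← h2, e1]; ring)
    have e3 := congrArg (eval (-g)) e2
    simp only [eval_mul, eval_C, eval_add, eval_X, neg_add_cancel, zero_mul] at e3
    rcases mul_eq_zero.1 e3 with h3 | h3
    · exact nd s h1 (h3 ▸ dvd_zero _)
    · exact hh2.ne_zero h3
  · obtain ⟨w, Q, hw, hQ, e⟩ := Dvm_pj l' hfκ hk hy hz
    obtain ⟨s1, p1, a1, b1⟩ := rep _ hy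
    obtain ⟨s2, p2, a2, b2⟩ := rep _ (ink_pj l' z)
    obtain ⟨s3, p3, a3, b3⟩ := rep _ hw
    obtain ⟨s4, p4, a4, b4⟩ := rep _ hQ
    have e2 : s3 * s4 * (p1 * p2) = s1 * s2 * (C h * (s4 * p3) + (X + C g) * (s3 * p4)) :=
      Th_inj ht (by
        simp only [map_mul, map_add (Th k n t) (C h * _), Th_C, ← hf, ← b1, ← b2, ← b3, ← b4]
        linear_combination
          (Th k n t s1 * Th k n t s2 * Th k n t s3 * Th k n t s4) * e)
    have e3 := congrArg (eval (-g)) e2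
    simp only [eval_mul, eval_C, eval_add, eval_X, neg_add_cancel, zero_mul, add_zero] at e3
    have h5 : h ∣ s3.eval (-g) * s4.eval (-g) * (p1.eval (-g) * p2.eval (-g)) := by
      rw [e3]
      exact (dvd_mul_right _ _).mul_left _
    rcases hh2.dvd_or_dvd h5 with h6 | h6
    · exact ((hh2.dvd_or_dvd h6).elim (nd s3 a3) (nd s4 a4)).elim
    · exact back _ s2 p2 a2 b2
        ((hh2.dvd_or_dvd h6).resolve_left fun h7 => hn (back _ s1 p1 a1 b1 h7))

lemma fields {ι : Type} {a : ι → ℂ} (ha : AlgebraicIndependent ℚ a) (i₀ : ι) :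
    ∃ k : Subfield ℂ, Transcendental k (a i₀) ∧ (∀ i, i ≠ i₀ → a i ∈ k) ∧
      Algebra.IsAlgebraic (Subfield.closure (insert (a i₀) (k : Set ℂ))) ℂ := by
  obtain ⟨B, hB, hB'⟩ := exists_isTranscendenceBasis_superset (R := ℚ) (s := range a)
    ha.to_subtype_range
  let i₁ : B := ⟨a i₀, hB ⟨i₀, rfl⟩⟩
  let s : Set ℂ := ((↑) : B → ℂ) '' {i₁}ᶜ
  have hs : ∀ c ∈ B, c ≠ a i₀ → c ∈ (IntermediateField.adjoin ℚ s).toSubfield := fun c hc h =>
    IntermediateField.subset_adjoin ℚ s ⟨⟨c, hc⟩, fun h' => h (congrArg Subtype.val h'), rfl⟩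
  refine ⟨(IntermediateField.adjoin ℚ s).toSubfield, ?_,
    fun i hi => hs _ (hB ⟨i, rfl⟩) fun h => hi (ha.injective h), ⟨fun c => ?_⟩⟩
  · exact IntermediateField.transcendental_adjoin_iff.2
      (hB'.1.transcendental_adjoin (s := {i₁}ᶜ) (i := i₁) (by simp))
  · set κ := Subfield.closure (insert (a i₀)
      ((IntermediateField.adjoin ℚ s).toSubfield : Set ℂ)) with hκ
    have hle : (Algebra.adjoin ℚ (range ((↑) : B → ℂ))).toSubring ≤ κ.toSubring := by
      intro x hx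
      refine Algebra.adjoin_induction (p := fun x _ => x ∈ κ) ?_ (fun r => ?_)
        (fun _ _ _ _ => add_mem) (fun _ _ _ _ => mul_mem) hx
      · rintro _ ⟨c, rfl⟩
        by_cases h : (c : ℂ) = a i₀
        · exact Subfield.subset_closure (Or.inl h)
        · exact Subfield.subset_closure (Or.inr (hs _ c.2 h))
      · exact SubfieldClass.ratCast_mem κ r
    exact (hB'.isAlgebraic.isAlgebraic c).ringHom_of_comp_eq (Subring.inclusion hle)
      (RingHom.id ℂ) (Subring.inclusion_injective hle) rfl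

end LINAB

open LINAB in
theorem st_LINA (hU : St_UFD) : St_LINA := by
  intro T f hf
  have h0 : T.P 0 := fun ρ => by simp
  obtain ⟨k, h1, h2, h3⟩ := fields hf.ind ⟨0, h0⟩
  have h4 : Ink k (f - algebraMap ℂ T.R (f.coeff 0)) := fun u => by
    rw [Algebra.algebraMap_eq_smul_one, ← mn_zero]
    simp only [AddMonoidAlgebra.coeff_sub, Finsupp.sub_apply, AddMonoidAlgebra.coeff_smul,
      Finsupp.smul_apply, coeff_mn, smul_eq_mul]
    split_ifs with h
    · subst h; simp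
    · rw [mul_zero, sub_zero]
      by_cases h5 : f.coeff u = 0
      · rw [h5]; exact zero_mem _
      · exact h2 ⟨u, hf.sup u h5⟩ fun e => h (congrArg Subtype.val e).symm
  obtain ⟨g, hg⟩ := jj_surj h4
  have h6 : Ink (Subfield.closure (insert (f.coeff 0) (k : Set ℂ))) f := fun u => by
    by_cases h : u = 0
    · exact Subfield.subset_closure (Or.inl (by rw [h]))
    · by_cases h5 : f.coeff u = 0
      · rw [h5]; exact zero_mem _
      · exact Subfield.subset_closure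
          (Or.inr (h2 ⟨u, hf.sup u h5⟩ fun e => h (congrArg Subtype.val e)))
  exact ⟨_, h6, h3, main hU h1 g (by rw [map_add, Th_X, Th_C, hg]; ring) rfl h6⟩

end Pool.Agent.Lib.TF
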