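import Pool.Agent.Lib.TF.Blue

open Set Pool.Agent.Lib.MP_e39d36_ag Pool.Agent.Lib.MP_e39d36_ag.Var Pool.Agent.Lib.DU
  Pool.Agent.Lib.MV
open scoped Classical

noncomputable section

namespace Pool.Agent.Lib.TF

open Fano

namespace LINBB

variable {T : Fano} {K : Type} [Field K] [Algebra ℂ K] {M : T.Mod K}

/-- A function on the torus that is a unit at `E` and has large order at finitely many others. -/
lemma fix (hb : M.Bas) (h0 : T.Face ∅) {E : M.X.PD} (hE : M.NT E) {S : Set M.X.PD}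
    (hS : S.Finite) (h1 : ∀ F ∈ S, M.NT F ∧ F ≠ E) (k : M.X.PD → ℤ) :
    ∃ z, M.ψ z ∉ ordGe E 1 ∧ ∀ F ∈ S, M.ψ z ∈ ordGe F (k F) := by
  obtain ⟨r, ⟨z, -, rfl⟩, h2, h3⟩ := exists_fix (M.pts.loc ∅ h0 E.1 (hb.leN E hE ∅)) hS
    (fun F hF => hb.leN F (h1 F hF).1 ∅) (fun F hF h => (h1 F hF).2 (pd_eq h).symm) k
  exact ⟨z, fun h => (ge_one_iff h2.2.1).1 h h2, fun F hF => Or.inr (h3 F hF)⟩

/-- A function on the torus that vanishes at `E` and is a unit at finitely many others. -/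
lemma avoid (hb : M.Bas) (h0 : T.Face ∅) {E : M.X.PD} (hE : M.NT E) {S : Set M.X.PD}
    (hS : S.Finite) (h1 : ∀ F ∈ S, M.NT F ∧ F ≠ E) :
    ∃ x, M.ψ x ∈ ordGe E 1 ∧ ∀ F ∈ S, M.ψ x ∉ ordGe F 1 := by
  have := hS.to_subtype
  obtain ⟨w, ⟨⟨x, rfl⟩, h2⟩, h3⟩ := exists_avoid_sub
    (LinearMap.range M.ψ.toLinearMap ⊓ ordGe E 1) (fun F : S => ordGe F.1 1) fun F hF => by
      obtain ⟨z, h4, h5⟩ := fix hb h0 (h1 F F.2).1 (finite_singleton E)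
        (fun F' hF' => by rw [mem_singleton_iff.1 hF']; exact ⟨hE, (h1 F F.2).2.symm⟩) fun _ => 1
      exact h4 (hF ⟨⟨z, rfl⟩, h5 E rfl⟩)
  exact ⟨x, h2, fun F hF => h3 ⟨F, hF⟩⟩

lemma dvm_ge (hb : M.Bas) {E : M.X.PD} (hE : M.NT E) {h y : T.R} (h1 : M.ψ h ∈ ordGe E 1)
    (h2 : Dvm M.f h y) : M.ψ y ∈ ordGe E 1 := by
  obtain ⟨w, Q, rfl⟩ := h2
  rw [map_add, map_mul, map_mul, M.ψ_f, zero_mul, add_zero]
  simpa using ge_mul h1 (hb.geN E hE w)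

lemma not_ge_mul {E : M.X.PD} {s s' : K} (h : s ∈ ordGe E 0) (h' : s' ∈ ordGe E 0)
    (k : s ∉ ordGe E 1) (k' : s' ∉ ordGe E 1) : s * s' ∉ ordGe E 1 := by
  obtain ⟨a1, a2⟩ := ord_of_not_ge h (by simpa using k)
  obtain ⟨b1, b2⟩ := ord_of_not_ge h' (by simpa using k')
  rw [ge_iff (mul_ne_zero a1 b1), ord_mul a1 b1, a2, b2]
  omega

end LINBB

open LINBB in
theorem st_LINB (hO : St_ORB) (hB : St_BAS) (hG : St_GAL) : St_LINB := by
  intro T K _ _ M k hf hk h hh hh0 hp E E' hE hE' h1 h1'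
  have hb := hB T K M
  have h0 : T.Face ∅ := by
    obtain ⟨m, hm, -⟩ := M.chart E.1
    exact ⟨m, hm, Finset.empty_subset _⟩
  by_contra hc
  set S : Set M.X.PD := {F | M.X.ord (M.ψ h) F.1 ≠ 0 ∧ M.NT F ∧ F ≠ E} with hS
  have hSf : S.Finite := (finite_ord (M.ψ h)).subset fun F hF => hF.1
  obtain ⟨x, hx1, hx2⟩ := avoid hb h0 hE hSf fun F hF => hF.2
  obtain ⟨s, hs1, hs2, hs3⟩ := hO T.n k hk x
  have hN1 : M.ψ (∏ x' ∈ s, x') ∈ ordGe E 1 := by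
    rw [← Finset.mul_prod_erase s _ hs1, map_mul]
    exact add_zero (1 : ℤ) ▸ ge_mul hx1 (hb.geN E hE _)
  have hun : ∀ x' ∈ s, M.ψ x' ∉ ordGe E' 1 := by
    intro x' hx'
    obtain ⟨g, hg, rfl⟩ := hs2 x' hx'
    obtain ⟨φ, e, e1, e2⟩ := hG T K M g (hf.cg hg)
    have e3 : ∀ G, M.X.ord (M.ψ (cg g G)) E'.1 = M.X.ord (M.ψ G) (e.symm E').1 := fun G => by
      rw [← e1, ← e2 _ (e.symm E'), e.apply_symm_apply]
    have hF : e.symm E' ∈ S := by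
      refine ⟨?_, fun u => ?_, fun e4 => hc ⟨g, φ, e, hg, e1, e2, ?_⟩⟩
      · rw [← e3, hh.cg hg]
        have := (ge_iff hh0).1 h1'
        omega
      · rw [Mod0.χ, ← e3, (ink_mn u).cg hg]
        exact hE' u
      · rw [← e4, e.apply_symm_apply]
    have h2 := hx2 _ hF
    have h3 : M.ψ x ≠ 0 := fun e4 => h2 (Or.inl e4)
    have h4 : M.ψ (cg g x) ≠ 0 := by rw [← e1]; exact (map_ne_zero φ).2 h3
    rwa [ge_iff h4, e3, ← ge_iff h3]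
  have hN2 : M.ψ (∏ x' ∈ s, x') ∉ ordGe E' 1 := by
    refine Finset.prod_induction _ (fun y => M.ψ y ∉ ordGe E' 1) (fun a b ha hb' => ?_) ?_ hun
    · rw [map_mul]
      exact not_ge_mul (hb.geN E' hE' a) (hb.geN E' hE' b) ha hb'
    · rw [map_one, ge_iff one_ne_zero]
      simp [ord_val]
  set N := ∏ x' ∈ s, x' with hN
  have hnd : ¬Dvm M.f h N := fun hd => hN2 (dvm_ge hb hE' h1' hd)
  obtain ⟨z, hz1, hz2⟩ := fix hb h0 hE hSf (fun F hF => hF.2) fun F => M.X.ord (M.ψ h) F.1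
  obtain ⟨a, ha⟩ := Int.eq_ofNat_of_zero_le (ord_nonneg (ge_zero_iff.1 (hb.geN E hE h)))
  have hq : ∀ F, M.NT F → M.ψ (N ^ a * z) * (M.ψ h)⁻¹ ∈ ordGe F 0 := by
    intro F hF
    have key : M.ψ (N ^ a * z) ∈ ordGe F (M.X.ord (M.ψ h) F.1) := by
      by_cases e1 : F = E
      · subst e1
        rw [map_mul, map_pow, ha]
        simpa using ge_mul (ge_pow hN1 a) (hb.geN F hF z)
      by_cases e2 : M.X.ord (M.ψ h) F.1 = 0
      · rw [e2]; exact hb.geN F hF _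
      · rw [map_mul]
        simpa using ge_mul (hb.geN F hF (N ^ a)) (hz2 F ⟨e2, hF, e1⟩)
    have := ge_mul key (ge_ord (M.ψ h)⁻¹ F)
    rwa [ord_inv, add_neg_cancel] at this
  obtain ⟨G, -, hG'⟩ := hb.sec ∅ h0 0 _ hq (by simp)
  have hd : Dvm M.f h (N ^ a * z) := by
    obtain ⟨Q, hQ⟩ := (M.ker (N ^ a * z - h * G)).1 (by
      rw [map_sub, map_mul M.ψ h G, hG', mul_comm (M.ψ h), inv_mul_cancel_right₀ hh0, sub_self])
    exact ⟨G, Q, by rw [← hQ]; ring⟩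
  have hz : ∀ b : ℕ, Dvm M.f h (N ^ b * z) → Dvm M.f h z := fun b => by
    induction b with
    | zero => simp
    | succ b ih => exact fun hd => ih (hp N hs3 hnd _ (by rwa [pow_succ', mul_assoc] at hd))
  exact hz1 (dvm_ge hb hE h1 (hz a hd))

end Pool.Agent.Lib.TF
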