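import Pool.Agent.Lib.TF.Blue

open Set Pool.Agent.Lib.MP_e39d36_ag Pool.Agent.Lib.MP_e39d36_ag.Var Pool.Agent.Lib.DU
  Pool.Agent.Lib.MV
open scoped Classical NNReal

set_option linter.unusedSectionVars false
set_option linter.unusedVariables false

noncomputable section

namespace Pool.Agent.Lib.TF

open Fano

namespace LTB

variable {n : ℕ} {w : Fin n → ℤ} {al be g1 g2 Q G : La n} {c : ℤ}

lemma not_hom (ha : Hom w 0 al) (hb : Hom w (-1) be) (ha0 : al ≠ 0) (hb0 : be ≠ 0) (d : ℤ) :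
    ¬Hom w d (al + be) := by
  intro h
  obtain ⟨u, hu⟩ := ne_zero_iff.1 ha0
  obtain ⟨u', hu'⟩ := ne_zero_iff.1 hb0
  have e1 := ha u hu
  have e2 := hb u' hu'
  have e3 : be.coeff u = 0 := by
    by_contra h1
    have := hb u h1
    omega
  have e4 : al.coeff u' = 0 := by
    by_contra h1
    have := ha u' h1
    omega
  have e5 := h u (by simpa [e3] using hu)
  have e6 := h u' (by simpa [e4] using hu')
  omega

lemma eq_zero (ha : Hom w 0 al) (hb : Hom w (-1) be) (ha0 : al ≠ 0) (hb0 : be ≠ 0)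
    (hG : Hom w c G) (hd : al + be ∣ G) : G = 0 := by
  by_contra h0
  obtain ⟨d, h⟩ := Hom.of_dvd h0 hG hd
  exact not_hom ha hb ha0 hb0 d h

lemma cut (ha : Hom w 0 al) (hb : Hom w (-1) be) (e : g1 - g2 = (al + be) * Q) (h1 : Lo w c g1)
    (h2 : Lo (-w) (-c) g2) : Hom w c (g1 - (al + be) * part (fun u => c < u ⬝ᵥ w) Q) := by
  refine hom_iff.2 ⟨Sup.sub h1 ?_, ?_⟩
  · have h3 : Lo w (-1) (al + be) := Sup.add (ha.lo.le (by omega)) hb.lo
    have h4 : Lo w (c + 1) (part (fun u => c < u ⬝ᵥ w) Q) := Sup.mono sup_part fun u h => h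
    exact (Lo.mul h3 h4).le (by omega)
  · have e1 : g1 - (al + be) * part (fun u => c < u ⬝ᵥ w) Q =
        g2 + (al + be) * part (fun u => ¬c < u ⬝ᵥ w) Q := by
      have e2 := part_add_part_not (S := fun u => c < u ⬝ᵥ w) (G := Q)
      linear_combination e - (al + be) * e2
    rw [e1]
    have h3 : Lo (-w) 0 (al + be) :=
      Sup.add (Lo.le (hom_iff.1 ha).2 (by omega)) (Lo.le (hom_iff.1 hb).2 (by omega))
    have h4 : Lo (-w) (-c) (part (fun u => ¬c < u ⬝ᵥ w) Q) :=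
      Sup.mono sup_part fun u h => by
        rw [dotProduct_neg]
        omega
    exact Sup.add h2 ((Lo.mul h3 h4).le (by omega))

lemma at_pow {a : ℤ} (h : Lo w a G) (h' : At w a G) (m : ℕ) : At w (m * a) (G ^ m) := by
  induction m with
  | zero => exact ⟨0, by simp [AddMonoidAlgebra.one_def], by simp⟩
  | succ m ih =>
    rw [pow_succ]
    push_cast
    rw [add_mul, one_mul]
    exact At.mul (h.pow m) h ih h'

lemma core [DecompositionMonoid (La n)] (ha : Hom w 0 al) (hb : Hom w (-1) be) (ha0 : al ≠ 0)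
    (hb0 : be ≠ 0) (hc : IsRelPrime al be) (e : g1 - g2 = (al + be) * Q) (k : ℕ) (h1 : Lo w c g1)
    (h2 : Lo (-w) (-(c - k)) g2) :
    ∃ H, Hom w c H ∧ g1 - (al + be) * part (fun u => c < u ⬝ᵥ w) Q = al ^ k * H := by
  have e1 := cut ha hb e h1 (h2.le (by omega))
  have e2 := cut (c := c - k) ha hb e (h1.le (by omega)) h2
  set H0 := g1 - (al + be) * part (fun u => c < u ⬝ᵥ w) Q with hH0
  set H1 := g1 - (al + be) * part (fun u => c - k < u ⬝ᵥ w) Q with hH1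
  have e3 : H0 * (-be) ^ k - H1 * al ^ k = 0 := by
    refine eq_zero (c := c - k) ha hb ha0 hb0 (Sup.sub ?_ ?_) ?_
    · have := Hom.mul e1 (Hom.pow (Sup.neg hb : Hom w (-1) (-be)) k)
      rwa [show c + k * (-1 : ℤ) = c - k by ring] at this
    · have := Hom.mul e2 (Hom.pow ha k)
      rwa [show c - k + k * (0 : ℤ) = c - k by ring] at this
    · have d1 : al + be ∣ al ^ k - (-be) ^ k := by
        have := sub_dvd_pow_sub_pow al (-be) k
        rwa [sub_neg_eq_add] at this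
      have d2 : al + be ∣ H0 - H1 := ⟨part (fun u => c - k < u ⬝ᵥ w) Q -
        part (fun u => c < u ⬝ᵥ w) Q, by rw [hH0, hH1]; ring⟩
      have e4 : H0 * (-be) ^ k - H1 * al ^ k =
          (H0 - H1) * al ^ k - H0 * (al ^ k - (-be) ^ k) := by ring
      rw [e4]
      exact dvd_sub (d2.mul_right _) (d1.mul_left _)
  have d3 : al ^ k ∣ H0 * (-be) ^ k := ⟨H1, by linear_combination e3⟩
  obtain ⟨H, hH⟩ := (hc.neg_right.pow (m := k) (n := k)).dvd_of_dvd_mul_right d3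
  refine ⟨H, ?_, hH⟩
  refine Hom.cancel (Hom.pow ha k) (pow_ne_zero _ ha0) ?_
  rw [← hH, mul_zero, zero_add]
  exact e1

variable {T : Fano} {K : Type} [Field K] [Algebra ℂ K] {x z y : T.Ray} {f : T.R}

lemma fr_eq (hf : T.Gen f) (h : T.Tri x z y) : T.fr f y = T.cl f x z 1 0 + T.cl f x z 0 1 := by
  unfold Fano.cl
  rw [← part_or (fun u h1 h2 => by omega)]
  refine part_congr fun u hu => ?_
  have h1 := hf.sup u hu x
  have h2 := hf.sup u hu z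
  rw [h.dot]
  omega

lemma ne_y (h : T.Tri x z y) : z ≠ y := by
  rintro rfl
  exact T.ne x (add_eq_right.1 h)

lemma vert (h1 : T.C1a) (h : T.Tri x z y) {ρ : T.Ray} (hρ : T.Nb y ρ) (hx : ρ ≠ x) :
    ∃ m, T.P m ∧ m ⬝ᵥ T.v x = 0 ∧ m ⬝ᵥ T.v z = -1 ∧ m ⬝ᵥ T.v ρ = -1 := by
  obtain ⟨m, hm, hs⟩ := h1.swap z x y h.symm {y, ρ} hρ (by simp)
    (by simp [ne_y h.symm, hx.symm])
  have e1 : m ⬝ᵥ T.v z = -1 := mem_F.1 (hs (by simp))
  have e2 : m ⬝ᵥ T.v y = -1 := mem_F.1 (hs (by simp))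
  have e3 : m ⬝ᵥ T.v ρ = -1 := mem_F.1 (hs (by simp))
  rw [h.dot] at e2
  exact ⟨m, hm.1, by omega, e1, e3⟩

lemma hom_al (f : T.R) (x z : T.Ray) : Hom (T.v x) 0 (T.cl f x z 1 0) :=
  Sup.mono sup_part fun u h => by omega

lemma hom_be (f : T.R) (x z : T.Ray) : Hom (T.v x) (-1) (T.cl f x z 0 1) :=
  Sup.mono sup_part fun u h => by omega

lemma hom_aly (h : T.Tri x z y) (f : T.R) : Hom (T.v y) (-1) (T.cl f x z 1 0) :=
  Sup.mono sup_part fun u hu => by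
    rw [h.dot]
    omega

lemma al_ne (h0 : T.C0) (h1 : T.C1a) (hf : T.Gen f) (h : T.Tri x z y) : T.cl f x z 1 0 ≠ 0 := by
  obtain ⟨m, e1, e2, e3, -⟩ := vert h1 h (ρ := y) (by simpa [Nb] using h0.ray y) (ne_y h.symm).symm
  exact part_ne_zero.2 ⟨m, hf.ne e1, by omega, by omega⟩

lemma be_ne (h0 : T.C0) (h1 : T.C1a) (hf : T.Gen f) (h : T.Tri x z y) : T.cl f x z 0 1 ≠ 0 := by
  obtain ⟨m, e1, e2, e3, -⟩ := vert h1 h.symm (ρ := y) (by simpa [Nb] using h0.ray y)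
    (ne_y h).symm
  exact part_ne_zero.2 ⟨m, hf.ne e1, by omega, by omega⟩

lemma one (h0 : T.C0) (h1 : T.C1a) (hU : St_UFD) (hC : St_COPR) (M : T.Mod K) (hB : M.Bas)
    (h : T.Tri x z y) {a : T.Λ} {k : ℕ} (hk : a y = a x + a z + k) {s : K} (hs : s ∈ M.Sec a)
    {ρ : T.Ray} (hρ : T.Nb y ρ) (hx : ρ ≠ x) (hz : ρ ≠ z) :
    ∃ H : T.R, Hom (T.v x) (-a x) H ∧ Hom (T.v z) (-a z) H ∧ Lo (T.v ρ) (k - a ρ) H ∧
      s - M.ψ H * M.al x z ^ k ∈ ordGe (M.D y) (1 - a y) := by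
  have : UniqueFactorizationMonoid (La T.n) := hU ℂ T.n
  have hs' := (hB.mem a s).1 hs
  obtain ⟨G1, hG1, e1⟩ := hB.sec _ (h1.swap x z y h {y, ρ} hρ (by simp)
    (by simp [ne_y h, hz.symm])) a s hs'.1 fun σ _ => hs'.2 σ
  obtain ⟨G2, hG2, e2⟩ := hB.sec _ (h1.swap z x y h.symm {y, ρ} hρ (by simp)
    (by simp [ne_y h.symm, hx.symm])) a s hs'.1 fun σ _ => hs'.2 σ
  have y1 : Lo (T.v y) (-a y) G1 := hG1 y (by simp)
  have y2 : Lo (T.v y) (-a y) G2 := hG2 y (by simp)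
  have r1 : Lo (T.v ρ) (-a ρ) G1 := hG1 ρ (by simp)
  have r2 : Lo (T.v ρ) (-a ρ) G2 := hG2 ρ (by simp)
  have x1 : Lo (T.v x) (-a x) G1 := hG1 x (by simp)
  have z2 : Lo (T.v z) (-a z) G2 := hG2 z (by simp)
  have hf := fr_eq M.gen h
  obtain ⟨Q, hQ⟩ := ((M.isD y).2 (-a y) (G1 - G2) (Sup.sub y1 y2)).1
    (by rw [map_sub, e1, e2, sub_self]; exact zero_mem _)
  rw [inn, part_sub, hf] at hQ
  have a0 := al_ne h0 h1 M.gen h
  have b0 := be_ne h0 h1 M.gen h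
  obtain ⟨m, m1, m2, m3, m4⟩ := vert h1 h hρ hx
  obtain ⟨m', n1, n2, n3, -⟩ := vert h1 h.symm hρ hz
  have cop : IsRelPrime (T.cl M.f x z 1 0) (T.cl M.f x z 0 1) :=
    hC T M.f M.gen _ _ ⟨m, m1, by omega, by omega⟩ ⟨m', n1, by omega, by omega⟩
      fun u h2 h3 => by omega
  obtain ⟨H, H1, H2⟩ := core (c := -a x) (hom_al M.f x z) (hom_be M.f x z) a0 b0 cop hQ k
    (Sup.part x1) (Sup.mono (Sup.and (Sup.part z2) sup_part) fun u hu => by
      obtain ⟨h2, h3⟩ := hu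
      rw [h.dot] at h3
      rw [dotProduct_neg]
      omega)
  have fy : Hom (T.v y) (-1) (T.cl M.f x z 1 0 + T.cl M.f x z 0 1) := hf ▸ sup_part
  have f0 : T.cl M.f x z 1 0 + T.cl M.f x z 0 1 ≠ 0 := fun e =>
    not_hom (hom_al M.f x z) (hom_be M.f x z) a0 b0 0 (e ▸ Sup.zero)
  have Qy : Hom (T.v y) (1 - a y) Q := by
    refine Hom.cancel fy f0 ?_
    rw [← hQ, show -1 + (1 - a y) = -a y by ring]
    exact Sup.sub sup_part sup_part
  have Py : Hom (T.v y) (-a y) (T.cl M.f x z 1 0 ^ k * H) := by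
    rw [← H2]
    refine Sup.sub sup_part ?_
    have := Hom.mul fy (Sup.part (S' := fun u => -a x < u ⬝ᵥ T.v x) Qy)
    rwa [show -1 + (1 - a y) = -a y by ring] at this
  have Hy : Hom (T.v y) (k - a y) H := by
    refine Hom.cancel (Hom.pow (hom_aly h M.f) k) (pow_ne_zero _ a0) ?_
    rwa [show (k : ℤ) * -1 + (k - a y) = -a y by ring]
  have alr : Lo (T.v ρ) (-1) (T.cl M.f x z 1 0) := Sup.part (M.gen.lo ρ)
  have ala : At (T.v ρ) (-1) (T.cl M.f x z 1 0) :=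
    ⟨m, by rw [Fano.cl, coeff_part, if_pos ⟨by omega, by omega⟩]; exact M.gen.ne m1, m4⟩
  have fr : Lo (T.v ρ) (-1) (T.cl M.f x z 1 0 + T.cl M.f x z 0 1) := hf ▸ Sup.part (M.gen.lo ρ)
  have fa : At (T.v ρ) (-1) (T.cl M.f x z 1 0 + T.cl M.f x z 0 1) := by
    rw [← hf]
    refine ⟨m, ?_, m4⟩
    rw [coeff_part, if_pos (by rw [h.dot]; omega)]
    exact M.gen.ne m1
  have Qr : Lo (T.v ρ) (1 - a ρ) Q := by
    refine Lo.cancel fr fa ?_
    rw [← hQ, show -1 + (1 - a ρ) = -a ρ by ring]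
    exact Sup.sub (Sup.part r1) (Sup.part r2)
  refine ⟨H, H1, Sup.mono (Sup.and H1 Hy) fun u hu => ?_, ?_, ?_⟩
  · obtain ⟨h2, h3⟩ := hu
    rw [h.dot] at h3
    omega
  · refine Lo.cancel (alr.pow k) (at_pow alr ala k) ?_
    rw [← H2, show (k : ℤ) * -1 + (k - a ρ) = -a ρ by ring]
    refine Sup.sub (Sup.part r1) ?_
    have := Lo.mul fr (Sup.part (S' := fun u => -a x < u ⬝ᵥ T.v x) Qr)
    rwa [show -1 + (1 - a ρ) = -a ρ by ring] at this
  · have e3 : s - M.ψ H * M.al x z ^ k = M.ψ (G1 - T.cl M.f x z 1 0 ^ k * H) := by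
      rw [map_sub, map_mul, map_pow, e1, mul_comm]
    rw [e3, show 1 - a y = -a y + 1 by ring]
    refine ((M.isD y).2 (-a y) _ (Sup.sub y1 Py.lo)).2 ?_
    rw [inn, part_sub, part_of_sup Py, ← H2, hf, sub_sub_cancel]
    exact dvd_mul_right _ _

lemma uniq (h0 : T.C0) (h1 : T.C1a) (M : T.Mod K) (h : T.Tri x z y) {a : T.Λ} {k : ℕ}
    (hk : a y = a x + a z + k) {s : K} {H H' : T.R} (p1 : Hom (T.v x) (-a x) H)
    (p2 : Hom (T.v z) (-a z) H) (p3 : s - M.ψ H * M.al x z ^ k ∈ ordGe (M.D y) (1 - a y))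
    (q1 : Hom (T.v x) (-a x) H') (q2 : Hom (T.v z) (-a z) H')
    (q3 : s - M.ψ H' * M.al x z ^ k ∈ ordGe (M.D y) (1 - a y)) : H = H' := by
  have a0 := al_ne h0 h1 M.gen h
  have b0 := be_ne h0 h1 M.gen h
  have d1 : Hom (T.v x) (-a x) (H - H') := Sup.sub p1 q1
  have d2 : Hom (T.v y) (k - a y) (H - H') := Sup.mono (Sup.and d1 (Sup.sub p2 q2)) fun u hu => by
    obtain ⟨h2, h3⟩ := hu
    rw [h.dot]
    omega
  have d3 : Hom (T.v y) (-a y) ((H - H') * T.cl M.f x z 1 0 ^ k) := by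
    have := Hom.mul d2 (Hom.pow (hom_aly h M.f) k)
    rwa [show (k : ℤ) - a y + k * -1 = -a y by ring] at this
  have d4 : M.ψ ((H - H') * T.cl M.f x z 1 0 ^ k) ∈ ordGe (M.D y) (-a y + 1) := by
    have := sub_mem q3 p3
    rw [show -a y + 1 = 1 - a y by ring, map_mul, map_sub, map_pow]
    rwa [sub_sub_sub_cancel_left, ← sub_mul] at this
  have d5 := ((M.isD y).2 (-a y) _ d3.lo).1 d4
  rw [inn, part_of_sup d3, fr_eq M.gen h] at d5
  have d6 := eq_zero (hom_al M.f x z) (hom_be M.f x z) a0 b0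
    (Hom.mul d1 (Hom.pow (hom_al M.f x z) k)) d5
  exact sub_eq_zero.1 ((mul_eq_zero.1 d6).resolve_right (pow_ne_zero _ a0))

end LTB

open LTB in
theorem st_LT (h0 : St_C0) (h1 : St_C1A) (hU : St_UFD) (hC : St_COPR) (hB : St_BAS) : St_LT := by
  intro T K _ _ M x z y h a k hk s hs
  obtain ⟨H, p1, p2, -, p3⟩ := one (h0 T) (h1 T) hU hC M (hB T K M) h hk hs (ρ := y)
    (by simpa [Nb] using (h0 T).ray y) (ne_y h.symm).symm (ne_y h).symm
  refine ⟨H, p1, p2, fun ρ hρ hx hz => ?_, p3⟩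
  obtain ⟨H', q1, q2, q3, q4⟩ := one (h0 T) (h1 T) hU hC M (hB T K M) h hk hs hρ hx hz
  rwa [uniq (h0 T) (h1 T) M h hk p1 p2 p3 q1 q2 q4]

end Pool.Agent.Lib.TF
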