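import Pool.Agent.Lib.TF.LBlue

open Set
open scoped NNReal

noncomputable section

namespace Pool.Agent.Lib.TF

open Fano

namespace MINB

/-- Bounded below with finitely many values below each bound. -/
def Lf {W : Type} (f : W → ℝ) : Prop :=
  (∃ b, ∀ w, b ≤ f w) ∧ ∀ C : ℝ, {h | h ≤ C ∧ h ∈ range f}.Finite

lemma Lf.min {W : Type} [Nonempty W] {f : W → ℝ} (h : Lf f) : ∃ w₀, ∀ w, f w₀ ≤ f w := by
  obtain ⟨w₁⟩ := ‹Nonempty W›
  obtain ⟨_, ⟨h0, w₀, rfl⟩, h1⟩ := exists_min_image _ id (h.2 (f w₁)) ⟨_, le_rfl, w₁, rfl⟩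
  refine ⟨w₀, fun w => ?_⟩
  rcases le_total (f w) (f w₁) with h2 | h2
  · exact h1 _ ⟨h2, w, rfl⟩
  · exact h0.trans h2

lemma Lf.add {W : Type} {f g : W → ℝ} (hf : Lf f) (hg : Lf g) : Lf fun w => f w + g w := by
  obtain ⟨⟨b, hb⟩, hf⟩ := hf
  obtain ⟨⟨b', hb'⟩, hg⟩ := hg
  refine ⟨⟨b + b', fun w => add_le_add (hb w) (hb' w)⟩, fun C =>
    ((hf (C - b')).image2 (· + ·) (hg (C - b))).subset ?_⟩
  rintro _ ⟨h, w, rfl⟩
  have h1 := hb w
  have h2 := hb' w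
  have h3 : f w + g w ≤ C := h
  exact ⟨_, ⟨by linarith, w, rfl⟩, _, ⟨by linarith, w, rfl⟩, rfl⟩

lemma Lf.mul {W : Type} {f : W → ℝ} (hf : Lf f) {c : ℝ} (hc : 0 ≤ c) : Lf fun w => c * f w := by
  obtain ⟨⟨b, hb⟩, hf⟩ := hf
  refine ⟨⟨c * b, fun w => mul_le_mul_of_nonneg_left (hb w) hc⟩, fun C => ?_⟩
  rcases hc.eq_or_lt with rfl | hc
  · refine (finite_singleton 0).subset ?_
    rintro _ ⟨-, w, rfl⟩
    simp
  · refine ((hf (C / c)).image (c * ·)).subset ?_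
    rintro _ ⟨h, w, rfl⟩
    have h3 : c * f w ≤ C := h
    exact ⟨_, ⟨(le_div_iff₀' hc).2 h3, w, rfl⟩, rfl⟩

lemma Lf.int {W : Type} {f : W → ℝ} (hz : ∀ w, ∃ z : ℤ, f w = z) (hb : ∃ b, ∀ w, b ≤ f w) :
    Lf f := by
  refine ⟨hb, fun C => ?_⟩
  obtain ⟨b, hb⟩ := hb
  refine ((finite_Icc ⌊b⌋ ⌈C⌉).image fun z : ℤ => (z : ℝ)).subset ?_
  rintro _ ⟨h, w, rfl⟩
  obtain ⟨z, e⟩ := hz w
  have h0 := hb w
  rw [e] at h h0
  exact ⟨z, ⟨by exact_mod_cast (Int.floor_le b).trans h0,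
    by exact_mod_cast h.trans (Int.le_ceil C)⟩, e.symm⟩

end MINB

open MINB in
theorem st_MIN : St_MIN := by
  intro T E W _ φ hz hb x hx
  refine Lf.min (f := fun w => φ w x) ?_
  induction hx using Submodule.span_induction with
  | mem x hx =>
    obtain ⟨a, ha, rfl⟩ := hx
    exact Lf.int (hz a ha) (hb a ha)
  | zero => exact Lf.int (fun w => ⟨0, by simp⟩) ⟨0, fun w => by simp⟩
  | add x y _ _ h h' => simpa only [map_add] using h.add h'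
  | smul c x _ h => simpa only [NNReal.smul_def, map_smul, smul_eq_mul] using h.mul c.coe_nonneg

end Pool.Agent.Lib.TF
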