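import Pool.Agent.Lib.TF.Blue

open Set
open scoped Classical

noncomputable section

namespace Pool.Agent.Lib.TF

namespace NOLB

variable {F : Type} [Field F] {c : Cub F} {b b' : Prop}

lemma pick (k : ℕ) (l : List F) (y y' : F) (A : Set F) (hl : l.length + 2 ≤ k)
    (H : ∀ S : Subfield F, (∀ e ∈ l, e ∈ S) → (¬b → y ∈ S) → (¬b' → y' ∈ S) → A ⊆ S → c.In S) :
    ∃ s : Finset F, c.In (Subfield.closure (s ∪ A : Set F)) ∧
      s.card + (if b then 1 else 0) + (if b' then 1 else 0) ≤ k := by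
  refine ⟨l.toFinset ∪ ((if b then ∅ else {y}) ∪ if b' then ∅ else {y'}), H _ (fun e he => ?_)
    (fun h => ?_) (fun h => ?_) fun e he => Subfield.subset_closure (Or.inr he), ?_⟩
  · exact Subfield.subset_closure (Or.inl (by simp [he]))
  · exact Subfield.subset_closure (Or.inl (by simp [h]))
  · exact Subfield.subset_closure (Or.inl (by simp [h]))
  · have h1 := Finset.card_union_le l.toFinset
      ((if b then ∅ else {y}) ∪ if b' then ∅ else {y'} : Finset F)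
    have h2 := Finset.card_union_le (if b then ∅ else {y} : Finset F) (if b' then ∅ else {y'})
    have h3 := l.toFinset_card_le
    have h4 : (if b then ∅ else {y} : Finset F).card + (if b then 1 else 0) = 1 := by
      split_ifs <;> simp
    have h5 : (if b' then ∅ else {y'} : Finset F).card + (if b' then 1 else 0) = 1 := by
      split_ifs <;> simp
    omega

lemma pick0 (l : List F) (y y' : F) (hl : l.length + 2 ≤ 7)
    (H : ∀ S : Subfield F, (∀ e ∈ l, e ∈ S) → (¬b → y ∈ S) → (¬b' → y' ∈ S) → c.In S) :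
    ∃ s : Finset F, c.In (Subfield.closure (s : Set F)) ∧
      s.card + (if b then 1 else 0) + (if b' then 1 else 0) ≤ 7 := by
  have := pick 7 l y y' ∅ hl fun S h1 h2 h3 _ => H S h1 h2 h3
  simpa only [union_empty] using this

lemma opt {S : Subfield F} {y y' : F} (h : b → y = y') (h1 : y' ∈ S) (h2 : ¬b → y ∈ S) : y ∈ S := by
  by_cases hb : b
  · rwa [h hb]
  · exact h2 hb

/-- The conclusion. -/
def Con (c : Cub F) (b b' : Prop) : Prop :=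
  (∃ s : Finset F, c.In (Subfield.closure (s : Set F)) ∧
    s.card + (if b then 1 else 0) + (if b' then 1 else 0) ≤ 7) ∧
  ∀ ξ ζ : F, ξ ≠ 0 → ζ ≠ 0 → c.ev ξ ζ = 0 → ξ * c.X0 + ζ * c.Z0 = c.q0 →
    ∃ s : Finset F, c.In (Subfield.closure (s ∪ {ξ, ζ} : Set F)) ∧
      s.card + (if b then 1 else 0) + (if b' then 1 else 0) ≤ 6

lemma two (hb : b → c.c30 = 0) (hb' : b' → c.c03 = 0) (u w : F)
    (H : ∀ S : Subfield F, u ∈ S → w ∈ S → c.c10 ∈ S ∧ c.c01 ∈ S ∧ c.c20 ∈ S ∧ c.c02 ∈ S) :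
    Con c b b' := by
  refine ⟨pick0 [u, w, c.c11, c.c21, c.c12] c.c30 c.c03 le_rfl fun S h h1 h2 => ?_,
    fun ξ ζ hξ hζ hev _ => pick 6 [u, w, c.c21, c.c12] c.c30 c.c03 _ le_rfl fun S h h1 h2 h3 => ?_⟩
  · simp only [List.forall_mem_cons] at h
    obtain ⟨e1, e2, e3, e4⟩ := H S h.1 h.2.1
    exact ⟨e1, e2, e3, h.2.2.1, e4, opt hb (zero_mem _) h1, h.2.2.2.1, h.2.2.2.2.1,
      opt hb' (zero_mem _) h2⟩
  · simp only [List.forall_mem_cons] at h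
    obtain ⟨e1, e2, e3, e4⟩ := H S h.1 h.2.1
    have e5 := opt hb (zero_mem _) h1
    have e6 := opt hb' (zero_mem _) h2
    have e7 := h.2.2.1
    have e8 := h.2.2.2.1
    have f1 : ξ ∈ S := h3 (Or.inl rfl)
    have f2 : ζ ∈ S := h3 (Or.inr rfl)
    refine ⟨e1, e2, e3, ?_, e4, e5, e7, e8, e6⟩
    have : c.c11 = -(c.c10 * ξ + c.c01 * ζ + c.c20 * ξ ^ 2 + c.c02 * ζ ^ 2 + c.c30 * ξ ^ 3 +
        c.c21 * ξ ^ 2 * ζ + c.c12 * ξ * ζ ^ 2 + c.c03 * ζ ^ 3) / (ξ * ζ) := by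
      rw [eq_div_iff (mul_ne_zero hξ hζ)]
      rw [Cub.ev] at hev
      linear_combination hev
    rw [this]
    clear h3 h1 h2 H
    apply_rules (maxDepth := 100) [add_mem, mul_mem, div_mem, neg_mem, pow_mem]

lemma deg (hb : b → c.c30 = 0) (hb' : b' → c.c03 = 0) (hq : c.q0 = 0) (hX : c.X0 = 0)
    (hZ : c.Z0 = 0) (h10 : c.c10 ≠ 0) (h01 : c.c01 ≠ 0) : Con c b b' := by
  rw [Cub.q0] at hq
  rw [Cub.X0] at hX
  rw [Cub.Z0] at hZ
  have g1 : c.c11 = (c.c20 * c.c01 ^ 2 + c.c02 * c.c10 ^ 2) / (c.c01 * c.c10) := by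
    rw [eq_div_iff (mul_ne_zero h01 h10)]
    linear_combination -hq
  have g2 : c.c21 = (c.c30 * c.c01 ^ 3 - c.c03 * c.c10 ^ 3 + c.c12 * c.c10 ^ 2 * c.c01) /
      (c.c10 * c.c01 ^ 2) := by
    rw [eq_div_iff (mul_ne_zero h10 (pow_ne_zero 2 h01))]
    linear_combination c.c01 * hX - c.c10 * hZ
  have k2 : ∀ S : Subfield F, c.c10 ∈ S → c.c01 ∈ S → c.c12 ∈ S → c.c30 ∈ S → c.c03 ∈ S →
      c.c21 ∈ S := fun S _ _ _ _ _ => by
    rw [g2]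
    apply_rules (maxDepth := 100) [add_mem, sub_mem, mul_mem, div_mem, pow_mem]
  have k : ∀ S : Subfield F, c.c10 ∈ S → c.c01 ∈ S → c.c20 ∈ S → c.c02 ∈ S → c.c12 ∈ S →
      (¬b → c.c30 ∈ S) → (¬b' → c.c03 ∈ S) → c.In S := fun S e1 e2 e3 e4 e5 h1 h2 => by
    have e6 := opt hb (zero_mem _) h1
    have e7 := opt hb' (zero_mem _) h2
    refine ⟨e1, e2, e3, ?_, e4, e6, k2 S e1 e2 e5 e6 e7, e5, e7⟩
    rw [g1]
    apply_rules (maxDepth := 100) [add_mem, mul_mem, div_mem, pow_mem]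
  refine ⟨pick0 [c.c10, c.c01, c.c20, c.c02, c.c12] c.c30 c.c03 le_rfl fun S h h1 h2 => ?_,
    fun ξ ζ hξ hζ hev _ => ?_⟩
  · simp only [List.forall_mem_cons] at h
    exact k S h.1 h.2.1 h.2.2.1 h.2.2.2.1 h.2.2.2.2.1 h1 h2
  by_cases hL : c.c10 * ξ + c.c01 * ζ = 0
  · refine pick 6 [c.c01, c.c20, c.c02, c.c12] c.c30 c.c03 _ le_rfl fun S h h1 h2 h3 => ?_
    simp only [List.forall_mem_cons] at h
    refine k S ?_ h.1 h.2.1 h.2.2.1 h.2.2.2.1 h1 h2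
    have : c.c10 = -(c.c01 * ζ) / ξ := by
      rw [eq_div_iff hξ]
      linear_combination hL
    rw [this]
    exact div_mem (neg_mem (mul_mem h.1 (h3 (Or.inr rfl)))) (h3 (Or.inl rfl))
  · refine pick 6 [c.c10, c.c01, c.c02, c.c12] c.c30 c.c03 _ le_rfl fun S h h1 h2 h3 => ?_
    simp only [List.forall_mem_cons] at h
    obtain ⟨e1, e2, e4, e5, -⟩ := h
    refine k S e1 e2 ?_ e4 e5 h1 h2
    have e6 := opt hb (zero_mem _) h1
    have e7 := opt hb' (zero_mem _) h2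
    have e8 := k2 S e1 e2 e5 e6 e7
    have f1 : ξ ∈ S := h3 (Or.inl rfl)
    have f2 : ζ ∈ S := h3 (Or.inr rfl)
    have : c.c20 = -(c.c10 * c.c01 * (c.c10 * ξ + c.c01 * ζ + c.c30 * ξ ^ 3 + c.c21 * ξ ^ 2 * ζ +
        c.c12 * ξ * ζ ^ 2 + c.c03 * ζ ^ 3) + c.c02 * c.c10 * ζ * (c.c10 * ξ + c.c01 * ζ)) /
        (c.c01 * ξ * (c.c10 * ξ + c.c01 * ζ)) := by
      rw [eq_div_iff (mul_ne_zero (mul_ne_zero h01 hξ) hL)]
      rw [Cub.ev] at hev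
      linear_combination c.c10 * c.c01 * hev + ξ * ζ * hq
    rw [this]
    clear h3 h1 h2 k k2
    apply_rules (maxDepth := 200) [add_mem, mul_mem, div_mem, neg_mem, pow_mem]

lemma gen (hb : b → c.c30 = 0) (hb' : b' → c.c03 = 0) (h2 : c.a2 = 0) (h1 : c.a1 = 0)
    (h0 : c.a0 = 0) (hq : c.q0 ≠ 0) : Con c b b' := by
  obtain ⟨x, hx⟩ : ∃ x, c.X0 = x * c.q0 := ⟨c.X0 / c.q0, (div_mul_cancel₀ _ hq).symm⟩
  obtain ⟨z, hz⟩ : ∃ z, c.Z0 = z * c.q0 := ⟨c.Z0 / c.q0, (div_mul_cancel₀ _ hq).symm⟩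
  have k3 : c.c10 * c.a2 = c.X0 ^ 2 * c.c10 + c.q0 * c.X0 * c.c20 + c.q0 ^ 2 * c.c30 := by
    simp only [Cub.a2, Cub.X0, Cub.q0]; ring
  have k2 : c.c10 * c.a1 + c.c01 * c.a2 = c.X0 ^ 2 * c.c01 + 2 * c.X0 * c.Z0 * c.c10 +
      c.q0 * (c.X0 * c.c11 + c.Z0 * c.c20) + c.q0 ^ 2 * c.c21 := by
    simp only [Cub.a2, Cub.a1, Cub.X0, Cub.Z0, Cub.q0]; ring
  have k1 : c.c10 * c.a0 + c.c01 * c.a1 = 2 * c.X0 * c.Z0 * c.c01 + c.Z0 ^ 2 * c.c10 +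
      c.q0 * (c.X0 * c.c02 + c.Z0 * c.c11) + c.q0 ^ 2 * c.c12 := by
    simp only [Cub.a0, Cub.a1, Cub.X0, Cub.Z0, Cub.q0]; ring
  have k0 : c.c01 * c.a0 = c.Z0 ^ 2 * c.c01 + c.q0 * c.Z0 * c.c02 + c.q0 ^ 2 * c.c03 := by
    simp only [Cub.a0, Cub.Z0, Cub.q0]; ring
  rw [h2, hx] at k3
  rw [h1, h2, hx, hz] at k2
  rw [h0, h1, hx, hz] at k1
  rw [h0, hz] at k0
  have hq2 := pow_ne_zero 2 hq
  have g3 : c.c30 = -(x * (x * c.c10 + c.c20)) := mul_left_cancel₀ hq2 (by linear_combination -k3)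
  have g2 : c.c21 = -(x * x * c.c01 + x * z * c.c10 + x * z * c.c10 + x * c.c11 + z * c.c20) :=
    mul_left_cancel₀ hq2 (by linear_combination -k2)
  have g1 : c.c12 = -(x * z * c.c01 + x * z * c.c01 + z * z * c.c10 + x * c.c02 + z * c.c11) :=
    mul_left_cancel₀ hq2 (by linear_combination -k1)
  have g0 : c.c03 = -(z * (z * c.c01 + c.c02)) := mul_left_cancel₀ hq2 (by linear_combination -k0)
  have k : ∀ S : Subfield F, c.c10 ∈ S → c.c01 ∈ S → c.c11 ∈ S → x ∈ S → c.c20 ∈ S → z ∈ S →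
      c.c02 ∈ S → c.In S := fun S e1 e2 e3 e4 e5 e6 e7 => by
    refine ⟨e1, e2, e5, e3, e7, ?_, ?_, ?_, ?_⟩
    · rw [g3]; apply_rules (maxDepth := 100) [add_mem, mul_mem, neg_mem]
    · rw [g2]; apply_rules (maxDepth := 100) [add_mem, mul_mem, neg_mem]
    · rw [g1]; apply_rules (maxDepth := 100) [add_mem, mul_mem, neg_mem]
    · rw [g0]; apply_rules (maxDepth := 100) [add_mem, mul_mem, neg_mem]
  have p1 : x ≠ 0 → ∀ S : Subfield F, c.c10 ∈ S → x ∈ S → (¬b → c.c20 ∈ S) → c.c20 ∈ S :=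
    fun h S e1 e2 e3 => opt (y' := -(x * c.c10))
      (fun hb0 => mul_left_cancel₀ h (by linear_combination g3 - hb hb0))
      (neg_mem (mul_mem e2 e1)) e3
  have p2 : z ≠ 0 → ∀ S : Subfield F, c.c01 ∈ S → z ∈ S → (¬b' → c.c02 ∈ S) → c.c02 ∈ S :=
    fun h S e1 e2 e3 => opt (y' := -(z * c.c01))
      (fun hb0 => mul_left_cancel₀ h (by linear_combination g0 - hb' hb0))
      (neg_mem (mul_mem e2 e1)) e3
  refine ⟨?_, fun ξ ζ hξ hζ _ hl => ?_⟩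
  · obtain ⟨u, hu⟩ : ∃ u, ∀ S : Subfield F, c.c10 ∈ S → u ∈ S → (¬b → c.c20 ∈ S) →
        x ∈ S ∧ c.c20 ∈ S := by
      by_cases h : x = 0
      · exact ⟨c.c20, fun S _ e _ => ⟨h ▸ zero_mem _, e⟩⟩
      · exact ⟨x, fun S e1 e2 e3 => ⟨e2, p1 h S e1 e2 e3⟩⟩
    obtain ⟨w, hw⟩ : ∃ w, ∀ S : Subfield F, c.c01 ∈ S → w ∈ S → (¬b' → c.c02 ∈ S) →
        z ∈ S ∧ c.c02 ∈ S := by
      by_cases h : z = 0
      · exact ⟨c.c02, fun S _ e _ => ⟨h ▸ zero_mem _, e⟩⟩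
      · exact ⟨z, fun S e1 e2 e3 => ⟨e2, p2 h S e1 e2 e3⟩⟩
    refine pick0 [c.c10, c.c01, c.c11, u, w] c.c20 c.c02 le_rfl fun S h e1 e2 => ?_
    simp only [List.forall_mem_cons] at h
    obtain ⟨e3, e4⟩ := hu S h.1 h.2.2.2.1 e1
    obtain ⟨e5, e6⟩ := hw S h.2.1 h.2.2.2.2.1 e2
    exact k S h.1 h.2.1 h.2.2.1 e3 e4 e5 e6
  have hl' : ξ * x + ζ * z = 1 := mul_right_cancel₀ hq (by rw [hx, hz] at hl; linear_combination hl)
  by_cases hz0 : z = 0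
  · have h3 : x = ξ⁻¹ := eq_inv_of_mul_eq_one_right (by rw [← hl', hz0]; ring)
    refine pick 6 [c.c10, c.c01, c.c11, c.c02] c.c20 c.c02 _ le_rfl fun S h e1 e2 e3 => ?_
    simp only [List.forall_mem_cons] at h
    have e4 : x ∈ S := h3 ▸ inv_mem (e3 (Or.inl rfl))
    exact k S h.1 h.2.1 h.2.2.1 e4 (p1 (h3 ▸ inv_ne_zero hξ) S h.1 e4 e1) (hz0 ▸ zero_mem _)
      h.2.2.2.1
  by_cases hx0 : x = 0
  · have h3 : z = ζ⁻¹ := eq_inv_of_mul_eq_one_right (by rw [← hl', hx0]; ring)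
    refine pick 6 [c.c10, c.c01, c.c11, c.c20] c.c20 c.c02 _ le_rfl fun S h e1 e2 e3 => ?_
    simp only [List.forall_mem_cons] at h
    have e4 : z ∈ S := h3 ▸ inv_mem (e3 (Or.inr rfl))
    exact k S h.1 h.2.1 h.2.2.1 (hx0 ▸ zero_mem _) h.2.2.2.1 e4 (p2 hz0 S h.2.1 e4 e2)
  · refine pick 6 [c.c10, c.c01, c.c11, z] c.c20 c.c02 _ le_rfl fun S h e1 e2 e3 => ?_
    simp only [List.forall_mem_cons] at h
    have h3 : x = (1 - ζ * z) / ξ := by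
      rw [eq_div_iff hξ]
      linear_combination hl'
    have e4 : x ∈ S := h3 ▸ div_mem (sub_mem (one_mem _) (mul_mem (e3 (Or.inr rfl)) h.2.2.2.1))
      (e3 (Or.inl rfl))
    exact k S h.1 h.2.1 h.2.2.1 e4 (p1 hx0 S h.1 e4 e1) h.2.2.2.1 (p2 hz0 S h.2.1 h.2.2.2.1 e2)

end NOLB

theorem st_NOL : St_NOL := by
  intro F _ c b b' hb hb' h2 h1 h0
  show NOLB.Con c b b'
  by_cases hq : c.q0 = 0
  swap
  · exact NOLB.gen hb hb' h2 h1 h0 hq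
  have hX : c.X0 = 0 := by
    rw [Cub.a2, hq, zero_mul, add_zero] at h2
    exact pow_eq_zero_iff two_ne_zero |>.1 h2
  have hZ : c.Z0 = 0 := by
    rw [Cub.a0, hq, zero_mul, add_zero] at h0
    exact pow_eq_zero_iff two_ne_zero |>.1 h0
  by_cases h10 : c.c10 = 0 <;> by_cases h01 : c.c01 = 0
  · exact NOLB.two hb hb' c.c20 c.c02 fun S e1 e2 => ⟨h10 ▸ zero_mem _, h01 ▸ zero_mem _, e1, e2⟩
  · have h : c.c20 = 0 := mul_right_cancel₀ (pow_ne_zero 2 h01) (by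
      rw [Cub.q0, h10] at hq; linear_combination hq)
    exact NOLB.two hb hb' c.c01 c.c02 fun S e1 e2 => ⟨h10 ▸ zero_mem _, e1, h ▸ zero_mem _, e2⟩
  · have h : c.c02 = 0 := mul_right_cancel₀ (pow_ne_zero 2 h10) (by
      rw [Cub.q0, h01] at hq; linear_combination hq)
    exact NOLB.two hb hb' c.c10 c.c20 fun S e1 e2 => ⟨e1, h01 ▸ zero_mem _, e2, h ▸ zero_mem _⟩
  · exact NOLB.deg hb hb' hq hX hZ h10 h01

end Pool.Agent.Lib.TF
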