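import Pool.Agent.Lib.TF.Blue

open Set Pool.Agent.Lib.MP_e39d36_ag Pool.Agent.Lib.MP_e39d36_ag.Var Pool.Agent.Lib.DU
  Pool.Agent.Lib.MV
open scoped Classical NNReal

set_option linter.unusedSectionVars false
set_option linter.unusedVariables false

noncomputable section

namespace Pool.Agent.Lib.TF

open Fano

namespace NORMB

variable {T : Fano} {K : Type} [Field K] [Algebra ℂ K] {M : T.Mod K}

lemma fix_hom {z : T.Ray} {φ : RingAut K} {e : M.X.PD ≃ M.X.PD} (h : M.Iot z φ e) {G : T.R}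
    (hG : Hom (T.v z) 0 G) : φ (M.ψ G) = M.ψ G := by
  rw [eq_sum G, map_sum, map_sum]
  refine Finset.sum_congr rfl fun u hu => ?_
  rw [map_smul, Algebra.smul_def, map_mul, h.ps.1]
  exact congrArg _ (h.fix u (hG u (Finsupp.mem_support_iff.1 hu)))

lemma tp_z (h1 : T.C1a) {z z' : T.Ray} (a : T.Λ) : T.Tp ℤ z z' a z = -a z' := by
  have e1 : (Finset.univ.filter fun y => T.Tri z z y) = ∅ :=
    Finset.filter_eq_empty_iff.2 fun y _ h => by
      have h2 : T.v y = (2 : ℤ) • T.v z := by rw [two_smul]; exact Eq.symm h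
      refine T.ne z (funext fun i => ?_)
      have h3 := congrFun h2 i
      rcases h1.prim y z 2 h2 with rfl | h4
      · simp at h3 ⊢
        omega
      · have h5 := congrFun h4 i
        simp at h3 h5 ⊢
        omega
  have e2 : (Finset.univ.filter fun x => T.Tri x z z) = ∅ :=
    Finset.filter_eq_empty_iff.2 fun x _ h => T.ne x (add_eq_right.1 h)
  rw [Tp_apply, e1, e2, if_pos (Or.inl rfl)]
  simp

end NORMB

open NORMB in
theorem st_NORM (hC0 : St_C0) (hC1 : St_C1A) (hB : St_BAS) (h0 : St_IOT0) (h2 : St_IOT2)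
    (h3 : St_IOT3) (hN : St_NRM0) : St_NORM := by
  rintro T K _ _ M a ⟨s, hs0, hs⟩ z z' ho h j hh hz hz' hsum
  have B := hB T K M
  obtain ⟨φ, e, I⟩ := h0 T K M z z' ho
  have hC : M.ψ (inn (T.v z) (-1) M.f) ≠ 0 := (h2 T K M z z' ho φ e I).1
  have hA : M.ψ (inn (T.v z) 1 M.f) ≠ 0 := fun h => hC (by rw [← I.sw, h, map_zero])
  obtain ⟨m, hm, hm'⟩ := (hC0 T).ray z
  obtain ⟨u₀, hu₀⟩ := (hC0 T).dual m hm 1
  have hu : u₀ ⬝ᵥ T.v z = 1 := hu₀ z (hm' (Finset.mem_singleton_self z))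
  set c := M.ψ (inn (T.v z) (-1) M.f) ^ a z * M.ψ (inn (T.v z) 1 M.f) ^ a z' with hc
  have hc0 : c ≠ 0 := mul_ne_zero (zpow_ne_zero _ hC) (zpow_ne_zero _ hA)
  have hφ : φ s ≠ 0 := (map_ne_zero φ).2 hs0
  have ht0 : s * (c * φ s) ≠ 0 := mul_ne_zero hs0 (mul_ne_zero hc0 hφ)
  have ht : s * (c * φ s) ∈ M.Sec (a + T.Tp ℤ z z' a) := by
    have a1 := (B.mem' a s hs0).1 hs
    have a2 : 0 ≤ End.push e (M.std a + M.X.div s) := fun E => a1 _
    rw [map_add, I.ps.push_div, h3 T K M z z' ho φ e I a, ← hc] at a2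
    rw [B.mem' _ _ ht0, map_add, End.div_mul hs0 (mul_ne_zero hc0 hφ), End.div_mul hc0 hφ]
    refine (add_nonneg a1 a2).trans_eq ?_
    abel
  have f1 : φ (M.ψ (inn (T.v z) (-1) M.f) * M.χ u₀) = M.ψ (inn (T.v z) (-1) M.f) * M.χ u₀ := by
    have := fix_hom I (G := inn (T.v z) (-1) M.f * mn u₀)
      (by simpa using Hom.mul (a := -1) (b := 1) sup_part (sup_mn.2 hu))
    rwa [map_mul] at this
  have f2 : φ (M.ψ (inn (T.v z) 1 M.f) * M.χ (-u₀)) = M.ψ (inn (T.v z) 1 M.f) * M.χ (-u₀) := by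
    have := fix_hom I (G := inn (T.v z) 1 M.f * mn (-u₀)) (by
      simpa using Hom.mul (a := 1) (b := -1) sup_part (sup_mn.2 (by rw [neg_dotProduct, hu])))
    rwa [map_mul] at this
  have f3 : c * M.χ ((a z - a z') • u₀) = (M.ψ (inn (T.v z) (-1) M.f) * M.χ u₀) ^ a z *
      (M.ψ (inn (T.v z) 1 M.f) * M.χ (-u₀)) ^ a z' := by
    rw [M.χ_zsmul, M.χ_neg, zpow_sub₀ (M.χ_ne _), mul_zpow, mul_zpow, inv_zpow, hc]
    ring
  have f4 : φ (c * M.χ ((a z - a z') • u₀)) = c * M.χ ((a z - a z') • u₀) := by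
    rw [f3, map_mul, map_zpow₀, map_zpow₀, f1, f2]
  set t := s * (c * φ s) * M.χ ((a z - a z') • u₀) with htd
  have f5 : φ t = t := by
    have : t = s * φ s * (c * M.χ ((a z - a z') • u₀)) := by rw [htd]; ring
    rw [this, map_mul, f4, map_mul, I.inv, mul_comm (φ s)]
  obtain ⟨G, H, hG, hH, hH0, hGH⟩ := I.fxd t f5
  have hH1 := B.ne _ _ H (T.ne z) hH hH0
  obtain ⟨Q, -, hQ⟩ := B.sec ∅ ⟨m, hm, Finset.empty_subset _⟩ 0 t (fun E hE =>
    ge_mono (ge_mul (((B.mem _ _).1 ht).1 E hE) (B.geN E hE (mn _))) (by omega)) (by simp)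
  obtain ⟨N, hN1, hN2⟩ := hN T K M z z' ho G H Q hG hH hH0 (by rw [hQ, hGH]; field_simp)
  have hN3 : M.ψ N = t := by rw [hGH, hN2, map_mul, mul_div_cancel_left₀ _ hH1]
  have hN0 : N ≠ 0 := fun e => mul_ne_zero ht0 (M.χ_ne _) (by rw [← htd, ← hN3, e, map_zero])
  obtain ⟨u, hu1⟩ := ne_zero_iff.1 hN0
  have key : ∀ ρ, 0 ≤ h ρ * ((u - (a z - a z') • u₀) ⬝ᵥ T.v ρ + (a + T.Tp ℤ z z' a) ρ) := by
    intro ρ
    by_cases e1 : ρ = z
    · rw [e1, hz, zero_mul]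
    by_cases e2 : ρ = z'
    · rw [e2, hz', zero_mul]
    refine mul_nonneg (hh ρ) ?_
    obtain ⟨b, b1, b2⟩ := exists_lo hN0 (T.v ρ)
    have b3 := (B.val ρ (T.v z) 0 b N (fun ⟨i, hi⟩ => ((hC1 T).prim z ρ i hi).elim
      (fun e => e1 e.symm) fun e => e2 (e.symm.uniq ho)) hN1 b1 b2).2
    have b4 := (ge_iff ht0).1 (((B.mem _ _).1 ht).2 ρ)
    have b5 : b ≤ u ⬝ᵥ T.v ρ := b1 u hu1
    rw [hN3, htd, ord_mul ht0 (M.χ_ne _), (M.isD ρ).1] at b3
    rw [sub_dotProduct]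
    omega
  have k2 := Finset.sum_nonneg fun ρ (_ : ρ ∈ Finset.univ) => key ρ
  have k3 : ∑ ρ, h ρ * (u - (a z - a z') • u₀) ⬝ᵥ T.v ρ = -(j * (a z - a z')) := by
    have : u ⬝ᵥ T.v z = 0 := hN1 u hu1
    rw [← Finset.sum_congr rfl fun ρ _ => (dotProduct_smul (h ρ) _ _).trans (smul_eq_mul _ _),
      ← dotProduct_sum, hsum, dotProduct_smul, sub_dotProduct, smul_dotProduct, this, hu]
    simp only [smul_eq_mul]
    ring
  simp only [mul_add, Finset.sum_add_distrib, k3] at k2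
  rw [Pi.add_apply a, tp_z (hC1 T), ← sub_eq_add_neg, dotProduct]
  omega

end Pool.Agent.Lib.TF
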