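import Pool.Agent.Lib.TF.Blue

open Set Pool.Agent.Lib.MP_e39d36_ag Pool.Agent.Lib.MP_e39d36_ag.Var Pool.Agent.Lib.DU
  Pool.Agent.Lib.MV
open scoped Classical

noncomputable section

namespace Pool.Agent.Lib.TF

open Fano

namespace NRM0B

variable {n : ℕ} {w : Fin n → ℤ} {π f G P : La n} {d : ℤ}

lemma inn_hom_mul (h : Hom w d π) (Q : La n) (k : ℤ) :
    inn w k (π * Q) = π * inn w (k - d) Q := by
  have h1 : Hom w k (π * inn w (k - d) Q) := by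
    simpa using Hom.mul h (sup_part (S := fun u => u ⬝ᵥ w = k - d) (G := Q))
  have h2 : Sup (fun u => ¬u ⬝ᵥ w = k) (π * part (fun u => ¬u ⬝ᵥ w = k - d) Q) :=
    Sup.mul h sup_part fun u u' h1 h2 => by rw [add_dotProduct]; omega
  conv_lhs => rw [← part_add_part_not (S := fun u => u ⬝ᵥ w = k - d) (G := Q)]
  rw [mul_add, inn, part_add, part_of_sup h1, part_eq_zero h2, add_zero]

lemma dvd_inn (h : Hom w d π) (hd : π ∣ G) (k : ℤ) : π ∣ inn w k G := by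
  obtain ⟨Q, rfl⟩ := hd
  exact inn_hom_mul h Q k ▸ dvd_mul_right _ _

lemma dvd_part (S : ℤ → Prop) (h : ∀ k, S k → π ∣ inn w k P) :
    π ∣ part (fun u => S (u ⬝ᵥ w)) P := by
  have e : part (fun u => S (u ⬝ᵥ w)) P =
      ∑ k ∈ (P.coeff.support.image fun u => u ⬝ᵥ w).filter S, inn w k P := La.ext fun u => by
    rw [AddMonoidAlgebra.coeff_sum, Finsupp.finsetSum_apply]
    simp only [coeff_part]
    by_cases h0 : P.coeff u = 0
    · simp [h0]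
    have hm := Finset.mem_image_of_mem (fun u => u ⬝ᵥ w) (Finsupp.mem_support_iff.2 h0)
    split_ifs with hS
    · symm
      exact (Finset.sum_eq_single_of_mem _ (Finset.mem_filter.2 ⟨hm, hS⟩)
        fun k _ hk => if_neg hk.symm).trans (if_pos rfl)
    · exact (Finset.sum_eq_zero fun k hk => if_neg fun (e : u ⬝ᵥ w = k) =>
        hS (e ▸ (Finset.mem_filter.1 hk).2)).symm
  exact e ▸ Finset.dvd_sum fun k hk => h k (Finset.mem_filter.1 hk).2

lemma low (hP : ¬π ∣ P) : ∃ a P', π ∣ P - P' ∧ Lo w a P' ∧ inn w a P' = inn w a P ∧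
    ¬π ∣ inn w a P ∧ ∀ k, ¬π ∣ inn w k P → a ≤ k := by
  have e : ∀ k, ¬π ∣ inn w k P → inn w k (part (fun u => ¬π ∣ inn w (u ⬝ᵥ w) P) P) = inn w k P :=
    fun k hk => part_part.trans (part_congr fun u _ => and_iff_left_of_imp fun h => h ▸ hk)
  have h1 : π ∣ P - part (fun u => ¬π ∣ inn w (u ⬝ᵥ w) P) P := by
    rw [sub_eq_of_eq_add (part_add_part_not (S := fun u => π ∣ inn w (u ⬝ᵥ w) P) (G := P)).symm]
    exact dvd_part (fun k => π ∣ inn w k P) fun _ h => h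
  obtain ⟨a, h2, u, h3, h4⟩ := exists_lo (G := part (fun u => ¬π ∣ inn w (u ⬝ᵥ w) P) P)
    (fun h => hP (by simpa [h] using h1)) w
  have h5 : ¬π ∣ inn w a P := h4 ▸ sup_part u h3
  refine ⟨a, _, h1, h2, e a h5, h5, fun k hk => ?_⟩
  obtain ⟨u', h6, h7⟩ := inn_ne_zero.1 fun h => hk (((e k hk).symm.trans h) ▸ dvd_zero π)
  exact h7 ▸ h2 u' h6

lemma low_mul (hπ : Prime π) (h : Hom w d π) (hf : ¬π ∣ f) (hP : ¬π ∣ P) {e : ℤ} (hG : Hom w e G)
    (hd : π ∣ G - f * P) : ∃ a b, a + b = e ∧ ¬π ∣ inn w b P ∧ (∀ k, ¬π ∣ inn w k f → a ≤ k) ∧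
      ∀ k, ¬π ∣ inn w k P → b ≤ k := by
  obtain ⟨a, f', a1, a2, a3, a4, a5⟩ := low (w := w) hf
  obtain ⟨b, P', b1, b2, b3, b4, b5⟩ := low (w := w) hP
  refine ⟨a, b, by_contra fun hne => ?_, b4, a5, b5⟩
  have h1 : π ∣ G - f' * P' := by
    have : G - f' * P' = G - f * P + ((f - f') * P + f' * (P - P')) := by ring
    exact this ▸ dvd_add hd (dvd_add (a1.mul_right _) (b1.mul_left _))
  have h2 := dvd_inn h h1 (a + b)
  rw [inn, part_sub, part_eq_zero (Sup.mono hG fun u hu => by omega), zero_sub, dvd_neg,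
    show part _ (f' * P') = _ from inn_mul a2 b2, a3, b3] at h2
  exact (hπ.dvd_or_dvd h2).elim a4 b4

lemma inn_neg (k : ℤ) (P : La n) : inn (-w) (-k) P = inn w k P :=
  part_congr fun u _ => by rw [dotProduct_neg]; omega

lemma hom_neg (h : Hom w d G) : Hom (-w) (-d) G := Sup.mono h fun u hu => by
  rw [dotProduct_neg, hu]

lemma dvd_of (hπ : Prime π) (h : Hom w d π) {i j : ℤ} (hij : i < j) (hi : ¬π ∣ inn w i f)
    (hj : ¬π ∣ inn w j f) {e : ℤ} (hG : Hom w e G) (hd : π ∣ G - f * P) : π ∣ P := by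
  by_contra hP
  have hf : ¬π ∣ f := fun h' => hi (dvd_inn h h' i)
  obtain ⟨a, b, e1, -, a1, b1⟩ := low_mul hπ h hf hP hG hd
  obtain ⟨a', b', e2, b2, a2, -⟩ := low_mul hπ (hom_neg h) hf hP (hom_neg hG) hd
  have h1 := a1 i hi
  have h2 := a2 (-j) (by rwa [inn_neg])
  have h3 := b1 (-b') (by rwa [← inn_neg, neg_neg])
  omega

lemma main (hU : UniqueFactorizationMonoid (La n))
    (hf : ∀ π, Prime π → ∃ i j, i < j ∧ ¬π ∣ inn w i f ∧ ¬π ∣ inn w j f) (Q H : La n) :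
    H ≠ 0 → ∀ d, Hom w d H → ∀ (G P : La n) (e : ℤ), Hom w e G → G - H * Q = f * P → H ∣ G := by
  induction H using UniqueFactorizationMonoid.induction_on_prime with
  | h₁ => exact fun h => absurd rfl h
  | h₂ H hH => exact fun _ _ _ G _ _ _ _ => hH.dvd
  | h₃ H π h0 hπ ih =>
    intro h1 d hd G P e hG E
    obtain ⟨c, hc⟩ := Hom.of_mul h1 hd
    obtain ⟨i, j, hij, hi, hj⟩ := hf π hπ
    have h2 : π ∣ G - f * P := ⟨H * Q, by rw [← E]; ring⟩
    obtain ⟨P₁, rfl⟩ := dvd_of hπ hc hij hi hj hG h2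
    obtain ⟨G₁, rfl⟩ : π ∣ G := ⟨H * Q + f * P₁, by linear_combination E⟩
    refine mul_dvd_mul_left π (ih h0 (d - c) (hc.cancel hπ.ne_zero (by simpa using hd)) G₁ P₁ (e - c)
      (hc.cancel hπ.ne_zero (by simpa using hG)) (mul_left_cancel₀ hπ.ne_zero ?_))
    linear_combination E

end NRM0B

open NRM0B in
theorem st_NRM0 (h0 : St_C0) (hU : St_UFD) (hC : St_COPR) : St_NRM0 := by
  intro T K _ _ M z z' ho G H Q hG hH hne E
  have hv : ∀ ρ, ∃ u, T.P u ∧ u ⬝ᵥ T.v ρ = -1 := fun ρ => by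
    obtain ⟨m, h1, h2⟩ := (h0 T).ray ρ
    exact ⟨m, h1.1, mem_F.1 (h2 (Finset.mem_singleton_self ρ))⟩
  have e1 := hv z
  have e2 : ∃ u, T.P u ∧ u ⬝ᵥ T.v z = 0 := ⟨0, fun ρ => by simp, by simp⟩
  have e3 : ∃ u, T.P u ∧ u ⬝ᵥ T.v z = 1 := (hv z').imp fun u hu =>
    ⟨hu.1, by have := ho.dot u; omega⟩
  have c12 := hC T M.f M.gen _ _ e1 e2 fun u h => by omega
  have c13 := hC T M.f M.gen _ _ e1 e3 fun u h => by omega
  have c23 := hC T M.f M.gen _ _ e2 e3 fun u h => by omega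
  obtain ⟨P, hP⟩ := (M.ker (G - H * Q)).1 (by rw [map_sub, map_mul, E, sub_self])
  suffices hf : ∀ π, Prime π → ∃ i j, i < j ∧ ¬π ∣ inn (T.v z) i M.f ∧ ¬π ∣ inn (T.v z) j M.f by
    obtain ⟨N, rfl⟩ := main (hU ℂ T.n) hf Q H hne 0 hH G P 0 hG hP
    exact ⟨N, hH.cancel hne (by simpa using hG), rfl⟩
  intro π hπ
  by_cases h1 : π ∣ inn (T.v z) (-1) M.f
  · exact ⟨0, 1, by omega, fun h => hπ.not_isUnit (c12 h1 h), fun h => hπ.not_isUnit (c13 h1 h)⟩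
  by_cases h2 : π ∣ inn (T.v z) 0 M.f
  · exact ⟨-1, 1, by omega, h1, fun h => hπ.not_isUnit (c23 h2 h)⟩
  · exact ⟨-1, 0, by omega, h1, h2⟩

end Pool.Agent.Lib.TF
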