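import Pool.Agent.Lib.TF.Blue

open Set Pool.Agent.Lib.MP_e39d36_ag Pool.Agent.Lib.MP_e39d36_ag.Var Pool.Agent.Lib.DU
  Pool.Agent.Lib.MV
open scoped Classical

set_option linter.unusedVariables false

noncomputable section

namespace Pool.Agent.Lib.TF

open Fano

namespace NYB

variable {T : Fano} {K : Type} [Field K] [Algebra ℂ K]

lemma mem_Z {j : ℤ} {s : Finset T.Vx} {G : T.R} :
    G ∈ T.Zs ∅ j s ↔ (s = ∅ → G = 0) ∧ ∀ ρ ∈ T.fc s, Lo (T.v ρ) j G :=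
  ⟨fun h => ⟨h.1, h.2.2⟩, fun h => ⟨h.1, fun _ h => absurd h (Finset.notMem_empty _), h.2⟩⟩

lemma mem_fc {s : Finset T.Vx} {ρ : T.Ray} : ρ ∈ T.fc s ↔ ∀ m ∈ s, ρ ∈ T.F m.1 := by
  simp only [fc, Finset.mem_filter, Finset.mem_univ, true_and]

lemma Z_mono (j : ℤ) : Monotone (T.Zs ∅ j) := fun s s' h G hG => mem_Z.2
  ⟨fun e => (mem_Z.1 hG).1 (Finset.subset_empty.1 (e ▸ h)),
    fun ρ hρ => (mem_Z.1 hG).2 ρ (mem_fc.2 fun m hm => mem_fc.1 hρ m (h hm))⟩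

lemma face_fc {s : Finset T.Vx} (h : s ≠ ∅) : T.Face (T.fc s) := by
  obtain ⟨m, hm⟩ := Finset.nonempty_iff_ne_empty.2 h
  exact ⟨m.1, m.2, fun ρ hρ => mem_fc.1 hρ m hm⟩

/-- Restrictions of cochains to the hypersurface. -/
def Y (M : T.Mod K) (j : ℤ) (s : Finset T.Vx) : AddSubgroup K :=
  (T.Zs ∅ j s).map M.ψ.toRingHom.toAddMonoidHom

lemma mem_Y {M : T.Mod K} {j : ℤ} {s : Finset T.Vx} {z : K} :
    z ∈ Y M j s ↔ ∃ G ∈ T.Zs ∅ j s, M.ψ G = z := Iff.rfl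

lemma Y_mono (M : T.Mod K) (j : ℤ) : Monotone (Y M j) := fun _ _ h =>
  AddSubgroup.map_mono (Z_mono j h)

lemma Y_empty {M : T.Mod K} {j : ℤ} {z : K} (h : z ∈ Y M j ∅) : z = 0 := by
  obtain ⟨G, h1, rfl⟩ := mem_Y.1 h
  rw [h1.1 rfl, map_zero]

lemma Y_zero {M : T.Mod K} {s : Finset T.Vx} (h : s ≠ ∅) {z : K} :
    z ∈ Y M 0 s ↔ z ∈ M.B (T.fc s) := by
  rw [mem_Y, Mod0.mem_B]
  simp only [mem_Z, mem_S, h, false_imp_iff, true_and, Pi.zero_apply, neg_zero]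

lemma ses1 (M : T.Mod K) (j : ℤ) : SES (T.Zs ∅ (j + 1)) (T.Zs ∅ j) (Y M j)
    (AddMonoidHom.mulLeft M.f) M.ψ.toRingHom.toAddMonoidHom := by
  have hf : M.f ≠ 0 := ne_zero_iff.2 ⟨0, M.gen.ne fun ρ => by simp⟩
  exact
    { mA := Z_mono _
      mB := Z_mono _
      inj := fun s x _ h => (mul_eq_zero.1 h).resolve_left hf
      fm := fun s x hx => mem_Z.2 ⟨fun e => by rw [(mem_Z.1 hx).1 e, map_zero], fun ρ hρ =>
        (Lo.mul (M.gen.lo ρ) ((mem_Z.1 hx).2 ρ hρ)).le (by omega)⟩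
      gm := fun s y hy => ⟨y, hy, rfl⟩
      gf := fun s x _ => (M.ker _).2 (dvd_mul_right _ _)
      ex := fun s y hy h => by
        obtain ⟨x, rfl⟩ := (M.ker y).1 h
        refine ⟨x, ?_, rfl⟩
        by_cases hs : s = ∅
        · rw [(mul_eq_zero.1 (hy.1 hs)).resolve_left hf]
          exact zero_mem _
        · obtain ⟨m, hm⟩ := Finset.nonempty_iff_ne_empty.2 hs
          refine mem_Z.2 ⟨fun e => absurd e hs, fun ρ hρ => (M.gen.lo ρ).cancel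
            ⟨m.1, M.gen.ne m.2.1, mem_F.1 (mem_fc.1 hρ m hm)⟩ ?_⟩
          exact ((mem_Z.1 hy).2 ρ hρ).le (by omega)
      su := fun s z hz => hz }

end NYB

open NYB in
theorem st_NY (hV : St_VANZ) (hR : St_REL) (hF : St_FRM) : St_NY := by
  intro T K _ _ M
  obtain ⟨-, -, -, r1, r2⟩ := hR T K M
  obtain ⟨-, -, f3, -⟩ := hF T K M
  have hn := T.dim
  have h0 : T.Face ∅ := (T.cov 0).imp fun _ h => ⟨h.1, Finset.empty_subset _⟩
  have hY : ∀ j q, 2 ≤ q → q ≤ 3 → Ex (T.W ∅) (Y M j) q := fun j q h1 h2 =>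
    (ses1 M j).exC (hV T ∅ j q h0 h1 (by simp; omega))
      (hV T ∅ (j + 1) (q + 1) h0 (by omega) (by simp; omega))
  have S : SES (Y M 1) (fun s => AddSubgroup.pi univ fun _ : Fin T.n => Y M 0 s) M.Om
      (LinearMap.toSpanSingleton K _ M.θ).toAddMonoidHom M.β.toAddMonoidHom :=
    { mA := Y_mono M 1
      mB := fun s s' h g hg i hi => Y_mono M 0 h (hg i hi)
      inj := fun s k _ h => (smul_eq_zero.1 h).resolve_right r1
      fm := fun s k hk i _ => by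
        obtain ⟨G, h1, rfl⟩ := mem_Y.1 hk
        refine mem_Y.2 ⟨G * ld (Pi.single i 1) M.f, mem_Z.2 ⟨fun e => by rw [h1.1 e, zero_mul],
          fun ρ hρ => ?_⟩, map_mul _ _ _⟩
        exact (Lo.mul ((mem_Z.1 h1).2 ρ hρ) (Sup.ld (M.gen.lo ρ) _)).le (by omega)
      gm := fun s g hg => by
        rw [Mod0.Om]
        split_ifs with hs
        · subst hs
          rw [show g = 0 from funext fun i => Y_empty (hg i trivial), map_zero]
          exact zero_mem _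
        · exact ⟨g, fun i hi => (Y_zero hs).1 (hg i hi), rfl⟩
      gf := fun s k _ => (r2 _).2 ⟨k, rfl⟩
      ex := fun s g hg h => by
        by_cases hs : s = ∅
        · subst hs
          exact ⟨0, zero_mem _, (map_zero _).trans (funext fun i => Y_empty (hg i trivial)).symm⟩
        · obtain ⟨k, rfl⟩ := (r2 g).1 h
          obtain ⟨G, h1, h2⟩ := (f3 _ (face_fc hs) k).1 fun i => (Y_zero hs).1 (hg i trivial)
          exact ⟨k, mem_Y.2 ⟨G, mem_Z.2 ⟨fun e => absurd e hs, fun ρ hρ => h1 ρ hρ⟩, h2⟩, rfl⟩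
      su := fun s z hz => by
        rw [Mod0.Om] at hz
        split_ifs at hz with hs
        · exact ⟨0, zero_mem _, (map_zero _).trans (AddSubgroup.mem_bot.1 hz).symm⟩
        · obtain ⟨g, h1, h2⟩ := hz
          exact ⟨g, fun i hi => (Y_zero hs).2 (h1 i hi), h2⟩ }
  exact S.exC (Ex.pi fun _ => hY 0 2 le_rfl (by omega)) (hY 1 3 (by omega) le_rfl)

end Pool.Agent.Lib.TF
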