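import Pool.Agent.Lib.TF.Blue

/-! Norms of Laurent polynomials. -/

open Set
open scoped Classical

noncomputable section

namespace Pool.Agent.Lib.TF

namespace ORBB

variable {n : ℕ} {k : Subfield ℂ}

lemma cg_cg (g g' : ℂ ≃ₐ[k] ℂ) (x : La n) :
    cg g.toRingEquiv (cg g'.toRingEquiv x) = cg (g * g').toRingEquiv x := La.ext fun u => by simp

lemma cg_one (x : La n) : cg (1 : ℂ ≃ₐ[k] ℂ).toRingEquiv x = x := La.ext fun u => by simp

lemma fin [Algebra.IsAlgebraic k ℂ] (x : La n) :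
    (range fun g : ℂ ≃ₐ[k] ℂ => cg g.toRingEquiv x).Finite := by
  refine Finite.of_finite_image (f := fun (y : La n) (u : x.coeff.support) => y.coeff u)
    ((Finite.pi' fun u : x.coeff.support =>
      (minpoly k (x.coeff u)).rootSet_finite ℂ).subset ?_) ?_
  · rintro _ ⟨_, ⟨g, rfl⟩, rfl⟩ u
    beta_reduce
    rw [Polynomial.mem_rootSet_of_ne (minpoly.ne_zero (Algebra.IsIntegral.isIntegral _)), coeff_cg]
    exact (Polynomial.aeval_algHom_apply g _ _).trans (by rw [minpoly.aeval, map_zero])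
  · rintro _ ⟨g, rfl⟩ _ ⟨g', rfl⟩ h
    refine La.ext fun u => ?_
    by_cases hu : u ∈ x.coeff.support
    · exact congrFun h ⟨u, hu⟩
    · simp [Finsupp.notMem_support_iff.1 hu]

end ORBB

open ORBB in
theorem st_ORB : St_ORB := by
  intro n k hk x
  have : IsAlgClosure k ℂ := ⟨inferInstance, hk⟩
  have : IsGalois k ℂ := inferInstance
  refine ⟨(fin (k := k) x).toFinset, by simpa using ⟨1, cg_one x⟩, fun y hy => ?_, fun u => ?_⟩
  · obtain ⟨g, rfl⟩ := (Finite.mem_toFinset _).1 hy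
    exact ⟨g.toRingEquiv, fun c hc => g.commutes ⟨c, hc⟩, rfl⟩
  · obtain ⟨c, hc⟩ := (InfiniteGalois.mem_range_algebraMap_iff_fixed (k := k)
      ((∏ y ∈ (fin (k := k) x).toFinset, y).coeff u)).2 fun g => by
        refine (coeff_cg g.toRingEquiv _ u).symm.trans (congrArg (fun y : La n => y.coeff u) ?_)
        rw [map_prod]
        refine Finset.prod_nbij' (cg g.toRingEquiv) (cg g⁻¹.toRingEquiv) ?_ ?_ ?_ ?_ fun _ _ => rfl
        · intro y hy
          obtain ⟨g', rfl⟩ := (Finite.mem_toFinset _).1 hy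
          exact (Finite.mem_toFinset _).2 ⟨g * g', (cg_cg _ _ _).symm⟩
        · intro y hy
          obtain ⟨g', rfl⟩ := (Finite.mem_toFinset _).1 hy
          exact (Finite.mem_toFinset _).2 ⟨g⁻¹ * g', (cg_cg _ _ _).symm⟩
        · intro y _
          rw [cg_cg, inv_mul_cancel, cg_one]
        · intro y _
          rw [cg_cg, mul_inv_cancel, cg_one]
    exact hc ▸ c.2

end Pool.Agent.Lib.TF
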