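import Pool.Agent.Lib.TF.LBlue

open Set
open scoped NNReal Classical

noncomputable section

namespace Pool.Agent.Lib.TF

open Fano

namespace OUTB

variable {T : Fano}

theorem opp {a b ρ σ : T.Ray} (h : T.InV a b ρ) (ho : T.Opp ρ σ) : T.InV a b σ := by
  obtain ⟨i, j, e⟩ := h
  refine ⟨-i, -j, ?_⟩
  rw [eq_neg_of_add_eq_zero_right ho, e, neg_smul, neg_smul, neg_add]

theorem away (C : T.C1) (S S' : T.Pent) (h : ¬T.InV S.v1 S.v3 S'.v1) {ρ : T.Ray}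
    (hρ : T.InV S.v1 S.v3 ρ) : ¬T.InV S'.v1 S'.v3 ρ := fun h' => by
  have h3 : ¬T.InV S.v1 S.v3 S'.v3 := fun e => h (C.plane S _ e _ _ S'.tri.symm).1
  have h2 : ¬T.InV S.v1 S.v3 S'.v2 := fun e => h (C.plane S _ e _ _ (S'.tri.opp S'.o3)).2
  rcases C.inv _ _ _ S'.tri ρ h' with e | e | e | e | e | e
  exacts [h (e ▸ hρ), h3 (e ▸ hρ), h2 (e ▸ hρ), h (opp hρ e.symm), h2 (opp hρ e.symm),
    h3 (opp hρ e.symm)]

theorem key {I : T.Ray → Prop} {d : T.Λ} (h0 : ∀ ρ, ¬I ρ → d ρ = 0) {y b c : T.Ray → ℝ} {γ : ℝ}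
    (hb : ∀ ρ, I ρ → b ρ = y ρ + γ * c ρ) (hc : 0 < rc d ⬝ᵥ c) (h : rc d ⬝ᵥ y ≤ rc d ⬝ᵥ b) :
    0 ≤ γ := by
  have e : rc d ⬝ᵥ b = rc d ⬝ᵥ y + γ * rc d ⬝ᵥ c := by
    simp only [dotProduct, Finset.mul_sum, ← Finset.sum_add_distrib]
    refine Finset.sum_congr rfl fun ρ _ => ?_
    by_cases hρ : I ρ
    · rw [hb ρ hρ]; ring
    · simp [rc, h0 ρ hρ]
  exact nonneg_of_mul_nonneg_left (by linarith) hc

theorem plane (C : T.C1) (h7 : St_PL7) (h6 : St_PL6) (S S' : T.Pent)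
    (h : ¬T.InV S.v1 S.v3 S'.v2) (y : T.Ray → ℝ) : ∃ (l : List T.Gn) (c : ℝ), 0 < c ∧
      ∀ ρ, T.InV S.v1 S.v3 ρ → T.wd ℝ l y ρ = y ρ + (y S'.v2 + y S'.v5 + y S'.v4) * c := by
  have h1 : ¬T.InV S.v1 S.v3 S'.v1 := fun e => h (C.plane S _ e _ _ S'.tri).2
  have h3 : ¬T.InV S.v1 S.v3 S'.v3 := fun e => h (C.plane S _ e _ _ S'.tri.symm).2
  let S3 : T.Pent := ⟨S'.v3, S'.v2, S'.v1, S'.v5, S'.v4, S'.tri.symm, S'.o3, S'.o1⟩
  let q : T.Gn := .q _ _ _ _ (S'.tri.opp S'.o3) S'.o1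
  by_cases h' : ∃ σ, T.Opp S'.v2 σ
  · obtain ⟨v6, o2⟩ := h'
    let S2 : T.Pent := ⟨S'.v2, S'.v1, S'.v5, v6, S'.v3, S'.tri.opp S'.o3, o2, S'.o3.symm⟩
    refine ⟨[.p _ _ S'.o3, .p _ _ S'.o1, .p _ _ o2, q], 2, two_pos, fun ρ hρ => ?_⟩
    have A := h6 T S' v6 o2 ℝ
    have B := h6 T S3 v6 o2 ℝ
    have D := h6 T S2 S'.v4 S'.o1 ℝ
    simp only [wd_cons, wd_nil, act, q]
    rw [(B _).po ρ (away C S S3 h3 hρ), (A _).po ρ (away C S S' h1 hρ), (A _).p3, (A _).p5,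
      (D _).po ρ (away C S S2 h hρ), (D _).p1, (D _).p2, (D _).p4, (D _).p6,
      (A _).qo ρ (away C S S' h1 hρ), (A _).q2, (A _).q3, (A _).q5, (A _).q6]
    ring
  · have h' : ∀ σ, ¬T.Opp S'.v2 σ := not_exists.1 h'
    refine ⟨[.p _ _ S'.o1, .p _ _ S'.o3, q], 3, three_pos, fun ρ hρ => ?_⟩
    have A := h7 T S' h' ℝ
    have B := h7 T S3 h' ℝ
    simp only [wd_cons, wd_nil, act, q]
    rw [(A _).po ρ (away C S S' h1 hρ), (B _).po ρ (away C S S3 h3 hρ), (B _).p3, (B _).p5,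
      (A _).qo ρ (away C S S' h1 hρ), (A _).q2, (A _).q3, (A _).q4, (A _).q5]
    ring

end OUTB

theorem st_OUT (h1 : St_C1) (h7 : St_PL7) (h6 : St_PL6) : St_OUT := by
  intro T S d hd h0 h5 y hy
  have C := h1 T
  have hk : ∀ c : ℝ, 0 < c → 0 < rc d ⬝ᵥ fun _ => c := fun c hc => by
    have h2 : (0 : ℝ) < ∑ σ, (d σ : ℝ) := by
      have := h5 S.v1
      have := hd S.v1
      exact_mod_cast (by omega : 0 < ∑ σ, d σ)
    simpa only [dotProduct, rc, ← Finset.sum_mul] using mul_pos h2 hc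
  refine ⟨fun z z' ho hz => ?_, fun x z y' w ht ho hx => ?_⟩
  · refine OUTB.key h0 (fun ρ hρ => ?_) (hk 1 one_pos) (hy [.p z z' ho])
    have hz' : ¬T.InV S.v1 S.v3 z' := fun e => hz (OUTB.opp e ho.symm)
    simp only [wd_cons, wd_nil, act]
    rw [Tp_apply, if_neg (by rintro (e | e); exacts [hz (e ▸ hρ), hz' (e ▸ hρ)]),
      Finset.sum_eq_zero fun t ht => (hz (C.plane S _ hρ _ _ (Finset.mem_filter.1 ht).2).1).elim,
      Finset.sum_eq_zero fun t ht =>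
        (hz' (C.plane S _ hρ _ _ ((Finset.mem_filter.1 ht).2.opp ho)).1).elim, sub_zero, sub_zero]
  have hz : ¬T.InV S.v1 S.v3 z := fun e => hx (C.plane S _ e _ _ ht.symm).1
  by_cases e1 : ∃ σ, T.Opp z σ
  · obtain ⟨σ, hσ⟩ := e1
    obtain ⟨l, c, hc, h⟩ := OUTB.plane C h7 h6 S ⟨y', x, σ, w, z, ht.opp hσ, ho, hσ.symm⟩ hx y
    exact OUTB.key h0 h (hk c hc) (hy l)
  by_cases e2 : ∃ σ, T.Opp x σ
  · obtain ⟨σ, hσ⟩ := e2
    obtain ⟨l, c, hc, h⟩ :=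
      OUTB.plane C h7 h6 S ⟨y', z, σ, w, x, ht.symm.opp hσ, ho, hσ.symm⟩ hz y
    rw [add_comm (y x)]
    exact OUTB.key h0 h (hk c hc) (hy l)
  have f1 : (Finset.univ.filter fun σ => T.Opp z σ) = ∅ :=
    Finset.filter_eq_empty_iff.2 fun σ _ h => e1 ⟨σ, h⟩
  have f2 : (Finset.univ.filter fun σ => T.Opp x σ) = ∅ :=
    Finset.filter_eq_empty_iff.2 fun σ _ h => e2 ⟨σ, h⟩
  refine OUTB.key h0 (c := fun ρ => 3 * T.ka x z y' ρ - if ρ = w then 2 else 0)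
    (fun ρ hρ => ?_) ?_ (hy [.q x z y' w ht ho])
  · simp only [wd_cons, wd_nil, act]
    rw [Tq_apply, dq, f1, f2]
    simp
  · have h2 : (0 : ℝ) < ∑ σ, (3 * d σ - if σ = w then 5 * (d σ : ℝ) else 0 : ℝ) := by
      rw [Finset.sum_sub_distrib, ← Finset.mul_sum, Finset.sum_ite_eq', if_pos (Finset.mem_univ _),
        sub_pos]
      exact_mod_cast h5 w
    refine h2.trans_le (Finset.sum_le_sum fun ρ _ => ?_)
    have h3 : (0 : ℝ) ≤ d ρ := by exact_mod_cast hd ρ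
    by_cases hρ : T.InV S.v1 S.v3 ρ
    · by_cases e : ρ = w
      · subst e
        simp only [rc, ka, ho, true_or, or_true, if_true]
        push_cast
        linarith
      · have h4 : (1 : ℝ) ≤ T.ka x z y' ρ := by
          rw [ka, if_neg]
          · split_ifs <;> norm_num
          · rintro (f | f | f | f | f)
            exacts [hx (f ▸ hρ), hz (f ▸ hρ), e2 ⟨_, f⟩, e (f.uniq ho), e1 ⟨_, f⟩]
        simp only [rc, if_neg e]
        nlinarith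
    · simp [rc, h0 ρ hρ]

end Pool.Agent.Lib.TF
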