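import Pool.Agent.Lib.TF.LBlue

open Set
open scoped Classical

noncomputable section

namespace Pool.Agent.Lib.TF

open Fano

namespace PL6B

variable {T : Fano} {k : Type} [CommRing k]

lemma sum_none {p : T.Ray → Prop} [DecidablePred p] (h : ∀ y, ¬p y) (f : T.Ray → k) :
    ∑ y with p y, f y = 0 := by
  rw [Finset.filter_eq_empty_iff.2 fun y _ => h y, Finset.sum_empty]

lemma filt_one {p : T.Ray → Prop} [DecidablePred p] {y0 : T.Ray} (h0 : p y0)
    (h : ∀ y, p y → y = y0) : Finset.univ.filter p = {y0} := by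
  ext y
  simp only [Finset.mem_filter, Finset.mem_univ, true_and, Finset.mem_singleton]
  exact ⟨h y, fun e => e ▸ h0⟩

lemma sum_one {p : T.Ray → Prop} [DecidablePred p] {y0 : T.Ray} (h0 : p y0)
    (h : ∀ y, p y → y = y0) (f : T.Ray → k) : ∑ y with p y, f y = f y0 := by
  rw [filt_one h0 h, Finset.sum_singleton]

/-- Coordinates in the plane. -/
def Co (S : T.Pent) (ρ : T.Ray) (i j : ℤ) : Prop := T.v ρ = i • T.v S.v1 + j • T.v S.v3

variable {S : T.Pent} {ρ σ t : T.Ray} {i j i' j' : ℤ}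

lemma Co.inV (h : Co S ρ i j) : T.InV S.v1 S.v3 ρ := ⟨i, j, h⟩

lemma co1 : Co S S.v1 1 0 := by simp [Co]

lemma co3 : Co S S.v3 0 1 := by simp [Co]

lemma co2 : Co S S.v2 1 1 := by simpa [Co] using Eq.symm S.tri

lemma Co.opp (h : Co S ρ i j) (h' : T.Opp ρ σ) : Co S σ (-i) (-j) := by
  have e : T.v σ = -T.v ρ := eq_neg_of_add_eq_zero_right h'
  unfold Co at *
  rw [e, h, neg_smul, neg_smul, neg_add]

lemma co4 : Co S S.v4 (-1) 0 := by simpa using co1.opp S.o1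

lemma co5 : Co S S.v5 0 (-1) := by simpa using co3.opp S.o3

lemma co6 (h : T.Opp S.v2 σ) : Co S σ (-1) (-1) := co2.opp h

lemma Co.add (h : Co S ρ i j) (h' : Co S σ i' j') (ht : T.Tri ρ σ t) :
    Co S t (i + i') (j + j') := by
  unfold Co Tri at *
  rw [← ht, h, h', add_smul, add_smul]
  abel

lemma Co.sub (h : Co S t i j) (h' : Co S σ i' j') (ht : T.Tri ρ σ t) :
    Co S ρ (i - i') (j - j') := by
  unfold Co Tri at *
  rw [eq_sub_of_add_eq ht, h, h', sub_smul, sub_smul]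
  abel

lemma Co.tri (h : Co S ρ i j) (h' : Co S σ i' j') (ht : Co S t (i + i') (j + j')) :
    T.Tri ρ σ t := by
  unfold Co Tri at *
  rw [h, h', ht, add_smul, add_smul]
  abel

lemma Co.eq (c : T.C1) (h : Co S ρ i j) (h' : Co S ρ i' j') : i = i' ∧ j = j' := by
  obtain ⟨u, h1, h2⟩ := c.dual _ _ _ S.tri 1 0
  obtain ⟨u', h3, h4⟩ := c.dual _ _ _ S.tri 0 1
  have e := h.symm.trans h'
  have e1 := congrArg (u ⬝ᵥ ·) e
  have e2 := congrArg (u' ⬝ᵥ ·) e
  simp only [dotProduct_add, dotProduct_smul, h1, h2, h3, h4, smul_eq_mul] at e1 e2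
  omega

lemma Co.ne (c : T.C1) (h : Co S ρ i j) (h' : Co S σ i' j') (hn : ¬(i = i' ∧ j = j')) : ρ ≠ σ :=
  fun e => hn (h.eq c (e ▸ h'))

lemma Co.nopp (c : T.C1) (h : Co S ρ i j) (h' : Co S σ i' j') (hn : ¬(-i = i' ∧ -j = j')) :
    ¬T.Opp ρ σ := fun e => hn ((h.opp e).eq c h')

lemma Co.six (c : T.C1) (h : Co S ρ i j) : (i = 1 ∧ j = 0) ∨ (i = 0 ∧ j = 1) ∨ (i = 1 ∧ j = 1) ∨
    (i = -1 ∧ j = 0) ∨ (i = -1 ∧ j = -1) ∨ (i = 0 ∧ j = -1) := by
  rcases c.inv _ _ _ S.tri ρ h.inV with e | e | e | e | e | e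
  · exact Or.inl (h.eq c (e ▸ co1))
  · exact Or.inr (Or.inl (h.eq c (e ▸ co3)))
  · exact Or.inr (Or.inr (Or.inl (h.eq c (e ▸ co2))))
  · have := h.eq c (co1.opp e); omega
  · have := h.eq c (co2.opp e); omega
  · have := h.eq c (co3.opp e); omega

lemma ne_out (h : ¬T.InV S.v1 S.v3 ρ) (h' : Co S σ i j) : ρ ≠ σ := fun e => h (e ▸ h'.inV)

lemma nopp_out (h : ¬T.InV S.v1 S.v3 ρ) (h' : Co S σ i j) : ¬T.Opp σ ρ :=
  fun e => h (h'.opp e).inV

lemma tri6 : T.Tri σ S.v1 S.v5 ↔ T.Opp S.v2 σ := by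
  constructor
  · intro h
    have e : Co S σ (-1) (-1) := by simpa using co5.sub co1 h
    have e2 : Co S S.v2 1 1 := co2
    unfold Co Opp at *
    rw [e, e2]
    module
  · intro h
    exact (co6 h).tri co1 (by simpa using co5)

variable (c : T.C1) (S : T.Pent) (a : T.Ray → k)
include c

lemma p1 : T.Tp k S.v1 S.v4 a S.v1 = -a S.v4 := by
  rw [Tp_apply, if_pos (Or.inl rfl), sum_none, sum_none]
  · ring
  · intro x h; have := (co1.sub co1 h).six c; omega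
  · intro y h; have := (co1.add co1 h).six c; omega

lemma p2 : T.Tp k S.v1 S.v4 a S.v2 = a S.v1 + a S.v3 := by
  rw [Tp_apply, if_neg, sum_none, sum_one (y0 := S.v3) S.tri.symm fun y h => h.uniq' S.tri.symm]
  · ring
  · intro y h; have := (co2.add co1 h).six c; omega
  · exact not_or.2 ⟨co2.ne c co1 (by omega), co2.ne c co4 (by omega)⟩

lemma p3 : T.Tp k S.v1 S.v4 a S.v3 = a S.v2 + a S.v4 := by
  rw [Tp_apply, if_neg, sum_one (y0 := S.v2) S.tri.symm fun y h => h.uniq S.tri.symm, sum_none]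
  · ring
  · intro y h; have := (co3.sub co1 h).six c; omega
  · exact not_or.2 ⟨co3.ne c co1 (by omega), co3.ne c co4 (by omega)⟩

lemma p4 : T.Tp k S.v1 S.v4 a S.v4 = -a S.v1 := by
  rw [Tp_apply, if_pos (Or.inr rfl), sum_none, sum_none]
  · ring
  · intro x h; have := (co4.sub co1 h).six c; omega
  · intro y h; have := (co4.add co1 h).six c; omega

lemma p5 : T.Tp k S.v1 S.v4 a S.v5 =
    a S.v5 + a S.v1 + a S.v4 - ∑ x with T.Tri x S.v1 S.v5, (a S.v4 - a x + a S.v5) := by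
  rw [Tp_apply, if_neg, sum_none]
  · ring
  · intro y h; have := (co5.add co1 h).six c; omega
  · exact not_or.2 ⟨co5.ne c co1 (by omega), co5.ne c co4 (by omega)⟩

lemma p6 (h6 : T.Opp S.v2 σ) : T.Tp k S.v1 S.v4 a σ = a S.v4 + a S.v5 := by
  rw [Tp_apply, if_neg, sum_one (tri6.2 h6) fun y h => h.uniq (tri6.2 h6), sum_none]
  · ring
  · intro y h; have := ((co6 h6).sub co1 h).six c; omega
  · exact not_or.2 ⟨(co6 h6).ne c co1 (by omega), (co6 h6).ne c co4 (by omega)⟩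

lemma po (h : ¬T.InV S.v1 S.v3 ρ) : T.Tp k S.v1 S.v4 a ρ = a ρ + a S.v1 + a S.v4 := by
  rw [Tp_apply, if_neg, sum_none, sum_none]
  · ring
  · exact fun x e => h (c.plane S _ co1.inV _ _ e.symm).2
  · exact fun y e => h (c.plane S _ co1.inV _ _ e.symm).1
  · exact not_or.2 ⟨ne_out h co1, ne_out h co4⟩

lemma ka1 : T.ka S.v2 S.v5 S.v1 S.v1 = 2 := by
  unfold ka
  rw [if_neg, if_pos]
  · by_contra h
    rcases (c.nf _ _).1 h with e | ⟨y, e⟩
    · exact co1.nopp c co1 (by omega) e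
    · have := (co1.add co1 e).six c; omega
  · simp only [not_or]
    exact ⟨co1.ne c co2 (by omega), co1.ne c co5 (by omega), co2.nopp c co1 (by omega),
      co1.nopp c co1 (by omega), co5.nopp c co1 (by omega)⟩

lemma kao (h : ¬T.InV S.v1 S.v3 ρ) : T.ka S.v2 S.v5 S.v1 ρ = 2 := by
  unfold ka
  rw [if_neg, if_pos]
  · by_contra h'
    rcases (c.nf _ _).1 h' with e | ⟨y, e⟩
    · exact nopp_out h co1 e
    · exact h (c.plane S _ co1.inV _ _ e).1
  · simp only [not_or]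
    exact ⟨ne_out h co2, ne_out h co5, nopp_out h co2, nopp_out h co1, nopp_out h co5⟩

omit c

lemma ka2 : T.ka S.v2 S.v5 S.v1 S.v2 = 0 := if_pos (Or.inl rfl)

lemma ka3 : T.ka S.v2 S.v5 S.v1 S.v3 = 0 := if_pos (Or.inr (Or.inr (Or.inr (Or.inr S.o3.symm))))

lemma ka4 : T.ka S.v2 S.v5 S.v1 S.v4 = 0 := if_pos (Or.inr (Or.inr (Or.inr (Or.inl S.o1))))

lemma ka5 : T.ka S.v2 S.v5 S.v1 S.v5 = 0 := if_pos (Or.inr (Or.inl rfl))

lemma ka6 (h6 : T.Opp S.v2 σ) : T.ka S.v2 S.v5 S.v1 σ = 0 := if_pos (Or.inr (Or.inr (Or.inl h6)))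

lemma q7 (h : ∀ σ, ¬T.Opp S.v2 σ) (ρ : T.Ray) : T.Tq k S.v2 S.v5 S.v1 S.v4 a ρ =
    a ρ + (a S.v2 + a S.v5 + a S.v4) * (2 * T.ka S.v2 S.v5 S.v1 ρ - if ρ = S.v4 then 2 else 0) +
      (a S.v5 + a S.v3) * (T.ka S.v2 S.v5 S.v1 ρ - if ρ = S.v3 then 2 else 0) := by
  have e : T.dq S.v2 S.v5 = 2 := by
    unfold dq
    rw [Finset.filter_eq_empty_iff.2 fun y _ => h y,
      filt_one S.o3.symm fun y e => e.uniq S.o3.symm]
    rfl
  rw [Tq_apply, sum_none h, sum_one S.o3.symm fun y e => e.uniq S.o3.symm, e, add_zero]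
  push_cast
  rfl

lemma q6 (h : T.Opp S.v2 σ) (ρ : T.Ray) : T.Tq k S.v2 S.v5 S.v1 S.v4 a ρ =
    a ρ + (a S.v2 + a S.v5 + a S.v4) * (T.ka S.v2 S.v5 S.v1 ρ - if ρ = S.v4 then 2 else 0) +
      (a S.v2 + a σ) * (T.ka S.v2 S.v5 S.v1 ρ - if ρ = σ then 2 else 0) +
      (a S.v5 + a S.v3) * (T.ka S.v2 S.v5 S.v1 ρ - if ρ = S.v3 then 2 else 0) := by
  have e : T.dq S.v2 S.v5 = 1 := by
    unfold dq
    rw [filt_one h fun y e => e.uniq h, filt_one S.o3.symm fun y e => e.uniq S.o3.symm]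
    rfl
  rw [Tq_apply, sum_one h fun y e => e.uniq h, sum_one S.o3.symm fun y e => e.uniq S.o3.symm, e,
    Int.cast_one, one_mul]

end PL6B

open PL6B in
theorem st_PL6 (h1 : St_C1) : St_PL6 := by
  intro T S v6 h k _ a
  have c := h1 T
  have c6 := co6 h
  refine ⟨p1 c S a, p2 c S a, p3 c S a, p4 c S a, ?_, p6 c S a h, fun ρ e => po c S a e, ?_, ?_,
    ?_, ?_, ?_, ?_, fun ρ e => ?_⟩
  · rw [p5 c, sum_one (y0 := v6) (tri6.2 h) fun x e => e.uniq' (tri6.2 h)]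
    ring
  · rw [q6 S a h, ka1 c, if_neg (co1.ne c co4 (by omega)), if_neg (co1.ne c c6 (by omega)),
      if_neg (co1.ne c co3 (by omega))]
    push_cast
    ring
  · rw [q6 S a h, ka2, if_neg (co2.ne c co4 (by omega)), if_neg (co2.ne c c6 (by omega)),
      if_neg (co2.ne c co3 (by omega))]
    push_cast
    ring
  · rw [q6 S a h, ka3, if_neg (co3.ne c co4 (by omega)), if_neg (co3.ne c c6 (by omega)),
      if_pos rfl]
    push_cast
    ring
  · rw [q6 S a h, ka4, if_pos rfl, if_neg (co4.ne c c6 (by omega)),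
      if_neg (co4.ne c co3 (by omega))]
    push_cast
    ring
  · rw [q6 S a h, ka5, if_neg (co5.ne c co4 (by omega)), if_neg (co5.ne c c6 (by omega)),
      if_neg (co5.ne c co3 (by omega))]
    push_cast
    ring
  · rw [q6 S a h, ka6 S h, if_neg (c6.ne c co4 (by omega)), if_pos rfl,
      if_neg (c6.ne c co3 (by omega))]
    push_cast
    ring
  · rw [q6 S a h, kao c S e, if_neg (ne_out e co4), if_neg (ne_out e c6), if_neg (ne_out e co3)]
    push_cast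
    ring

end Pool.Agent.Lib.TF
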