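import Pool.Agent.Lib.TF.LBlue

open Set
open scoped Classical

noncomputable section

namespace Pool.Agent.Lib.TF

open Fano

namespace PL7B

variable {T : Fano}

theorem sum_one {k : Type} [CommRing k] (p : T.Ray → Prop) [DecidablePred p] (f : T.Ray → k)
    (y : T.Ray) (h : ∀ ρ, p ρ ↔ ρ = y) : ∑ ρ with p ρ, f ρ = f y := by
  have : Finset.univ.filter p = {y} := by
    ext ρ
    simp [h]
  rw [this, Finset.sum_singleton]

theorem sum_none {k : Type} [CommRing k] (p : T.Ray → Prop) [DecidablePred p] (f : T.Ray → k)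
    (h : ∀ ρ, ¬p ρ) : ∑ ρ with p ρ, f ρ = 0 := by
  have : Finset.univ.filter p = ∅ := by
    ext ρ
    simp [h]
  rw [this, Finset.sum_empty]

theorem card_one (p : T.Ray → Prop) [DecidablePred p] (y : T.Ray) (h : ∀ ρ, p ρ ↔ ρ = y) :
    (Finset.univ.filter p).card = 1 := by
  have : Finset.univ.filter p = {y} := by
    ext ρ
    simp [h]
  rw [this, Finset.card_singleton]

theorem card_none (p : T.Ray → Prop) [DecidablePred p] (h : ∀ ρ, ¬p ρ) :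
    (Finset.univ.filter p).card = 0 := by
  have : Finset.univ.filter p = ∅ := by
    ext ρ
    simp [h]
  rw [this, Finset.card_empty]

/-- Coordinates in the plane. -/
structure Co (S : T.Pent) (A B : T.Ray → ℤ) : Prop where
  a1 : A S.v1 = 1
  b1 : B S.v1 = 0
  a2 : A S.v2 = 1
  b2 : B S.v2 = 1
  a3 : A S.v3 = 0
  b3 : B S.v3 = 1
  a4 : A S.v4 = -1
  b4 : B S.v4 = 0
  a5 : A S.v5 = 0
  b5 : B S.v5 = -1
  tri : ∀ x z y, T.Tri x z y → A y = A x + A z ∧ B y = B x + B z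
  opp : ∀ x z, T.Opp x z → A z = -A x ∧ B z = -B x

theorem exists_co (hC : T.C1) (S : T.Pent) : ∃ A B, Co S A B := by
  obtain ⟨u, hu1, hu3⟩ := hC.dual _ _ _ S.tri 1 0
  obtain ⟨w, hw1, hw3⟩ := hC.dual _ _ _ S.tri 0 1
  refine ⟨fun ρ => u ⬝ᵥ T.v ρ, fun ρ => w ⬝ᵥ T.v ρ, hu1, hw1, ?_, ?_, hu3, hw3, ?_, ?_, ?_, ?_,
    fun x z y h => ⟨h.dot u, h.dot w⟩, fun x z h => ⟨h.dot u, h.dot w⟩⟩
  · rw [S.tri.dot, hu1, hu3]; rfl
  · rw [S.tri.dot, hw1, hw3]; rfl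
  · rw [S.o1.dot, hu1]
  · rw [S.o1.dot, hw1]; rfl
  · rw [S.o3.dot, hu3]; rfl
  · rw [S.o3.dot, hw3]

theorem in1 (S : T.Pent) : T.InV S.v1 S.v3 S.v1 := ⟨1, 0, by simp⟩

theorem in3 (S : T.Pent) : T.InV S.v1 S.v3 S.v3 := ⟨0, 1, by simp⟩

theorem in2 (S : T.Pent) : T.InV S.v1 S.v3 S.v2 :=
  ⟨1, 1, by rw [one_smul, one_smul]; exact Eq.symm S.tri⟩

theorem in_opp {x z ρ σ : T.Ray} (h : T.InV x z ρ) (ho : T.Opp ρ σ) : T.InV x z σ := by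
  obtain ⟨i, j, h⟩ := h
  refine ⟨-i, -j, ?_⟩
  have h' : T.v σ = -T.v ρ := eq_neg_of_add_eq_zero_right ho
  rw [h', h, neg_smul, neg_smul, neg_add]

theorem in4 (S : T.Pent) : T.InV S.v1 S.v3 S.v4 := in_opp (in1 S) S.o1

theorem in5 (S : T.Pent) : T.InV S.v1 S.v3 S.v5 := in_opp (in3 S) S.o3

theorem cases6 (hC : T.C1) (S : T.Pent) {ρ : T.Ray} (h : T.InV S.v1 S.v3 ρ) :
    ρ = S.v1 ∨ ρ = S.v3 ∨ ρ = S.v2 ∨ ρ = S.v4 ∨ T.Opp S.v2 ρ ∨ ρ = S.v5 := by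
  rcases hC.inv _ _ _ S.tri ρ h with h | h | h | h | h | h
  · exact Or.inl h
  · exact Or.inr (Or.inl h)
  · exact Or.inr (Or.inr (Or.inl h))
  · exact Or.inr (Or.inr (Or.inr (Or.inl (h.uniq S.o1))))
  · exact Or.inr (Or.inr (Or.inr (Or.inr (Or.inl h))))
  · exact Or.inr (Or.inr (Or.inr (Or.inr (Or.inr (h.uniq S.o3)))))

/-- The triples with summand `v1`. -/
theorem tri1 (hC : T.C1) (S : T.Pent) {ρ y : T.Ray} (h : T.Tri ρ S.v1 y) :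
    (ρ = S.v3 ∧ y = S.v2) ∨ (T.Opp S.v2 ρ ∧ y = S.v5) := by
  obtain ⟨A, B, c⟩ := exists_co hC S
  obtain ⟨h1, h2⟩ := hC.plane S _ (in1 S) ρ y h.symm
  obtain ⟨hA, hB⟩ := c.tri _ _ _ h
  have := c.a1; have := c.b1; have := c.a2; have := c.b2; have := c.a3; have := c.b3
  have := c.a4; have := c.b4; have := c.a5; have := c.b5
  rcases cases6 hC S h1 with e | e | e | e | e | e
  all_goals first
    | subst e
    | obtain ⟨hA', hB'⟩ := c.opp _ _ e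
  all_goals rcases cases6 hC S h2 with e' | e' | e' | e' | e' | e'
  all_goals first
    | exact Or.inl ⟨rfl, e'⟩
    | exact Or.inr ⟨e, e'⟩
    | (subst e'; omega)
    | (obtain ⟨hA'', hB''⟩ := c.opp _ _ e'; omega)

theorem t251 (S : T.Pent) : T.Tri S.v2 S.v5 S.v1 := S.tri.opp S.o3

theorem t615 (S : T.Pent) {v6 : T.Ray} (h : T.Opp S.v2 v6) : T.Tri v6 S.v1 S.v5 :=
  ((t251 S).symm.opp h).symm

/-- The pairwise differences of the rays of the plane. -/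
structure Ne5 (S : T.Pent) : Prop where
  n12 : S.v1 ≠ S.v2
  n13 : S.v1 ≠ S.v3
  n14 : S.v1 ≠ S.v4
  n15 : S.v1 ≠ S.v5
  n23 : S.v2 ≠ S.v3
  n24 : S.v2 ≠ S.v4
  n25 : S.v2 ≠ S.v5
  n34 : S.v3 ≠ S.v4
  n35 : S.v3 ≠ S.v5
  n45 : S.v4 ≠ S.v5
  o21 : ¬T.Opp S.v2 S.v1
  o22 : ¬T.Opp S.v2 S.v2
  o23 : ¬T.Opp S.v2 S.v3
  o24 : ¬T.Opp S.v2 S.v4
  o25 : ¬T.Opp S.v2 S.v5

theorem ne5 (hC : T.C1) (S : T.Pent) : Ne5 S := by
  obtain ⟨A, B, c⟩ := exists_co hC S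
  have := c.a1; have := c.b1; have := c.a2; have := c.b2; have := c.a3; have := c.b3
  have := c.a4; have := c.b4; have := c.a5; have := c.b5
  constructor
  all_goals intro e
  all_goals first
    | (obtain ⟨hA, hB⟩ := c.opp _ _ e; omega)
    | (have hA := congrArg A e; have hB := congrArg B e; omega)

theorem opp1 (S : T.Pent) (ρ : T.Ray) : T.Opp S.v1 ρ ↔ ρ = S.v4 :=
  ⟨fun h => h.uniq S.o1, fun h => h ▸ S.o1⟩

theorem opp5 (S : T.Pent) (ρ : T.Ray) : T.Opp S.v5 ρ ↔ ρ = S.v3 :=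
  ⟨fun h => h.uniq S.o3.symm, fun h => h ▸ S.o3.symm⟩

theorem nb_out (hC : T.C1) (S : T.Pent) {ρ : T.Ray} (h : ¬T.InV S.v1 S.v3 ρ) : T.Nb S.v1 ρ := by
  by_contra hn
  rcases (hC.nf _ _).1 hn with ho | ⟨y, hy⟩
  · exact h (in_opp (in1 S) ho)
  · exact h (hC.plane S _ (in1 S) ρ y hy).1

theorem nb_self (hC : T.C1) (S : T.Pent) : T.Nb S.v1 S.v1 := by
  have n := ne5 hC S
  by_contra hn
  rcases (hC.nf _ _).1 hn with ho | ⟨y, hy⟩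
  · exact n.n14 ((opp1 S _).1 ho)
  · rcases tri1 hC S hy with ⟨e, _⟩ | ⟨e, _⟩
    · exact n.n13 e
    · exact n.o21 e

theorem ka1 (hC : T.C1) (S : T.Pent) : T.ka S.v2 S.v5 S.v1 S.v1 = 2 := by
  have n := ne5 hC S
  simp [Fano.ka, opp1, opp5, n.n12, n.n15, n.o21, n.n14, n.n13, nb_self hC S]

theorem ka_out (hC : T.C1) (S : T.Pent) {ρ : T.Ray} (h : ¬T.InV S.v1 S.v3 ρ) :
    T.ka S.v2 S.v5 S.v1 ρ = 2 := by
  have h2 : ρ ≠ S.v2 := fun e => h (e ▸ in2 S)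
  have h3 : ρ ≠ S.v3 := fun e => h (e ▸ in3 S)
  have h4 : ρ ≠ S.v4 := fun e => h (e ▸ in4 S)
  have h5 : ρ ≠ S.v5 := fun e => h (e ▸ in5 S)
  have h6 : ¬T.Opp S.v2 ρ := fun e => h (in_opp (in2 S) e)
  simp [Fano.ka, opp1, opp5, h2, h3, h4, h5, h6, nb_out hC S h]

theorem ka2 (S : T.Pent) : T.ka S.v2 S.v5 S.v1 S.v2 = 0 := by simp [Fano.ka]

theorem ka3 (S : T.Pent) : T.ka S.v2 S.v5 S.v1 S.v3 = 0 := by simp [Fano.ka, opp5]

theorem ka4 (S : T.Pent) : T.ka S.v2 S.v5 S.v1 S.v4 = 0 := by simp [Fano.ka, opp1]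

theorem ka5 (S : T.Pent) : T.ka S.v2 S.v5 S.v1 S.v5 = 0 := by simp [Fano.ka]

theorem ka6 (S : T.Pent) {v6 : T.Ray} (h : T.Opp S.v2 v6) : T.ka S.v2 S.v5 S.v1 v6 = 0 := by
  simp [Fano.ka, h]

variable {k : Type} [CommRing k]

/-- The first sum of the line action vanishes off `v3` and `-v2`. -/
theorem s1_none (hC : T.C1) (S : T.Pent) {ρ : T.Ray} (h3 : ρ ≠ S.v3) (h6 : ¬T.Opp S.v2 ρ)
    (f : T.Ray → k) : ∑ y with T.Tri ρ S.v1 y, f y = 0 :=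
  sum_none _ _ fun _ h => (tri1 hC S h).elim (fun e => h3 e.1) fun e => h6 e.1

theorem s1_one {ρ z y : T.Ray} (h : T.Tri ρ z y) (f : T.Ray → k) :
    ∑ y with T.Tri ρ z y, f y = f y :=
  sum_one _ _ _ fun _ => ⟨fun h' => h'.uniq h, fun e => e ▸ h⟩

/-- The second sum of the line action vanishes off `v2` and `v5`. -/
theorem s2_none (hC : T.C1) (S : T.Pent) {ρ : T.Ray} (h2 : ρ ≠ S.v2) (h5 : ρ ≠ S.v5)
    (f : T.Ray → k) : ∑ x with T.Tri x S.v1 ρ, f x = 0 :=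
  sum_none _ _ fun _ h => (tri1 hC S h).elim (fun e => h2 e.2) fun e => h5 e.2

theorem s2_one {x z ρ : T.Ray} (h : T.Tri x z ρ) (f : T.Ray → k) :
    ∑ x with T.Tri x z ρ, f x = f x :=
  sum_one _ _ _ fun _ => ⟨fun h' => h'.uniq' h, fun e => e ▸ h⟩

theorem tp1 (hC : T.C1) (S : T.Pent) (a : T.Ray → k) : T.Tp k S.v1 S.v4 a S.v1 = -a S.v4 := by
  have n := ne5 hC S
  rw [Tp_apply, s1_none hC S n.n13 n.o21, s2_none hC S n.n12 n.n15, if_pos (Or.inl rfl)]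
  ring

theorem tp2 (hC : T.C1) (S : T.Pent) (a : T.Ray → k) :
    T.Tp k S.v1 S.v4 a S.v2 = a S.v1 + a S.v3 := by
  have n := ne5 hC S
  rw [Tp_apply, s1_none hC S n.n23 n.o22, s2_one S.tri.symm,
    if_neg (not_or.2 ⟨n.n12.symm, n.n24⟩)]
  ring

theorem tp3 (hC : T.C1) (S : T.Pent) (a : T.Ray → k) :
    T.Tp k S.v1 S.v4 a S.v3 = a S.v2 + a S.v4 := by
  have n := ne5 hC S
  rw [Tp_apply, s1_one S.tri.symm, s2_none hC S n.n23.symm n.n35,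
    if_neg (not_or.2 ⟨n.n13.symm, n.n34⟩)]
  ring

theorem tp4 (hC : T.C1) (S : T.Pent) (a : T.Ray → k) : T.Tp k S.v1 S.v4 a S.v4 = -a S.v1 := by
  have n := ne5 hC S
  rw [Tp_apply, s1_none hC S n.n34.symm n.o24, s2_none hC S n.n24.symm n.n45,
    if_pos (Or.inr rfl)]
  ring

theorem tpo (hC : T.C1) (S : T.Pent) (a : T.Ray → k) (ρ : T.Ray) (h : ¬T.InV S.v1 S.v3 ρ) :
    T.Tp k S.v1 S.v4 a ρ = a ρ + a S.v1 + a S.v4 := by
  have h1 : ρ ≠ S.v1 := fun e => h (e ▸ in1 S)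
  have h2 : ρ ≠ S.v2 := fun e => h (e ▸ in2 S)
  have h3 : ρ ≠ S.v3 := fun e => h (e ▸ in3 S)
  have h4 : ρ ≠ S.v4 := fun e => h (e ▸ in4 S)
  have h5 : ρ ≠ S.v5 := fun e => h (e ▸ in5 S)
  have h6 : ¬T.Opp S.v2 ρ := fun e => h (in_opp (in2 S) e)
  rw [Tp_apply, s1_none hC S h3 h6, s2_none hC S h2 h5, if_neg (not_or.2 ⟨h1, h4⟩)]
  ring

/-- The triangle action on a pentagon. -/
theorem tq7 (S : T.Pent) (h : ∀ σ, ¬T.Opp S.v2 σ) (a : T.Ray → k) (ρ : T.Ray) :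
    T.Tq k S.v2 S.v5 S.v1 S.v4 a ρ = a ρ + (a S.v2 + a S.v5 + a S.v4) *
      (2 * T.ka S.v2 S.v5 S.v1 ρ - if ρ = S.v4 then 2 else 0) +
      (a S.v5 + a S.v3) * (T.ka S.v2 S.v5 S.v1 ρ - if ρ = S.v3 then 2 else 0) := by
  have hd : T.dq S.v2 S.v5 = 2 := by
    unfold Fano.dq
    rw [card_none _ h, card_one _ _ (opp5 S)]
    rfl
  rw [Tq_apply, sum_none _ _ h, sum_one _ _ _ (opp5 S), hd]
  push_cast
  ring

end PL7B

open PL7B in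
theorem st_PL7 (h1 : St_C1) : St_PL7 := by
  intro T S h k _ a
  have hC := h1 T
  have n := ne5 hC S
  refine ⟨tp1 hC S a, tp2 hC S a, tp3 hC S a, tp4 hC S a, ?_, tpo hC S a, ?_, ?_, ?_, ?_, ?_, ?_⟩
  · rw [Tp_apply, s1_none hC S n.n35.symm n.o25, sum_none _ _ fun x hx =>
      (tri1 hC S hx).elim (fun e => n.n25 e.2.symm) fun e => h _ e.1,
      if_neg (not_or.2 ⟨n.n15.symm, n.n45.symm⟩)]
    ring
  · rw [tq7 S h, ka1 hC S, if_neg n.n14, if_neg n.n13]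
    push_cast
    ring
  · rw [tq7 S h, ka2 S, if_neg n.n24, if_neg n.n23]
    push_cast
    ring
  · rw [tq7 S h, ka3 S, if_neg n.n34, if_pos rfl]
    push_cast
    ring
  · rw [tq7 S h, ka4 S, if_pos rfl, if_neg n.n34.symm]
    push_cast
    ring
  · rw [tq7 S h, ka5 S, if_neg n.n45.symm, if_neg n.n35.symm]
    push_cast
    ring
  · intro ρ hρ
    have h3 : ρ ≠ S.v3 := fun e => hρ (e ▸ in3 S)
    have h4 : ρ ≠ S.v4 := fun e => hρ (e ▸ in4 S)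
    rw [tq7 S h, ka_out hC S hρ, if_neg h4, if_neg h3]
    push_cast
    ring

end Pool.Agent.Lib.TF
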