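import Pool.Agent.Lib.TF.Blue

open Set Pool.Agent.Lib.MP_e39d36_ag Pool.Agent.Lib.MP_e39d36_ag.Var Pool.Agent.Lib.DU
  Pool.Agent.Lib.MV Matrix
open scoped Classical

set_option linter.unusedSectionVars false
set_option linter.unusedVariables false

noncomputable section

namespace Pool.Agent.Lib.TF

open Fano

namespace PSB

variable {T : Fano} {K : Type} [Field K] [Algebra ℂ K] {d : ℕ}

/-- An enumeration of the rays of a maximal cone with the dual basis. -/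
structure En (T : Fano) (d : ℕ) (m : T.M) where
  ρ : Fin (d + 1) → T.Ray
  u : Fin (d + 1) → T.M
  mem : ∀ s, s ∈ T.F m ↔ ∃ k, ρ k = s
  du : ∀ k l, u k ⬝ᵥ T.v (ρ l) = if k = l then 1 else 0

lemma exists_en (h : T.C0) (hd : T.n = d + 1) {m : T.M} (hm : T.V m) {r : T.Ray}
    (hr : r ∈ T.F m) : ∃ A : En T d m, A.ρ 0 = r := by
  let e := ((T.F m).equivFinOfCardEq ((h.card m hm).trans hd)).trans
    (Equiv.swap ((T.F m).equivFinOfCardEq ((h.card m hm).trans hd) ⟨r, hr⟩) 0)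
  choose u hu using fun k => h.dual m hm (Pi.single (e.symm k).1 1)
  refine ⟨⟨fun k => (e.symm k).1, u, fun s => ⟨fun hs => ⟨e ⟨s, hs⟩, by simp⟩, ?_⟩, fun k l => ?_⟩,
    by simp [e]⟩
  · rintro ⟨k, rfl⟩
    exact (e.symm k).2
  · rw [hu k _ (e.symm l).2, Pi.single_apply]
    simp [eq_comm]

lemma det_mem {R : Subring K} {ι : Type} [Fintype ι] [DecidableEq ι] {N : Matrix ι ι K}
    (h : ∀ i j, N i j ∈ R) : N.det ∈ R := by
  rw [det_apply']
  exact sum_mem fun σ _ => mul_mem (intCast_mem _ _) (prod_mem fun i _ => h _ _)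

lemma pr_ld (M : T.Mod0 K) (G : T.R) (w : T.M) :
    Mod0.pr (fun i => M.ψ (ld (Pi.single i 1) G)) w = M.ψ (ld w G) := by
  rw [ld_dir w G, map_sum]
  exact Finset.sum_congr rfl fun i _ => by rw [map_smul, Algebra.smul_def, map_intCast]

lemma key (h : T.C0) (e : Fin (d + 1) ≃ Fin T.n) (M : T.Mod0 K) {m : T.M} (hm : T.V m)
    (A : En T d m) : ∃ ε : K, (ε = 1 ∨ ε = -1) ∧ ∀ (θ : Fin T.n → K) (g : Fin d → Fin T.n → K),
      det (of fun k i => vecCons θ g k (e i)) = ε * det (of (vecCons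
        (fun l => Mod0.pr θ (T.v (A.ρ l)) / M.χ m / M.χ (A.u l))
        fun i l => Mod0.pr (g i) (T.v (A.ρ l)) / M.χ (A.u l))) := by
  let P : Matrix (Fin (d + 1)) (Fin (d + 1)) ℤ := of fun i l => T.v (A.ρ l) (e i)
  have h1 : (of fun k i => A.u k (e i)) * P = 1 := by
    ext k l
    rw [mul_apply, one_apply, ← A.du, dotProduct, ← e.sum_comp]
    rfl
  have h2 := Int.isUnit_iff.1 (isUnit_det_of_left_inverse h1)
  have h3 : ∑ l, A.u l + m = 0 := h.ext m hm _ fun s hs => by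
    obtain ⟨k, rfl⟩ := (A.mem s).1 hs
    simp [add_dotProduct, sum_dotProduct, A.du, mem_F.1 hs]
  have h4 : ∀ s : Finset (Fin (d + 1)), ∏ l ∈ s, M.χ (A.u l) = M.χ (∑ l ∈ s, A.u l) := fun s => by
    induction s using Finset.induction_on with
    | empty => simp
    | insert a s ha ih => rw [Finset.prod_insert ha, Finset.sum_insert ha, M.χ_add, ih]
  refine ⟨(P.det : ℤ), h2.imp (fun h => by simp [h]) fun h => by simp [h], fun θ g => ?_⟩
  have h5 : (of fun k i => vecCons θ g k (e i)) * P.map (Int.castRingHom K) = of fun k l =>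
      M.χ (A.u l) * (of fun k l => vecCons (M.χ m) (fun _ => 1) k * of (vecCons
        (fun l => Mod0.pr θ (T.v (A.ρ l)) / M.χ m / M.χ (A.u l))
        fun i l => Mod0.pr (g i) (T.v (A.ρ l)) / M.χ (A.u l)) k l) k l := by
    ext k l
    have e1 : ((of fun k i => vecCons θ g k (e i)) * P.map (Int.castRingHom K)) k l =
        Mod0.pr (vecCons θ g k) (T.v (A.ρ l)) := by
      rw [mul_apply, Mod0.pr, ← e.sum_comp]
      exact Finset.sum_congr rfl fun i _ => mul_comm _ _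
    have := M.χ_ne m
    have := M.χ_ne (A.u l)
    rw [e1]
    refine Fin.cases ?_ (fun k => ?_) k <;> simp <;> field_simp
  have h6 := congrArg det h5
  rw [det_mul, det_mul_row, det_mul_column, h4, ← mul_assoc, Fin.prod_univ_succ, cons_val_zero,
    ← RingHom.mapMatrix_apply, ← RingHom.map_det] at h6
  simp only [cons_val_succ, Finset.prod_const_one, mul_one, ← M.χ_add, h3, M.χ_zero,
    one_mul, eq_intCast] at h6
  rw [← h6]
  rcases h2 with h2 | h2 <;> simp [h2]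

lemma ld_mem (M : T.Mod0 K) {m : T.M} (A : En T d m) {G : T.R} {a : ℤ} {w : T.M}
    (hG : ∀ s ∈ T.F m, Lo (T.v s) a G) (hw : ∀ s ∈ T.F m, w ⬝ᵥ T.v s = a) (l : Fin (d + 1)) :
    M.ψ (ld (T.v (A.ρ l)) G - (a : ℂ) • G) / M.χ w / M.χ (A.u l) ∈ M.B (T.F m) := by
  refine ⟨(ld (T.v (A.ρ l)) G - (a : ℂ) • G) * mn (-w - A.u l), fun s hs u hu => ?_, ?_⟩
  · obtain ⟨k, rfl⟩ := (A.mem s).1 hs
    rw [coeff_mul_mn] at hu
    have h1 : (((u - (-w - A.u l)) ⬝ᵥ T.v (A.ρ l) - a : ℤ) : ℂ) * G.coeff (u - (-w - A.u l)) ≠ 0 := by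
      simpa [sub_mul] using hu
    have h2 := hG _ hs _ (right_ne_zero_of_mul h1)
    have h3 := Int.cast_ne_zero.1 (left_ne_zero_of_mul h1)
    have h4 := hw _ hs
    simp only [sub_dotProduct, neg_dotProduct, A.du, if_true] at h2 h3
    simp only [Pi.zero_apply, neg_zero]
    split_ifs at h2 with h
    · subst h
      omega
    · omega
  · change M.ψ _ = _
    rw [map_mul, div_div, div_eq_mul_inv, ← M.χ_add, ← M.χ_neg, neg_add']
    rfl

lemma th_mem (M : T.Mod0 K) {m : T.M} (A : En T d m) (l : Fin (d + 1)) :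
    Mod0.pr M.θ (T.v (A.ρ l)) / M.χ m / M.χ (A.u l) ∈ M.B (T.F m) := by
  have := ld_mem M A (fun s _ => M.gen.lo s) (fun s hs => mem_F.1 hs) l
  rwa [map_sub, map_smul, M.ψ_f, smul_zero, sub_zero, ← pr_ld] at this

lemma frm_sub (M : T.Mod0 K) {m : T.M} (A : En T d m) {R : Subring K}
    (hR : LocOf (M.B (T.F m)) R)
    (hD : ∀ G, KaehlerDifferential.D ℂ K (M.ψ G) = M.β fun i => M.ψ (ld (Pi.single i 1) G))
    {ω : Ω[K⁄ℂ]} (hω : ω ∈ frm R) :
    ∃ g, M.β g = ω ∧ ∀ l, Mod0.pr g (T.v (A.ρ l)) / M.χ (A.u l) ∈ R := by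
  have sm : ∀ r ∈ R, ∀ a, (∃ g, M.β g = a ∧ ∀ l, Mod0.pr g (T.v (A.ρ l)) / M.χ (A.u l) ∈ R) →
      ∃ g, M.β g = r • a ∧ ∀ l, Mod0.pr g (T.v (A.ρ l)) / M.χ (A.u l) ∈ R := by
    rintro r hr _ ⟨g, rfl, h⟩
    refine ⟨r • g, map_smul _ _ _, fun l => ?_⟩
    have : Mod0.pr (r • g) (T.v (A.ρ l)) = r * Mod0.pr g (T.v (A.ρ l)) := by
      simp [Mod0.pr, Finset.mul_sum, mul_left_comm]
    rw [this, mul_div_assoc]
    exact mul_mem hr (h l)
  obtain ⟨p, -, h1, h2⟩ := LOG.frm_loc hR hω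
  rw [← inv_smul_smul₀ h1.1 ω]
  refine sm _ h1.2.2 _ (LOG.frm_ind (p := fun a =>
    ∃ g, M.β g = a ∧ ∀ l, Mod0.pr g (T.v (A.ρ l)) / M.χ (A.u l) ∈ R) ?_
    ⟨0, map_zero _, fun l => by simp [Mod0.pr]⟩ ?_ (fun r hr => sm r (hR.1 hr)) h2)
  · rintro _ ⟨G, hG, rfl⟩
    refine ⟨_, (hD G).symm, fun l => hR.1 ?_⟩
    have := ld_mem M A (a := 0) (w := 0) (fun s hs => by simpa using hG s hs) (by simp) l
    rw [pr_ld]
    simpa using this
  · rintro _ _ ⟨g, rfl, h⟩ ⟨g', rfl, h'⟩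
    refine ⟨g + g', map_add _ _ _, fun l => ?_⟩
    have : Mod0.pr (g + g') (T.v (A.ρ l)) =
        Mod0.pr g (T.v (A.ρ l)) + Mod0.pr g' (T.v (A.ρ l)) := by
      simp [Mod0.pr, Finset.sum_add_distrib, mul_add]
    rw [this, add_div]
    exact add_mem (h l) (h' l)

end PSB

open PSB in
theorem st_PS (hC0 : St_C0) (hJAC : St_JAC) (hREL : St_REL) (hPSA : St_PSA) : St_PS := by
  intro T K _ _ M
  have h := hC0 T
  obtain ⟨r1, r2, r3, r4, r5⟩ := hREL T K M
  obtain ⟨d, hd⟩ : ∃ d, T.n = d + 1 := ⟨T.n - 1, by have := T.dim; omega⟩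
  let e : Fin (d + 1) ≃ Fin T.n := finCongr hd.symm
  obtain ⟨σ, hσ⟩ := M.β.exists_rightInverse_of_surjective (LinearMap.range_eq_top.2 r2)
  let J : Ω[K⁄ℂ] [⋀^Fin d]→ₗ[K] K :=
    ((detRowAlternating.compLinearMap (LinearMap.funLeft K K e)).curryLeft M.θ).compLinearMap σ
  have hJ : ∀ g : Fin d → Fin T.n → K,
      J (fun i => M.β (g i)) = det (of fun k i => vecCons M.θ g k (e i)) := fun g => by
    choose c hc using fun i => (r5 (σ (M.β (g i)) - g i)).1 (by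
      rw [map_sub, sub_eq_zero]; exact LinearMap.congr_fun hσ _)
    change det (of fun k i => vecCons M.θ (fun i => σ (M.β (g i))) k (e i)) = _
    refine det_eq_of_forall_row_eq_smul_add_const (vecCons 0 c) 0 rfl fun k i => ?_
    refine Fin.cases (by simp) (fun k => ?_) k
    simp [sub_eq_iff_eq_add'.1 (hc k)]
  refine hPSA K M.X d (by rw [r1, hd]; rfl) ?_ J (fun z ω hω => ?_) fun z => ?_
  · have h1 := M.β.finrank_range_add_finrank_ker
    have h2 : LinearMap.ker M.β = Submodule.span K {M.θ} := Submodule.ext fun g => by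
      rw [LinearMap.mem_ker, r5, Submodule.mem_span_singleton]
      exact exists_congr fun _ => eq_comm
    rw [LinearMap.range_eq_top.2 r2, finrank_top, h2, finrank_span_singleton r4,
      Module.finrank_fin_fun] at h1
    omega
  · obtain ⟨m, hm, hR⟩ := M.chart z
    obtain ⟨r, hr⟩ := Finset.card_pos.1 (show 0 < (T.F m).card by rw [h.card m hm]; omega)
    obtain ⟨A, -⟩ := exists_en h hd hm hr
    obtain ⟨ε, h1, h2⟩ := key h e M.toMod0 hm A
    choose g hg hg' using fun i => frm_sub M.toMod0 A hR r3 (hω i)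
    rw [← funext hg, hJ, h2]
    refine mul_mem (by rcases h1 with rfl | rfl <;> simp) (det_mem fun k l => ?_)
    exact Fin.cases (hR.1 (th_mem M.toMod0 A l)) (fun k => hg' k l) k
  · obtain ⟨m, hm, hR⟩ := M.chart z
    obtain ⟨G₀, G, -, h1, h2⟩ := hJAC T M.f M.gen m hm
    have h3 : ∀ r, M.ψ (G r) * M.χ m ∈ M.X.O z := fun r => hR.1 ⟨G r * mn m, fun s hs => by
      simpa using Lo.mul (h1 r s hs) (sup_mn.2 (mem_F.1 hs).ge : Lo (T.v s) (-1) (mn m)),
      map_mul M.ψ _ _⟩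
    have h4 : ∀ r, M.ψ (ld (T.v r) M.f) / M.χ m ∈ M.X.O z := fun r =>
      hR.1 ⟨ld (T.v r) M.f * mn (-m), fun s hs => by
        simpa using Lo.mul ((M.gen.lo s).ld (T.v r)) (sup_mn.2 (by simp [mem_F.1 hs]) :
          Lo (T.v s) 1 (mn (-m))), by
        rw [div_eq_mul_inv, ← M.χ_neg]; exact map_mul M.ψ _ _⟩
    have h5 : ∑ r ∈ T.F m, M.ψ (G r) * M.χ m * (M.ψ (ld (T.v r) M.f) / M.χ m) = 1 := by
      have := congrArg M.ψ h2
      rw [map_add, map_mul, M.ψ_f, mul_zero, zero_add, map_sum, map_one] at this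
      rw [← this]
      exact Finset.sum_congr rfl fun r _ => by
        rw [map_mul, mul_assoc, mul_div_cancel₀ _ (M.χ_ne m)]
    obtain ⟨r, hr, h6⟩ := (M.X.isLoc z).of_sum (fun r _ => mul_mem (h3 r) (h4 r)) (h5 ▸ Un.one)
    obtain ⟨A, rfl⟩ := exists_en h hd hm hr
    obtain ⟨ε, h7, h8⟩ := key h e M.toMod0 hm A
    have h9 : ∀ k, M.χ (A.u k) ∈ M.X.O z := fun k => hR.1 ⟨mn (A.u k), fun s hs => by
      obtain ⟨l, rfl⟩ := (A.mem s).1 hs
      refine sup_mn.2 ?_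
      rw [A.du]
      split_ifs <;> simp, rfl⟩
    refine ⟨fun i => KaehlerDifferential.D ℂ K (M.χ (A.u i.succ)), fun i => LOG.D_mem (h9 _), ?_⟩
    simp only [Mod0.χ, r3]
    rw [hJ, h8]
    refine Un.mul (by rcases h7 with rfl | rfl; exacts [Un.one, Un.one.neg]) ?_
    have h10 : ∀ i l, Mod0.pr (fun j => M.ψ (ld (Pi.single j 1) (mn (A.u (Fin.succ i)))))
        (T.v (A.ρ l)) / M.χ (A.u l) = if i.succ = l then 1 else 0 := fun i l => by
      rw [pr_ld M.toMod0, ld_mn, A.du]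
      split_ifs with hl
      · rw [hl, Int.cast_one, one_smul]
        exact div_self (M.χ_ne _)
      · simp
    simp only [h10]
    rw [det_succ_column_zero, Fin.sum_univ_succ, Finset.sum_eq_zero fun i _ => by simp, add_zero,
      show Matrix.submatrix _ (Fin.succAbove 0) Fin.succ = 1 from by
        ext i j
        simp [one_apply], det_one]
    have h11 := hR.1 (th_mem M.toMod0 A 0)
    have h12 := h6.of_mul' (h3 _) (h4 _)
    rw [← pr_ld M.toMod0, ← div_mul_cancel₀ (_ / _) (M.χ_ne (A.u 0))] at h12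
    have h13 : Un (M.X.O z) (Mod0.pr M.θ (T.v (A.ρ 0)) / M.χ m / M.χ (A.u 0)) :=
      h12.of_mul h11 (h9 0)
    simpa using h13

end Pool.Agent.Lib.TF
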