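import Pool.Agent.Lib.TF.Blue
import Pool.Agent.Lib.MV.F_PRM
import Pool.Agent.Lib.MV.Log

open Set WithZero Function MvPolynomial Pool.Agent.Lib.MP_e39d36_ag Pool.Agent.Lib.MP_e39d36_ag.Var
  Pool.Agent.Lib.DU Pool.Agent.Lib.MV Pool.Agent.Lib.MV.Fb

set_option linter.unusedSectionVars false
set_option linter.unusedVariables false
set_option linter.style.haveILetI false

noncomputable section

namespace Pool.Agent.Lib.TF

namespace PSAB

variable {K : Type} [Field K] [Algebra ℂ K]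

lemma deg_pd {n : ℕ} (k : Fin n) (f : MvPolynomial (Fin n) ℂ) :
    (pderiv k f).totalDegree ≤ f.totalDegree - 1 := by
  rw [totalDegree, Finset.sup_le_iff]
  intro s hs
  have h1 : s + Finsupp.single k 1 ∈ f.support := mem_support_iff.2 fun h =>
    mem_support_iff.1 hs (by rw [coeff_pderiv, h, zero_mul])
  have h2 := le_totalDegree h1
  rw [Finsupp.sum_add_index' (fun _ => rfl) (fun _ _ _ => rfl), Finsupp.sum_single_index rfl] at h2
  omega

lemma exists_pd {n : ℕ} {f : MvPolynomial (Fin n) ℂ} (hf : f.totalDegree ≠ 0) :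
    ∃ k, pderiv k f ≠ 0 := by
  by_contra! h
  refine hf (Nat.le_zero.1 ?_)
  rw [totalDegree, Finset.sup_le_iff]
  intro s hs
  have h1 : ∀ k, s k = 0 := fun k => by
    by_contra h2
    have h3 := coeff_pderiv (i := k) f (s - Finsupp.single k 1)
    rw [h k, coeff_zero, tsub_add_cancel_of_le (Finsupp.single_le_iff.2 (by omega))] at h3
    exact mul_ne_zero (mem_support_iff.1 hs) (Nat.cast_add_one_ne_zero _) h3.symm
  rw [show s = 0 from Finsupp.ext h1]
  simp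

lemma exists_min {V : Subring K} (hV : ∀ a : ℂ, algebraMap ℂ K a ∈ V) {n : ℕ} (a : Fin n → K)
    (m : ℕ) : ∀ P : MvPolynomial (Fin n) ℂ, P.totalDegree ≤ m → P ≠ 0 → ¬Un V (aeval a P) →
    ∃ (Q : MvPolynomial (Fin n) ℂ) (j : Fin n), ¬Un V (aeval a Q) ∧
      Un V (aeval a (pderiv j Q)) := by
  have h0 : ∀ P : MvPolynomial (Fin n) ℂ, P.totalDegree = 0 → P ≠ 0 → Un V (aeval a P) := by
    intro P h1 h2
    rw [totalDegree_eq_zero_iff_eq_C] at h1
    rw [h1] at h2 ⊢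
    rw [aeval_C]
    exact ⟨by simpa using h2, hV _, by rw [← map_inv₀]; exact hV _⟩
  induction m with
  | zero => exact fun P h1 h2 h3 => absurd (h0 P (Nat.le_zero.1 h1) h2) h3
  | succ m ih =>
    intro P h1 h2 h3
    obtain ⟨k, hk⟩ := exists_pd fun h => h3 (h0 P h h2)
    by_cases h4 : Un V (aeval a (pderiv k P))
    · exact ⟨P, k, h3, h4⟩
    · exact ih _ ((deg_pd k P).trans (by omega)) hk h4

lemma D_aeval {n : ℕ} (a : Fin n → K) (P : MvPolynomial (Fin n) ℂ) :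
    KaehlerDifferential.D ℂ K (aeval a P) =
      ∑ i, aeval a (pderiv i P) • KaehlerDifferential.D ℂ K (a i) := by
  induction P using MvPolynomial.induction_on with
  | C c => simp
  | add p q hp hq => simp only [map_add, hp, hq, add_smul, Finset.sum_add_distrib]
  | mul_X p j hp =>
    rw [map_mul, aeval_X, Derivation.leibniz, hp, add_comm]
    simp only [pderiv_mul, map_add, map_mul, aeval_X, add_smul, Finset.sum_add_distrib,
      Finset.smul_sum, smul_smul]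
    congr 1
    · exact Finset.sum_congr rfl fun i _ => by rw [mul_comm]
    · rw [Finset.sum_eq_single j (fun t _ ht => by simp [pderiv_X, Ne.symm ht]) (by simp)]
      simp

variable {d : ℕ} (J : Ω[K⁄ℂ] [⋀^Fin d]→ₗ[K] K)

lemma repl (a : Fin d → K) (P : MvPolynomial (Fin d) ℂ) (j : Fin d) :
    J (KaehlerDifferential.D ℂ K ∘ update a j (aeval a P)) =
      aeval a (pderiv j P) * J (KaehlerDifferential.D ℂ K ∘ a) := by
  rw [comp_update, D_aeval, J.map_update_sum, Finset.sum_eq_single j _ (by simp),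
    J.map_update_smul, smul_eq_mul]
  · congr 2
    exact update_eq_self j (KaehlerDifferential.D ℂ K ∘ a)
  · intro i _ hi
    rw [J.map_update_smul]
    exact smul_eq_zero_of_right _ (J.map_update_self (KaehlerDifferential.D ℂ K ∘ a) hi.symm)

variable {J} {R V : Subring K}

lemma two_slots (hJ : ∀ ω : Fin d → Ω[K⁄ℂ], (∀ i, ω i ∈ frm V) → J ω ∈ V) {a : Fin d → K}
    (ha : ∀ i, a i ∈ V) {i j : Fin d} (hij : i ≠ j) (h0 : a j ≠ 0) (hc : a i / a j ∈ V)
    (hu : Un V (J (KaehlerDifferential.D ℂ K ∘ a))) : Un V (a j) := by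
  have h1 : (KaehlerDifferential.D ℂ K ∘ a) i =
      (a i / a j) • (KaehlerDifferential.D ℂ K ∘ a) j +
        a j • KaehlerDifferential.D ℂ K (a i / a j) := by
    rw [comp_apply, comp_apply, ← Derivation.leibniz, div_mul_cancel₀ _ h0]
  rw [← update_eq_self i (KaehlerDifferential.D ℂ K ∘ a), h1, J.map_update_add,
    J.map_update_smul, J.map_update_smul, J.map_update_self _ hij, smul_zero, zero_add,
    smul_eq_mul] at hu
  refine hu.of_mul (ha j) (hJ _ fun l => ?_)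
  rcases eq_or_ne l i with rfl | h
  · rw [update_self]; exact LOG.D_mem hc
  · rw [update_of_ne h]; exact LOG.D_mem (ha l)

lemma un_or (hv : ∀ z, z ∈ V ∨ z⁻¹ ∈ V)
    (hJ : ∀ ω : Fin d → Ω[K⁄ℂ], (∀ i, ω i ∈ frm V) → J ω ∈ V) {a : Fin d → K}
    (ha : ∀ i, a i ∈ V) {i j : Fin d} (hij : i ≠ j)
    (hu : Un V (J (KaehlerDifferential.D ℂ K ∘ a))) : Un V (a i) ∨ Un V (a j) := by
  have h0 : ∀ l, a l ≠ 0 := fun l h =>
    hu.1 (J.map_coord_zero l (by rw [comp_apply, h, map_zero]))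
  rcases hv (a i / a j) with h | h
  · exact Or.inr (two_slots hJ ha hij (h0 j) h hu)
  · exact Or.inl (two_slots hJ ha hij.symm (h0 i) (by rwa [inv_div] at h) hu)

lemma exact_tuple (hl : IsLoc V) (hR : R ≤ V)
    (hJ : ∀ ω : Fin d → Ω[K⁄ℂ], (∀ i, ω i ∈ frm V) → J ω ∈ V) {ω : Fin d → Ω[K⁄ℂ]}
    (h1 : ∀ i, ω i ∈ frm R) (h2 : Un V (J ω)) :
    ∃ a : Fin d → K, (∀ i, a i ∈ R) ∧ Un V (J (KaehlerDifferential.D ℂ K ∘ a)) := by
  have key : ∀ s : Finset (Fin d), ∃ η : Fin d → Ω[K⁄ℂ], (∀ i, η i ∈ frm R) ∧ Un V (J η) ∧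
      ∀ i ∈ s, ∃ a ∈ R, η i = KaehlerDifferential.D ℂ K a := fun s => by
    induction s using Finset.induction_on with
    | empty => exact ⟨ω, h1, h2, by simp⟩
    | insert k s hk ih =>
      obtain ⟨η, e1, e2, e3⟩ := ih
      have e4 : ∀ θ ∈ frm R, ∀ i, update η k θ i ∈ frm R := fun θ hθ i => by
        rcases eq_or_ne i k with rfl | h
        · rwa [update_self]
        · rw [update_of_ne h]; exact e1 i
      have e5 : ∀ θ ∈ frm R, J (update η k θ) ∈ V := fun θ hθ =>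
        hJ _ fun i => LOG.frm_mono hR (e4 θ hθ i)
      have e6 : ∃ a ∈ R, Un V (J (update η k (KaehlerDifferential.D ℂ K a))) := by
        by_contra! h
        refine (LOG.frm_ind (p := fun θ => θ ∈ frm R ∧ ¬Un V (J (update η k θ)))
          (fun w hw => ⟨LOG.D_mem hw, h w hw⟩) ⟨zero_mem _, fun h => h.1 (J.map_update_zero _ _)⟩
          (fun a b ha hb => ⟨add_mem ha.1 hb.1, fun h => ?_⟩)
          (fun r hr a ha => ⟨LOG.smul_mem hr ha.1, fun h => ?_⟩) (e1 k)).2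
          (by rwa [update_eq_self])
        · rw [J.map_update_add] at h
          exact (hl.of_add (e5 a ha.1) (e5 b hb.1) h).elim ha.2 hb.2
        · rw [J.map_update_smul, smul_eq_mul] at h
          exact ha.2 (h.of_mul' (hR hr) (e5 a ha.1))
      obtain ⟨a, ha, hu⟩ := e6
      refine ⟨_, e4 _ (LOG.D_mem ha), hu, fun i hi => ?_⟩
      rcases eq_or_ne i k with rfl | h
      · exact ⟨a, ha, update_self _ _ _⟩
      · rw [update_of_ne h]
        exact e3 i ((Finset.mem_insert.1 hi).resolve_left h)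
  obtain ⟨η, -, e2, e3⟩ := key Finset.univ
  choose a e4 e5 using fun i => e3 i (Finset.mem_univ i)
  exact ⟨a, e4, by rwa [show KaehlerDifferential.D ℂ K ∘ a = η from funext fun i => (e5 i).symm]⟩

lemma not_ind (hd : Algebra.trdeg ℂ K = d) {n : ℕ} (hn : d < n) :
    ¬IndIn (⊤ : Subring K) Set.univ n := fun ⟨a, _, h⟩ => by
  have h1 : AlgebraicIndependent ℂ a :=
    algebraicIndependent_iff.2 fun P hP => of_not_not fun h' => (h P h').1 hP
  have h2 := h1.cardinalMk_le_trdeg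
  rw [hd, Cardinal.mk_fin, Nat.cast_le] at h2
  omega

lemma indIn {w : Valuation K ℤᵐ⁰} (hw : IsV w V) (hR : R ≤ V)
    (hc : ∀ a : ℂ, algebraMap ℂ K a ∈ R) (hd : Algebra.trdeg ℂ K = d)
    (hJ : ∀ ω : Fin d → Ω[K⁄ℂ], (∀ i, ω i ∈ frm V) → J ω ∈ V) {a : Fin d → K}
    (ha : ∀ i, a i ∈ R) (hu : Un V (J (KaehlerDifferential.D ℂ K ∘ a))) :
    IndIn V R (d - 1) := by
  have hV : ∀ a : ℂ, algebraMap ℂ K a ∈ V := fun a => hR (hc a)
  have up : ∀ {a : Fin d → K}, (∀ i, a i ∈ R) → ∀ j (P : MvPolynomial (Fin d) ℂ) i,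
      update a j (aeval a P) i ∈ R := fun {a} ha j P i => by
    rcases eq_or_ne i j with rfl | h
    · rw [update_self]; exact PRM.aeval_mem' hc ha P
    · rw [update_of_ne h]; exact ha i
  rcases d with _ | n
  · refine ⟨Fin.elim0, fun i => i.elim0, fun P hP => of_not_not fun h => ?_⟩
    obtain ⟨-, j, -⟩ := exists_min hV _ _ P le_rfl hP h
    exact j.elim0
  have h1 : ∃ P : MvPolynomial (Fin (n + 1)) ℂ, P ≠ 0 ∧ ¬Un V (aeval a P) := by
    by_contra! h
    obtain ⟨π, h0, hπ⟩ := exists_unif hw.1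
    exact not_ind hd (Nat.lt_succ_self _) ⟨Fin.cons π a, fun _ => trivial, fun P hP => un_top.2
      (PRM.cons_ne (isLoc_of_val hw.val) hV (fun i => hR (ha i)) h h0
        ((hw.mem_iff h0).2 (by omega)) (fun h => by have := (hw.un_iff.1 h).2; omega) P hP)⟩
  obtain ⟨P, h2, h3⟩ := h1
  obtain ⟨Q, j, h4, h5⟩ := exists_min hV a _ P le_rfl h2 h3
  have h6 : Un V (J (KaehlerDifferential.D ℂ K ∘ update a j (aeval a Q))) := by
    rw [repl]; exact h5.mul hu
  have h7 := up ha j Q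
  have h8 : ¬Un V (update a j (aeval a Q) j) := by rwa [update_self]
  generalize update a j (aeval a Q) = b at h6 h7 h8
  refine ⟨b ∘ j.succAbove, fun i => h7 _, fun P' hP' => of_not_not fun h => ?_⟩
  obtain ⟨Q', l, h9, h10⟩ := exists_min hV _ _ P' le_rfl hP' h
  rw [← aeval_rename] at h9 h10
  rw [← pderiv_rename Fin.succAbove_right_injective] at h10
  have h11 : Un V (J (KaehlerDifferential.D ℂ K ∘
      update b (j.succAbove l) (aeval b (rename j.succAbove Q')))) := by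
    rw [repl]; exact h10.mul h6
  rcases un_or hw.val hJ (fun i => hR (up h7 _ _ i)) (Fin.succAbove_ne j l) h11 with h | h
  · exact h9 (by rwa [update_self] at h)
  · exact h8 (by rwa [update_of_ne (Fin.succAbove_ne j l).symm] at h)

lemma exists_u (hr : Module.finrank K Ω[K⁄ℂ] = d) {ω₀ : Fin d → Ω[K⁄ℂ]} (h0 : J ω₀ ≠ 0)
    (ψ : K ≃ₐ[ℂ] K) : ∃ u : K, u ≠ 0 ∧ ∃ m : Ω[K⁄ℂ] → Ω[K⁄ℂ],
      (∀ R : Subring K, ∀ ω ∈ frm (R.comap ψ.toRingEquiv.toRingHom), m ω ∈ frm R) ∧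
      ∀ ω, J (m ∘ ω) = u * ψ (J ω) := by
  obtain ⟨m, h1, h2⟩ := Log.exists_map ψ.toAlgHom
  let J' : Ω[K⁄ℂ] [⋀^Fin d]→ₗ[K] K :=
    { toFun := fun ω => ψ.symm (J (m ∘ ω))
      map_update_add' := fun ω i x y => by
        simp only [comp_update, map_add, AlternatingMap.map_update_add]
      map_update_smul' := fun ω i c x => by
        simp only [comp_update, h2, AlternatingMap.map_update_smul, smul_eq_mul, map_mul]
        simp
      map_eq_zero_of_eq' := fun ω i j h hij => by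
        simp only [J.map_eq_zero_of_eq (m ∘ ω) (congrArg m h) hij, map_zero] }
  have h3 : Surjective m := fun ω => by
    have h : ω ∈ Submodule.span K (range (KaehlerDifferential.D ℂ K)) := by
      rw [KaehlerDifferential.span_range_derivation]; trivial
    induction h using Submodule.span_induction with
    | mem x hx =>
      obtain ⟨a, rfl⟩ := hx
      exact ⟨_, (h1 (ψ.symm a)).trans (by simp)⟩
    | zero => exact ⟨0, map_zero _⟩
    | add x y _ _ hx hy =>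
      obtain ⟨x, rfl⟩ := hx
      obtain ⟨y, rfl⟩ := hy
      exact ⟨_, map_add _ _ _⟩
    | smul a x _ hx =>
      obtain ⟨x, rfl⟩ := hx
      exact ⟨_, (h2 (ψ.symm a) x).trans (by simp)⟩
  have h4 : ∃ u : K, J' = u • J := by
    rcases d with _ | n
    · refine ⟨J' ω₀ / J ω₀, AlternatingMap.ext fun ω => ?_⟩
      rw [Subsingleton.elim ω ω₀, AlternatingMap.smul_apply, smul_eq_mul, div_mul_cancel₀ _ h0]
    · haveI := Module.finite_of_finrank_eq_succ hr
      let b := Module.finBasisOfFinrankEq K Ω[K⁄ℂ] hr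
      have h5 : J b ≠ 0 := fun h => h0 (by rw [J.eq_smul_basis_det b, h, zero_smul]; rfl)
      refine ⟨J' b / J b, (J'.eq_smul_basis_det b).trans ?_⟩
      rw [← div_mul_cancel₀ (J' b) h5, mul_smul, ← J.eq_smul_basis_det b, div_mul_cancel₀ _ h5]
  obtain ⟨u, hu⟩ := h4
  have h5 : ∀ ω, J (m ∘ ω) = ψ u * ψ (J ω) := fun ω => by
    have : ψ.symm (J (m ∘ ω)) = u * J ω := DFunLike.congr_fun hu ω
    rw [← map_mul, ← this, ψ.apply_symm_apply]
  refine ⟨ψ u, fun h => h0 ?_, m, fun R ω hω => ?_, h5⟩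
  · choose η hη using fun i => h3 (ω₀ i)
    rw [← show m ∘ η = ω₀ from funext hη, h5, h, zero_mul]
  · exact LOG.frm_ind (p := fun ω => m ω ∈ frm R)
      (fun w hw => h1 w ▸ LOG.D_mem (w := ψ w) hw)
      (by simp) (fun a b ha hb => by rw [map_add]; exact add_mem ha hb)
      (fun r hr a ha => (h2 r a).symm ▸ LOG.smul_mem (r := ψ r) hr ha) hω

lemma main (X : Var K) (hd : Algebra.trdeg ℂ K = d) (hr : Module.finrank K Ω[K⁄ℂ] = d)
    (h1 : ∀ z (ω : Fin d → Ω[K⁄ℂ]), (∀ i, ω i ∈ frm (X.O z)) → J ω ∈ X.O z)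
    (h2 : ∀ z, ∃ ω : Fin d → Ω[K⁄ℂ], (∀ i, ω i ∈ frm (X.O z)) ∧ Un (X.O z) (J ω))
    (ψ : K ≃ₐ[ℂ] K) (E : X.PD) : ∃ F : X.PD, ∀ f, val F f = val E (ψ f) := by
  obtain ⟨ω₀, -, h0⟩ := h2 E.1
  obtain ⟨u, u0, m, h3, h4⟩ := exists_u hr h0.1 ψ
  have hw : ∀ E : X.PD, IsV ((val E).comap ψ.toRingEquiv.toRingHom)
      ((X.O E.1).comap ψ.toRingEquiv.toRingHom) := fun E =>
    ⟨(isV E).1.comp ψ.surjective, fun z => (isV E).2 (ψ z)⟩
  have hy : ∀ E : X.PD, ∃ y, Dom (X.O y) ((X.O E.1).comap ψ.toRingEquiv.toRingHom) := fun E => by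
    obtain ⟨i, hi⟩ := X.exists_chart_val ⟨_, (hw E).val⟩ fun a => by
      change ψ _ ∈ X.O E.1
      rw [ψ.commutes]
      exact X.const_mem _ a
    exact (exists_centre (isLoc_of_val (hw E).val) hi).imp fun _ h => h.1
  have h5 : ∀ E : X.PD, ∀ ω : Fin d → Ω[K⁄ℂ],
      (∀ i, ω i ∈ frm ((X.O E.1).comap ψ.toRingEquiv.toRingHom)) → u * ψ (J ω) ∈ X.O E.1 :=
    fun E ω h => h4 ω ▸ h1 _ _ fun i => h3 _ _ (h i)
  obtain ⟨c, rfl⟩ : ∃ c : ℂ, u = algebraMap ℂ K c := eq_const fun x => hartogs fun E _ => by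
    obtain ⟨y, hy⟩ := hy E
    obtain ⟨ω, h6, h7⟩ := h2 y
    have h8 := h5 E ω fun i => LOG.frm_mono hy.1 (h6 i)
    rw [mul_comm] at h8
    exact ord_nonneg ((un_comap.1 (h7.mono hy.1)).mem_of_mul h8)
  have h6 : ∀ ω : Fin d → Ω[K⁄ℂ], (∀ i, ω i ∈ frm ((X.O E.1).comap ψ.toRingEquiv.toRingHom)) →
      J ω ∈ (X.O E.1).comap ψ.toRingEquiv.toRingHom := fun ω h =>
    (X.un_const E.1 (by simpa using u0)).mem_of_mul (h5 E ω h)
  obtain ⟨y, hy⟩ := hy E
  obtain ⟨ω, h7, h8⟩ := h2 y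
  obtain ⟨a, h9, h10⟩ := exact_tuple (isLoc_of_val (hw E).val) hy.1 h6 h7 (h8.mono hy.1)
  obtain ⟨F, hF⟩ := Fb.st_prm K X (d - 1) (not_ind hd (by omega)) _ _ y (hw E) hy
    (indIn (hw E) hy.1 (X.const_mem y) hd h6 h9 h10)
  exact ⟨F, fun f => by rw [(isV F).unique (hF ▸ hw E)]; rfl⟩

end PSAB

theorem st_PSA : St_PSA := by
  intro K _ _ X d hd hr J h1 h2 φ hφ
  let ψ : K ≃ₐ[ℂ] K := AlgEquiv.ofRingEquiv (f := φ) hφ
  choose e he using PSAB.main X hd hr h1 h2 ψ.symm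
  choose e' he' using PSAB.main X hd hr h1 h2 ψ
  have h3 : ∀ E F : X.PD, (∀ f, val E f = val F f) → E = F := fun E F h => pd_eq fun z hz => by
    rw [(isV _).2] at hz ⊢
    rwa [← h]
  refine ⟨⟨e, e', fun E => h3 _ _ fun f => ?_, fun E => h3 _ _ fun f => ?_⟩, hφ, fun f E => ?_⟩
  · rw [he', he, ψ.symm_apply_apply]
  · rw [he, he', ψ.apply_symm_apply]
  · rw [ord_val, ord_val, od, od]
    exact congrArg (fun t => -log t) ((he E (ψ f)).trans (by rw [ψ.symm_apply_apply]))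

end Pool.Agent.Lib.TF
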