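import Pool.Agent.Lib.TF.Blue

open Set Pool.Agent.Lib.MP_e39d36_ag Pool.Agent.Lib.MP_e39d36_ag.Var Pool.Agent.Lib.DU
  Pool.Agent.Lib.MV
open scoped Classical

noncomputable section

namespace Pool.Agent.Lib.TF

open Fano

namespace PTSB

variable {T : Fano} {K : Type} [Field K] [Algebra ℂ K] (M : T.Mod0 K) {τ τ' : Finset T.Ray}
  {u : T.M}

lemma chi_mem (h : ∀ ρ ∈ τ, 0 ≤ u ⬝ᵥ T.v ρ) : M.χ u ∈ M.B τ :=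
  ⟨mn u, fun ρ hρ => sup_mn.2 (by simpa using h ρ hρ), rfl⟩

lemma shift (h : ∀ ρ ∈ τ, 0 ≤ u ⬝ᵥ T.v ρ) (h' : ∀ ρ ∈ τ, u ⬝ᵥ T.v ρ = 0 → ρ ∈ τ') {s : K}
    (hs : s ∈ M.B τ') : ∃ N : ℕ, M.χ u ^ N * s ∈ M.B τ := by
  obtain ⟨G, hG, rfl⟩ := M.mem_B.1 hs
  choose a ha using fun ρ => exists_lo' G (T.v ρ)
  refine ⟨∑ ρ, (a ρ).natAbs, M.mem_B.2 ⟨mn u ^ (∑ ρ, (a ρ).natAbs) * G, fun ρ hρ => ?_, by
    rw [map_mul, map_pow]; rfl⟩⟩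
  have h1 := Lo.pow (sup_mn.2 le_rfl : Lo (T.v ρ) (u ⬝ᵥ T.v ρ) (mn u)) (∑ ρ, (a ρ).natAbs)
  rcases (h ρ hρ).eq_or_lt with e | e
  · exact (h1.mul (hG ρ (h' ρ hρ e.symm))).le (by simp [← e])
  · refine (h1.mul (ha ρ)).le ?_
    have h2 : (a ρ).natAbs ≤ ∑ ρ, (a ρ).natAbs :=
      Finset.single_le_sum (f := fun ρ => (a ρ).natAbs) (fun _ _ => Nat.zero_le _)
        (Finset.mem_univ ρ)
    generalize ∑ ρ, (a ρ).natAbs = N at h2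
    have h3 : (N : ℤ) * 1 ≤ N * (u ⬝ᵥ T.v ρ) := mul_le_mul_of_nonneg_left e (by positivity)
    simp only [Pi.zero_apply, neg_zero]
    omega

lemma le_of_un (h : ∀ ρ ∈ τ, 0 ≤ u ⬝ᵥ T.v ρ) (h' : ∀ ρ ∈ τ, u ⬝ᵥ T.v ρ = 0 → ρ ∈ τ')
    {S : Subring K} (hS : M.B τ ≤ S) (hu : Un S (M.χ u)) : M.B τ' ≤ S := fun s hs => by
  obtain ⟨N, hN⟩ := shift M h h' hs
  exact (hu.pow N).mem_of_mul (hS hN)

lemma loc_face (hC : T.C0) {m : T.M} (hm : T.V m) (h : τ ⊆ T.F m) :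
    LocOf (M.B (T.F m)) (M.B τ) := by
  obtain ⟨u, hu⟩ := hC.dual m hm fun ρ => if ρ ∈ τ then 0 else 1
  have h1 : ∀ ρ ∈ T.F m, 0 ≤ u ⬝ᵥ T.v ρ := fun ρ hρ => by rw [hu ρ hρ]; split_ifs <;> simp
  have h2 : ∀ ρ ∈ τ, u ⬝ᵥ T.v ρ = 0 := fun ρ hρ => by rw [hu ρ (h hρ), if_pos hρ]
  have h3 : Un (M.B τ) (M.χ u) := ⟨M.χ_ne u, chi_mem M fun ρ hρ => (h2 ρ hρ).ge, by
    rw [← M.χ_neg]
    exact chi_mem M fun ρ hρ => by simp [h2 ρ hρ]⟩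
  refine ⟨fun s ⟨G, hG, e⟩ => ⟨G, fun ρ hρ => hG ρ (h hρ), e⟩, fun s hs => ?_⟩
  obtain ⟨N, hN⟩ := shift M h1 (fun ρ hρ e => by
    by_contra k
    simp [hu ρ hρ, k] at e) hs
  exact ⟨_, pow_mem (chi_mem M h1) N, h3.pow N, hN⟩

lemma glue {m m' : T.M} (hm : T.V m) (hm' : T.V m') {S S' V : Subring K}
    (h : LocOf (M.B (T.F m)) S) (h' : M.B (T.F m') ≤ S') (d : Dom S V) (d' : Dom S' V) :
    S ≤ S' := by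
  have p : ∀ {a b : T.M}, T.V a → ∀ ρ ∈ T.F b, 0 ≤ (a - b) ⬝ᵥ T.v ρ := fun ha ρ hρ => by
    have := ha.1 ρ
    rw [sub_dotProduct, mem_F.1 hρ]
    omega
  have h1 := h' (chi_mem M (p hm))
  have h2 : Un V (M.χ (m - m')) := ⟨M.χ_ne _, d'.1 h1, by
    rw [← M.χ_neg, neg_sub]
    exact d.1 (h.1 (chi_mem M (p hm')))⟩
  have h3 : M.B (T.F m) ≤ S' := le_of_un M (p hm) (fun ρ hρ e => by
    rw [sub_dotProduct, mem_F.1 hρ] at e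
    exact mem_F.2 (by omega)) h' (d'.2 _ h1 h2)
  exact h.le h3 fun b hb hu => d'.2 b (h3 hb) (hu.mono d.1)

lemma pt (hC : T.C0) (hτ : T.Face τ) (S : Subring K) (hS : IsLoc S) (h : LocOf (M.B τ) S) :
    ∃ z, M.X.O z = S := by
  obtain ⟨m0, h0, h1⟩ := hτ
  have h2 := (loc_face M hC h0 h1).trans h
  obtain ⟨V, hV⟩ := hS.exists_val
  obtain ⟨i, hi⟩ := M.X.exists_chart_val V fun a => hV.1 (h.1 (Subalgebra.algebraMap_mem _ a))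
  obtain ⟨z, hz, -⟩ := exists_centre (isLoc_of_val V.mem_or_inv_mem) hi
  obtain ⟨m, h3, h4⟩ := M.chart z
  exact ⟨z, le_antisymm (glue M h3 h0 h4 h2.1 hz hV) (glue M h0 h3 h2 h4.1 hV hz)⟩

end PTSB

theorem st_PTS (hC : St_C0) : St_PTS := by
  intro T K _ _ M
  refine ⟨fun τ => PTSB.pt M (hC T), fun τ hτ z h => ?_, fun s => ?_⟩
  · obtain ⟨y, hy⟩ := PTSB.pt M (hC T) hτ _ ((dom_loc h).isLoc (M.X.isLoc z)) locOf_loc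
    rw [← M.X.sep y z _ (M.X.isLoc z) (hy ▸ dom_loc h) Dom.refl, hy]
    exact locOf_loc
  · obtain ⟨z, hz⟩ := M.X.exists_top
    obtain ⟨m, -, h⟩ := M.chart z
    obtain ⟨b, ⟨H, -, rfl⟩, h1, G, -, e⟩ := h.2 s (hz ▸ Subring.mem_top s)
    exact ⟨G, H, h1.1, eq_div_of_mul_eq h1.1 ((mul_comm _ _).trans e.symm)⟩

end Pool.Agent.Lib.TF
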