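import Pool.Agent.Lib.TF.Blue

/-! Common zeros in the torus. -/

open Set Polynomial TensorProduct
open scoped Classical

noncomputable section

namespace Pool.Agent.Lib.TF

namespace PTZB

theorem pt (K A : Type) [Field K] [CommRing A] [Nontrivial A] [Algebra K A] [Algebra.FiniteType K A]
    [Algebra K ℂ] : Nonempty (A →ₐ[K] ℂ) := by
  obtain ⟨𝔪, hm⟩ := Ideal.exists_maximal A
  let _ := Ideal.Quotient.field 𝔪
  have := finite_of_finite_type_of_isJacobsonRing K (A ⧸ 𝔪)
  exact ⟨AlgHom.comp IsAlgClosed.lift (Ideal.Quotient.mkₐ K 𝔪)⟩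

theorem ext {R B : Type} [CommRing R] [IsDomain R] [CommRing B] [Algebra ℚ R] [Algebra ℚ B]
    [Algebra.FiniteType ℚ B] (θ : R →+* B) (hi : Function.Injective θ) (a : R →+* ℂ)
    (ha : Function.Injective a) : ∃ e : B →+* ℂ, ∀ r, e (θ r) = a r := by
  algebraize [θ]
  have := Algebra.FiniteType.of_restrictScalars_finiteType ℚ R B
  let K := FractionRing R
  let _ : Algebra K ℂ := (IsFractionRing.lift ha).toAlgebra
  have := Algebra.TensorProduct.nontrivial_of_algebraMap_injective_of_flat_left R K B hi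
  obtain ⟨l⟩ := pt K (K ⊗[R] B)
  refine ⟨l.toRingHom.comp Algebra.TensorProduct.includeRight.toRingHom, fun r => ?_⟩
  refine Eq.trans ?_ ((l.commutes (algebraMap R K r)).trans (IsFractionRing.lift_algebraMap ha r))
  exact congrArg l ((Algebra.TensorProduct.includeRight.commutes r).trans
    (IsScalarTower.algebraMap_apply R K _ r))

theorem inj {A B : Type} [CommRing A] [CommRing B] [IsDomain B] (φ : A[X] →+* B) (h : φ X ≠ 0)
    (e : B →+* ℂ) (h0 : e (φ X) = 0) (hi : ∀ a, e (φ (C a)) = 0 → a = 0) :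
    Function.Injective φ := by
  refine (injective_iff_map_eq_zero φ).2 fun p hp => by_contra fun hn => ?_
  obtain ⟨q, h1, h2⟩ := exists_eq_pow_rootMultiplicity_mul_and_not_dvd p hn 0
  rw [C_0, sub_zero] at h1 h2
  rw [h1, map_mul, map_pow] at hp
  have h3 := (mul_eq_zero.1 hp).resolve_left (pow_ne_zero _ h)
  refine h2 (X_dvd_iff.2 (hi _ ?_))
  rw [← X_mul_divX_add q, map_add, map_mul] at h3
  simpa [h0] using congrArg e h3

variable {n : ℕ} {J : Type} [Fintype J]

theorem chr (v : J → Fin n → ℤ) (hv : LinearIndependent ℤ v) (y : J → ℂ) (hy : ∀ j, y j ≠ 0) :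
    ∃ χ : Multiplicative (Fin n → ℤ) →* ℂ, ∀ j, χ (.ofAdd (v j)) = y j := by
  obtain ⟨l, hl⟩ := (Module.Baer.of_divisible ℂ).extension_property _
    (linearIndependent_iff_injective_fintypeLinearCombination.1 hv)
    (Fintype.linearCombination ℤ fun j => Complex.log (y j))
  refine ⟨⟨⟨fun w => Complex.exp (l w.toAdd), by simp⟩, by simp [Complex.exp_add]⟩, fun j => ?_⟩
  have h : l (v j) = Complex.log (y j) := by simpa using LinearMap.congr_fun hl (Pi.single j 1)
  exact (congrArg Complex.exp h).trans (Complex.exp_log (hy j))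

/-- coefficients -/
abbrev Rr (ι : Type) : Type := MvPolynomial ι ℚ

/-- the parameter ring -/
abbrev Bb (ι : Type) (n : ℕ) : Type := AddMonoidAlgebra (Rr ι)[X] (Fin n → ℤ)

theorem core {ι : Type} [Fintype ι] (p : ι → Fin n → ℤ) (a : ι → ℂ) (ha : AlgebraicIndependent ℚ a)
    (S : J → ι → Prop) (u u' : J → ι) (hd : ∀ i j, i ≠ j → ∀ w, S i w → ¬S j w)
    (hu : ∀ j, S j (u j) ∧ S j (u' j)) (hl : LinearIndependent ℤ fun j => p (u' j) - p (u j)) :
    ∃ χ : Multiplicative (Fin n → ℤ) →* ℂ, ∀ j, ∑ w with S j w, a w * χ (.ofAdd (p w)) = 0 := by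
  have e0 : ∀ i j w, S i w → S j w → i = j := fun i j w b c => by_contra fun e => hd i j e w b c
  have n1 : ∀ j w, S j w → w ≠ u j → w ∉ range u := by
    rintro j _ b c ⟨i, rfl⟩
    exact c (congrArg u (e0 i j _ (hu i).1 b))
  have n2 : ∀ j, u' j ≠ u j := fun j e => hl.ne_zero j (by rw [e, sub_self])
  obtain ⟨χ, hχ⟩ := chr _ hl (fun j => -a (u j) / a (u' j)) fun j =>
    div_ne_zero (neg_ne_zero.2 (ha.ne_zero _)) (ha.ne_zero _)
  let s : ι → (Rr ι)[X] := fun w => (if w ∈ range u ∪ range u' then 1 else X) * C (.X w)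
  let g : ι → Bb ι n := fun w => if w ∈ range u then
    -∑ w' with (∃ j, S j w ∧ S j w') ∧ w' ≠ w, .single (p w' - p w) (s w') else .single 0 (C (.X w))
  let φ : (Rr ι)[X] →+* Bb ι n :=
    eval₂RingHom (MvPolynomial.aeval (R := ℚ) g).toRingHom (.single 0 X)
  let σ : Rr ι →+* (Rr ι)[X] := (MvPolynomial.aeval (R := ℚ) s).toRingHom
  let α : Rr ι →+* ℂ := (MvPolynomial.aeval (R := ℚ) a).toRingHom
  let e : Bb ι n →+* ℂ :=
    AddMonoidAlgebra.liftNCRingHom (eval₂RingHom α 0) χ fun _ _ => Commute.all _ _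
  have f0 : φ X = .single 0 X := eval₂_X _ _
  have f1 : ∀ w, φ (C (.X w)) = g w := fun w => (eval₂_C _ _).trans (MvPolynomial.aeval_X _ _)
  have f2 : ∀ j, g (u j) = -∑ w with S j w ∧ w ≠ u j, .single (p w - p (u j)) (s w) := fun j => by
    refine (if_pos ⟨j, rfl⟩).trans (congrArg _ (Finset.sum_congr (Finset.filter_congr fun w _ =>
      and_congr_left' ⟨?_, fun b => ⟨j, (hu j).1, b⟩⟩) fun _ _ => rfl))
    rintro ⟨i, b, c⟩
    exact e0 i j _ b (hu j).1 ▸ c
  have f3 : ∀ w, w ∉ range u → φ (s w) = .single 0 (s w) := fun w b => by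
    have : g w = .single 0 (C (.X w)) := if_neg b
    simp only [s, map_mul, f1, this]
    split_ifs
    · rw [map_one, one_mul, one_mul]
    · rw [f0, AddMonoidAlgebra.single_mul_single, add_zero]
  have f4 : ∀ w c, e (.single w c) = eval₂ α 0 c * χ (.ofAdd w) := fun w c =>
    AddMonoidAlgebra.liftNCRingHom_single _ _ _ _ _
  have f5 : ∀ w, α (.X w) = a w := MvPolynomial.aeval_X _
  have f6 : (e.comp φ).comp C = α := by
    refine MvPolynomial.ringHom_ext' (Subsingleton.elim _ _) fun w => ?_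
    change e (φ (C _)) = _
    rw [f1, f5]
    by_cases b : w ∈ range u
    · obtain ⟨j, rfl⟩ := b
      rw [f2, map_neg, map_sum, Finset.sum_eq_single (u' j) (fun w b c => ?_) (by simp [hu, n2]), f4,
        hχ]
      · simp only [s, if_pos (mem_union_right _ (mem_range_self j)), one_mul, eval₂_C, f5]
        have := ha.ne_zero (u' j)
        field_simp
      · obtain ⟨b1, b2⟩ := (Finset.mem_filter.1 b).2
        have : w ∉ range u ∪ range u' := by
          rintro (d | ⟨i, rfl⟩)
          · exact n1 j w b1 b2 d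
          · exact c (congrArg u' (e0 i j _ (hu i).2 b1))
        simp only [f4, s, if_neg this, eval₂_mul, eval₂_X, zero_mul]
    · rw [show g w = _ from if_neg b, f4, eval₂_C, f5, ofAdd_zero, map_one, mul_one]
  have i0 : Function.Injective α := ha
  have i1 : Function.Injective φ := by
    refine @inj (Rr ι) (Bb ι n) _ _ _ φ (f0 ▸ AddMonoidAlgebra.single_ne_zero.2 X_ne_zero) e ?_ fun r b => ?_
    · rw [f0, f4, eval₂_X, zero_mul]
    · refine i0 ?_
      rw [map_zero, ← f6]
      exact b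
  have i2 : (evalRingHom 1).comp σ = RingHom.id (Rr ι) := by
    refine MvPolynomial.ringHom_ext' (Subsingleton.elim _ _) fun w => ?_
    change eval 1 (MvPolynomial.aeval (R := ℚ) s (.X w)) = .X w
    simp only [MvPolynomial.aeval_X, s]
    split_ifs <;> simp
  have : AddMonoid.FG (Fin n → ℤ) :=
    AddGroup.fg_iff_addMonoid_fg.1 (Module.Finite.iff_addGroup_fg.1 inferInstance)
  have ft : Algebra.FiniteType ℚ (Bb ι n) := .trans (S := (Rr ι)[X]) inferInstance inferInstance
  obtain ⟨v, hv⟩ := @ext (Rr ι) (Bb ι n) _ _ _ _ _ ft (φ.comp σ)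
    (i1.comp (Function.LeftInverse.injective (RingHom.congr_fun i2))) α i0
  refine ⟨v.toMonoidHom.comp (AddMonoidAlgebra.of _ _), fun j => ?_⟩
  have f7 : ∀ w, a w = v (φ (s w)) := fun w => by
    rw [← f5, ← hv]
    exact congrArg (fun r => v (φ r)) (MvPolynomial.aeval_X _ _)
  have f8 : ∑ w with S j w, φ (s w) * .single (p w) 1 = 0 := by
    rw [← Finset.add_sum_erase _ _ (a := u j) (by simp [hu]), show s (u j) = C (.X (u j)) by
      simp only [s, if_pos (mem_union_left _ (mem_range_self j)), one_mul], f1, f2]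
    refine (show ∀ x y z : Bb ι n, x * y = z → -x * y + z = 0 from fun x y z h => h ▸ by ring) _ _ _ ?_
    rw [Finset.sum_mul]
    refine Finset.sum_congr (by ext w; simp [and_comm]) fun w b => ?_
    obtain ⟨b1, b2⟩ := Finset.mem_erase.1 b
    rw [f3 w (n1 j w (Finset.mem_filter.1 b2).2 b1), AddMonoidAlgebra.single_mul_single,
      AddMonoidAlgebra.single_mul_single, sub_add_cancel, zero_add]
  rw [← map_zero v, ← f8, map_sum]
  exact Finset.sum_congr rfl fun w _ => by rw [f7, map_mul v]; rfl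

end PTZB

theorem st_PTZ : St_PTZ := by
  intro T f hf J _ S u u' hd hu hl
  have : Finite {w // T.P w} := (f.coeff.support.finite_toSet.subset fun w hw =>
    Finsupp.mem_support_iff.2 (hf.ne hw)).to_subtype
  have := Fintype.ofFinite {w // T.P w}
  obtain ⟨χ, h⟩ := PTZB.core Subtype.val _ hf.ind (fun j w => S j w) (fun j => ⟨u j, (hu j).1⟩)
    (fun j => ⟨u' j, (hu j).2.2.1⟩) (fun i j e w => hd i j e w)
    (fun j => ⟨(hu j).2.1, (hu j).2.2.2⟩) hl
  refine ⟨AddMonoidAlgebra.lift ℂ ℂ _ χ, fun j => ?_⟩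
  have e : part (S j) f = ∑ w : {w // T.P w} with S j w.1, .single w.1 (f.coeff w.1) := by
    refine La.ext fun w => ?_
    simp only [coeff_part, AddMonoidAlgebra.coeff_sum, Finsupp.finsetSum_apply,
      AddMonoidAlgebra.coeff_single, Finsupp.single_apply]
    rw [Finset.sum_filter]
    by_cases b : T.P w
    · rw [Finset.sum_eq_single ⟨w, b⟩ (fun _ _ c => by simp [Subtype.coe_ne_coe.2 c]) (by simp)]
      simp
    · rw [not_not.1 (mt (hf.sup w) b), ite_self]
      exact (Finset.sum_eq_zero fun x _ => by simp [show x.1 ≠ w from fun d => b (d ▸ x.2)]).symm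
  rw [e, map_sum, ← h j]
  exact Finset.sum_congr rfl fun w _ => by simp

end Pool.Agent.Lib.TF
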