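import Pool.Agent.Lib.TF.Blue

open Set Pool.Agent.Lib.MP_e39d36_ag Pool.Agent.Lib.MP_e39d36_ag.Var Pool.Agent.Lib.DU
  Pool.Agent.Lib.MV
open scoped Classical

set_option linter.unusedVariables false

noncomputable section

namespace Pool.Agent.Lib.TF

open Fano

namespace PULLB

variable {T : Fano} {K : Type} [Field K] [Algebra ℂ K] (M : T.Mod K)

lemma nc_res {W : Dv M.X} {V : T.Ray → Dv M.X} {c : T.Ray → ℂ}
    (h : Res fun E => (W E : ℂ) - cmb c V E) : M.nc W = ∑ ρ, (c ρ).re • M.nc (V ρ) := by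
  have := Res.n2 (J := Option T.Ray) (c := fun j => j.elim 1 fun ρ => -c ρ)
    (W := fun j => j.elim W V) M.sm M.Γ (h.congr fun E => by
      simp [cmb, Fintype.sum_option, sub_eq_add_neg]) Complex.reLm
  rw [Fintype.sum_option] at this
  simp only [Option.elim, map_neg, Complex.reLm_coe, Complex.one_re, one_smul] at this
  rw [eq_neg_of_add_eq_zero_left this, ← Finset.sum_neg_distrib]
  exact Finset.sum_congr rfl fun ρ _ => neg_eq_iff_eq_neg.2 (neg_smul (c ρ).re (M.nc (V ρ)))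

lemma surj (hL : St_LEF) : Function.Surjective M.cl :=
  LinearMap.range_eq_top.1 (top_le_iff.1 (M.Γ.span_cls.ge.trans (Submodule.span_le.2 (by
    rintro _ ⟨D, rfl⟩
    obtain ⟨c, hc⟩ := hL T K M D.1
    exact ⟨_, (nc_res M hc).symm⟩))))

lemma act_ker (hC : St_CV) (g : T.Gn) {a : T.Ray → ℝ} (h : M.cl a = 0) : T.act ℝ g a = a := by
  have h1 : ∀ z z', T.Opp z z' → a z + a z' = 0 := fun z z' ho => by
    obtain ⟨φ, hφ⟩ := (hC T K M).1 z z' ho
    rw [← hφ, h, map_zero]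
  have h2 : ∀ x z y, T.Tri x z y → a x + a z - a y = 0 := fun x z y ht => by
    obtain ⟨φ, hφ⟩ := (hC T K M).2 x z y ht
    rw [← hφ, h, map_zero]
  funext ρ
  cases g with
  | p z z' ho =>
    rw [act, Tp_apply, h1 z z' ho,
      Finset.sum_eq_zero fun y hy => h2 _ _ _ (Finset.mem_filter.1 hy).2,
      Finset.sum_eq_zero fun x hx => by linarith [h2 _ _ _ ((Finset.mem_filter.1 hx).2.opp ho)]]
    ring
  | q x z y w ht ho =>
    rw [act, Tq_apply, show a x + a z + a w = 0 by linarith [h1 _ _ ho, h2 _ _ _ ht],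
      Finset.sum_eq_zero fun σ hσ => by rw [h1 _ _ (Finset.mem_filter.1 hσ).2, zero_mul],
      Finset.sum_eq_zero fun σ hσ => by rw [h1 _ _ (Finset.mem_filter.1 hσ).2, zero_mul]]
    ring

lemma gen (hB : St_BAS) (hL : St_LEF) (hC : St_CV) (hA : St_ACT) (g : T.Gn) :
    ∃ φ L, M.Γ.IsPull φ L ∧ ∀ a, L (M.cl a) = M.cl (T.act ℝ g a) := by
  obtain ⟨φ, e, hp, ha⟩ := hA T K M g
  obtain ⟨s, hs⟩ := M.cl.exists_rightInverse_of_surjective (LinearMap.range_eq_top.2 (surj M hL))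
  have hs' : ∀ y, M.cl (s y) = y := LinearMap.congr_fun hs
  let f : M.Γ.N1 →ₗ[ℝ] M.Γ.N1 := M.cl ∘ₗ T.act ℝ g ∘ₗ s
  have hf : ∀ a, f (M.cl a) = M.cl (T.act ℝ g a) := fun a => by
    have h0 : M.cl (s (M.cl a) - a) = 0 := by rw [map_sub, hs', sub_self]
    have h1 := act_ker M hC g h0
    rw [← h1, map_sub, map_sub, sub_eq_zero] at h0
    exact h0
  let ε : M.X.CD ≃ M.X.CD :=
    (End.push e).toEquiv.subtypeEquiv fun D => iff_of_true (M.sm.fac _) (M.sm.fac _)
  have h1 : ∀ ρ, M.std (Pi.single ρ 1) = Finsupp.single (M.D ρ) 1 := fun ρ => by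
    change ∑ σ, Finsupp.single (M.D σ) ((Pi.single ρ 1 : T.Λ) σ) = _
    rw [Finset.sum_eq_single ρ (fun σ _ h => by simp [h]) (by simp), Pi.single_eq_same]
  have h2 : ∀ ρ, f (M.nc (Finsupp.single (M.D ρ) 1)) =
      M.nc (End.push e (Finsupp.single (M.D ρ) 1)) := fun ρ => by
    rw [← h1, (ha _).nc_eq, ← (hB T K M).cls, ← (hB T K M).cls, hf, act_rc]
  have h3 : ∀ D, f (M.Γ.cls D) = M.Γ.cls (ε D) := fun D => by
    obtain ⟨c, hc⟩ := hL T K M D.1
    have h4 := nc_res M (W := End.push e D.1) (c := c)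
      (V := fun ρ => End.push e (Finsupp.single (M.D ρ) 1)) ((hc.push hp).congr fun E => by
        simp only [cmb, End.push_apply])
    have h5 := congrArg f (nc_res M hc)
    simp only [map_sum, map_smul, h2] at h5
    exact h5.trans h4.symm
  have h6 : Function.Surjective f :=
    LinearMap.range_eq_top.1 (top_le_iff.1 (M.Γ.span_cls.ge.trans (Submodule.span_le.2 (by
      rintro _ ⟨D, rfl⟩
      exact ⟨_, (h3 (ε.symm D)).trans (by rw [ε.apply_symm_apply])⟩))))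
  have h7 : FiniteDimensional ℝ M.Γ.N1 := Module.Finite.of_surjective M.cl (surj M hL)
  exact ⟨φ, LinearEquiv.ofBijective f ⟨LinearMap.injective_iff_surjective.2 h6, h6⟩,
    ⟨hp.1, e, ε, hp.2, fun D E => by simp [ε], h3⟩, hf⟩

end PULLB

theorem st_PULL (hB : St_BAS) (hL : St_LEF) (hC : St_CV) (hA : St_ACT) : St_PULL := by
  intro T K _ _ M
  refine ⟨PULLB.surj M hL, fun l => ?_⟩
  induction l with
  | nil => exact ⟨1, 1, Curves.isPull_one, fun _ => rfl⟩
  | cons g l ih =>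
    obtain ⟨φ, L, h1, h2⟩ := PULLB.gen M hB hL hC hA g
    obtain ⟨φ', L', h3, h4⟩ := ih
    exact ⟨_, _, h1.mul h3, fun a => by rw [wd_cons, ← h2, ← h4]; rfl⟩

end Pool.Agent.Lib.TF
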