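import Pool.Agent.Lib.TF.Blue
import Pool.Agent.Lib.DU.DER

open Set Pool.Agent.Lib.MP_e39d36_ag Pool.Agent.Lib.MP_e39d36_ag.Var Pool.Agent.Lib.DU
  Pool.Agent.Lib.MV
open scoped Classical

noncomputable section

namespace Pool.Agent.Lib.TF

open Fano

namespace RELB

variable {T : Fano} {K : Type} [Field K] [Algebra ℂ K] (M : T.Mod0 K)

lemma β_apply (g : Fin T.n → K) : M.β g = ∑ i, g i • dlog (M.χ (Pi.single i 1)) :=
  Fintype.linearCombination_apply _ _ _

/-- The logarithmic differential of a character. -/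
lemma dlog_χ (u : T.M) : dlog (M.χ u) = ∑ i, (u i : ℂ) • dlog (M.χ (Pi.single i 1)) := by
  let L : T.M →+ Ω[K⁄ℂ] :=
    { toFun := fun u => dlog (M.χ u)
      map_zero' := by rw [M.χ_zero, Log.dlog_one]
      map_add' := fun u u' => by rw [M.χ_add, Log.dlog_mul (M.χ_ne u) (M.χ_ne u')] }
  have h : u = ∑ i, u i • (Pi.single i 1 : T.M) := by
    ext j
    simp [Finset.sum_apply, Pi.single_apply]
  change L u = _
  conv_lhs => rw [h]
  rw [map_sum]
  refine Finset.sum_congr rfl fun i _ => ?_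
  rw [map_zsmul, Int.cast_smul_eq_zsmul]
  rfl

lemma D_mn (u : T.M) : KaehlerDifferential.D ℂ K (M.ψ (mn u)) =
    M.β fun i => M.ψ (ld (Pi.single i 1) (mn u)) := by
  have h : KaehlerDifferential.D ℂ K (M.χ u) = M.χ u • dlog (M.χ u) := by
    rw [dlog, smul_smul, mul_inv_cancel₀ (M.χ_ne u), one_smul]
  change KaehlerDifferential.D ℂ K (M.χ u) = _
  rw [h, dlog_χ, β_apply, Finset.smul_sum]
  refine Finset.sum_congr rfl fun i _ => ?_
  rw [ld_mn, map_smul, dotProduct_single, mul_one, smul_assoc, smul_comm]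
  rfl

/-- The differential of a Laurent polynomial. -/
lemma D_ψ (G : T.R) : KaehlerDifferential.D ℂ K (M.ψ G) =
    M.β fun i => M.ψ (ld (Pi.single i 1) G) := by
  rw [eq_sum G]
  refine Finset.sum_induction _ (fun G => KaehlerDifferential.D ℂ K (M.ψ G) =
    M.β fun i => M.ψ (ld (Pi.single i 1) G)) (fun G H h h' => ?_) ?_ fun u _ => ?_
  · rw [map_add, map_add, h, h', ← map_add]
    exact congrArg M.β (funext fun i => by rw [ld_add, map_add]; rfl)
  · simp [β_apply]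
  · rw [map_smul, Derivation.map_smul, D_mn, ← LinearMap.map_smul_of_tower]
    exact congrArg M.β (funext fun i => by rw [ld_smul, map_smul]; rfl)

lemma surj (h : ∀ s : K, ∃ G H, M.ψ H ≠ 0 ∧ s = M.ψ G / M.ψ H) : Function.Surjective M.β := by
  rw [← LinearMap.range_eq_top, eq_top_iff, ← KaehlerDifferential.span_range_derivation,
    Submodule.span_le]
  rintro _ ⟨s, rfl⟩
  obtain ⟨G, H, -, rfl⟩ := h s
  rw [Derivation.leibniz_div, D_ψ, D_ψ]
  exact Submodule.smul_mem _ _ (sub_mem (Submodule.smul_mem _ _ (LinearMap.mem_range_self _ _))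
    (Submodule.smul_mem _ _ (LinearMap.mem_range_self _ _)))

lemma θ_ne (hJAC : St_JAC) : M.θ ≠ 0 := by
  intro h
  obtain ⟨m, hm, -⟩ := T.cov 0
  obtain ⟨G₀, G, -, -, h1⟩ := hJAC T M.f M.gen m hm
  have h2 : ∀ w, M.ψ (ld w M.f) = 0 := fun w => by
    rw [ld_dir, map_sum]
    refine Finset.sum_eq_zero fun i _ => ?_
    rw [map_smul, show M.ψ (ld (Pi.single i 1) M.f) = 0 from congrFun h i, smul_zero]
  have h3 := congrArg M.ψ h1
  simp only [map_add, map_mul, map_sum, h2, M.ψ_f, mul_zero, Finset.sum_const_zero, add_zero,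
    map_one] at h3
  exact zero_ne_one h3

lemma lift_β (δ : Derivation ℂ K K) (g : Fin T.n → K) : δ.liftKaehlerDifferential (M.β g) =
    ∑ j, g j * ((M.χ (Pi.single j 1))⁻¹ * δ (M.χ (Pi.single j 1))) := by
  simp only [β_apply, dlog, map_sum, map_smul, Derivation.liftKaehlerDifferential_comp_D,
    smul_eq_mul]

/-- Coordinate derivations of a transcendence basis. -/
lemma der {t : Set K} (hb : IsTranscendenceBasis ℂ ((↑) : t → K)) {y : K} (hy : y ∈ t) :
    ∃ δ : Derivation ℂ K K, δ y = 1 ∧ ∀ y' ∈ t, y' ≠ y → δ y' = 0 := by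
  obtain ⟨δ, hδ⟩ := blockDER ℂ K t _ hb (Pi.single ⟨y, hy⟩ 1)
  refine ⟨δ, (hδ ⟨y, hy⟩).trans (Pi.single_eq_same _ _), fun y' hy' hne => ?_⟩
  exact (hδ ⟨y', hy'⟩).trans (Pi.single_eq_of_ne (fun e => hne (congrArg Subtype.val e)) _)

end RELB

open RELB

theorem st_REL (hMON : St_MON) (hJAC : St_JAC) : St_REL := by
  intro T K _ _ M
  have hs := surj M.toMod0 M.pts.frac
  have hθ := θ_ne M.toMod0 hJAC
  have hβ : M.β M.θ = 0 := by
    have h := D_ψ M.toMod0 M.f
    rw [M.ψ_f, map_zero] at h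
    exact h.symm
  obtain ⟨i, hi⟩ := (hMON T.n).2.2 K M.ψ M.f (fun h => (h.map M.ψ).ne_zero M.ψ_f)
    (fun h => hθ (funext fun i => by simp [Mod0.θ, h])) fun G h => (M.ker G).1 h
  obtain ⟨t, ht, hb⟩ := exists_isTranscendenceBasis_superset (R := ℂ) (A := K)
    (s := range fun j : {j : Fin T.n // j ≠ i} => M.ψ (mn (Pi.single j.1 1))) hi.to_subtype_range
  have hm : ∀ j, j ≠ i → M.χ (Pi.single j 1) ∈ t := fun j hj => ht ⟨⟨j, hj⟩, rfl⟩
  have hk : ∀ g, M.β g = 0 → g i = 0 → g = 0 := fun g h h0 => funext fun j => by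
    by_cases hj : j = i
    · rw [hj, h0]; rfl
    obtain ⟨δ, h1, h2⟩ := der hb (hm j hj)
    have h3 := lift_β M.toMod0 δ g
    rw [h, map_zero, Finset.sum_eq_single j (fun l _ hl => by
      by_cases hl' : l = i
      · rw [hl', h0, zero_mul]
      · rw [h2 _ (hm l hl') fun e => hl (congrArg Subtype.val
          (hi.injective (a₁ := ⟨l, hl'⟩) (a₂ := ⟨j, hj⟩) e)), mul_zero, mul_zero])
      (fun h => absurd (Finset.mem_univ _) h), h1, mul_one] at h3
    exact (mul_eq_zero.1 h3.symm).resolve_right (inv_ne_zero (M.χ_ne _))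
  have hθi : M.θ i ≠ 0 := fun h => hθ (hk _ hβ h)
  have he : t = range fun j : {j : Fin T.n // j ≠ i} => M.ψ (mn (Pi.single j.1 1)) := by
    refine Subset.antisymm (fun y hy => ?_) ht
    by_contra hn
    obtain ⟨δ, h1, h2⟩ := der hb hy
    have h3 : ∀ j, j ≠ i → δ (M.χ (Pi.single j 1)) = 0 := fun j hj =>
      h2 _ (hm j hj) fun e => hn ⟨⟨j, hj⟩, e⟩
    have h4 := lift_β M.toMod0 δ M.θ
    rw [hβ, map_zero, Finset.sum_eq_single i (fun l _ hl => by rw [h3 l hl, mul_zero, mul_zero])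
      (fun h => absurd (Finset.mem_univ _) h)] at h4
    have h5 := (mul_eq_zero.1 h4.symm).resolve_left hθi
    obtain ⟨g, hg⟩ := hs (KaehlerDifferential.D ℂ K y)
    have h6 := lift_β M.toMod0 δ g
    rw [hg, Derivation.liftKaehlerDifferential_comp_D, h1, Finset.sum_eq_zero fun j _ => by
      by_cases hj : j = i
      · rw [hj, h5, mul_zero]
      · rw [h3 j hj, mul_zero, mul_zero]] at h6
    exact one_ne_zero h6
  refine ⟨?_, hs, D_ψ M.toMod0, hθ, fun g => ⟨fun h => ⟨g i / M.θ i, ?_⟩, ?_⟩⟩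
  · rw [← hb.cardinalMk_eq_trdeg, he, Cardinal.mk_range_eq _ hi.injective, Cardinal.mk_fintype]
    simp
  · refine sub_eq_zero.1 (hk _ (by rw [map_sub, map_smul, h, hβ, smul_zero, sub_zero]) ?_)
    rw [Pi.sub_apply, Pi.smul_apply, smul_eq_mul, div_mul_cancel₀ _ hθi, sub_self]
  · rintro ⟨k, rfl⟩
    rw [map_smul, hβ, smul_zero]

end Pool.Agent.Lib.TF
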