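import Pool.Agent.Lib.TF.Blue

open scoped Classical

noncomputable section

namespace Pool.Agent.Lib.TF

open Fano

namespace SEPB

variable {T : Fano}

/-- An affine function vanishing on a face and nonpositive on its link is bounded by the gauge. -/
lemma gauge_le (h : T.C0) {σ : Finset T.Ray} (hσ : T.Face σ) {a : ℤ} {u : T.M}
    (h0 : ∀ ρ ∈ σ, a + u ⬝ᵥ T.v ρ = 0)
    (h1 : ∀ ρ, ρ ∉ σ → T.Face (insert ρ σ) → a + u ⬝ᵥ T.v ρ ≤ 0) (w : T.M) :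
    ∃ m, T.V m ∧ u ⬝ᵥ w ≤ a * (m ⬝ᵥ w) := by
  obtain ⟨m, hm, hs, c, hc0, hc1, hw⟩ := h.star σ hσ w
  refine ⟨m, hm, ?_⟩
  rw [hw, dotProduct_sum, dotProduct_sum, Finset.mul_sum]
  refine Finset.sum_le_sum fun ρ _ => ?_
  rw [dotProduct_smul, dotProduct_smul, smul_eq_mul, smul_eq_mul]
  by_cases hρ : ρ ∈ T.F m
  · rw [mem_F.1 hρ]
    by_cases hρσ : ρ ∈ σ
    · have := h0 ρ hρσ
      have e : u ⬝ᵥ T.v ρ = -a := by linarith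
      rw [e]
      exact le_of_eq (by ring)
    · have h2 := h1 ρ hρσ ⟨m, hm, Finset.insert_subset hρ hs⟩
      have h3 := hc1 ρ hρσ
      nlinarith [mul_nonneg h3 (neg_nonneg.2 h2)]
  · rw [hc0 ρ hρ]
    simp

/-- A local maximum on the star of a face of codimension at least one is global. -/
lemma global_le (h : T.C0) {σ : Finset T.Ray} (hσ : T.Face σ) (hn : σ.card < T.n) {a : ℤ}
    {u : T.M} (h0 : ∀ ρ ∈ σ, a + u ⬝ᵥ T.v ρ = 0)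
    (h1 : ∀ ρ, ρ ∉ σ → T.Face (insert ρ σ) → a + u ⬝ᵥ T.v ρ < 0) (r : T.Ray) :
    a + u ⬝ᵥ T.v r ≤ 0 := by
  obtain ⟨m, hm, hs⟩ := id hσ
  obtain ⟨s, hsm, hsσ⟩ := Finset.exists_mem_notMem_of_card_lt_card
    (show σ.card < (T.F m).card by rw [h.card m hm]; exact hn)
  have h2 := h1 s hsσ ⟨m, hm, Finset.insert_subset hsm hs⟩
  have h1' : ∀ ρ, ρ ∉ σ → T.Face (insert ρ σ) → a + u ⬝ᵥ T.v ρ ≤ 0 := fun ρ b c => (h1 ρ b c).le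
  obtain ⟨m1, hm1, e1⟩ := gauge_le h hσ h0 h1' (-T.v s)
  obtain ⟨m2, hm2, e2⟩ := gauge_le h hσ h0 h1' (T.v r)
  rw [dotProduct_neg, dotProduct_neg] at e1
  have b1 := hm1.1 s
  have b2 := hm2.1 r
  have ha : a < 0 := by
    by_contra hc
    nlinarith [mul_nonneg (not_lt.1 hc) (show 0 ≤ m1 ⬝ᵥ T.v s + 1 by linarith)]
  nlinarith [mul_nonneg (neg_nonneg.2 ha.le) (show 0 ≤ m2 ⬝ᵥ T.v r + 1 by linarith)]

lemma exists_bound (g : T.Ray → ℤ) : ∃ N : ℤ, 0 < N ∧ ∀ ρ, g ρ < N := by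
  obtain ⟨N, hN⟩ := (Set.finite_range g).bddAbove
  refine ⟨max N 0 + 1, by omega, fun ρ => ?_⟩
  have := hN ⟨ρ, rfl⟩
  omega

end SEPB

open SEPB in
theorem st_SEP (hC : St_C0) : St_SEP := by
  intro T τ I hτ hS hne
  have h := hC T
  obtain ⟨a, u, p0, pI, pL⟩ := hS
  obtain ⟨a1, u1, q0, q1⟩ := h.pos τ hτ
  have hIτ : ∀ ρ ∈ I, ρ ∉ τ := fun ρ hρ hc => (pI ρ hρ).ne' (p0 ρ hc)
  obtain ⟨v, hv, hmin⟩ := Finset.exists_min_image (I.filter fun ρ => T.Face (insert ρ τ))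
    (fun ρ => ((a + u ⬝ᵥ T.v ρ : ℤ) : ℚ) / ((a1 + u1 ⬝ᵥ T.v ρ : ℤ) : ℚ))
    (hne.imp fun ρ hρ => Finset.mem_filter.2 hρ)
  obtain ⟨hvI, hvF⟩ := Finset.mem_filter.1 hv
  have hvτ := hIτ v hvI
  obtain ⟨a2, u2, r0, r1⟩ := h.pos _ hvF
  obtain ⟨N, hN0, hN⟩ := exists_bound fun ρ => a2 + u2 ⬝ᵥ T.v ρ
  obtain ⟨N', hN0', hN'⟩ := exists_bound fun ρ => a1 + u1 ⬝ᵥ T.v ρ
  obtain ⟨A, hA⟩ : ∃ A, A = a + u ⬝ᵥ T.v v := ⟨_, rfl⟩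
  obtain ⟨B, hB⟩ : ∃ B, B = a1 + u1 ⬝ᵥ T.v v := ⟨_, rfl⟩
  have hA0 : 0 < A := hA ▸ pI v hvI
  have hB0 : 0 < B := hB ▸ q1 v hvτ
  obtain ⟨a3, u3, e3⟩ : ∃ (a3 : ℤ) (u3 : T.M), ∀ ρ, a3 + u3 ⬝ᵥ T.v ρ =
      N * (B * (a + u ⬝ᵥ T.v ρ) - A * (a1 + u1 ⬝ᵥ T.v ρ)) + (a2 + u2 ⬝ᵥ T.v ρ) :=
    ⟨N * (B * a - A * a1) + a2, N • (B • u - A • u1) + u2, fun ρ => by
      simp only [add_dotProduct, sub_dotProduct, smul_dotProduct, smul_eq_mul]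
      ring⟩
  have s0 : ∀ ρ ∈ insert v τ, a3 + u3 ⬝ᵥ T.v ρ = 0 := fun ρ hρ => by
    rw [e3, r0 ρ hρ]
    rcases Finset.mem_insert.1 hρ with rfl | hρ
    · rw [← hA, ← hB]
      ring
    · rw [p0 ρ hρ, q0 ρ hρ]
      ring
  have sI : ∀ ρ ∈ (I.filter fun ρ => T.Face (insert ρ τ)).erase v, 0 < a3 + u3 ⬝ᵥ T.v ρ :=
    fun ρ hρ => by
      obtain ⟨hρv, hρ⟩ := Finset.mem_erase.1 hρ
      have hρτ := hIτ ρ (Finset.mem_filter.1 hρ).1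
      have h1 := hmin ρ hρ
      have h2 := q1 ρ hρτ
      rw [← hA, ← hB, div_le_div_iff₀ (by exact_mod_cast hB0) (by exact_mod_cast h2)] at h1
      have h3 : A * (a1 + u1 ⬝ᵥ T.v ρ) ≤ (a + u ⬝ᵥ T.v ρ) * B := by exact_mod_cast h1
      have h4 := r1 ρ fun hc => (Finset.mem_insert.1 hc).elim hρv hρτ
      rw [e3]
      nlinarith [mul_nonneg hN0.le (sub_nonneg.2 h3)]
  have sL : ∀ ρ ∉ I, ρ ∉ τ → T.Face (insert ρ τ) → a3 + u3 ⬝ᵥ T.v ρ < 0 := fun ρ h1 h2 h3 => by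
    have h4 := pL ρ h1 h2 h3
    have h5 := q1 ρ h2
    have h6 := hN ρ
    have h7 : B * (a + u ⬝ᵥ T.v ρ) - A * (a1 + u1 ⬝ᵥ T.v ρ) ≤ -1 := by
      nlinarith [mul_pos hA0 h5, mul_pos hB0 (neg_pos.2 h4)]
    rw [e3]
    nlinarith [mul_nonneg hN0.le (sub_nonneg.2 h7)]
  have hI : ∀ ρ ∉ (I.filter fun ρ => T.Face (insert ρ τ)).erase v, ρ ≠ v →
      T.Face (insert ρ τ) → ρ ∉ I := fun ρ h1 h2 h3 h4 =>
    h1 (Finset.mem_erase.2 ⟨h2, Finset.mem_filter.2 ⟨h4, h3⟩⟩)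
  have hsub : ∀ ρ, T.Face (insert ρ (insert v τ)) → T.Face (insert ρ τ) := fun ρ h1 =>
    h1.mono (Finset.insert_subset_insert _ (Finset.subset_insert _ _))
  refine ⟨v, hvI, hvτ, hvF, ⟨N' * a3 - a1, N' • u3 - u1, ?_, ?_, ?_⟩, ⟨a3, u3, s0, sI, ?_⟩, ?_⟩
  · intro ρ hρ
    have h1 := s0 ρ (Finset.mem_insert_of_mem hρ)
    have h2 := q0 ρ hρ
    rw [sub_dotProduct, smul_dotProduct, smul_eq_mul]
    linear_combination N' * h1 - h2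
  · intro ρ hρ
    have h1 := sI ρ hρ
    have h2 := hN' ρ
    rw [sub_dotProduct, smul_dotProduct, smul_eq_mul]
    nlinarith [mul_nonneg hN0'.le (show 0 ≤ a3 + u3 ⬝ᵥ T.v ρ - 1 by omega)]
  · intro ρ h1 h2 h3
    have h4 := q1 ρ h2
    have h5 : a3 + u3 ⬝ᵥ T.v ρ ≤ 0 := by
      by_cases hρ : ρ = v
      · exact (s0 ρ (hρ ▸ Finset.mem_insert_self _ _)).le
      · exact (sL ρ (hI ρ h1 hρ h3) h2 h3).le
    rw [sub_dotProduct, smul_dotProduct, smul_eq_mul]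
    nlinarith [mul_nonneg hN0'.le (neg_nonneg.2 h5)]
  · intro ρ h1 h2 h3
    rw [Finset.mem_insert, not_or] at h2
    exact sL ρ (hI ρ h1 h2.1 (hsub ρ h3)) h2.2 (hsub ρ h3)
  · intro hn ⟨r, hr⟩
    by_contra hc
    refine absurd (global_le h hvF ?_ s0 (fun ρ h2 h3 => ?_) r) (not_le.2 (sI r hr))
    · rw [Finset.card_insert_of_notMem hvτ]
      omega
    · rw [Finset.mem_insert, not_or] at h2
      exact sL ρ (fun h4 => hc ⟨ρ, h4, h2.1, h3⟩) h2.2 (hsub ρ h3)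

end Pool.Agent.Lib.TF
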