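import Pool.Agent.Lib.TF.Blue

open Set Pool.Agent.Lib.MP_e39d36_ag Pool.Agent.Lib.MP_e39d36_ag.Var Pool.Agent.Lib.DU
  Pool.Agent.Lib.MV
open scoped Classical NNReal

noncomputable section

namespace Pool.Agent.Lib.TF

open Fano

namespace SIG0B

variable {K : Type} [Field K] [Algebra ℂ K]

section val

variable {X : Var K} {E : X.PD} {A : Subring K} {p : K}

theorem ge_of (hA : ∀ a ∈ A, a ≠ 0 → X.ord a E.1 = 0) {a : K} (h : a ∈ A) : a ∈ ordGe E 0 := by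
  by_cases h0 : a = 0
  · exact Or.inl h0
  · exact Or.inr (hA a h h0).ge

theorem ord_poly (hA : ∀ a ∈ A, a ≠ 0 → X.ord a E.1 = 0) (h0 : p ≠ 0) (hp : X.ord p E.1 = -2)
    {P : Polynomial A} (hP : P ≠ 0) :
    X.ord (Polynomial.aeval p P) E.1 = -2 * P.natDegree := by
  have h1 : (P.coeff P.natDegree : K) ≠ 0 := fun h =>
    Polynomial.leadingCoeff_ne_zero.2 hP (Subtype.ext h)
  have h2 : X.ord ((P.coeff P.natDegree : K) * p ^ P.natDegree) E.1 = -2 * P.natDegree := by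
    rw [ord_mul h1 (pow_ne_zero _ h0), hA _ (P.coeff _).2 h1, ord_pow, hp]
    ring
  rw [← h2]
  refine (ord_of_sub (mul_ne_zero h1 (pow_ne_zero _ h0)) ?_).2
  rw [h2, Polynomial.aeval_eq_sum_range, Finset.sum_range_succ]
  have h3 : ∀ (a : A) (s : K), a • s = (a : K) * s := fun _ _ => rfl
  simp only [h3, add_sub_cancel_right]
  refine sum_mem fun i hi => ?_
  have h4 := Finset.mem_range.1 hi
  exact ge_mono (ge_mul (ge_of hA (P.coeff i).2) (ge_pow (hp ▸ ge_ord p E) i)) (by omega)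

theorem even_ord (hA : ∀ a ∈ A, a ≠ 0 → X.ord a E.1 = 0) (h0 : p ≠ 0) (hp : X.ord p E.1 = -2)
    {s : K} (hs : s ∈ Subfield.closure (Algebra.adjoin A {p} : Set K)) (h1 : s ≠ 0) :
    Even (X.ord s E.1) := by
  have h2 : ∀ y ∈ Subring.closure (Algebra.adjoin A {p} : Set K), y ≠ 0 → Even (X.ord y E.1) := by
    intro y hy h3
    have h4 : y ∈ Algebra.adjoin A {p} :=
      (Subring.closure_le (t := (Algebra.adjoin A {p}).toSubring)).2 Subset.rfl hy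
    rw [Algebra.adjoin_singleton_eq_range_aeval] at h4
    obtain ⟨P, rfl⟩ := h4
    have h5 := ord_poly hA h0 hp (P := P) fun e => h3 (by rw [e, map_zero])
    exact ⟨-P.natDegree, h5.trans (by ring)⟩
  obtain ⟨y, hy, z, hz, rfl⟩ := Subfield.mem_closure_iff.1 hs
  obtain ⟨a, b⟩ := div_ne_zero_iff.1 h1
  rw [div_eq_mul_inv, ord_mul a (inv_ne_zero b), ord_inv]
  exact (h2 y hy a).add (h2 z hz b).neg

theorem q0_mem {σ : Type} [SetLike σ K] [SubringClass σ K] {c : Cub K} {L : σ} (h : c.In L) :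
    c.q0 ∈ L := by
  obtain ⟨h1, h2, h3, h4, h5, h6, h7, h8, h9⟩ := h
  unfold Cub.q0
  apply_rules [add_mem, sub_mem, mul_mem, pow_mem]

theorem all_mem {c : Cub K} {L : Subfield K} (h : c.In L) (hp : c.p ∈ L) :
    c.X0 ∈ L ∧ c.Z0 ∈ L ∧ c.a2 ∈ L ∧ c.a1 ∈ L ∧ c.a0 ∈ L := by
  have h0 := q0_mem h
  obtain ⟨h1, h2, h3, h4, h5, h6, h7, h8, h9⟩ := h
  have hX : c.X0 ∈ L := by
    unfold Cub.X0
    apply_rules [add_mem, sub_mem, mul_mem, pow_mem]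
  have hZ : c.Z0 ∈ L := by
    unfold Cub.Z0
    apply_rules [add_mem, sub_mem, mul_mem, pow_mem]
  have h10 : (2 : K) ∈ L := ofNat_mem L 2
  refine ⟨hX, hZ, ?_, ?_, ?_⟩
  · unfold Cub.a2
    apply_rules (maxDepth := 100) [add_mem, sub_mem, mul_mem, pow_mem]
  · unfold Cub.a1
    apply_rules (maxDepth := 100) [add_mem, sub_mem, mul_mem, pow_mem]
  · unfold Cub.a0
    apply_rules (maxDepth := 100) [add_mem, sub_mem, mul_mem, pow_mem]

theorem a2_ne (hA : ∀ a ∈ A, a ≠ 0 → X.ord a E.1 = 0) {c : Cub K} (h0 : c.p ≠ 0)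
    (hp : X.ord c.p E.1 = -2) (h : c.In A) (hc : c.c10 ≠ 0) : c.a2 ≠ 0 := by
  have hq := q0_mem h
  obtain ⟨h1, h2, h3, h4, h5, h6, h7, h8, h9⟩ := h
  have h10 : (2 : K) ∈ A := ofNat_mem A 2
  have e : c.a2 - (c.c10 * c.p) ^ 2 =
      c.p * (c.q0 * c.c20 - 2 * c.c10 * (c.c30 * c.c01 ^ 2 - c.c21 * c.c10 * c.c01)) +
        ((c.c30 * c.c01 ^ 2 - c.c21 * c.c10 * c.c01) ^ 2 + c.q0 * (c.c20 * c.c21 * c.c01 -
          c.c30 * c.c11 * c.c01 + c.c30 * c.c02 * c.c10)) := by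
    simp only [Cub.a2, Cub.X0]; ring
  refine (ord_of_sub (E := E) (pow_ne_zero 2 (mul_ne_zero hc h0)) ?_).1
  rw [e, ord_pow, ord_mul hc h0, hA _ h1 hc, hp]
  refine add_mem (ge_mono (ge_mul (hp ▸ ge_ord c.p E) (ge_of hA ?_)) (by norm_num))
    (ge_mono (ge_of hA ?_) (by norm_num))
  · apply_rules (maxDepth := 100) [add_mem, sub_mem, mul_mem, pow_mem]
  · apply_rules (maxDepth := 100) [add_mem, sub_mem, mul_mem, pow_mem]

end val

variable {T : Fano}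

/-- Functions on the torus of the base. -/
def base (M : T.Mod K) (q : T.Pq) : Subring K where
  carrier := {s | ∃ G, Sup q.Pp G ∧ M.ψ G = s}
  mul_mem' := by
    rintro _ _ ⟨G, h, rfl⟩ ⟨H, h', rfl⟩
    exact ⟨G * H, Sup.mul h h' fun u u' a b =>
      ⟨by rw [add_dotProduct, a.1, b.1, add_zero], by rw [add_dotProduct, a.2, b.2, add_zero]⟩,
      map_mul _ _ _⟩
  one_mem' := ⟨1, sup_one ⟨zero_dotProduct _, zero_dotProduct _⟩, map_one _⟩
  add_mem' := by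
    rintro _ _ ⟨G, h, rfl⟩ ⟨H, h', rfl⟩
    exact ⟨G + H, h.add h', map_add _ _ _⟩
  zero_mem' := ⟨0, Sup.zero, map_zero _⟩
  neg_mem' := by
    rintro _ ⟨G, h, rfl⟩
    exact ⟨-G, h.neg, map_neg _ _⟩

theorem top_of (M : T.Mod K) (q : T.Pq) (N : Subfield K) (h : ∀ s ∈ base M q, s ∈ N)
    (hx : M.χ q.xs ∈ N) (hz : M.χ q.zs ∈ N) : N = ⊤ := by
  have h1 : ∀ u, M.χ u ∈ N := fun u => by
    have e : u = u - (u ⬝ᵥ T.v q.x) • q.xs - (u ⬝ᵥ T.v q.z) • q.zs +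
        (u ⬝ᵥ T.v q.x) • q.xs + (u ⬝ᵥ T.v q.z) • q.zs := by abel
    rw [e, M.χ_add, M.χ_add, M.χ_zsmul, M.χ_zsmul]
    refine mul_mem (mul_mem (h _ ⟨_, sup_mn.2 ⟨?_, ?_⟩, rfl⟩) (zpow_mem hx _)) (zpow_mem hz _) <;>
      simp only [sub_dotProduct, smul_dotProduct, q.xx, q.xz, q.zx, q.zz, smul_eq_mul, mul_one,
        mul_zero, sub_self, sub_zero]
  have h2 : ∀ G, M.ψ G ∈ N := fun G => by
    rw [eq_sum G, map_sum]
    refine sum_mem fun u _ => ?_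
    rw [map_smul, Algebra.smul_def]
    exact mul_mem (h _ ⟨_, sup_algebraMap ⟨zero_dotProduct _, zero_dotProduct _⟩ _,
      M.ψ.commutes _⟩) (h1 u)
  refine eq_top_iff.2 fun s _ => ?_
  obtain ⟨G, H, -, rfl⟩ := M.pts.frac s
  exact div_mem (h2 G) (h2 H)

end SIG0B

theorem st_SIG0 (hQUA : St_QUA) (hPS : St_PS) (hGEN : St_GEN) (hEQS : St_EQS) : St_SIG0 := by
  intro T K _ _ M q
  have hE := hEQS T K M q
  obtain ⟨-, -, -, -, g1, -, -, -, -, g2, g3, -⟩ := hGEN T K M q.x q.z q.y q.tri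
  have hy : T.InV q.x q.z q.y := ⟨1, 1, by rw [one_smul, one_smul]; exact Eq.symm q.tri⟩
  have hA : ∀ a ∈ SIG0B.base M q, a ≠ 0 → M.X.ord a (M.D q.y).1 = 0 := by
    rintro _ ⟨G, h, rfl⟩ h0
    exact (hE.un _ hy G (fun e => h0 (by rw [e, map_zero])) h).2
  have hc : ∀ i j, M.co q i j ∈ SIG0B.base M q := fun i j => ⟨_, hE.co i j, rfl⟩
  have hI : (M.cub q).In (SIG0B.base M q) :=
    ⟨hc _ _, hc _ _, hc _ _, hc _ _, hc _ _, hc _ _, hc _ _, hc _ _, hc _ _⟩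
  have h10 : (M.cub q).c10 ≠ 0 := by
    show M.ψ _ ≠ 0
    rw [map_mul]
    exact mul_ne_zero g1 (M.χ_ne _)
  have h2 := SIG0B.a2_ne hA (c := M.cub q) g2 g3 hI h10
  let L : Subfield K := Subfield.closure (Algebra.adjoin (SIG0B.base M q) {M.p q.x q.z} : Set K)
  have hL : ∀ s ∈ SIG0B.base M q, s ∈ L := fun s hs =>
    Subfield.subset_closure (algebraMap_mem (Algebra.adjoin _ _) (⟨s, hs⟩ : SIG0B.base M q))
  have hp : M.p q.x q.z ∈ L := Subfield.subset_closure (Algebra.self_mem_adjoin_singleton _ _)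
  have hIL : (M.cub q).In L := ⟨hL _ (hc _ _), hL _ (hc _ _), hL _ (hc _ _), hL _ (hc _ _),
    hL _ (hc _ _), hL _ (hc _ _), hL _ (hc _ _), hL _ (hc _ _), hL _ (hc _ _)⟩
  obtain ⟨m1, m2, m3, m4, m5⟩ := SIG0B.all_mem hIL hp
  have hq : (M.cub q).q0 ≠ 0 := by
    obtain ⟨G, a, b, e⟩ := hE.q0
    exact e ▸ (hE.un _ hy G a b).1
  have ht : M.χ q.xs = M.t q * M.χ q.zs := (div_mul_cancel₀ _ (M.χ_ne _)).symm
  have hz : ∀ N : Subfield K, L ≤ N → M.t q ∈ N → M.χ q.zs ∈ N := fun N h1 h3 => by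
    have e : M.χ q.zs * (M.t q * (M.cub q).X0 + (M.cub q).Z0) = (M.cub q).q0 := by
      rw [← hE.line, ht]; ring
    rw [eq_div_of_mul_eq (fun h => hq (by rw [← e, h, mul_zero])) e]
    exact div_mem (h1 (SIG0B.q0_mem hIL)) (add_mem (mul_mem h3 (h1 m1)) (h1 m2))
  have h3 : M.t q ∉ L := fun h => by
    have h4 := SIG0B.even_ord hA g2 g3 (hz L le_rfl h) (M.χ_ne _)
    rw [(M.isD q.y).1, q.tri.dot, q.zx, q.zz] at h4
    exact absurd h4 (by decide)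
  have h4 : Subfield.closure (insert (M.t q) (L : Set K)) = ⊤ := by
    have a : L ≤ Subfield.closure (insert (M.t q) (L : Set K)) := fun s hs =>
      Subfield.subset_closure (mem_insert_of_mem _ hs)
    have b : M.t q ∈ Subfield.closure (insert (M.t q) (L : Set K)) :=
      Subfield.subset_closure (mem_insert _ _)
    exact SIG0B.top_of M q _ (fun s hs => a (hL s hs)) (ht ▸ mul_mem b (hz _ a b)) (hz _ a b)
  obtain ⟨φ, f1, -, -, f2, f3, f4⟩ := (hQUA K).1 L _ _ _ _ h3 h4 m3 m4 m5 h2 hE.quad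
  obtain ⟨e, he⟩ := hPS T K M φ fun a => f1 _ (hL _ ⟨_,
    sup_algebraMap ⟨zero_dotProduct _, zero_dotProduct _⟩ _, M.ψ.commutes _⟩)
  exact ⟨φ, e, he, fun u hu => f1 _ (hL _ ⟨_, sup_mn.2 hu, rfl⟩), f1 _ hp, h2, f4, f2, f3⟩

end Pool.Agent.Lib.TF
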