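import Pool.Agent.Lib.TF.Blue

open Set Pool.Agent.Lib.MP_e39d36_ag Pool.Agent.Lib.MP_e39d36_ag.Var Pool.Agent.Lib.DU
  Pool.Agent.Lib.MV
open scoped Classical

noncomputable section

namespace Pool.Agent.Lib.TF

open Fano

namespace SIG1B

variable {T : Fano}

lemma inv_of_opp {x z a ρ : T.Ray} (ha : T.InV x z a) (h : T.Opp a ρ) : T.InV x z ρ := by
  obtain ⟨i, j, e⟩ := ha
  refine ⟨-i, -j, ?_⟩
  have h1 : T.v ρ = -T.v a := eq_neg_of_add_eq_zero_right h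
  rw [h1, e, neg_smul, neg_smul, neg_add]

lemma inv_x (x z : T.Ray) : T.InV x z x := ⟨1, 0, by simp⟩

lemma inv_z (x z : T.Ray) : T.InV x z z := ⟨0, 1, by simp⟩

lemma inv_y {x z y : T.Ray} (h : T.Tri x z y) : T.InV x z y :=
  ⟨1, 1, by rw [one_smul, one_smul]; exact Eq.symm h⟩

lemma ka_off {x z y ρ : T.Ray} (h : T.Tri x z y) (hρ : ¬T.InV x z ρ) :
    T.ka x z y ρ = if T.Nb y ρ then 2 else 1 := by
  unfold ka
  refine if_neg ?_
  rintro (rfl | rfl | h1 | h1 | h1)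
  · exact hρ (inv_x _ _)
  · exact hρ (inv_z _ _)
  · exact hρ (inv_of_opp (inv_x _ _) h1)
  · exact hρ (inv_of_opp (inv_y h) h1)
  · exact hρ (inv_of_opp (inv_z _ _) h1)

lemma ka_le (x z y ρ : T.Ray) : T.ka x z y ρ ≤ 2 := by
  unfold ka
  split_ifs <;> omega

/-- Off the plane the neighbours of `y` are the rays with a double pole of the generator. -/
lemma nb_iff {K : Type} [Field K] [Algebra ℂ K] (M : T.Mod K) (B : M.Bas) (hG : St_GEN)
    (hC : St_CI) {x z y ρ : T.Ray} (h : T.Tri x z y) (hρ : ¬T.InV x z ρ) :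
    T.Nb y ρ ↔ M.X.ord (M.p x z) (M.D ρ).1 ≤ -2 := by
  obtain ⟨-, hp, -, hpa, -, -, -, -, -, hp0, hpy, -, -⟩ := hG T K M x z y h
  have hm := ((B.mem _ _).1 hp).2
  constructor
  · intro hn
    have ky : T.ka x z y y = ((2 : ℕ) : ℤ) := by
      have h1 := (ge_iff hp0).1 (hm y)
      have h2 := ka_le x z y y
      push_cast
      omega
    have kx : T.ka x z y x = 0 := by simp [ka]
    have kz : T.ka x z y z = 0 := by simp [ka]
    have h3 := (hC T K M x z y h _ _ hp).2 2 (-1) (by norm_num) kx (by omega) (by omega) ky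
      (by simpa using hpa) ρ hn (fun e => hρ (e ▸ inv_x _ _)) (fun e => hρ (e ▸ inv_z _ _))
    rw [ge_iff hp0] at h3
    push_cast at h3
    omega
  · intro ho
    by_contra hn
    have h1 := (ge_iff hp0).1 (hm ρ)
    rw [ka_off h hρ, if_neg hn] at h1
    omega

end SIG1B

open SIG1B in
theorem st_SIG1 (h1 : St_C1) (hB : St_BAS) (hG : St_GEN) (hC : St_CI) (hE : St_EQS) :
    St_SIG1 := by
  intro T K _ _ M q φ e h
  have c := h1 T
  have B := hB T K M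
  have Q := hE T K M q
  have hχ : ∀ E u, q.Pp u → M.X.ord (M.χ u) (e E).1 = M.X.ord (M.χ u) E.1 := fun E u hu => by
    rw [← h.ps.2 (M.χ u) E, h.fix u hu]
  have hp : ∀ E, M.X.ord (M.p q.x q.z) (e E).1 = M.X.ord (M.p q.x q.z) E.1 := fun E => by
    rw [← h.ps.2 (M.p q.x q.z) E, h.fp]
  have hM : ∀ E, M.MT q (e E) ↔ M.MT q E := fun E =>
    forall₂_congr fun u hu => by rw [hχ E u hu]
  refine ⟨?_, fun ρ hρ => ?_, hM⟩
  · by_contra hn
    have h2 := (Q.reg _ ((hM _).2 ((Q.mt _).2 (inv_y q.tri)))).2 hn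
    have h3 : 0 ≤ M.X.ord (M.p q.x q.z) (e (M.D q.y)).1 := ord_nonneg h2
    obtain ⟨-, -, -, -, -, -, -, -, -, -, hpy, -, -⟩ := hG T K M q.x q.z q.y q.tri
    rw [hp, hpy] at h3
    omega
  · have h2 : ¬M.MT q (e (M.D ρ)) := fun h' => hρ ((Q.mt _).1 ((hM _).1 h'))
    obtain h3 | ⟨σ, h3⟩ := M.tor (e (M.D ρ))
    · exact absurd (fun u _ => h3 u) h2
    have hσ : ¬T.InV q.x q.z σ := fun h' => h2 (h3 ▸ (Q.mt _).2 h')
    obtain ⟨i, j, h4⟩ := c.sat _ _ _ q.tri (T.v σ - T.v ρ) fun u hx hz => by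
      have h5 := hχ (M.D ρ) u ⟨hx, hz⟩
      rw [h3, (M.isD σ).1, (M.isD ρ).1] at h5
      rw [dotProduct_sub, h5, sub_self]
    have h5 : T.Nb q.y ρ ↔ T.Nb q.y σ := by
      rw [nb_iff M B hG hC q.tri hρ, nb_iff M B hG hC q.tri hσ, ← h3, hp]
    rw [h3, c.cong _ _ _ q.tri ρ σ hρ h5 i j (by rw [add_assoc, ← h4]; abel)]

end Pool.Agent.Lib.TF
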