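import Pool.Agent.Lib.TF.Blue

open Set Pool.Agent.Lib.MP_e39d36_ag Pool.Agent.Lib.MP_e39d36_ag.Var Pool.Agent.Lib.DU
  Pool.Agent.Lib.MV
open scoped Classical

set_option linter.unusedSectionVars false
set_option linter.unusedVariables false

noncomputable section

namespace Pool.Agent.Lib.TF

open Fano

namespace SIG2B

variable {T : Fano} {K : Type} [Field K] [Algebra ℂ K] {M : T.Mod K} {q : T.Pq} {φ : RingAut K}
  {e : M.X.PD ≃ M.X.PD}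

lemma ind (p : T.Ray → Prop) [DecidablePred p] (c : ℤ) (ρ : T.Ray) :
    (∑ σ with p σ, (Pi.single σ c : T.Λ)) ρ = if p ρ then c else 0 := by
  simp [Finset.sum_apply, Pi.single_apply]

lemma coord (q : T.Pq) (ρ : T.Ray) :
    (ρ = q.x → q.xs ⬝ᵥ T.v ρ = 1 ∧ q.zs ⬝ᵥ T.v ρ = 0) ∧
    (ρ = q.z → q.xs ⬝ᵥ T.v ρ = 0 ∧ q.zs ⬝ᵥ T.v ρ = 1) ∧
    (ρ = q.y → q.xs ⬝ᵥ T.v ρ = 1 ∧ q.zs ⬝ᵥ T.v ρ = 1) ∧
    (ρ = q.w → q.xs ⬝ᵥ T.v ρ = -1 ∧ q.zs ⬝ᵥ T.v ρ = -1) ∧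
    (T.Opp q.x ρ → q.xs ⬝ᵥ T.v ρ = -1 ∧ q.zs ⬝ᵥ T.v ρ = 0) ∧
    (T.Opp q.z ρ → q.xs ⬝ᵥ T.v ρ = 0 ∧ q.zs ⬝ᵥ T.v ρ = -1) := by
  refine ⟨?_, ?_, ?_, ?_, fun h => ?_, fun h => ?_⟩
  · rintro rfl; exact ⟨q.xx, q.zx⟩
  · rintro rfl; exact ⟨q.xz, q.zz⟩
  · rintro rfl; simp [q.tri.dot, q.xx, q.xz, q.zx, q.zz]
  · rintro rfl; simp [q.opp.dot, q.tri.dot, q.xx, q.xz, q.zx, q.zz]
  · simp [h.dot, q.xx, q.zx]
  · simp [h.dot, q.xz, q.zz]

lemma inV_z (q : T.Pq) : T.InV q.x q.z q.z := ⟨0, 1, by simp⟩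

lemma inV_ox {ρ : T.Ray} (h : T.Opp q.x ρ) : T.InV q.x q.z ρ :=
  ⟨-1, 0, by simpa using eq_neg_of_add_eq_zero_right h⟩

lemma off {ρ : T.Ray} (h : ρ = q.y ∨ ¬T.InV q.x q.z ρ) :
    ρ ≠ q.z ∧ ρ ≠ q.w ∧ ¬T.Opp q.x ρ ∧ ¬T.Opp q.z ρ := by
  rcases h with h | h
  · obtain ⟨-, h2, h3, h4, h5, h6⟩ := coord q ρ
    have := h3 h
    exact ⟨fun h => by have := h2 h; omega, fun h => by have := h4 h; omega,
      fun h => by have := h5 h; omega, fun h => by have := h6 h; omega⟩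
  · refine ⟨?_, ?_, fun h1 => h (inV_ox h1),
      fun h1 => h ⟨0, -1, by simpa using eq_neg_of_add_eq_zero_right h1⟩⟩
    · rintro rfl; exact h (inV_z q)
    · rintro rfl
      refine h ⟨-1, -1, ?_⟩
      rw [eq_neg_of_add_eq_zero_right q.opp, ← q.tri]
      simp [add_comm]

lemma cases_in (hC : T.C1) {ρ : T.Ray} (h : T.InV q.x q.z ρ) :
    ρ = q.x ∨ ρ = q.z ∨ ρ = q.y ∨ T.Opp q.x ρ ∨ ρ = q.w ∨ T.Opp q.z ρ := by
  rcases hC.inv _ _ _ q.tri ρ h with h | h | h | h | h | h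
  · tauto
  · tauto
  · tauto
  · tauto
  · have := h.uniq q.opp
    tauto
  · tauto

lemma ka_zero (hC : T.C1) {ρ : T.Ray} (h : T.InV q.x q.z ρ) (h' : ρ ≠ q.y) :
    T.ka q.x q.z q.y ρ = 0 := if_pos (by have := hC.inv _ _ _ q.tri ρ h; tauto)

/-- The pole divisor of the slope. -/
def N (q : T.Pq) : T.Λ := Pi.single q.z 1 + ∑ σ with T.Opp q.x σ, Pi.single σ 1

lemma N_apply (ρ : T.Ray) :
    N q ρ = (if ρ = q.z then 1 else 0) + if T.Opp q.x ρ then 1 else 0 := by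
  rw [N, Pi.add_apply, ind, Pi.single_apply]

lemma pole (hC : T.C1) (hB : M.Bas) (hE : M.Eqs q) {E : M.X.PD} (h : M.MT q E) :
    max 0 (-M.X.ord (M.t q) E.1) = M.std (N q) E := by
  rw [Mod.t, ord_div (M.χ_ne _) (M.χ_ne _)]
  rcases M.tor E with h1 | ⟨ρ, rfl⟩
  · rw [hB.stdN _ _ h1, h1, h1]; rfl
  · rw [hB.stdD, (M.isD ρ).1, (M.isD ρ).1, N_apply]
    obtain ⟨h1, h2, h3, h4, h5, h6⟩ := coord q ρ
    rcases cases_in hC ((hE.mt ρ).1 h) with h | h | h | h | h | h <;>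
      split_ifs <;> simp_all

lemma mem {L : Subring K} {c : Cub K} (h : c.In L) (hp : c.p ∈ L) :
    c.Z0 ∈ L ∧ c.q0 ∈ L ∧ c.a2 ∈ L ∧ c.a1 ∈ L ∧ c.a0 ∈ L := by
  obtain ⟨h1, h2, h3, h4, h5, h6, h7, h8, h9⟩ := h
  have h10 : (2 : K) ∈ L := ofNat_mem L 2
  simp only [Cub.a2, Cub.a1, Cub.a0, Cub.X0, Cub.Z0, Cub.q0]
  refine ⟨?_, ?_, ?_, ?_, ?_⟩ <;>
    repeat' first
      | assumption
      | apply add_mem
      | apply sub_mem
      | apply mul_mem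
      | apply pow_mem

lemma vert (hE : M.Eqs q) (h1 : e (M.D q.y) = M.D q.y)
    (h2 : ∀ ρ, ¬T.InV q.x q.z ρ → e (M.D ρ) = M.D ρ) {E : M.X.PD}
    (h : ¬(M.MT q E ∧ E ≠ M.D q.y)) :
    ∃ ρ, E = M.D ρ ∧ (ρ = q.y ∨ ¬T.InV q.x q.z ρ) ∧ e.symm (M.D ρ) = M.D ρ := by
  by_cases h3 : E = M.D q.y
  · exact ⟨_, h3, Or.inl rfl, e.symm_apply_eq.2 h1.symm⟩
  rcases M.tor E with h4 | ⟨ρ, rfl⟩
  · exact absurd ⟨fun u _ => h4 u, h3⟩ h
  · have h5 : ¬T.InV q.x q.z ρ := fun h5 => h ⟨(hE.mt ρ).2 h5, h3⟩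
    exact ⟨ρ, rfl, Or.inr h5, e.symm_apply_eq.2 (h2 ρ h5).symm⟩

lemma ord_symm (hS : M.Sig q φ e) (s : K) (E : M.X.PD) :
    M.X.ord (φ s) E.1 = M.X.ord s (e.symm E).1 := by
  rw [← hS.ps.2 s, e.apply_symm_apply]

lemma a2_ord (hC : T.C1) (hQ : St_QUA) (hB : M.Bas) (hE : M.Eqs q) (hS : M.Sig q φ e)
    (h1 : ∀ E, M.MT q (e E) ↔ M.MT q E) (hN : St_CON) {E : M.X.PD} (h : M.MT q E)
    (h' : E ≠ M.D q.y) :
    M.X.ord (M.cub q).a2 E.1 = M.std (N q) E + M.std (N q) (e.symm E) := by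
  have h0 : M.t q ≠ 0 := div_ne_zero (M.χ_ne _) (M.χ_ne _)
  obtain ⟨-, -, h2, h3, h4⟩ := mem (hE.reg E h).1 ((hE.reg E h).2 h')
  rw [((hQ K).2 M.X E _ _ _ _ _ h0 ((map_ne_zero φ).2 h0) hS.n2 hS.sum hS.prod h2 h3 h4
    (hN T K M q E h h')).1, ord_symm hS, pole hC hB hE h,
    pole hC hB hE ((h1 _).1 (by rwa [e.apply_symm_apply]))]

lemma fix (hS : M.Sig q φ e) {G : T.R} (h : Sup q.Pp G) : φ (M.ψ G) = M.ψ G := by
  rw [eq_sum G, map_sum, map_sum]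
  refine Finset.sum_congr rfl fun u hu => ?_
  rw [map_smul, Algebra.smul_def, map_mul, hS.ps.1]
  exact congrArg _ (hS.fix u (h u (Finsupp.mem_support_iff.1 hu)))

lemma un_co (hC : T.C1) (hE : M.Eqs q) {ρ : T.Ray} (h : T.InV q.x q.z ρ) {i : ℤ} (h1 : 1 ≤ i)
    (h2 : i ≤ 2) : Un (M.X.O (M.D ρ).1) (M.co q i 0) := by
  obtain ⟨u, h3, h4⟩ := hC.cls _ _ _ _ q.tri q.opp i 0 (by omega) le_rfl (by omega) (by omega)
    (fun _ => h2) (fun _ => by omega)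
  exact un_iff_ord.2 (hE.un ρ h _ (mul_ne_zero (part_ne_zero.2 ⟨u, M.gen.ne h3, h4⟩) (mn_ne _))
    (hE.co i 0))

lemma un_q0 (hE : M.Eqs q) {ρ : T.Ray} (h : T.InV q.x q.z ρ) :
    Un (M.X.O (M.D ρ).1) (M.cub q).q0 := by
  obtain ⟨G, h1, h2, h3⟩ := hE.q0
  exact un_iff_ord.2 (h3 ▸ hE.un ρ h G h1 h2)

end SIG2B

open SIG2B in
theorem st_SIG2 (hC1 : St_C1) (hQ : St_QUA) (hBAS : St_BAS) (hEQS : St_EQS) (hSIG1 : St_SIG1)
    (hN : St_CON) (hTGT : St_TGT) : St_SIG2 := by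
  intro T K _ _ M q φ e hS
  have hC := hC1 T
  have hB := hBAS T K M
  have hE := hEQS T K M q
  obtain ⟨s1, s2, s3⟩ := hSIG1 T K M q φ e hS
  obtain ⟨t1, t2⟩ := hTGT T K M q
  have hζ := pow_ne_zero 2 (M.χ_ne q.zs)
  refine ⟨⟨(M.cub q).a2 / M.χ q.zs ^ 2, div_ne_zero hS.n2 hζ, Finsupp.ext fun E => ?_⟩,
    fun σ hσ => ⟨_, (t2 _ (Or.inl rfl)).1, Finsupp.ext fun E => ?_⟩⟩
  · rw [End.push_apply, Finsupp.add_apply, div_apply, ord_div hS.n2 hζ, ord_pow]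
    change M.std (N q) _ = _
    by_cases h : M.MT q E ∧ E ≠ M.D q.y
    · rw [a2_ord hC hQ hB hE hS s3 hN h.1 h.2]
      rcases M.tor E with h1 | ⟨ρ, rfl⟩
      · rw [hB.stdN _ _ h1, hB.stdN _ _ h1, h1]
        simp
      · have h1 := (hE.mt ρ).1 h.1
        have h2 : ρ ≠ q.y := fun h2 => h.2 (by rw [h2])
        rw [hB.stdD, hB.stdD, (M.isD ρ).1, N_apply]
        simp only [Pi.sub_apply, Pi.add_apply, Pi.smul_apply, ind, Pi.single_apply,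
          ka_zero hC h1 h2]
        obtain ⟨c1, c2, c3, c4, c5, c6⟩ := coord q ρ
        generalize M.std (N q) _ = j
        rcases cases_in hC h1 with h | h | h | h | h | h <;> split_ifs <;> simp_all <;> omega
    · obtain ⟨ρ, rfl, h1, h2⟩ := vert hE s1 s2 h
      obtain ⟨c1, c2, c3, c4⟩ := off h1
      rw [h2, hB.stdD, hB.stdD, (M.isD ρ).1, N_apply, (t1 ρ h1).2]
      simp only [Pi.sub_apply, Pi.add_apply, Pi.smul_apply, ind, Pi.single_apply, if_neg c1,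
        if_neg c2, if_neg c3, if_neg c4]
      simp
  · rw [End.push_apply, Finsupp.add_apply, div_apply]
    have h0 := (t2 _ (Or.inl rfl)).1
    by_cases h : M.MT q E ∧ E ≠ M.D q.y
    swap
    · obtain ⟨ρ, rfl, h1, h2⟩ := vert hE s1 s2 h
      have c3 : ρ ≠ σ := fun h => (off h1).2.2.1 (h ▸ hσ)
      rw [h2, hB.stdD, hB.stdD, (t2 ρ h1).2]
      simp [c3]
    have e0 := hE.c30 ⟨σ, hσ⟩
    have fc : ∀ i j, φ (M.co q i j) = M.co q i j := fun i j => fix hS (hE.co i j)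
    have f1 : φ ((M.cub q).p + (M.cub q).c01 * (M.cub q).c21) =
        (M.cub q).p + (M.cub q).c01 * (M.cub q).c21 := by
      simp only [Mod.cub, map_add, map_mul, fc, hS.fp]
    have r1 : ∀ E, M.MT q E → E ≠ M.D q.y →
        (M.cub q).p + (M.cub q).c01 * (M.cub q).c21 ∈ M.X.O E.1 := fun E h h' =>
      add_mem ((hE.reg E h).2 h') (mul_mem (hE.reg E h).1.2.1 (hE.reg E h).1.2.2.2.2.2.2.1)
    have e1 : (M.cub q).X0 = (M.cub q).c10 * ((M.cub q).p + (M.cub q).c01 * (M.cub q).c21) := by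
      rw [Cub.X0, e0]; ring
    have e2 : (M.cub q).a2 = ((M.cub q).p + (M.cub q).c01 * (M.cub q).c21) *
        ((M.cub q).c10 ^ 2 * ((M.cub q).p + (M.cub q).c01 * (M.cub q).c21) +
          (M.cub q).q0 * (M.cub q).c20) := by
      rw [Cub.a2, e1, e0]; ring
    generalize (M.cub q).p + (M.cub q).c01 * (M.cub q).c21 = f at h0 f1 r1 e1 e2 ⊢
    have f2 : φ ((M.cub q).c10 ^ 2 * f + (M.cub q).q0 * (M.cub q).c20) =
        (M.cub q).c10 ^ 2 * f + (M.cub q).q0 * (M.cub q).c20 := by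
      simp only [Mod.cub, Cub.q0, map_add, map_sub, map_mul, map_pow, fc, f1]
    have mz := (hE.mt _).2 (inV_z q)
    have nz : M.D q.z ≠ M.D q.y := fun h => (off (Or.inl rfl)).1 (hB.inj h).symm
    have mσ := (hE.mt _).2 (inV_ox hσ)
    have nσ : M.D σ ≠ M.D q.y := fun h => (off (Or.inl rfl)).2.2.1 (hB.inj h ▸ hσ)
    have e3 : M.χ q.xs * ((M.cub q).c10 * f) = (M.cub q).q0 + -(M.χ q.zs * (M.cub q).Z0) := by
      rw [← e1, ← hE.line]; ring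
    have u1 : M.X.ord f (M.D q.z).1 = 0 := by
      have h1 : M.χ q.zs * (M.cub q).Z0 ∈ ordGe (M.D q.z) (1 + 0) :=
        ge_mul (Or.inr (by rw [(M.isD _).1, q.zz]))
          (ge_zero_iff.2 (mem (hE.reg _ mz).1 ((hE.reg _ mz).2 nz)).1)
      have h2 := ge_zero_iff.1 (neg_mem (ge_mono h1 (by omega : (0 : ℤ) ≤ 1 + 0)))
      have h3 := (M.X.isLoc _).add_un (un_q0 hE (inV_z q)) h2 ((ge_one_iff h2).1 (neg_mem h1))
      rw [← e3] at h3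
      refine ord_un ((h3.of_mul' (ge_zero_iff.1 (Or.inr ?_))
        (mul_mem (hE.reg _ mz).1.1 (r1 _ mz nz))).of_mul' (hE.reg _ mz).1.1 (r1 _ mz nz))
      rw [(M.isD _).1, q.xz]
    have u2 : 1 ≤ M.X.ord f (M.D σ).1 := by
      obtain ⟨c1, c2⟩ := (coord q σ).2.2.2.2.1 hσ
      have h1 : Un _ (M.cub q).c10 := un_co hC hE (inV_ox hσ) le_rfl one_le_two
      have h2 : M.χ q.xs * ((M.cub q).c10 * f) ∈ M.X.O (M.D σ).1 := e3 ▸
        add_mem (un_q0 hE (inV_ox hσ)).2.1 (neg_mem (mul_mem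
          (ge_zero_iff.1 (Or.inr (by rw [(M.isD _).1, c2])))
          (mem (hE.reg _ mσ).1 ((hE.reg _ mσ).2 nσ)).1))
      have h3 := ord_nonneg h2
      rw [ord_mul (M.χ_ne _) (mul_ne_zero h1.1 h0), ord_mul h1.1 h0, (M.isD _).1, c1,
        ord_un h1] at h3
      omega
    have u3 : M.X.ord ((M.cub q).c10 ^ 2 * f + (M.cub q).q0 * (M.cub q).c20) (M.D σ).1 = 0 := by
      rw [add_comm]
      have h1 := pow_mem (hE.reg _ mσ).1.1 2
      exact ord_un ((M.X.isLoc _).add_un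
        ((un_q0 hE (inV_ox hσ)).mul (un_co hC hE (inV_ox hσ) one_le_two le_rfl))
        (mul_mem h1 (r1 _ mσ nσ)) fun h => by
          have := ord_un (h.of_mul' h1 (r1 _ mσ nσ))
          omega)
    have u4 := ord_nonneg (r1 E h.1 h.2)
    have u5 := ord_nonneg (add_mem (mul_mem (pow_mem (hE.reg E h.1).1.1 2) (r1 E h.1 h.2))
      (mul_mem (mem (hE.reg E h.1).1 ((hE.reg E h.1).2 h.2)).2.1 (hE.reg E h.1).1.2.2.1))
    have u6 := a2_ord hC hQ hB hE hS s3 hN h.1 h.2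
    have n2 := hS.n2
    rw [e2] at u6 n2
    rw [ord_mul h0 (right_ne_zero_of_mul n2)] at u6
    have u7 := ord_symm hS f E
    have u8 := ord_symm hS ((M.cub q).c10 ^ 2 * f + (M.cub q).q0 * (M.cub q).c20) E
    rw [f1] at u7
    rw [f2] at u8
    generalize (M.cub q).c10 ^ 2 * f + (M.cub q).q0 * (M.cub q).c20 = g at u3 u5 u6 u8
    have k1 : ∀ ρ E, M.std (Pi.single ρ 1) E = if E = M.D ρ then 1 else 0 := fun ρ E => by
      rcases M.tor E with h1 | ⟨τ, rfl⟩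
      · rw [hB.stdN _ _ h1, if_neg fun h : E = M.D ρ => hB.nt ρ (h ▸ h1)]
      · rw [hB.stdD, Pi.single_apply]
        simp only [hB.inj.eq_iff]
    have k2 : N q = Pi.single q.z 1 + Pi.single σ 1 := funext fun ρ => by
      rw [N_apply, Pi.add_apply, Pi.single_apply, Pi.single_apply]
      exact congrArg _ (if_congr ⟨fun h => h.uniq hσ, fun h => h ▸ hσ⟩ rfl rfl)
    have k3 : M.std (T.ka q.x q.z q.y) E = 0 := by
      rcases M.tor E with h1 | ⟨τ, rfl⟩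
      · exact hB.stdN _ _ h1
      · rw [hB.stdD, ka_zero hC ((hE.mt τ).1 h.1) fun h2 => h.2 (by rw [h2])]
    simp only [k2, map_add, Finsupp.add_apply, k1] at u6
    rw [map_sub, Finsupp.sub_apply, k3, k1, k1]
    have a1 : ∀ F, (if F = M.D q.z then 1 else 0 : ℤ) = 0 ∨
        (if F = M.D q.z then 1 else 0 : ℤ) = 1 ∧ M.X.ord f F.1 = 0 := fun F => by
      split_ifs with h
      · exact Or.inr ⟨rfl, h ▸ u1⟩
      · exact Or.inl rfl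
    have a2 : ∀ F, (if F = M.D σ then 1 else 0 : ℤ) = 0 ∨
        (if F = M.D σ then 1 else 0 : ℤ) = 1 ∧ 1 ≤ M.X.ord f F.1 ∧ M.X.ord g F.1 = 0 := fun F => by
      split_ifs with h
      · exact Or.inr ⟨rfl, h ▸ u2, h ▸ u3⟩
      · exact Or.inl rfl
    have a3 := a1 E
    have a4 := a2 E
    have a5 := a1 (e.symm E)
    have a6 := a2 (e.symm E)
    generalize (if E = M.D q.z then 1 else 0 : ℤ) = i1 at *
    generalize (if E = M.D σ then 1 else 0 : ℤ) = i2 at *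
    generalize (if e.symm E = M.D q.z then 1 else 0 : ℤ) = i3 at *
    generalize (if e.symm E = M.D σ then 1 else 0 : ℤ) = i4 at *
    omega

end Pool.Agent.Lib.TF
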