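import Pool.Agent.Lib.TF.Blue

/-! The generators span all sections in the interior of the chamber. -/

open Set Pool.Agent.Lib.MP_e39d36_ag Pool.Agent.Lib.MP_e39d36_ag.Var Pool.Agent.Lib.DU
  Pool.Agent.Lib.MV
open scoped Classical

noncomputable section

namespace Pool.Agent.Lib.TF

open Fano

namespace SPANB

variable {T : Fano} {K : Type} [Field K] [Algebra ℂ K] (M : T.Mod K)

/-- The terms of one pair. -/
def Tm (a : T.Λ) (x z y : T.Ray) : Set K := {t | ∃ (i j : ℕ) (u : T.M),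
  i • T.om x z + j • T.ka x z y ≤ T.mv u + a ∧ t = M.χ u * M.w x z ^ i * M.p x z ^ j}

lemma chi_ge (u : T.M) (ρ : T.Ray) : M.χ u ∈ ordGe (M.D ρ) (u ⬝ᵥ T.v ρ) :=
  Or.inr ((M.isD ρ).1 u).ge

variable {M}

lemma term_ge (hB : M.Bas) {x z y : T.Ray} (hw : M.w x z ∈ M.Sec (T.om x z))
    (hp : M.p x z ∈ M.Sec (T.ka x z y)) (i j : ℕ) (u : T.M) (ρ : T.Ray) :
    M.χ u * M.w x z ^ i * M.p x z ^ j ∈
      ordGe (M.D ρ) (u ⬝ᵥ T.v ρ + i * -T.om x z ρ + j * -T.ka x z y ρ) :=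
  ge_mul (ge_mul (chi_ge M u ρ) (ge_pow (((hB.mem _ _).1 hw).2 ρ) i))
    (ge_pow (((hB.mem _ _).1 hp).2 ρ) j)

lemma le_at {a : T.Λ} {x z y : T.Ray} {i j : ℕ} {u : T.M}
    (h : i • T.om x z + j • T.ka x z y ≤ T.mv u + a) (ρ : T.Ray) :
    i * T.om x z ρ + j * T.ka x z y ρ ≤ u ⬝ᵥ T.v ρ + a ρ := by
  simpa [mv] using h ρ

lemma tm_sec (hB : M.Bas) {a : T.Λ} {x z y : T.Ray} (hw : M.w x z ∈ M.Sec (T.om x z))
    (hp : M.p x z ∈ M.Sec (T.ka x z y)) {t : K} (ht : t ∈ Tm M a x z y) : t ∈ M.Sec a := by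
  obtain ⟨i, j, u, h, rfl⟩ := ht
  refine (hB.mem _ _).2 ⟨fun E hE => ?_, fun ρ => ge_mono (term_ge hB hw hp i j u ρ) ?_⟩
  · simpa [Mod0.χ] using ge_mul (ge_mul (hB.geN E hE (mn u))
      (ge_pow (((hB.mem _ _).1 hw).1 E hE) i)) (ge_pow (((hB.mem _ _).1 hp).1 E hE) j)
  · have := le_at h ρ
    linarith

lemma tm_other (hC : T.C1) (hB : M.Bas) {a : T.Λ} {x z y x' z' y' : T.Ray} (h1 : T.Tri x z y)
    (hw : M.w x z ∈ M.Sec (T.om x z)) (hp : M.p x z ∈ M.Sec (T.ka x z y)) (h2 : T.Tri x' z' y')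
    (n1 : ¬(x' = x ∧ z' = z)) (n2 : ¬(x' = z ∧ z' = x)) {t : K} (ht : t ∈ Tm M a x z y) :
    t ∈ ordGe (M.D y') (-a x' - a z') := by
  obtain ⟨i, j, u, h, rfl⟩ := ht
  refine ge_mono (term_ge hB hw hp i j u y') ?_
  obtain ⟨g1, g2⟩ := hC.gam x z y x' z' y' h1 h2 n1 n2
  have a1 := le_at h x'
  have a2 := le_at h z'
  have a3 := mul_le_mul_of_nonneg_left g1 (Int.natCast_nonneg j)
  have a4 := mul_le_mul_of_nonneg_left g2 (Int.natCast_nonneg i)
  rw [h2.dot]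
  linarith

lemma one_pair {a : T.Λ} {x z y : T.Ray} (hS : Submodule.span ℂ (Tm M a x z y) ≤ M.Sec a)
    (step : ∀ s ∈ M.Sec a, s ≠ 0 → ∀ k : ℕ, M.X.ord s (M.D y).1 = -a x - a z - k →
      ∃ s' ∈ Submodule.span ℂ (Tm M a x z y), s - s' ∈ ordGe (M.D y) (1 - a x - a z - k))
    (k : ℕ) : ∀ s ∈ M.Sec a, s ∈ ordGe (M.D y) (-a x - a z - k) →
      ∃ s' ∈ Submodule.span ℂ (Tm M a x z y), s - s' ∈ ordGe (M.D y) (-a x - a z) := by
  induction k with
  | zero => exact fun s _ h => ⟨0, zero_mem _, by simpa using h⟩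
  | succ k ih =>
    intro s hs h
    by_cases h1 : s ∈ ordGe (M.D y) (-a x - a z - (k + 1 : ℕ) + 1)
    · exact ih s hs (ge_mono h1 (by push_cast; omega))
    obtain ⟨h0, h2⟩ := ord_of_not_ge h h1
    obtain ⟨s1, m1, g1⟩ := step s hs h0 _ h2
    obtain ⟨s2, m2, g2⟩ := ih (s - s1) (sub_mem hs (hS m1)) (ge_mono g1 (by push_cast; omega))
    exact ⟨s1 + s2, add_mem m1 m2, by rwa [← sub_sub]⟩

end SPANB

open SPANB in
theorem st_SPAN (hC : St_C1) (hB : St_BAS) (hG : St_GEN) (hA : St_BASE) (hS : St_STEP) :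
    St_SPAN := by
  intro T K _ _ M a ha hb
  have hC := hC T
  have hB := hB T K M
  have hG := hG T K M
  have sec : ∀ x z y, T.Tri x z y → Submodule.span ℂ (Tm M a x z y) ≤ M.Sec a := fun x z y h =>
    Submodule.span_le.2 fun t ht => tm_sec hB (hG x z y h).1 (hG x z y h).2.1 ht
  have sub : ∀ x z y, T.Tri x z y →
      Submodule.span ℂ (Tm M a x z y) ≤ Submodule.span ℂ {t | M.Term a t} := fun x z y h =>
    Submodule.span_mono fun t ht => Or.inr ⟨x, z, y, h, ht⟩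
  have part1 : ∀ t, M.Term a t → t ≠ 0 ∧ t ∈ M.Sec a := by
    rintro t (⟨u, h, rfl⟩ | ⟨x, z, y, h, ht⟩)
    · refine ⟨M.χ_ne u, (hB.mem _ _).2 ⟨fun E hE => hB.geN E hE (mn u),
        fun ρ => ge_mono (chi_ge M u ρ) ?_⟩⟩
      have : 0 ≤ u ⬝ᵥ T.v ρ + a ρ := h ρ
      linarith
    · obtain ⟨g1, g2, -, -, -, -, -, g3, -, g4, -⟩ := hG x z y h
      refine ⟨?_, tm_sec hB g1 g2 ht⟩
      obtain ⟨i, j, u, -, rfl⟩ := ht
      exact mul_ne_zero (mul_ne_zero (M.χ_ne u) (pow_ne_zero _ g3)) (pow_ne_zero _ g4)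
  refine ⟨part1, fun s hs => ?_⟩
  have all : Submodule.span ℂ {t | M.Term a t} ≤ M.Sec a :=
    Submodule.span_le.2 fun t ht => (part1 t ht).2
  have key : ∀ Q : Finset (T.Ray × T.Ray × T.Ray), ∃ s' ∈ Submodule.span ℂ {t | M.Term a t},
      ∀ q ∈ Q, T.Tri q.1 q.2.1 q.2.2 → s - s' ∈ ordGe (M.D q.2.2) (-a q.1 - a q.2.1) := by
    intro Q
    induction Q using Finset.induction_on with
    | empty => exact ⟨0, zero_mem _, by simp⟩
    | insert q Q _ ih =>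
      obtain ⟨s1, m1, g1⟩ := ih
      obtain ⟨x, z, y⟩ := q
      by_cases h : T.Tri x z y
      swap
      · refine ⟨s1, m1, fun q hq => ?_⟩
        rcases Finset.mem_insert.1 hq with rfl | hq
        exacts [fun h' => absurd h' h, g1 q hq]
      have m0 := sub_mem hs (all m1)
      obtain ⟨s2, m2, g2⟩ := one_pair (sec x z y h) (fun s hs h0 => hS T K M a ha hb s hs h0 x z y h)
        (a y - a x - a z).toNat (s - s1) m0 (ge_mono (((hB.mem _ _).1 m0).2 y) (by omega))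
      refine ⟨s1 + s2, add_mem m1 (sub x z y h m2), ?_⟩
      rintro ⟨x', z', y'⟩ hq h'
      rw [← sub_sub]
      by_cases n1 : x' = x ∧ z' = z
      · obtain ⟨rfl, rfl⟩ := n1
        obtain rfl : y' = y := Tri.uniq h' h
        exact g2
      by_cases n2 : x' = z ∧ z' = x
      · obtain ⟨rfl, rfl⟩ := n2
        obtain rfl : y' = y := Tri.uniq h' h.symm
        exact ge_mono g2 (by dsimp only; omega)
      refine sub_mem (g1 _ ((Finset.mem_insert.1 hq).resolve_left fun e => n1 ?_) h')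
        (Submodule.span_le.2 (fun t ht =>
          tm_other hC hB h (hG x z y h).1 (hG x z y h).2.1 h' n1 n2 ht) m2)
      simp only [Prod.mk.injEq] at e
      exact ⟨e.1, e.2.1⟩
  obtain ⟨s1, m1, g1⟩ := key Finset.univ
  obtain ⟨G, hG1, hG2⟩ := hA T K M a ha (s - s1) (sub_mem hs (all m1))
    fun x z y h => g1 (x, z, y) (Finset.mem_univ _) h
  have e : s = s1 + M.ψ G := by rw [hG2, add_sub_cancel]
  rw [e, eq_sum G, map_sum]
  refine add_mem m1 (sum_mem fun u hu => ?_)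
  rw [map_smul]
  refine Submodule.smul_mem _ _ (Submodule.subset_span (Or.inl ⟨u, fun ρ => ?_, rfl⟩))
  have := hG1 ρ (Finset.mem_univ _) u (Finsupp.mem_support_iff.1 hu)
  change 0 ≤ u ⬝ᵥ T.v ρ + a ρ
  linarith

end Pool.Agent.Lib.TF
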