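import Pool.Agent.Lib.TF.Blue

open Set Pool.Agent.Lib.MP_e39d36_ag Pool.Agent.Lib.MP_e39d36_ag.Var Pool.Agent.Lib.DU
  Pool.Agent.Lib.MV
open scoped Classical

noncomputable section

namespace Pool.Agent.Lib.TF

open Fano

namespace STEPB

section ge

variable {K : Type} [Field K] [Algebra ℂ K] {X : Var K} {E : X.PD} {a b : ℤ} {s t s' t' : K}

lemma cong_mul (h : s - t ∈ ordGe E (a + 1)) (ht : t ∈ ordGe E a) (h' : s' - t' ∈ ordGe E (b + 1))
    (ht' : t' ∈ ordGe E b) : s * s' - t * t' ∈ ordGe E (a + b + 1) := by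
  have hs' : s' ∈ ordGe E b := by simpa using add_mem (ge_mono h' (by omega)) ht'
  have e : s * s' - t * t' = (s - t) * s' + t * (s' - t') := by ring
  rw [e]
  exact add_mem (ge_mono (ge_mul h hs') (by omega)) (ge_mono (ge_mul ht h') (by omega))

lemma cong_pow (h : s - t ∈ ordGe E (a + 1)) (ht : t ∈ ordGe E a) (m : ℕ) :
    s ^ m - t ^ m ∈ ordGe E (m * a + 1) := by
  induction m with
  | zero => simp
  | succ m ih =>
    rw [pow_succ, pow_succ]
    push_cast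
    rw [add_mul, one_mul]
    exact cong_mul ih (ge_pow ht m) h ht

end ge

lemma ka_le {T : Fano} (x z y ρ : T.Ray) : T.ka x z y ρ ≤ 2 := by
  unfold ka
  split_ifs <;> omega

lemma ka_le' {T : Fano} {x z y ρ : T.Ray} (h : ¬T.Nb y ρ) : T.ka x z y ρ ≤ 1 := by
  unfold ka
  split_ifs <;> omega

lemma ne_of_tri {T : Fano} {x z y : T.Ray} (h : T.Tri x z y) : y ≠ x := fun e =>
  T.ne z (by subst e; exact add_eq_left.1 h)

/-- the exponents are allowed -/
lemma expo {T : Fano} (h0 : T.C0) (h1 : T.C1) {a l : T.Λ} {x z y : T.Ray} {k : ℕ} {u : T.M}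
    (hp : ∀ z z', T.Opp z z' → 1 ≤ a z + a z')
    (ht : ∀ x z y w, T.Tri x z y → T.Opp y w → 1 ≤ a x + a z + a w) (h : T.Tri x z y)
    (hl : ∀ ρ, l ρ ≤ a ρ) (hx : u ⬝ᵥ T.v x = -a x) (hz : u ⬝ᵥ T.v z = -a z)
    (hn : ∀ ρ, T.Nb y ρ → ρ ≠ x → ρ ≠ z → k - l ρ ≤ u ⬝ᵥ T.v ρ)
    (hc : ∀ ρ t, T.Tri y ρ t → t ≠ x → t ≠ z → 0 ≤ k + 2 * (a x + a z + l ρ - l t)) :
    (k % 2) • T.om x z + (k / 2) • T.ka x z y ≤ T.mv u + a := fun ρ => by
  have hy := h.dot u
  have hρ := hl ρ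
  change (k % 2) • T.om x z ρ + (k / 2) • T.ka x z y ρ ≤ u ⬝ᵥ T.v ρ + a ρ
  rw [nsmul_eq_mul, nsmul_eq_mul]
  by_cases h2 : ρ = x ∨ ρ = z
  · have e1 : T.om x z ρ = 0 := if_pos h2
    have e2 : T.ka x z y ρ = 0 := if_pos (by tauto)
    rw [e1, e2]
    rcases h2 with rfl | rfl <;> omega
  have e1 : T.om x z ρ = 1 := if_neg h2
  rw [e1]
  push Not at h2
  have hj : (0 : ℤ) ≤ (k / 2 : ℕ) := Int.natCast_nonneg _
  by_cases h3 : T.Nb y ρ
  · have h4 := hn ρ h3 h2.1 h2.2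
    have h5 := mul_le_mul_of_nonneg_left (ka_le x z y ρ) hj
    omega
  rcases (h1.nf y ρ).1 h3 with h4 | ⟨t, h4⟩
  · have e2 : T.ka x z y ρ = 0 := if_pos (by tauto)
    have h5 := ht x z y ρ h h4
    have h6 := h4.dot u
    rw [e2]
    omega
  have h5 := h4.dot u
  by_cases h6 : t = x
  · have h7 : T.Opp z ρ := by
      subst h6
      unfold Tri Opp at *
      rw [← h, add_assoc] at h4
      exact add_eq_left.1 h4
    have e2 : T.ka x z y ρ = 0 := if_pos (by tauto)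
    have h8 := hp z ρ h7
    have h9 := h7.dot u
    rw [e2]
    omega
  by_cases h7 : t = z
  · have h8 : T.Opp x ρ := by
      subst h7
      unfold Tri Opp at *
      rw [← h, add_comm (T.v x), add_assoc] at h4
      exact add_eq_left.1 h4
    have e2 : T.ka x z y ρ = 0 := if_pos (by tauto)
    have h9 := hp x ρ h8
    have h10 := h8.dot u
    rw [e2]
    omega
  have h8 : T.Nb y t := h1.swap y ρ t h4 {t} (h0.ray t) (Finset.mem_singleton_self t)
    fun e => ne_of_tri h4.symm (Finset.mem_singleton.1 e).symm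
  have h9 := hn t h8 h6 h7
  have h10 := hc ρ t h4 h6 h7
  have h11 := mul_le_mul_of_nonneg_left (ka_le' (x := x) (z := z) h3) hj
  omega

end STEPB

open STEPB in
theorem st_STEP (hC0 : St_C0) (hC1 : St_C1) (hBAS : St_BAS) (hLT : St_LT) (hGEN : St_GEN)
    (hCI : St_CI) : St_STEP := by
  intro T K _ _ M a hp ht s hs h0 x z y h k hk
  have B := hBAS T K M
  obtain ⟨-, -, g1, g2, g3, g4, -⟩ := hGEN T K M x z y h
  have hs' := (B.mem a s).1 hs
  let l : T.Λ := fun ρ => if ρ = x ∨ ρ = z then a ρ else -M.X.ord s (M.D ρ).1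
  have lx : l x = a x := if_pos (Or.inl rfl)
  have lz : l z = a z := if_pos (Or.inr rfl)
  have lo : ∀ ρ, ρ ≠ x → ρ ≠ z → l ρ = -M.X.ord s (M.D ρ).1 := fun ρ h1 h2 => if_neg (by tauto)
  have ly : l y = a x + a z + k := by
    rw [lo y (ne_of_tri h) (ne_of_tri h.symm), hk]; ring
  have hl : ∀ ρ, l ρ ≤ a ρ := fun ρ => by
    by_cases h1 : ρ = x ∨ ρ = z
    · exact (if_pos h1).le
    · have := (ge_iff h0).1 (hs'.2 ρ)
      rw [show l ρ = _ from if_neg h1]
      omega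
  have hsl : s ∈ M.Sec l := (B.mem l s).2 ⟨hs'.1, fun ρ => by
    by_cases h1 : ρ = x ∨ ρ = z
    · rw [show l ρ = _ from if_pos h1]; exact hs'.2 ρ
    · rw [show l ρ = _ from if_neg h1, neg_neg]; exact ge_ord _ _⟩
  obtain ⟨H, hx, hz, hn, hH⟩ := hLT T K M x z y h l k (by rw [lx, lz, ly]) s hsl
  rw [lx] at hx
  rw [lz] at hz
  have hc : ∀ ρ t, T.Tri y ρ t → t ≠ x → t ≠ z → 0 ≤ k + 2 * (a x + a z + l ρ - l t) :=
    fun ρ t h1 h2 h3 => by
      have := (hCI T K M x z y h l s hsl).1 ρ t h1 h2 h3 fun h4 => by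
        rw [ge_iff h0, lo t h2 h3] at h4
        omega
      omega
  refine ⟨M.ψ H * (M.w x z ^ (k % 2) * (-M.p x z) ^ (k / 2)), ?_, ?_⟩
  · rw [eq_sum H, map_sum, Finset.sum_mul]
    refine Submodule.sum_mem _ fun u hu => ?_
    have hu' := Finsupp.mem_support_iff.1 hu
    have e : M.ψ (H.coeff u • mn u) * (M.w x z ^ (k % 2) * (-M.p x z) ^ (k / 2)) =
        (H.coeff u * (-1) ^ (k / 2)) • (M.χ u * M.w x z ^ (k % 2) * M.p x z ^ (k / 2)) := by
      rw [map_smul, neg_pow, Algebra.smul_def, Algebra.smul_def, Mod0.χ]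
      simp only [map_mul, map_pow, map_neg, map_one]
      ring
    rw [e]
    exact Submodule.smul_mem _ _ (Submodule.subset_span ⟨_, _, u, expo (hC0 T) (hC1 T) hp ht h hl
      (hx u hu') (hz u hu') (fun ρ h1 h2 h3 => hn ρ h1 h2 h3 u hu') hc, rfl⟩)
  · have a1 : M.al x z ∈ ordGe (M.D y) (-1) := g4 ▸ ge_ord _ _
    have a2 : M.al x z ^ 2 ∈ ordGe (M.D y) (-2) := by simpa using ge_pow a1 2
    have c2 : -M.p x z - M.al x z ^ 2 ∈ ordGe (M.D y) (-2 + 1) := by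
      rw [show -M.p x z - M.al x z ^ 2 = -(M.p x z + M.al x z ^ 2) by ring]
      exact neg_mem g2
    have c := cong_mul (cong_pow (a := -1) g1 a1 (k % 2)) (ge_pow a1 _) (cong_pow c2 a2 (k / 2))
      (ge_pow a2 _)
    rw [← pow_mul, ← pow_add, Nat.mod_add_div] at c
    have hy : M.ψ H ∈ ordGe (M.D y) (-a x - a z) := B.geD y _ H fun u hu => by
      beta_reduce
      rw [h.dot, hx u hu, hz u hu]; omega
    have e : s - M.ψ H * (M.w x z ^ (k % 2) * (-M.p x z) ^ (k / 2)) =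
        (s - M.ψ H * M.al x z ^ k) -
          M.ψ H * (M.w x z ^ (k % 2) * (-M.p x z) ^ (k / 2) - M.al x z ^ k) := by ring
    rw [e]
    exact sub_mem (ge_mono hH (by omega)) (ge_mono (ge_mul hy c) (by omega))

end Pool.Agent.Lib.TF
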