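import Pool.Agent.Lib.TF.Blue

/-! The counting lemma for independent coefficients. -/

open Set

noncomputable section

namespace Pool.Agent.Lib.TF

theorem st_TD0 : St_TD0 := by
  intro F _ _ J a ha S g ι _ y hy h1 h2
  classical
  have : CharZero F := (algebraMap ℂ F).charZero_iff (algebraMap ℂ F).injective |>.1 inferInstance
  have : IsScalarTower ℚ ℂ F := IsScalarTower.of_algebraMap_eq' (RingHom.ext_rat _ _)
  have hi : AlgebraicIndependent ℚ (Sum.elim y (algebraMap ℂ F ∘ a)) := ha.sumElim_comp hy
  set v : ι ⊕ J → F := Sum.elim y (algebraMap ℂ F ∘ a) with hv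
  let M := AlgebraicIndependent.matroid ℚ F
  have hI : M.Indep (range v) := AlgebraicIndependent.matroid_indep_iff.2 hi.to_subtype_range
  let C : Set F := (fun j => algebraMap ℂ F (a j)) '' {j | j ∉ S}
  let A : Finset (ι ⊕ J) := Finset.univ.disjSum S
  have hC : C = v '' (Sum.inr '' {j | j ∉ S}) := by rw [image_image]; rfl
  have hd : Disjoint (v '' A) C := by
    rw [hC, disjoint_image_iff hi.injective, disjoint_left]
    rintro _ hx ⟨j, hj, rfl⟩
    exact hj (Finset.inr_mem_disjSum.1 hx)
  have hCI : C ⊆ range v := hC ▸ image_subset_range _ _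
  have hA : (M.contract C).Indep (v '' A) :=
    (hI.subset hCI).contract_indep_iff.2
      ⟨hd, hI.subset (union_subset (image_subset_range _ _) hCI)⟩
  have hcl : ∀ z ∈ Subfield.closure (C ∪ g), z ∈ M.closure (g ∪ C) := by
    intro z hz
    have hz' : z ∈ IntermediateField.adjoin ℚ ((g : Set F) ∪ C) :=
      Subfield.closure_mono ((union_comm C g).le.trans subset_union_right) hz
    rw [AlgebraicIndependent.matroid_closure_eq]
    exact IntermediateField.isAlgebraic_adjoin_iff.1
      (isAlgebraic_algebraMap (⟨z, hz'⟩ : IntermediateField.adjoin ℚ ((g : Set F) ∪ C)))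
  have hsub : v '' A ⊆ (M.contract C).closure g := by
    rw [Matroid.contract_closure_eq]
    intro z hz
    refine ⟨hcl z ?_, disjoint_left.1 hd hz⟩
    obtain ⟨i | j, hx, rfl⟩ := hz
    · exact h2 i
    · exact h1 j (Finset.inr_mem_disjSum.1 hx)
  have hle : (v '' A).encard ≤ (g : Set F).encard :=
    hA.eRk_eq_encard.symm.le.trans (((M.contract C).eRk_mono hsub).trans
      (((M.contract C).eRk_closure_eq _).le.trans ((M.contract C).eRk_le_encard _)))
  rw [hi.injective.encard_image, encard_coe_eq_coe_finsetCard, encard_coe_eq_coe_finsetCard,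
    Nat.cast_le, Finset.card_disjSum, Finset.card_univ] at hle
  omega

end Pool.Agent.Lib.TF
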