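import Pool.Agent.Lib.TF.Blue
import Pool.Agent.Lib.MV.B_DIM

open Set Pool.Agent.Lib.MP_e39d36_ag Pool.Agent.Lib.MP_e39d36_ag.Var Pool.Agent.Lib.DU
  Pool.Agent.Lib.MV
open scoped Classical

set_option linter.unusedSectionVars false
set_option linter.unusedVariables false

noncomputable section

namespace Pool.Agent.Lib.TF

open Fano

namespace TDNB

variable {F : Type} [Field F] [Algebra ℂ F]

/-- Independent quotients of polynomials in `A` give independent elements of `A`. -/
lemma pick (A : Set F) {k : ℕ} {a : Fin k → F} (ha : AlgebraicIndependent ℂ a)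
    (h : ∀ i, ∃ q ∈ Algebra.adjoin ℂ A, q ≠ 0 ∧ q * a i ∈ Algebra.adjoin ℂ A) :
    ∃ b : Fin k → F, (∀ i, b i ∈ A) ∧ AlgebraicIndependent ℂ b := by
  obtain ⟨B, hB⟩ := (AlgebraicIndependent.matroid ℂ F).exists_isBasis A
  have h1 : (AlgebraicIndependent.matroid ℂ F).Indep (range a) :=
    AlgebraicIndependent.matroid_indep_iff.2 ha.to_subtype_range
  have h2 : range a ⊆ (AlgebraicIndependent.matroid ℂ F).closure A := by
    rintro _ ⟨i, rfl⟩
    obtain ⟨q, h3, h4, h5⟩ := h i
    rw [AlgebraicIndependent.matroid_closure_eq, SetLike.mem_coe, Subalgebra.mem_algebraicClosure]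
    refine IsAlgebraic.of_smul (y := (⟨q, h3⟩ : Algebra.adjoin ℂ A))
      (mem_nonZeroDivisors_of_ne_zero fun e => h4 (congrArg Subtype.val e)) ?_
    exact isAlgebraic_algebraMap (⟨_, h5⟩ : Algebra.adjoin ℂ A)
  have h3 := h1.cardinalMk_le_isBasis hB.isBasis_closure_right h2
  rw [Cardinal.mk_range_eq a ha.injective] at h3
  obtain ⟨e⟩ := (Cardinal.le_def _ _).1 h3
  exact ⟨fun i => e i, fun i => hB.subset (e i).2,
    (AlgebraicIndependent.matroid_indep_iff.1 hB.indep).comp e e.injective⟩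

variable {n : ℕ} (φ : La n →ₐ[ℂ] F)

lemma mn_ne (u : Fin n → ℤ) : φ (mn u) ≠ 0 := ((isUnit_mn u).map φ).ne_zero

lemma mn_mem {L : Subfield F} (h : ∀ i, φ (mn (Pi.single i 1)) ∈ L) (u : Fin n → ℤ) :
    φ (mn u) ∈ L := by
  have h1 : ∀ i (j : ℤ), φ (mn (Pi.single i j)) ∈ L := fun i j => by
    induction j using Int.induction_on with
    | zero => simp
    | succ j ih => rw [Pi.single_add, mn_add, map_mul]; exact mul_mem ih (h i)
    | pred j ih =>
      have e : φ (mn (Pi.single i (-(j : ℤ) - 1))) * φ (mn (Pi.single i 1)) =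
          φ (mn (Pi.single i (-(j : ℤ)))) := by
        rw [← map_mul, ← mn_add, ← Pi.single_add, sub_add_cancel]
      rw [eq_div_of_mul_eq (mn_ne φ _) e]
      exact div_mem ih (h i)
  induction u using Pi.single_induction with
  | zero => simp
  | add u u' h2 h3 => rw [mn_add, map_mul]; exact mul_mem h2 h3
  | single i j => exact h1 i j

lemma mem_of_mn {L : IntermediateField ℂ F} (h : ∀ i, φ (mn (Pi.single i 1)) ∈ L) (G : La n) :
    φ G ∈ L := by
  rw [eq_sum G, map_sum]
  exact sum_mem fun u _ => by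
    rw [map_smul]
    exact L.smul_mem (mn_mem φ (L := L.toSubfield) h u)

variable {T : Fano} {K : Type} [Field K] [Algebra ℂ K]

/-- The value map on the torus. -/
def val (M : T.Mod K) (γ : CMap M.X F) (h : ∀ G, M.ψ G ∈ M.X.O γ.c) : T.R →ₐ[ℂ] F where
  toFun G := γ.τ (M.ψ G)
  map_one' := by rw [map_one, γ.τ_one]
  map_zero' := by simpa using γ.const 0
  map_mul' G H := by rw [map_mul, γ.mul _ (h _) _ (h _)]
  map_add' G H := by rw [map_add, γ.add _ (h _) _ (h _)]
  commutes' c := by rw [M.ψ.commutes, γ.const]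

lemma indep {X : Var K} (γ : CMap X F) {k : ℕ} {a : Fin k → K} (h1 : ∀ i, a i ∈ X.O γ.c)
    (h2 : ∀ P : MvPolynomial (Fin k) ℂ, P ≠ 0 → Un (X.O γ.c) (MvPolynomial.aeval a P)) :
    AlgebraicIndependent ℂ fun i => γ.τ (a i) := by
  have h3 : ∀ P : MvPolynomial (Fin k) ℂ,
      MvPolynomial.aeval (fun i => γ.τ (a i)) P = γ.τ (MvPolynomial.aeval a P) := fun P => by
    induction P using MvPolynomial.induction_on with
    | C c => simp [γ.const]
    | add p q hp hq => rw [map_add, map_add, γ.add _ (aeval_mem h1 _) _ (aeval_mem h1 _), hp, hq]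
    | mul_X p i hp => simp [γ.mul _ (aeval_mem h1 _) _ (h1 i), hp]
  exact algebraicIndependent_iff.2 fun P hP =>
    of_not_not fun h => CMap.τ_ne (h2 P h) (h3 P ▸ hP)

end TDNB

theorem st_TDN (TD0 : St_TD0) (BAS : St_BAS) (REL : St_REL) : St_TDN := by
  intro T K _ _ M E hE F _ _ γ hγ J I S hS hI s hs
  have hn := T.dim
  have hO : ∀ G, M.ψ G ∈ M.X.O γ.c := fun G => hγ ▸ ge_zero_iff.1 ((BAS T K M).geN E hE G)
  let φ := TDNB.val M γ hO
  have hφ : ∀ G, φ G = γ.τ (M.ψ G) := fun _ => rfl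
  let x : Fin T.n → F := fun i => φ (mn (Pi.single i 1))
  obtain ⟨a, h1, h2⟩ : Indep γ.c (T.n - 2) := hγ ▸ Pool.Agent.Lib.MV.st_dim K M.X E (T.n - 2) (by
    rw [(REL T K M).1, Nat.cast_le]; omega)
  have hf : T.Face ∅ := (T.cov 0).imp fun m h => ⟨h.1, Finset.empty_subset _⟩
  have hL : LocOf (M.B ∅) (M.X.O γ.c) := M.pts.loc ∅ hf _ (hγ ▸ (BAS T K M).leN E hE ∅)
  obtain ⟨y, hy, hy'⟩ := TDNB.pick (range x) (TDNB.indep γ h1 h2) fun i => by
    obtain ⟨_, ⟨G, -, rfl⟩, h3, H, -, h4⟩ := hL.2 _ (h1 i)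
    have h5 : φ G * γ.τ (a i) = φ H := by
      rw [hφ, hφ, ← γ.mul _ (hO _) _ (h1 i)]
      exact congrArg γ.τ (Eq.symm h4)
    have h6 : γ.τ (a i) ∈ IntermediateField.adjoin ℂ (range x) := by
      rw [eq_div_of_mul_eq (CMap.τ_ne h3 : φ G ≠ 0) ((mul_comm _ _).trans h5)]
      have h7 : ∀ i, φ (mn (Pi.single i 1)) ∈ IntermediateField.adjoin ℂ (range x) := fun i =>
        IntermediateField.subset_adjoin _ _ (mem_range_self (f := x) i)
      exact div_mem (TDNB.mem_of_mn φ h7 H) (TDNB.mem_of_mn φ h7 G)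
    obtain ⟨p, hp, q, hq, e⟩ := IntermediateField.mem_adjoin_iff_div.1 h6
    by_cases h0 : q = 0
    · exact ⟨1, one_mem _, one_ne_zero, by rw [e, h0, div_zero, mul_zero]; exact zero_mem _⟩
    · exact ⟨q, hq, h0, by rw [e, mul_div_cancel₀ _ h0]; exact hp⟩
  choose! u hu hu' using hI
  let v : I → {u // T.P u} := fun j => ⟨u j, hu j j.2⟩
  have hv : Function.Injective v := fun i j h => Subtype.ext (of_not_not fun e =>
    hS i j e (u i) (hu' i i.2) (by rw [show u i = u j from congrArg Subtype.val h]; exact hu' j j.2))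
  let g : Finset F := s ∪ Finset.univ.image x
  let L : Subfield F := Subfield.closure ((fun j : {u // T.P u} => algebraMap ℂ F (M.f.coeff j)) ''
    {j | j ∉ Finset.univ.image v} ∪ g)
  have hx : ∀ i, x i ∈ L := fun i => Subfield.subset_closure (Or.inr (by simp [g]))
  have hm := TDNB.mn_mem φ hx
  have h7 := TD0 F _ _ M.gen.ind (Finset.univ.image v) g _ y hy' (fun j hj => ?_) fun i => ?_
  · rw [Finset.card_image_of_injective _ hv, Fintype.card_fin, Finset.card_univ,
      Fintype.card_coe] at h7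
    have h8 : g.card ≤ s.card + T.n := (Finset.card_union_le _ _).trans
      (Nat.add_le_add_left (Finset.card_image_le.trans (by simp)) _)
    omega
  · obtain ⟨j, -, rfl⟩ := Finset.mem_image.1 hj
    have h8 : φ (part (S j) M.f) ∈ L := by
      refine Subfield.closure_le.2 ?_ (hs j j.2)
      rintro z (hz | ⟨w, rfl⟩)
      · exact Subfield.subset_closure (Or.inr (by simp [g, Finset.mem_coe.1 hz]))
      · exact hm w
    have h9 : (part (S j) M.f).coeff (u j) = M.f.coeff (u j) := by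
      rw [coeff_part, if_pos (hu' j j.2)]
    have h10 : u j ∈ (part (S j) M.f).coeff.support :=
      Finsupp.mem_support_iff.2 (h9 ▸ M.gen.ne (hu j j.2))
    rw [eq_sum (part (S j) M.f), map_sum, ← Finset.add_sum_erase _ _ h10, h9, map_smul,
      Algebra.smul_def] at h8
    have h11 : ∑ w ∈ (part (S j) M.f).coeff.support.erase (u j),
        φ ((part (S j) M.f).coeff w • mn w) ∈ L := sum_mem fun w hw => by
      obtain ⟨e1, e2⟩ := Finset.mem_erase.1 hw
      have e3 := Finsupp.mem_support_iff.1 e2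
      have e4 : S j w := sup_part w e3
      rw [coeff_part, if_pos e4] at e3
      rw [map_smul, Algebra.smul_def, coeff_part, if_pos e4]
      refine mul_mem (Subfield.subset_closure (Or.inl ⟨⟨w, M.gen.sup w e3⟩, fun h => ?_, rfl⟩))
        (hm w)
      obtain ⟨i, -, e5⟩ := Finset.mem_image.1 h
      have e6 : u i = w := congrArg Subtype.val e5
      by_cases e7 : (i : J) = j
      · exact e1 (by rw [← e6, e7])
      · exact hS i j e7 w (e6 ▸ hu' i i.2) e4
    have h12 := div_mem (sub_mem h8 h11) (hm (u j))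
    rwa [add_sub_cancel_right, mul_div_cancel_right₀ _ (TDNB.mn_ne φ _)] at h12
  · obtain ⟨i, e⟩ := hy i
    exact e ▸ hx i

end Pool.Agent.Lib.TF
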