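import Pool.Agent.Lib.TF.Blue

open Set Pool.Agent.Lib.MP_e39d36_ag Pool.Agent.Lib.MP_e39d36_ag.Var Pool.Agent.Lib.DU
  Pool.Agent.Lib.MV
open scoped Classical

set_option linter.unusedSectionVars false
set_option linter.unusedVariables false

noncomputable section

namespace Pool.Agent.Lib.TF

open Fano

namespace TDTB

/-- Laurent polynomials with exponents in a sublattice. -/
def AL {n : ℕ} (L : Submodule ℤ (Fin n → ℤ)) : Subalgebra ℂ (La n) where
  carrier := {G | Sup (· ∈ L) G}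
  add_mem' := Sup.add
  mul_mem' := fun h h' => Sup.mul h h' fun _ _ h1 h2 => L.add_mem h1 h2
  algebraMap_mem' := fun c => sup_algebraMap L.zero_mem c

variable {T : Fano} {K : Type} [Field K] [Algebra ℂ K] (M : T.Mod K)
  {F : Type} [Field F] [Algebra ℂ F] (γ : CMap M.X F) (L : Submodule ℤ T.M)

lemma mem_O (hU : ∀ G, G ≠ 0 → Sup (· ∈ L) G → Un (M.X.O γ.c) (M.ψ G)) {G : T.R}
    (h : Sup (· ∈ L) G) : M.ψ G ∈ M.X.O γ.c := by
  by_cases h0 : G = 0
  · rw [h0, map_zero]; exact zero_mem _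
  · exact (hU G h0 h).2.1

/-- The value at the point. -/
def Phi (hU : ∀ G, G ≠ 0 → Sup (· ∈ L) G → Un (M.X.O γ.c) (M.ψ G)) : AL L →ₐ[ℂ] F where
  toFun G := γ.τ (M.ψ G.1)
  map_one' := by simpa using γ.τ_one
  map_mul' G H := by
    rw [Subalgebra.coe_mul, map_mul]
    exact γ.mul _ (mem_O M γ L hU G.2) _ (mem_O M γ L hU H.2)
  map_zero' := by simpa using γ.const 0
  map_add' G H := by
    rw [Subalgebra.coe_add, map_add]
    exact γ.add _ (mem_O M γ L hU G.2) _ (mem_O M γ L hU H.2)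
  commutes' c := by
    rw [Subalgebra.coe_algebraMap, AlgHom.commutes]
    exact γ.const c

lemma un_chi (hU : ∀ G, G ≠ 0 → Sup (· ∈ L) G → Un (M.X.O γ.c) (M.ψ G)) {u : T.M} (h : u ∈ L) :
    Un (M.X.O γ.c) (M.χ u) := hU _ (mn_ne u) (sup_mn.2 h)

lemma chi_mem (hU : ∀ G, G ≠ 0 → Sup (· ∈ L) G → Un (M.X.O γ.c) (M.ψ G)) {ι : Type}
    (b : Module.Basis ι ℤ L) (k : Subfield F) (hk : ∀ i, γ.τ (M.χ (b i).1) ∈ k) {u : T.M}
    (h : u ∈ L) : γ.τ (M.χ u) ∈ k := by
  let H : AddSubgroup L :=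
    { carrier := {u | γ.τ (M.χ u.1) ∈ k}
      zero_mem' := by
        show γ.τ (M.χ 0) ∈ k
        rw [Mod0.χ_zero, γ.τ_one]; exact one_mem _
      add_mem' := fun {u u'} h h' => by
        show γ.τ (M.χ (u.1 + u'.1)) ∈ k
        rw [Mod0.χ_add, γ.mul _ (un_chi M γ L hU u.2).2.1 _ (un_chi M γ L hU u'.2).2.1]
        exact mul_mem h h'
      neg_mem' := fun {u} h => by
        show γ.τ (M.χ (-u.1)) ∈ k
        rw [Mod0.χ_neg, CMap.τ_inv' (un_chi M γ L hU u.2)]
        exact inv_mem h }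
  have h1 : Submodule.span ℤ (range b) ≤ H.toIntSubmodule :=
    Submodule.span_le.2 (by rintro _ ⟨i, rfl⟩; exact hk i)
  exact h1 (b.mem_span ⟨u, h⟩)

lemma indep (hM : St_MON) (hU : ∀ G, G ≠ 0 → Sup (· ∈ L) G → Un (M.X.O γ.c) (M.ψ G)) {ι : Type}
    (b : Module.Basis ι ℤ L) : AlgebraicIndependent ℂ fun i => γ.τ (M.χ (b i).1) := by
  refine algebraicIndependent_iff.2 fun P hP => of_not_not fun h0 => ?_
  have hb : LinearIndependent ℤ fun i => (b i).1 :=
    b.linearIndependent.map' L.subtype (Submodule.ker_subtype L)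
  have h1 := ((hM T.n).2.1 ι _ hb P h0).1
  let x : ι → AL L := fun i => ⟨mn (b i).1, sup_mn.2 (b i).2⟩
  have h2 : (MvPolynomial.aeval x P).1 = MvPolynomial.aeval (fun i => mn (b i).1) P :=
    MvPolynomial.comp_aeval_apply x (AL L).val P
  have h3 : Phi M γ L hU (MvPolynomial.aeval x P) = 0 :=
    (MvPolynomial.comp_aeval_apply x (Phi M γ L hU) P).trans hP
  exact CMap.τ_ne (hU _ (h2 ▸ h1) (MvPolynomial.aeval x P).2) h3

lemma val_sum (hU : ∀ G, G ≠ 0 → Sup (· ∈ L) G → Un (M.X.O γ.c) (M.ψ G)) (G : T.R) (t : T.M)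
    (h : ∀ u, G.coeff u ≠ 0 → u + t ∈ L) :
    γ.τ (M.ψ (G * mn t)) =
      ∑ u ∈ G.coeff.support, algebraMap ℂ F (G.coeff u) * γ.τ (M.χ (u + t)) := by
  let x : G.coeff.support → AL L := fun u =>
    ⟨mn (u.1 + t), sup_mn.2 (h u.1 (Finsupp.mem_support_iff.1 u.2))⟩
  have e : G * mn t = (∑ u : G.coeff.support, G.coeff u.1 • x u).1 := by
    conv_lhs => rw [eq_sum G, Finset.sum_mul, ← Finset.sum_coe_sort]
    rw [AddSubmonoidClass.coe_finsetSum]
    exact Finset.sum_congr rfl fun u _ => by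
      rw [smul_mul_assoc, ← mn_add]; rfl
  rw [e, ← Finset.sum_coe_sort G.coeff.support]
  refine (map_sum (Phi M γ L hU) _ _).trans (Finset.sum_congr rfl fun u _ => ?_)
  rw [map_smul, Algebra.smul_def]; rfl

end TDTB

open TDTB in
theorem st_TDT (hM : St_MON) (hT : St_TD0) : St_TDT := by
  intro T K _ _ M F _ _ γ L hU J I S t hS hI ht s hs
  obtain ⟨d, b⟩ := Submodule.basisOfPid (Pi.basisFun ℤ (Fin T.n)) L
  choose u hP hu using hI
  let v : I → {u // T.P u} := fun j => ⟨u j.1 j.2, hP j.1 j.2⟩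
  have hv : Function.Injective v := fun i j e => Subtype.ext <| of_not_not fun h =>
    hS i.1 j.1 h _ (hu i.1 i.2) (by rw [show u i.1 i.2 = u j.1 j.2 from congrArg Subtype.val e]; exact hu j.1 j.2)
  let y : Fin d → F := fun i => γ.τ (M.χ (b i).1)
  let g : Finset F := s ∪ Finset.univ.image y
  let k : Subfield F := Subfield.closure
    ((fun j : {u // T.P u} => algebraMap ℂ F (M.f.coeff j.1)) '' {j | j ∉ Finset.univ.image v} ∪ g)
  have hy : ∀ i, y i ∈ k := fun i => Subfield.subset_closure (Or.inr (by simp [g]))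
  have hsk : Subfield.closure (s : Set F) ≤ k :=
    Subfield.closure_mono fun z hz => Or.inr (by simp [g, Finset.mem_coe.1 hz])
  have h := hT F _ _ M.gen.ind (Finset.univ.image v) g (Fin d) y (indep M γ L hM hU b) ?_ hy
  · have h1 : g.card ≤ s.card + d :=
      (Finset.card_union_le _ _).trans (Nat.add_le_add_left (Finset.card_image_le.trans (by simp)) _)
    rw [Finset.card_image_of_injective _ hv] at h
    simp only [Finset.card_univ, Fintype.card_coe, Fintype.card_fin] at h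
    omega
  intro w hw
  obtain ⟨j, -, rfl⟩ := Finset.mem_image.1 hw
  have hc : ∀ w, (part (S j.1) M.f).coeff w ≠ 0 → S j.1 w := sup_part
  have hc' : ∀ w, S j.1 w → (part (S j.1) M.f).coeff w = M.f.coeff w := fun w h => by
    rw [coeff_part, if_pos h]
  have h1 := hsk (hs j.1 j.2)
  have h2 : u j.1 j.2 ∈ (part (S j.1) M.f).coeff.support :=
    Finsupp.mem_support_iff.2 (by rw [hc' _ (hu j.1 j.2)]; exact M.gen.ne (hP j.1 j.2))
  rw [val_sum M γ L hU _ _ fun w h => ht _ _ (hc w h), ← Finset.add_sum_erase _ _ h2,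
    hc' _ (hu j.1 j.2)] at h1
  have h3 : ∑ w ∈ (part (S j.1) M.f).coeff.support.erase (u j.1 j.2),
      algebraMap ℂ F ((part (S j.1) M.f).coeff w) * γ.τ (M.χ (w + t j.1)) ∈ k := by
    refine sum_mem fun w hw => ?_
    obtain ⟨e1, e2⟩ := Finset.mem_erase.1 hw
    have e3 := Finsupp.mem_support_iff.1 e2
    have e4 := hc w e3
    refine mul_mem ?_ (chi_mem M γ L hU b k hy (ht _ _ e4))
    rw [hc' w e4] at e3 ⊢
    refine Subfield.subset_closure (Or.inl ⟨⟨w, M.gen.sup w e3⟩, fun e5 => ?_, rfl⟩)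
    obtain ⟨i, -, e6⟩ := Finset.mem_image.1 e5
    have e7 : u i.1 i.2 = w := congrArg Subtype.val e6
    by_cases e8 : i = j
    · exact e1 (by rw [← e7, e8])
    · exact hS i.1 j.1 (fun e => e8 (Subtype.ext e)) w (e7 ▸ hu i.1 i.2) e4
  have h4 := sub_mem h1 h3
  rw [add_sub_cancel_right] at h4
  have h5 := ht _ _ (hu j.1 j.2)
  have h6 := div_mem h4 (chi_mem M γ L hU b k hy h5)
  rwa [mul_div_cancel_right₀ _ (CMap.τ_ne (un_chi M γ L hU h5))] at h6

end Pool.Agent.Lib.TF
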