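import Pool.Agent.Lib.TF.Blue

open Set Pool.Agent.Lib.MP_e39d36_ag Pool.Agent.Lib.MP_e39d36_ag.Var Pool.Agent.Lib.DU
  Pool.Agent.Lib.MV
open scoped Classical

set_option linter.unusedSectionVars false
set_option linter.unusedVariables false

noncomputable section

namespace Pool.Agent.Lib.TF

open Fano

namespace TGTB

section cub

variable {K : Type} [Field K] [Algebra ℂ K] {X : Var K} {E : X.PD} {i j k l m : ℤ} {c : Cub K}
  {s s' : K}

lemma gm (h : s ∈ ordGe E i) (h' : s' ∈ ordGe E j) (e : k ≤ i + j) : s * s' ∈ ordGe E k :=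
  ge_mono (ge_mul h h') e

/-- Lower bounds for the orders of the coefficients. -/
structure Bd (E : X.PD) (c : Cub K) (i j : ℤ) : Prop where
  c10 : c.c10 ∈ ordGe E i
  c01 : c.c01 ∈ ordGe E i
  c20 : c.c20 ∈ ordGe E j
  c11 : c.c11 ∈ ordGe E j
  c02 : c.c02 ∈ ordGe E j
  c30 : c.c30 ∈ ordGe E j
  c21 : c.c21 ∈ ordGe E j

lemma Bd.W (h : Bd E c i j) :
    c.c30 * c.c01 ^ 2 - c.c21 * c.c10 * c.c01 ∈ ordGe E (j + 2 * i) := by
  rw [sq]
  exact sub_mem (gm h.c30 (ge_mul h.c01 h.c01) (by omega))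
    (gm (ge_mul h.c21 h.c10) h.c01 (by omega))

lemma Bd.rest (h : Bd E c i j) (hp : c.p ∈ ordGe E m) (e1 : l ≤ m + j) (e2 : l ≤ 2 * j + i) :
    c.a2 - c.X0 ^ 2 ∈ ordGe E (j + 2 * i + l) := by
  rw [Cub.a2, add_sub_cancel_left, Cub.q0, sq, sq]
  exact ge_mul (add_mem (sub_mem (gm h.c20 (ge_mul h.c01 h.c01) (by omega))
    (gm (ge_mul h.c11 h.c01) h.c10 (by omega))) (gm h.c02 (ge_mul h.c10 h.c10) (by omega)))
    (add_mem (sub_mem (add_mem (gm hp h.c20 e1) (gm (ge_mul h.c20 h.c21) h.c01 (by omega)))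
      (gm (ge_mul h.c30 h.c11) h.c01 (by omega))) (gm (ge_mul h.c30 h.c02) h.c10 (by omega)))

lemma Bd.a2 (h : Bd E c i j) (hp : c.p ∈ ordGe E m) (l n : ℤ) (e1 : l ≤ m + j)
    (e2 : l ≤ 2 * j + i) (e3 : n ≤ m + i) (e4 : n ≤ j + 2 * i) (e5 : k ≤ n + n)
    (e6 : k ≤ j + 2 * i + l) : c.a2 ∈ ordGe E k := by
  have h1 : c.X0 ∈ ordGe E n := sub_mem (gm hp h.c10 e3) (ge_mono h.W e4)
  have h2 := add_mem (ge_mono (h.rest hp e1 e2) e6) (gm h1 h1 e5)
  rwa [sq, sub_add_cancel] at h2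

lemma Bd.top (h : Bd E c (-1) 0) (hp : c.p + c.c10 ^ 2 ∈ ordGe E (-1)) :
    c.a2 - c.c10 ^ 6 ∈ ordGe E (-5) := by
  have h2 : c.c10 ^ 2 ∈ ordGe E (-2) := ge_mono (ge_pow h.c10 2) (by omega)
  have h3 : c.c10 ^ 3 ∈ ordGe E (-3) := ge_mono (ge_pow h.c10 3) (by omega)
  have h4 : c.p ∈ ordGe E (-2) := by simpa using sub_mem (ge_mono hp (by omega)) h2
  have h5 : c.X0 + c.c10 ^ 3 ∈ ordGe E (-2) := by
    have e : c.X0 + c.c10 ^ 3 = (c.p + c.c10 ^ 2) * c.c10 -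
        (c.c30 * c.c01 ^ 2 - c.c21 * c.c10 * c.c01) := by rw [Cub.X0]; ring
    rw [e]
    exact sub_mem (gm hp h.c10 (by omega)) (ge_mono h.W (by omega))
  have e : c.a2 - c.c10 ^ 6 = (c.a2 - c.X0 ^ 2) +
      (c.X0 + c.c10 ^ 3) * (c.X0 + c.c10 ^ 3 - c.c10 ^ 3 - c.c10 ^ 3) := by ring
  rw [e]
  exact add_mem (ge_mono (h.rest (l := -2) h4 (by omega) (by omega)) (by omega))
    (gm h5 (sub_mem (sub_mem (ge_mono h5 (by omega)) h3) h3) (by omega))

lemma in_a {L : Subring K} (h : c.In L) (hp : c.p ∈ L) : c.a2 ∈ L ∧ c.a1 ∈ L ∧ c.a0 ∈ L := by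
  obtain ⟨h1, h2, h3, h4, h5, h6, h7, h8, h9⟩ := h
  have h0 : (2 : K) ∈ L := by simp
  simp only [Cub.a2, Cub.a1, Cub.a0, Cub.X0, Cub.Z0, Cub.q0]
  refine ⟨?_, ?_, ?_⟩ <;> apply_rules (maxDepth := 200) only
    [L.add_mem, L.sub_mem, L.mul_mem, L.pow_mem, h0, h1, h2, h3, h4, h5, h6, h7, h8, h9, hp]

end cub

section lat

variable {T : Fano} {x z y ρ t : T.Ray}

lemma lo_cl {f : T.R} (hf : T.Gen f) {i j k : ℤ} {w : T.M}
    (h : ∀ u, T.P u → u ⬝ᵥ T.v x = i - 1 → u ⬝ᵥ T.v z = j - 1 → k ≤ u ⬝ᵥ w) :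
    Lo w k (T.cl f x z i j) :=
  Sup.mono (Sup.and (Sup.part hf.sup) sup_part) fun u hu => h u hu.1 hu.2.1 hu.2.2

lemma inv_x : T.InV x z x := ⟨1, 0, by simp⟩

lemma inv_z : T.InV x z z := ⟨0, 1, by simp⟩

lemma inv_y (h : T.Tri x z y) : T.InV x z y := ⟨1, 1, by rw [one_smul, one_smul]; exact Eq.symm h⟩

lemma inv_opp (h : T.InV x z ρ) (h' : T.Opp ρ t) : T.InV x z t := by
  obtain ⟨i, j, e⟩ := h
  refine ⟨-i, -j, ?_⟩
  rw [neg_smul, neg_smul, ← neg_add, ← e]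
  exact eq_neg_of_add_eq_zero_right h'

lemma inv_tri (h : T.Tri x z y) (h' : T.Tri y ρ t) (ht : T.InV x z t) : T.InV x z ρ := by
  obtain ⟨i, j, e⟩ := ht
  refine ⟨i - 1, j - 1, ?_⟩
  have e1 : T.v ρ = T.v t - (T.v x + T.v z) := by rw [h, ← h', add_sub_cancel_left]
  rw [e1, e, sub_smul, sub_smul, one_smul, one_smul]
  abel

lemma ka_out (h : T.Tri x z y) (hρ : ¬T.InV x z ρ) :
    T.ka x z y ρ = if T.Nb y ρ then 2 else 1 := by
  refine if_neg ?_
  rintro (rfl | rfl | e | e | e)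
  exacts [hρ inv_x, hρ inv_z, hρ (inv_opp inv_x e), hρ (inv_opp (inv_y h) e),
    hρ (inv_opp inv_z e)]

lemma nb_tri (h0 : T.C0) (h1 : T.C1) (h : T.Tri y ρ t) : T.Nb y t :=
  h1.swap y ρ t h {t} (h0.ray t) (Finset.mem_singleton_self t) fun e => by
    rw [Finset.mem_singleton.1 e, Tri, add_eq_right] at h
    exact T.ne y h

lemma tri_of (h1 : T.C1) (h : T.Tri x z y) (hρ : ¬T.InV x z ρ) (hn : ¬T.Nb y ρ) :
    ∃ t, T.Tri y ρ t :=
  ((h1.nf y ρ).1 hn).resolve_left fun e => hρ (inv_opp (inv_y h) e)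

end lat

variable {T : Fano} {K : Type} [Field K] [Algebra ℂ K] {M : T.Mod K}

lemma main (h0 : T.C0) (h1 : T.C1) (B : M.Bas) (hC : St_CI) {x z y : T.Ray} (h : T.Tri x z y)
    (g1 : M.al x z ≠ 0) (g2 : M.X.ord (M.al x z) (M.D y).1 = -1) {a : T.Λ} {s : K}
    (hs : s ∈ M.Sec a) (k : ℕ) (ε : ℂ) (hε : ε ≠ 0) (ax : a x = 0) (az : 0 ≤ a z)
    (az' : a z ≤ k) (ay : a y = k) (ht : s - ε • M.al x z ^ k ∈ ordGe (M.D y) (1 - k))
    (hn : ∀ ρ, ¬T.InV x z ρ → T.Nb y ρ → a ρ = k)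
    (hm : ∀ ρ, ¬T.InV x z ρ → ¬T.Nb y ρ → a z - k + 2 * (a ρ - 1) < 0) (ρ : T.Ray)
    (hρ : ρ = y ∨ ¬T.InV x z ρ) : s ≠ 0 ∧ M.X.ord s (M.D ρ).1 = -a ρ := by
  obtain ⟨s1, s2⟩ := (B.mem a s).1 hs
  have key : ∀ ρ, ¬T.InV x z ρ → T.Nb y ρ → s ∉ ordGe (M.D ρ) (1 - k) := fun ρ e e' =>
    (hC T K M x z y h a s hs).2 k ε hε ax az az' ay ht ρ e' (fun e1 => e (e1 ▸ inv_x))
      fun e1 => e (e1 ▸ inv_z)
  refine ord_of_not_ge (s2 ρ) fun e => ?_
  rcases hρ with rfl | hρ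
  · rw [ay, neg_add_eq_sub] at e
    have e1 := sub_mem e ht
    rw [sub_sub_cancel, Submodule.smul_mem_iff _ hε, ge_iff (pow_ne_zero k g1), ord_pow, g2] at e1
    omega
  by_cases hb : T.Nb y ρ
  · exact key ρ hρ hb (by rwa [hn ρ hρ hb, neg_add_eq_sub] at e)
  obtain ⟨t, hT⟩ := tri_of h1 h hρ hb
  have t1 : ¬T.InV x z t := fun e => hρ (inv_tri h hT e)
  have t2 := nb_tri h0 h1 hT
  have t3 : t ≠ ρ := fun e => hb (e ▸ t2)
  have n1 : x ≠ ρ := fun e => hρ (e ▸ inv_x)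
  have n2 : z ≠ ρ := fun e => hρ (e ▸ inv_z)
  have n3 : y ≠ ρ := fun e => hρ (e ▸ inv_y h)
  have hs' : s ∈ M.Sec (Function.update a ρ (a ρ - 1)) := (B.mem _ s).2 ⟨s1, fun σ => by
    by_cases e1 : σ = ρ
    · rw [e1, Function.update_self]
      exact ge_mono e (by omega)
    · rw [Function.update_of_ne e1]
      exact s2 σ⟩
  have c := (hC T K M x z y h _ s hs').1 ρ t hT (fun e => t1 (e ▸ inv_x))
    (fun e => t1 (e ▸ inv_z)) (by rw [Function.update_of_ne t3, hn t t1 t2]; exact key t t1 t2)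
  rw [Function.update_of_ne n1, Function.update_of_ne n2, Function.update_of_ne n3,
    Function.update_of_ne t3, Function.update_self, hn t t1 t2] at c
  have := hm ρ hρ hb
  omega

/-- The cubic with coefficients that are not normalised. -/
def cu (M : T.Mod K) (q : T.Pq) : Cub K :=
  ⟨M.ψ (T.cl M.f q.x q.z 1 0), M.ψ (T.cl M.f q.x q.z 0 1), M.ψ (T.cl M.f q.x q.z 2 0),
    M.ψ (T.cl M.f q.x q.z 1 1), M.ψ (T.cl M.f q.x q.z 0 2), M.ψ (T.cl M.f q.x q.z 3 0),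
    M.ψ (T.cl M.f q.x q.z 2 1), 0, 0, M.p q.x q.z⟩

lemma co_eq (q : T.Pq) (i j : ℤ) : M.co q i j =
    M.ψ (T.cl M.f q.x q.z i j) * (M.χ q.xs ^ (1 - i) * M.χ q.zs ^ (1 - j)) := by
  rw [Mod.co, map_mul, ← M.χ_zsmul, ← M.χ_zsmul, ← M.χ_add]
  rfl

lemma cu_eq (q : T.Pq) : (M.cub q).a2 = (cu M q).a2 * M.χ ((2 : ℤ) • q.zs) ∧
    (M.cub q).c01 * (M.cub q).c21 = (cu M q).c01 * (cu M q).c21 := by
  have h1 := M.χ_ne q.xs
  have h2 := M.χ_ne q.zs
  rw [M.χ_zsmul]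
  simp only [Mod.cub, cu, Cub.a2, Cub.X0, Cub.q0, co_eq]
  norm_num
  constructor <;> field_simp

lemma bd (B : M.Bas) (q : T.Pq) (ρ : T.Ray) (i j : ℤ)
    (h1 : ∀ u, T.P u → u ⬝ᵥ T.v q.y = -1 → i ≤ u ⬝ᵥ T.v ρ)
    (h2 : ∀ u, T.P u → 0 ≤ u ⬝ᵥ T.v q.y → j ≤ u ⬝ᵥ T.v ρ) : Bd (M.D ρ) (cu M q) i j := by
  constructor <;> refine B.geD _ _ _ (lo_cl M.gen fun u hu e1 e2 => ?_) <;>
    first
    | exact h1 u hu (by rw [q.tri.dot]; omega)
    | exact h2 u hu (by rw [q.tri.dot]; omega)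

end TGTB

open TGTB in
theorem st_TGT (h0 : St_C0) (h1 : St_C1) (hB : St_BAS) (hG : St_GEN) (hC : St_CI)
    (hE : St_EQS) : St_TGT := by
  intro T K _ _ M q
  have B := hB T K M
  have Q := hE T K M q
  have C := h1 T
  obtain ⟨-, g2, -, g4, g5, g6, -⟩ := hG T K M q.x q.z q.y q.tri
  obtain ⟨p1, p2⟩ := (B.mem _ _).1 g2
  have dx := q.tri.dot q.xs
  have dz := q.tri.dot q.zs
  have xx := q.xx
  have xz := q.xz
  have zx := q.zx
  have zz := q.zz
  have xnz : q.x ≠ q.z := fun e => by rw [e] at xx; omega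
  have ynz : q.y ≠ q.z := fun e => by rw [e] at dx; omega
  have kx : T.ka q.x q.z q.y q.x = 0 := if_pos (Or.inl rfl)
  have kz : T.ka q.x q.z q.y q.z = 0 := if_pos (Or.inr (Or.inl rfl))
  have ky : T.ka q.x q.z q.y q.y = 2 := by
    rw [ka, if_neg, if_pos (by simpa [Nb] using (h0 T).ray q.y)]
    rintro (e | e | e | e | e)
    · rw [e] at dz; omega
    · exact ynz e
    · have := e.dot q.xs; omega
    · have := e.dot q.xs; omega
    · have := e.dot q.zs; omega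
  have k0 : ∀ ρ, 0 ≤ T.ka q.x q.z q.y ρ := fun ρ => by unfold ka; split_ifs <;> omega
  have by0 : Bd (M.D q.y) (cu M q) (-1) 0 := bd B q _ _ _ (fun u _ h => h.ge) fun u _ h => h
  have b1 : ∀ ρ, Bd (M.D ρ) (cu M q) (-1) (-1) := fun ρ =>
    bd B q _ _ _ (fun u h _ => h ρ) fun u h _ => h ρ
  have b2 : ∀ ρ, ¬T.InV q.x q.z ρ → ¬T.Nb q.y ρ → Bd (M.D ρ) (cu M q) 0 (-1) := fun ρ e e' => by
    obtain ⟨t, ht⟩ := tri_of C q.tri e e'
    exact bd B q _ _ _ (fun u h e1 => by have := h t; rw [ht.dot] at this; omega) fun u h _ => h ρ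
  have bN : ∀ E, M.NT E → Bd E (cu M q) 0 0 := fun E hE => by
    constructor <;> exact B.geN E hE _
  obtain ⟨e2, e3⟩ := cu_eq (M := M) q
  have oχ := fun ρ => (M.isD ρ).1
  have nz : ∀ ρ, ¬T.InV q.x q.z ρ → (Pi.single q.z 1 : T.Λ) ρ = 0 := fun ρ e =>
    Pi.single_eq_of_ne (fun e1 : ρ = q.z => e (e1 ▸ inv_z)) _
  constructor
  · have top : (cu M q).a2 - M.al q.x q.z ^ 6 ∈ ordGe (M.D q.y) (-5) := by0.top g4
    have hs : (cu M q).a2 ∈ M.Sec fun ρ => 3 * T.ka q.x q.z q.y ρ + (Pi.single q.z 1 : T.Λ) ρ := by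
      refine (B.mem _ _).2 ⟨fun E hE => (bN E hE).a2 (p1 E hE) 0 0 (by omega) (by omega) (by omega)
        (by omega) (by omega) (by omega), fun ρ => ?_⟩
      by_cases hρ : T.InV q.x q.z ρ
      · by_cases hy : ρ = q.y
        · have := p2 ρ
          rw [hy, ky] at this
          rw [hy, ky, Pi.single_eq_of_ne ynz]
          exact (b1 _).a2 this (-3) (-3) (by omega) (by omega) (by omega) (by omega) (by omega)
            (by omega)
        obtain ⟨r1, r2⟩ := Q.reg _ ((Q.mt ρ).2 hρ)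
        obtain ⟨a2, a1, a0⟩ := in_a r1 (r2 fun e => hy (B.inj e))
        rw [← ge_zero_iff] at a2 a1 a0
        have e4 : (cu M q).a2 = (M.cub q).a2 * M.χ ((-2 : ℤ) • q.zs) := by
          rw [e2, mul_assoc, ← M.χ_add, ← add_smul]
          simp
        have o1 := ge_ord (M.χ ((-2 : ℤ) • q.zs)) (M.D ρ)
        rw [oχ, smul_dotProduct, smul_eq_mul] at o1
        have k1 := k0 ρ
        rw [e4]
        by_cases hz : ρ = q.z
        · subst hz
          have e5 : (M.cub q).a2 = -((M.cub q).a1 * M.χ (q.zs - q.xs) +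
              (M.cub q).a0 * M.χ (q.zs - q.xs) ^ 2) := by
            have := Q.quad
            have n1 := M.χ_ne q.xs
            have n2 := M.χ_ne q.zs
            rw [Mod.t] at this
            rw [M.χ_sub]
            field_simp at this ⊢
            linear_combination this
          have o2 := ge_ord (M.χ (q.zs - q.xs)) (M.D q.z)
          rw [oχ, sub_dotProduct, zz, xz] at o2
          have a3 : (M.cub q).a2 ∈ ordGe (M.D q.z) 1 := by
            rw [e5]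
            exact neg_mem (add_mem (gm a1 o2 (by omega)) (gm a0 (ge_pow o2 2) (by omega)))
          rw [Pi.single_eq_same]
          exact gm a3 o1 (by omega)
        · rw [Pi.single_eq_of_ne hz]
          refine gm a2 o1 ?_
          rcases C.inv _ _ _ q.tri ρ hρ with e | e | e | e | e | e
          · rw [e] at k1 ⊢; omega
          · exact absurd e hz
          · exact absurd e hy
          all_goals have := e.dot q.zs; omega
      · have := p2 ρ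
        rw [nz ρ hρ]
        rw [ka_out q.tri hρ] at this ⊢
        split_ifs at this ⊢ with hb
        · exact (b1 _).a2 this (-3) (-3) (by omega) (by omega) (by omega) (by omega) (by omega)
            (by omega)
        · exact (b2 ρ hρ hb).a2 this (-2) (-1) (by omega) (by omega) (by omega) (by omega)
            (by omega) (by omega)
    intro ρ hρ
    obtain ⟨m1, m2⟩ := main (h0 T) C B hC q.tri g5 g6 hs 6 1 one_ne_zero
      (by simp only [kx, Pi.single_eq_of_ne xnz]; rfl) (by simp only [kz, Pi.single_eq_same]; omega)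
      (by simp only [kz, Pi.single_eq_same]; omega)
      (by simp only [ky, Pi.single_eq_of_ne ynz]; rfl) (by rw [one_smul]; exact top)
      (fun σ e e' => by simp only [ka_out q.tri e, if_pos e', nz σ e]; rfl)
      (fun σ e e' => by
        simp only [ka_out q.tri e, if_neg e', nz σ e, kz, Pi.single_eq_same]; omega) ρ hρ
    have n1 : (Pi.single q.z 1 : T.Λ) ρ = 0 := hρ.elim (fun e => e ▸ Pi.single_eq_of_ne ynz _) (nz ρ)
    rw [e2]
    refine ⟨mul_ne_zero m1 (M.χ_ne _), ?_⟩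
    rw [ord_mul m1 (M.χ_ne _), m2, oχ, smul_dotProduct, smul_eq_mul, n1]
    ring
  · have hs : (M.cub q).p + (M.cub q).c01 * (M.cub q).c21 ∈ M.Sec (T.ka q.x q.z q.y) := by
      refine add_mem g2 ((B.mem _ _).2 ⟨fun E hE => ?_, fun ρ => ?_⟩)
      · rw [e3]
        exact gm (bN E hE).c01 (bN E hE).c21 (by omega)
      by_cases hρ : T.InV q.x q.z ρ
      · obtain ⟨-, r1, -, -, -, -, r2, -⟩ := (Q.reg _ ((Q.mt ρ).2 hρ)).1
        have := k0 ρ
        exact ge_mono (ge_zero_iff.2 (mul_mem r1 r2)) (by omega)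
      · rw [e3, ka_out q.tri hρ]
        split_ifs with hb
        · exact gm (b1 ρ).c01 (b1 ρ).c21 (by omega)
        · exact gm (b2 ρ hρ hb).c01 (b2 ρ hρ hb).c21 (by omega)
    refine main (h0 T) C B hC q.tri g5 g6 hs 2 (-1) (by norm_num) kx kz.ge (by rw [kz]; omega) ky ?_
      (fun σ e e' => by rw [ka_out q.tri e, if_pos e']; rfl)
      fun σ e e' => by rw [ka_out q.tri e, if_neg e', kz]; omega
    have e4 : (M.cub q).p + (M.cub q).c01 * (M.cub q).c21 - (-1 : ℂ) • M.al q.x q.z ^ 2 =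
        (M.p q.x q.z + M.al q.x q.z ^ 2) + (cu M q).c01 * (cu M q).c21 := by
      rw [e3, neg_smul, one_smul, sub_neg_eq_add, add_right_comm]
      rfl
    rw [e4]
    exact add_mem g4 (gm by0.c01 by0.c21 (by omega))

end Pool.Agent.Lib.TF
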