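import Pool.Agent.Lib.TF.Blue

open Set Pool.Agent.Lib.MP_e39d36_ag Pool.Agent.Lib.MP_e39d36_ag.Var Pool.Agent.Lib.DU
  Pool.Agent.Lib.MV
open scoped Classical

set_option linter.style.haveILetI false

noncomputable section

namespace Pool.Agent.Lib.TF

open Fano

namespace TP1B

variable {T : Fano} {K : Type} [Field K] [Algebra ℂ K]

theorem pd_of {X : Var K} {z : X.Pt} {π : K} (h0 : π ≠ 0) (h1 : π ∈ X.O z) (h2 : ¬Un (X.O z) π)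
    (h3 : ∀ a ∈ X.O z, ¬Un (X.O z) a → a / π ∈ X.O z) :
    ∃ E : X.PD, E.1 = z ∧ X.ord π E.1 = 1 := by
  haveI := (X.isLoc z).isLocalRing
  have hf : ¬IsField (X.O z) := fun hF => by
    obtain ⟨b, hb⟩ := hF.mul_inv_cancel (a := ⟨π, h1⟩) fun h => h0 (congrArg Subtype.val h)
    exact h2 (isUnit_iff_un.1 (IsUnit.of_mul_eq_one b hb))
  have hp : (IsLocalRing.maximalIdeal (X.O z)).IsPrincipal := ⟨⟨π, h1⟩, le_antisymm
    (fun a ha => Ideal.mem_span_singleton'.2 ⟨⟨_, h3 a a.2 fun h => ha (isUnit_iff_un.2 h)⟩,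
      Subtype.ext (div_mul_cancel₀ _ h0)⟩)
    ((Ideal.span_singleton_le_iff_mem _).2 fun h => h2 (isUnit_iff_un.1 h))⟩
  haveI : IsDiscreteValuationRing (X.O z) := ((IsDiscreteValuationRing.TFAE _ hf).out 0 4).2 hp
  let E : X.PD := ⟨z, (X.pd_iff z).2 exists_isV⟩
  refine ⟨E, rfl, ?_⟩
  obtain ⟨t, t0, t1⟩ := exists_unif (isV E).1
  rw [← ord_val] at t1
  have h4 : t ∈ X.O E.1 := ge_zero_iff.1 (Or.inr (by omega))
  have h5 := ord_nonneg (E := E) (h3 t h4 ((ge_one_iff h4).1 (Or.inr t1.ge)))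
  have h6 := ord_pos (E := E) h0 h1 h2
  rw [ord_div t0 h0] at h5
  omega

theorem dvd_of_ker (M : T.Mod0 K) {ρ : T.Ray} (h : T.fr M.f ρ ≠ 0) {k : ℤ} {G : T.R}
    (hG : Lo (T.v ρ) k G) (h0 : M.ψ G = 0) : T.fr M.f ρ ∣ inn (T.v ρ) k G := by
  obtain ⟨Q, rfl⟩ := (M.ker G).1 h0
  obtain ⟨j, rfl⟩ : ∃ j, k = -1 + j := ⟨k + 1, by ring⟩
  exact ⟨_, inn_mul (M.gen.lo ρ) ((M.gen.lo ρ).cancel (inn_ne_zero.1 h) hG)⟩

theorem key (M : T.Mod0 K) {ρ : T.Ray} (h : T.fr M.f ρ ≠ 0) {m s : T.M} (hm : T.V m)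
    (hρ : ρ ∈ T.F m) (hs : ∀ σ ∈ T.F m, s ⬝ᵥ T.v σ = if σ = ρ then 1 else 0) {G : T.R}
    (hG : G ∈ T.S 0 (T.F m)) : (∃ b ∈ M.B (T.F m), b * M.χ s = M.ψ G) ↔
      T.fr M.f ρ ∣ inn (T.v ρ) 0 G := by
  have h0 : ∀ {H : T.R}, H ∈ T.S 0 (T.F m) → Lo (T.v ρ) 0 H := fun hH => hH ρ hρ
  constructor
  · rintro ⟨_, ⟨H, hH, rfl⟩, e⟩
    have h1 : Lo (T.v ρ) (0 + 1) (H * mn s) :=
      Lo.mul (h0 hH) (sup_mn.2 (by rw [hs ρ hρ, if_pos rfl]))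
    have := dvd_of_ker M h (Sup.sub (h0 hG) (h1.le (by omega))) (by
      rw [map_sub, map_mul, ← e]; exact sub_self _)
    rwa [inn, part_sub, show part _ (H * mn s) = 0 from h1.inn_eq_zero, sub_zero] at this
  · rintro ⟨Q, hQ⟩
    have h1 : ∀ σ ∈ T.F m, Lo (T.v σ) 1 Q := fun σ hσ =>
      Lo.cancel (G := T.fr M.f ρ) (a := -1) (Sup.part (M.gen.lo σ)) ⟨m, by
        rw [coeff_part, if_pos (mem_F.1 hρ)]; exact M.gen.ne hm.1, mem_F.1 hσ⟩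
        (hQ ▸ Sup.part (hG σ hσ))
    have h2 : Hom (T.v ρ) 1 Q := Hom.cancel (G := T.fr M.f ρ) (a := -1) sup_part h (hQ ▸ sup_part)
    have h3 : ∀ σ ∈ T.F m, Lo (T.v σ) 0 (G - M.f * Q) := fun σ hσ =>
      Sup.sub (hG σ hσ) (Lo.mul (M.gen.lo σ) (h1 σ hσ))
    have h4 : inn (T.v ρ) 0 (G - M.f * Q) = 0 := by
      have := inn_mul (M.gen.lo ρ) h2.lo
      rw [show inn (T.v ρ) 1 Q = Q from part_of_sup h2] at this
      rw [inn, part_sub, sub_eq_zero]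
      exact hQ.trans this.symm
    refine ⟨_, ⟨(G - M.f * Q) * mn (-s), fun σ hσ => ?_, rfl⟩, ?_⟩
    · by_cases e : σ = ρ
      · subst e
        exact Lo.mul ((h3 σ hσ).succ fun h5 => inn_ne_zero.2 h5 h4) (b := -1)
          (sup_mn.2 (by rw [neg_dotProduct, hs σ hσ, if_pos rfl]))
      · exact Lo.mul (h3 σ hσ) (b := 0) (sup_mn.2 (by rw [neg_dotProduct, hs σ hσ, if_neg e]; rfl))
    · change M.ψ _ * M.ψ _ = _
      rw [← map_mul, mul_assoc, mul_comm (mn _), mn_mul_neg, mul_one, map_sub, map_mul, M.ψ_f,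
        zero_mul, sub_zero]

end TP1B

theorem st_TP1 (h0 : St_C0) (hI : St_IRR) (hP : St_PTS) : St_TP1 := by
  intro T K _ _ M ρ
  have c0 := h0 T
  have hp := hI T M.f M.gen ρ
  obtain ⟨m, hm, hρ⟩ := c0.ray ρ
  replace hρ := Finset.singleton_subset_iff.1 hρ
  obtain ⟨s, hs⟩ := c0.dual m hm fun σ => if σ = ρ then 1 else 0
  have hmn : ∀ u : T.M, (∀ σ ∈ T.F m, 0 ≤ u ⬝ᵥ T.v σ) → mn u ∈ T.S 0 (T.F m) :=
    fun u hu σ hσ => sup_mn.2 (hu σ hσ)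
  have hπ : M.χ s ∈ M.B (T.F m) := ⟨_, hmn s fun σ hσ => by rw [hs σ hσ]; split_ifs <;> omega, rfl⟩
  let p : Ideal (M.B (T.F m)) := Ideal.span {⟨_, hπ⟩}
  have hq : ∀ G (hG : G ∈ T.S 0 (T.F m)), (⟨M.ψ G, G, hG, rfl⟩ : M.B (T.F m)) ∈ p ↔
      T.fr M.f ρ ∣ inn (T.v ρ) 0 G := fun G hG => by
    rw [← TP1B.key M hp.ne_zero hm hρ hs hG, Ideal.mem_span_singleton']
    exact ⟨fun ⟨b, e⟩ => ⟨b, b.2, congrArg Subtype.val e⟩,
      fun ⟨b, hb, e⟩ => ⟨⟨b, hb⟩, Subtype.ext e⟩⟩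
  have hu : ∀ u (h : ∀ σ ∈ T.F m, 0 ≤ u ⬝ᵥ T.v σ), u ⬝ᵥ T.v ρ = 0 →
      (⟨M.χ u, _, hmn u h, rfl⟩ : M.B (T.F m)) ∉ p := fun u h e h1 => by
    have := (hq _ (hmn u h)).1 h1
    rw [show inn (T.v ρ) 0 (mn u) = mn u from part_of_sup (sup_mn.2 e)] at this
    exact hp.not_isUnit (isUnit_of_dvd_unit this (isUnit_mn u))
  haveI : p.IsPrime := ⟨fun e => hu 0 (by simp) (by simp) (e ▸ Submodule.mem_top), by
    rintro ⟨_, G, hG, rfl⟩ ⟨_, H, hH, rfl⟩ h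
    have h1 := (hq (G * H) ((T.S0 _).mul_mem hG hH)).1
      (by convert h using 1; exact Subtype.ext (map_mul _ _ _))
    rw [show inn (T.v ρ) 0 (G * H) = _ from inn_mul (a := 0) (b := 0) (hG ρ hρ) (hH ρ hρ)] at h1
    exact (hp.dvd_or_dvd h1).imp (hq G hG).2 (hq H hH).2⟩
  obtain ⟨R, r1, r2, r3⟩ := exists_locP p
  obtain ⟨z, rfl⟩ := (hP T K M).pt _ ⟨m, hm, subset_rfl⟩ R r1 r2
  obtain ⟨E, rfl, e1⟩ := TP1B.pd_of (M.χ_ne s) (r2.1 hπ)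
    (fun h => (r3 ⟨_, hπ⟩).1 h (Ideal.mem_span_singleton_self _)) fun a ha h => by
      obtain ⟨b, b1, b2, b3⟩ := r2.2 a ha
      obtain ⟨c, hc⟩ := Ideal.mem_span_singleton'.1 (of_not_not fun h1 =>
        h (((r3 ⟨_, b3⟩).2 h1).of_mul' (r2.1 b1) ha))
      refine b2.mem_of_mul ?_
      rw [← mul_div_assoc, ← show c * M.χ s = b * a from congrArg Subtype.val hc,
        mul_div_cancel_right₀ _ (M.χ_ne s)]
      exact r2.1 c.2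
  have e0 : ∀ u, (∀ σ ∈ T.F m, 0 ≤ u ⬝ᵥ T.v σ) → u ⬝ᵥ T.v ρ = 0 → M.X.ord (M.χ u) E.1 = 0 :=
    fun u h e => ord_un ((r3 _).2 (hu u h e))
  have e2 : ∀ u, M.X.ord (M.χ u) E.1 = u ⬝ᵥ T.v ρ := fun u => by
    obtain ⟨w, hw⟩ := c0.dual m hm fun σ => if σ = ρ then 0 else |u ⬝ᵥ T.v σ|
    have h1 := e0 w (fun σ hσ => by rw [hw σ hσ]; split_ifs <;> simp) (by rw [hw ρ hρ, if_pos rfl])
    have h2 := e0 (u + (-(u ⬝ᵥ T.v ρ)) • s + w) (fun σ hσ => by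
      rw [add_dotProduct, add_dotProduct, smul_dotProduct, hw σ hσ, hs σ hσ]
      split_ifs with e
      · simp [e]
      · simpa using neg_le_iff_add_nonneg'.1 (neg_le_abs _)) (by
      rw [add_dotProduct, add_dotProduct, smul_dotProduct, hw ρ hρ, hs ρ hρ]; simp)
    rw [M.χ_add, M.χ_add, ord_mul (mul_ne_zero (M.χ_ne _) (M.χ_ne _)) (M.χ_ne _),
      ord_mul (M.χ_ne _) (M.χ_ne _), M.χ_zsmul, ord_zpow, e1, h1] at h2
    omega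
  refine ⟨E, e2, fun k G hG => ?_⟩
  choose a ha using fun σ => exists_lo' G (T.v σ)
  obtain ⟨w, hw⟩ := c0.dual m hm fun σ => if σ = ρ then -k else -a σ
  have w1 : w ⬝ᵥ T.v ρ = -k := by rw [hw ρ hρ, if_pos rfl]
  have h1 : G * mn w ∈ T.S 0 (T.F m) := fun σ hσ => by
    by_cases e : σ = ρ
    · subst e
      exact (Lo.mul hG (sup_mn.2 w1.ge)).le (by simp)
    · exact (Lo.mul (ha σ) (b := -a σ) (sup_mn.2 (by rw [hw σ hσ, if_neg e]))).le (by simp)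
  have h2 : inn (T.v ρ) 0 (G * mn w) = inn (T.v ρ) k G * mn w := by
    rw [inn, part_mul_mn]
    exact congrArg (· * mn w) (part_congr fun u _ => by rw [add_dotProduct]; omega)
  rw [← (isUnit_mn w).dvd_mul_right, ← h2, ← hq _ h1, ← not_not (a := _ ∈ p), ← r3]
  refine Iff.trans ?_ (ge_one_iff (s := M.ψ (G * mn w)) (r2.1 ⟨_, h1, rfl⟩))
  rw [map_mul]
  change _ ↔ _ * M.χ w ∈ _
  by_cases h3 : M.ψ G = 0
  · simp [h3]
  rw [ge_iff h3, ge_iff (mul_ne_zero h3 (M.χ_ne w)), ord_mul h3 (M.χ_ne w), e2]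
  omega

end Pool.Agent.Lib.TF
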