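import Pool.Agent.Lib.TF.Blue

open Set Pool.Agent.Lib.MP_e39d36_ag Pool.Agent.Lib.MP_e39d36_ag.Var Pool.Agent.Lib.DU
  Pool.Agent.Lib.MV
open scoped Classical

noncomputable section

namespace Pool.Agent.Lib.TF

open Fano

namespace TP2B

variable {T : Fano} {K : Type} [Field K] [Algebra ℂ K] (M : T.Mod0 K)

/-- The order of characters as an additive map. -/
def ordχ (E : M.X.PD) : T.M →+ ℤ where
  toFun u := M.X.ord (M.χ u) E.1
  map_zero' := by simp [ord_val]
  map_add' u u' := by rw [M.χ_add, ord_mul (M.χ_ne u) (M.χ_ne u')]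

/-- A chart function whose leading part is divisible by the trace is a multiple of the dual
character. -/
lemma dvd_of_fr {m : T.M} (hm : T.V m) {r : T.Ray} (hr : r ∈ T.F m) {d : T.M}
    (hd : ∀ s ∈ T.F m, d ⬝ᵥ T.v s = (Pi.single r 1 : T.Λ) s) {G : T.R} (hG : G ∈ T.S 0 (T.F m))
    (h : T.fr M.f r ∣ inn (T.v r) 0 G) : ∃ c ∈ M.B (T.F m), M.ψ G = c * M.χ d := by
  obtain ⟨Q, hQ⟩ := h
  have hG0 : ∀ s ∈ T.F m, Lo (T.v s) 0 G := fun s hs => by simpa using hG s hs
  have hQ1 : ∀ s ∈ T.F m, Lo (T.v s) 1 Q := fun s hs => by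
    refine Lo.cancel (a := -1) (G := T.fr M.f r) (Sup.part (M.gen.lo s)) ⟨m, ?_, mem_F.1 hs⟩ ?_
    · rw [coeff_part, if_pos (mem_F.1 hr)]
      exact M.gen.ne hm.1
    · rw [← hQ]
      exact Sup.part (by simpa using hG0 s hs)
  refine ⟨M.ψ ((G - M.f * Q) * mn (-d)), ⟨_, fun s hs => ?_, rfl⟩, ?_⟩
  · have h1 : Lo (T.v s) ((Pi.single r 1 : T.Λ) s) (G - M.f * Q) := by
      by_cases e : s = r
      · subst e
        have e1 : G - M.f * Q = (G - inn (T.v s) 0 G) - (M.f - T.fr M.f s) * Q := by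
          rw [hQ]; ring
        rw [e1, Pi.single_eq_same]
        exact Sup.sub (by simpa using (hG0 s hs).sub_inn)
          (by simpa using Lo.mul (M.gen.lo s).sub_inn (hQ1 s hs))
      · rw [Pi.single_eq_of_ne e]
        exact Sup.sub (hG0 s hs) (by simpa using Lo.mul (M.gen.lo s) (hQ1 s hs))
    have h2 : Lo (T.v s) (-(Pi.single r 1 : T.Λ) s) (mn (-d)) :=
      sup_mn.2 (by rw [neg_dotProduct, hd s hs])
    simpa using Lo.mul h1 h2
  · rw [Mod0.χ, ← map_mul, mul_assoc, mul_comm (mn (-d)), mn_mul_neg, mul_one, map_sub, map_mul,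
      M.ψ_f, zero_mul, sub_zero]

end TP2B

open TP2B in
theorem st_TP2 (h0 : St_C0) : St_TP2 := by
  intro T K _ _ M D hD E
  have C := h0 T
  obtain ⟨m, hm, hL⟩ := M.chart E.1
  choose d hd using fun r : T.Ray => C.dual m hm (Pi.single r 1)
  by_cases h : ∀ r ∈ T.F m, ordχ M E (d r) = 0
  · refine Or.inl fun u => ?_
    have e : u = ∑ r ∈ T.F m, (u ⬝ᵥ T.v r) • d r := by
      refine sub_eq_zero.1 (C.ext m hm _ fun s hs => ?_)
      rw [sub_dotProduct, sum_dotProduct, Finset.sum_eq_single_of_mem s hs]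
      · rw [smul_dotProduct, hd s s hs]; simp
      · intro r _ hrs
        rw [smul_dotProduct, hd r s hs, Pi.single_eq_of_ne hrs.symm, smul_zero]
    change ordχ M E u = 0
    rw [e, map_sum]
    exact Finset.sum_eq_zero fun r hr => by rw [map_zsmul, h r hr, smul_zero]
  · push Not at h
    obtain ⟨r, hr, h⟩ := h
    have hB : M.B (T.F m) ≤ M.X.O (D r).1 := by
      rintro _ ⟨G, hG, rfl⟩
      have h1 : Lo (T.v r) (-1 + 1) G := by simpa using hG r hr
      have h2 := ((hD r).2 (-1) G (h1.le (by omega))).2 (by rw [h1.inn_eq_zero]; exact dvd_zero _)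
      exact ge_zero_iff.1 (by simpa using h2)
    refine Or.inr ⟨r, pd_eq (hL.le hB fun b hb hu => ?_)⟩
    by_contra hn
    have h1 := (ge_one_iff (hB hb)).2 hn
    obtain ⟨G, hG, rfl⟩ := hb
    have h2 := ((hD r).2 0 G (by simpa using hG r hr)).1 (by simpa using h1)
    obtain ⟨c, hc, e⟩ := dvd_of_fr M hm hr (hd r) hG h2
    have h3 : M.χ (d r) ∈ M.B (T.F m) := ⟨mn (d r), fun s hs => sup_mn.2 (by
      rw [hd r s hs, Pi.single_apply]; split_ifs <;> simp), rfl⟩
    have h4 : Un (M.X.O E.1) (c * M.χ (d r)) := e ▸ hu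
    exact h (ord_un (h4.of_mul' (hL.1 hc) (hL.1 h3)))

end Pool.Agent.Lib.TF
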