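import Pool.Agent.Lib.TF.Blue

open Set Pool.Agent.Lib.MV
open scoped Classical

noncomputable section

namespace Pool.Agent.Lib.TF

open Fano

namespace VANB

lemma rk_congr {V : Type} {p p' : Finset V → Prop} {s : Finset V} (h : p s ↔ p' s) :
    rk ℂ p s = rk ℂ p' s := by simp only [rk, h]

lemma rk_mono {V : Type} {p : Finset V → Prop} (h : ∀ s s', s ⊆ s' → p s → p s') :
    Monotone (rk ℂ p) := fun s s' k => by
  unfold rk
  split_ifs with a b
  exacts [le_rfl, absurd (h s s' k a) b, bot_le, le_rfl]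

lemma zero {T : Fano} {τ I : Finset T.Ray} (W : Finset T.Vx) {ρ : T.Ray} (h : ρ ∈ I)
    (h' : T.Face (insert ρ τ)) : Ex W (rk ℂ (T.Nv τ I)) 0 :=
  Ex.zero (if_neg fun k => by simpa using k ρ h h')

end VANB

open VANB in
theorem st_VAN (h0 : St_C0) (hC : St_COC) (hS : St_SEP) : St_VAN := by
  intro T τ I q
  induction hn : (I.filter fun ρ => T.Face (insert ρ τ)).card using Nat.strong_induction_on
    generalizing τ I q with
  | _ n ih =>
  intro hτ hI hq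
  have c0 := h0 T
  by_cases e : ∃ ρ ∈ I, T.Face (insert ρ τ)
  swap
  · obtain ⟨m, hm, k⟩ := hτ
    refine Ex.contract (t := ⟨m, hm⟩) (c0.mem_W.2 k) fun s _ => ?_
    exact le_top.trans_eq (if_pos fun ρ a b => (e ⟨ρ, a, b⟩).elim).symm
  rcases q with _ | q
  · obtain ⟨ρ, a, b⟩ := e
    exact zero _ a b
  obtain ⟨v, v1, v2, v3, s1, s2, s3⟩ := hS T τ I hτ hI e
  obtain ⟨J, hJ⟩ : ∃ J, J = (I.filter fun ρ => T.Face (insert ρ τ)).erase v := ⟨_, rfl⟩
  rw [← hJ] at s1 s2 s3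
  have mJ : ∀ ρ, ρ ∈ J ↔ ρ ≠ v ∧ ρ ∈ I ∧ T.Face (insert ρ τ) := fun ρ => by simp [hJ]
  have lt : ∀ σ : Finset T.Ray, (J.filter fun ρ => T.Face (insert ρ σ)).card < n := fun σ =>
    (Finset.card_filter_le _ _).trans_lt
      (hn ▸ hJ ▸ Finset.card_erase_lt_of_mem (Finset.mem_filter.2 ⟨v1, v3⟩))
  have mono : ∀ {ρ}, T.Face (insert ρ (insert v τ)) → T.Face (insert ρ τ) := fun h =>
    h.mono (Finset.insert_subset_insert _ (Finset.subset_insert _ _))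
  refine Ex.congr (fun s hs => ?_) ((hC T.Vx (T.W τ) q).1 ℂ (T.W (insert v τ)) (rk ℂ (T.Nv τ J))
    (fun m hm => c0.mem_W.2 ((Finset.subset_insert _ _).trans (c0.mem_W.1 hm)))
    (rk_mono fun s s' k a ρ b c => (a ρ b c).imp fun m d => ⟨k d.1, d.2⟩) ?_
    (ih _ (lt τ) τ J _ rfl hτ s1 hq))
  · split_ifs with k
    · refine (if_neg fun a => ?_).symm
      obtain ⟨m, b, c⟩ := a v v1 v3
      exact c (c0.mem_W.1 (k b) (Finset.mem_insert_self _ _))
    · refine rk_congr ⟨fun a ρ b c => ?_, fun a ρ b c => a ρ ((mJ ρ).1 b).2.1 c⟩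
      by_cases d : ρ = v
      · obtain ⟨m, m1, m2⟩ := Finset.not_subset.1 k
        exact ⟨m, m1, fun f => m2 (c0.mem_W.2 (Finset.insert_subset (d ▸ f) (c0.mem_W.1 (hs m1))))⟩
      · exact a ρ ((mJ ρ).2 ⟨d, b, c⟩) c
  · by_cases k : J.Nonempty ∧ T.n < τ.card + 2
    · obtain ⟨⟨ρ, a⟩, b⟩ := k
      obtain rfl : q = 0 := by omega
      exact zero _ a ((mJ ρ).1 a).2.2
    refine Ex.congr (fun s hs => rk_congr ⟨fun a ρ b c => ?_, fun a ρ b c => a ρ b (mono c)⟩)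
      (ih _ (lt _) (insert v τ) J q rfl v3 s2 (by rw [Finset.card_insert_of_notMem v2]; omega))
    rcases s.eq_empty_or_nonempty with rfl | ⟨m, hm⟩
    · obtain ⟨σ, d, f, g⟩ := s3 (not_lt.1 fun l => k ⟨⟨ρ, b⟩, l⟩) ⟨ρ, b⟩
      simpa using a σ ((mJ σ).2 ⟨f, d, mono g⟩) g
    · by_cases d : T.Face (insert ρ (insert v τ))
      · exact a ρ b d
      · exact ⟨m, hm, fun f => d ⟨m.1, m.2, Finset.insert_subset f (c0.mem_W.1 (hs hm))⟩⟩

end Pool.Agent.Lib.TF
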