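import Pool.Agent.Lib.TF.Blue

open Set Pool.Agent.Lib.MP_e39d36_ag Pool.Agent.Lib.MP_e39d36_ag.Var Pool.Agent.Lib.DU
  Pool.Agent.Lib.MV
open scoped Classical

noncomputable section

namespace Pool.Agent.Lib.TF

open Fano

namespace VANZB

variable {T : Fano}

/-- The exponents that occur in a cochain. -/
def PP (τ : Finset T.Ray) (j : ℤ) (u : T.M) (s : Finset T.Vx) : Prop :=
  s ≠ ∅ ∧ (∀ ρ ∈ τ, u ⬝ᵥ T.v ρ = j) ∧ ∀ ρ ∈ T.fc s, j ≤ u ⬝ᵥ T.v ρ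

/-- The coefficient map. -/
def cf (n : ℕ) : La n →+ ((Fin n → ℤ) →₀ ℂ) where
  toFun G := G.coeff
  map_zero' := by simp
  map_add' G H := by simp

lemma mem_fc {s : Finset T.Vx} {ρ : T.Ray} : ρ ∈ T.fc s ↔ ∀ m ∈ s, ρ ∈ T.F m.1 := by
  rw [fc, Finset.mem_filter, and_iff_right (Finset.mem_univ _)]

lemma mono (τ : Finset T.Ray) (j : ℤ) : Monotone (T.Zs τ j) := fun s s' hs G hG =>
  ⟨fun e => hG.1 (Finset.subset_empty.1 (e ▸ hs)), hG.2.1,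
    fun ρ hρ => hG.2.2 ρ (mem_fc.2 fun m hm => mem_fc.1 hρ m (hs hm))⟩

lemma sep (h : T.C0) {τ : Finset T.Ray} (hτ : T.Face τ) {j : ℤ} {u : T.M}
    (hu : ∀ ρ ∈ τ, u ⬝ᵥ T.v ρ = j) : T.Sep τ (Finset.univ.filter fun ρ => u ⬝ᵥ T.v ρ < j) := by
  obtain ⟨a, w, h1, h2⟩ := h.pos τ hτ
  obtain ⟨N, hN0, hN⟩ : ∃ N : ℤ, 0 ≤ N ∧ ∀ ρ, a + w ⬝ᵥ T.v ρ < N :=
    ⟨∑ ρ, |a + w ⬝ᵥ T.v ρ| + 1, by positivity, fun ρ => Int.lt_add_one_iff.2 ((le_abs_self _).trans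
      (Finset.single_le_sum (f := fun ρ => |a + w ⬝ᵥ T.v ρ|) (fun _ _ => abs_nonneg _)
        (Finset.mem_univ ρ)))⟩
  have e : ∀ ρ, N * j - a + (-(N • u) - w) ⬝ᵥ T.v ρ = N * (j - u ⬝ᵥ T.v ρ) - (a + w ⬝ᵥ T.v ρ) :=
    fun ρ => by
      rw [sub_dotProduct, neg_dotProduct, smul_dotProduct, smul_eq_mul]; ring
  refine ⟨N * j - a, -(N • u) - w, fun ρ hρ => ?_, fun ρ hρ => ?_, fun ρ hρ hρ' _ => ?_⟩ <;> rw [e]
  · rw [hu ρ hρ, h1 ρ hρ]; ring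
  · have := (Finset.mem_filter.1 hρ).2
    have := hN ρ
    nlinarith
  · have h3 : ¬u ⬝ᵥ T.v ρ < j := fun h => hρ (Finset.mem_filter.2 ⟨Finset.mem_univ _, h⟩)
    have := h2 ρ hρ'
    nlinarith

lemma iff_nv (h : T.C0) {τ : Finset T.Ray} {j : ℤ} {u : T.M} {s : Finset T.Vx} (hs : s ⊆ T.W τ)
    (hne : s ≠ ∅) : (∀ ρ ∈ T.fc s, j ≤ u ⬝ᵥ T.v ρ) ↔
      T.Nv τ (Finset.univ.filter fun ρ => u ⬝ᵥ T.v ρ < j) s := by
  refine ⟨fun H ρ hρ _ => ?_, fun H ρ hρ => ?_⟩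
  · by_contra hc
    push Not at hc
    exact (H ρ (mem_fc.2 hc)).not_gt (Finset.mem_filter.1 hρ).2
  · by_contra hc
    obtain ⟨m, hm⟩ := Finset.nonempty_iff_ne_empty.2 hne
    obtain ⟨m', h1, h2⟩ := H ρ (Finset.mem_filter.2 ⟨Finset.mem_univ _, not_le.1 hc⟩)
      ⟨m.1, m.2, Finset.insert_subset (mem_fc.1 hρ m hm) (h.mem_W.1 (hs hm))⟩
    exact h2 (mem_fc.1 hρ m' h1)

lemma rk_congr {V : Type} {p p' : Finset V → Prop} {s : Finset V} (h : p s ↔ p' s) :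
    rk ℂ p s = rk ℂ p' s := by
  unfold rk
  rw [propext h]

end VANZB

open VANZB in
theorem st_VANZ (h0 : St_C0) (hC : St_COC) (hV : St_VAN) : St_VANZ := by
  intro T τ j q hτ hq hn
  have h := h0 T
  obtain ⟨-, c2, c3⟩ := hC T.Vx (T.W τ) q
  refine (Ex.map (N := supp ℂ (PP τ j)) (cf T.n) (mono τ j)
    (fun s x _ e => La.ext fun u => by simpa [cf] using DFunLike.congr_fun e u)
    (fun s x hx u hu => ?_) fun s y hy => ?_).2 (c2 _ _ fun u => ?_)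
  · by_contra hc
    exact hu ⟨fun e => hc (by rw [hx.1 e, map_zero]; rfl), fun ρ hρ => hx.2.1 ρ hρ u hc,
      fun ρ hρ => hx.2.2 ρ hρ u hc⟩
  · have hy' : ∀ u, y u ≠ 0 → PP τ j u s := fun u hu => not_not.1 fun h => hu (hy u h)
    exact ⟨.ofCoeff y, ⟨fun e => La.ext fun u => not_not.1 fun hc => (hy' u hc).1 e,
      fun ρ hρ u hu => (hy' u hu).2.1 ρ hρ, fun ρ hρ u hu => (hy' u hu).2.2 ρ hρ⟩, rfl⟩
  by_cases hu : ∀ ρ ∈ τ, u ⬝ᵥ T.v ρ = j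
  swap
  · exact Ex.of_bot fun s _ _ => if_neg fun hp => hu hp.2.1
  by_cases hI : ∃ ρ ∈ Finset.univ.filter fun ρ => u ⬝ᵥ T.v ρ < j, T.Face (insert ρ τ)
  · refine Ex.congr (fun s hs => rk_congr ?_) (hV T τ _ q hτ (sep h hτ hu) hn)
    by_cases hne : s = ∅
    · obtain ⟨ρ, h1, h2⟩ := hI
      refine iff_of_false (fun H => ?_) fun H => H.1 hne
      obtain ⟨m, hm, -⟩ := H ρ h1 h2
      simp [hne] at hm
    · exact (iff_nv h hs hne).symm.trans ⟨fun H => ⟨hne, hu, H⟩, fun H => H.2.2⟩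
  · obtain ⟨m, hm, hm'⟩ := hτ
    refine Ex.congr (fun s hs => rk_congr ?_) (c3 ⟨⟨m, hm⟩, h.mem_W.2 hm'⟩ hq)
    exact ⟨fun hne => ⟨hne, hu, (iff_nv h hs hne).2 fun ρ h1 h2 => (hI ⟨ρ, h1, h2⟩).elim⟩,
      fun H => H.1⟩

end Pool.Agent.Lib.TF
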