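import Pool.Agent.Lib.TF.LBlue

open Set
open scoped Classical

noncomputable section

namespace Pool.Agent.Lib.TF

open Fano

namespace ZE6B

lemma iter {α : Type} {T1 T : α → α} {H Φ : α → ℤ} {Z : α → Prop} (h1 : ∀ b, Z b → Z (T1 b))
    (h2 : ∀ b, Z b → Z (T b)) (h0 : ∀ b, Z b → 0 ≤ H b) (e1 : ∀ b, H (T1 b) = H b)
    (e2 : ∀ b, Z b → H (T b) = H b + Φ b) (n1 : ∀ b, Z b → Φ (T1 b) = -Φ b)
    (n2 : ∀ b, Z b → Φ (T b) = -Φ b) (a : α) (ha : Z a) : Φ a = 0 := by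
  have key : ∀ a, Z a → 0 ≤ Φ a := by
    intro a ha
    by_contra hn
    have k : ∀ n : ℕ, ∃ b, Z b ∧ Φ b = Φ a ∧ H b = H a + n * Φ a := by
      intro n
      induction n with
      | zero => exact ⟨a, ha, rfl, by simp⟩
      | succ n ih =>
        obtain ⟨b, b1, b2, b3⟩ := ih
        refine ⟨T1 (T b), h1 _ (h2 _ b1), by rw [n1 _ (h2 _ b1), n2 _ b1, neg_neg, b2], ?_⟩
        rw [e1, e2 _ b1, b2, b3]
        push_cast
        ring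
    obtain ⟨b, b1, -, b3⟩ := k ((H a).toNat + 1)
    have := h0 b b1
    have h3 : H a ≤ (H a).toNat := Int.self_le_toNat _
    push_cast at b3
    nlinarith [Int.natCast_nonneg (H a).toNat]
  have k1 := key a ha
  have k2 := key _ (h1 a ha)
  rw [n1 a ha] at k2
  omega

variable {T : Fano}

lemma edge (h0 : T.C0) (h1 : T.C1) {x z y : T.Ray} (h : T.Tri x z y) :
    ∃ m, T.P m ∧ m ⬝ᵥ T.v x = -1 ∧ m ⬝ᵥ T.v z = 0 := by
  have hz : z ∉ ({y} : Finset T.Ray) := fun e => by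
    rw [Finset.mem_singleton.1 e] at h
    exact T.ne x (add_eq_right.1 h)
  obtain ⟨m, hm, hs⟩ := h1.swap x z y h {y} (h0.ray y) (Finset.mem_singleton_self y) hz
  have a := mem_F.1 (hs (Finset.mem_insert_self _ _))
  have b := mem_F.1 (hs (Finset.mem_insert_of_mem (Finset.mem_singleton_self y)))
  have c := h.dot m
  exact ⟨m, hm.1, a, by omega⟩

lemma split (h1 : T.C1) (S : T.Pent) {v6 : T.Ray} (h6 : T.Opp S.v2 v6) {A : Type}
    [AddCommMonoid A] (F : T.Ray → A) : ∑ ρ, F ρ = F S.v1 + F S.v2 + F S.v3 + F S.v4 + F S.v5 +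
      F v6 + ∑ ρ with ¬T.InV S.v1 S.v3 ρ, F ρ := by
  obtain ⟨u, u1, u3⟩ := h1.dual _ _ _ S.tri 1 3
  have u2 := S.tri.dot u
  have u4 := S.o1.dot u
  have u5 := S.o3.dot u
  have u6 := h6.dot u
  have ne : ∀ {x y : T.Ray}, u ⬝ᵥ T.v x ≠ u ⬝ᵥ T.v y → x ≠ y := fun h e => h (by rw [e])
  have e : (Finset.univ.filter fun ρ => T.InV S.v1 S.v3 ρ) = {S.v1, S.v2, S.v3, S.v4, S.v5, v6} := by
    ext ρ
    simp only [Finset.mem_filter, Finset.mem_univ, true_and, Finset.mem_insert,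
      Finset.mem_singleton]
    constructor
    · intro h
      rcases h1.inv _ _ _ S.tri ρ h with h | h | h | h | h | h
      · simp [h]
      · simp [h]
      · simp [h]
      · simp [h.uniq S.o1]
      · simp [h.uniq h6]
      · simp [h.uniq S.o3]
    · have t : T.v S.v2 = T.v S.v1 + T.v S.v3 := Eq.symm S.tri
      rintro (rfl | rfl | rfl | rfl | rfl | rfl)
      · exact ⟨1, 0, by simp⟩
      · exact ⟨1, 1, by simp [t]⟩
      · exact ⟨0, 1, by simp⟩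
      · exact ⟨-1, 0, by simpa using eq_neg_of_add_eq_zero_right S.o1⟩
      · exact ⟨0, -1, by simpa using eq_neg_of_add_eq_zero_right S.o3⟩
      · exact ⟨-1, -1, by rw [eq_neg_of_add_eq_zero_right h6, t]; simp [add_comm]⟩
  rw [← Finset.sum_filter_add_sum_filter_not Finset.univ fun ρ => T.InV S.v1 S.v3 ρ, e,
    Finset.sum_insert, Finset.sum_insert, Finset.sum_insert, Finset.sum_insert,
    Finset.sum_pair (ne (by omega))]
  · simp only [add_assoc]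
  all_goals
    simp only [Finset.mem_insert, Finset.mem_singleton, not_or]
    repeat (first | exact ne (by omega) | refine ⟨ne (by omega), ?_⟩)

lemma weights (h0 : T.C0) (h1 : T.C1) (S : T.Pent) : ∃ (h : T.Λ) (j : ℤ), (∀ ρ, 0 ≤ h ρ) ∧
    h S.v1 = 0 ∧ h S.v4 = 0 ∧ ∑ ρ, h ρ • T.v ρ = j • T.v S.v1 ∧
      0 < ∑ ρ with ¬T.InV S.v1 S.v3 ρ, h ρ := by
  obtain ⟨-, -, c, c0, -, hc⟩ := h0.cov (-∑ ρ, T.v ρ)
  obtain ⟨u, u1, -⟩ := h1.dual _ _ _ S.tri 1 0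
  have u4 := S.o1.dot u
  have n : S.v1 ≠ S.v4 := fun e => by rw [← e] at u4; omega
  have e4 : T.v S.v4 = -T.v S.v1 := eq_neg_of_add_eq_zero_right S.o1
  have p : ∀ ρ, 0 ≤ 1 + c ρ - (if ρ = S.v1 then 1 + c S.v1 else 0) -
      (if ρ = S.v4 then 1 + c S.v4 else 0) := fun ρ => by
    have := c0 ρ
    split_ifs with a b b
    · exact (n (a.symm.trans b)).elim
    · rw [a]; omega
    · rw [b]; omega
    · omega
  refine ⟨fun ρ => 1 + c ρ - (if ρ = S.v1 then 1 + c S.v1 else 0) -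
    (if ρ = S.v4 then 1 + c S.v4 else 0), c S.v4 - c S.v1, p, by simp [n], by simp [n.symm], ?_, ?_⟩
  · simp only [sub_smul, add_smul, one_smul, Finset.sum_sub_distrib, Finset.sum_add_distrib,
      ite_smul, zero_smul, Finset.sum_ite_eq', Finset.mem_univ, if_true, ← hc, e4, smul_neg]
    abel
  · obtain ⟨ρ, hρ⟩ := h1.out S.v1 S.v3
    refine Finset.sum_pos' (fun σ _ => p σ) ⟨ρ, Finset.mem_filter.2 ⟨Finset.mem_univ _, hρ⟩, ?_⟩
    have := c0 ρ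
    rw [if_neg, if_neg]
    · omega
    · rintro rfl
      exact hρ ⟨-1, 0, by simp [e4]⟩
    · rintro rfl
      exact hρ ⟨1, 0, by simp⟩

lemma fin {A B S g1 g2 g3 l : ℤ} (hS : 0 < S) (a1 : A ≤ S) (a2 : -S ≤ A) (b1 : B ≤ S)
    (b2 : -S ≤ B) (c1 : A - B ≤ S) (c2 : -S ≤ A - B) (d : g1 + g2 + g3 = 0)
    (e2 : -2 * A * l + 2 * S * (g2 - g1) = 0) (e3 : -2 * A * l + 2 * B * l + 2 * S * (g3 - g1) = 0)
    (e4 : -A * (4 * l - 2 * g1) + B * (2 * g3 + 2 * l) + S * (4 * l - 6 * g1) = 0) :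
    g1 = 0 ∧ g3 = 0 ∧ l = 0 := by
  have k : l * (2 * (6 * S ^ 2 - 2 * (A ^ 2 - A * B + B ^ 2))) = 0 := by
    obtain rfl : g2 = -g1 - g3 := by omega
    linear_combination 3 * S * e4 + (A + B - 3 * S) * e2 + (A - 2 * B - 3 * S) * e3
  have p : 0 < 2 * (6 * S ^ 2 - 2 * (A ^ 2 - A * B + B ^ 2)) := by
    nlinarith [mul_nonneg (sub_nonneg.2 a1) (sub_nonneg.2 a2),
      mul_nonneg (sub_nonneg.2 b1) (sub_nonneg.2 b2),
      mul_nonneg (sub_nonneg.2 c1) (sub_nonneg.2 c2), mul_pos hS hS]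
  obtain rfl : l = 0 := (mul_eq_zero.1 k).resolve_right p.ne'
  have k2 : S * (g2 - g1) = 0 := by linarith
  have k3 : S * (g3 - g1) = 0 := by linarith
  have := (mul_eq_zero.1 k2).resolve_left hS.ne'
  have := (mul_eq_zero.1 k3).resolve_left hS.ne'
  omega

end ZE6B

open ZE6B in
theorem st_ZE6 (hC0 : St_C0) (hC1 : St_C1) (hP : St_PL6) : St_ZE6 := by
  intro T E hE S v6 h6 a ha
  have h0 := hC0 T
  have h1 := hC1 T
  have t2 : T.Tri S.v2 S.v4 S.v3 := S.tri.symm.opp S.o1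
  have t3 : T.Tri S.v2 S.v5 S.v1 := S.tri.opp S.o3
  have t4 : T.Tri S.v1 v6 S.v5 := t3.symm.opp h6
  have t5 : T.Tri S.v5 S.v4 v6 := t4.symm.opp S.o1
  have P1 := hP T S v6 h6 ℤ
  have P2 := hP T ⟨S.v2, S.v3, S.v4, v6, S.v1, t2, h6, S.o1.symm⟩ S.v5 S.o3 ℤ
  have P3 := hP T ⟨S.v3, S.v2, S.v1, S.v5, S.v4, S.tri.symm, S.o3, S.o1⟩ v6 h6 ℤ
  have i2 : ∀ ρ, ¬T.InV S.v1 S.v3 ρ → ¬T.InV S.v2 S.v4 ρ := fun ρ h ⟨i, j, e⟩ =>
    h ⟨i - j, i, by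
      rw [e, ← show T.v S.v1 + T.v S.v3 = T.v S.v2 from S.tri, eq_neg_of_add_eq_zero_right S.o1]
      module⟩
  have i3 : ∀ ρ, ¬T.InV S.v1 S.v3 ρ → ¬T.InV S.v3 S.v1 ρ := fun ρ h ⟨i, j, e⟩ =>
    h ⟨j, i, e.trans (add_comm _ _)⟩
  refine ⟨?_, fun hd => ?_⟩
  · obtain ⟨u, u1, u3⟩ := h1.dual _ _ _ S.tri 1 3
    have u4 := S.o1.dot u
    have u5 := S.o3.dot u
    have ne : ∀ {x y : T.Ray}, u ⬝ᵥ T.v x ≠ u ⬝ᵥ T.v y → x ≠ y := fun h e => h (by rw [e])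
    have := hE.norm a ha _ _ S.o1 (Pi.single S.v3 1 + Pi.single S.v5 1) 0
      (fun ρ => by simp only [Pi.add_apply, Pi.single_apply]; split_ifs <;> omega)
      (by rw [Pi.add_apply, Pi.single_eq_of_ne (ne (by omega)), Pi.single_eq_of_ne (ne (by omega)),
        add_zero])
      (by rw [Pi.add_apply, Pi.single_eq_of_ne (ne (by omega)), Pi.single_eq_of_ne (ne (by omega)),
        add_zero])
      (by
        simp only [Pi.add_apply, add_smul, Finset.sum_add_distrib, Pi.single_apply, ite_smul,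
          one_smul, zero_smul, Finset.sum_ite_eq', Finset.mem_univ, if_true]
        exact S.o3)
    rw [add_dotProduct, single_dotProduct, single_dotProduct, Pi.add_apply, Pi.add_apply,
      (P1 a).p3, (P1 a).p5] at this
    omega
  obtain ⟨h, j, hp, z1, z4, hs, s0⟩ := weights h0 h1 S
  set s := ∑ ρ with ¬T.InV S.v1 S.v3 ρ, h ρ with hs'
  have pair : ∀ m, T.P m → h S.v2 * (m ⬝ᵥ T.v S.v1 + m ⬝ᵥ T.v S.v3) + h S.v3 * m ⬝ᵥ T.v S.v3 -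
      h S.v5 * m ⬝ᵥ T.v S.v3 - h v6 * (m ⬝ᵥ T.v S.v1 + m ⬝ᵥ T.v S.v3) - s ≤
        j * m ⬝ᵥ T.v S.v1 := by
    intro m hm
    have e := congrArg (m ⬝ᵥ ·) hs
    simp only [dotProduct_sum, dotProduct_smul, smul_eq_mul] at e
    rw [split h1 S h6, z1, z4, h6.dot, S.o3.dot, S.tri.dot] at e
    have k : ∑ ρ with ¬T.InV S.v1 S.v3 ρ, h ρ * (-1) ≤
        ∑ ρ with ¬T.InV S.v1 S.v3 ρ, h ρ * m ⬝ᵥ T.v ρ :=
      Finset.sum_le_sum fun ρ _ => mul_le_mul_of_nonneg_left (hm ρ) (hp ρ)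
    rw [← Finset.sum_mul, ← hs'] at k
    linarith
  have HF : ∀ b : T.Λ, h ⬝ᵥ (b + T.Tp ℤ S.v1 S.v4 b) - j * (b + T.Tp ℤ S.v1 S.v4 b) S.v1 =
      h S.v2 * (b S.v2 + b S.v1 + b S.v3) + h S.v3 * (b S.v3 + b S.v2 + b S.v4) +
      h S.v5 * (b S.v5 + b S.v1 + b v6) + h v6 * (b v6 + b S.v4 + b S.v5) +
      2 * (∑ ρ with ¬T.InV S.v1 S.v3 ρ, h ρ * b ρ) + s * (b S.v1 + b S.v4) -
      j * (b S.v1 - b S.v4) := by
    intro b
    have k : ∑ ρ with ¬T.InV S.v1 S.v3 ρ, h ρ * (b + T.Tp ℤ S.v1 S.v4 b) ρ =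
        2 * (∑ ρ with ¬T.InV S.v1 S.v3 ρ, h ρ * b ρ) + s * (b S.v1 + b S.v4) := by
      rw [hs', Finset.mul_sum, Finset.sum_mul, ← Finset.sum_add_distrib]
      refine Finset.sum_congr rfl fun ρ hρ => ?_
      rw [Pi.add_apply, (P1 b).po ρ (Finset.mem_filter.1 hρ).2]
      ring
    rw [dotProduct, split h1 S h6, k, z1, z4]
    simp only [Pi.add_apply, (P1 b).p1, (P1 b).p2, (P1 b).p3, (P1 b).p5, (P1 b).p6]
    ring
  have OF : ∀ (b b' : T.Λ) (c : ℤ), (∀ ρ, ¬T.InV S.v1 S.v3 ρ → b' ρ = b ρ + c) →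
      ∑ ρ with ¬T.InV S.v1 S.v3 ρ, h ρ * b' ρ =
        ∑ ρ with ¬T.InV S.v1 S.v3 ρ, h ρ * b ρ + s * c := by
    intro b b' c e
    rw [hs', Finset.sum_mul, ← Finset.sum_add_distrib]
    refine Finset.sum_congr rfl fun ρ hρ => ?_
    rw [e ρ (Finset.mem_filter.1 hρ).2, mul_add]
  have main : ∀ (g : T.Gn) (x y z w : ℤ), (∀ b : T.Λ,
      b S.v1 + b S.v2 + b S.v3 + b S.v4 + b S.v5 + b v6 = 0 →
        T.act ℤ g b S.v1 + T.act ℤ g b S.v4 = -(b S.v1 + b S.v4) ∧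
        T.act ℤ g b S.v2 + T.act ℤ g b v6 = -(b S.v2 + b v6) ∧
        T.act ℤ g b S.v3 + T.act ℤ g b S.v5 = -(b S.v3 + b S.v5) ∧
        T.act ℤ g b S.v2 + T.act ℤ g b S.v4 + T.act ℤ g b S.v5 = -(b S.v2 + b S.v4 + b S.v5) ∧
        h ⬝ᵥ (T.act ℤ g b + T.Tp ℤ S.v1 S.v4 (T.act ℤ g b)) -
          j * (T.act ℤ g b + T.Tp ℤ S.v1 S.v4 (T.act ℤ g b)) S.v1 =
        h ⬝ᵥ (b + T.Tp ℤ S.v1 S.v4 b) - j * (b + T.Tp ℤ S.v1 S.v4 b) S.v1 +
          (x * (b S.v1 + b S.v4) + y * (b S.v2 + b v6) + z * (b S.v3 + b S.v5) +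
            w * (b S.v2 + b S.v4 + b S.v5))) →
      x * (a S.v1 + a S.v4) + y * (a S.v2 + a v6) + z * (a S.v3 + a S.v5) +
        w * (a S.v2 + a S.v4 + a S.v5) = 0 := by
    intro g x y z w hg
    refine iter (T1 := T.Tp ℤ S.v1 S.v4) (T := T.act ℤ g)
      (H := fun b => h ⬝ᵥ (b + T.Tp ℤ S.v1 S.v4 b) - j * (b + T.Tp ℤ S.v1 S.v4 b) S.v1)
      (Φ := fun b => x * (b S.v1 + b S.v4) + y * (b S.v2 + b v6) + z * (b S.v3 + b S.v5) +
        w * (b S.v2 + b S.v4 + b S.v5))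
      (Z := fun b => b ∈ E ∧ b S.v1 + b S.v2 + b S.v3 + b S.v4 + b S.v5 + b v6 = 0)
      (fun b hb => ⟨hE.act (.p _ _ S.o1) b hb.1, ?_⟩) (fun b hb => ⟨hE.act g b hb.1, ?_⟩)
      (fun b hb => hE.norm b hb.1 _ _ S.o1 h j hp z1 z4 hs) (fun b => ?_)
      (fun b hb => (hg b hb.2).2.2.2.2) (fun b hb => ?_) (fun b hb => ?_) a ⟨ha, hd⟩
    · rw [(P1 b).p1, (P1 b).p2, (P1 b).p3, (P1 b).p4, (P1 b).p5, (P1 b).p6]
      linarith [hb.2]
    · obtain ⟨k1, k2, k3, -⟩ := hg b hb.2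
      linarith [hb.2]
    · simp only [HF]
      rw [OF b _ (b S.v1 + b S.v4) fun ρ hρ => by rw [(P1 b).po ρ hρ, add_assoc],
        (P1 b).p1, (P1 b).p2, (P1 b).p3, (P1 b).p4, (P1 b).p5, (P1 b).p6]
      ring
    · rw [(P1 b).p1, (P1 b).p2, (P1 b).p3, (P1 b).p4, (P1 b).p5, (P1 b).p6]
      linear_combination (y + z + w) * hb.2
    · obtain ⟨k1, k2, k3, k4, -⟩ := hg b hb.2
      rw [k1, k2, k3, k4]
      ring
  have E2 := main (.p _ _ h6) (-2 * s) (2 * s) 0 (-2 * (j - h S.v2 + h v6)) fun b hb => by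
    have Q := P2 b
    simp only [act, HF]
    rw [OF b _ (b S.v2 + b v6) fun ρ hρ => by rw [Q.po ρ (i2 ρ hρ), add_assoc],
      Q.p1, Q.p2, Q.p3, Q.p4, Q.p5, Q.p6]
    dsimp only
    rw [show b v6 = -(b S.v1 + b S.v2 + b S.v3 + b S.v4 + b S.v5) by linarith]
    refine ⟨?_, ?_, ?_, ?_, ?_⟩ <;> ring
  have E3 := main (.p _ _ S.o3) (-2 * s) 0 (2 * s)
      (-2 * (j - h S.v2 + h v6) + 2 * (h S.v5 - h S.v3 - h S.v2 + h v6)) fun b hb => by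
    have Q := P3 b
    simp only [act, HF]
    rw [OF b _ (b S.v3 + b S.v5) fun ρ hρ => by rw [Q.po ρ (i3 ρ hρ), add_assoc],
      Q.p1, Q.p2, Q.p3, Q.p4, Q.p5, Q.p6]
    dsimp only
    rw [show b v6 = -(b S.v1 + b S.v2 + b S.v3 + b S.v4 + b S.v5) by linarith]
    refine ⟨?_, ?_, ?_, ?_, ?_⟩ <;> ring
  have E4 := main (.q _ _ _ _ t3 S.o1) (2 * (j - h S.v2 + h v6) - 6 * s) 0
      (2 * (h S.v5 - h S.v3 - h S.v2 + h v6))
      (-4 * (j - h S.v2 + h v6) + 2 * (h S.v5 - h S.v3 - h S.v2 + h v6) + 4 * s) fun b hb => by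
    have Q := P1 b
    simp only [act, HF]
    rw [OF b _ _ Q.qo, Q.q1, Q.q2, Q.q3, Q.q4, Q.q5, Q.q6,
      show b v6 = -(b S.v1 + b S.v2 + b S.v3 + b S.v4 + b S.v5) by linarith]
    refine ⟨?_, ?_, ?_, ?_, ?_⟩ <;> ring
  obtain ⟨m1, p1, a1, b1⟩ := edge h0 h1 S.tri
  obtain ⟨m2, p2, a2, b2⟩ := edge h0 h1 S.tri.symm
  obtain ⟨m3, p3, a3, b3⟩ := edge h0 h1 t2.symm
  obtain ⟨m4, p4, a4, b4⟩ := edge h0 h1 t5.symm
  obtain ⟨m5, p5, a5, b5⟩ := edge h0 h1 t5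
  obtain ⟨m6, p6, a6, b6⟩ := edge h0 h1 t4
  have c1 := pair m1 p1
  have c2 := pair m2 p2
  have c3 := pair m3 p3
  have c4 := pair m4 p4
  have c5 := pair m5 p5
  have c6 := pair m6 p6
  rw [S.o1.dot] at a3 a4 b5
  rw [S.o3.dot] at b4 a5
  rw [h6.dot] at b6
  rw [S.tri.dot] at b3 b6
  rw [a1, b1] at c1
  rw [a2, b2] at c2
  rw [show m3 ⬝ᵥ T.v S.v1 = 1 by omega, show m3 ⬝ᵥ T.v S.v3 = -1 by omega] at c3
  rw [show m4 ⬝ᵥ T.v S.v1 = 1 by omega, show m4 ⬝ᵥ T.v S.v3 = 0 by omega] at c4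
  rw [show m5 ⬝ᵥ T.v S.v1 = 0 by omega, show m5 ⬝ᵥ T.v S.v3 = 1 by omega] at c5
  rw [a6, show m6 ⬝ᵥ T.v S.v3 = 1 by omega] at c6
  exact fin (A := j - h S.v2 + h v6) (B := h S.v5 - h S.v3 - h S.v2 + h v6)
    (g2 := a S.v2 + a v6) s0 (by omega) (by omega) (by omega) (by omega) (by omega) (by omega)
    (by omega) (by linear_combination E2) (by linear_combination E3) (by linear_combination E4)

end Pool.Agent.Lib.TF
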