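import Pool.Agent.Lib.TF.LBlue

/-! Effective classes of fibre degree zero on a pentagon. -/

open Set
open scoped Classical

noncomputable section

namespace Pool.Agent.Lib.TF

open Fano

namespace ZE7B

theorem drift {X : Type} (P : X → Prop) (H : X → ℤ) (F : X → X) (c : ℤ)
    (h : ∀ a, P a → P (F a) ∧ H (F a) = H a + c) (h0 : ∀ a, P a → 0 ≤ H a) (a : X) (ha : P a) :
    0 ≤ c := by
  have key : ∀ N : ℕ, P (F^[N] a) ∧ H (F^[N] a) = H a + N * c := by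
    intro N
    induction N with
    | zero => exact ⟨ha, by simp⟩
    | succ N ih =>
      rw [Function.iterate_succ_apply']
      refine ⟨(h _ ih.1).1, ?_⟩
      rw [(h _ ih.1).2, ih.2]
      push_cast
      ring
  by_contra hc
  have h1 := key ((H a).toNat + 1)
  have h2 := h0 _ h1.1
  have h3 : ((H a).toNat : ℤ) = H a := Int.toNat_of_nonneg (h0 a ha)
  rw [h1.2] at h2
  push_cast at h2
  rw [h3] at h2
  have h4 := h0 a ha
  nlinarith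

theorem fin {S A B x y : ℤ} (hS : 0 < S) (h1 : A ≤ S) (h2 : B ≤ S) (h3 : A - B ≤ S)
    (h4 : B - A ≤ S) (e1 : x * (S - A + B) = y * (S + A - B))
    (e2 : x * (5 * S - 3 * A + B) + y * (2 * S - 2 * A) = 0) : x = 0 ∧ y = 0 := by
  have hd : 0 < (S - A + B) * (2 * S - 2 * A) + (S + A - B) * (5 * S - 3 * A + B) := by
    have a1 : 0 ≤ (S - A + B) * (2 * S - 2 * A) := mul_nonneg (by omega) (by omega)
    rcases (show 0 ≤ S + A - B by omega).eq_or_lt with h | h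
    · have a2 : 0 < (S - A + B) * (2 * S - 2 * A) := mul_pos (by omega) (by omega)
      rw [← h, zero_mul]
      omega
    · have a2 : 0 < (S + A - B) * (5 * S - 3 * A + B) := mul_pos h (by omega)
      omega
  constructor
  · refine (mul_eq_zero.1 (?_ : x * _ = 0)).resolve_right hd.ne'
    linear_combination (2 * S - 2 * A) * e1 + (S + A - B) * e2
  · refine (mul_eq_zero.1 (?_ : y * _ = 0)).resolve_right hd.ne'
    linear_combination (S - A + B) * e2 - (5 * S - 3 * A + B) * e1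

variable {T : Fano} (S : T.Pent)

theorem dist (h1 : T.C1) : (S.v1 ≠ S.v2 ∧ S.v1 ≠ S.v3 ∧ S.v1 ≠ S.v4 ∧ S.v1 ≠ S.v5) ∧
    (S.v2 ≠ S.v3 ∧ S.v2 ≠ S.v4 ∧ S.v2 ≠ S.v5) ∧ (S.v3 ≠ S.v4 ∧ S.v3 ≠ S.v5) ∧ S.v4 ≠ S.v5 := by
  obtain ⟨u, u1, u3⟩ := h1.dual _ _ _ S.tri 1 3
  have u2 := S.tri.dot u
  have u4 := S.o1.dot u
  have u5 := S.o3.dot u
  rw [u1, u3] at u2
  rw [u1] at u4
  rw [u3] at u5
  refine ⟨⟨?_, ?_, ?_, ?_⟩, ⟨?_, ?_, ?_⟩, ⟨?_, ?_⟩, ?_⟩ <;> intro e <;>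
    have : u ⬝ᵥ T.v _ = u ⬝ᵥ T.v _ := congrArg (fun ρ => u ⬝ᵥ T.v ρ) e <;> omega

theorem v2_eq : T.v S.v2 = T.v S.v1 + T.v S.v3 := Eq.symm S.tri
theorem v4_eq : T.v S.v4 = -T.v S.v1 := eq_neg_of_add_eq_zero_right S.o1
theorem v5_eq : T.v S.v5 = -T.v S.v3 := eq_neg_of_add_eq_zero_right S.o3

theorem split (h1 : T.C1) (hno : ∀ σ, ¬T.Opp S.v2 σ) {A : Type} [AddCommMonoid A]
    (f : T.Ray → A) : ∑ ρ, f ρ = f S.v1 + f S.v2 + f S.v3 + f S.v4 + f S.v5 +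
      ∑ ρ with ¬T.InV S.v1 S.v3 ρ, f ρ := by
  obtain ⟨⟨a, b, c, d⟩, ⟨e, g, h⟩, ⟨i, j⟩, k⟩ := dist S h1
  have : Finset.univ.filter (T.InV S.v1 S.v3) = {S.v1, S.v2, S.v3, S.v4, S.v5} := by
    ext ρ
    simp only [Finset.mem_filter, Finset.mem_univ, true_and, Finset.mem_insert,
      Finset.mem_singleton]
    constructor
    · intro hρ
      rcases h1.inv _ _ _ S.tri ρ hρ with r | r | r | r | r | r
      · exact .inl r
      · exact .inr (.inr (.inl r))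
      · exact .inr (.inl r)
      · exact .inr (.inr (.inr (.inl (r.uniq S.o1))))
      · exact absurd r (hno ρ)
      · exact .inr (.inr (.inr (.inr (r.uniq S.o3))))
    · rintro (rfl | rfl | rfl | rfl | rfl)
      · exact ⟨1, 0, by simp⟩
      · exact ⟨1, 1, by simp [v2_eq]⟩
      · exact ⟨0, 1, by simp⟩
      · exact ⟨-1, 0, by simp [v4_eq]⟩
      · exact ⟨0, -1, by simp [v5_eq]⟩
  rw [← Finset.sum_filter_add_sum_filter_not Finset.univ (T.InV S.v1 S.v3), this,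
    Finset.sum_insert (by simp [a, b, c, d]), Finset.sum_insert (by simp [e, g, h]),
    Finset.sum_insert (by simp [i, j]), Finset.sum_pair k]
  simp only [add_assoc]

theorem weights (h0 : T.C0) (h1 : T.C1) : ∃ (h : T.Λ) (j : ℤ), (∀ ρ, 0 ≤ h ρ) ∧ h S.v1 = 0 ∧
    h S.v4 = 0 ∧ (∀ ρ, ρ ≠ S.v1 → ρ ≠ S.v4 → 1 ≤ h ρ) ∧ ∑ ρ, h ρ • T.v ρ = j • T.v S.v1 := by
  obtain ⟨m, -, hm, c, c1, c2, c3⟩ := h0.star _ (h0.ray S.v1) (-∑ ρ, T.om S.v1 S.v4 ρ • T.v ρ)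
  have m1 : m ⬝ᵥ T.v S.v1 = -1 := mem_F.1 (hm (Finset.mem_singleton_self _))
  have c4 : c S.v4 = 0 := c1 _ fun h => by
    have := mem_F.1 h
    rw [S.o1.dot, m1] at this
    omega
  have n14 := (dist S h1).1.2.2.1
  have hp : ∀ ρ, ρ ≠ S.v1 → ρ ≠ S.v4 →
      1 ≤ (T.om S.v1 S.v4 + c - Pi.single S.v1 (c S.v1) : T.Λ) ρ := fun ρ a b => by
    have := c2 ρ (by simpa using a)
    simp [om, a, b, this]
  have z1 : (T.om S.v1 S.v4 + c - Pi.single S.v1 (c S.v1) : T.Λ) S.v1 = 0 := by simp [om]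
  have z4 : (T.om S.v1 S.v4 + c - Pi.single S.v1 (c S.v1) : T.Λ) S.v4 = 0 := by
    simp [om, c4, n14.symm]
  refine ⟨T.om S.v1 S.v4 + c - Pi.single S.v1 (c S.v1), -c S.v1, fun ρ => ?_, z1, z4, hp, ?_⟩
  · by_cases a : ρ = S.v1
    · rw [a, z1]
    · by_cases b : ρ = S.v4
      · rw [b, z4]
      · exact zero_le_one.trans (hp ρ a b)
  · simp only [Pi.sub_apply, Pi.add_apply, sub_smul, add_smul, Finset.sum_sub_distrib,
      Finset.sum_add_distrib, ← c3, add_neg_cancel, zero_sub, neg_smul, neg_inj]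
    rw [Finset.sum_eq_single S.v1 (fun ρ _ a => by simp [a]) (by simp), Pi.single_eq_same]

end ZE7B

open ZE7B in
theorem st_ZE7 (hC0 : St_C0) (hC1 : St_C1) (hPL : St_PL7) : St_ZE7 := by
  intro T E hE S hno a ha
  have h0 := hC0 T
  have h1 := hC1 T
  obtain ⟨⟨n12, n13, n14, n15⟩, ⟨n23, n24, n25⟩, ⟨n34, n35⟩, n45⟩ := dist S h1
  have P := hPL T S hno ℤ
  let S' : T.Pent := ⟨S.v3, S.v2, S.v1, S.v5, S.v4, S.tri.symm, S.o3, S.o1⟩
  have P' := hPL T S' hno ℤ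
  have tq : T.Tri S.v2 S.v5 S.v1 := S.tri.opp S.o3
  constructor
  · have := hE.norm a ha _ _ S.o1 (Pi.single S.v3 1 + Pi.single S.v5 1) 0
      (fun ρ => by simp only [Pi.add_apply, Pi.single_apply]; split_ifs <;> omega)
      (by simp [n13, n15]) (by simp [n34.symm, n45]) (by
        simp only [Pi.add_apply, add_smul, Finset.sum_add_distrib, zero_smul]
        rw [Finset.sum_eq_single S.v3 (fun ρ _ a => by simp [a]) (by simp),
          Finset.sum_eq_single S.v5 (fun ρ _ a => by simp [a]) (by simp), Pi.single_eq_same,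
          Pi.single_eq_same, one_smul, one_smul]
        exact S.o3)
    rw [add_dotProduct, single_dotProduct, single_dotProduct, Pi.add_apply, Pi.add_apply,
      (P a).p3, (P a).p5] at this
    omega
  intro hd
  obtain ⟨h, j, hp, z1, z4, hq, hs⟩ := weights S h0 h1
  obtain ⟨s, hs0⟩ : ∃ s, s = ∑ ρ with ¬T.InV S.v1 S.v3 ρ, h ρ := ⟨_, rfl⟩
  obtain ⟨O, hO⟩ : ∃ O : T.Λ → ℤ, ∀ b, O b = ∑ ρ with ¬T.InV S.v1 S.v3 ρ, h ρ * b ρ :=
    ⟨_, fun _ => rfl⟩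
  have shift : ∀ (b b' : T.Λ) (K : ℤ), (∀ ρ, ¬T.InV S.v1 S.v3 ρ → b' ρ = b ρ + K) →
      O b' = O b + s * K := fun b b' K hb => by
    rw [hO, hO, hs0, Finset.sum_mul, ← Finset.sum_add_distrib]
    exact Finset.sum_congr rfl fun ρ hρ => by rw [hb ρ (Finset.mem_filter.1 hρ).2, mul_add]
  have spos : 0 < s := by
    obtain ⟨ρ, hρ⟩ := h1.out S.v1 S.v3
    have := hq ρ (fun e => hρ ⟨1, 0, by simp [e]⟩) (fun e => hρ ⟨-1, 0, by simp [e, v4_eq]⟩)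
    exact hs0 ▸ Finset.sum_pos' (fun ρ _ => hp ρ)
      ⟨ρ, Finset.mem_filter.2 ⟨Finset.mem_univ _, hρ⟩, by omega⟩
  have ineq : ∀ i k : ℤ, 0 ≤ i → 0 ≤ k → 1 ≤ i + k → i + k ≤ 3 → k ≤ 2 →
      -s ≤ (j - h S.v2) * (i + k - 2) + (h S.v5 - h S.v2 - h S.v3) * (1 - k) := by
    intro i k a1 a2 a3 a4 a5
    obtain ⟨u, hu, u2, u5⟩ := h1.cls _ _ _ _ tq S.o1 i k a1 a2 a3 a4
      (fun ⟨σ, e⟩ => absurd e (hno σ)) fun _ => a5
    have u1 := tq.dot u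
    have u3 := S.o3.symm.dot u
    rw [u5] at u3
    rw [u2, u5] at u1
    have e := congrArg (u ⬝ᵥ ·) hs
    simp only [dotProduct_sum, dotProduct_smul, smul_eq_mul] at e
    rw [split S h1 hno, z1, z4, u1, u2, u3, u5] at e
    have l : ∑ ρ with ¬T.InV S.v1 S.v3 ρ, h ρ * (-1) ≤
        ∑ ρ with ¬T.InV S.v1 S.v3 ρ, h ρ * u ⬝ᵥ T.v ρ :=
      Finset.sum_le_sum fun ρ _ => mul_le_mul_of_nonneg_left (hu ρ) (hp ρ)
    rw [← Finset.sum_mul, ← hs0] at l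
    linear_combination l + e
  obtain ⟨H, hH⟩ : ∃ H : T.Λ → ℤ, ∀ b, H b = h S.v2 * (b S.v1 + b S.v2 + b S.v3) +
      h S.v3 * (b S.v2 + b S.v3 + b S.v4) + h S.v5 * (2 * b S.v5 + b S.v1 + b S.v4) + 2 * O b +
        s * (b S.v1 + b S.v4) - j * (b S.v1 - b S.v4) := ⟨_, fun _ => rfl⟩
  have o1 : ∀ b, O (T.Tp ℤ S.v1 S.v4 b) = O b + s * (b S.v1 + b S.v4) := fun b =>
    shift _ _ _ fun ρ hρ => by rw [(P b).po ρ hρ, add_assoc]
  have o3 : ∀ b, O (T.Tp ℤ S.v3 S.v5 b) = O b + s * (b S.v3 + b S.v5) := fun b =>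
    shift _ _ _ fun ρ hρ => ((P' b).po ρ fun ⟨i, k, e⟩ => hρ ⟨k, i, e.trans (add_comm _ _)⟩).trans
      (add_assoc _ _ _)
  have oq : ∀ b, O (T.Tq ℤ S.v2 S.v5 S.v1 S.v4 b) =
      O b + s * (2 * (2 * (b S.v2 + b S.v4 + b S.v5) + (b S.v3 + b S.v5))) := fun b =>
    shift _ _ _ (P b).qo
  have Hp : ∀ b ∈ E, 0 ≤ H b := fun b hb => by
    have := hE.norm b hb _ _ S.o1 h j hp z1 z4 hs
    rw [dotProduct_add, dotProduct, dotProduct, split S h1 hno, split S h1 hno, ← hO, ← hO, o1,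
      z1, z4, Pi.add_apply, (P b).p1, (P b).p2, (P b).p3, (P b).p5] at this
    rw [hH]
    linear_combination this
  let Q : ℤ → ℤ → T.Λ → Prop := fun x y b => b ∈ E ∧ b S.v1 + b S.v4 = x ∧ b S.v3 + b S.v5 = y ∧
    b S.v2 + b S.v4 + b S.v5 = -x - y
  have t1 : ∀ x y b, Q x y b → Q (-x) (-y) (T.Tp ℤ S.v1 S.v4 b) ∧ H (T.Tp ℤ S.v1 S.v4 b) = H b := by
    rintro x y b ⟨hb, e1, e2, e3⟩
    refine ⟨⟨hE.act (.p _ _ S.o1) b hb, ?_, ?_, ?_⟩, ?_⟩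
    · rw [(P b).p1, (P b).p4]; omega
    · rw [(P b).p3, (P b).p5]; omega
    · rw [(P b).p2, (P b).p4, (P b).p5]; omega
    · rw [hH, hH, o1, (P b).p1, (P b).p2, (P b).p3, (P b).p4, (P b).p5]
      ring
  have zero : ∀ (F : T.Λ → T.Λ) (p q : ℤ), (∀ x y b, Q x y b → Q (-x) (-y) (F b) ∧
      H (F b) = H b + (p * x + q * y)) → ∀ x y b, Q x y b → p * x + q * y = 0 := by
    intro F p q hF x y b hb
    have r1 := drift (Q x y) H (fun b => T.Tp ℤ S.v1 S.v4 (F b)) (p * x + q * y) (fun b hb => by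
      have a1 := hF x y b hb
      have a2 := t1 _ _ _ a1.1
      rw [neg_neg, neg_neg] at a2
      exact ⟨a2.1, a2.2.trans a1.2⟩) (fun b hb => Hp b hb.1) b hb
    have r2 := drift (Q x y) H (fun b => F (T.Tp ℤ S.v1 S.v4 b)) (p * -x + q * -y) (fun b hb => by
      have a1 := t1 x y b hb
      have a2 := hF _ _ _ a1.1
      rw [neg_neg, neg_neg, a1.2] at a2
      exact a2) (fun b hb => Hp b hb.1) b hb
    linarith
  have hQ : Q (a S.v1 + a S.v4) (a S.v3 + a S.v5) a := ⟨ha, rfl, rfl, by omega⟩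
  obtain ⟨A, hA⟩ : ∃ A, A = j - h S.v2 := ⟨_, rfl⟩
  obtain ⟨B, hB⟩ : ∃ B, B = h S.v5 - h S.v2 - h S.v3 := ⟨_, rfl⟩
  have e3 := zero (T.Tp ℤ S.v3 S.v5) (2 * (A - B - s)) (2 * (A - B + s)) (by
    rintro x y b ⟨hb, e1, e2, e3⟩
    have p1 : T.Tp ℤ S.v3 S.v5 b S.v3 = -b S.v5 := (P' b).p1
    have p2 : T.Tp ℤ S.v3 S.v5 b S.v2 = b S.v3 + b S.v1 := (P' b).p2
    have p3 : T.Tp ℤ S.v3 S.v5 b S.v1 = b S.v2 + b S.v5 := (P' b).p3
    have p4 : T.Tp ℤ S.v3 S.v5 b S.v5 = -b S.v3 := (P' b).p4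
    have p5 : T.Tp ℤ S.v3 S.v5 b S.v4 = b S.v4 + b S.v3 + b S.v5 := (P' b).p5
    refine ⟨⟨hE.act (.p _ _ S.o3) b hb, by omega, by omega, by omega⟩, ?_⟩
    obtain rfl : x = b S.v1 + b S.v4 := e1.symm
    obtain rfl : y = b S.v3 + b S.v5 := e2.symm
    have e4 : b S.v2 = -(b S.v1 + b S.v3 + 2 * b S.v4 + 2 * b S.v5) := by omega
    rw [hH, hH, o3, p1, p2, p3, p4, p5, hA, hB, e4]
    ring) _ _ a hQ
  have eq := zero (T.Tq ℤ S.v2 S.v5 S.v1 S.v4) (-2 * (5 * s - 3 * A + B)) (-2 * (2 * s - 2 * A)) (by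
    rintro x y b ⟨hb, e1, e2, e3⟩
    have p1 := (P b).q1
    have p2 := (P b).q2
    have p3 := (P b).q3
    have p4 := (P b).q4
    have p5 := (P b).q5
    refine ⟨⟨hE.act (.q _ _ _ _ tq S.o1) b hb, by omega, by omega, by omega⟩, ?_⟩
    obtain rfl : x = b S.v1 + b S.v4 := e1.symm
    obtain rfl : y = b S.v3 + b S.v5 := e2.symm
    have e4 : b S.v2 = -(b S.v1 + b S.v3 + 2 * b S.v4 + 2 * b S.v5) := by omega
    rw [hH, hH, oq, p1, p2, p3, p4, p5, hA, hB, e4]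
    ring) _ _ a hQ
  have i1 := ineq 0 1 (by omega) (by omega) (by omega) (by omega) (by omega)
  have i2 := ineq 0 2 (by omega) (by omega) (by omega) (by omega) (by omega)
  have i3 := ineq 1 2 (by omega) (by omega) (by omega) (by omega) (by omega)
  have i4 := ineq 1 0 (by omega) (by omega) (by omega) (by omega) (by omega)
  refine fin (S := s) (A := A) (B := B) spos (by omega) (by omega) (by omega) (by omega) ?_ ?_
  · linarith
  · linarith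

end Pool.Agent.Lib.TF
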