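import Pool.Agent.Lib.TF.B_HTQ

open Set
open scoped Classical

noncomputable section

namespace Pool.Agent.Lib.TF

open Fano HTQB

namespace H33H

variable {T : Fano}

lemma tri_ne (C : T.C1a) {z z' ρ t : T.Ray} (hz : T.Opp z z') (h : T.Tri ρ z t) :
    ρ ≠ z ∧ ρ ≠ z' := by
  constructor
  · rintro rfl
    exact not_two C (k := 2) (by norm_num) (by norm_num) (by rw [two_smul]; exact Eq.symm h)
  · rintro rfl
    exact T.ne t (Eq.trans (Eq.symm h) hz.symm)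

lemma tpA (C : T.C1a) {z z' ρ t : T.Ray} (hz : T.Opp z z') (h : T.Tri ρ z t) (b : T.Ray → ℝ) :
    T.Tp ℝ z z' b ρ = b t + b z' := by
  rw [Tp_apply, if_neg (not_or.2 (tri_ne C hz h)), sumA h, sum0 fun u hu => not_both C h hu]
  ring

lemma tpB (C : T.C1a) {z z' ρ u : T.Ray} (hz : T.Opp z z') (h : T.Tri u z ρ) (b : T.Ray → ℝ) :
    T.Tp ℝ z z' b ρ = b u + b z := by
  rw [tp_comm hz, tpA C hz.symm (h.opp hz)]

lemma tp_self' (C : T.C1a) {z z' : T.Ray} (hz : T.Opp z z') (a : T.Ray → ℝ) :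
    T.Tp ℝ z z' a z' = -a z := by rw [tp_comm hz, tp_self C]

lemma tp_tp (C : T.C1a) {z z' : T.Ray} (hz : T.Opp z z') (a : T.Ray → ℝ) :
    T.Tp ℝ z z' (T.Tp ℝ z z' a) = a := by
  ext ρ
  by_cases h1 : ρ = z
  · rw [h1, tp_self C, tp_self' C hz, neg_neg]
  by_cases h2 : ρ = z'
  · rw [h2, tp_self' C hz, tp_self C, neg_neg]
  have e1 := tp_self C z z' a
  have e2 := tp_self' C hz a
  rcases mu_cases C h1 h2 (T.Tp ℝ z z' a) with ⟨t, h, e⟩ | ⟨u, h, e⟩ | ⟨hA, hB, e⟩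
  · rw [Pi.add_apply, tpB C hz h a] at e
    linarith
  · rw [Pi.add_apply, tpA C hz h a] at e
    linarith
  · have e3 : T.Tp ℝ z z' a ρ = a ρ + a z + a z' := by
      rw [Tp_apply, if_neg (not_or.2 ⟨h1, h2⟩), sum0 hA, sum0 hB]
      ring
    rw [Pi.add_apply] at e
    linarith

lemma no_pair (R : T.RegN) {z z' w w' t : T.Ray} (hz : T.Opp z z') (hw : T.Opp w w')
    (h : w ≠ z) : ¬T.Tri w z t := fun ht =>
  h ((R t w' z z' w (ht.symm.opp hw) (ht.opp hz) ▸ hw.symm).uniq hz.symm)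

/-- The two parts of the change under another line. -/
def bp (w w' : T.Ray) : T.Ray → ℝ := fun ρ =>
  (if ρ = w ∨ ρ = w' then -1 else 1) - ∑ _u with T.Tri _u w ρ, 1

/-- The part that the balanced height does not see. -/
def cp (w : T.Ray) (a : T.Ray → ℝ) : T.Ray → ℝ := fun ρ =>
  ∑ u with T.Tri u w ρ, (a u + a w - a ρ) - ∑ t with T.Tri ρ w t, (a ρ + a w - a t)

lemma tp_split (w w' : T.Ray) (a : T.Ray → ℝ) :
    T.Tp ℝ w w' a = a + (1 : ℝ) • cp w a + (a w + a w') • bp w w' := by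
  ext ρ
  simp only [Tp_apply, Pi.add_apply, Pi.smul_apply, smul_eq_mul, cp, bp, one_mul, mul_sub,
    Finset.mul_sum]
  have : ∑ x with T.Tri x w ρ, (a w' - a x + a ρ) =
      ∑ x with T.Tri x w ρ, (a w + a w') * 1 - ∑ x with T.Tri x w ρ, (a x + a w - a ρ) := by
    rw [← Finset.sum_sub_distrib]
    exact Finset.sum_congr rfl fun _ _ => by ring
  rw [this]
  ring

lemma cp_zero {w ρ : T.Ray} (h1 : ∀ t, ¬T.Tri ρ w t) (h2 : ∀ u, ¬T.Tri u w ρ) (a : T.Ray → ℝ) :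
    cp w a ρ = 0 := by rw [cp, sum0 h1, sum0 h2, sub_zero]

lemma bp_ge (C : T.C1a) {w w' ρ : T.Ray} (h1 : ρ ≠ w) (h2 : ρ ≠ w') : 0 ≤ bp w w' ρ := by
  rw [bp, if_neg (not_or.2 ⟨h1, h2⟩)]
  by_cases h : ∃ u, T.Tri u w ρ
  · obtain ⟨u, hu⟩ := h
    rw [sumB hu]
    norm_num
  · push Not at h
    rw [sum0 h]
    norm_num

theorem st_HTP (hC : St_C1A) : St_HTP := by
  intro T R z z' h j hz B
  have C := hC T
  refine ⟨fun a => by rw [tp_self C, tp_self' C hz]; ring, fun a => ?_, fun w w' hw n1 n2 => ?_⟩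
  · rw [Ht, Ht, tp_tp C hz, add_comm (T.Tp ℝ z z' a) a]
  have n3 : w' ≠ z := fun e => n2 ((e ▸ hw.symm : T.Opp z w).uniq hz)
  have n4 : w' ≠ z' := fun e => n1 ((e ▸ hw.symm : T.Opp z' w).uniq hz.symm)
  have b1 : bp w w' z = 1 := by
    rw [bp, if_neg (not_or.2 ⟨n1.symm, n3.symm⟩),
      sum0 fun u hu => no_pair R hw.symm hz n3.symm (hu.opp hw), sub_zero]
  have b2 : bp w w' z' = 1 := by
    rw [bp, if_neg (not_or.2 ⟨n2.symm, n4.symm⟩),
      sum0 fun u hu => no_pair R hw.symm hz.symm n4.symm (hu.opp hw), sub_zero]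
  have hc : ∀ a, T.Ht z z' h j (cp w a) = 0 := by
    intro a
    have c1 : cp w a z = 0 := cp_zero (fun t => no_pair R hw hz n1.symm)
      (fun u hu => no_pair R hw.symm hz n3.symm (hu.opp hw)) a
    have c2 : cp w a z' = 0 := cp_zero (fun t => no_pair R hw hz.symm n2.symm)
      (fun u hu => no_pair R hw.symm hz.symm n4.symm (hu.opp hw)) a
    have cA : ∀ ρ t, T.Tri ρ z t → cp w a ρ = 0 := fun ρ t ht =>
      cp_zero (fun t' h' => n1 (R ρ w t' z t h' ht)) (fun u h' => n3 (R ρ w' u z t (h'.opp hw) ht)) a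
    have cB : ∀ ρ u, T.Tri u z ρ → cp w a ρ = 0 := fun ρ u hu =>
      cp_zero (fun t' h' => n2 (R ρ w t' z' u h' (hu.opp hz)))
        (fun u' h' => n4 (R ρ w' u' z' u (h'.opp hw) (hu.opp hz))) a
    have e : ∀ ρ, (h ρ : ℝ) * (cp w a + T.Tp ℝ z z' (cp w a)) ρ = 2 * (h ρ * cp w a ρ) := by
      intro ρ
      by_cases h1 : ρ = z
      · simp [h1, B.z0]
      by_cases h2 : ρ = z'
      · simp [h2, B.z1]
      rcases mu_cases C h1 h2 (cp w a) with ⟨t, ht, e⟩ | ⟨u, hu, e⟩ | ⟨-, -, e⟩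
      · rw [e, cA ρ t ht, cB t ρ ht, c2]
        ring
      · rw [e, cB ρ u hu, cA u ρ hu, c1]
        ring
      · rw [e, c1, c2]
        ring
    rw [ht_eq C, c1, c2, Finset.sum_congr rfl fun ρ _ => e ρ, ← Finset.mul_sum]
    have s : ∑ ρ, (h ρ : ℝ) * cp w a ρ = 0 := by
      simp only [cp, mul_sub, Finset.sum_sub_distrib (s := Finset.univ), Finset.mul_sum,
        Finset.sum_filter]
      rw [sub_eq_zero, Finset.sum_comm]
      refine Finset.sum_congr rfl fun u _ => Finset.sum_congr rfl fun ρ _ => ?_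
      split_ifs with hh
      · rw [B.bal u w ρ w' hh hw n1 n2]
      · simp
    rw [s]
    ring
  refine ⟨T.Ht z z' h j (bp w w'), ?_, fun a => by rw [tp_split, ht_add, ht_add, hc]; ring⟩
  have far : ∀ ρ, ρ ≠ z → ρ ≠ z' → ρ ≠ w → ρ ≠ w' →
      0 < (bp w w' + T.Tp ℝ z z' (bp w w')) ρ := by
    intro ρ h1 h2 h3 h4
    have := bp_ge C h3 h4
    rcases mu_cases C h1 h2 (bp w w') with ⟨t, ht, e⟩ | ⟨u, hu, e⟩ | ⟨-, -, e⟩
    · have := bp_ge C (w := w) (w' := w') (ρ := t)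
        (fun e => no_pair R hz.symm hw n2 (e ▸ ht.opp hz))
        (fun e => no_pair R hz.symm hw.symm n4 (e ▸ ht.opp hz))
      linarith
    · have := bp_ge C (w := w) (w' := w') (ρ := u)
        (fun e => no_pair R hz hw n1 (e ▸ hu)) (fun e => no_pair R hz hw.symm n3 (e ▸ hu))
      linarith
    · linarith
  have near : ∀ v v', T.Opp v v' → v ≠ z → v ≠ z' → bp w w' v = -1 →
      0 ≤ (bp w w' + T.Tp ℝ z z' (bp w w')) v := by
    intro v v' hv h1 h2 hb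
    rcases mu_cases C h1 h2 (bp w w') with ⟨t, ht, -⟩ | ⟨u, hu, -⟩ | ⟨-, -, e⟩
    · exact absurd ht (no_pair R hz hv h1)
    · exact absurd (hu.opp hz) (no_pair R hz.symm hv h2)
    · linarith
  obtain ⟨ρ₀, h₀⟩ := C.out z w
  have v1 : T.v z + T.v z' = 0 := hz
  have v2 : T.v w + T.v w' = 0 := hw
  have o1 : ρ₀ ≠ z := by
    rintro rfl
    exact h₀ ⟨1, 0, by simp⟩
  have o2 : ρ₀ ≠ z' := by
    rintro rfl
    exact h₀ ⟨-1, 0, by simp only [neg_smul, one_smul, zero_smul]; linear_combination v1⟩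
  have o3 : ρ₀ ≠ w := by
    rintro rfl
    exact h₀ ⟨0, 1, by simp⟩
  have o4 : ρ₀ ≠ w' := by
    rintro rfl
    exact h₀ ⟨0, -1, by simp only [neg_smul, one_smul, zero_smul]; linear_combination v2⟩
  rw [ht_eq C, b1, b2, sub_self, mul_zero, sub_zero]
  refine sum_pos' B.z0 B.z1 B.pos (fun ρ h1 h2 => ?_) o1 o2 (far ρ₀ o1 o2 o3 o4)
  by_cases h3 : ρ = w
  · refine near ρ w' (h3 ▸ hw) h1 h2 ?_
    rw [bp, if_pos (Or.inl h3), sum0 fun u hu => T.ne u (by simpa [Tri, h3] using hu), sub_zero]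
  by_cases h4 : ρ = w'
  · refine near ρ w (h4 ▸ hw.symm) h1 h2 ?_
    rw [bp, if_pos (Or.inr h4), sum0 fun u hu => (tri_ne C hw.symm (hu.opp hw)).1 h4, sub_zero]
  exact (far ρ h1 h2 h3 h4).le

end H33H

end Pool.Agent.Lib.TF
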