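import Pool.Agent.Lib.TF.Sch
import Pool.Agent.Lib.TF.H33H
import Pool.Agent.Lib.TF.B_ACT
import Pool.Agent.Lib.TF.B_BAL
import Pool.Agent.Lib.TF.B_BAS
import Pool.Agent.Lib.TF.B_BASE
import Pool.Agent.Lib.TF.B_C0
import Pool.Agent.Lib.TF.B_C1
import Pool.Agent.Lib.TF.B_C1A
import Pool.Agent.Lib.TF.B_CI
import Pool.Agent.Lib.TF.B_COC
import Pool.Agent.Lib.TF.B_CON
import Pool.Agent.Lib.TF.B_CONE
import Pool.Agent.Lib.TF.B_CONN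
import Pool.Agent.Lib.TF.B_COPR
import Pool.Agent.Lib.TF.B_CURV
import Pool.Agent.Lib.TF.B_CV
import Pool.Agent.Lib.TF.B_DE6
import Pool.Agent.Lib.TF.B_DE7
import Pool.Agent.Lib.TF.B_DESC
import Pool.Agent.Lib.TF.B_EFF
import Pool.Agent.Lib.TF.B_EQS
import Pool.Agent.Lib.TF.B_FIN
import Pool.Agent.Lib.TF.B_FRM
import Pool.Agent.Lib.TF.B_GAL
import Pool.Agent.Lib.TF.B_GALN
import Pool.Agent.Lib.TF.B_GEN
import Pool.Agent.Lib.TF.B_GORD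
import Pool.Agent.Lib.TF.B_HTQ
import Pool.Agent.Lib.TF.B_IOT0
import Pool.Agent.Lib.TF.B_IOT1
import Pool.Agent.Lib.TF.B_IOT2
import Pool.Agent.Lib.TF.B_IOT3
import Pool.Agent.Lib.TF.B_IRR
import Pool.Agent.Lib.TF.B_JAC
import Pool.Agent.Lib.TF.B_LEF
import Pool.Agent.Lib.TF.B_LIN
import Pool.Agent.Lib.TF.B_LINA
import Pool.Agent.Lib.TF.B_LINB
import Pool.Agent.Lib.TF.B_LT
import Pool.Agent.Lib.TF.B_MIN
import Pool.Agent.Lib.TF.B_MON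
import Pool.Agent.Lib.TF.B_NOL
import Pool.Agent.Lib.TF.B_NORM
import Pool.Agent.Lib.TF.B_NRM0
import Pool.Agent.Lib.TF.B_NY
import Pool.Agent.Lib.TF.B_ORB
import Pool.Agent.Lib.TF.B_OUT
import Pool.Agent.Lib.TF.B_PL6
import Pool.Agent.Lib.TF.B_PL7
import Pool.Agent.Lib.TF.B_PS
import Pool.Agent.Lib.TF.B_PSA
import Pool.Agent.Lib.TF.B_PTS
import Pool.Agent.Lib.TF.B_PTZ
import Pool.Agent.Lib.TF.B_PULL
import Pool.Agent.Lib.TF.B_QUA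
import Pool.Agent.Lib.TF.B_REL
import Pool.Agent.Lib.TF.B_SEP
import Pool.Agent.Lib.TF.B_SIG0
import Pool.Agent.Lib.TF.B_SIG1
import Pool.Agent.Lib.TF.B_SIG2
import Pool.Agent.Lib.TF.B_SPAN
import Pool.Agent.Lib.TF.B_STEP
import Pool.Agent.Lib.TF.B_TD0
import Pool.Agent.Lib.TF.B_TDN
import Pool.Agent.Lib.TF.B_TDT
import Pool.Agent.Lib.TF.B_TGT
import Pool.Agent.Lib.TF.B_TP1
import Pool.Agent.Lib.TF.B_TP2
import Pool.Agent.Lib.TF.B_UFD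
import Pool.Agent.Lib.TF.B_VAN
import Pool.Agent.Lib.TF.B_VANZ
import Pool.Agent.Lib.TF.B_ZE6
import Pool.Agent.Lib.TF.B_ZE7

open AlgebraicGeometry CategoryTheory Order Pool.Agent.Lib.MP_e39d36_ag

namespace Pool.Agent.Lib.TF

namespace All

theorem aC0 : St_C0 := st_C0
theorem aC1A : St_C1A := st_C1A aC0
theorem aHTP : St_HTP := H33H.st_HTP aC1A
theorem aC1 : St_C1 := st_C1 aC0 aC1A
theorem aMIN : St_MIN := st_MIN
theorem aGORD : St_GORD := st_GORD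
theorem aPL7 : St_PL7 := st_PL7 aC1
theorem aPL6 : St_PL6 := st_PL6 aC1
theorem aOUT : St_OUT := st_OUT aC1 aPL7 aPL6
theorem aZE7 : St_ZE7 := st_ZE7 aC0 aC1 aPL7
theorem aZE6 : St_ZE6 := st_ZE6 aC0 aC1 aPL6
theorem aDE7 : St_DE7 := st_DE7 aC1 aMIN aPL7 aOUT aZE7
theorem aDE6 : St_DE6 := st_DE6 aC1 aMIN aPL6 aOUT aZE6
theorem aBAL : St_BAL := st_BAL aC0
theorem aHTQ : St_HTQ := st_HTQ aC0 aC1A
theorem aDESC : St_DESC := st_DESC aC1 aMIN aDE7 aDE6 aBAL aHTP aHTQ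
theorem aUFD : St_UFD := st_UFD
theorem aMON : St_MON := st_MON
theorem aTD0 : St_TD0 := st_TD0
theorem aJAC : St_JAC := st_JAC aC0 aTD0
theorem aCOPR : St_COPR := st_COPR aUFD aMON aTD0
theorem aPTZ : St_PTZ := st_PTZ
theorem aLINA : St_LINA := st_LINA aUFD
theorem aORB : St_ORB := st_ORB
theorem aNOL : St_NOL := st_NOL
theorem aQUA : St_QUA := st_QUA
theorem aPSA : St_PSA := st_PSA
theorem aCOC : St_COC := st_COC
theorem aSEP : St_SEP := st_SEP aC0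
theorem aVAN : St_VAN := st_VAN aC0 aCOC aSEP
theorem aVANZ : St_VANZ := st_VANZ aC0 aCOC aVAN
theorem aCONN : St_CONN := st_CONN aC0 aVANZ
theorem aIRR : St_IRR := st_IRR aC0 aUFD aMON aJAC aCONN
theorem aPTS : St_PTS := st_PTS aC0
theorem aTP1 : St_TP1 := st_TP1 aC0 aIRR aPTS
theorem aTP2 : St_TP2 := st_TP2 aC0
theorem aBAS : St_BAS := st_BAS aC0
theorem aREL : St_REL := st_REL aMON aJAC
theorem aFRM : St_FRM := st_FRM aJAC aBAS aREL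
theorem aNY : St_NY := st_NY aVANZ aREL aFRM
theorem aLEF : St_LEF := st_LEF aC0 aCONN aBAS aFRM aNY
theorem aPS : St_PS := st_PS aC0 aJAC aREL aPSA
theorem aGAL : St_GAL := st_GAL
theorem aGALN : St_GALN := st_GALN aLEF
theorem aLINB : St_LINB := st_LINB aORB aBAS aGAL
theorem aLIN : St_LIN := st_LIN aLINA aORB aBAS aGAL aGALN aLINB
theorem aCURV : St_CURV := st_CURV aC0 aBAS
theorem aCV : St_CV := st_CV aC0 aC1 aPTZ aBAS aCURV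
theorem aTDN : St_TDN := st_TDN aTD0 aBAS aREL
theorem aTDT : St_TDT := st_TDT aMON aTD0
theorem aLT : St_LT := st_LT aC0 aC1A aUFD aCOPR aBAS
theorem aGEN : St_GEN := st_GEN aC0 aC1 aBAS
theorem aCI : St_CI := st_CI aC0 aC1 aBAS aLT aGEN
theorem aBASE : St_BASE := st_BASE aC0 aC1 aBAS
theorem aSTEP : St_STEP := st_STEP aC0 aC1 aBAS aLT aGEN aCI
theorem aSPAN : St_SPAN := st_SPAN aC1 aBAS aGEN aBASE aSTEP
theorem aIOT0 : St_IOT0 := st_IOT0 aC0 aQUA aBAS aPS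
theorem aIOT1 : St_IOT1 := st_IOT1 aC0 aC1 aBAS
theorem aIOT2 : St_IOT2 := st_IOT2 aC0 aC1A aCOPR aQUA aIRR aBAS aTDN
theorem aIOT3 : St_IOT3 := st_IOT3 aC1 aIOT1 aIOT2
theorem aNRM0 : St_NRM0 := st_NRM0 aC0 aUFD aCOPR
theorem aNORM : St_NORM := st_NORM aC0 aC1A aBAS aIOT0 aIOT2 aIOT3 aNRM0
theorem aEQS : St_EQS := st_EQS aC0 aC1 aUFD aCOPR aBAS aGEN
theorem aSIG0 : St_SIG0 := st_SIG0 aQUA aPS aGEN aEQS
theorem aSIG1 : St_SIG1 := st_SIG1 aC1 aBAS aGEN aCI aEQS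
theorem aCON : St_CON := st_CON aC1 aNOL aTDN aTDT aEQS
theorem aTGT : St_TGT := st_TGT aC0 aC1 aBAS aGEN aCI aEQS
theorem aSIG2 : St_SIG2 := st_SIG2 aC1 aQUA aBAS aEQS aSIG1 aCON aTGT
theorem aACT : St_ACT := st_ACT aC1 aBAS aIOT0 aIOT3 aEQS aSIG0 aSIG1 aSIG2
theorem aPULL : St_PULL := st_PULL aBAS aLEF aCV aACT
theorem aEFF : St_EFF := st_EFF aBAS aLIN aNORM aACT
theorem aCONE : St_CONE := st_CONE aGORD aBAS aLIN aCV aGEN aSPAN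
theorem aFIN : St_FIN := st_FIN aC0 aBAS aDESC aPULL aEFF aCONE

end All

open All in
theorem mainAll (T : Fano) (f : AddMonoidAlgebra ℂ (Fin T.n → ℤ))
    (hs : ∀ u, f.coeff u ≠ 0 → ∀ ρ, -1 ≤ u ⬝ᵥ T.v ρ)
    (hg : AlgebraicIndependent ℚ fun u : {u // ∀ ρ, -1 ≤ u ⬝ᵥ T.v ρ} => f.coeff u)
    (Y : Scheme.{0}) [IsIntegral Y] [IsLocallyNoetherian Y] (s : Y ⟶ Spec (.of ℂ)) [Smooth s]
    (hY : IsProjective s) (ψ : AddMonoidAlgebra ℂ (Fin T.n → ℤ) →+* Y.functionField)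
    (h : @Fano.Hyp T Y.functionField _ ψ (algK s) f Y OX) :
    ∃ S : Set (CDiv Y), S.Finite ∧ Covers s (cone S) ∧ ∀ φ L, IsPull s φ L → L ≠ 1 →
      interior (cone S) ∩ L '' interior (cone S) = ∅ :=
  main aPTS aTP1 aTP2 aFIN T f hs hg Y s hY ψ h

end Pool.Agent.Lib.TF
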