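import Pool.Agent.Lib.TF.Blue

open Set Pool.Agent.Lib.MV

noncomputable section

namespace Pool.Agent.Lib.TF

open Fano

namespace CONNB

lemma cb_pair {V A : Type} [LinearOrder V] [AddCommGroup A] (c : Finset V → A) {t u : V}
    (h : t ≠ u) : cb c {t, u} = sg t {u} • (c {u} - c {t}) := by
  have h1 := cb_two (s := ∅) h (by simp) (by simp) (c := c) (by simp)
  have h2 := sg_anti (s := ∅) h (by simp) (by simp)
  have e : ∀ x : V, sg x ∅ = 1 := fun x => by simp [sg]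
  simp only [insert_empty_eq, e, mul_one] at h1 h2
  rw [h1, smul_sub, h2, neg_smul, neg_smul, sub_neg_eq_add]

lemma eq_of_cb {V A : Type} [LinearOrder V] [AddCommGroup A] (c : Finset V → A) {t u : V}
    (h : t ≠ u) (h0 : cb c {t, u} = 0) : c {u} = c {t} := by
  rw [cb_pair c h] at h0
  have := congrArg (sg t {u} • ·) h0
  simpa only [sg_smul_smul, smul_zero, sub_eq_zero] using this

/-- Gluing modulo a nonzero element. -/
lemma glue {V R : Type} [LinearOrder V] [CommRing R] [IsDomain R] {W : Finset V}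
    {M : Finset V → AddSubgroup R} (hM : Ex W M 2) {p : R} (p0 : p ≠ 0) (G : V → R)
    (h : ∀ s : Finset V, ∀ a ∈ W, ∀ b ∈ W, a ∈ s → b ∈ s → ∃ Q ∈ M s, G b - G a = p * Q) :
    ∃ b : V → R, (∀ a, b a ∈ M {a}) ∧ ∀ a ∈ W, ∀ a' ∈ W, G a - p * b a = G a' - p * b a' := by
  let g : Finset V → R := fun s => ∑ m ∈ s, G m
  have hg : ∀ m, g {m} = G m := fun m => Finset.sum_singleton _ _
  have ex : ∀ s : Finset V, ∃ h ∈ M s, s ⊆ W → s.card = 2 → cb g s = p * h := fun s => by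
    by_cases hs : s ⊆ W ∧ s.card = 2
    swap
    · exact ⟨0, zero_mem _, fun a b => absurd ⟨a, b⟩ hs⟩
    obtain ⟨a, b, hab, rfl⟩ := Finset.card_eq_two.1 hs.2
    have ha := Finset.mem_insert_self a {b}
    have hb : b ∈ ({a, b} : Finset V) := Finset.mem_insert_of_mem (Finset.mem_singleton_self b)
    obtain ⟨Q, hQ, e⟩ := h _ a (hs.1 ha) b (hs.1 hb) ha hb
    exact ⟨sg a {b} • Q, zsmul_mem hQ _, fun _ _ => by
      rw [cb_pair g hab, hg, hg, e, mul_smul_comm]⟩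
  choose k hZ hh using ex
  have mp : ∀ (c : Finset V → R) s, p * cb c s = cb (fun s => p * c s) s := fun c s =>
    map_cb (AddMonoidHom.mulLeft p) c s
  obtain ⟨b, hb, hcb⟩ := hM k hZ fun s hs hc => by
    refine (mul_eq_zero.1 ?_).resolve_left p0
    rw [mp, ← cb_cb g s]
    exact cb_congr' hs hc fun s' a b => (hh s' a b).symm
  refine ⟨fun a => b {a}, fun a => hb _, fun a ha a' ha' => ?_⟩
  by_cases e : a' = a
  · rw [e]
  have hs : ({a', a} : Finset V) ⊆ W := Finset.insert_subset ha' (Finset.singleton_subset_iff.2 ha)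
  have := eq_of_cb (fun s => g s - p * b s) e (by
    rw [cb_sub, ← mp, ← hcb _ hs (Finset.card_pair e), hh _ hs (Finset.card_pair e), sub_self])
  simpa only [hg] using this

open scoped Classical

variable {T : Fano}

lemma mem_fc {s : Finset T.Vx} {σ : T.Ray} : σ ∈ T.fc s ↔ ∀ m ∈ s, σ ∈ T.F m.1 := by simp [fc]

lemma at_fr {f : T.R} (hf : T.Gen f) {m : T.M} (hm : T.V m) {ρ σ : T.Ray} (h : ρ ∈ T.F m)
    (h' : σ ∈ T.F m) : At (T.v σ) (-1) (T.fr f ρ) :=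
  ⟨m, by rw [coeff_part, if_pos (mem_F.1 h)]; exact hf.ne hm.1, mem_F.1 h'⟩

/-- A function that is regular on the whole star is constant. -/
lemma const (h0 : T.C0) {ρ : T.Ray} {H : T.R} (h1 : Hom (T.v ρ) 0 H)
    (h2 : ∀ m, T.V m → ρ ∈ T.F m → ∀ σ ∈ T.F m, Lo (T.v σ) 0 H) :
    H = algebraMap ℂ T.R (H.coeff 0) := by
  have key : ∀ u, H.coeff u ≠ 0 → u = 0 := fun u hu => by
    obtain ⟨m, hm, hρ, c, c1, c2, hw⟩ := h0.star {ρ} (h0.ray ρ) (-u)
    have hρ' : ρ ∈ T.F m := hρ (Finset.mem_singleton_self ρ)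
    have h3 : 0 ≤ u ⬝ᵥ (-u) := by
      rw [hw, dotProduct_sum]
      refine Finset.sum_nonneg fun σ _ => ?_
      rw [dotProduct_smul, smul_eq_mul]
      by_cases e : σ = ρ
      · rw [e, h1 u hu, mul_zero]
      by_cases e' : σ ∈ T.F m
      · exact mul_nonneg (c2 σ (by simpa using e)) (h2 m hm hρ' σ e' u hu)
      · rw [c1 σ e', zero_mul]
    rw [dotProduct_neg] at h3
    have h4 : 0 ≤ u ⬝ᵥ u := Finset.sum_nonneg fun i _ => mul_self_nonneg _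
    exact dotProduct_self_eq_zero.1 (by omega)
  refine La.ext fun u => ?_
  have e1 : (algebraMap ℂ T.R (H.coeff 0)).coeff u = H.coeff 0 * (mn (0 : T.M)).coeff u := by
    rw [Algebra.algebraMap_eq_smul_one, ← mn_zero]; simp [-mn_zero]
  rw [e1, coeff_mn]
  by_cases e : u = 0
  · rw [e, if_pos rfl, mul_one]
  · rw [not_not.1 (mt (key u) e), if_neg (Ne.symm e), mul_zero]

end CONNB

open CONNB in
theorem st_CONN (hC : St_C0) (hV : St_VANZ) : St_CONN := by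
  intro T f hf ρ G h1 h2
  have h0 := hC T
  have hW : ∀ {m : T.Vx}, m ∈ T.W {ρ} ↔ ρ ∈ T.F m.1 := fun {m} => by
    rw [h0.mem_W, Finset.singleton_subset_iff]
  obtain ⟨m0, hm0, hρ0⟩ := h0.ray ρ
  replace hρ0 : ρ ∈ T.F m0 := hρ0 (Finset.mem_singleton_self ρ)
  have p1 : Hom (T.v ρ) (-1) (T.fr f ρ) := sup_part
  have p2 : ∀ σ, Lo (T.v σ) (-1) (T.fr f ρ) := fun σ => Sup.part (hf.lo σ)
  have p0 : T.fr f ρ ≠ 0 := inn_ne_zero.2 ⟨m0, hf.ne hm0.1, mem_F.1 hρ0⟩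
  have p3 : ∀ m σ, T.V m → ρ ∈ T.F m → σ ∈ T.F m → At (T.v σ) (-1) (T.fr f ρ) :=
    fun m σ a b c => at_fr hf a b c
  generalize T.fr f ρ = p at *
  have h3 : ∀ m, T.V m → ρ ∈ T.F m → ∀ σ ∈ T.F m, Lo (T.v σ) 0 (G m) := fun m a b σ c => by
    simpa only [Pi.zero_apply, neg_zero] using mem_S.1 (h1 m a b).2 σ c
  obtain ⟨b, hb, ind⟩ := glue (hV T {ρ} 1 2 (h0.ray ρ) le_rfl
    (by have := T.dim; rw [Finset.card_singleton]; omega)) p0 (fun m => G m.1)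
    fun s a ha b hb as bs => by
      obtain ⟨Q, hQ⟩ := h2 b.1 a.1 b.2 a.2 (hW.1 hb) (hW.1 ha)
      refine ⟨Q, ⟨fun e => absurd e (Finset.ne_empty_of_mem as), fun σ hσ => ?_, fun σ hσ => ?_⟩,
        hQ⟩
      · rw [Finset.mem_singleton.1 hσ]
        refine Hom.cancel p1 p0 ?_
        rw [← hQ, neg_add_cancel]
        exact Sup.sub (h1 b.1 b.2 (hW.1 hb)).1 (h1 a.1 a.2 (hW.1 ha)).1
      · have sa := mem_fc.1 hσ a as
        refine Lo.cancel (p2 σ) (p3 a.1 σ a.2 (hW.1 ha) sa) ?_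
        rw [← hQ, neg_add_cancel]
        exact Sup.sub (h3 b.1 b.2 (hW.1 hb) σ (mem_fc.1 hσ b bs)) (h3 a.1 a.2 (hW.1 ha) σ sa)
  have ind' : ∀ m (hm : T.V m), ρ ∈ T.F m → G m0 - p * b ⟨m0, hm0⟩ = G m - p * b ⟨m, hm⟩ :=
    fun m hm hρ => ind ⟨m0, hm0⟩ (hW.2 hρ0) ⟨m, hm⟩ (hW.2 hρ)
  have q1 : Hom (T.v ρ) 0 (p * b ⟨m0, hm0⟩) := by
    simpa only [neg_add_cancel] using Hom.mul p1 ((hb _).2.1 ρ (Finset.mem_singleton_self ρ))
  have hc := const h0 (Sup.sub (h1 m0 hm0 hρ0).1 q1) fun m hm hρ σ hσ => by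
    have q2 : Lo (T.v σ) 0 (p * b ⟨m, hm⟩) := by
      simpa only [neg_add_cancel] using Lo.mul (p2 σ) ((hb ⟨m, hm⟩).2.2 σ
        (mem_fc.2 fun m' hm' => by rw [Finset.mem_singleton.1 hm']; exact hσ))
    rw [ind' m hm hρ]
    exact Sup.sub (h3 m hm hρ σ hσ) q2
  refine ⟨(G m0 - p * b ⟨m0, hm0⟩).coeff 0, fun m hm hρ => ⟨b ⟨m, hm⟩, ?_⟩⟩
  rw [← hc, ind' m hm hρ, sub_sub_cancel]

end Pool.Agent.Lib.TF
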