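import Pool.Agent.Lib.TF.LBlue

open Set

noncomputable section

namespace Pool.Agent.Lib.TF

open Fano

namespace GORDB

theorem mv_add (T : Fano) (u w : T.M) : T.mv (u + w) = T.mv u + T.mv w := by
  funext ρ
  simp [Fano.mv, add_dotProduct]

theorem mv_zero (T : Fano) : T.mv 0 = 0 := by
  funext ρ
  simp [Fano.mv]

/-- The lattice vector with the given positive and negative parts. -/
def vec (T : Fano) (p q : Fin T.n → ℕ) : T.M := fun l => (p l : ℤ) - q l

theorem vec_add (T : Fano) (p q p' q' : Fin T.n → ℕ) :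
    vec T (p + p') (q + q') = vec T p q + vec T p' q' := by
  funext l
  simp only [vec, Pi.add_apply, Nat.cast_add]
  ring

theorem vec_zero (T : Fano) : vec T 0 0 = 0 := by
  funext l
  simp [vec]

theorem vec_surj (T : Fano) (u : T.M) : ∃ p q, vec T p q = u := by
  refine ⟨fun l => (u l).toNat, fun l => (-u l).toNat, ?_⟩
  funext l
  simp only [vec]
  omega

/-- The value of a triple of multiplicities. -/
def val (T : Fano) {J : Type} [Fintype J] (deg : J → T.Λ) :
    (J → ℕ) × (Fin T.n → ℕ) × (Fin T.n → ℕ) →+ T.Λ where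
  toFun x := ∑ j, x.1 j • deg j + T.mv (vec T x.2.1 x.2.2)
  map_zero' := by simp [vec_zero, mv_zero]
  map_add' x y := by
    simp only [Prod.fst_add, Prod.snd_add, vec_add, mv_add, Pi.add_apply, add_smul,
      Finset.sum_add_distrib]
    abel

/-- Families of admissible triples with a common value. -/
def fam (T : Fano) {I J : Type} [Fintype J] (deg : J → T.Λ) (ok : I → J → Prop) :
    AddSubmonoid (I → (J → ℕ) × (Fin T.n → ℕ) × (Fin T.n → ℕ)) where
  carrier := {x | (∀ i j, ¬ ok i j → (x i).1 j = 0) ∧ ∀ i i', val T deg (x i) = val T deg (x i')}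
  zero_mem' := ⟨fun _ _ _ => rfl, fun _ _ => rfl⟩
  add_mem' := by
    rintro x y ⟨hx, hx'⟩ ⟨hy, hy'⟩
    refine ⟨fun i j h => ?_, fun i i' => ?_⟩
    · simp [hx i j h, hy i j h]
    · simp only [Pi.add_apply, map_add, hx' i i', hy' i i']

theorem fam_fg (T : Fano) {I J : Type} [Finite I] [Fintype J] (deg : J → T.Λ)
    (ok : I → J → Prop) : (fam T deg ok).FG := by
  refine AddSubmonoid.fg_of_subtractive ?_
  rintro x ⟨hx, hx'⟩ y ⟨hy, hy'⟩
  refine ⟨fun i j h => ?_, fun i i' => ?_⟩
  · have := hy i j h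
    simp only [Pi.add_apply, Prod.fst_add] at this
    omega
  · have := hy' i i'
    simp only [Pi.add_apply, map_add, hx' i i'] at this
    exact add_left_cancel this

end GORDB

open GORDB in
theorem st_GORD : St_GORD := by
  intro T I J _ hI _ deg ok
  obtain ⟨i₀⟩ := hI
  let φ : (I → (J → ℕ) × (Fin T.n → ℕ) × (Fin T.n → ℕ)) →+ T.Λ :=
    (val T deg).comp (Pi.evalAddMonoidHom _ i₀)
  obtain ⟨S, hS, hfin⟩ := (AddSubmonoid.fg_iff _).1 ((fam_fg T deg ok).map φ)
  refine ⟨S, hfin, fun a => ?_⟩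
  rw [hS, AddSubmonoid.mem_map]
  constructor
  · rintro ⟨x, ⟨hx, hx'⟩, rfl⟩ i
    refine ⟨(x i).1, vec T (x i).2.1 (x i).2.2, fun j hj => ?_, hx' i₀ i⟩
    by_contra h
    exact hj (hx i j h)
  · intro h
    choose c u hc ha using h
    choose p q hpq using fun i => vec_surj T (u i)
    have hv : ∀ i, val T deg (c i, p i, q i) = a := fun i => by
      rw [ha i, ← hpq i]
      rfl
    refine ⟨fun i => (c i, p i, q i), ⟨fun i j hj => ?_, fun i i' => ?_⟩, hv i₀⟩
    · by_contra h
      exact hj (hc i j h)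
    · rw [hv i, hv i']

end Pool.Agent.Lib.TF
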