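import Pool.Agent.Lib.TF.B_HTQ

open Set
open scoped Classical

noncomputable section

namespace Pool.Agent.Lib.TF

open Fano HTQB

namespace HTPB

variable {T : Fano}

lemma tp_self' (C : T.C1a) {z z' : T.Ray} (hz : T.Opp z z') (a : T.Ray → ℝ) :
    T.Tp ℝ z z' a z' = -a z := by
  rw [tp_comm hz, tp_self C]

lemma tpA (C : T.C1a) {z z' ρ t : T.Ray} (hz : T.Opp z z') (ht : T.Tri ρ z t) (b : T.Ray → ℝ) :
    T.Tp ℝ z z' b ρ = b t + b z' := by
  have e1 : T.v ρ + T.v z = T.v t := ht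
  have e2 : T.v z + T.v z' = 0 := hz
  have h1 : ρ ≠ z := by
    rintro rfl
    exact not_two C (k := 2) (by norm_num) (by norm_num) (by rw [two_smul]; exact e1.symm)
  have h2 : ρ ≠ z' := by
    rintro rfl
    exact T.ne t (by rw [← e1, add_comm, e2])
  rw [Tp_apply, if_neg (not_or.2 ⟨h1, h2⟩), sumA ht, sum0 fun u hu => not_both C ht hu]
  ring

lemma tpB (C : T.C1a) {z z' ρ u : T.Ray} (hz : T.Opp z z') (hu : T.Tri u z ρ) (b : T.Ray → ℝ) :
    T.Tp ℝ z z' b ρ = b u + b z := by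
  rw [tp_comm hz, tpA C hz.symm (hu.opp hz)]

lemma tpC {z z' ρ : T.Ray} (h1 : ρ ≠ z) (h2 : ρ ≠ z') (hA : ∀ t, ¬T.Tri ρ z t)
    (hB : ∀ u, ¬T.Tri u z ρ) (b : T.Ray → ℝ) : T.Tp ℝ z z' b ρ = b ρ + b z + b z' := by
  rw [Tp_apply, if_neg (not_or.2 ⟨h1, h2⟩), sum0 hA, sum0 hB]
  ring

/-- The involution of a line is an involution. -/
lemma tp_tp (C : T.C1a) {z z' : T.Ray} (hz : T.Opp z z') (a : T.Ray → ℝ) :
    T.Tp ℝ z z' (T.Tp ℝ z z' a) = a := by
  funext ρ
  by_cases h1 : ρ = z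
  · rw [h1, tp_self C, tp_self' C hz, neg_neg]
  by_cases h2 : ρ = z'
  · rw [h2, tp_self' C hz, tp_self C, neg_neg]
  by_cases hA : ∃ t, T.Tri ρ z t
  · obtain ⟨t, ht⟩ := hA
    rw [tpA C hz ht, tpB C hz ht, tp_self' C hz]
    ring
  push Not at hA
  by_cases hB : ∃ u, T.Tri u z ρ
  · obtain ⟨u, hu⟩ := hB
    rw [tpB C hz hu, tpA C hz hu, tp_self C]
    ring
  push Not at hB
  rw [tpC h1 h2 hA hB, tpC h1 h2 hA hB, tp_self C, tp_self' C hz]
  ring

/-- Rays of two different lines do not add up to a ray. -/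
lemma nosum (R : T.RegN) {z z' w w' : T.Ray} (hz : T.Opp z z') (hw : T.Opp w w') (h : w ≠ z)
    (t : T.Ray) : ¬T.Tri z w t := by
  intro ht
  have e : z' = w' := R t z' w w' z (ht.symm.opp hz) (ht.opp hw)
  subst e
  exact h (hw.symm.uniq hz.symm)

lemma ht_pos (C : T.C1a) (R : T.RegN) {z z' w w' : T.Ray} {h : T.Λ} {j : ℤ} (hz : T.Opp z z')
    (B : T.Bal z z' h j) (hw : T.Opp w w') (h1 : w ≠ z) (h2 : w ≠ z') {b : T.Ray → ℝ}
    (bz : b z = 1) (bz' : b z' = 1) (b0 : ∀ ρ, ρ ≠ w → ρ ≠ w' → 0 ≤ b ρ) (b1 : ∀ ρ, -1 ≤ b ρ) :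
    0 < T.Ht z z' h j b := by
  have h3 : w' ≠ z := by
    rintro rfl
    exact h2 (hw.symm.uniq hz)
  have h4 : w' ≠ z' := by
    rintro rfl
    exact h1 (hw.symm.uniq hz.symm)
  have tri : ∀ ρ t, T.Tri ρ z t → 0 ≤ b ρ ∧ 0 ≤ b t := by
    intro ρ t ht
    refine ⟨b0 ρ ?_ ?_, b0 t ?_ ?_⟩
    · rintro rfl
      exact nosum R hz hw h1 t ht.symm
    · rintro rfl
      exact nosum R hz hw.symm h3 t ht.symm
    · rintro rfl
      exact nosum R hz.symm hw h2 ρ (ht.opp hz).symm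
    · rintro rfl
      exact nosum R hz.symm hw.symm h4 ρ (ht.opp hz).symm
  have key : ∀ ρ, ρ ≠ z → ρ ≠ z' → 0 ≤ (b + T.Tp ℝ z z' b) ρ ∧
      (ρ ≠ w → ρ ≠ w' → 0 < (b + T.Tp ℝ z z' b) ρ) := by
    intro ρ a1 a2
    rcases mu_cases C a1 a2 b with ⟨t, ht, e⟩ | ⟨u, hu, e⟩ | ⟨-, -, e⟩
    · obtain ⟨p, q⟩ := tri ρ t ht
      exact ⟨by linarith, fun _ _ => by linarith⟩
    · obtain ⟨p, q⟩ := tri u ρ hu
      exact ⟨by linarith, fun _ _ => by linarith⟩
    · have := b1 ρ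
      refine ⟨by linarith, fun c1 c2 => ?_⟩
      have := b0 ρ c1 c2
      linarith
  obtain ⟨ρ₀, h₀⟩ := C.out z w
  have v1 : T.v z + T.v z' = 0 := hz
  have v2 : T.v w + T.v w' = 0 := hw
  have o1 : ρ₀ ≠ z := by
    rintro rfl
    exact h₀ ⟨1, 0, by simp⟩
  have o2 : ρ₀ ≠ z' := by
    rintro rfl
    exact h₀ ⟨-1, 0, by simp only [neg_smul, one_smul, zero_smul]; linear_combination v1⟩
  have o3 : ρ₀ ≠ w := by
    rintro rfl
    exact h₀ ⟨0, 1, by simp⟩
  have o4 : ρ₀ ≠ w' := by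
    rintro rfl
    exact h₀ ⟨0, -1, by simp only [neg_smul, one_smul, zero_smul]; linear_combination v2⟩
  rw [ht_eq C, bz, bz', sub_self, mul_zero, sub_zero]
  exact sum_pos' B.z0 B.z1 B.pos (fun ρ a c => (key ρ a c).1) o1 o2 ((key ρ₀ o1 o2).2 o3 o4)

/-- The indicator of a ray. -/
def ind (x : T.Ray) : T.Ray → ℝ := fun ρ => if ρ = x then 1 else 0

/-- The height of the indicator of a ray that lies in no triple with `z`. -/
lemma ht_ind (C : T.C1a) {z z' x : T.Ray} {h : T.Λ} {j : ℤ} (z0 : h z = 0) (z1 : h z' = 0)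
    (h1 : x ≠ z) (h2 : x ≠ z') (hA : ∀ t, ¬T.Tri x z t) (hB : ∀ u, ¬T.Tri u z x) :
    T.Ht z z' h j (ind x) = 2 * h x := by
  have e1 : ind x z = 0 := if_neg h1.symm
  have e2 : ind x z' = 0 := if_neg h2.symm
  have tri : ∀ ρ t, T.Tri ρ z t → ind x ρ = 0 ∧ ind x t = 0 := by
    intro ρ t ht
    refine ⟨if_neg ?_, if_neg ?_⟩
    · rintro rfl
      exact hA t ht
    · rintro rfl
      exact hB ρ ht
  rw [ht_eq C, e1, e2, sub_self, mul_zero, sub_zero]
  have e : ∀ ρ, (h ρ : ℝ) * (ind x + T.Tp ℝ z z' (ind x)) ρ = if ρ = x then 2 * (h x : ℝ) else 0 := by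
    intro ρ
    by_cases a1 : ρ = z
    · rw [a1, z0, if_neg h1.symm]
      simp
    by_cases a2 : ρ = z'
    · rw [a2, z1, if_neg h2.symm]
      simp
    rcases mu_cases C a1 a2 (ind x) with ⟨t, ht, e⟩ | ⟨u, hu, e⟩ | ⟨-, -, e⟩
    · have a3 : ρ ≠ x := by
        rintro rfl
        exact hA t ht
      rw [e, (tri ρ t ht).1, (tri ρ t ht).2, e2, if_neg a3]
      ring
    · have a3 : ρ ≠ x := by
        rintro rfl
        exact hB u hu
      rw [e, (tri u ρ hu).1, (tri u ρ hu).2, e1, if_neg a3]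
      ring
    · rw [e, e1, e2]
      by_cases a3 : ρ = x
      · rw [a3, if_pos rfl, ind, if_pos rfl]
        ring
      · rw [if_neg a3, ind, if_neg a3]
        ring
  simp only [e, Finset.sum_ite_eq', Finset.mem_univ, if_true]

/-- The vector by which a line moves a class. -/
def sg (w w' : T.Ray) : T.Ray → ℝ := fun ρ => if ρ = w ∨ ρ = w' then -1 else 1

lemma tp_eq0 {w w' : T.Ray} (hn : ∀ x y, ¬T.Tri x w y) (a : T.Ray → ℝ) :
    T.Tp ℝ w w' a = a + (a w + a w') • sg w w' := by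
  funext ρ
  rw [Tp_apply, sum0 (hn ρ), sum0 fun x => hn x ρ]
  simp [sg]

lemma tp_eq1 (R : T.RegN) {w w' x y : T.Ray} (ht : T.Tri x w y) (a : T.Ray → ℝ) :
    T.Tp ℝ w w' a = a + (a w + a w') • (sg w w' + (-1 : ℝ) • ind x) +
      (a w' - a x + a y) • ind x + (-(a w' - a x + a y)) • ind y := by
  funext ρ
  have e1 : ∑ t with T.Tri ρ w t, (a ρ + a w - a t) = (a x + a w - a y) * ind x ρ := by
    by_cases c : ρ = x
    · rw [c, sumA ht, ind, if_pos rfl, mul_one]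
    · rw [sum0 fun t h => c (R w ρ t x y h.symm ht.symm), ind, if_neg c, mul_zero]
  have e2 : ∑ u with T.Tri u w ρ, (a w' - a u + a ρ) = (a w' - a x + a y) * ind y ρ := by
    by_cases c : ρ = y
    · rw [c, sumB ht, ind, if_pos rfl, mul_one]
    · refine (sum0 (fun u h => c ?_) _).trans (by rw [ind, if_neg c, mul_zero])
      have e : u = x := R w u ρ x y h.symm ht.symm
      subst e
      exact h.uniq ht
  rw [Tp_apply, e1, e2]
  simp only [sg, Pi.add_apply, Pi.smul_apply, smul_eq_mul]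
  ring

end HTPB

open HTPB in
theorem st_HTP (hC : St_C1A) : St_HTP := by
  intro T R z z' h j hz B
  have C := hC T
  refine ⟨fun a => ?_, fun a => ?_, fun w w' hw h1 h2 => ?_⟩
  · rw [tp_self C, tp_self' C hz]
    ring
  · rw [Ht, Ht, tp_tp C hz, add_comm]
  have h3 : w' ≠ z := by
    rintro rfl
    exact h2 (hw.symm.uniq hz)
  have h4 : w' ≠ z' := by
    rintro rfl
    exact h1 (hw.symm.uniq hz.symm)
  have s1 : sg w w' z = 1 := if_neg (not_or.2 ⟨h1.symm, h3.symm⟩)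
  have s2 : sg w w' z' = 1 := if_neg (not_or.2 ⟨h2.symm, h4.symm⟩)
  have s3 : ∀ ρ, ρ ≠ w → ρ ≠ w' → sg w w' ρ = 1 := fun ρ a b => if_neg (not_or.2 ⟨a, b⟩)
  have s4 : ∀ ρ, -1 ≤ sg w w' ρ := fun ρ => by
    unfold sg
    split_ifs <;> norm_num
  by_cases hn : ∃ x y, T.Tri x w y
  · obtain ⟨x, y, ht⟩ := hn
    have ht' : T.Tri y w' x := ht.opp hw
    have x1 : x ≠ z := by
      rintro rfl
      exact nosum R hz hw h1 y ht
    have x2 : x ≠ z' := by
      rintro rfl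
      exact nosum R hz.symm hw h2 y ht
    have y1 : y ≠ z := by
      rintro rfl
      exact nosum R hz hw.symm h3 x ht'
    have y2 : y ≠ z' := by
      rintro rfl
      exact nosum R hz.symm hw.symm h4 x ht'
    have ix : T.Ht z z' h j (ind x) = 2 * h x :=
      ht_ind C B.z0 B.z1 x1 x2 (fun t h' => h1 (R x w y z t ht h'))
        fun u h' => h2 (R x w y z' u ht (h'.opp hz))
    have iy : T.Ht z z' h j (ind y) = 2 * h y :=
      ht_ind C B.z0 B.z1 y1 y2 (fun t h' => h3 (R y w' x z t ht' h'))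
        fun u h' => h4 (R y w' x z' u ht' (h'.opp hz))
    have xw : x ≠ w := by
      rintro rfl
      exact not_two C (k := 2) (by norm_num) (by norm_num) (by rw [two_smul]; exact Eq.symm ht)
    have xw' : x ≠ w' := by
      rintro rfl
      have e1 : T.v x + T.v w = T.v y := ht
      have e2 : T.v w + T.v x = 0 := hw
      exact T.ne y (by rw [← e1, add_comm, e2])
    refine ⟨T.Ht z z' h j (sg w w' + (-1 : ℝ) • ind x), ?_, fun a => ?_⟩
    · refine ht_pos C R hz B hw h1 h2 ?_ ?_ (fun ρ a b => ?_) fun ρ => ?_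
      · simp [s1, ind, x1.symm]
      · simp [s2, ind, x2.symm]
      · simp only [Pi.add_apply, Pi.smul_apply, smul_eq_mul, s3 ρ a b, ind]
        split_ifs <;> norm_num
      · simp only [Pi.add_apply, Pi.smul_apply, smul_eq_mul, ind]
        split_ifs with c
        · rw [c, s3 x xw xw']
          norm_num
        · have := s4 ρ
          linarith
    · rw [tp_eq1 R ht, ht_add, ht_add, ht_add, ix, iy, B.bal x w y w' ht hw h1 h2]
      ring
  · push Not at hn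
    refine ⟨T.Ht z z' h j (sg w w'), ?_, fun a => by rw [tp_eq0 hn, ht_add]⟩
    exact ht_pos C R hz B hw h1 h2 s1 s2 (fun ρ a b => by rw [s3 ρ a b]; norm_num) s4

end Pool.Agent.Lib.TF
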