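import Pool.Agent.Lib.TF.Blue

open Set
open scoped Classical

noncomputable section

namespace Pool.Agent.Lib.TF

namespace MONB

variable {n : ℕ}

lemma mono {G : La n} (h0 : G ≠ 0) (h : ∀ i, ∃ a, Hom (Pi.single i 1) a G) :
    ∃ (u : Fin n → ℤ) (c : ℂ), c ≠ 0 ∧ G = c • mn u := by
  obtain ⟨u, hu⟩ := ne_zero_iff.1 h0
  refine ⟨u, G.coeff u, hu, La.ext fun u' => ?_⟩
  by_cases e : u = u'
  · subst e
    simp [coeff_mn]
  · have h1 : G.coeff u' = 0 := by
      by_contra h1
      refine e (funext fun i => ?_)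
      obtain ⟨a, ha⟩ := h i
      have h2 := (ha u hu).trans (ha u' h1).symm
      simpa using h2
    simp [coeff_mn, e, h1]

lemma unit_of {G : La n} {u : Fin n → ℤ} {c : ℂ} (hc : c ≠ 0) (h : G = c • mn u) : IsUnit G := by
  rw [h, Algebra.smul_def]
  exact ((IsUnit.mk0 c hc).map _).mul (isUnit_mn u)

lemma mn_sum {ι : Type} (s : Finset ι) (u : ι → Fin n → ℤ) :
    mn (∑ i ∈ s, u i) = ∏ i ∈ s, mn (u i) := by
  induction s using Finset.induction_on with
  | empty => simp
  | insert i s hi ih => rw [Finset.sum_insert hi, Finset.prod_insert hi, mn_add, ih]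

lemma aev {ι : Type} (u : ι → Fin n → ℤ) (P : MvPolynomial ι ℂ) :
    MvPolynomial.aeval (fun i => mn (u i)) P =
      ∑ d ∈ P.support, P.coeff d • mn (∑ i ∈ d.support, d i • u i) := by
  rw [MvPolynomial.aeval_def, MvPolynomial.eval₂_eq]
  refine Finset.sum_congr rfl fun d _ => ?_
  rw [Algebra.smul_def, mn_sum]
  simp only [mn_nsmul]

lemma inj {ι : Type} {u : ι → Fin n → ℤ} (hu : LinearIndependent ℤ u) {d d' : ι →₀ ℕ}
    (h : ∑ i ∈ d.support, d i • u i = ∑ i ∈ d'.support, d' i • u i) : d = d' := by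
  have e : ∀ d : ι →₀ ℕ, Finsupp.linearCombination ℤ u (d.mapRange Nat.cast Nat.cast_zero) =
      ∑ i ∈ d.support, d i • u i := fun d => by
    rw [Finsupp.linearCombination_apply, Finsupp.sum_mapRange_index (by simp), Finsupp.sum]
    simp only [natCast_zsmul]
  have h1 := hu (a₁ := d.mapRange Nat.cast Nat.cast_zero) (a₂ := d'.mapRange Nat.cast Nat.cast_zero)
    (by rw [e, e, h])
  ext i
  simpa using DFunLike.congr_fun h1 i

lemma two {ι : Type} {u : ι → Fin n → ℤ} (hu : LinearIndependent ℤ u) {P : MvPolynomial ι ℂ}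
    (hP : P ≠ 0) : MvPolynomial.aeval (fun i => mn (u i)) P ≠ 0 ∧
      Sup (· ∈ AddSubmonoid.closure (range u)) (MvPolynomial.aeval (fun i => mn (u i)) P) := by
  rw [aev]
  constructor
  · obtain ⟨d, hd⟩ := MvPolynomial.support_nonempty.2 hP
    refine ne_zero_iff.2 ⟨∑ i ∈ d.support, d i • u i, ?_⟩
    rw [← Finset.add_sum_erase _ _ hd]
    have h1 : Sup (fun w => w ≠ ∑ i ∈ d.support, d i • u i)
        (∑ d' ∈ P.support.erase d, P.coeff d' • mn (∑ i ∈ d'.support, d' i • u i)) :=
      Sup.sum fun d' hd' => (sup_mn.2 fun h => Finset.ne_of_mem_erase hd' (inj hu h)).smul _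
    have h2 := not_not.1 (mt (h1 _) (fun h => h rfl))
    rw [AddMonoidAlgebra.coeff_add, Finsupp.add_apply, h2, add_zero]
    simpa [coeff_mn] using MvPolynomial.mem_support_iff.1 hd
  · exact Sup.sum fun d _ => (sup_mn.2 (sum_mem fun i _ =>
      nsmul_mem (AddSubmonoid.subset_closure (mem_range_self i)) _)).smul _

end MONB

open MONB in
theorem st_MON : St_MON := by
  intro n
  refine ⟨fun G => ⟨fun h => mono h.ne_zero fun i => Hom.of_dvd (k := 0) one_ne_zero
    (sup_one (zero_dotProduct _)) h.dvd, fun ⟨u, c, hc, h⟩ => unit_of hc h⟩,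
    fun ι u hu P hP => two hu hP, fun F _ _ φ h hu h0 hk => ?_⟩
  by_contra hc
  push Not at hc
  obtain ⟨u, c, h1, h2⟩ := mono h0 fun i => by
    have h3 := hc i
    rw [algebraicIndependent_iff] at h3
    push Not at h3
    obtain ⟨P, h4, h5⟩ := h3
    have hl : LinearIndependent ℤ fun j : {j : Fin n // j ≠ i} => (Pi.single j.1 1 : Fin n → ℤ) := by
      simpa [Function.comp_def] using
        (Pi.basisFun ℤ (Fin n)).linearIndependent.comp (fun j : {j : Fin n // j ≠ i} => j.1)
          Subtype.val_injective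
    obtain ⟨h6, h7⟩ := two hl h5
    refine Hom.of_dvd (k := 0) h6 (Sup.mono h7 fun w hw => ?_) (hk _ ?_)
    · induction hw using AddSubmonoid.closure_induction with
      | mem x hx =>
        obtain ⟨j, rfl⟩ := hx
        simp [Pi.single_eq_of_ne j.2.symm]
      | zero => simp
      | add x y _ _ hx hy => rw [add_dotProduct, hx, hy, add_zero]
    · rw [MvPolynomial.comp_aeval_apply]
      exact h4
  exact hu (unit_of h1 h2)

end Pool.Agent.Lib.TF
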