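import Pool.Agent.Lib.TF.Blue
import Pool.Agent.Lib.MV.F_QUAD

open Set WithZero Pool.Agent.Lib.MP_e39d36_ag Pool.Agent.Lib.MP_e39d36_ag.Var Pool.Agent.Lib.DU
  Pool.Agent.Lib.MV

noncomputable section

namespace Pool.Agent.Lib.TF

namespace QUAB

variable {K : Type} [Field K]

lemma lin {L : Subfield K} {t t' d n : K} (hd : d ∈ L) (hn : n ∈ L) (h1 : t + t' = d)
    (h2 : t * t' = n) (h3 : ∀ α ∈ L, ∀ β ∈ L, α + β * t' = 0 → α + β * t = 0) {s : K}
    (hs : s ∈ Subfield.closure (insert t (L : Set K))) : ∃ α ∈ L, ∃ β ∈ L, s = α + β * t := by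
  induction hs using Subfield.closure_induction with
  | mem x hx =>
    rcases hx with rfl | hx
    · exact ⟨0, zero_mem _, 1, one_mem _, by ring⟩
    · exact ⟨x, hx, 0, zero_mem _, by ring⟩
  | one => exact ⟨1, one_mem _, 0, zero_mem _, by ring⟩
  | add x y _ _ hx hy =>
    obtain ⟨α, hα, β, hβ, rfl⟩ := hx
    obtain ⟨α', hα', β', hβ', rfl⟩ := hy
    exact ⟨α + α', add_mem hα hα', β + β', add_mem hβ hβ', by ring⟩
  | neg x _ hx =>
    obtain ⟨α, hα, β, hβ, rfl⟩ := hx
    exact ⟨-α, neg_mem hα, -β, neg_mem hβ, by ring⟩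
  | inv x _ hx =>
    obtain ⟨α, hα, β, hβ, rfl⟩ := hx
    by_cases h0 : α + β * t = 0
    · exact ⟨0, zero_mem _, 0, zero_mem _, by rw [h0]; simp⟩
    have h4 : α + β * t' ≠ 0 := fun h => h0 (h3 α hα β hβ h)
    have h5 : α * α + α * β * d + β * β * n = (α + β * t) * (α + β * t') := by
      rw [← h1, ← h2]; ring
    have h6 : α * α + α * β * d + β * β * n ∈ L :=
      add_mem (add_mem (mul_mem hα hα) (mul_mem (mul_mem hα hβ) hd)) (mul_mem (mul_mem hβ hβ) hn)
    refine ⟨_, div_mem (add_mem hα (mul_mem hβ hd)) h6, _, div_mem (neg_mem hβ) h6, ?_⟩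
    rw [h5, ← h1]
    field_simp
    ring
  | mul x y _ _ hx hy =>
    obtain ⟨α, hα, β, hβ, rfl⟩ := hx
    obtain ⟨α', hα', β', hβ', rfl⟩ := hy
    refine ⟨α * α' - β * β' * n, sub_mem (mul_mem hα hα') (mul_mem (mul_mem hβ hβ') hn),
      α * β' + β * α' + β * β' * d,
      add_mem (add_mem (mul_mem hα hβ') (mul_mem hβ hα')) (mul_mem (mul_mem hβ hβ') hd), ?_⟩
    rw [← h1, ← h2]; ring

lemma low {v : Valuation K ℤᵐ⁰} {t t' a b : K} (ht : t ≠ 0) (ht' : t' ≠ 0) (ha : a ≠ 0)
    (h : a * (t + t') = -b) (hb : b ≠ 0 → 0 ≤ od v b) (hlt : od v t < od v t') :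
    0 ≤ od v a + od v t := by
  have h0 : t + t' ≠ 0 := fun e => by
    rw [eq_neg_of_add_eq_zero_left e, od_neg] at hlt
    exact hlt.false
  have h1 := od_add (v := v) h0 (neg_ne_zero.2 ht') (by rwa [add_neg_cancel_right])
  rw [add_neg_cancel_right, od_neg] at h1
  have h2 := od_mul (v := v) ha h0
  rw [h, od_neg] at h2
  have h3 := hb fun e => mul_ne_zero ha h0 (by rw [h, e, neg_zero])
  omega

end QUAB

theorem st_QUA : St_QUA := by
  intro K _ _
  have : CharZero K := charZero_of_injective_algebraMap (algebraMap ℂ K).injective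
  refine ⟨fun L t a b c ht hL ha hb hc h0 h => ?_, fun X E t t' a b c ht ht' ha h1 h2 a1 b1 c1 hu => ?_⟩
  · obtain ⟨σ, h1, h2⟩ := Fb.st_quad L K t ⟨a, ha⟩ ⟨b, hb⟩ ⟨c, hc⟩
      (fun e => h0 (congrArg Subtype.val e)) h (by rintro ⟨x, rfl⟩; exact ht x.2) (by
        refine top_le_iff.1 fun x _ => ?_
        have h3 : Subfield.closure (insert t (L : Set K)) ≤
            (IntermediateField.adjoin L {t}).toSubfield := by
          refine Subfield.closure_le.2 ?_
          rintro y (rfl | hy)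
          · exact IntermediateField.subset_adjoin _ _ rfl
          · exact (IntermediateField.adjoin L {t}).algebraMap_mem ⟨y, hy⟩
        exact h3 (hL ▸ trivial))
    have hf : ∀ s ∈ L, σ s = s := fun s hs => σ.commutes ⟨s, hs⟩
    have h3 : a * (t + σ t) = -b := eq_neg_of_add_eq_zero_left h2
    have h4 : a * (t * σ t) = c := by linear_combination t * h3 - h
    refine ⟨σ.toRingEquiv, hf, h1, fun s hs => ?_, h3, h4, fun e => ?_⟩
    · obtain ⟨α, hα, β, hβ, rfl⟩ := QUAB.lin (t' := σ t) (div_mem (neg_mem hb) ha) (div_mem hc ha)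
        (by rw [← h3]; field_simp) (by rw [← h4]; field_simp) (fun α hα β hβ e => by
          have := congrArg σ e
          rwa [map_add, map_mul, hf α hα, hf β hβ, h1, map_zero] at this)
        (hL ▸ trivial : s ∈ Subfield.closure (insert t (L : Set K)))
      have h5 : σ (α + β * t) = α + β * t := hs
      rw [map_add, map_mul, hf α hα, hf β hβ] at h5
      by_cases hβ0 : β = 0
      · rw [hβ0, zero_mul, add_zero]; exact hα
      have h6 : σ t = t := mul_left_cancel₀ hβ0 (add_left_cancel h5)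
      refine absurd ?_ ht
      have h7 : t = -b / (a + a) := by
        rw [eq_div_iff (by rw [← two_mul]; exact mul_ne_zero two_ne_zero h0), ← h3, h6]; ring
      rw [h7]
      exact div_mem (neg_mem hb) (add_mem ha ha)
    · rw [e] at h
      have h5 : t ≠ 0 := fun e => ht (e ▸ zero_mem _)
      have h6 : t = -b / a := by
        rw [eq_div_iff h0]
        exact mul_left_cancel₀ h5 (by linear_combination h)
      exact ht (h6 ▸ div_mem (neg_mem hb) ha)
  · simp only [ord_val]
    have hV := isV E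
    have e1 := hV.od_nonneg a1
    have e2 := hV.od_nonneg c1
    have e3 : od (val E) c = od (val E) a + (od (val E) t + od (val E) t') := by
      rw [← h2, od_mul ha (mul_ne_zero ht ht'), od_mul ht ht']
    have e4 := QUAB.low (v := val E) ht ht' ha h1 fun _ => hV.od_nonneg b1
    have e5 := QUAB.low (v := val E) ht' ht ha (by rw [add_comm, h1]) fun _ => hV.od_nonneg b1
    rcases hu with hu | hu | hu
    · have := (hV.un_iff.1 hu).2
      omega
    · obtain ⟨e6, e7⟩ := hV.un_iff.1 hu
      have h0 : t + t' ≠ 0 := fun e => e6 (by rw [← neg_eq_zero, ← h1, e, mul_zero])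
      have e8 := od_add (v := val E) ht ht' h0
      have e9 := od_mul (v := val E) ha h0
      rw [h1, od_neg] at e9
      omega
    · have := (hV.un_iff.1 hu).2
      omega

end Pool.Agent.Lib.TF
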