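import Pool.Agent.Lib.TF.Blue

noncomputable section

namespace Pool.Agent.Lib.TF

namespace UFDB

/-- The inclusion of exponents. -/
def inc (n : ℕ) : (Fin n →₀ ℕ) →+ (Fin n → ℤ) where
  toFun d i := (d i : ℤ)
  map_zero' := by funext i; simp
  map_add' d e := by funext i; simp

lemma inc_inj (n : ℕ) : Function.Injective (inc n) := fun d e h => Finsupp.ext fun i => by
  have h1 : (d i : ℤ) = (e i : ℤ) := congrFun h i
  exact_mod_cast h1

lemma inc_surj {n : ℕ} (u : Fin n → ℤ) : ∃ d e, u + inc n e = inc n d :=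
  ⟨Finsupp.equivFunOnFinite.symm fun i => (u i).toNat,
    Finsupp.equivFunOnFinite.symm fun i => (-u i).toNat, funext fun i => by
      change u i + (((-u i).toNat : ℕ) : ℤ) = (((u i).toNat : ℕ) : ℤ)
      omega⟩

variable (k : Type) [Field k] (n : ℕ)

/-- Polynomials as Laurent polynomials. -/
def phi : MvPolynomial (Fin n) k →+* AddMonoidAlgebra k (Fin n → ℤ) :=
  AddMonoidAlgebra.mapDomainRingHom k (inc n)

lemma phi_single (d : Fin n →₀ ℕ) (c : k) :
    phi k n (AddMonoidAlgebra.single d c) = AddMonoidAlgebra.single (inc n d) c :=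
  AddMonoidAlgebra.mapDomain_single

lemma phi_inj : Function.Injective (phi k n) :=
  AddMonoidAlgebra.mapDomain_injective (inc_inj n)

lemma unit_single (u : Fin n → ℤ) :
    IsUnit (AddMonoidAlgebra.single u (1 : k) : AddMonoidAlgebra k (Fin n → ℤ)) :=
  IsUnit.of_mul_eq_one (AddMonoidAlgebra.single (-u) 1) (by
    rw [AddMonoidAlgebra.single_mul_single, add_neg_cancel, mul_one]; rfl)

lemma phi_surj (z : AddMonoidAlgebra k (Fin n → ℤ)) :
    ∃ x y, IsUnit (phi k n y) ∧ z * phi k n y = phi k n x := by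
  induction z using AddMonoidAlgebra.induction_linear with
  | zero => exact ⟨0, 1, by simp, by simp⟩
  | add z z' h h' =>
    obtain ⟨x, y, h1, h2⟩ := h
    obtain ⟨x', y', h3, h4⟩ := h'
    refine ⟨x * y' + x' * y, y * y', by rw [map_mul]; exact h1.mul h3, ?_⟩
    rw [map_add, map_mul, map_mul, map_mul, ← h2, ← h4]
    ring
  | single u c =>
    obtain ⟨d, e, h⟩ := inc_surj u
    refine ⟨AddMonoidAlgebra.single d c, AddMonoidAlgebra.single e 1, ?_, ?_⟩
    · rw [phi_single]; exact unit_single k n _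
    · rw [phi_single, phi_single, AddMonoidAlgebra.single_mul_single, h, mul_one]

end UFDB

open UFDB in
theorem st_UFD : St_UFD := fun k _ n => by
  let _ := (phi k n).toAlgebra
  have : IsLocalization ((IsUnit.submonoid _).comap (phi k n))
      (AddMonoidAlgebra k (Fin n → ℤ)) := by
    rw [isLocalization_iff]
    refine ⟨fun y => y.2, fun z => ?_, fun h => ⟨1, by rw [phi_inj k n h]⟩⟩
    obtain ⟨x, y, h1, h2⟩ := phi_surj k n z
    exact ⟨(x, ⟨y, h1⟩), h2⟩
  exact UniqueFactorizationMonoid.of_isLocalization ((IsUnit.submonoid _).comap (phi k n)) _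

end Pool.Agent.Lib.TF
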