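import Pool.Agent.Lib.TF.Defs

open Set Pool.Agent.Lib.MP_e39d36_ag Pool.Agent.Lib.MP_e39d36_ag.Var Pool.Agent.Lib.DU
  Pool.Agent.Lib.MV
open scoped Classical NNReal

noncomputable section

namespace Pool.Agent.Lib.TF

open Fano

/-! ### Algebra -/

/-- Laurent polynomial rings are factorial. -/
def St_UFD : Prop := ∀ (k : Type) [Field k] (n : ℕ),
  UniqueFactorizationMonoid (AddMonoidAlgebra k (Fin n → ℤ))

/-- Units and independent monomials. -/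
def St_MON : Prop := ∀ n : ℕ, (∀ G : La n, IsUnit G ↔ ∃ (u : Fin n → ℤ) (c : ℂ), c ≠ 0 ∧ G = c • mn u) ∧
  (∀ (ι : Type) (u : ι → Fin n → ℤ), LinearIndependent ℤ u → ∀ P : MvPolynomial ι ℂ, P ≠ 0 →
    MvPolynomial.aeval (fun i => mn (u i)) P ≠ 0 ∧
      Sup (· ∈ AddSubmonoid.closure (range u)) (MvPolynomial.aeval (fun i => mn (u i)) P)) ∧
  ∀ (F : Type) [Field F] [Algebra ℂ F] (φ : La n →ₐ[ℂ] F) (h : La n), ¬IsUnit h → h ≠ 0 →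
    (∀ G, φ G = 0 → h ∣ G) → ∃ i, AlgebraicIndependent ℂ
      fun j : {j : Fin n // j ≠ i} => φ (mn (Pi.single j.1 1))

/-- The counting lemma for independent coefficients. -/
def St_TD0 : Prop := ∀ (F : Type) [Field F] [Algebra ℂ F] (J : Type) (a : J → ℂ),
  AlgebraicIndependent ℚ a → ∀ (S : Finset J) (g : Finset F) (ι : Type) [Fintype ι] (y : ι → F),
  AlgebraicIndependent ℂ y →
  (∀ j ∈ S, algebraMap ℂ F (a j) ∈
    Subfield.closure ((fun j => algebraMap ℂ F (a j)) '' {j | j ∉ S} ∪ g)) →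
  (∀ i, y i ∈ Subfield.closure ((fun j => algebraMap ℂ F (a j)) '' {j | j ∉ S} ∪ g)) →
    S.card + Fintype.card ι ≤ g.card

/-- The logarithmic Jacobian criterion. -/
def St_JAC : Prop := ∀ (T : Fano) (f : T.R), T.Gen f → ∀ m, T.V m →
  ∃ (G₀ : T.R) (G : T.Ray → T.R), G₀ ∈ T.S (-1) (T.F m) ∧ (∀ ρ, G ρ ∈ T.S (-1) (T.F m)) ∧
    G₀ * f + ∑ ρ ∈ T.F m, G ρ * ld (T.v ρ) f = 1

/-- Disjoint parts are coprime. -/
def St_COPR : Prop := ∀ (T : Fano) (f : T.R), T.Gen f → ∀ S S' : T.M → Prop,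
  (∃ u, T.P u ∧ S u) → (∃ u, T.P u ∧ S' u) → (∀ u, S u → ¬S' u) →
    IsRelPrime (part S f) (part S' f)

/-- Common zeros in the torus. -/
def St_PTZ : Prop := ∀ (T : Fano) (f : T.R), T.Gen f → ∀ (J : Type) [Fintype J]
  (S : J → T.M → Prop) (u u' : J → T.M), (∀ i j, i ≠ j → ∀ w, S i w → ¬S j w) →
  (∀ j, T.P (u j) ∧ S j (u j) ∧ T.P (u' j) ∧ S j (u' j)) →
  LinearIndependent ℤ (fun j => u' j - u j) → ∃ ev : T.R →ₐ[ℂ] ℂ, ∀ j, ev (part (S j) f) = 0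

/-- A prime element below a prime ideal. -/
def St_LINA : Prop := ∀ (T : Fano) (f : T.R), T.Gen f → ∃ k : Subfield ℂ, Ink k f ∧
  Algebra.IsAlgebraic k ℂ ∧ ∀ 𝔭 : Ideal T.R, 𝔭.IsPrime → f ∈ 𝔭 →
    (∃ y ∈ 𝔭, Ink k y ∧ ¬f ∣ y) → ∃ h ∈ 𝔭, Ink k h ∧ ¬f ∣ h ∧
      ∀ y, Ink k y → ¬Dvm f h y → ∀ z, Dvm f h (y * z) → Dvm f h z

/-- Norms of Laurent polynomials. -/
def St_ORB : Prop := ∀ (n : ℕ) (k : Subfield ℂ), Algebra.IsAlgebraic k ℂ → ∀ x : La n,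
  ∃ s : Finset (La n), x ∈ s ∧ (∀ x' ∈ s, ∃ g : ℂ ≃+* ℂ, (∀ c ∈ k, g c = c) ∧ x' = cg g x) ∧
    Ink k (∏ x' ∈ s, x')

/-- A cubic that contains the line has few parameters. -/
def St_NOL : Prop := ∀ (F : Type) [Field F] (c : Cub F) (b b' : Prop), (b → c.c30 = 0) →
  (b' → c.c03 = 0) → c.a2 = 0 → c.a1 = 0 → c.a0 = 0 →
  (∃ s : Finset F, c.In (Subfield.closure (s : Set F)) ∧
    s.card + (if b then 1 else 0) + (if b' then 1 else 0) ≤ 7) ∧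
  ∀ ξ ζ : F, ξ ≠ 0 → ζ ≠ 0 → c.ev ξ ζ = 0 → ξ * c.X0 + ζ * c.Z0 = c.q0 →
    ∃ s : Finset F, c.In (Subfield.closure (s ∪ {ξ, ζ} : Set F)) ∧
      s.card + (if b then 1 else 0) + (if b' then 1 else 0) ≤ 6

/-- Quadratic extensions and the content of a quadratic polynomial. -/
def St_QUA : Prop := ∀ (K : Type) [Field K] [Algebra ℂ K],
  (∀ (L : Subfield K) (t a b c : K), t ∉ L → Subfield.closure (insert t (L : Set K)) = ⊤ →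
    a ∈ L → b ∈ L → c ∈ L → a ≠ 0 → a * t ^ 2 + b * t + c = 0 →
      ∃ φ : RingAut K, (∀ s ∈ L, φ s = s) ∧ (∀ s, φ (φ s) = s) ∧ (∀ s, φ s = s → s ∈ L) ∧
        a * (t + φ t) = -b ∧ a * (t * φ t) = c ∧ c ≠ 0) ∧
  ∀ (X : Var K) (E : X.PD) (t t' a b c : K), t ≠ 0 → t' ≠ 0 → a ≠ 0 → a * (t + t') = -b →
    a * (t * t') = c → a ∈ X.O E.1 → b ∈ X.O E.1 → c ∈ X.O E.1 →
    (Un (X.O E.1) a ∨ Un (X.O E.1) b ∨ Un (X.O E.1) c) →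
      X.ord a E.1 = max 0 (-X.ord t E.1) + max 0 (-X.ord t' E.1) ∧
      X.ord c E.1 = max 0 (X.ord t E.1) + max 0 (X.ord t' E.1)

/-- Automorphisms of the function field of a variety with trivial canonical sheaf. -/
def St_PSA : Prop := ∀ (K : Type) [Field K] [Algebra ℂ K] (X : Var K) (d : ℕ),
  Algebra.trdeg ℂ K = d → Module.finrank K Ω[K⁄ℂ] = d → ∀ J : Ω[K⁄ℂ] [⋀^Fin d]→ₗ[K] K,
  (∀ z (ω : Fin d → Ω[K⁄ℂ]), (∀ i, ω i ∈ frm (X.O z)) → J ω ∈ X.O z) →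
  (∀ z, ∃ ω : Fin d → Ω[K⁄ℂ], (∀ i, ω i ∈ frm (X.O z)) ∧ Un (X.O z) (J ω)) →
    ∀ φ : RingAut K, (∀ a : ℂ, φ (algebraMap ℂ K a) = algebraMap ℂ K a) →
      ∃ e : X.PD ≃ X.PD, End.Ps φ e

/-! ### Cohomology -/

/-- The sequence of a pair, monomial systems and the simplex. -/
def St_COC : Prop := ∀ (V : Type) [LinearOrder V] (W : Finset V) (q : ℕ),
  (∀ (A : Type) [AddCommGroup A] (W' : Finset V) (N : Finset V → AddSubgroup A), W' ⊆ W →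
    Monotone N → Ex W' N q → Ex W N (q + 1) → Ex W (fun s => if s ⊆ W' then ⊥ else N s) (q + 1)) ∧
  (∀ (I : Type) (P : I → Finset V → Prop), (∀ β, Ex W (rk ℂ (P β)) q) → Ex W (supp ℂ P) q) ∧
  (W.Nonempty → 2 ≤ q → Ex W (rk ℂ fun s => s ≠ ∅) q)

/-- Separation passes to the link, and a local minimum is global. -/
def St_SEP : Prop := ∀ (T : Fano) (τ I : Finset T.Ray), T.Face τ → T.Sep τ I →
  (∃ ρ ∈ I, T.Face (insert ρ τ)) → ∃ v ∈ I, v ∉ τ ∧ T.Face (insert v τ) ∧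
    T.Sep τ ((I.filter fun ρ => T.Face (insert ρ τ)).erase v) ∧
    T.Sep (insert v τ) ((I.filter fun ρ => T.Face (insert ρ τ)).erase v) ∧
    (τ.card + 2 ≤ T.n → ((I.filter fun ρ => T.Face (insert ρ τ)).erase v).Nonempty →
      ∃ ρ ∈ I, ρ ≠ v ∧ T.Face (insert ρ (insert v τ)))

/-- The combinatorial vanishing theorem. -/
def St_VAN : Prop := ∀ (T : Fano) (τ I : Finset T.Ray) (q : ℕ), T.Face τ → T.Sep τ I →
  q + τ.card ≤ T.n → Ex (T.W τ) (rk ℂ (T.Nv τ I)) q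

/-- Vanishing on orbit closures. -/
def St_VANZ : Prop := ∀ (T : Fano) (τ : Finset T.Ray) (j : ℤ) (q : ℕ), T.Face τ → 2 ≤ q →
  q + τ.card ≤ T.n → Ex (T.W τ) (T.Zs τ j) q

/-- Global functions on the trace of a toric divisor are constant. -/
def St_CONN : Prop := ∀ (T : Fano) (f : T.R), T.Gen f → ∀ (ρ : T.Ray) (G : T.M → T.R),
  (∀ m, T.V m → ρ ∈ T.F m → Hom (T.v ρ) 0 (G m) ∧ G m ∈ T.S 0 (T.F m)) →
  (∀ m m', T.V m → T.V m' → ρ ∈ T.F m → ρ ∈ T.F m' → T.fr f ρ ∣ G m - G m') →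
    ∃ c : ℂ, ∀ m, T.V m → ρ ∈ T.F m → T.fr f ρ ∣ G m - algebraMap ℂ T.R c

/-- The trace of a toric divisor is irreducible. -/
def St_IRR : Prop := ∀ (T : Fano) (f : T.R), T.Gen f → ∀ ρ, Prime (T.fr f ρ)

/-! ### The model -/

/-- Points and charts. -/
def St_PTS : Prop := ∀ (T : Fano) (K : Type) [Field K] [Algebra ℂ K] (M : T.Mod0 K), M.Pts

/-- Toric prime divisors exist. -/
def St_TP1 : Prop := ∀ (T : Fano) (K : Type) [Field K] [Algebra ℂ K] (M : T.Mod0 K) (ρ : T.Ray),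
  ∃ E, M.IsD ρ E

/-- All other prime divisors meet the torus. -/
def St_TP2 : Prop := ∀ (T : Fano) (K : Type) [Field K] [Algebra ℂ K] (M : T.Mod0 K)
  (D : T.Ray → M.X.PD), (∀ ρ, M.IsD ρ (D ρ)) → ∀ E, M.NT E ∨ ∃ ρ, E = D ρ

/-- Basic properties. -/
def St_BAS : Prop := ∀ (T : Fano) (K : Type) [Field K] [Algebra ℂ K] (M : T.Mod K), M.Bas

/-- Dimension and the relations among logarithmic forms. -/
def St_REL : Prop := ∀ (T : Fano) (K : Type) [Field K] [Algebra ℂ K] (M : T.Mod K),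
  Algebra.trdeg ℂ K = (T.n - 1 : ℕ) ∧ Function.Surjective M.β ∧
    (∀ G, KaehlerDifferential.D ℂ K (M.ψ G) = M.β fun i => M.ψ (ld (Pi.single i 1) G)) ∧
    M.θ ≠ 0 ∧ ∀ g, M.β g = 0 ↔ ∃ k : K, g = k • M.θ

/-- Regular and logarithmic forms. -/
def St_FRM : Prop := ∀ (T : Fano) (K : Type) [Field K] [Algebra ℂ K] (M : T.Mod K),
  (∀ τ, T.Face τ → ∀ ω ∈ frm (M.B τ), ∃ g : Fin T.n → K, (∀ i, g i ∈ M.B τ) ∧
    (∀ ρ ∈ τ, Mod0.pr g (T.v ρ) ∈ ordGe (M.D ρ) 1) ∧ M.β g = ω) ∧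
  (∀ E (g : Fin T.n → K), (∀ i, g i ∈ M.X.O E.1) → (M.NT E → M.β g ∈ frm (M.X.O E.1)) ∧
    ∀ ρ (c : ℂ), E = M.D ρ → Mod0.pr g (T.v ρ) - algebraMap ℂ K c ∈ ordGe E 1 →
      ∀ π, M.X.ord π E.1 = 1 → M.β g - c • dlog π ∈ frm (M.X.O E.1)) ∧
  (∀ τ, T.Face τ → ∀ k : K, (∀ i, k * M.θ i ∈ M.B τ) ↔ ∃ G ∈ T.S (-1) τ, M.ψ G = k) ∧
  ∀ τ, T.Face τ → ∀ (g : Fin T.n → K), (∀ i, g i ∈ M.B τ) → M.β g ∈ frm (M.B τ) →
    ∀ ρ ∈ τ, Mod0.pr g (T.v ρ) ∈ ordGe (M.D ρ) 1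

/-- Logarithmic forms have no first cohomology. -/
def St_NY : Prop := ∀ (T : Fano) (K : Type) [Field K] [Algebra ℂ K] (M : T.Mod K),
  Ex (T.W ∅) M.Om 2

/-- The Lefschetz theorem. -/
def St_LEF : Prop := ∀ (T : Fano) (K : Type) [Field K] [Algebra ℂ K] (M : T.Mod K) (W : Dv M.X),
  ∃ c : T.Ray → ℂ, Res fun E => (W E : ℂ) - cmb c (fun ρ => Finsupp.single (M.D ρ) 1) E

/-- Every automorphism permutes the prime divisors. -/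
def St_PS : Prop := ∀ (T : Fano) (K : Type) [Field K] [Algebra ℂ K] (M : T.Mod K) (φ : RingAut K),
  (∀ a : ℂ, φ (algebraMap ℂ K a) = algebraMap ℂ K a) → ∃ e : M.X.PD ≃ M.X.PD, End.Ps φ e

/-- Conjugation. -/
def St_GAL : Prop := ∀ (T : Fano) (K : Type) [Field K] [Algebra ℂ K] (M : T.Mod K) (g : ℂ ≃+* ℂ),
  cg g M.f = M.f → ∃ (φ : RingAut K) (e : M.X.PD ≃ M.X.PD), (∀ G, φ (M.ψ G) = M.ψ (cg g G)) ∧
    ∀ s E, M.X.ord (φ s) (e E).1 = M.X.ord s E.1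

/-- Conjugate divisors are numerically equivalent. -/
def St_GALN : Prop := ∀ (T : Fano) (K : Type) [Field K] [Algebra ℂ K] (M : T.Mod K) (g : ℂ ≃+* ℂ)
  (φ : RingAut K) (e : M.X.PD ≃ M.X.PD), (∀ G, φ (M.ψ G) = M.ψ (cg g G)) →
  (∀ s E, M.X.ord (φ s) (e E).1 = M.X.ord s E.1) →
    ∀ E, M.nc (Finsupp.single (e E) 1) = M.nc (Finsupp.single E 1)

/-- The primes over a prime element are conjugate. -/
def St_LINB : Prop := ∀ (T : Fano) (K : Type) [Field K] [Algebra ℂ K] (M : T.Mod K)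
  (k : Subfield ℂ), Ink k M.f → Algebra.IsAlgebraic k ℂ → ∀ h, Ink k h → M.ψ h ≠ 0 →
  (∀ y, Ink k y → ¬Dvm M.f h y → ∀ z, Dvm M.f h (y * z) → Dvm M.f h z) →
  ∀ E E', M.NT E → M.NT E' → M.ψ h ∈ ordGe E 1 → M.ψ h ∈ ordGe E' 1 →
    ∃ (g : ℂ ≃+* ℂ) (φ : RingAut K) (e : M.X.PD ≃ M.X.PD), (∀ c ∈ k, g c = c) ∧
      (∀ G, φ (M.ψ G) = M.ψ (cg g G)) ∧ (∀ s E, M.X.ord (φ s) (e E).1 = M.X.ord s E.1) ∧ e E = E'

/-- A multiple of a prime divisor is numerically a member of a toric linear system supported on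
its conjugates. -/
def St_LIN : Prop := ∀ (T : Fano) (K : Type) [Field K] [Algebra ℂ K] (M : T.Mod K),
  ∃ k : Subfield ℂ, Ink k M.f ∧ ∀ E, M.NT E → ∃ (N : ℕ) (a : T.Λ) (s : K), 0 < N ∧ s ≠ 0 ∧
    0 ≤ M.std a + M.X.div s ∧ M.nc (M.std a) = N • M.nc (Finsupp.single E 1) ∧
    ∀ E', (M.std a + M.X.div s) E' ≠ 0 → M.NT E' ∧
      ∀ G, Ink k G → M.X.ord (M.ψ G) E'.1 = M.X.ord (M.ψ G) E.1

/-- Monomial curves. -/
def St_CURV : Prop := ∀ (T : Fano) (K : Type) [Field K] [Algebra ℂ K] (M : T.Mod K)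
  (τ : Finset T.Ray) (w w' : T.Ray), w ∉ τ → T.Face (insert w τ) → T.Face (insert w' τ) →
  (∀ u : T.M, (∀ ρ ∈ τ, u ⬝ᵥ T.v ρ = 0) → u ⬝ᵥ T.v w + u ⬝ᵥ T.v w' = 0) →
  ∀ ev : T.R →ₐ[ℂ] ℂ,
  (∀ j, ev (part (fun u => (∀ ρ ∈ τ, u ⬝ᵥ T.v ρ = -1) ∧ u ⬝ᵥ T.v w = j) M.f) = 0) →
    ∃ φ : M.Γ.N1 →ₗ[ℝ] ℝ, ∀ (a : T.Λ) (u : T.M), (∀ ρ ∈ τ, u ⬝ᵥ T.v ρ = a ρ) →
      u ⬝ᵥ T.v w' = a w' → φ (M.nc (M.std a)) = a w - (u ⬝ᵥ T.v w : ℤ)

/-- The relations are functionals on numerical classes. -/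
def St_CV : Prop := ∀ (T : Fano) (K : Type) [Field K] [Algebra ℂ K] (M : T.Mod K),
  (∀ z z', T.Opp z z' → ∃ φ : M.Γ.N1 →ₗ[ℝ] ℝ, ∀ a, φ (M.cl a) = a z + a z') ∧
  ∀ x z y, T.Tri x z y → ∃ φ : M.Γ.N1 →ₗ[ℝ] ℝ, ∀ a, φ (M.cl a) = a x + a z - a y

/-- Counting modulo a prime divisor that meets the torus. -/
def St_TDN : Prop := ∀ (T : Fano) (K : Type) [Field K] [Algebra ℂ K] (M : T.Mod K) (E : M.X.PD),
  M.NT E → ∀ (F : Type) [Field F] [Algebra ℂ F] (γ : CMap M.X F), γ.c = E.1 →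
  ∀ (J : Type) (I : Finset J) (S : J → T.M → Prop), (∀ i j, i ≠ j → ∀ u, S i u → ¬S j u) →
  (∀ j ∈ I, ∃ u, T.P u ∧ S j u) → ∀ s : Finset F,
  (∀ j ∈ I, γ.τ (M.ψ (part (S j) M.f)) ∈
    Subfield.closure (s ∪ range fun u => γ.τ (M.χ u) : Set F)) → I.card ≤ s.card + 2

/-- Counting at a point that dominates the torus of a sublattice. -/
def St_TDT : Prop := ∀ (T : Fano) (K : Type) [Field K] [Algebra ℂ K] (M : T.Mod K)
  (F : Type) [Field F] [Algebra ℂ F] (γ : CMap M.X F) (L : Submodule ℤ T.M),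
  (∀ G, G ≠ 0 → Sup (· ∈ L) G → Un (M.X.O γ.c) (M.ψ G)) →
  ∀ (J : Type) (I : Finset J) (S : J → T.M → Prop) (t : J → T.M),
  (∀ i j, i ≠ j → ∀ u, S i u → ¬S j u) → (∀ j ∈ I, ∃ u, T.P u ∧ S j u) →
  (∀ j u, S j u → u + t j ∈ L) → ∀ s : Finset F,
  (∀ j ∈ I, γ.τ (M.ψ (part (S j) M.f * mn (t j))) ∈ Subfield.closure (s : Set F)) →
    I.card ≤ s.card

/-! ### Sections -/

/-- Leading terms. -/
def St_LT : Prop := ∀ (T : Fano) (K : Type) [Field K] [Algebra ℂ K] (M : T.Mod K) (x z y : T.Ray),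
  T.Tri x z y → ∀ (a : T.Λ) (k : ℕ), a y = a x + a z + k → ∀ s ∈ M.Sec a,
    ∃ H : T.R, Hom (T.v x) (-a x) H ∧ Hom (T.v z) (-a z) H ∧
      (∀ ρ, T.Nb y ρ → ρ ≠ x → ρ ≠ z → Lo (T.v ρ) (k - a ρ) H) ∧
      s - M.ψ H * M.al x z ^ k ∈ ordGe (M.D y) (1 - a y)

/-- The generators. -/
def St_GEN : Prop := ∀ (T : Fano) (K : Type) [Field K] [Algebra ℂ K] (M : T.Mod K) (x z y : T.Ray),
  T.Tri x z y → M.w x z ∈ M.Sec (T.om x z) ∧ M.p x z ∈ M.Sec (T.ka x z y) ∧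
    M.w x z - M.al x z ∈ ordGe (M.D y) 0 ∧ M.p x z + M.al x z ^ 2 ∈ ordGe (M.D y) (-1) ∧
    M.al x z ≠ 0 ∧ M.X.ord (M.al x z) (M.D y).1 = -1 ∧ M.p z x = M.p x z ∧
    M.w x z ≠ 0 ∧ M.X.ord (M.w x z) (M.D y).1 = -1 ∧
    M.p x z ≠ 0 ∧ M.X.ord (M.p x z) (M.D y).1 = -2 ∧
    T.fr M.f y = T.cl M.f x z 1 0 + T.cl M.f x z 0 1 ∧
    (M.al x z + M.al z x) * M.p x z = M.al z x ^ 2 * M.ψ (T.pA M.f x z) -
      M.al x z * M.al z x * M.ψ (T.pC M.f x z) + M.al x z ^ 2 * M.ψ (T.pA M.f z x)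

/-- Two inequalities for tight sections. -/
def St_CI : Prop := ∀ (T : Fano) (K : Type) [Field K] [Algebra ℂ K] (M : T.Mod K) (x z y : T.Ray),
  T.Tri x z y → ∀ a : T.Λ, ∀ s ∈ M.Sec a,
    (∀ u t, T.Tri y u t → t ≠ x → t ≠ z → s ∉ ordGe (M.D t) (1 - a t) →
      0 ≤ a x + a z - a y + 2 * (a y + a u - a t)) ∧
    ∀ (k : ℕ) (ε : ℂ), ε ≠ 0 → a x = 0 → 0 ≤ a z → a z ≤ k → a y = k →
      s - ε • M.al x z ^ k ∈ ordGe (M.D y) (1 - k) →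
        ∀ ρ, T.Nb y ρ → ρ ≠ x → ρ ≠ z → s ∉ ordGe (M.D ρ) (1 - k)

/-- Sections that come from the toric variety. -/
def St_BASE : Prop := ∀ (T : Fano) (K : Type) [Field K] [Algebra ℂ K] (M : T.Mod K) (a : T.Λ),
  (∀ z z', T.Opp z z' → 1 ≤ a z + a z') → ∀ s ∈ M.Sec a,
  (∀ x z y, T.Tri x z y → s ∈ ordGe (M.D y) (-a x - a z)) →
    ∃ G ∈ T.S a Finset.univ, M.ψ G = s

/-- One step of the reduction. -/
def St_STEP : Prop := ∀ (T : Fano) (K : Type) [Field K] [Algebra ℂ K] (M : T.Mod K) (a : T.Λ),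
  (∀ z z', T.Opp z z' → 1 ≤ a z + a z') →
  (∀ x z y w, T.Tri x z y → T.Opp y w → 1 ≤ a x + a z + a w) → ∀ s ∈ M.Sec a, s ≠ 0 →
  ∀ x z y, T.Tri x z y → ∀ k : ℕ, M.X.ord s (M.D y).1 = -a x - a z - k →
    ∃ s' ∈ Submodule.span ℂ {t | ∃ (i j : ℕ) (u : T.M),
      i • T.om x z + j • T.ka x z y ≤ T.mv u + a ∧ t = M.χ u * M.w x z ^ i * M.p x z ^ j},
      s - s' ∈ ordGe (M.D y) (1 - a x - a z - k)

/-- The generators span all sections in the interior of the chamber. -/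
def St_SPAN : Prop := ∀ (T : Fano) (K : Type) [Field K] [Algebra ℂ K] (M : T.Mod K) (a : T.Λ),
  (∀ z z', T.Opp z z' → 1 ≤ a z + a z') →
  (∀ x z y w, T.Tri x z y → T.Opp y w → 1 ≤ a x + a z + a w) →
    (∀ t, M.Term a t → t ≠ 0 ∧ t ∈ M.Sec a) ∧ M.Sec a ≤ Submodule.span ℂ {t | M.Term a t}

/-! ### Involutions -/

/-- The involution of a line exists. -/
def St_IOT0 : Prop := ∀ (T : Fano) (K : Type) [Field K] [Algebra ℂ K] (M : T.Mod K) (z z' : T.Ray),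
  T.Opp z z' → ∃ φ e, M.Iot z φ e

/-- Its action on the other toric primes. -/
def St_IOT1 : Prop := ∀ (T : Fano) (K : Type) [Field K] [Algebra ℂ K] (M : T.Mod K) (z z' : T.Ray),
  T.Opp z z' → ∀ φ e, M.Iot z φ e →
    (∀ ρ, ρ ≠ z → ρ ≠ z' → (∀ y, ¬T.Tri ρ z y) → (∀ x, ¬T.Tri x z ρ) → e (M.D ρ) = M.D ρ) ∧
    ∀ x y, T.Tri x z y → e (M.D x) = M.D y

/-- The divisor of the constant coefficient. -/
def St_IOT2 : Prop := ∀ (T : Fano) (K : Type) [Field K] [Algebra ℂ K] (M : T.Mod K) (z z' : T.Ray),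
  T.Opp z z' → ∀ φ e, M.Iot z φ e → M.ψ (inn (T.v z) (-1) M.f) ≠ 0 ∧
    Finsupp.single (e (M.D z)) 1 =
      M.std (T.Tp ℤ z z' (Pi.single z 1)) + M.X.div (M.ψ (inn (T.v z) (-1) M.f))

/-- The action on toric divisors. -/
def St_IOT3 : Prop := ∀ (T : Fano) (K : Type) [Field K] [Algebra ℂ K] (M : T.Mod K) (z z' : T.Ray),
  T.Opp z z' → ∀ φ e, M.Iot z φ e → ∀ a : T.Λ, End.push e (M.std a) = M.std (T.Tp ℤ z z' a) +
    M.X.div (M.ψ (inn (T.v z) (-1) M.f) ^ a z * M.ψ (inn (T.v z) 1 M.f) ^ a z')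

/-- Functions on the base that are regular on the torus. -/
def St_NRM0 : Prop := ∀ (T : Fano) (K : Type) [Field K] [Algebra ℂ K] (M : T.Mod K) (z z' : T.Ray),
  T.Opp z z' → ∀ G H Q : T.R, Hom (T.v z) 0 G → Hom (T.v z) 0 H → H ≠ 0 →
    M.ψ G = M.ψ H * M.ψ Q → ∃ N, Hom (T.v z) 0 N ∧ G = H * N

/-- Positivity of norms. -/
def St_NORM : Prop := ∀ (T : Fano) (K : Type) [Field K] [Algebra ℂ K] (M : T.Mod K),
  ∀ a ∈ M.Eff, ∀ z z', T.Opp z z' → ∀ (h : T.Λ) (j : ℤ), (∀ ρ, 0 ≤ h ρ) → h z = 0 → h z' = 0 →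
    ∑ ρ, h ρ • T.v ρ = j • T.v z →
      0 ≤ h ⬝ᵥ (a + T.Tp ℤ z z' a) - j * (a + T.Tp ℤ z z' a) z

/-- The equations of the fibre cubic. -/
def St_EQS : Prop := ∀ (T : Fano) (K : Type) [Field K] [Algebra ℂ K] (M : T.Mod K) (q : T.Pq),
  M.Eqs q

/-- The involution of a pointed triangle exists. -/
def St_SIG0 : Prop := ∀ (T : Fano) (K : Type) [Field K] [Algebra ℂ K] (M : T.Mod K) (q : T.Pq),
  ∃ φ e, M.Sig q φ e

/-- It fixes the section and the vertical toric primes. -/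
def St_SIG1 : Prop := ∀ (T : Fano) (K : Type) [Field K] [Algebra ℂ K] (M : T.Mod K) (q : T.Pq)
  (φ : RingAut K) (e : M.X.PD ≃ M.X.PD), M.Sig q φ e →
    e (M.D q.y) = M.D q.y ∧ (∀ ρ, ¬T.InV q.x q.z ρ → e (M.D ρ) = M.D ρ) ∧
    ∀ E, M.MT q (e E) ↔ M.MT q E

/-- The residual quadratic has content zero. -/
def St_CON : Prop := ∀ (T : Fano) (K : Type) [Field K] [Algebra ℂ K] (M : T.Mod K) (q : T.Pq)
  (E : M.X.PD), M.MT q E → E ≠ M.D q.y → Un (M.X.O E.1) (M.cub q).a2 ∨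
    Un (M.X.O E.1) (M.cub q).a1 ∨ Un (M.X.O E.1) (M.cub q).a0

/-- Orders along the section and the vertical toric primes. -/
def St_TGT : Prop := ∀ (T : Fano) (K : Type) [Field K] [Algebra ℂ K] (M : T.Mod K) (q : T.Pq),
  (∀ ρ, ρ = q.y ∨ ¬T.InV q.x q.z ρ → (M.cub q).a2 ≠ 0 ∧
    M.X.ord (M.cub q).a2 (M.D ρ).1 = 2 * (q.zs ⬝ᵥ T.v ρ) - 3 * T.ka q.x q.z q.y ρ) ∧
  ∀ ρ, ρ = q.y ∨ ¬T.InV q.x q.z ρ → (M.cub q).p + (M.cub q).c01 * (M.cub q).c21 ≠ 0 ∧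
    M.X.ord ((M.cub q).p + (M.cub q).c01 * (M.cub q).c21) (M.D ρ).1 = -T.ka q.x q.z q.y ρ

/-- The divisors of the leading coefficient and of its factor. -/
def St_SIG2 : Prop := ∀ (T : Fano) (K : Type) [Field K] [Algebra ℂ K] (M : T.Mod K) (q : T.Pq)
  (φ : RingAut K) (e : M.X.PD ≃ M.X.PD), M.Sig q φ e →
    End.LE (End.push e (M.std (Pi.single q.z 1 + ∑ σ with T.Opp q.x σ, Pi.single σ 1)))
      (M.std (Pi.single q.z 1 + 3 • T.ka q.x q.z q.y - Pi.single q.w 2 -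
        ∑ σ with T.Opp q.z σ, Pi.single σ 2 - ∑ σ with T.Opp q.x σ, Pi.single σ 1)) ∧
    ∀ σ, T.Opp q.x σ → End.LE (End.push e (M.std (Pi.single σ 1)))
      (M.std (T.ka q.x q.z q.y - Pi.single σ 1))

/-- The generators act on toric divisors. -/
def St_ACT : Prop := ∀ (T : Fano) (K : Type) [Field K] [Algebra ℂ K] (M : T.Mod K) (g : T.Gn),
  ∃ (φ : RingAut K) (e : M.X.PD ≃ M.X.PD), End.Ps φ e ∧
    ∀ a, End.LE (End.push e (M.std a)) (M.std (T.act ℤ g a))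

/-! ### The end -/

/-- The generators act on numerical classes. -/
def St_PULL : Prop := ∀ (T : Fano) (K : Type) [Field K] [Algebra ℂ K] (M : T.Mod K),
  Function.Surjective M.cl ∧
    ∀ l : List T.Gn, ∃ φ L, M.Γ.IsPull φ L ∧ ∀ a, L (M.cl a) = M.cl (T.wd ℝ l a)

/-- Effective classes. -/
def St_EFF : Prop := ∀ (T : Fano) (K : Type) [Field K] [Algebra ℂ K] (M : T.Mod K),
  T.EffS M.Eff ∧ ∀ y ∈ M.Γ.cone {D | 0 ≤ D.1}, ∃ x ∈ Submodule.span ℝ≥0 (rc '' M.Eff), M.cl x = y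

/-- Movable classes in the interior of the chamber. -/
def St_CONE : Prop := ∀ (T : Fano) (K : Type) [Field K] [Algebra ℂ K] (M : T.Mod K),
  ∃ S : Set T.Λ, S.Finite ∧ (∀ a ∈ S, Mov (M.std a)) ∧ ∀ (D : Dv M.X) (x : T.Ray → ℝ), Mov D →
    M.nc D = M.cl x → (∀ z z', T.Opp z z' → 0 < x z + x z') →
    (∀ s z y w, T.Tri s z y → T.Opp y w → 0 < x s + x z + x w) →
      M.nc D ∈ Submodule.span ℝ≥0 ((fun a => M.nc (M.std a)) '' S)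

/-- The cone conjecture for a model. -/
def St_FIN : Prop := ∀ (T : Fano) (K : Type) [Field K] [Algebra ℂ K] (M : T.Mod K), End.Cone M.Γ

end Pool.Agent.Lib.TF
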