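import Pool.Agent.Lib.TF.LDefs

open Set
open scoped NNReal

noncomputable section

namespace Pool.Agent.Lib.TF

open Fano

/-- Coordinates and stars. -/
def St_C0 : Prop := ∀ T : Fano, T.C0

/-- Primitive pairs, first part. -/
def St_C1A : Prop := ∀ T : Fano, T.C1a

/-- Primitive pairs. -/
def St_C1 : Prop := ∀ T : Fano, T.C1

/-- Integral heights that are bounded below attain their minimum on real combinations. -/
def St_MIN : Prop := ∀ (T : Fano) (E : Set T.Λ) (W : Type) [Nonempty W]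
  (φ : W → (T.Ray → ℝ) →ₗ[ℝ] ℝ), (∀ a ∈ E, ∀ w, ∃ z : ℤ, φ w (rc a) = z) →
  (∀ a ∈ E, ∃ b : ℝ, ∀ w, b ≤ φ w (rc a)) → ∀ x ∈ Submodule.span ℝ≥0 (rc '' E),
    ∃ w₀, ∀ w, φ w₀ x ≤ φ w x

/-- Intersections of finitely generated monoids of lattice points. -/
def St_GORD : Prop := ∀ (T : Fano) (I J : Type) [Finite I] [Nonempty I] [Fintype J]
  (deg : J → T.Λ) (ok : I → J → Prop), ∃ S : Set T.Λ, S.Finite ∧
    ∀ a, a ∈ AddSubmonoid.closure S ↔ ∀ i, ∃ (c : J → ℕ) (u : T.M), (∀ j, c j ≠ 0 → ok i j) ∧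
      a = ∑ j, c j • deg j + T.mv u

/-- The generators on a pentagon. -/
def St_PL7 : Prop := ∀ (T : Fano) (S : T.Pent), (∀ σ, ¬T.Opp S.v2 σ) →
  ∀ (k : Type) [CommRing k] (a : T.Ray → k), T.PL7 k S a

/-- The generators on a hexagon. -/
def St_PL6 : Prop := ∀ (T : Fano) (S : T.Pent) (v6 : T.Ray), T.Opp S.v2 v6 →
  ∀ (k : Type) [CommRing k] (a : T.Ray → k), T.PL6 k S v6 a

/-- At a minimum of the fibre degree of a plane the conditions outside the plane hold. -/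
def St_OUT : Prop := ∀ (T : Fano) (S : T.Pent) (d : T.Λ), (∀ ρ, 0 ≤ d ρ) →
  (∀ ρ, ¬T.InV S.v1 S.v3 ρ → d ρ = 0) → (∀ ρ, 5 * d ρ < 3 * ∑ σ, d σ) → ∀ y : T.Ray → ℝ,
  (∀ l, rc d ⬝ᵥ y ≤ rc d ⬝ᵥ T.wd ℝ l y) →
    (∀ z z', T.Opp z z' → ¬T.InV S.v1 S.v3 z → 0 ≤ y z + y z') ∧
    ∀ x z y' w, T.Tri x z y' → T.Opp y' w → ¬T.InV S.v1 S.v3 x → 0 ≤ y x + y z + y w

/-- Effective classes of fibre degree zero on a pentagon. -/
def St_ZE7 : Prop := ∀ (T : Fano) (E : Set T.Λ), T.EffS E → ∀ S : T.Pent, (∀ σ, ¬T.Opp S.v2 σ) →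
  ∀ a ∈ E, 0 ≤ a S.v1 + a S.v2 + a S.v3 + 2 * a S.v4 + 2 * a S.v5 ∧
    (a S.v1 + a S.v2 + a S.v3 + 2 * a S.v4 + 2 * a S.v5 = 0 →
      a S.v1 + a S.v4 = 0 ∧ a S.v3 + a S.v5 = 0)

/-- Effective classes of fibre degree zero on a hexagon. -/
def St_ZE6 : Prop := ∀ (T : Fano) (E : Set T.Λ), T.EffS E → ∀ (S : T.Pent) (v6 : T.Ray),
  T.Opp S.v2 v6 → ∀ a ∈ E, 0 ≤ a S.v1 + a S.v2 + a S.v3 + a S.v4 + a S.v5 + a v6 ∧
    (a S.v1 + a S.v2 + a S.v3 + a S.v4 + a S.v5 + a v6 = 0 →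
      a S.v1 + a S.v4 = 0 ∧ a S.v3 + a S.v5 = 0 ∧ a S.v2 + a S.v4 + a S.v5 = 0)

/-- Descent in the presence of a pentagon. -/
def St_DE7 : Prop := ∀ (T : Fano) (E : Set T.Λ), T.EffS E → ∀ S : T.Pent, (∀ σ, ¬T.Opp S.v2 σ) →
  T.Desc E

/-- Descent in the presence of a hexagon. -/
def St_DE6 : Prop := ∀ (T : Fano) (E : Set T.Λ), T.EffS E → ∀ (S : T.Pent) (v6 : T.Ray),
  T.Opp S.v2 v6 → T.Desc E

/-- Balanced weights exist. -/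
def St_BAL : Prop := ∀ T : Fano, T.RegN → ∀ z z', T.Opp z z' → ∃ h j, T.Bal z z' h j

/-- The change of the height under the lines. -/
def St_HTP : Prop := ∀ T : Fano, T.RegN → ∀ z z' h j, T.Opp z z' → T.Bal z z' h j →
  (∀ a, T.Tp ℝ z z' a z + T.Tp ℝ z z' a z' = -(a z + a z')) ∧
  (∀ a, T.Ht z z' h j (T.Tp ℝ z z' a) = T.Ht z z' h j a) ∧
  ∀ w w', T.Opp w w' → w ≠ z → w ≠ z' → ∃ δ : ℝ, 0 < δ ∧
    ∀ a, T.Ht z z' h j (T.Tp ℝ w w' a) = T.Ht z z' h j a + δ * (a w + a w')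

/-- The change of the height under the triangles. -/
def St_HTQ : Prop := ∀ T : Fano, T.RegN → ∀ z z' h j, T.Opp z z' → T.Bal z z' h j →
  ∀ x s y w, T.Tri x s y → T.Opp y w → ∃ δ : ℝ, 0 < δ ∧
    ∀ a, T.Ht z z' h j (T.Tq ℝ x s y w a) = T.Ht z z' h j a + δ * (a x + a s + a w)

/-- Descent. -/
def St_DESC : Prop := ∀ (T : Fano) (E : Set T.Λ), T.EffS E → T.Desc E

end Pool.Agent.Lib.TF
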