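import Pool.Agent.Lib.TF.Lau
import Pool.Agent.Lib.TF.LBlue
import Pool.Agent.Lib.MV.Log

open Set Pool.Agent.Lib.MP_e39d36_ag Pool.Agent.Lib.MP_e39d36_ag.Var Pool.Agent.Lib.DU
  Pool.Agent.Lib.MV
open scoped Classical

set_option linter.unusedSectionVars false
set_option linter.unusedVariables false

noncomputable section

namespace Pool.Agent.Lib.TF

/-- The system that is everything where `p` holds and zero elsewhere. -/
def rk {V : Type} (A : Type) [AddCommGroup A] (p : Finset V → Prop) (s : Finset V) :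
    AddSubgroup A := if p s then ⊤ else ⊥

/-- Divisibility by `h` modulo `f`. -/
def Dvm {n : ℕ} (f h y : La n) : Prop := ∃ w Q, y = h * w + f * Q

/-- Coefficients of a plane cubic through the origin, and a slope. -/
structure Cub (F : Type) where
  c10 : F
  c01 : F
  c20 : F
  c11 : F
  c02 : F
  c30 : F
  c21 : F
  c12 : F
  c03 : F
  p : F

namespace Cub

variable {F : Type} [CommRing F] (c : Cub F)

/-- The constant term of the line. -/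
def q0 : F := c.c20 * c.c01 ^ 2 - c.c11 * c.c01 * c.c10 + c.c02 * c.c10 ^ 2

/-- The first coefficient of the line. -/
def X0 : F := c.p * c.c10 - (c.c30 * c.c01 ^ 2 - c.c21 * c.c10 * c.c01)

/-- The second coefficient of the line. -/
def Z0 : F := c.p * c.c01 - (c.c03 * c.c10 ^ 2 - c.c12 * c.c10 * c.c01)

/-- The leading coefficient of the residual quadratic. -/
def a2 : F := c.X0 ^ 2 + c.q0 * (c.p * c.c20 + c.c20 * c.c21 * c.c01 - c.c30 * c.c11 * c.c01 +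
  c.c30 * c.c02 * c.c10)

/-- The middle coefficient. -/
def a1 : F := 2 * c.X0 * c.Z0 + c.q0 * (c.p * c.c11 - c.c20 * c.c03 * c.c10 +
  c.c20 * c.c12 * c.c01 + c.c02 * c.c21 * c.c10 - c.c02 * c.c30 * c.c01)

/-- The constant coefficient. -/
def a0 : F := c.Z0 ^ 2 + c.q0 * (c.p * c.c02 + c.c02 * c.c12 * c.c10 - c.c03 * c.c11 * c.c10 +
  c.c03 * c.c20 * c.c01)

/-- The value of the cubic. -/
def ev (ξ ζ : F) : F := c.c10 * ξ + c.c01 * ζ + c.c20 * ξ ^ 2 + c.c11 * ξ * ζ + c.c02 * ζ ^ 2 +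
  c.c30 * ξ ^ 3 + c.c21 * ξ ^ 2 * ζ + c.c12 * ξ * ζ ^ 2 + c.c03 * ζ ^ 3

/-- Exchange of the two variables. -/
def swap : Cub F := ⟨c.c01, c.c10, c.c02, c.c11, c.c20, c.c03, c.c12, c.c21, c.c30, c.p⟩

/-- All nine coefficients lie in `L`. -/
def In {σ : Type} [SetLike σ F] (L : σ) : Prop := c.c10 ∈ L ∧ c.c01 ∈ L ∧ c.c20 ∈ L ∧ c.c11 ∈ L ∧
  c.c02 ∈ L ∧ c.c30 ∈ L ∧ c.c21 ∈ L ∧ c.c12 ∈ L ∧ c.c03 ∈ L

/-- Image under a map. -/
def map {F' : Type} (τ : F → F') : Cub F' := ⟨τ c.c10, τ c.c01, τ c.c20, τ c.c11, τ c.c02, τ c.c30,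
  τ c.c21, τ c.c12, τ c.c03, τ c.p⟩

lemma swap_q0 : c.swap.q0 = c.q0 := by simp only [swap, q0]; ring
lemma swap_X0 : c.swap.X0 = c.Z0 := by simp only [swap, X0, Z0]; ring
lemma swap_Z0 : c.swap.Z0 = c.X0 := by simp only [swap, X0, Z0]; ring
lemma swap_a2 : c.swap.a2 = c.a0 := by simp only [swap, a2, a0, X0, Z0, q0]; ring
lemma swap_a1 : c.swap.a1 = c.a1 := by simp only [swap, a1, X0, Z0, q0]; ring
lemma swap_a0 : c.swap.a0 = c.a2 := by simp only [swap, a2, a0, X0, Z0, q0]; ring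

/-- The residual quadratic on the line. -/
lemma key (t : F) : (c.c10 * t + c.c01) * (c.a2 * t ^ 2 + c.a1 * t + c.a0) =
    (t * c.X0 + c.Z0) ^ 2 * (c.c10 * t + c.c01) +
      c.q0 * (t * c.X0 + c.Z0) * (c.c20 * t ^ 2 + c.c11 * t + c.c02) +
      c.q0 ^ 2 * (c.c30 * t ^ 3 + c.c21 * t ^ 2 + c.c12 * t + c.c03) := by
  simp only [a2, a1, a0, X0, Z0, q0]; ring

end Cub

namespace Fano

variable (T : Fano)

/-- The coordinate ring of the torus. -/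
abbrev R : Type := La T.n

/-- Sections of a toric line bundle over the chart of `τ`. -/
def S (a : T.Λ) (τ : Finset T.Ray) : Submodule ℂ T.R where
  carrier := {G | ∀ ρ ∈ τ, Lo (T.v ρ) (-a ρ) G}
  zero_mem' := fun _ _ => Sup.zero
  add_mem' := fun h h' ρ hρ => Sup.add (h ρ hρ) (h' ρ hρ)
  smul_mem' := fun c _ h ρ hρ => Sup.smul (h ρ hρ) c

variable {T} in
lemma mem_S {a : T.Λ} {τ : Finset T.Ray} {G : T.R} :
    G ∈ T.S a τ ↔ ∀ ρ ∈ τ, Lo (T.v ρ) (-a ρ) G := Iff.rfl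

variable {T} in
lemma S_mul {a b : T.Λ} {τ : Finset T.Ray} {G H : T.R} (h : G ∈ T.S a τ) (h' : H ∈ T.S b τ) :
    G * H ∈ T.S (a + b) τ := fun ρ hρ => by
  simpa only [Pi.add_apply, neg_add] using Lo.mul (h ρ hρ) (h' ρ hρ)

/-- The coordinate ring of the chart of `τ`. -/
def S0 (τ : Finset T.Ray) : Subalgebra ℂ T.R where
  carrier := T.S 0 τ
  add_mem' := add_mem
  mul_mem' := fun h h' => (add_zero (0 : T.Λ) ▸ S_mul h h' : _ ∈ T.S 0 τ)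
  algebraMap_mem' := fun c ρ _ => sup_algebraMap (by simp) c

/-- The equation is very general. -/
structure Gen (f : T.R) : Prop where
  sup : Sup T.P f
  ind : AlgebraicIndependent ℚ fun u : {u // T.P u} => f.coeff u

variable {T} in
lemma Gen.ne {f : T.R} (h : T.Gen f) {u : T.M} (hu : T.P u) : f.coeff u ≠ 0 :=
  h.ind.ne_zero ⟨u, hu⟩

variable {T} in
lemma Gen.lo {f : T.R} (h : T.Gen f) (ρ : T.Ray) : Lo (T.v ρ) (-1) f := fun u hu => h.sup u hu ρ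

/-- The restriction of the equation to a toric divisor. -/
abbrev fr (f : T.R) (ρ : T.Ray) : T.R := inn (T.v ρ) (-1) f

/-- The part of bidegree `(i, j)`. -/
def cl (f : T.R) (x z : T.Ray) (i j : ℤ) : T.R :=
  part (fun u => u ⬝ᵥ T.v x = i - 1 ∧ u ⬝ᵥ T.v z = j - 1) f

/-- The part of bidegrees `(≥ 2, 0)`. -/
def pA (f : T.R) (x z : T.Ray) : T.R := part (fun u => 1 ≤ u ⬝ᵥ T.v x ∧ u ⬝ᵥ T.v z = -1) f

/-- The part of bidegrees `(≥ 1, ≥ 1)`. -/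
def pC (f : T.R) (x z : T.Ray) : T.R := part (fun u => 0 ≤ u ⬝ᵥ T.v x ∧ 0 ≤ u ⬝ᵥ T.v z) f

/-- The first generator. -/
def gw (f : T.R) (x z : T.Ray) : T.R := T.cl f x z 1 0 + T.pA f x z + T.pC f x z

/-- The second generator. -/
def gp (f : T.R) (x z : T.Ray) : T.R := -T.cl f x z 1 0 ^ 2 +
  T.pA f x z * (T.cl f x z 0 1 - T.cl f x z 1 0) - T.cl f x z 1 0 * T.pC f x z

/-- Vertices as a type. -/
abbrev Vx : Type := {m : T.M // T.V m}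

instance : LinearOrder T.Vx := IsWellOrder.linearOrder WellOrderingRel

/-- The vertices whose cone contains `τ`. -/
def W (τ : Finset T.Ray) : Finset T.Vx :=
  if h : {m : T.Vx | τ ⊆ T.F m.1}.Finite then h.toFinset else ∅

variable {T} in
lemma C0.mem_W (h : T.C0) {τ : Finset T.Ray} {m : T.Vx} : m ∈ T.W τ ↔ τ ⊆ T.F m.1 := by
  have h1 : {m : T.Vx | τ ⊆ T.F m.1}.Finite :=
    (h.fin.preimage Subtype.val_injective.injOn).subset fun m _ => m.2.1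
  rw [W, dif_pos h1, h1.mem_toFinset, mem_ofPred_eq]

/-- The common face of a set of vertices. -/
def fc (s : Finset T.Vx) : Finset T.Ray := Finset.univ.filter fun ρ => ∀ m ∈ s, ρ ∈ T.F m.1

/-- No ray of `I` in the link of `τ` lies in the common face. -/
def Nv (τ I : Finset T.Ray) (s : Finset T.Vx) : Prop :=
  ∀ ρ ∈ I, T.Face (insert ρ τ) → ∃ m ∈ s, ρ ∉ T.F m.1

/-- `I` is cut out on the link of `τ` by an affine function vanishing on `τ`. -/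
def Sep (τ I : Finset T.Ray) : Prop := ∃ (a : ℤ) (u : T.M), (∀ ρ ∈ τ, a + u ⬝ᵥ T.v ρ = 0) ∧
  (∀ ρ ∈ I, 0 < a + u ⬝ᵥ T.v ρ) ∧ ∀ ρ ∉ I, ρ ∉ τ → T.Face (insert ρ τ) → a + u ⬝ᵥ T.v ρ < 0

/-- Cochains of `O(-j κ)` on the orbit closure of `τ`. -/
def Zs (τ : Finset T.Ray) (j : ℤ) (s : Finset T.Vx) : AddSubgroup T.R where
  carrier := {G | (s = ∅ → G = 0) ∧ (∀ ρ ∈ τ, Hom (T.v ρ) j G) ∧ ∀ ρ ∈ T.fc s, Lo (T.v ρ) j G}
  zero_mem' := ⟨fun _ => rfl, fun _ _ => Sup.zero, fun _ _ => Sup.zero⟩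
  add_mem' := fun h h' => ⟨fun e => by rw [h.1 e, h'.1 e, add_zero],
    fun ρ hρ => Sup.add (h.2.1 ρ hρ) (h'.2.1 ρ hρ), fun ρ hρ => Sup.add (h.2.2 ρ hρ) (h'.2.2 ρ hρ)⟩
  neg_mem' := fun h => ⟨fun e => by rw [h.1 e, neg_zero], fun ρ hρ => Sup.neg (h.2.1 ρ hρ),
    fun ρ hρ => Sup.neg (h.2.2 ρ hρ)⟩

/-- A pointed triangle with dual vectors. -/
structure Pq where
  x : T.Ray
  z : T.Ray
  y : T.Ray
  w : T.Ray
  xs : T.M
  zs : T.M
  tri : T.Tri x z y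
  opp : T.Opp y w
  xx : xs ⬝ᵥ T.v x = 1
  xz : xs ⬝ᵥ T.v z = 0
  zx : zs ⬝ᵥ T.v x = 0
  zz : zs ⬝ᵥ T.v z = 1

/-- Exchange of `x` and `z`. -/
def Pq.swap {T : Fano} (q : T.Pq) : T.Pq :=
  ⟨q.z, q.x, q.y, q.w, q.zs, q.xs, q.tri.symm, q.opp, q.zz, q.zx, q.xz, q.xx⟩

/-- Exponents orthogonal to the plane. -/
def Pq.Pp {T : Fano} (q : T.Pq) (u : T.M) : Prop := u ⬝ᵥ T.v q.x = 0 ∧ u ⬝ᵥ T.v q.z = 0

/-- A model of the hypersurface. -/
structure Mod0 (K : Type) [Field K] [Algebra ℂ K] where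
  f : T.R
  gen : T.Gen f
  ψ : T.R →ₐ[ℂ] K
  ker : ∀ G, ψ G = 0 ↔ f ∣ G
  X : Var K
  Q : Prj X
  Γ : Curves X
  chart : ∀ z, ∃ m, T.V m ∧ LocOf ((T.S0 (T.F m)).map ψ).toSubring (X.O z)
  sm : Sm X

variable {T} {K : Type} [Field K] [Algebra ℂ K]

namespace Mod0

variable (M : T.Mod0 K)

/-- Characters. -/
def χ (u : T.M) : K := M.ψ (mn u)

/-- The coordinate ring of the chart of `τ`. -/
abbrev B (τ : Finset T.Ray) : Subring K := ((T.S0 τ).map M.ψ).toSubring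

/-- Prime divisors that meet the torus. -/
def NT (E : M.X.PD) : Prop := ∀ u, M.X.ord (M.χ u) E.1 = 0

/-- The logarithmic gradient of the equation. -/
def θ (i : Fin T.n) : K := M.ψ (ld (Pi.single i 1) M.f)

/-- Logarithmic forms. -/
def β : (Fin T.n → K) →ₗ[K] Ω[K⁄ℂ] :=
  Fintype.linearCombination K fun i => dlog (M.χ (Pi.single i 1))

/-- Pairing with a lattice vector. -/
def pr (g : Fin T.n → K) (w : T.M) : K := ∑ i, (w i : K) * g i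

/-- Cochains of logarithmic forms. -/
def Om (s : Finset T.Vx) : AddSubgroup Ω[K⁄ℂ] :=
  if s = ∅ then ⊥ else
    (AddSubgroup.pi univ fun _ => (M.B (T.fc s)).toAddSubgroup).map M.β.toAddMonoidHom

/-- The residue property of a toric prime divisor. -/
def IsD (ρ : T.Ray) (E : M.X.PD) : Prop := (∀ u, M.X.ord (M.χ u) E.1 = u ⬝ᵥ T.v ρ) ∧
  ∀ k G, Lo (T.v ρ) k G → (M.ψ G ∈ ordGe E (k + 1) ↔ T.fr M.f ρ ∣ inn (T.v ρ) k G)

/-- Points and charts. -/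
structure Pts : Prop where
  pt : ∀ τ, T.Face τ → ∀ S, IsLoc S → LocOf (M.B τ) S → ∃ z, M.X.O z = S
  loc : ∀ τ, T.Face τ → ∀ z, M.B τ ≤ M.X.O z → LocOf (M.B τ) (M.X.O z)
  frac : ∀ s : K, ∃ G H, M.ψ H ≠ 0 ∧ s = M.ψ G / M.ψ H

lemma mem_B {τ : Finset T.Ray} {s : K} : s ∈ M.B τ ↔ ∃ G ∈ T.S 0 τ, M.ψ G = s := Iff.rfl

lemma χ_add (u u' : T.M) : M.χ (u + u') = M.χ u * M.χ u' := by rw [χ, mn_add, map_mul]; rfl

@[simp] lemma χ_zero : M.χ 0 = 1 := map_one M.ψ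

lemma χ_ne (u : T.M) : M.χ u ≠ 0 := ((isUnit_mn u).map M.ψ).ne_zero

lemma χ_neg (u : T.M) : M.χ (-u) = (M.χ u)⁻¹ :=
  eq_inv_of_mul_eq_one_right (by rw [← χ_add, add_neg_cancel, χ_zero])

lemma χ_sub (u u' : T.M) : M.χ (u - u') = M.χ u / M.χ u' := by
  rw [sub_eq_add_neg, χ_add, χ_neg, div_eq_mul_inv]

lemma χ_zsmul (j : ℤ) (u : T.M) : M.χ (j • u) = M.χ u ^ j := by
  induction j using Int.induction_on with
  | zero => simp
  | succ j ih => rw [add_smul, one_smul, χ_add, ih, zpow_add_one₀ (M.χ_ne u)]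
  | pred j ih => rw [sub_smul, one_smul, χ_sub, ih, zpow_sub_one₀ (M.χ_ne u), div_eq_mul_inv]

lemma ψ_f : M.ψ M.f = 0 := (M.ker _).2 dvd_rfl

end Mod0

variable (T) in
/-- A model with its toric prime divisors. -/
structure Mod (K : Type) [Field K] [Algebra ℂ K] extends T.Mod0 K where
  D : T.Ray → X.PD
  isD : ∀ ρ, toMod0.IsD ρ (D ρ)
  tor : ∀ E, toMod0.NT E ∨ ∃ ρ, E = D ρ
  pts : toMod0.Pts

namespace Mod

variable (M : T.Mod K)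

/-- Toric divisors. -/
def std : T.Λ →+ Dv M.X where
  toFun a := ∑ ρ, Finsupp.single (M.D ρ) (a ρ)
  map_zero' := by simp
  map_add' a b := by simp [Finset.sum_add_distrib]

/-- Global sections. -/
def Sec (a : T.Λ) : Submodule ℂ K := ⨅ E, ordGe E (-M.std a E)

/-- Effective toric classes. -/
def Eff : Set T.Λ := {a | ∃ s, s ≠ 0 ∧ s ∈ M.Sec a}

/-- Numerical classes. -/
abbrev nc : Dv M.X →+ M.Γ.N1 := End.nc M.Γ M.sm.fac

/-- The class of a real toric divisor. -/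
def cl : (T.Ray → ℝ) →ₗ[ℝ] M.Γ.N1 :=
  Fintype.linearCombination ℝ fun ρ => M.nc (Finsupp.single (M.D ρ) 1)

/-- The leading part `α`. -/
abbrev al (x z : T.Ray) : K := M.ψ (T.cl M.f x z 1 0)

/-- The first generator. -/
abbrev w (x z : T.Ray) : K := M.ψ (T.gw M.f x z)

/-- The second generator. -/
abbrev p (x z : T.Ray) : K := M.ψ (T.gp M.f x z)

/-- The products of generators that span the sections. -/
def Term (a : T.Λ) (t : K) : Prop := (∃ u, 0 ≤ T.mv u + a ∧ t = M.χ u) ∨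
  ∃ x z y, T.Tri x z y ∧ ∃ (i j : ℕ) (u : T.M), i • T.om x z + j • T.ka x z y ≤ T.mv u + a ∧
    t = M.χ u * M.w x z ^ i * M.p x z ^ j

/-- Basic properties. -/
structure Bas : Prop where
  inj : Function.Injective M.D
  nt : ∀ ρ, ¬M.NT (M.D ρ)
  geD : ∀ ρ k G, Lo (T.v ρ) k G → M.ψ G ∈ ordGe (M.D ρ) k
  geN : ∀ E, M.NT E → ∀ G, M.ψ G ∈ ordGe E 0
  leD : ∀ τ, T.Face τ → ∀ ρ, M.B τ ≤ M.X.O (M.D ρ).1 ↔ ρ ∈ τ
  leN : ∀ E, M.NT E → ∀ τ, M.B τ ≤ M.X.O E.1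
  stdD : ∀ a ρ, M.std a (M.D ρ) = a ρ
  stdN : ∀ a E, M.NT E → M.std a E = 0
  div : ∀ u, M.X.div (M.χ u) = M.std (T.mv u)
  mem : ∀ a s, s ∈ M.Sec a ↔ (∀ E, M.NT E → s ∈ ordGe E 0) ∧ ∀ ρ, s ∈ ordGe (M.D ρ) (-a ρ)
  mem' : ∀ a s, s ≠ 0 → (s ∈ M.Sec a ↔ 0 ≤ M.std a + M.X.div s)
  locEq : ∀ m, T.V m → ∀ z, M.B (T.F m) ≤ M.X.O z → ∀ (a : T.Λ) (u : T.M),
    (∀ ρ ∈ T.F m, u ⬝ᵥ T.v ρ = a ρ) → LocEq (M.std a) z (M.χ u)
  sec : ∀ τ, T.Face τ → ∀ (a : T.Λ) (s : K), (∀ E, M.NT E → s ∈ ordGe E 0) →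
    (∀ ρ ∈ τ, s ∈ ordGe (M.D ρ) (-a ρ)) → ∃ G ∈ T.S a τ, M.ψ G = s
  val : ∀ (ρ : T.Ray) (w : T.M) (k a : ℤ) (G : T.R), (¬∃ j : ℤ, w = j • T.v ρ) → Hom w k G →
    Lo (T.v ρ) a G → At (T.v ρ) a G → M.ψ G ≠ 0 ∧ M.X.ord (M.ψ G) (M.D ρ).1 = a
  ne : ∀ (w : T.M) (k : ℤ) (G : T.R), w ≠ 0 → Hom w k G → G ≠ 0 → M.ψ G ≠ 0
  cls : ∀ a, M.cl (rc a) = M.nc (M.std a)

/-- The involution of a line. -/
structure Iot (z : T.Ray) (φ : RingAut K) (e : M.X.PD ≃ M.X.PD) : Prop where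
  ps : End.Ps φ e
  fix : ∀ u, u ⬝ᵥ T.v z = 0 → φ (M.χ u) = M.χ u
  sw : φ (M.ψ (inn (T.v z) 1 M.f)) = M.ψ (inn (T.v z) (-1) M.f)
  inv : ∀ s, φ (φ s) = s
  fxd : ∀ s, φ s = s → ∃ G H, Hom (T.v z) 0 G ∧ Hom (T.v z) 0 H ∧ H ≠ 0 ∧ s = M.ψ G / M.ψ H

variable {M} in
lemma Iot.symm {z z' : T.Ray} {φ : RingAut K} {e : M.X.PD ≃ M.X.PD} (h : M.Iot z φ e)
    (ho : T.Opp z z') : M.Iot z' φ e where
  ps := h.ps
  fix u hu := h.fix u (by rw [ho.dot] at hu; omega)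
  sw := by
    have e1 : inn (T.v z') 1 M.f = inn (T.v z) (-1) M.f :=
      part_congr fun u _ => by rw [ho.dot]; omega
    have e2 : inn (T.v z') (-1) M.f = inn (T.v z) 1 M.f :=
      part_congr fun u _ => by rw [ho.dot]; omega
    rw [e1, e2, ← h.sw, h.inv]
  inv := h.inv
  fxd s hs := by
    obtain ⟨G, H, h1, h2, h3⟩ := h.fxd s hs
    exact ⟨G, H, Sup.mono h1 fun u hu => by rw [ho.dot]; omega,
      Sup.mono h2 fun u hu => by rw [ho.dot]; omega, h3⟩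

/-- The normalised coefficients of the fibre cubic. -/
def co (q : T.Pq) (i j : ℤ) : K :=
  M.ψ (T.cl M.f q.x q.z i j * mn ((1 - i) • q.xs + (1 - j) • q.zs))

/-- The fibre cubic. -/
def cub (q : T.Pq) : Cub K := ⟨M.co q 1 0, M.co q 0 1, M.co q 2 0, M.co q 1 1, M.co q 0 2,
  M.co q 3 0, M.co q 2 1, M.co q 1 2, M.co q 0 3, M.p q.x q.z⟩

/-- The quotient of the two fibre coordinates. -/
def t (q : T.Pq) : K := M.χ q.xs / M.χ q.zs

/-- Prime divisors over the torus of the base. -/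
def MT (q : T.Pq) (E : M.X.PD) : Prop := ∀ u, q.Pp u → M.X.ord (M.χ u) E.1 = 0

/-- The equations of the fibre. -/
structure Eqs (q : T.Pq) : Prop where
  ev : (M.cub q).ev (M.χ q.xs) (M.χ q.zs) = 0
  line : M.χ q.xs * (M.cub q).X0 + M.χ q.zs * (M.cub q).Z0 = (M.cub q).q0
  quad : (M.cub q).a2 * M.t q ^ 2 + (M.cub q).a1 * M.t q + (M.cub q).a0 = 0
  q0 : ∃ G, G ≠ 0 ∧ Sup q.Pp G ∧ M.ψ G = (M.cub q).q0
  co : ∀ i j, Sup q.Pp (T.cl M.f q.x q.z i j * mn ((1 - i) • q.xs + (1 - j) • q.zs))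
  c30 : (∃ σ, T.Opp q.x σ) → (M.cub q).c30 = 0
  c03 : (∃ σ, T.Opp q.z σ) → (M.cub q).c03 = 0
  swap : M.cub q.swap = (M.cub q).swap
  un : ∀ ρ, T.InV q.x q.z ρ → ∀ G, G ≠ 0 → Sup q.Pp G →
    M.ψ G ≠ 0 ∧ M.X.ord (M.ψ G) (M.D ρ).1 = 0
  mt : ∀ ρ, M.MT q (M.D ρ) ↔ T.InV q.x q.z ρ
  reg : ∀ E, M.MT q E → (M.cub q).In (M.X.O E.1) ∧ (E ≠ M.D q.y → (M.cub q).p ∈ M.X.O E.1)

/-- The involution of a pointed triangle. -/
structure Sig (q : T.Pq) (φ : RingAut K) (e : M.X.PD ≃ M.X.PD) : Prop where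
  ps : End.Ps φ e
  fix : ∀ u, q.Pp u → φ (M.χ u) = M.χ u
  fp : φ (M.p q.x q.z) = M.p q.x q.z
  n2 : (M.cub q).a2 ≠ 0
  n0 : (M.cub q).a0 ≠ 0
  sum : (M.cub q).a2 * (M.t q + φ (M.t q)) = -(M.cub q).a1
  prod : (M.cub q).a2 * (M.t q * φ (M.t q)) = (M.cub q).a0

variable {M} in
lemma Sig.swap {q : T.Pq} {φ : RingAut K} {e : M.X.PD ≃ M.X.PD} (h : M.Sig q φ e) (hE : M.Eqs q) :
    M.Sig q.swap φ e := by
  have e1 : M.t q.swap = (M.t q)⁻¹ := (inv_div _ _).symm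
  have e2 : M.p q.swap.x q.swap.z = M.p q.x q.z := congrArg Cub.p hE.swap
  have h0 : M.t q ≠ 0 := div_ne_zero (M.χ_ne _) (M.χ_ne _)
  have h1 : φ (M.t q) ≠ 0 := (map_ne_zero φ).2 h0
  refine ⟨h.ps, fun u hu => h.fix u ⟨hu.2, hu.1⟩, by rw [e2, h.fp], ?_, ?_, ?_, ?_⟩ <;>
    rw [hE.swap]
  · rw [Cub.swap_a2]; exact h.n0
  · rw [Cub.swap_a0]; exact h.n2
  · rw [Cub.swap_a2, Cub.swap_a1, e1, map_inv₀, ← h.prod, ← h.sum]; field_simp; ring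
  · rw [Cub.swap_a2, Cub.swap_a0, e1, map_inv₀, ← h.prod]; field_simp

end Mod

end Fano

section ge

variable {K : Type} [Field K] [Algebra ℂ K] {X : Var K} {E : X.PD} {a b : ℤ} {s s' : K}

lemma ge_iff (h : s ≠ 0) : s ∈ ordGe E a ↔ a ≤ X.ord s E.1 := or_iff_right h

lemma ge_ord (s : K) (E : X.PD) : s ∈ ordGe E (X.ord s E.1) := Or.inr le_rfl

lemma ge_mono (h : s ∈ ordGe E a) (h' : b ≤ a) : s ∈ ordGe E b := h.imp id h'.trans

lemma ge_mul (h : s ∈ ordGe E a) (h' : s' ∈ ordGe E b) : s * s' ∈ ordGe E (a + b) := by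
  by_cases h1 : s = 0
  · simp [h1]
  by_cases h2 : s' = 0
  · simp [h2]
  rw [ge_iff h1] at h
  rw [ge_iff h2] at h'
  rw [ge_iff (mul_ne_zero h1 h2), ord_mul h1 h2]
  omega

lemma ge_one : (1 : K) ∈ ordGe E 0 := Or.inr (by simp [ord_val])

lemma ge_pow (h : s ∈ ordGe E a) (m : ℕ) : s ^ m ∈ ordGe E (m * a) := by
  induction m with
  | zero => simpa using ge_one
  | succ m ih => rw [pow_succ]; push_cast; rw [add_mul, one_mul]; exact ge_mul ih h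

lemma ge_zero_iff : s ∈ ordGe E 0 ↔ s ∈ X.O E.1 := by
  by_cases h : s = 0
  · simp [h]
  rw [ge_iff h, ord_val, (isV E).mem_iff h]

lemma un_iff_ord : Un (X.O E.1) s ↔ s ≠ 0 ∧ X.ord s E.1 = 0 := by rw [(isV E).un_iff, ord_val]

lemma ge_one_iff (h : s ∈ X.O E.1) : s ∈ ordGe E 1 ↔ ¬Un (X.O E.1) s := by
  by_cases h0 : s = 0
  · simp [h0, Un]
  have := ord_nonneg h
  rw [ge_iff h0, un_iff_ord, and_iff_right h0]
  omega

lemma ord_of_not_ge (h : s ∈ ordGe E a) (h' : s ∉ ordGe E (a + 1)) :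
    s ≠ 0 ∧ X.ord s E.1 = a := by
  have h0 : s ≠ 0 := fun e => h' (Or.inl e)
  rw [ge_iff h0] at h h'
  exact ⟨h0, by omega⟩

lemma ord_of_sub (h0 : s' ≠ 0) (h : s - s' ∈ ordGe E (X.ord s' E.1 + 1)) :
    s ≠ 0 ∧ X.ord s E.1 = X.ord s' E.1 := by
  refine ord_of_not_ge ?_ fun h1 => ?_
  · simpa using add_mem (ge_mono h (by omega)) (ge_ord s' E)
  · have h2 := sub_mem h1 h
    rw [sub_sub_cancel, ge_iff h0] at h2
    omega

lemma ord_pow (s : K) (m : ℕ) (E : X.PD) : X.ord (s ^ m) E.1 = m * X.ord s E.1 := by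
  simp only [ord_val, od_pow]

lemma ord_zpow (s : K) (m : ℤ) (E : X.PD) : X.ord (s ^ m) E.1 = m * X.ord s E.1 := by
  simp only [ord_val, od_zpow]

lemma ord_inv (s : K) (E : X.PD) : X.ord s⁻¹ E.1 = -X.ord s E.1 := by simp only [ord_val, od_inv]

lemma ord_neg (s : K) (E : X.PD) : X.ord (-s) E.1 = X.ord s E.1 := by simp [ord_val, od]

end ge

end Pool.Agent.Lib.TF
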