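import Pool.Agent.Lib.TF.B_HTQ
import Pool.Agent.Lib.TF.B_BAL

open Set
open scoped Classical

noncomputable section

namespace Pool.Agent.Lib.TF

open Fano HTQB

namespace H22H

variable {T : Fano}

lemma tp_self' (C : T.C1a) {z z' : T.Ray} (hz : T.Opp z z') (a : T.Ray → ℝ) :
    T.Tp ℝ z z' a z' = -a z := by rw [tp_comm hz, tp_self C]

lemma ne1 (C : T.C1a) {z z' ρ t : T.Ray} (hz : T.Opp z z') (h : T.Tri ρ z t) :
    t ≠ z ∧ t ≠ z' ∧ ρ ≠ z ∧ ρ ≠ z' := by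
  have h1 : T.v ρ + T.v z = T.v t := h
  have h2 : T.v z + T.v z' = 0 := hz
  refine ⟨?_, ?_, ?_, ?_⟩
  · rintro rfl
    exact T.ne ρ (by simpa using h1)
  · rintro rfl
    refine not_two C (a := ρ) (b := z) (k := -2) (by norm_num) (by norm_num) ?_
    rw [neg_smul, two_smul]
    linear_combination h1 + h2
  · rintro rfl
    exact not_two C (k := 2) (by norm_num) (by norm_num) (by rw [two_smul]; exact h1.symm)
  · rintro rfl
    exact T.ne t (by linear_combination h2 - h1)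

lemma tp_tri (C : T.C1a) {z z' ρ t : T.Ray} (hz : T.Opp z z') (h : T.Tri ρ z t)
    (a : T.Ray → ℝ) : T.Tp ℝ z z' a ρ = a t + a z' ∧ T.Tp ℝ z z' a t = a ρ + a z := by
  obtain ⟨n1, n2, n3, n4⟩ := ne1 C hz h
  constructor
  · rcases mu_cases C n3 n4 a with ⟨t', h1, h2⟩ | ⟨u, h1, -⟩ | ⟨h1, -, -⟩
    · rw [← h.uniq h1, Pi.add_apply] at h2
      linarith
    · exact (not_both C h h1).elim
    · exact (h1 t h).elim
  · rcases mu_cases C n1 n2 a with ⟨t', h1, -⟩ | ⟨u, h1, h2⟩ | ⟨-, h1, -⟩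
    · exact (not_both C h1 h).elim
    · rw [← h.uniq' h1, Pi.add_apply] at h2
      linarith
    · exact (h1 ρ h).elim

lemma tp_gen (C : T.C1a) {z z' ρ : T.Ray} (n1 : ρ ≠ z) (n2 : ρ ≠ z') (h : ∀ t, ¬T.Tri ρ z t)
    (h' : ∀ u, ¬T.Tri u z ρ) (a : T.Ray → ℝ) : T.Tp ℝ z z' a ρ = a ρ + a z + a z' := by
  rcases mu_cases C n1 n2 a with ⟨t', h1, -⟩ | ⟨u, h1, -⟩ | ⟨-, -, h1⟩
  · exact (h _ h1).elim
  · exact (h' _ h1).elim
  · rw [Pi.add_apply] at h1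
    linarith

lemma tp_tp (C : T.C1a) {z z' : T.Ray} (hz : T.Opp z z') (a : T.Ray → ℝ) :
    T.Tp ℝ z z' (T.Tp ℝ z z' a) = a := by
  ext ρ
  by_cases n1 : ρ = z
  · rw [n1, tp_self C, tp_self' C hz, neg_neg]
  by_cases n2 : ρ = z'
  · rw [n2, tp_self' C hz, tp_self C, neg_neg]
  by_cases h : ∃ t, T.Tri ρ z t
  · obtain ⟨t, h⟩ := h
    rw [(tp_tri C hz h _).1, (tp_tri C hz h _).2, tp_self' C hz]
    ring
  by_cases h' : ∃ u, T.Tri u z ρ
  · obtain ⟨u, h'⟩ := h'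
    rw [(tp_tri C hz h' _).2, (tp_tri C hz h' _).1, tp_self C]
    ring
  push Not at h h'
  rw [tp_gen C n1 n2 h h', tp_gen C n1 n2 h h', tp_self C, tp_self' C hz]
  ring

/-- The vector by which a line moves a class. -/
def bp (w w' : T.Ray) : T.Ray → ℝ := fun ρ =>
  if ρ = w ∨ ρ = w' then -1 else if ∃ y, T.Tri ρ w y then 0 else 1

lemma bp_ge (w w' ρ : T.Ray) : -1 ≤ bp w w' ρ := by
  unfold bp
  split_ifs <;> norm_num

lemma bp_ge0 {w w' ρ : T.Ray} (h : ¬(ρ = w ∨ ρ = w')) : 0 ≤ bp w w' ρ := by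
  unfold bp
  rw [if_neg h]
  split_ifs <;> norm_num

lemma ht_swap (C : T.C1a) (R : T.RegN) {z z' w w' x y : T.Ray} {h : T.Λ} {j : ℤ}
    (hz : T.Opp z z') (B : T.Bal z z' h j) (hw : T.Opp w w') (h1 : w ≠ z) (h2 : w ≠ z')
    (ht : T.Tri x w y) : T.Ht z z' h j (Pi.single x 1 - Pi.single y 1) = 0 := by
  have h3 : w' ≠ z := fun e => h2 (hw.symm.uniq (e ▸ hz))
  have h4 : w' ≠ z' := fun e => h1 (hw.symm.uniq (e ▸ hz.symm))
  have ht' := ht.opp hw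
  have k0 : ∀ ρ, ρ ≠ x → ρ ≠ y → (Pi.single x 1 - Pi.single y 1 : T.Ray → ℝ) ρ = 0 :=
    fun ρ a b => by simp [a, b]
  have k1 : ∀ s s', T.Opp s s' → w ≠ s → w' ≠ s →
      (Pi.single x 1 - Pi.single y 1 : T.Ray → ℝ) s = 0 := fun s s' hs a b =>
    k0 s (fun e => a (e ▸ BALB.ne_of_opp R ht hw (e ▸ hs)))
      fun e => b (e ▸ BALB.ne_of_opp R ht' hw.symm (e ▸ hs))
  have k2 : ∀ ρ s t, T.Tri ρ s t → w ≠ s → w' ≠ s →
      (Pi.single x 1 - Pi.single y 1 : T.Ray → ℝ) ρ = 0 := fun ρ s t hs a b =>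
    k0 ρ (fun e => a (R _ _ _ _ _ ht (e ▸ hs))) fun e => b (R _ _ _ _ _ ht' (e ▸ hs))
  have d1 := k1 z z' hz h1 h3
  have d2 := k1 z' z hz.symm h2 h4
  rw [ht_eq C, d1, d2, sub_self, mul_zero, sub_zero]
  have e : ∀ ρ, (h ρ : ℝ) * ((Pi.single x 1 - Pi.single y 1 : T.Ray → ℝ) +
      T.Tp ℝ z z' (Pi.single x 1 - Pi.single y 1)) ρ =
      2 * (h ρ * (Pi.single x 1 - Pi.single y 1 : T.Ray → ℝ) ρ) := fun ρ => by
    by_cases a : ρ = z
    · simp [a, B.z0]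
    by_cases b : ρ = z'
    · simp [b, B.z1]
    rcases mu_cases C a b (Pi.single x 1 - Pi.single y 1) with ⟨t, h5, h6⟩ | ⟨t, h5, h6⟩ |
      ⟨-, -, h6⟩
    · rw [h6, d2, k2 ρ z t h5 h1 h3, k2 t z' ρ (h5.opp hz) h2 h4]
      ring
    · rw [h6, d1, k2 t z ρ h5 h1 h3, k2 ρ z' t (h5.opp hz) h2 h4]
      ring
    · rw [h6, d1, d2]
      ring
  simp only [e, ← Finset.mul_sum]
  simp [mul_sub, Finset.sum_sub_distrib, Pi.single_apply, B.bal x w y w' ht hw h1 h2]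

lemma tp_none (C : T.C1a) {w w' : T.Ray} (hw : T.Opp w w') (hn : ∀ x y, ¬T.Tri x w y)
    (a : T.Ray → ℝ) : T.Tp ℝ w w' a = a + (a w + a w') • bp w w' := by
  ext ρ
  simp only [Pi.add_apply, Pi.smul_apply, smul_eq_mul, bp]
  by_cases n1 : ρ = w
  · rw [if_pos (Or.inl n1), n1, tp_self C]
    ring
  by_cases n2 : ρ = w'
  · rw [if_pos (Or.inr n2), n2, tp_self' C hw]
    ring
  rw [if_neg (not_or.2 ⟨n1, n2⟩), if_neg fun ⟨y, hy⟩ => hn _ _ hy,
    tp_gen C n1 n2 (fun _ => hn _ _) fun _ => hn _ _]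
  ring

lemma tp_one (C : T.C1a) (R : T.RegN) {w w' x y : T.Ray} (hw : T.Opp w w') (ht : T.Tri x w y)
    (a : T.Ray → ℝ) : T.Tp ℝ w w' a = a + (a w + a w') • bp w w' +
      (a y + a w' - a x) • (Pi.single x 1 - Pi.single y 1 : T.Ray → ℝ) := by
  obtain ⟨m1, m2, m3, m4⟩ := ne1 C hw ht
  have hxy : x ≠ y := by
    rintro rfl
    exact T.ne w (by simpa [Tri] using ht)
  ext ρ
  simp only [Pi.add_apply, Pi.smul_apply, smul_eq_mul, bp, Pi.sub_apply, Pi.single_apply]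
  by_cases n1 : ρ = w
  · rw [if_pos (Or.inl n1), n1, tp_self C, if_neg m3.symm, if_neg m1.symm]
    ring
  by_cases n2 : ρ = w'
  · rw [if_pos (Or.inr n2), n2, tp_self' C hw, if_neg m4.symm, if_neg m2.symm]
    ring
  rw [if_neg (not_or.2 ⟨n1, n2⟩)]
  by_cases n3 : ρ = x
  · rw [n3, if_pos ⟨y, ht⟩, if_pos rfl, if_neg hxy, (tp_tri C hw ht a).1]
    ring
  have k : ∀ t, ¬T.Tri ρ w t := fun t h => n3 (R _ _ _ _ _ h.symm ht.symm)
  rw [if_neg fun ⟨t, h⟩ => k t h, if_neg n3]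
  by_cases n4 : ρ = y
  · rw [if_pos n4, n4, (tp_tri C hw ht a).2]
    ring
  rw [if_neg n4, tp_gen C n1 n2 k fun u h => n4 ?_]
  · ring
  · obtain rfl := R _ _ _ _ _ h.symm ht.symm
    exact h.uniq ht

theorem st_HTP (hC : St_C1A) : St_HTP := by
  intro T R z z' h j hz B
  have C := hC T
  refine ⟨fun a => ?_, fun a => ?_, fun w w' hw h1 h2 => ⟨T.Ht z z' h j (bp w w'), ?_, fun a => ?_⟩⟩
  · rw [tp_self C, tp_self' C hz]
    ring
  · rw [Ht, Ht, tp_tp C hz, add_comm a]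
  · have h3 : w' ≠ z := fun e => h2 (hw.symm.uniq (e ▸ hz))
    have h4 : w' ≠ z' := fun e => h1 (hw.symm.uniq (e ▸ hz.symm))
    have b : ∀ s s', T.Opp s s' → w ≠ s → w' ≠ s → bp w w' s = 1 := fun s s' hs a b => by
      unfold bp
      rw [if_neg (not_or.2 ⟨a.symm, b.symm⟩), if_neg fun ⟨y, hy⟩ => a (BALB.ne_of_opp R hy hw hs)]
    have b1 := b z z' hz h1 h3
    have b2 := b z' z hz.symm h2 h4
    have k : ∀ ρ s t s', T.Tri ρ s t → T.Opp s s' → w ≠ s → w' ≠ s → 0 ≤ bp w w' ρ :=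
      fun ρ s t s' h5 hs a b => bp_ge0 (by
        rintro (rfl | rfl)
        · exact a (BALB.ne_of_opp R h5 hs hw).symm
        · exact b (BALB.ne_of_opp R h5 hs hw.symm).symm)
    have key : ∀ ρ, ρ ≠ z → ρ ≠ z' → 1 + bp w w' ρ ≤ (bp w w' + T.Tp ℝ z z' (bp w w')) ρ := by
      intro ρ a b
      rcases mu_cases C a b (bp w w') with ⟨t, h5, h6⟩ | ⟨t, h5, h6⟩ | ⟨-, -, h6⟩
      · have := k t z' ρ z (h5.opp hz) hz.symm h2 h4
        linarith
      · have := k t z ρ z' h5 hz h1 h3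
        linarith
      · have := bp_ge w w' ρ
        linarith
    obtain ⟨ρ₀, h₀⟩ := C.out z w
    have v1 : T.v z + T.v z' = 0 := hz
    have v2 : T.v w + T.v w' = 0 := hw
    have o1 : ρ₀ ≠ z := by
      rintro rfl
      exact h₀ ⟨1, 0, by simp⟩
    have o2 : ρ₀ ≠ z' := by
      rintro rfl
      exact h₀ ⟨-1, 0, by simp only [neg_smul, one_smul, zero_smul]; linear_combination v1⟩
    have o3 : ¬(ρ₀ = w ∨ ρ₀ = w') := by
      rintro (rfl | rfl)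
      · exact h₀ ⟨0, 1, by simp⟩
      · exact h₀ ⟨0, -1, by simp only [neg_smul, one_smul, zero_smul]; linear_combination v2⟩
    rw [ht_eq C, b1, b2, sub_self, mul_zero, sub_zero]
    refine sum_pos' B.z0 B.z1 B.pos (fun ρ a b => ?_) o1 o2 ?_
    · have := key ρ a b
      have := bp_ge w w' ρ
      linarith
    · have := key ρ₀ o1 o2
      have := bp_ge0 o3
      linarith
  · by_cases hn : ∃ x y, T.Tri x w y
    · obtain ⟨x, y, ht⟩ := hn
      rw [tp_one C R hw ht, ht_add, ht_add, ht_swap C R hz B hw h1 h2 ht, zero_mul, add_zero]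
    · push Not at hn
      rw [tp_none C hw hn, ht_add]

end H22H

end Pool.Agent.Lib.TF
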