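import Pool.Agent.Lib.TF.Blue

open Set Pool.Agent.Lib.MP_e39d36_ag Pool.Agent.Lib.MP_e39d36_ag.Var Pool.Agent.Lib.DU
  Pool.Agent.Lib.MV
open scoped Classical NNReal

set_option linter.unusedSectionVars false
set_option linter.unusedVariables false

noncomputable section

namespace Pool.Agent.Lib.TF

open Fano

namespace H49S

section cub

variable {F : Type} [Field F] {c : Cub F} {L : Subring F}

lemma q0_mem (h : c.In L) : c.q0 ∈ L := by
  obtain ⟨h1, h2, h3, h4, h5, h6, h7, h8, h9⟩ := h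
  unfold Cub.q0
  apply_rules (maxDepth := 100) only [add_mem, sub_mem, mul_mem, pow_mem, *]

lemma X0_mem (h : c.In L) (hp : c.p ∈ L) : c.X0 ∈ L := by
  obtain ⟨h1, h2, h3, h4, h5, h6, h7, h8, h9⟩ := h
  unfold Cub.X0
  apply_rules (maxDepth := 100) only [add_mem, sub_mem, mul_mem, pow_mem, *]

lemma Z0_mem (h : c.In L) (hp : c.p ∈ L) : c.Z0 ∈ L := by
  obtain ⟨h1, h2, h3, h4, h5, h6, h7, h8, h9⟩ := h
  unfold Cub.Z0
  apply_rules (maxDepth := 100) only [add_mem, sub_mem, mul_mem, pow_mem, *]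

lemma a2_mem (h : c.In L) (hp : c.p ∈ L) : c.a2 ∈ L := by
  have hq := q0_mem h
  have hx := X0_mem h hp
  obtain ⟨h1, h2, h3, h4, h5, h6, h7, h8, h9⟩ := h
  unfold Cub.a2
  apply_rules (maxDepth := 100) only [add_mem, sub_mem, mul_mem, pow_mem, *]

lemma a1_mem (h : c.In L) (hp : c.p ∈ L) : c.a1 ∈ L := by
  have hq := q0_mem h
  have hx := X0_mem h hp
  have hz := Z0_mem h hp
  have h0 : (2 : F) ∈ L := ofNat_mem L 2
  obtain ⟨h1, h2, h3, h4, h5, h6, h7, h8, h9⟩ := h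
  unfold Cub.a1
  apply_rules (maxDepth := 100) only [add_mem, sub_mem, mul_mem, pow_mem, *]

lemma a0_mem (h : c.In L) (hp : c.p ∈ L) : c.a0 ∈ L := by
  have hq := q0_mem h
  have hz := Z0_mem h hp
  obtain ⟨h1, h2, h3, h4, h5, h6, h7, h8, h9⟩ := h
  unfold Cub.a0
  apply_rules (maxDepth := 100) only [add_mem, sub_mem, mul_mem, pow_mem, *]

lemma X0_eq (h : c.c30 = 0) : c.X0 = c.c10 * (c.p + c.c01 * c.c21) := by
  rw [Cub.X0, h]; ring

lemma a2_eq (h : c.c30 = 0) : c.a2 = (c.p + c.c01 * c.c21) *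
    (c.c10 * (c.c10 * (c.p + c.c01 * c.c21)) + c.q0 * c.c20) := by
  rw [Cub.a2, X0_eq h, h]; ring

end cub

variable {T : Fano}

lemma sum_single (P : T.Ray → Prop) [DecidablePred P] (k : ℤ) (ρ : T.Ray) :
    (∑ σ with P σ, (Pi.single σ k : T.Λ)) ρ = if P ρ then k else 0 := by
  rw [Finset.sum_apply]
  simp only [Pi.single_apply]
  rw [Finset.sum_ite_eq]
  simp

/-- The coordinates of the six possible rays of the plane. -/
lemma coords (q : T.Pq) (ρ : T.Ray) :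
    (ρ = q.x → q.xs ⬝ᵥ T.v ρ = 1 ∧ q.zs ⬝ᵥ T.v ρ = 0) ∧
    (ρ = q.z → q.xs ⬝ᵥ T.v ρ = 0 ∧ q.zs ⬝ᵥ T.v ρ = 1) ∧
    (ρ = q.y → q.xs ⬝ᵥ T.v ρ = 1 ∧ q.zs ⬝ᵥ T.v ρ = 1) ∧
    (T.Opp q.x ρ → q.xs ⬝ᵥ T.v ρ = -1 ∧ q.zs ⬝ᵥ T.v ρ = 0) ∧
    (T.Opp q.z ρ → q.xs ⬝ᵥ T.v ρ = 0 ∧ q.zs ⬝ᵥ T.v ρ = -1) ∧
    (T.Opp q.y ρ → q.xs ⬝ᵥ T.v ρ = -1 ∧ q.zs ⬝ᵥ T.v ρ = -1) ∧ (ρ = q.w ↔ T.Opp q.y ρ) := by
  have h1 := q.xx
  have h2 := q.xz
  have h3 := q.zx
  have h4 := q.zz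
  have h5 := q.tri.dot q.xs
  have h6 := q.tri.dot q.zs
  refine ⟨?_, ?_, ?_, fun h => ?_, fun h => ?_, fun h => ?_, ?_, fun h => h.uniq q.opp⟩
  · rintro rfl; omega
  · rintro rfl; omega
  · rintro rfl; omega
  · rw [h.dot, h.dot]; omega
  · rw [h.dot, h.dot]; omega
  · rw [h.dot, h.dot]; omega
  · rintro rfl; exact q.opp

lemma inV (q : T.Pq) {ρ : T.Ray}
    (h : ρ = q.x ∨ ρ = q.z ∨ ρ = q.y ∨ T.Opp q.x ρ ∨ T.Opp q.y ρ ∨ T.Opp q.z ρ) :
    T.InV q.x q.z ρ := by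
  have ht : T.v q.x + T.v q.z = T.v q.y := q.tri
  rcases h with rfl | rfl | rfl | h | h | h
  · exact ⟨1, 0, by simp⟩
  · exact ⟨0, 1, by simp⟩
  · exact ⟨1, 1, by simp [ht]⟩
  · exact ⟨-1, 0, by simpa using (neg_eq_of_add_eq_zero_right h).symm⟩
  · refine ⟨-1, -1, ?_⟩
    rw [← neg_eq_of_add_eq_zero_right h, ← ht]
    simp [add_comm]
  · exact ⟨0, -1, by simpa using (neg_eq_of_add_eq_zero_right h).symm⟩

/-- The pole part of `t`. -/
def nN (q : T.Pq) : T.Λ := Pi.single q.z 1 + ∑ σ with T.Opp q.x σ, Pi.single σ 1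

lemma nN_apply (q : T.Pq) (ρ : T.Ray) :
    nN q ρ = (if ρ = q.z then 1 else 0) + if T.Opp q.x ρ then 1 else 0 := by
  rw [nN, Pi.add_apply, sum_single, Pi.single_apply]

variable {K : Type} [Field K] [Algebra ℂ K] {M : T.Mod K}

lemma nt_mt (q : T.Pq) {E : M.X.PD} (h : M.NT E) : M.MT q E := fun u _ => h u

lemma ord_t (q : T.Pq) (E : M.X.PD) :
    M.X.ord (M.t q) E.1 = M.X.ord (M.χ q.xs) E.1 - M.X.ord (M.χ q.zs) E.1 :=
  ord_div (M.χ_ne _) (M.χ_ne _) E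

lemma pole (hC : T.C1) (hB : M.Bas) (q : T.Pq) (hE : M.Eqs q) {E : M.X.PD} (h : M.MT q E) :
    M.std (nN q) E = max 0 (-M.X.ord (M.t q) E.1) := by
  rw [ord_t]
  rcases M.tor E with h1 | ⟨ρ, rfl⟩
  · rw [hB.stdN _ _ h1, h1, h1]; simp
  · rw [hB.stdD, nN_apply, (M.isD ρ).1, (M.isD ρ).1]
    obtain ⟨c1, c2, c3, c4, c5, c6, c7⟩ := coords q ρ
    have := hC.inv _ _ _ q.tri ρ ((hE.mt ρ).1 h)
    split_ifs with h1 h2 h2
    · have := c2 h1; have := c4 h2; omega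
    · have := c2 h1; omega
    · have := c4 h2; omega
    · rcases this with h | h | h | h | h | h
      · have := c1 h; omega
      · exact absurd h h1
      · have := c3 h; omega
      · exact absurd h h2
      · have := c6 h; omega
      · have := c5 h; omega

lemma single_std (hB : M.Bas) (ρ : T.Ray) (E : M.X.PD) :
    M.std (Pi.single ρ 1) E = if E = M.D ρ then 1 else 0 := by
  rcases M.tor E with h1 | ⟨σ, rfl⟩
  · rw [hB.stdN _ _ h1, if_neg]
    rintro rfl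
    exact hB.nt ρ h1
  · rw [hB.stdD, Pi.single_apply]
    simp only [hB.inj.eq_iff]

lemma fix_sup {q : T.Pq} {φ : RingAut K} {e : M.X.PD ≃ M.X.PD} (h : M.Sig q φ e) {G : T.R}
    (hG : Sup q.Pp G) : φ (M.ψ G) = M.ψ G := by
  rw [eq_sum G, map_sum, map_sum]
  refine Finset.sum_congr rfl fun u hu => ?_
  rw [map_smul, Algebra.smul_def, map_mul, h.ps.1]
  exact congrArg _ (h.fix u (hG u (Finsupp.mem_support_iff.1 hu)))

lemma key (hC : T.C1) (hQ : St_QUA) (hB : M.Bas) (hK : St_CON) {q : T.Pq} (hE : M.Eqs q)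
    {φ : RingAut K} {e : M.X.PD ≃ M.X.PD} (h : M.Sig q φ e) {E : M.X.PD} (h1 : M.MT q E)
    (h2 : E ≠ M.D q.y) (h3 : M.MT q (e.symm E)) :
    M.X.ord (M.cub q).a2 E.1 = M.std (nN q) E + M.std (nN q) (e.symm E) := by
  have h0 : M.t q ≠ 0 := div_ne_zero (M.χ_ne _) (M.χ_ne _)
  obtain ⟨hi, hp⟩ := hE.reg E h1
  have := ((hQ K).2 M.X E _ _ _ _ _ h0 ((map_ne_zero φ).2 h0) h.n2 h.sum h.prod
    (a2_mem hi (hp h2)) (a1_mem hi (hp h2)) (a0_mem hi (hp h2)) (hK T K M q E h1 h2)).1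
  rw [this, pole hC hB q hE h1, pole hC hB q hE h3, ← h.ps.2 (M.t q) (e.symm E),
    e.apply_symm_apply]

lemma ka_zero (hC : T.C1) (q : T.Pq) {ρ : T.Ray} (h : T.InV q.x q.z ρ) (h' : ρ ≠ q.y) :
    T.ka q.x q.z q.y ρ = 0 := by
  have := hC.inv _ _ _ q.tri ρ h
  rw [Fano.ka, if_pos (by tauto)]

lemma arith {A B : ℤ} {P1 P2 P3 P4 : Prop} [Decidable P1] [Decidable P2] [Decidable P3]
    [Decidable P4] (hA : 0 ≤ A) (hB : 0 ≤ B) (k1 : P1 → A = 0)
    (k2 : P2 → A = 0) (k3 : P3 → B = 0) (k4 : P4 → B = 0)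
    (k : A + B = (if P1 then 1 else 0) + (if P3 then 1 else 0) +
      ((if P2 then 1 else 0) + if P4 then 1 else 0)) :
    (if P4 then 1 else 0 : ℤ) = 0 - (if P3 then 1 else 0) + A := by
  by_cases h1 : P1 <;> by_cases h2 : P2 <;> by_cases h3 : P3 <;> by_cases h4 : P4 <;>
    simp only [h1, h2, h3, h4, if_true, if_false, forall_true_left, false_imp_iff] at * <;> omega

end H49S

open H49S

theorem H49S.st_SIG2 (hC : St_C1) (hQ : St_QUA) (hB : St_BAS) (hE : St_EQS) (hS : St_SIG1)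
    (hK : St_CON) (hT : St_TGT) : St_SIG2 := by
  intro T K _ _ M q φ e h
  replace hC := hC T
  replace hB := hB T K M
  replace hE := hE T K M q
  obtain ⟨s1, s2, s3⟩ := hS T K M q φ e h
  obtain ⟨t1, t2⟩ := hT T K M q
  have s4 : ∀ E, M.MT q E → M.MT q (e.symm E) := fun E hm =>
    (s3 _).1 (by rwa [e.apply_symm_apply])
  have s5 : ∀ ρ, ρ = q.y ∨ ¬T.InV q.x q.z ρ → e.symm (M.D ρ) = M.D ρ := fun ρ hρ => by
    rw [e.symm_apply_eq]
    rcases hρ with rfl | hρ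
    · exact s1.symm
    · exact (s2 ρ hρ).symm
  have cases : ∀ E, (M.MT q E ∧ E ≠ M.D q.y) ∨
      ∃ ρ, E = M.D ρ ∧ (ρ = q.y ∨ ¬T.InV q.x q.z ρ) := fun E => by
    by_cases h2 : E = M.D q.y
    · exact Or.inr ⟨_, h2, Or.inl rfl⟩
    rcases M.tor E with h1 | ⟨ρ, rfl⟩
    · exact Or.inl ⟨nt_mt q h1, h2⟩
    · by_cases h3 : T.InV q.x q.z ρ
      · exact Or.inl ⟨(hE.mt ρ).2 h3, h2⟩
      · exact Or.inr ⟨ρ, rfl, Or.inr h3⟩
  have off : ∀ ρ, ρ = q.y ∨ ¬T.InV q.x q.z ρ →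
      ρ ≠ q.z ∧ ρ ≠ q.w ∧ ¬T.Opp q.x ρ ∧ ¬T.Opp q.z ρ := fun ρ hρ => by
    obtain ⟨c1, c2, c3, c4, c5, c6, c7⟩ := coords q ρ
    rcases hρ with hρ | hρ
    · have := c3 hρ
      refine ⟨fun h => ?_, fun h => ?_, fun h => ?_, fun h => ?_⟩
      · have := c2 h; omega
      · have := c6 (c7.1 h); omega
      · have := c4 h; omega
      · have := c5 h; omega
    · exact ⟨fun h => hρ (inV q (.inr (.inl h))),
        fun h => hρ (inV q (.inr (.inr (.inr (.inr (.inl (c7.1 h))))))),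
        fun h => hρ (inV q (.inr (.inr (.inr (.inl h))))),
        fun h => hρ (inV q (.inr (.inr (.inr (.inr (.inr h))))))⟩
  have hζ := M.χ_ne q.zs
  refine ⟨⟨(M.cub q).a2 / M.χ q.zs ^ 2, div_ne_zero h.n2 (pow_ne_zero _ hζ), ?_⟩, ?_⟩
  · refine Finsupp.ext fun E => ?_
    rw [End.push_apply, Finsupp.add_apply, div_apply, ord_div h.n2 (pow_ne_zero _ hζ), ord_pow]
    change M.std (nN q) _ = _
    have tg : ∀ ρ, (Pi.single q.z 1 + 3 • T.ka q.x q.z q.y - Pi.single q.w 2 -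
        ∑ σ with T.Opp q.z σ, Pi.single σ 2 - ∑ σ with T.Opp q.x σ, Pi.single σ 1 : T.Λ) ρ =
        (if ρ = q.z then 1 else 0) + 3 * T.ka q.x q.z q.y ρ - (if ρ = q.w then 2 else 0) -
          (if T.Opp q.z ρ then 2 else 0) - if T.Opp q.x ρ then 1 else 0 := fun ρ => by
      rw [Pi.sub_apply, Pi.sub_apply, Pi.sub_apply, Pi.add_apply, sum_single, sum_single,
        Pi.single_apply, Pi.single_apply, Pi.smul_apply, nsmul_eq_mul]
      rfl
    rcases cases E with ⟨h1, h2⟩ | ⟨ρ, rfl, hρ⟩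
    · rw [key hC hQ hB hK hE h h1 h2 (s4 E h1)]
      rcases M.tor E with h3 | ⟨ρ, rfl⟩
      · rw [hB.stdN _ _ h3, hB.stdN _ _ h3, h3]; simp
      · have hv := (hE.mt ρ).1 h1
        have hy : ρ ≠ q.y := fun e => h2 (e ▸ rfl)
        rw [hB.stdD, hB.stdD, tg, nN_apply, (M.isD ρ).1, ka_zero hC q hv hy]
        obtain ⟨c1, c2, c3, c4, c5, c6, c7⟩ := coords q ρ
        have hi := hC.inv _ _ _ q.tri ρ hv
        rw [← c7] at c6 hi
        push_cast
        by_cases e1 : ρ = q.z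
        · have := c2 e1
          rw [if_pos e1, if_neg fun h => by have := c6 h; omega,
            if_neg fun h => by have := c5 h; omega, if_neg fun h => by have := c4 h; omega]
          omega
        by_cases e2 : ρ = q.w
        · have := c6 e2
          rw [if_neg e1, if_pos e2,
            if_neg fun h => by have := c5 h; omega, if_neg fun h => by have := c4 h; omega]
          omega
        by_cases e3 : T.Opp q.z ρ
        · have := c5 e3
          rw [if_neg e1, if_neg e2, if_pos e3, if_neg fun h => by have := c4 h; omega]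
          omega
        by_cases e4 : T.Opp q.x ρ
        · have := c4 e4
          rw [if_neg e1, if_neg e2, if_neg e3, if_pos e4]
          omega
        · have := c1 (hi.resolve_right fun h => by
            rcases h with h | h | h | h | h
            exacts [e1 h, hy h, e4 h, e2 h, e3 h])
          rw [if_neg e1, if_neg e2, if_neg e3, if_neg e4]
          omega
    · obtain ⟨o1, o2, o3, o4⟩ := off ρ hρ
      rw [s5 ρ hρ, hB.stdD, hB.stdD, tg, nN_apply, (t1 ρ hρ).2, (M.isD ρ).1, if_neg o1, if_neg o2,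
        if_neg o3, if_neg o4]
      push_cast
      ring
  · intro σ hσ
    have c30 := hE.c30 ⟨σ, hσ⟩
    have hX := X0_eq c30
    have hA := a2_eq c30
    obtain ⟨G, hG0, hG, hq⟩ := hE.q0
    set f2 := (M.cub q).p + (M.cub q).c01 * (M.cub q).c21 with hf2
    set g2 := (M.cub q).c10 * ((M.cub q).c10 * f2) + (M.cub q).q0 * (M.cub q).c20 with hg2
    have f0 : f2 ≠ 0 := (t2 q.y (Or.inl rfl)).1
    have g0 : g2 ≠ 0 := fun e => h.n2 (by rw [hA, e, mul_zero])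
    have hco : ∀ i j, φ (M.co q i j) = M.co q i j := fun i j => fix_sup h (hE.co i j)
    have φf : φ f2 = f2 := by
      rw [hf2, map_add, map_mul]
      exact congrArg₂ _ h.fp (congrArg₂ _ (hco 0 1) (hco 2 1))
    have φg : φ g2 = g2 := by
      rw [hg2, map_add, map_mul, map_mul, map_mul, φf, ← hq, fix_sup h hG]
      exact congrArg₂ _ (congrArg₂ _ (hco 1 0) (congrArg₂ _ (hco 1 0) rfl))
        (congrArg₂ _ rfl (hco 2 0))
    have mf : ∀ E, M.MT q E → E ≠ M.D q.y → f2 ∈ M.X.O E.1 ∧ g2 ∈ M.X.O E.1 := fun E h1 h2 => by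
      obtain ⟨hi, hp⟩ := hE.reg E h1
      have := add_mem (hp h2) (mul_mem hi.2.1 hi.2.2.2.2.2.2.1)
      exact ⟨this, add_mem (mul_mem hi.1 (mul_mem hi.1 this)) (mul_mem (q0_mem hi) hi.2.2.1)⟩
    have hzV : T.InV q.x q.z q.z := inV q (.inr (.inl rfl))
    have hσV : T.InV q.x q.z σ := inV q (.inr (.inr (.inr (.inl hσ))))
    have hzy : M.D q.z ≠ M.D q.y := fun e => (off q.y (Or.inl rfl)).1 (hB.inj e).symm
    have hσy : M.D σ ≠ M.D q.y := fun e => (off q.y (Or.inl rfl)).2.2.1 (hB.inj e ▸ hσ)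
    have uz : M.X.ord f2 (M.D q.z).1 = 0 := by
      have hm := (hE.mt _).2 hzV
      obtain ⟨hi, hp⟩ := hE.reg _ hm
      have h1 := ord_nonneg (mf _ hm hzy).1
      by_contra h2
      have h3 : f2 ∈ ordGe (M.D q.z) 1 := (ge_iff f0).2 (by omega)
      have h4 : M.χ q.xs ∈ ordGe (M.D q.z) 0 := (ge_iff (M.χ_ne _)).2 (by rw [(M.isD _).1, q.xz])
      have h5 : M.χ q.zs ∈ ordGe (M.D q.z) 1 := (ge_iff hζ).2 (by rw [(M.isD _).1, q.zz])
      have h6 := add_mem (ge_mono (b := 1) (ge_mul h4 (ge_mul (ge_zero_iff.2 hi.1) h3)) (by omega))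
        (ge_mono (b := 1) (ge_mul h5 (ge_zero_iff.2 (Z0_mem hi (hp hzy)))) (by omega))
      obtain ⟨u1, u2⟩ := hE.un _ hzV G hG0 hG
      rw [← hX, hE.line, ← hq, ge_iff u1, u2] at h6
      omega
    have uσ : M.X.ord g2 (M.D σ).1 = 0 := by
      have hm := (hE.mt _).2 hσV
      obtain ⟨hi, hp⟩ := hE.reg _ hm
      obtain ⟨c1, c2⟩ := (coords q σ).2.2.2.1 hσ
      have h4 : (M.χ q.xs)⁻¹ ∈ ordGe (M.D σ) 1 :=
        (ge_iff (inv_ne_zero (M.χ_ne _))).2 (by rw [ord_inv, (M.isD _).1, c1]; rfl)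
      have h5 : M.χ q.zs ∈ ordGe (M.D σ) 0 := (ge_iff hζ).2 (by rw [(M.isD _).1, c2])
      have h6 := ge_mul h4 (sub_mem (ge_zero_iff.2 (q0_mem hi))
        (ge_mul h5 (ge_zero_iff.2 (Z0_mem hi (hp hσy)))))
      rw [← hE.line, add_sub_cancel_right, inv_mul_cancel_left₀ (M.χ_ne _), hX] at h6
      obtain ⟨u1, u2⟩ := hE.un _ hσV G hG0 hG
      obtain ⟨u, hu, hu1, hu2⟩ := hC.cls _ _ _ _ q.tri q.opp 2 0 (by omega) (by omega) (by omega)
        (by omega) (fun _ => le_rfl) (fun _ => by omega)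
      obtain ⟨u3, u4⟩ := hE.un _ hσV _ (mul_ne_zero
        (part_ne_zero.2 ⟨u, M.gen.ne hu, hu1, hu2⟩) (mn_ne _)) (hE.co 2 0)
      change (M.cub q).c20 ≠ 0 at u3
      change M.X.ord (M.cub q).c20 _ = 0 at u4
      rw [hq] at u1 u2
      have h7 : M.X.ord ((M.cub q).q0 * (M.cub q).c20) (M.D σ).1 = 0 := by
        rw [ord_mul u1 u3, u2, u4]; rfl
      rw [← h7]
      refine (ord_of_sub (mul_ne_zero u1 u3) ?_).2
      rw [h7, hg2, add_sub_cancel_right]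
      exact ge_mul (ge_zero_iff.2 hi.1) h6
    have hN : nN q = Pi.single q.z 1 + Pi.single σ 1 := funext fun ρ => by
      rw [nN_apply, Pi.add_apply, Pi.single_apply, Pi.single_apply]
      congr 2
      exact propext ⟨fun h => h.uniq hσ, fun h => h ▸ hσ⟩
    refine ⟨f2, f0, Finsupp.ext fun E => ?_⟩
    rw [End.push_apply, Finsupp.add_apply, div_apply, map_sub, Finsupp.sub_apply]
    rcases cases E with ⟨h1, h2⟩ | ⟨ρ, rfl, hρ⟩
    · have k := key hC hQ hB hK hE h h1 h2 (s4 E h1)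
      have k0 : M.std (T.ka q.x q.z q.y) E = 0 := by
        rcases M.tor E with h3 | ⟨ρ, rfl⟩
        · exact hB.stdN _ _ h3
        · rw [hB.stdD, ka_zero hC q ((hE.mt ρ).1 h1) fun e => h2 (e ▸ rfl)]
      have k1 := ord_nonneg (mf E h1 h2).1
      have k2 := ord_nonneg (mf E h1 h2).2
      have k3 := h.ps.2 f2 (e.symm E)
      have k4 := h.ps.2 g2 (e.symm E)
      rw [e.apply_symm_apply, φf] at k3
      rw [e.apply_symm_apply, φg] at k4
      have k5 : E = M.D q.z → M.X.ord f2 E.1 = 0 := fun e => e ▸ uz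
      have k6 : e.symm E = M.D q.z → M.X.ord f2 E.1 = 0 := fun e => by rw [k3, e, uz]
      have k7 : E = M.D σ → M.X.ord g2 E.1 = 0 := fun e => e ▸ uσ
      have k8 : e.symm E = M.D σ → M.X.ord g2 E.1 = 0 := fun e => by rw [k4, e, uσ]
      rw [hA, ord_mul f0 g0, hN, map_add, Finsupp.add_apply, Finsupp.add_apply] at k
      simp only [single_std hB] at k ⊢
      rw [k0]
      exact arith k1 k2 k5 k6 k7 k8 k
    · obtain ⟨o1, o2, o3, o4⟩ := off ρ hρ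
      rw [s5 ρ hρ, hB.stdD, hB.stdD, (t2 ρ hρ).2, Pi.single_apply,
        if_neg fun e : ρ = σ => o3 (e ▸ hσ)]
      ring

end Pool.Agent.Lib.TF
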