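import Pool.Agent.Lib.TF.H49S

open Set Pool.Agent.Lib.MP_e39d36_ag Pool.Agent.Lib.MP_e39d36_ag.Var Pool.Agent.Lib.DU
  Pool.Agent.Lib.MV
open scoped Classical NNReal

set_option linter.unusedSectionVars false
set_option linter.unusedVariables false

noncomputable section

namespace Pool.Agent.Lib.TF

open Fano H49S

namespace H49T

section ge

variable {K : Type} [Field K] [Algebra ℂ K] {X : Var K} {E : X.PD} {P A B C u : ℤ}
  {p al be c20 c11 c02 c30 c21 : K}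

lemma U_ge (hp : p ∈ ordGe E P) (ha : al ∈ ordGe E A) (hb : be ∈ ordGe E A)
    (h30 : c30 ∈ ordGe E C) (h21 : c21 ∈ ordGe E C) (h1 : u ≤ P + A) (h2 : u ≤ C + A + A) :
    p * al - c30 * be * be + c21 * al * be ∈ ordGe E u :=
  add_mem (sub_mem (ge_mono (ge_mul hp ha) h1) (ge_mono (ge_mul (ge_mul h30 hb) hb) h2))
    (ge_mono (ge_mul (ge_mul h21 ha) hb) h2)

lemma QR_ge (hp : p ∈ ordGe E P) (ha : al ∈ ordGe E A) (hb : be ∈ ordGe E A)
    (h20 : c20 ∈ ordGe E B) (h11 : c11 ∈ ordGe E B) (h02 : c02 ∈ ordGe E B)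
    (h30 : c30 ∈ ordGe E C) (h21 : c21 ∈ ordGe E C) (h1 : u ≤ P + B) (h2 : u ≤ C + B + A) :
    (c20 * be * be - c11 * al * be + c02 * al * al) *
      (p * c20 + c21 * c20 * be - c30 * c11 * be + c30 * c02 * al) ∈ ordGe E (B + A + A + u) :=
  ge_mul (add_mem (sub_mem (ge_mul (ge_mul h20 hb) hb) (ge_mul (ge_mul h11 ha) hb))
    (ge_mul (ge_mul h02 ha) ha))
    (add_mem (sub_mem (add_mem (ge_mono (ge_mul hp h20) h1) (ge_mono (ge_mul (ge_mul h21 h20) hb) h2))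
      (ge_mono (ge_mul (ge_mul h30 h11) hb) h2)) (ge_mono (ge_mul (ge_mul h30 h02) ha) h2))

end ge

variable {T : Fano}

lemma ka_off (q : T.Pq) {ρ : T.Ray} (hρ : ¬T.InV q.x q.z ρ) :
    T.ka q.x q.z q.y ρ = if T.Nb q.y ρ then 2 else 1 := by
  unfold Fano.ka
  exact if_neg fun h => hρ (inV q (by tauto))

lemma ka_y (hC : T.C1) (q : T.Pq) : T.ka q.x q.z q.y q.y = 2 := by
  obtain ⟨c1, c2, c3, c4, c5, c6, c7⟩ := coords q q.y
  have := c3 rfl
  have hn : T.Nb q.y q.y := by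
    by_contra hn
    rcases (hC.nf _ _).1 hn with h | ⟨t, h⟩
    · have := c6 h; omega
    · rcases hC.prim t q.y 2 (by rw [← h, two_smul]) with e | e
      · have h1 := h.dot q.xs
        rw [e] at h1; omega
      · have h1 := h.dot q.xs
        have h2 := e.dot q.xs
        omega
  unfold Fano.ka
  rw [if_neg, if_pos hn]
  rintro (h | h | h | h | h)
  · have := c1 h; omega
  · have := c2 h; omega
  · have := c4 h; omega
  · have := c6 h; omega
  · have := c5 h; omega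

lemma far (hC : T.C1) (h0 : T.C0) (q : T.Pq) {ρ : T.Ray} (hρ : ¬T.InV q.x q.z ρ)
    (hn : ¬T.Nb q.y ρ) : ∃ t, T.Tri q.y ρ t ∧ ¬T.InV q.x q.z t ∧ T.Nb q.y t ∧ t ≠ ρ := by
  rcases (hC.nf _ _).1 hn with h | ⟨t, h⟩
  · exact absurd (inV q (by tauto)) hρ
  have h1 : t ≠ ρ := by
    rintro rfl
    exact T.ne q.y (by simpa [Fano.Tri] using h)
  refine ⟨t, h, fun ⟨i, j, e⟩ => hρ ⟨i - 1, j - 1, ?_⟩,
    hC.swap _ _ _ h {t} (h0.ray t) (by simp) (by simpa using h1.symm), h1⟩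
  have h2 : T.v q.y + T.v ρ = T.v t := h
  have h3 : T.v q.x + T.v q.z = T.v q.y := q.tri
  rw [← sub_eq_iff_eq_add'.2 h2.symm, e, ← h3]
  module

variable {K : Type} [Field K] [Algebra ℂ K] {M : T.Mod K}

lemma core (hC : T.C1) (h0 : T.C0) (hB : M.Bas) (hG : St_GEN) (hI : St_CI) (q : T.Pq) (m : ℕ)
    (hm : 1 ≤ m) (a : T.Λ) (ax : a q.x = 0) (az : 0 ≤ a q.z) (az' : a q.z ≤ 1)
    (ao : ∀ ρ, ρ = q.y ∨ ¬T.InV q.x q.z ρ → a ρ = m * T.ka q.x q.z q.y ρ) {s : K} (hs : s ∈ M.Sec a)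
    (c : ℂ) (hc : c ≠ 0) (hy : s - c • M.al q.x q.z ^ (2 * m) ∈ ordGe (M.D q.y) (1 - (2 * m : ℕ)))
    (ρ : T.Ray) (hρ : ρ = q.y ∨ ¬T.InV q.x q.z ρ) :
    s ≠ 0 ∧ M.X.ord s (M.D ρ).1 = -(m * T.ka q.x q.z q.y ρ) := by
  have ay : a q.y = (2 * m : ℕ) := by rw [ao _ (Or.inl rfl), ka_y hC]; push_cast; ring
  have hb := ((hB.mem _ _).1 hs).2
  have nb : ∀ t, ¬T.InV q.x q.z t → T.Nb q.y t → s ∉ ordGe (M.D t) (1 - (2 * m : ℕ)) :=
    fun t h1 h2 => (hI T K M _ _ _ q.tri a s hs).2 (2 * m) c hc ax az (by push_cast; omega) ay hy t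
      h2 (fun e => h1 (inV q (.inl e))) fun e => h1 (inV q (.inr (.inl e)))
  rw [← ao ρ hρ]
  refine ord_of_not_ge (hb ρ) ?_
  rcases hρ with rfl | hρ
  · obtain ⟨-, -, -, -, g1, g2, -⟩ := hG T K M _ _ _ q.tri
    intro h
    have h1 := sub_mem (ge_mono h (by rw [ay]; omega)) hy
    rw [sub_sub_cancel] at h1
    have h2 := Submodule.smul_mem _ c⁻¹ h1
    rw [inv_smul_smul₀ hc, ge_iff (pow_ne_zero _ g1), ord_pow, g2] at h2
    omega
  by_cases hn : T.Nb q.y ρ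
  · have := nb ρ hρ hn
    rw [ao ρ (Or.inr hρ), ka_off q hρ, if_pos hn]
    convert this using 3
    push_cast; ring
  · obtain ⟨t, h1, h2, h3, h4⟩ := far hC h0 q hρ hn
    intro h
    have aρ : a ρ = m := by rw [ao ρ (Or.inr hρ), ka_off q hρ, if_neg hn, mul_one]
    have att : a t = (2 * m : ℕ) := by
      rw [ao t (Or.inr h2), ka_off q h2, if_pos h3]; push_cast; ring
    have hs' : s ∈ M.Sec (Function.update a ρ (m - 1)) := (hB.mem _ _).2 ⟨((hB.mem _ _).1 hs).1,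
      fun σ => by
        by_cases e : σ = ρ
        · rw [e, Function.update_self]
          exact ge_mono h (by omega)
        · rw [Function.update_of_ne e]
          exact hb σ⟩
    have h5 := (hI T K M _ _ _ q.tri _ s hs').1 ρ t h1 (fun e => h2 (inV q (.inl e)))
      (fun e => h2 (inV q (.inr (.inl e))))
      (by rw [Function.update_of_ne h4, att]; exact nb t h2 h3)
    rw [Function.update_self, Function.update_of_ne h4,
      Function.update_of_ne fun e : q.x = ρ => hρ (inV q (.inl e.symm)),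
      Function.update_of_ne fun e : q.z = ρ => hρ (inV q (.inr (.inl e.symm))),
      Function.update_of_ne fun e : q.y = ρ => hρ (inV q (.inr (.inr (.inl e.symm)))), ax, ay,
      att] at h5
    push_cast at h5
    omega

/-- The parts of the equation. -/
abbrev cc (M : T.Mod K) (q : T.Pq) (i j : ℤ) : K := M.ψ (T.cl M.f q.x q.z i j)

lemma co_eq (q : T.Pq) (i j : ℤ) :
    M.co q i j = cc M q i j * (M.χ q.xs ^ (1 - i) * M.χ q.zs ^ (1 - j)) := by
  rw [Mod.co, map_mul, ← M.χ_zsmul, ← M.χ_zsmul, ← M.χ_add]; rfl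

lemma a2_div (q : T.Pq) : (M.cub q).a2 / M.χ q.zs ^ 2 =
    (M.p q.x q.z * cc M q 1 0 - cc M q 3 0 * cc M q 0 1 * cc M q 0 1 +
      cc M q 2 1 * cc M q 1 0 * cc M q 0 1) *
    (M.p q.x q.z * cc M q 1 0 - cc M q 3 0 * cc M q 0 1 * cc M q 0 1 +
      cc M q 2 1 * cc M q 1 0 * cc M q 0 1) +
    (cc M q 2 0 * cc M q 0 1 * cc M q 0 1 - cc M q 1 1 * cc M q 1 0 * cc M q 0 1 +
      cc M q 0 2 * cc M q 1 0 * cc M q 1 0) *
    (M.p q.x q.z * cc M q 2 0 + cc M q 2 1 * cc M q 2 0 * cc M q 0 1 -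
      cc M q 3 0 * cc M q 1 1 * cc M q 0 1 + cc M q 3 0 * cc M q 0 2 * cc M q 1 0) := by
  have h1 := M.χ_ne q.xs
  have h2 := M.χ_ne q.zs
  simp only [Cub.a2, Cub.X0, Cub.q0, Mod.cub, co_eq]
  norm_num
  field_simp
  ring

lemma f2_eq (q : T.Pq) : (M.cub q).p + (M.cub q).c01 * (M.cub q).c21 =
    M.p q.x q.z + cc M q 0 1 * cc M q 2 1 := by
  have h1 := M.χ_ne q.xs
  simp only [Mod.cub, co_eq]
  norm_num
  field_simp

lemma cc1 (hB : M.Bas) (q : T.Pq) (i j : ℤ) (ρ : T.Ray) : cc M q i j ∈ ordGe (M.D ρ) (-1) :=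
  hB.geD _ _ _ (Sup.part (M.gen.lo ρ))

lemma ccy (hB : M.Bas) (q : T.Pq) (i j k : ℤ) (h : k ≤ i + j - 2) :
    cc M q i j ∈ ordGe (M.D q.y) k :=
  hB.geD _ _ _ (Sup.mono sup_part fun u hu => by rw [q.tri.dot]; omega)

lemma ccf (hB : M.Bas) (q : T.Pq) (i j : ℤ) (h : i + j = 1) {ρ t : T.Ray} (ht : T.Tri q.y ρ t) :
    cc M q i j ∈ ordGe (M.D ρ) 0 :=
  hB.geD _ _ _ (Sup.mono (Sup.and sup_part (Sup.part (M.gen.lo t))) fun u hu => by
    have h1 := hu.2
    rw [ht.dot, q.tri.dot] at h1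
    omega)

theorem st_TGT (h0 : St_C0) (hC : St_C1) (hB : St_BAS) (hG : St_GEN) (hI : St_CI) (hE : St_EQS) :
    St_TGT := by
  intro T K _ _ M q
  replace h0 := h0 T
  replace hC := hC T
  replace hB := hB T K M
  replace hE := hE T K M q
  obtain ⟨-, gp, -, gy, -⟩ := hG T K M _ _ _ q.tri
  have hp := ((hB.mem _ _).1 gp).2
  have hζ := M.χ_ne q.zs
  have hny : ∀ E, M.NT E → E ≠ M.D q.y := fun E h e => hB.nt _ (e ▸ h)
  have kx : T.ka q.x q.z q.y q.x = 0 := by simp [Fano.ka]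
  have kz : T.ka q.x q.z q.y q.z = 0 := by simp [Fano.ka]
  have tri : ∀ ρ, (T.InV q.x q.z ρ ∧ ρ ≠ q.y) ∨ T.ka q.x q.z q.y ρ = 2 ∨
      (T.ka q.x q.z q.y ρ = 1 ∧ ∃ t, T.Tri q.y ρ t) := fun ρ => by
    by_cases e : ρ = q.y
    · exact .inr (.inl (e ▸ ka_y hC q))
    by_cases hv : T.InV q.x q.z ρ
    · exact .inl ⟨hv, e⟩
    by_cases hn : T.Nb q.y ρ
    · exact .inr (.inl (by rw [ka_off q hv, if_pos hn]))
    · obtain ⟨t, h1, -⟩ := far hC h0 q hv hn
      exact .inr (.inr ⟨by rw [ka_off q hv, if_neg hn], t, h1⟩)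
  constructor
  · intro ρ hρ
    have hzi : ∀ E, (M.χ q.zs ^ 2)⁻¹ ∈ ordGe E (-(2 * M.X.ord (M.χ q.zs) E.1)) := fun E =>
      ge_mono (ge_ord _ E) (by rw [ord_inv, ord_pow]; rfl)
    have hs : (M.cub q).a2 / M.χ q.zs ^ 2 ∈
        M.Sec (fun ρ => 3 * T.ka q.x q.z q.y ρ + if ρ = q.z then 1 else 0) := by
      refine (hB.mem _ _).2 ⟨fun E h => ?_, fun σ => ?_⟩
      · obtain ⟨hi, hp'⟩ := hE.reg E (nt_mt q h)
        rw [div_eq_mul_inv]
        exact ge_mono (ge_mul (ge_zero_iff.2 (a2_mem hi (hp' (hny E h)))) (hzi E))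
          (by rw [h]; rfl)
      have hpσ := hp σ
      rcases tri σ with ⟨h1, h2⟩ | h1 | ⟨h1, t, h2⟩
      · obtain ⟨hi, hp'⟩ := hE.reg _ ((hE.mt σ).2 h1)
        replace hp' := hp' fun e => h2 (hB.inj e)
        obtain ⟨c1, c2, c3, c4, c5, c6, c7⟩ := coords q σ
        rw [div_eq_mul_inv]
        by_cases e : σ = q.z
        · have h3 : (M.t q)⁻¹ ∈ ordGe (M.D σ) 1 := ge_mono (ge_ord _ _) (by
            rw [ord_inv, ord_t, (M.isD σ).1, (M.isD σ).1, (c2 e).1, (c2 e).2]; rfl)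
          have h4 : M.t q ≠ 0 := div_ne_zero (M.χ_ne _) hζ
          have h5 : (M.cub q).a2 =
              -((M.cub q).a1 * (M.t q)⁻¹) - (M.cub q).a0 * (M.t q)⁻¹ * (M.t q)⁻¹ := by
            field_simp
            linear_combination hE.quad
          have h6 : (M.cub q).a2 ∈ ordGe (M.D σ) 1 := by
            rw [h5]
            exact sub_mem (neg_mem (ge_mono (ge_mul (ge_zero_iff.2 (a1_mem hi hp')) h3) (by omega)))
              (ge_mono (ge_mul (ge_mul (ge_zero_iff.2 (a0_mem hi hp')) h3) h3) (by omega))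
          refine ge_mono (ge_mul h6 (hzi _)) ?_
          rw [(M.isD σ).1, (c2 e).2, ka_zero hC q h1 h2, if_pos e]
          rfl
        · refine ge_mono (ge_mul (ge_zero_iff.2 (a2_mem hi hp')) (hzi _)) ?_
          rw [(M.isD σ).1, ka_zero hC q h1 h2, if_neg e]
          rcases hC.inv _ _ _ q.tri σ h1 with h | h | h | h | h | h
          · have := c1 h; omega
          · exact absurd h e
          · exact absurd h h2
          · have := c4 h; omega
          · have := c6 h; omega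
          · have := c5 h; omega
      · rw [h1] at hpσ
        have u := U_ge (u := -3) hpσ (cc1 hB q 1 0 σ) (cc1 hB q 0 1 σ) (cc1 hB q 3 0 σ)
          (cc1 hB q 2 1 σ) (by omega) (by omega)
        have r := QR_ge (u := -3) hpσ (cc1 hB q 1 0 σ) (cc1 hB q 0 1 σ) (cc1 hB q 2 0 σ)
          (cc1 hB q 1 1 σ) (cc1 hB q 0 2 σ) (cc1 hB q 3 0 σ) (cc1 hB q 2 1 σ) (by omega) (by omega)
        rw [a2_div, h1]
        exact add_mem (ge_mono (ge_mul u u) (by split_ifs <;> omega))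
          (ge_mono r (by split_ifs <;> omega))
      · rw [h1] at hpσ
        have u := U_ge (u := -1) hpσ (ccf hB q 1 0 rfl h2) (ccf hB q 0 1 rfl h2) (cc1 hB q 3 0 σ)
          (cc1 hB q 2 1 σ) (by omega) (by omega)
        have r := QR_ge (u := -2) hpσ (ccf hB q 1 0 rfl h2) (ccf hB q 0 1 rfl h2) (cc1 hB q 2 0 σ)
          (cc1 hB q 1 1 σ) (cc1 hB q 0 2 σ) (cc1 hB q 3 0 σ) (cc1 hB q 2 1 σ) (by omega) (by omega)
        rw [a2_div, h1]
        exact add_mem (ge_mono (ge_mul u u) (by split_ifs <;> omega))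
          (ge_mono r (by split_ifs <;> omega))
    have hy : (M.cub q).a2 / M.χ q.zs ^ 2 - (1 : ℂ) • M.al q.x q.z ^ (2 * 3) ∈
        ordGe (M.D q.y) (1 - (2 * 3 : ℕ)) := by
      have hpy := hp q.y
      rw [ka_y hC] at hpy
      have a1 := ccy hB q 1 0 (-1) (by omega)
      have a2 := ccy hB q 0 1 (-1) (by omega)
      have u := U_ge (u := -2) gy a1 a2 (ccy hB q 3 0 1 (by omega)) (ccy hB q 2 1 1 (by omega))
        (by omega) (by omega)
      have u' := U_ge (u := -3) hpy a1 a2 (ccy hB q 3 0 1 (by omega)) (ccy hB q 2 1 1 (by omega))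
        (by omega) (by omega)
      have r := QR_ge (u := -2) hpy a1 a2 (ccy hB q 2 0 0 (by omega)) (ccy hB q 1 1 0 (by omega))
        (ccy hB q 0 2 0 (by omega)) (ccy hB q 3 0 1 (by omega)) (ccy hB q 2 1 1 (by omega))
        (by omega) (by omega)
      have h := add_mem (ge_mono (b := -5) (ge_mul u (sub_mem u'
        (ge_mono (ge_mul (ge_mul a1 a1) a1) (by omega)))) (by omega)) (ge_mono r (by omega))
      rw [a2_div, one_smul]
      refine ge_mono (a := -5) ?_ (by norm_num)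
      convert h using 1
      ring
    obtain ⟨k1, k2⟩ := core hC h0 hB hG hI q 3 (by omega) _
      (by
        have h1 := (coords q q.x).2.1
        have h2 := q.xx
        rw [kx, if_neg fun e => by have := h1 e; omega]; rfl)
      (by rw [kz, if_pos rfl]; omega) (by rw [kz, if_pos rfl]; omega)
      (fun σ hσ => by
        rw [if_neg, add_zero]; · rfl
        rintro rfl
        rcases hσ with e | e
        · have := (coords q q.z).2.2.1 e
          have := q.xz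
          omega
        · exact e (inV q (.inr (.inl rfl)))) hs 1 one_ne_zero hy ρ hρ
    have k3 : (M.cub q).a2 ≠ 0 := fun e => k1 (by rw [e, zero_div])
    rw [ord_div k3 (pow_ne_zero _ hζ), ord_pow, (M.isD ρ).1] at k2
    push_cast at k2
    exact ⟨k3, by omega⟩
  · intro ρ hρ
    have hs : (M.cub q).p + (M.cub q).c01 * (M.cub q).c21 ∈ M.Sec (T.ka q.x q.z q.y) := by
      refine (hB.mem _ _).2 ⟨fun E h => ?_, fun σ => ?_⟩
      · obtain ⟨hi, hp'⟩ := hE.reg E (nt_mt q h)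
        exact ge_zero_iff.2 (add_mem (hp' (hny E h)) (mul_mem hi.2.1 hi.2.2.2.2.2.2.1))
      rcases tri σ with ⟨h1, h2⟩ | h1 | ⟨h1, t, h2⟩
      · obtain ⟨hi, hp'⟩ := hE.reg _ ((hE.mt σ).2 h1)
        rw [ka_zero hC q h1 h2, neg_zero]
        exact ge_zero_iff.2 (add_mem (hp' fun e => h2 (hB.inj e)) (mul_mem hi.2.1 hi.2.2.2.2.2.2.1))
      · rw [f2_eq]
        exact add_mem (hp σ) (ge_mono (ge_mul (cc1 hB q 0 1 σ) (cc1 hB q 2 1 σ)) (by omega))
      · rw [f2_eq]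
        exact add_mem (hp σ) (ge_mono (ge_mul (ccf hB q 0 1 rfl h2) (cc1 hB q 2 1 σ)) (by omega))
    have hy : (M.cub q).p + (M.cub q).c01 * (M.cub q).c21 - (-1 : ℂ) • M.al q.x q.z ^ (2 * 1) ∈
        ordGe (M.D q.y) (1 - (2 * 1 : ℕ)) := by
      have h := add_mem gy (ge_mono (ge_mul (ccy hB q 0 1 (-1) (by omega))
        (ccy hB q 2 1 1 (by omega))) (by omega))
      rw [f2_eq, neg_smul, one_smul]
      refine ge_mono (a := -1) ?_ (by norm_num)
      convert h using 1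
      ring
    simpa using core hC h0 hB hG hI q 1 le_rfl _ kx kz.ge (by omega) (fun σ _ => by simp) hs (-1)
      (by norm_num) hy ρ hρ

end H49T

end Pool.Agent.Lib.TF
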