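import Pool.Agent.Lib.TF.SDefs

open Set
open scoped NNReal Classical

set_option linter.unusedSectionVars false
set_option linter.unusedVariables false

noncomputable section

namespace Pool.Agent.Lib.TF

namespace Fano

variable (T : Fano)

/-- The lattices `M` and `N`. -/
abbrev M : Type := Fin T.n → ℤ

/-- Rays. -/
abbrev Ray : Type := Fin T.r

/-- Toric divisors. -/
abbrev Λ : Type := T.Ray → ℤ

/-- The rays on which `m` equals `-1`. -/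
def F (m : T.M) : Finset T.Ray := Finset.univ.filter fun ρ => m ⬝ᵥ T.v ρ = -1

/-- Lattice points of the anticanonical polytope. -/
def P (u : T.M) : Prop := ∀ ρ, -1 ≤ u ⬝ᵥ T.v ρ

/-- Vertices. -/
abbrev V (m : T.M) : Prop := Vert T.v m

/-- Cones of the fan. -/
def Face (τ : Finset T.Ray) : Prop := ∃ m, T.V m ∧ τ ⊆ T.F m

/-- Neighbours (every ray is its own neighbour). -/
def Nb (x y : T.Ray) : Prop := T.Face {x, y}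

/-- `x + z = y`. -/
def Tri (x z y : T.Ray) : Prop := T.v x + T.v z = T.v y

/-- `x + z = 0`. -/
def Opp (x z : T.Ray) : Prop := T.v x + T.v z = 0

/-- `ρ` lies in the plane spanned by `x` and `z`. -/
def InV (x z ρ : T.Ray) : Prop := ∃ i j : ℤ, T.v ρ = i • T.v x + j • T.v z

/-- Principal toric divisors. -/
def mv (u : T.M) : T.Λ := fun ρ => u ⬝ᵥ T.v ρ

/-- The class of the section `w`. -/
def om (x z : T.Ray) : T.Λ := fun ρ => if ρ = x ∨ ρ = z then 0 else 1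

/-- The class of the section `℘`. -/
def ka (x z y : T.Ray) : T.Λ := fun ρ =>
  if ρ = x ∨ ρ = z ∨ T.Opp x ρ ∨ T.Opp y ρ ∨ T.Opp z ρ then 0 else if T.Nb y ρ then 2 else 1

variable {T}

@[simp] lemma mem_F {m : T.M} {ρ : T.Ray} : ρ ∈ T.F m ↔ m ⬝ᵥ T.v ρ = -1 := by simp [F]

lemma Tri.symm {x z y : T.Ray} (h : T.Tri x z y) : T.Tri z x y := (add_comm _ _).trans h

lemma Opp.symm {x z : T.Ray} (h : T.Opp x z) : T.Opp z x := (add_comm _ _).trans h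

lemma Nb.symm {x y : T.Ray} (h : T.Nb x y) : T.Nb y x := by
  rwa [Nb, Finset.pair_comm]

lemma Face.mono {τ τ' : Finset T.Ray} (h : T.Face τ) (h' : τ' ⊆ τ) : T.Face τ' :=
  h.imp fun _ h => ⟨h.1, h'.trans h.2⟩

lemma Tri.dot {x z y : T.Ray} (h : T.Tri x z y) (u : T.M) :
    u ⬝ᵥ T.v y = u ⬝ᵥ T.v x + u ⬝ᵥ T.v z := by rw [← h, dotProduct_add]

lemma Opp.dot {x z : T.Ray} (h : T.Opp x z) (u : T.M) : u ⬝ᵥ T.v z = -(u ⬝ᵥ T.v x) := by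
  rw [eq_neg_iff_add_eq_zero, add_comm, ← dotProduct_add, h, dotProduct_zero]

lemma Tri.uniq {x z y y' : T.Ray} (h : T.Tri x z y) (h' : T.Tri x z y') : y = y' :=
  T.inj (Eq.trans (Eq.symm h) h')

lemma Tri.uniq' {x x' z y : T.Ray} (h : T.Tri x z y) (h' : T.Tri x' z y) : x = x' :=
  T.inj (add_right_cancel (Eq.trans h (Eq.symm h')))

lemma Opp.uniq {x z z' : T.Ray} (h : T.Opp x z) (h' : T.Opp x z') : z = z' :=
  T.inj (add_left_cancel (Eq.trans h (Eq.symm h')))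

lemma Tri.opp {x z y z' : T.Ray} (h : T.Tri x z y) (h' : T.Opp z z') : T.Tri y z' x := by
  unfold Tri Opp at *
  rw [← h, add_assoc, h', add_zero]

lemma om_comm (x z : T.Ray) : T.om x z = T.om z x := funext fun ρ => by simp [om, or_comm]

lemma ka_comm (x z y : T.Ray) : T.ka x z y = T.ka z x y := funext fun ρ => by
  unfold ka
  congr 1
  exact propext (by tauto)

variable (T) (k : Type) [CommRing k]

/-- The action of the involution of a line. -/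
def Tp (z z' : T.Ray) : (T.Ray → k) →ₗ[k] T.Ray → k where
  toFun a ρ := a ρ + (a z + a z') * (if ρ = z ∨ ρ = z' then -1 else 1) -
    ∑ y with T.Tri ρ z y, (a ρ + a z - a y) - ∑ x with T.Tri x z ρ, (a z' - a x + a ρ)
  map_add' a b := by
    ext ρ
    simp only [Pi.add_apply, Finset.sum_add_distrib, Finset.sum_sub_distrib]
    ring
  map_smul' c a := by
    ext ρ
    simp only [Pi.smul_apply, smul_eq_mul, RingHom.id_apply, mul_sub, mul_add, Finset.mul_sum]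
    ring

/-- The degree of the divisor of `-y` on the fibre curve. -/
def dq (x z : T.Ray) : ℤ := 3 - (Finset.univ.filter fun σ => T.Opp x σ).card -
  (Finset.univ.filter fun σ => T.Opp z σ).card

/-- The action of the involution of a pointed triangle. -/
def Tq (x z y w : T.Ray) : (T.Ray → k) →ₗ[k] T.Ray → k where
  toFun a ρ := a ρ + (a x + a z + a w) * (T.dq x z * T.ka x z y ρ - if ρ = w then 2 else 0) +
    ∑ σ with T.Opp x σ, (a x + a σ) * (T.ka x z y ρ - if ρ = σ then 2 else 0) +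
    ∑ σ with T.Opp z σ, (a z + a σ) * (T.ka x z y ρ - if ρ = σ then 2 else 0)
  map_add' a b := by
    ext ρ
    simp only [Pi.add_apply, add_mul, Finset.sum_add_distrib]
    ring
  map_smul' c a := by
    ext ρ
    simp only [Pi.smul_apply, smul_eq_mul, RingHom.id_apply, mul_add, add_mul, Finset.mul_sum,
      mul_assoc]

lemma Tp_apply (z z' : T.Ray) (a : T.Ray → k) (ρ : T.Ray) : T.Tp k z z' a ρ =
    a ρ + (a z + a z') * (if ρ = z ∨ ρ = z' then -1 else 1) -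
      ∑ y with T.Tri ρ z y, (a ρ + a z - a y) - ∑ x with T.Tri x z ρ, (a z' - a x + a ρ) := rfl

lemma Tq_apply (x z y w : T.Ray) (a : T.Ray → k) (ρ : T.Ray) : T.Tq k x z y w a ρ =
    a ρ + (a x + a z + a w) * (T.dq x z * T.ka x z y ρ - if ρ = w then 2 else 0) +
      ∑ σ with T.Opp x σ, (a x + a σ) * (T.ka x z y ρ - if ρ = σ then 2 else 0) +
      ∑ σ with T.Opp z σ, (a z + a σ) * (T.ka x z y ρ - if ρ = σ then 2 else 0) := rfl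

lemma Tq_comm (x z y w : T.Ray) : T.Tq k x z y w = T.Tq k z x y w := by
  refine LinearMap.ext fun a => funext fun ρ => ?_
  rw [Tq_apply, Tq_apply, ka_comm x z, show T.dq x z = T.dq z x by unfold dq; ring]
  ring

/-- The generators: lines and pointed triangles. -/
inductive Gn : Type
  | p (z z' : T.Ray) (h : T.Opp z z') : Gn
  | q (x z y w : T.Ray) (h : T.Tri x z y) (h' : T.Opp y w) : Gn

/-- The action of a generator. -/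
def act : T.Gn → (T.Ray → k) →ₗ[k] T.Ray → k
  | .p z z' _ => T.Tp k z z'
  | .q x z y w _ _ => T.Tq k x z y w

/-- The action of a word; the last letter acts first. -/
def wd : List T.Gn → (T.Ray → k) →ₗ[k] T.Ray → k
  | [] => LinearMap.id
  | g :: l => T.act k g ∘ₗ wd l

@[simp] lemma wd_nil (a : T.Ray → k) : T.wd k [] a = a := rfl

@[simp] lemma wd_cons (g : T.Gn) (l : List T.Gn) (a : T.Ray → k) :
    T.wd k (g :: l) a = T.act k g (T.wd k l a) := rfl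

lemma wd_append (l l' : List T.Gn) (a : T.Ray → k) :
    T.wd k (l ++ l') a = T.wd k l (T.wd k l' a) := by
  induction l with
  | nil => rfl
  | cons g l ih => rw [List.cons_append, wd_cons, wd_cons, ih]

variable {T}

/-- The real point of a lattice point. -/
def rc (a : T.Λ) : T.Ray → ℝ := fun ρ => a ρ

lemma act_rc (g : T.Gn) (a : T.Λ) : T.act ℝ g (rc a) = rc (T.act ℤ g a) := by
  ext ρ
  cases g <;> simp only [act, Tp_apply, Tq_apply, rc] <;> push_cast [apply_ite (Int.cast : ℤ → ℝ)] <;>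
    rfl

lemma wd_rc (l : List T.Gn) (a : T.Λ) : T.wd ℝ l (rc a) = rc (T.wd ℤ l a) := by
  induction l with
  | nil => rfl
  | cons g l ih => rw [wd_cons, wd_cons, ih, act_rc]

variable (T)

/-- The chamber. -/
def Ch (a : T.Ray → ℝ) : Prop := (∀ z z', T.Opp z z' → 0 ≤ a z + a z') ∧
  ∀ x z y w, T.Tri x z y → T.Opp y w → 0 ≤ a x + a z + a w

/-- What the descent needs to know about the effective lattice points. -/
structure EffS (E : Set T.Λ) : Prop where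
  act : ∀ g, ∀ a ∈ E, T.act ℤ g a ∈ E
  norm : ∀ a ∈ E, ∀ z z', T.Opp z z' → ∀ (h : T.Λ) (j : ℤ), (∀ ρ, 0 ≤ h ρ) → h z = 0 → h z' = 0 →
    ∑ ρ, h ρ • T.v ρ = j • T.v z →
      0 ≤ h ⬝ᵥ (a + T.Tp ℤ z z' a) - j * (a + T.Tp ℤ z z' a) z

/-- Every point of the cone over `E` moves into the chamber. -/
def Desc (E : Set T.Λ) : Prop :=
  ∀ x ∈ Submodule.span ℝ≥0 (rc '' E), ∃ l, T.Ch (T.wd ℝ l x)

/-- A plane with at least five rays; `v2 = v1 + v3`, `v4 = -v1`, `v5 = -v3`. -/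
structure Pent where
  v1 : T.Ray
  v2 : T.Ray
  v3 : T.Ray
  v4 : T.Ray
  v5 : T.Ray
  tri : T.Tri v1 v3 v2
  o1 : T.Opp v1 v4
  o3 : T.Opp v3 v5

/-- Coordinates, duals and the local structure of the fan. -/
structure C0 : Prop where
  coord : ∀ m, T.V m → ∀ w : T.M, ∃ c : T.Λ, (∀ ρ ∉ T.F m, c ρ = 0) ∧ w = ∑ ρ, c ρ • T.v ρ
  indep : ∀ m, T.V m → ∀ c : T.Λ, (∀ ρ ∉ T.F m, c ρ = 0) → ∑ ρ, c ρ • T.v ρ = 0 → c = 0
  dual : ∀ m, T.V m → ∀ c : T.Λ, ∃ u : T.M, ∀ ρ ∈ T.F m, u ⬝ᵥ T.v ρ = c ρ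
  ext : ∀ m, T.V m → ∀ u : T.M, (∀ ρ ∈ T.F m, u ⬝ᵥ T.v ρ = 0) → u = 0
  card : ∀ m, T.V m → (T.F m).card = T.n
  cov : ∀ w : T.M, ∃ m, T.V m ∧ ∃ c : T.Λ, (∀ ρ, 0 ≤ c ρ) ∧ (∀ ρ ∉ T.F m, c ρ = 0) ∧
    w = ∑ ρ, c ρ • T.v ρ
  fin : {u | T.P u}.Finite
  ray : ∀ ρ, T.Face {ρ}
  star : ∀ τ, T.Face τ → ∀ w : T.M, ∃ m, T.V m ∧ τ ⊆ T.F m ∧ ∃ c : T.Λ,
    (∀ ρ ∉ T.F m, c ρ = 0) ∧ (∀ ρ ∉ τ, 0 ≤ c ρ) ∧ w = ∑ ρ, c ρ • T.v ρ
  edge : ∀ m, T.V m → ∀ ρ ∈ T.F m, ∀ u : T.M, u ⬝ᵥ T.v ρ = 0 →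
    (∀ σ ∈ T.F m, σ ≠ ρ → u ⬝ᵥ T.v σ = -1) → T.P u
  pos : ∀ τ, T.Face τ → ∃ (a : ℤ) (u : T.M), (∀ ρ ∈ τ, a + u ⬝ᵥ T.v ρ = 0) ∧
    ∀ ρ ∉ τ, 0 < a + u ⬝ᵥ T.v ρ
  two : ∀ (ρ : T.Ray) (w : T.M), (¬∃ j : ℤ, w = j • T.v ρ) → ∃ u u' : T.M, T.P u ∧ T.P u' ∧
    u ⬝ᵥ T.v ρ = -1 ∧ u' ⬝ᵥ T.v ρ = -1 ∧ u ⬝ᵥ w ≠ u' ⬝ᵥ w

/-- Primitive pairs, first part. -/
structure C1a : Prop where
  nf : ∀ x z, ¬T.Nb x z ↔ T.Opp x z ∨ ∃ y, T.Tri x z y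
  swap : ∀ x z y, T.Tri x z y → ∀ τ, T.Face τ → y ∈ τ → z ∉ τ → T.Face (insert x τ)
  pent : ∀ x z y z' y', T.Tri x z y → T.Tri x z' y' → z ≠ z' → T.Opp y z' ∧ T.Opp z y'
  mid : ∀ a b c, T.v a + T.v b = (2 : ℤ) • T.v c → a = c
  prim : ∀ a b (j : ℤ), T.v a = j • T.v b → a = b ∨ T.Opp b a
  dual : ∀ x z y, T.Tri x z y → ∀ i j : ℤ, ∃ u : T.M, u ⬝ᵥ T.v x = i ∧ u ⬝ᵥ T.v z = j
  sat : ∀ x z y, T.Tri x z y → ∀ w : T.M,
    (∀ u : T.M, u ⬝ᵥ T.v x = 0 → u ⬝ᵥ T.v z = 0 → u ⬝ᵥ w = 0) → ∃ i j : ℤ, w = i • T.v x + j • T.v z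
  sat1 : ∀ z (w : T.M), (∀ u : T.M, u ⬝ᵥ T.v z = 0 → u ⬝ᵥ w = 0) → ∃ j : ℤ, w = j • T.v z
  out : ∀ x z, ∃ ρ, ¬T.InV x z ρ

/-- Primitive pairs. -/
structure C1 : Prop extends T.C1a where
  cong : ∀ x z y, T.Tri x z y → ∀ ρ σ, ¬T.InV x z ρ → (T.Nb y ρ ↔ T.Nb y σ) → ∀ i j : ℤ,
    T.v σ = T.v ρ + i • T.v x + j • T.v z → σ = ρ
  inv : ∀ x z y, T.Tri x z y → ∀ ρ, T.InV x z ρ →
    ρ = x ∨ ρ = z ∨ ρ = y ∨ T.Opp x ρ ∨ T.Opp y ρ ∨ T.Opp z ρ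
  gam : ∀ x z y x' z' y', T.Tri x z y → T.Tri x' z' y' → ¬(x' = x ∧ z' = z) → ¬(x' = z ∧ z' = x) →
    T.ka x z y y' ≤ T.ka x z y x' + T.ka x z y z' ∧ T.om x z y' ≤ T.om x z x' + T.om x z z'
  cls : ∀ x z y w, T.Tri x z y → T.Opp y w → ∀ i j : ℤ, 0 ≤ i → 0 ≤ j → 1 ≤ i + j → i + j ≤ 3 →
    ((∃ σ, T.Opp x σ) → i ≤ 2) → ((∃ σ, T.Opp z σ) → j ≤ 2) →
      ∃ u, T.P u ∧ u ⬝ᵥ T.v x = i - 1 ∧ u ⬝ᵥ T.v z = j - 1
  plane : ∀ (S : T.Pent) (ρ : T.Ray), T.InV S.v1 S.v3 ρ → ∀ σ t, T.Tri ρ σ t →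
    T.InV S.v1 S.v3 σ ∧ T.InV S.v1 S.v3 t

/-- The in-plane generators on a pentagon. -/
structure PL7 (S : T.Pent) (a : T.Ray → k) : Prop where
  p1 : T.Tp k S.v1 S.v4 a S.v1 = -a S.v4
  p2 : T.Tp k S.v1 S.v4 a S.v2 = a S.v1 + a S.v3
  p3 : T.Tp k S.v1 S.v4 a S.v3 = a S.v2 + a S.v4
  p4 : T.Tp k S.v1 S.v4 a S.v4 = -a S.v1
  p5 : T.Tp k S.v1 S.v4 a S.v5 = a S.v5 + a S.v1 + a S.v4
  po : ∀ ρ, ¬T.InV S.v1 S.v3 ρ → T.Tp k S.v1 S.v4 a ρ = a ρ + a S.v1 + a S.v4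
  q1 : T.Tq k S.v2 S.v5 S.v1 S.v4 a S.v1 =
    a S.v1 + 2 * (2 * (a S.v2 + a S.v4 + a S.v5) + (a S.v3 + a S.v5))
  q2 : T.Tq k S.v2 S.v5 S.v1 S.v4 a S.v2 = a S.v2
  q3 : T.Tq k S.v2 S.v5 S.v1 S.v4 a S.v3 = a S.v3 - 2 * (a S.v3 + a S.v5)
  q4 : T.Tq k S.v2 S.v5 S.v1 S.v4 a S.v4 = a S.v4 - 2 * (a S.v2 + a S.v4 + a S.v5)
  q5 : T.Tq k S.v2 S.v5 S.v1 S.v4 a S.v5 = a S.v5
  qo : ∀ ρ, ¬T.InV S.v1 S.v3 ρ → T.Tq k S.v2 S.v5 S.v1 S.v4 a ρ =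
    a ρ + 2 * (2 * (a S.v2 + a S.v4 + a S.v5) + (a S.v3 + a S.v5))

/-- The in-plane generators on a hexagon with sixth ray `v6 = -v2`. -/
structure PL6 (S : T.Pent) (v6 : T.Ray) (a : T.Ray → k) : Prop where
  p1 : T.Tp k S.v1 S.v4 a S.v1 = -a S.v4
  p2 : T.Tp k S.v1 S.v4 a S.v2 = a S.v1 + a S.v3
  p3 : T.Tp k S.v1 S.v4 a S.v3 = a S.v2 + a S.v4
  p4 : T.Tp k S.v1 S.v4 a S.v4 = -a S.v1
  p5 : T.Tp k S.v1 S.v4 a S.v5 = a S.v1 + a v6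
  p6 : T.Tp k S.v1 S.v4 a v6 = a S.v4 + a S.v5
  po : ∀ ρ, ¬T.InV S.v1 S.v3 ρ → T.Tp k S.v1 S.v4 a ρ = a ρ + a S.v1 + a S.v4
  q1 : T.Tq k S.v2 S.v5 S.v1 S.v4 a S.v1 =
    a S.v1 + 2 * ((a S.v2 + a S.v4 + a S.v5) + (a S.v2 + a v6) + (a S.v3 + a S.v5))
  q2 : T.Tq k S.v2 S.v5 S.v1 S.v4 a S.v2 = a S.v2
  q3 : T.Tq k S.v2 S.v5 S.v1 S.v4 a S.v3 = a S.v3 - 2 * (a S.v3 + a S.v5)
  q4 : T.Tq k S.v2 S.v5 S.v1 S.v4 a S.v4 = a S.v4 - 2 * (a S.v2 + a S.v4 + a S.v5)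
  q5 : T.Tq k S.v2 S.v5 S.v1 S.v4 a S.v5 = a S.v5
  q6 : T.Tq k S.v2 S.v5 S.v1 S.v4 a v6 = a v6 - 2 * (a S.v2 + a v6)
  qo : ∀ ρ, ¬T.InV S.v1 S.v3 ρ → T.Tq k S.v2 S.v5 S.v1 S.v4 a ρ =
    a ρ + 2 * ((a S.v2 + a S.v4 + a S.v5) + (a S.v2 + a v6) + (a S.v3 + a S.v5))

/-- No ray lies in two pairs whose sum is a ray. -/
def RegN : Prop := ∀ x z y z' y', T.Tri x z y → T.Tri x z' y' → z = z'

/-- Balanced weights for the line `z, z'`. -/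
structure Bal (z z' : T.Ray) (h : T.Λ) (j : ℤ) : Prop where
  z0 : h z = 0
  z1 : h z' = 0
  pos : ∀ ρ, ρ ≠ z → ρ ≠ z' → 1 ≤ h ρ
  sum : ∑ ρ, h ρ • T.v ρ = j • T.v z
  bal : ∀ x w y w', T.Tri x w y → T.Opp w w' → w ≠ z → w ≠ z' → h x = h y

/-- The height attached to weights. -/
def Ht (z z' : T.Ray) (h : T.Λ) (j : ℤ) (a : T.Ray → ℝ) : ℝ :=
  rc h ⬝ᵥ (a + T.Tp ℝ z z' a) - j * (a + T.Tp ℝ z z' a) z

end Fano

end Pool.Agent.Lib.TF
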