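import Pool.Agent.Lib.TF.LDefs

open Set
open scoped Classical

set_option linter.unusedSectionVars false
set_option linter.unusedVariables false

noncomputable section

namespace Pool.Agent.Lib.TF

/-- Laurent polynomials. -/
abbrev La (n : ℕ) : Type := AddMonoidAlgebra ℂ (Fin n → ℤ)

variable {n : ℕ}

/-- Monomials. -/
def mn (u : Fin n → ℤ) : La n := .single u 1

/-- The part of `G` with exponents in `S`. -/
def part (S : (Fin n → ℤ) → Prop) (G : La n) : La n := .ofCoeff (G.coeff.filter S)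

/-- All exponents of `G` lie in `S`. -/
def Sup (S : (Fin n → ℤ) → Prop) (G : La n) : Prop := ∀ u, G.coeff u ≠ 0 → S u

/-- All degrees with respect to `w` are at least `k`. -/
abbrev Lo (w : Fin n → ℤ) (k : ℤ) (G : La n) : Prop := Sup (fun u => k ≤ u ⬝ᵥ w) G

/-- Homogeneous of degree `k` with respect to `w`. -/
abbrev Hom (w : Fin n → ℤ) (k : ℤ) (G : La n) : Prop := Sup (fun u => u ⬝ᵥ w = k) G

/-- The degree `k` occurs. -/
def At (w : Fin n → ℤ) (k : ℤ) (G : La n) : Prop := ∃ u, G.coeff u ≠ 0 ∧ u ⬝ᵥ w = k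

/-- The homogeneous component of degree `k`. -/
abbrev inn (w : Fin n → ℤ) (k : ℤ) (G : La n) : La n := part (fun u => u ⬝ᵥ w = k) G

/-- Logarithmic derivative in the direction `w`. -/
def ld (w : Fin n → ℤ) (G : La n) : La n :=
  .ofCoeff (Finsupp.onFinset G.coeff.support (fun u => ((u ⬝ᵥ w : ℤ) : ℂ) * G.coeff u)
    fun u h => Finsupp.mem_support_iff.2 (right_ne_zero_of_mul h))

/-- The action of a field automorphism on coefficients. -/
def cg (g : ℂ ≃+* ℂ) : La n →+* La n := AddMonoidAlgebra.mapRingHom _ g.toRingHom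

/-- All coefficients lie in `k`. -/
def Ink (k : Subfield ℂ) (G : La n) : Prop := ∀ u, G.coeff u ∈ k

variable {S S' S'' : (Fin n → ℤ) → Prop} {G H : La n} {u w : Fin n → ℤ} {a b k : ℤ}

lemma La.ext (h : ∀ u, G.coeff u = H.coeff u) : G = H :=
  AddMonoidAlgebra.coeff_injective (Finsupp.ext h)

lemma coeff_part (S : (Fin n → ℤ) → Prop) (G : La n) (u : Fin n → ℤ) :
    (part S G).coeff u = if S u then G.coeff u else 0 := Finsupp.filter_apply _ _ _

@[simp] lemma coeff_ld (w : Fin n → ℤ) (G : La n) (u : Fin n → ℤ) :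
    (ld w G).coeff u = ((u ⬝ᵥ w : ℤ) : ℂ) * G.coeff u := rfl

@[simp] lemma coeff_cg (g : ℂ ≃+* ℂ) (G : La n) (u : Fin n → ℤ) :
    (cg g G).coeff u = g (G.coeff u) := AddMonoidAlgebra.coeff_mapRingHom _ _ _

lemma coeff_mn (u u' : Fin n → ℤ) : (mn u).coeff u' = if u = u' then 1 else 0 := by
  simp [mn, Finsupp.single_apply]

lemma mn_add (u u' : Fin n → ℤ) : mn (u + u') = mn u * mn u' := by
  simp [mn, AddMonoidAlgebra.single_mul_single]

@[simp] lemma mn_zero : mn (0 : Fin n → ℤ) = 1 := rfl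

lemma mn_mul_neg (u : Fin n → ℤ) : mn u * mn (-u) = 1 := by rw [← mn_add, add_neg_cancel, mn_zero]

lemma isUnit_mn (u : Fin n → ℤ) : IsUnit (mn u) := IsUnit.of_mul_eq_one _ (mn_mul_neg u)

lemma mn_ne (u : Fin n → ℤ) : mn u ≠ 0 := (isUnit_mn u).ne_zero

lemma mn_nsmul (u : Fin n → ℤ) (m : ℕ) : mn (m • u) = mn u ^ m := by
  induction m with
  | zero => simp
  | succ m ih => rw [succ_nsmul, mn_add, ih, pow_succ]

lemma single_eq (u : Fin n → ℤ) (c : ℂ) : (AddMonoidAlgebra.single u c : La n) = c • mn u := by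
  simp [mn]

lemma coeff_mul_mn (G : La n) (u u' : Fin n → ℤ) : (G * mn u).coeff u' = G.coeff (u' - u) := by
  simp [mn, AddMonoidAlgebra.coeff_mul_single_apply, sub_eq_add_neg]

lemma eq_sum (G : La n) : G = ∑ u ∈ G.coeff.support, G.coeff u • mn u := by
  conv_lhs => rw [← AddMonoidAlgebra.sum_coeff_single G]
  simp [Finsupp.sum, single_eq]

lemma ne_zero_iff : G ≠ 0 ↔ ∃ u, G.coeff u ≠ 0 := by
  rw [← not_iff_not]
  push Not
  exact ⟨fun h u => by simp [h], fun h => La.ext h⟩

lemma exists_of_mul (h : (G * H).coeff u ≠ 0) :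
    ∃ u₁ u₂, G.coeff u₁ ≠ 0 ∧ H.coeff u₂ ≠ 0 ∧ u = u₁ + u₂ := by
  obtain ⟨u₁, h1, u₂, h2, rfl⟩ := Finset.mem_add.1
    (AddMonoidAlgebra.support_coeff_mul_subset G H (Finsupp.mem_support_iff.2 h))
  exact ⟨u₁, u₂, Finsupp.mem_support_iff.1 h1, Finsupp.mem_support_iff.1 h2, rfl⟩

lemma Sup.mono (h : Sup S G) (h' : ∀ u, S u → S' u) : Sup S' G := fun u hu => h' u (h u hu)

lemma Sup.and (h : Sup S G) (h' : Sup S' G) : Sup (fun u => S u ∧ S' u) G :=
  fun u hu => ⟨h u hu, h' u hu⟩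

lemma Sup.zero : Sup S (0 : La n) := fun u hu => absurd (by simp) hu

lemma Sup.add (h : Sup S G) (h' : Sup S H) : Sup S (G + H) := fun u hu => by
  by_contra h1
  exact hu (by simp [not_not.1 (mt (h u) h1), not_not.1 (mt (h' u) h1)])

lemma Sup.neg (h : Sup S G) : Sup S (-G) := fun u hu => h u (by simpa using hu)

lemma Sup.sub (h : Sup S G) (h' : Sup S H) : Sup S (G - H) := by
  rw [sub_eq_add_neg]; exact h.add h'.neg

lemma Sup.smul (h : Sup S G) (c : ℂ) : Sup S (c • G) := fun u hu =>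
  h u (right_ne_zero_of_mul (by simpa using hu))

lemma Sup.sum {ι : Type*} {s : Finset ι} {G : ι → La n} (h : ∀ i ∈ s, Sup S (G i)) :
    Sup S (∑ i ∈ s, G i) :=
  Finset.sum_induction _ _ (fun _ _ => Sup.add) Sup.zero h

lemma Sup.mul (h : Sup S G) (h' : Sup S' H) (hS : ∀ u u', S u → S' u' → S'' (u + u')) :
    Sup S'' (G * H) := fun u hu => by
  obtain ⟨u₁, u₂, h1, h2, rfl⟩ := exists_of_mul hu
  exact hS _ _ (h _ h1) (h' _ h2)

lemma sup_mn : Sup S (mn u) ↔ S u :=
  ⟨fun h => h u (by simp [coeff_mn]), fun h u' hu => by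
    rw [coeff_mn] at hu
    split_ifs at hu with h1
    · exact h1 ▸ h
    · exact absurd rfl hu⟩

lemma sup_single (h : S u) (c : ℂ) : Sup S (.single u c) := single_eq u c ▸ (sup_mn.2 h).smul c

lemma sup_one (h : S 0) : Sup S (1 : La n) := sup_mn.2 h

lemma sup_algebraMap (h : S 0) (c : ℂ) : Sup S (algebraMap ℂ (La n) c) := by
  rw [Algebra.algebraMap_eq_smul_one]; exact (sup_one h).smul c

lemma sup_part : Sup S (part S G) := fun u hu => by
  by_contra h
  exact hu (by rw [coeff_part, if_neg h])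

lemma Sup.part (h : Sup S G) : Sup S (part S' G) := fun u hu => h u fun h1 =>
  hu (by rw [coeff_part, h1, ite_self])

lemma Sup.ld (h : Sup S G) (w : Fin n → ℤ) : Sup S (ld w G) := fun u hu =>
  h u (right_ne_zero_of_mul hu)

lemma Sup.cg (h : Sup S G) (g : ℂ ≃+* ℂ) : Sup S (cg g G) := fun u hu =>
  h u fun h1 => hu (by simp [h1])

lemma part_of_sup (h : Sup S G) : part S G = G := La.ext fun u => by
  rw [coeff_part]
  split_ifs with h1
  · rfl
  · exact (not_not.1 (mt (h u) h1)).symm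

lemma part_eq_zero (h : Sup (fun u => ¬S u) G) : part S G = 0 := La.ext fun u => by
  rw [coeff_part]
  split_ifs with h1
  · exact not_not.1 fun h2 => h u h2 h1
  · rfl

lemma part_ne_zero : part S G ≠ 0 ↔ ∃ u, G.coeff u ≠ 0 ∧ S u := by
  simp only [ne_zero_iff, coeff_part]
  refine exists_congr fun u => ?_
  split_ifs with h <;> simp [h]

lemma part_congr (h : ∀ u, G.coeff u ≠ 0 → (S u ↔ S' u)) : part S G = part S' G :=
  La.ext fun u => by
    by_cases h1 : G.coeff u = 0
    · simp [coeff_part, h1]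
    · simp [coeff_part, h u h1]

lemma part_part : part S (part S' G) = part (fun u => S u ∧ S' u) G := La.ext fun u => by
  simp only [coeff_part]
  by_cases h : S u <;> by_cases h' : S' u <;> simp [h, h']

@[simp] lemma part_zero : part S (0 : La n) = 0 := part_of_sup Sup.zero

lemma part_add : part S (G + H) = part S G + part S H := La.ext fun u => by
  by_cases h : S u <;> simp [coeff_part, h]

lemma part_neg : part S (-G) = -part S G := La.ext fun u => by
  by_cases h : S u <;> simp [coeff_part, h]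

lemma part_sub : part S (G - H) = part S G - part S H := by
  rw [sub_eq_add_neg, part_add, part_neg, sub_eq_add_neg]

lemma part_smul (c : ℂ) : part S (c • G) = c • part S G := La.ext fun u => by
  by_cases h : S u <;> simp [coeff_part, h]

lemma part_sum {ι : Type*} (s : Finset ι) (G : ι → La n) :
    part S (∑ i ∈ s, G i) = ∑ i ∈ s, part S (G i) := by
  induction s using Finset.induction_on with
  | empty => simp
  | insert i s hi ih => rw [Finset.sum_insert hi, Finset.sum_insert hi, part_add, ih]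

lemma part_add_part_not : part S G + part (fun u => ¬S u) G = G := La.ext fun u => by
  by_cases h : S u <;> simp [coeff_part, h]

lemma part_or (h : ∀ u, S u → ¬S' u) : part (fun u => S u ∨ S' u) G = part S G + part S' G :=
  La.ext fun u => by
    by_cases h1 : S u
    · simp [coeff_part, h1, h u h1]
    · by_cases h2 : S' u <;> simp [coeff_part, h1, h2]

lemma part_mul_mn : part S (G * mn u) = part (fun u' => S (u' + u)) G * mn u := La.ext fun u' => by
  simp only [coeff_part, coeff_mul_mn, sub_add_cancel]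

lemma Lo.mul (h : Lo w a G) (h' : Lo w b H) : Lo w (a + b) (G * H) :=
  Sup.mul h h' fun u u' h1 h2 => by rw [add_dotProduct]; omega

lemma Hom.mul (h : Hom w a G) (h' : Hom w b H) : Hom w (a + b) (G * H) :=
  Sup.mul h h' fun u u' h1 h2 => by rw [add_dotProduct]; omega

lemma Lo.pow (h : Lo w a G) (m : ℕ) : Lo w (m * a) (G ^ m) := by
  induction m with
  | zero => exact sup_one (by simp)
  | succ m ih => rw [pow_succ]; push_cast; rw [add_mul, one_mul]; exact Lo.mul ih h

lemma Hom.pow (h : Hom w a G) (m : ℕ) : Hom w (m * a) (G ^ m) := by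
  induction m with
  | zero => exact sup_one (by simp)
  | succ m ih => rw [pow_succ]; push_cast; rw [add_mul, one_mul]; exact Hom.mul ih h

lemma Hom.lo (h : Hom w a G) : Lo w a G := Sup.mono h fun _ h => h.ge

lemma Lo.le (h : Lo w a G) (h' : b ≤ a) : Lo w b G := Sup.mono h fun _ h => h'.trans h

lemma Lo.succ (h : Lo w a G) (h' : ¬At w a G) : Lo w (a + 1) G := fun u hu =>
  (h u hu).lt_of_ne fun h1 => h' ⟨u, hu, h1.symm⟩

lemma Lo.sub_inn (h : Lo w a G) : Lo w (a + 1) (G - inn w a G) := fun u hu => by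
  have h1 : (G - inn w a G).coeff u = G.coeff u - if u ⬝ᵥ w = a then G.coeff u else 0 := by
    simp [coeff_part]
  rw [h1] at hu
  split_ifs at hu with h2
  · simp at hu
  · exact (h u (by simpa using hu)).lt_of_ne' h2

lemma inn_ne_zero : inn w a G ≠ 0 ↔ At w a G := part_ne_zero

lemma Lo.inn_eq_zero (h : Lo w (a + 1) G) : inn w a G = 0 :=
  part_eq_zero (Sup.mono h fun _ h => by omega)

lemma inn_mul (h : Lo w a G) (h' : Lo w b H) : inn w (a + b) (G * H) = inn w a G * inn w b H := by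
  have e : G * H = inn w a G * inn w b H +
      ((G - inn w a G) * H + inn w a G * (H - inn w b H)) := by ring
  have h1 : Hom w (a + b) (inn w a G * inn w b H) := Hom.mul sup_part sup_part
  have h2 : Lo w (a + b + 1) ((G - inn w a G) * H + inn w a G * (H - inn w b H)) :=
    Sup.add (Lo.le (Lo.mul h.sub_inn h') (by omega))
      (Lo.le (Lo.mul (Hom.lo sup_part) h'.sub_inn) (by omega))
  conv_lhs => rw [e]
  rw [inn, part_add, part_of_sup h1, show part _ _ = 0 from h2.inn_eq_zero, add_zero]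

lemma At.mul (h : Lo w a G) (h' : Lo w b H) (h1 : At w a G) (h2 : At w b H) :
    At w (a + b) (G * H) :=
  inn_ne_zero.1 (inn_mul h h' ▸ mul_ne_zero (inn_ne_zero.2 h1) (inn_ne_zero.2 h2))

lemma exists_lo (h : G ≠ 0) (w : Fin n → ℤ) : ∃ a, Lo w a G ∧ At w a G := by
  obtain ⟨u, h1, h2⟩ := G.coeff.support.exists_min_image (fun u => u ⬝ᵥ w)
    ((ne_zero_iff.1 h).imp fun _ h => Finsupp.mem_support_iff.2 h)
  exact ⟨_, fun u' hu => h2 u' (Finsupp.mem_support_iff.2 hu), u, Finsupp.mem_support_iff.1 h1, rfl⟩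

lemma exists_lo' (G : La n) (w : Fin n → ℤ) : ∃ a, Lo w a G := by
  by_cases h : G = 0
  · exact ⟨0, h ▸ Sup.zero⟩
  · exact (exists_lo h w).imp fun _ h => h.1

/-- Gauss lemma for lowest degrees. -/
lemma Lo.cancel (h : Lo w a G) (h1 : At w a G) (h2 : Lo w (a + b) (G * H)) : Lo w b H := by
  by_cases h0 : H = 0
  · exact h0 ▸ Sup.zero
  obtain ⟨c, h3, h4⟩ := exists_lo h0 w
  obtain ⟨u, h5, h6⟩ := At.mul h h3 h1 h4
  have := h2 u h5
  exact h3.le (by omega)

lemma hom_iff : Hom w a G ↔ Lo w a G ∧ Lo (-w) (-a) G :=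
  ⟨fun h => ⟨h.lo, Sup.mono h fun u h => by rw [dotProduct_neg]; omega⟩, fun h u hu => by
    have h1 := h.1 u hu
    have h2 := h.2 u hu
    beta_reduce at h1 h2 ⊢
    rw [dotProduct_neg] at h2
    omega⟩

lemma Hom.cancel (h : Hom w a G) (h0 : G ≠ 0) (h2 : Hom w (a + b) (G * H)) : Hom w b H := by
  obtain ⟨u, hu⟩ := ne_zero_iff.1 h0
  refine hom_iff.2 ⟨h.lo.cancel ⟨u, hu, h u hu⟩ h2.lo,
    (hom_iff.1 h).2.cancel ⟨u, hu, by rw [dotProduct_neg, h u hu]⟩ ?_⟩
  rw [← neg_add]
  exact (hom_iff.1 h2).2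

/-- Divisors of homogeneous elements are homogeneous. -/
lemma Hom.of_mul (h0 : G * H ≠ 0) (h : Hom w k (G * H)) : ∃ a, Hom w a G := by
  obtain ⟨a, h1, h2⟩ := exists_lo (left_ne_zero_of_mul h0) w
  obtain ⟨b, h3, h4⟩ := exists_lo (right_ne_zero_of_mul h0) w
  obtain ⟨a', h5, h6⟩ := exists_lo (left_ne_zero_of_mul h0) (-w)
  obtain ⟨b', h7, u₂, h8, h9⟩ := exists_lo (right_ne_zero_of_mul h0) (-w)
  obtain ⟨u, e1, e2⟩ := At.mul h1 h3 h2 h4
  obtain ⟨u', e3, e4⟩ := At.mul h5 h7 h6 ⟨u₂, h8, h9⟩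
  have e5 := h u e1
  have e6 := h u' e3
  have e7 := h3 u₂ h8
  rw [dotProduct_neg] at e4 h9
  refine ⟨a, fun v hv => ?_⟩
  have e8 := h1 v hv
  have e9 := h5 v hv
  beta_reduce at e8 e9 ⊢
  rw [dotProduct_neg] at e9
  omega

lemma Hom.of_dvd (h0 : H ≠ 0) (h : Hom w k H) (hd : G ∣ H) : ∃ a, Hom w a G := by
  obtain ⟨Q, rfl⟩ := hd
  exact Hom.of_mul h0 h

lemma ld_add : ld w (G + H) = ld w G + ld w H := La.ext fun u => by simp [mul_add]

lemma ld_smul (c : ℂ) : ld w (c • G) = c • ld w G := La.ext fun u => by simp; ring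

@[simp] lemma ld_zero : ld w (0 : La n) = 0 := La.ext fun u => by simp

lemma ld_mn : ld w (mn u) = ((u ⬝ᵥ w : ℤ) : ℂ) • mn u := La.ext fun u' => by
  by_cases h : u = u' <;> simp [coeff_mn, h]

lemma ld_sum {ι : Type*} (s : Finset ι) (G : ι → La n) :
    ld w (∑ i ∈ s, G i) = ∑ i ∈ s, ld w (G i) := by
  induction s using Finset.induction_on with
  | empty => simp
  | insert i s hi ih => rw [Finset.sum_insert hi, Finset.sum_insert hi, ld_add, ih]

lemma ld_mul : ld w (G * H) = G * ld w H + ld w G * H := by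
  rw [eq_sum G, eq_sum H]
  simp only [Finset.sum_mul_sum, ld_sum, ld_smul, ld_mn, smul_mul_smul_comm, ← mn_add,
    ← Finset.sum_add_distrib, smul_smul, ← add_smul, add_dotProduct]
  refine Finset.sum_congr rfl fun _ _ => Finset.sum_congr rfl fun _ _ => ?_
  congr 1
  push_cast
  ring

lemma ld_dir (w : Fin n → ℤ) (G : La n) : ld w G = ∑ i, (w i : ℂ) • ld (Pi.single i 1) G :=
  La.ext fun u => by
    simp [dotProduct, Finset.sum_mul, Pi.single_apply, Finsupp.finsetSum_apply]
    exact Finset.sum_congr rfl fun _ _ => by ring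

lemma cg_mn (g : ℂ ≃+* ℂ) (u : Fin n → ℤ) : cg g (mn u) = mn u := La.ext fun u' => by
  by_cases h : u = u' <;> simp [coeff_mn, h]

section ink

variable {κ : Subfield ℂ}

lemma Ink.add (h : Ink κ G) (h' : Ink κ H) : Ink κ (G + H) := fun u => by
  simpa using add_mem (h u) (h' u)

lemma Ink.neg (h : Ink κ G) : Ink κ (-G) := fun u => by simpa using h u

lemma Ink.sub (h : Ink κ G) (h' : Ink κ H) : Ink κ (G - H) := by
  rw [sub_eq_add_neg]; exact h.add h'.neg

lemma Ink.mul (h : Ink κ G) (h' : Ink κ H) : Ink κ (G * H) := fun u => by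
  rw [AddMonoidAlgebra.coeff_mul]
  refine sum_mem fun _ _ => sum_mem fun _ _ => ?_
  dsimp only
  split_ifs
  · exact mul_mem (h _) (h' _)
  · exact zero_mem _

lemma ink_mn (u : Fin n → ℤ) : Ink κ (mn u) := fun u' => by
  rw [coeff_mn]; split_ifs; exacts [one_mem _, zero_mem _]

lemma Ink.pow (h : Ink κ G) (m : ℕ) : Ink κ (G ^ m) := by
  induction m with
  | zero => exact ink_mn 0
  | succ m ih => rw [pow_succ]; exact ih.mul h

lemma Ink.part (h : Ink κ G) : Ink κ (part S G) := fun u => by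
  rw [coeff_part]; split_ifs; exacts [h u, zero_mem _]

lemma Ink.cg (h : Ink κ G) {g : ℂ ≃+* ℂ} (hg : ∀ c ∈ κ, g c = c) : cg g G = G :=
  La.ext fun u => by rw [coeff_cg, hg _ (h u)]

end ink

end Pool.Agent.Lib.TF
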