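import Pool.Agent.Lib.MP_e39d36_ag.Sch2

open Set Pool.Agent.Lib.MP_e39d36_ag

noncomputable section

namespace Pool.Agent.Lib.TF

/-- `m` is at least `-1` on all rays, and the rays on which it equals `-1` form a basis of the
lattice. -/
def Vert {n r : ℕ} (v : Fin r → Fin n → ℤ) (m : Fin n → ℤ) : Prop :=
  (∀ ρ, -1 ≤ m ⬝ᵥ v ρ) ∧ LinearIndepOn ℤ v {ρ | m ⬝ᵥ v ρ = -1} ∧
    Submodule.span ℤ (v '' {ρ | m ⬝ᵥ v ρ = -1}) = ⊤

/-- A smooth toric Fano variety of dimension `n ≥ 4`, given by the primitive generators `v` of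
the rays of its fan. The maximal cones are spanned by the rays on which a vertex of the
anticanonical polytope equals `-1`; they cover the lattice. -/
structure Fano where
  n : ℕ
  r : ℕ
  v : Fin r → Fin n → ℤ
  dim : 4 ≤ n
  inj : Function.Injective v
  ne : ∀ ρ, v ρ ≠ 0
  cov : ∀ w, ∃ m, Vert v m ∧ w ∈ AddSubmonoid.closure (v '' {ρ | m ⬝ᵥ v ρ = -1})

namespace Fano

variable (T : Fano) {K : Type} [Field K] (ψ : AddMonoidAlgebra ℂ (Fin T.n → ℤ) →+* K)

/-- The image of the coordinate ring of the chart of the vertex `m`. -/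
def B (m : Fin T.n → ℤ) : Subring K :=
  Subring.closure {z | ∃ u c, (∀ ρ, m ⬝ᵥ T.v ρ = -1 → 0 ≤ u ⬝ᵥ T.v ρ) ∧ z = ψ (.single u c)}

/-- The local rings `O` are those of the hypersurface with equation `f`. -/
def Hyp [Algebra ℂ K] (f : AddMonoidAlgebra ℂ (Fin T.n → ℤ)) {Pt : Type} (O : Pt → Subring K) :
    Prop :=
  (∀ c, ψ (.single 0 c) = algebraMap ℂ K c) ∧ (∀ G, ψ G = 0 ↔ f ∣ G) ∧
    ∀ z, ∃ m, Vert T.v m ∧ LocOf (T.B ψ m) (O z)

end Fano

end Pool.Agent.Lib.TF
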