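import Pool.Agent.Lib.TF.Blue
import Pool.Agent.Lib.MV.Sch
import Pool.Agent.Lib.MV.B_SM

open AlgebraicGeometry CategoryTheory Order Pool.Agent.Lib.MP_e39d36_ag Pool.Agent.Lib.MV

set_option linter.unusedSectionVars false
set_option linter.style.haveILetI false
set_option linter.unusedVariables false

noncomputable section

namespace Pool.Agent.Lib.TF

lemma B_eq (T : Fano) {K : Type} [Field K] [Algebra ℂ K] (ψ : T.R →ₐ[ℂ] K) (m : T.M) :
    T.B ψ.toRingHom m = ((T.S0 (T.F m)).map ψ).toSubring := by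
  refine le_antisymm (Subring.closure_le.2 ?_) ?_
  · rintro _ ⟨u, c, h, rfl⟩
    exact ⟨.single u c, fun ρ hρ => sup_single (by simpa using h ρ (Fano.mem_F.1 hρ)) c, rfl⟩
  · rintro _ ⟨G, hG, rfl⟩
    rw [eq_sum G, map_sum]
    refine sum_mem fun u hu => Subring.subset_closure ⟨u, G.coeff u, fun ρ hρ => ?_, ?_⟩
    · simpa using hG ρ (Fano.mem_F.2 hρ) u (Finsupp.mem_support_iff.1 hu)
    · rw [single_eq]; rfl

theorem main (hP : St_PTS) (h1 : St_TP1) (h2 : St_TP2) (hF : St_FIN) (T : Fano)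
    (f : AddMonoidAlgebra ℂ (Fin T.n → ℤ)) (hs : ∀ u, f.coeff u ≠ 0 → ∀ ρ, -1 ≤ u ⬝ᵥ T.v ρ)
    (hg : AlgebraicIndependent ℚ fun u : {u // ∀ ρ, -1 ≤ u ⬝ᵥ T.v ρ} => f.coeff u)
    (Y : Scheme.{0}) [IsIntegral Y] [IsLocallyNoetherian Y] (s : Y ⟶ Spec (.of ℂ)) [Smooth s]
    (hY : IsProjective s) (ψ : AddMonoidAlgebra ℂ (Fin T.n → ℤ) →+* Y.functionField)
    (h : @Fano.Hyp T Y.functionField _ ψ (algK s) f Y OX) :
    ∃ S : Set (CDiv Y), S.Finite ∧ Covers s (cone S) ∧ ∀ φ L, IsPull s φ L → L ≠ 1 →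
      interior (cone S) ∩ L '' interior (cone S) = ∅ := by
  letI := algK s
  have hu := UFD.stalk_ufd s
  obtain ⟨c⟩ := exists_coord' hY (algK_spec _) fun y => by haveI := hu y; infer_instance
  have hf := SchB.fs s c
  let ψ' : T.R →ₐ[ℂ] Y.functionField := ⟨ψ, h.1⟩
  let M0 : T.Mod0 Y.functionField := ⟨f, ⟨hs, hg⟩, ψ', h.2.1, c.var, c.prj, c.curves,
    fun z => (h.2.2 z).imp fun m hm => ⟨hm.1, B_eq T ψ' m ▸ hm.2⟩,
    st_sm _ _ hf fun z => (eqO z).toMulEquiv.uniqueFactorizationMonoid (hu z)⟩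
  choose D hD using h1 T _ M0
  obtain ⟨S, h3, h4, h5⟩ := hF T _ ⟨M0, D, hD, h2 T _ M0 D hD, hP T _ M0⟩
  simp only [Var.Curves.Covers] at h4 h5
  simp only [M0, c.isPull_iff] at h4 h5
  exact ⟨S, h3, h4, h5⟩

end Pool.Agent.Lib.TF
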